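import Pool.Agent.H5.EC.Defs

/-! Part A1: geometry of the Schottky domain. -/

open Set Topology MeasureTheory
open scoped Manifold ContDiff

noncomputable section

namespace Pool.Agent.H5.EC

lemma Bd.inv_inv (b : Bd) : b.inv.inv = b := by
  obtain ⟨j, s⟩ := b
  simp [Bd.inv]

lemma Bd.inv_ne (b : Bd) : b.inv ≠ b := by
  obtain ⟨j, s⟩ := b
  cases s <;> simp [Bd.inv]

lemma Mv.inv_inv (i : Mv) : i.inv.inv = i := by
  cases i with
  | none => rfl
  | some b => simp [Mv.inv, Bd.inv_inv]

/-! #### auxiliary facts -/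

private lemma log2_pos : 0 < Real.log 2 := Real.log_pos (by norm_num)

private lemma cen_val (j : Fin 4) (s : Bool) :
    cen (j, s) = ((if s then (8 * (j : ℕ) : ℝ) else -(8 * (j : ℕ) : ℝ) : ℝ) : ℂ) := by
  cases s <;> simp [cen]

private lemma dep_false (z : ℂ) : dep (0, false) z = 7 - Real.log ‖z‖ / Real.log 2 := by
  simp [dep]

private lemma dep_other {b : Bd} (hb : b ≠ (0, false)) (z : ℂ) :
    dep b z = Real.log ‖z - cen b‖ / Real.log 2 := by
  simp [dep, hb]

private lemma dep_true (z : ℂ) : dep (0, true) z = Real.log ‖z‖ / Real.log 2 := by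
  rw [dep_other (by simp)]
  simp [cen]

private lemma log_div_pos_iff {r : ℝ} (hr : 0 ≤ r) : 0 < Real.log r / Real.log 2 ↔ 1 < r := by
  rw [div_pos_iff_of_pos_right log2_pos, Real.log_pos_iff hr]

private lemma log_div_le_iff {r : ℝ} (hr : 0 < r) (n : ℕ) :
    Real.log r / Real.log 2 ≤ n ↔ r ≤ 2 ^ n := by
  rw [div_le_iff₀ log2_pos, ← Real.log_pow, Real.log_le_log_iff hr (by positivity)]

private lemma log_div_lt_iff {r : ℝ} (hr : 0 < r) (n : ℕ) :
    Real.log r / Real.log 2 < n ↔ r < 2 ^ n := by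
  rw [div_lt_iff₀ log2_pos, ← Real.log_pow, Real.log_lt_log_iff hr (by positivity)]

private lemma le_log_div_iff {r : ℝ} (hr : 0 < r) (n : ℕ) :
    (n : ℝ) ≤ Real.log r / Real.log 2 ↔ (2 : ℝ) ^ n ≤ r := by
  rw [le_div_iff₀ log2_pos, ← Real.log_pow, Real.log_le_log_iff (by positivity) hr]

private lemma pos_other {b : Bd} (hb : b ≠ (0, false)) {z : ℂ} :
    0 < dep b z ↔ 1 < ‖z - cen b‖ := by
  rw [dep_other hb, log_div_pos_iff (norm_nonneg _)]

private lemma lt_one_other {b : Bd} (hb : b ≠ (0, false)) {z : ℂ} (hz : 0 < ‖z - cen b‖) :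
    dep b z < 1 ↔ ‖z - cen b‖ < 2 := by
  rw [dep_other hb]
  have := log_div_lt_iff hz 1
  simpa using this

private lemma pos_false {z : ℂ} : 0 < dep (0, false) z ↔ ‖z‖ < 128 := by
  rw [dep_false]
  rcases (norm_nonneg z).eq_or_lt with h | h
  · rw [← h]; simp
  · have := log_div_lt_iff h 7
    rw [sub_pos]
    norm_num at this ⊢
    exact this

private lemma lt_one_false {z : ℂ} (hz : 0 < ‖z‖) : dep (0, false) z < 1 ↔ 64 < ‖z‖ := by
  rw [dep_false]
  have := log_div_le_iff hz 6
  have h2 : 7 - Real.log ‖z‖ / Real.log 2 < 1 ↔ ¬ (Real.log ‖z‖ / Real.log 2 ≤ 6) := by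
    constructor
    · intro h h'; linarith
    · intro h; push Not at h; linarith
  rw [h2]
  norm_num at this ⊢
  rw [← not_le, ← not_le, this]

private lemma cen_true0 : cen (0, true) = 0 := by simp [cen]

lemma F_bdd {z : ℂ} (hz : z ∈ F) : 1 < ‖z‖ ∧ ‖z‖ < 128 := by
  constructor
  · have := (pos_other (b := (0, true)) (by simp) (z := z)).1 (hz _)
    simpa [cen_true0] using this
  · exact pos_false.1 (hz _)

private lemma F_other {z : ℂ} (hz : z ∈ F) {b : Bd} (hb : b ≠ (0, false)) : 1 < ‖z - cen b‖ :=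
  (pos_other hb).1 (hz b)

/-- `F` in terms of norms -/
private lemma mem_F_iff {z : ℂ} : z ∈ F ↔ ‖z‖ < 128 ∧ ∀ b : Bd, b ≠ (0, false) → 1 < ‖z - cen b‖ := by
  constructor
  · intro hz
    exact ⟨(F_bdd hz).2, fun b hb => F_other hz hb⟩
  · rintro ⟨h1, h2⟩ b
    by_cases hb : b = (0, false)
    · subst hb; exact pos_false.2 h1
    · exact (pos_other hb).2 (h2 b hb)

private lemma norm_cen (j : Fin 4) (s : Bool) : ‖cen (j, s)‖ = 8 * (j : ℕ) := by
  rw [cen_val, Complex.norm_real]
  cases s
  · simp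
  · simp

/-- centres are far apart -/
private lemma cen_sep {b b' : Bd} (h : b ≠ b') (hb : b ≠ (0, false)) (hb' : b' ≠ (0, false)) :
    8 ≤ ‖cen b - cen b'‖ := by
  obtain ⟨j, s⟩ := b
  obtain ⟨j', s'⟩ := b'
  rw [cen_val, cen_val, ← Complex.ofReal_sub, Complex.norm_real]
  fin_cases j <;> fin_cases j' <;> cases s <;> cases s' <;> simp_all <;> norm_num [abs_of_nonneg, abs_of_neg]

lemma F_nonempty : (32 : ℂ) ∈ F := by
  rw [mem_F_iff]
  constructor
  · norm_num
  · rintro ⟨j, s⟩ -
    rw [cen_val]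
    have : (32 : ℂ) = ((32 : ℝ) : ℂ) := by norm_num
    rw [this, ← Complex.ofReal_sub, Complex.norm_real]
    fin_cases j <;> cases s <;> norm_num [abs_of_nonneg]

lemma ne_cen {z : ℂ} (hz : z ∈ F) (b : Bd) : z ≠ cen b := by
  rintro rfl
  by_cases hb : b = (0, false)
  · subst hb
    have := (F_bdd hz).1
    simp [cen] at this
    linarith
  · have := F_other hz hb
    simp at this
    linarith

private lemma F_eq : F = {z : ℂ | ‖z‖ < 128} ∩ ⋂ b : Bd, {z : ℂ | b ≠ (0, false) → 1 < ‖z - cen b‖} := by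
  ext z
  rw [mem_F_iff]
  simp

lemma isOpen_F : IsOpen F := by
  rw [F_eq]
  refine (isOpen_lt continuous_norm continuous_const).inter ?_
  refine isOpen_iInter_of_finite fun b => ?_
  by_cases hb : b = (0, false)
  · simp [hb]
  · simp only [ne_eq, hb, not_false_eq_true, forall_true_left]
    exact isOpen_lt continuous_const (by fun_prop)

lemma contDiffAt_dep (b : Bd) {z : ℂ} (hz : z ∈ F) (n : WithTop ℕ∞) (hn : n ≤ ∞) : ContDiffAt ℝ n (dep b) z := by
  by_cases hb : b = (0, false)
  · subst hb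
    have e : dep (0, false) = fun z => 7 - Real.log ‖z‖ / Real.log 2 := funext dep_false
    rw [e]
    have h0 : z ≠ 0 := by
      have := (F_bdd hz).1
      rintro rfl
      simp at this
      linarith
    exact contDiffAt_const.sub (((contDiffAt_norm ℝ h0).log (by simpa using h0)).div_const _)
  · have e : dep b = fun z => Real.log ‖z - cen b‖ / Real.log 2 := funext (dep_other hb)
    rw [e]
    have h0 : z - cen b ≠ 0 := sub_ne_zero.2 (ne_cen hz b)
    exact (((contDiffAt_id.sub contDiffAt_const).norm ℝ h0).log (by simpa using h0)).div_const _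

lemma continuousOn_dep (b : Bd) : ContinuousOn (dep b) F := fun z hz =>
  (contDiffAt_dep b hz 0 (by simp)).continuousAt.continuousWithinAt

lemma isOpen_U (b : Bd) : IsOpen (U b) := by
  have : U b = F ∩ (dep b) ⁻¹' (Iio 1) := by
    ext z; rfl
  rw [this]
  exact (continuousOn_dep b).isOpen_inter_preimage isOpen_F isOpen_Iio

lemma isOpen_dom (i : Mv) : IsOpen (dom i) := by
  cases i with
  | none => exact isOpen_F
  | some b => exact isOpen_U b

lemma U_subset (b : Bd) : U b ⊆ F := fun _ h => h.1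

lemma dom_subset (i : Mv) : dom i ⊆ F := by
  cases i with
  | none => exact subset_rfl
  | some b => exact U_subset b

/-- norm description of a collar -/
private lemma U_false {z : ℂ} (hz0 : 0 < dep (0, false) z) (hz : dep (0, false) z < 1) :
    64 < ‖z‖ ∧ ‖z‖ < 128 := by
  have h1 := pos_false.1 hz0
  rcases (norm_nonneg z).eq_or_lt with h | h
  · rw [dep_false, ← h] at hz
    norm_num at hz
  · exact ⟨(lt_one_false h).1 hz, h1⟩

private lemma U_other {b : Bd} (hb : b ≠ (0, false)) {z : ℂ} (hz0 : 0 < dep b z) (hz : dep b z < 1) :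
    1 < ‖z - cen b‖ ∧ ‖z - cen b‖ < 2 := by
  have h1 := (pos_other hb).1 hz0
  exact ⟨h1, (lt_one_other hb (by linarith)).1 hz⟩

private lemma cen_le (b : Bd) : ‖cen b‖ ≤ 24 := by
  obtain ⟨j, s⟩ := b
  rw [norm_cen]
  have : (j : ℕ) ≤ 3 := by omega
  have : ((j : ℕ) : ℝ) ≤ 3 := by exact_mod_cast this
  linarith

private lemma two_le_other {b : Bd} (hb : b ≠ (0, false)) {z : ℂ} (h : 4 ≤ ‖z - cen b‖) :
    2 ≤ dep b z := by
  rw [dep_other hb]
  have := (le_log_div_iff (r := ‖z - cen b‖) (by linarith) 2).2 (by norm_num; linarith)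
  simpa using this

private lemma two_le_false {z : ℂ} (h : ‖z‖ ≤ 32) (h0 : 0 < ‖z‖) :
    2 ≤ dep (0, false) z := by
  rw [dep_false]
  have := (log_div_le_iff (r := ‖z‖) h0 5).2 (by norm_num; linarith)
  norm_num at this
  linarith

/-- a point of one collar is deep below all the other boundary components -/
lemma dep_sep {b b' : Bd} (h : b ≠ b') {z : ℂ} (hz0 : 0 < dep b z) (hz : dep b z < 1) :
    2 ≤ dep b' z := by
  by_cases hb : b = (0, false)
  · subst hb
    obtain ⟨h1, h2⟩ := U_false hz0 hz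
    refine two_le_other (Ne.symm h) ?_
    have h3 := cen_le b'
    have h4 := norm_sub_norm_le z (cen b')
    linarith
  · obtain ⟨h1, h2⟩ := U_other hb hz0 hz
    by_cases hb' : b' = (0, false)
    · subst hb'
      have h3 := cen_le b
      have h4 : ‖z‖ ≤ ‖z - cen b‖ + ‖cen b‖ := by
        have := norm_add_le (z - cen b) (cen b)
        simpa using this
      refine two_le_false (by linarith) ?_
      by_contra h0
      have h0' : ‖z‖ = 0 := le_antisymm (not_lt.1 h0) (norm_nonneg _)
      have hz' : z = 0 := norm_eq_zero.1 h0'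
      subst hz'
      obtain ⟨j, s⟩ := b
      rw [zero_sub, norm_neg, norm_cen] at h1 h2
      have h1' : 1 < 8 * (j : ℕ) := by exact_mod_cast h1
      have h2' : 8 * (j : ℕ) < 2 := by exact_mod_cast h2
      omega
    · refine two_le_other hb' ?_
      have h3 := cen_sep h hb hb'
      have h4 : ‖cen b - cen b'‖ ≤ ‖z - cen b‖ + ‖z - cen b'‖ := by
        have := norm_sub_le (z - cen b') (z - cen b)
        have e : (z - cen b') - (z - cen b) = cen b - cen b' := by ring
        rw [e] at this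
        linarith
      linarith

lemma U_disj {b b' : Bd} {z : ℂ} (h : z ∈ U b) (h' : z ∈ U b') : b = b' := by
  by_contra hne
  have := dep_sep hne (h.1 b) h.2
  have := h'.2
  linarith

/-- a point with depth in `(0,1)` below one component is in the collar -/
private lemma mem_U_of {b : Bd} {z : ℂ} (hz0 : 0 < dep b z) (hz : dep b z < 1) : z ∈ U b := by
  refine ⟨fun b' => ?_, hz⟩
  by_cases h : b = b'
  · subst h; exact hz0
  · have := dep_sep h hz0 hz
    linarith

private lemma inv_ne_of {b : Bd} (h1 : b ≠ (0, true)) (h2 : b ≠ (0, false)) :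
    b.inv ≠ (0, true) ∧ b.inv ≠ (0, false) := by
  obtain ⟨j, s⟩ := b
  constructor
  · intro h
    apply h2
    cases s <;> simp_all [Bd.inv]
  · intro h
    apply h1
    cases s <;> simp_all [Bd.inv]

private lemma mv_true (z : ℂ) : mv (0, true) z = 64 * z := by simp [mv]
private lemma mv_false (z : ℂ) : mv (0, false) z = z / 64 := by simp [mv]
private lemma mv_other {b : Bd} (h1 : b ≠ (0, true)) (h2 : b ≠ (0, false)) (z : ℂ) :
    mv b z = cen b.inv + 2 / (z - cen b) := by simp [mv, h1, h2]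
private lemma mvd_true (z : ℂ) : mvd (0, true) z = 64 := by simp [mvd]
private lemma mvd_false (z : ℂ) : mvd (0, false) z = 1 / 64 := by simp [mvd]
private lemma mvd_other {b : Bd} (h1 : b ≠ (0, true)) (h2 : b ≠ (0, false)) (z : ℂ) :
    mvd b z = - 2 / (z - cen b) ^ 2 := by simp [mvd, h1, h2]

private lemma inv_true : Bd.inv (0, true) = (0, false) := rfl
private lemma inv_false : Bd.inv (0, false) = (0, true) := rfl

lemma dep_mv {b : Bd} {z : ℂ} (hz : z ∈ U b) : dep b.inv (mv b z) = 1 - dep b z := by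
  have hl := log2_pos
  have hzn : 1 < ‖z‖ := (F_bdd hz.1).1
  have h64 : Real.log 64 = 6 * Real.log 2 := by
    rw [show (64 : ℝ) = 2 ^ 6 by norm_num, Real.log_pow]; norm_num
  by_cases h1 : b = (0, true)
  · subst h1
    rw [inv_true, dep_false, dep_true, mv_true, norm_mul, Real.log_mul (by norm_num) (by linarith)]
    have : ‖(64 : ℂ)‖ = 64 := by norm_num
    rw [this, h64]
    field_simp
    ring
  by_cases h2 : b = (0, false)
  · subst h2
    rw [inv_false, dep_false, dep_true, mv_false, norm_div, Real.log_div (by linarith) (by norm_num)]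
    have : ‖(64 : ℂ)‖ = 64 := by norm_num
    rw [this, h64]
    field_simp
    ring
  · obtain ⟨h3, h4⟩ := inv_ne_of h1 h2
    rw [dep_other h4, dep_other h2, mv_other h1 h2, add_sub_cancel_left, norm_div]
    have h5 : 1 < ‖z - cen b‖ := F_other hz.1 h2
    rw [Real.log_div (by norm_num) (by linarith)]
    have : ‖(2 : ℂ)‖ = 2 := by norm_num
    rw [this]
    field_simp

lemma mv_mem {b : Bd} {z : ℂ} (hz : z ∈ U b) : mv b z ∈ U b.inv := by
  have h := dep_mv hz
  have h1 := hz.1 b
  have h2 := hz.2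
  exact mem_U_of (by rw [h]; linarith) (by rw [h]; linarith)

lemma mv_mem_F {b : Bd} {z : ℂ} (hz : z ∈ U b) : mv b z ∈ F := (mv_mem hz).1

lemma mv_mv {b : Bd} {z : ℂ} (hz : z ∈ U b) : mv b.inv (mv b z) = z := by
  by_cases h1 : b = (0, true)
  · subst h1
    rw [inv_true, mv_true, mv_false]
    ring
  by_cases h2 : b = (0, false)
  · subst h2
    rw [inv_false, mv_true, mv_false]
    ring
  · obtain ⟨h3, h4⟩ := inv_ne_of h1 h2
    have h0 : z - cen b ≠ 0 := sub_ne_zero.2 (ne_cen hz.1 b)
    rw [mv_other h3 h4, mv_other h1 h2, Bd.inv_inv, add_sub_cancel_left]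
    field_simp
    ring

lemma mvd_mvd {b : Bd} {z : ℂ} (hz : z ∈ U b) : mvd b.inv (mv b z) * mvd b z = 1 := by
  by_cases h1 : b = (0, true)
  · subst h1
    rw [inv_true, mvd_true, mvd_false]
    norm_num
  by_cases h2 : b = (0, false)
  · subst h2
    rw [inv_false, mvd_true, mvd_false]
    norm_num
  · obtain ⟨h3, h4⟩ := inv_ne_of h1 h2
    have h0 : z - cen b ≠ 0 := sub_ne_zero.2 (ne_cen hz.1 b)
    rw [mvd_other h3 h4, mvd_other h1 h2, mv_other h1 h2, add_sub_cancel_left]
    field_simp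

lemma mvd_ne {b : Bd} {z : ℂ} (hz : z ∈ U b) : mvd b z ≠ 0 := right_ne_zero_of_mul_eq_one (mvd_mvd hz)

lemma hasDerivAt_mv {b : Bd} {z : ℂ} (hz : z ∈ U b) : HasDerivAt (mv b) (mvd b z) z := by
  by_cases h1 : b = (0, true)
  · subst h1
    have e : mv (0, true) = fun z => 64 * z := funext mv_true
    rw [e, mvd_true]
    simpa using (hasDerivAt_id z).const_mul (64 : ℂ)
  by_cases h2 : b = (0, false)
  · subst h2
    have e : mv (0, false) = fun z => z / 64 := funext mv_false
    rw [e, mvd_false]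
    simpa using (hasDerivAt_id z).div_const (64 : ℂ)
  · have h0 : z - cen b ≠ 0 := sub_ne_zero.2 (ne_cen hz.1 b)
    have e : mv b = fun z => cen b.inv + 2 / (z - cen b) := funext (mv_other h1 h2)
    rw [e, mvd_other h1 h2]
    have h3 : HasDerivAt (fun z : ℂ => z - cen b) 1 z := (hasDerivAt_id z).sub_const _
    have h4 := ((hasDerivAt_const z (2 : ℂ)).div h3 h0).const_add (cen b.inv)
    have e2 : (0 * (z - cen b) - 2 * 1) / (z - cen b) ^ 2 = -2 / (z - cen b) ^ 2 := by ring
    rw [← e2]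
    exact h4

lemma contDiffAt_mv {b : Bd} {z : ℂ} (hz : z ∈ U b) (n : WithTop ℕ∞) : ContDiffAt ℂ n (mv b) z := by
  by_cases h1 : b = (0, true)
  · subst h1
    have e : mv (0, true) = fun z => 64 * z := funext mv_true
    rw [e]
    fun_prop
  by_cases h2 : b = (0, false)
  · subst h2
    have e : mv (0, false) = fun z => z / 64 := funext mv_false
    rw [e]
    fun_prop
  · have h0 : z - cen b ≠ 0 := sub_ne_zero.2 (ne_cen hz.1 b)
    have e : mv b = fun z => cen b.inv + 2 / (z - cen b) := funext (mv_other h1 h2)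
    rw [e]
    exact contDiffAt_const.add (contDiffAt_const.div (contDiffAt_id.sub contDiffAt_const) h0)

lemma contDiffAt_mvd {b : Bd} {z : ℂ} (hz : z ∈ U b) (n : WithTop ℕ∞) : ContDiffAt ℂ n (mvd b) z := by
  by_cases h1 : b = (0, true)
  · subst h1
    have e : mvd (0, true) = fun z => 64 := funext mvd_true
    rw [e]
    exact contDiffAt_const
  by_cases h2 : b = (0, false)
  · subst h2
    have e : mvd (0, false) = fun z => 1 / 64 := funext mvd_false
    rw [e]
    exact contDiffAt_const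
  · have h0 : z - cen b ≠ 0 := sub_ne_zero.2 (ne_cen hz.1 b)
    have e : mvd b = fun z => - 2 / (z - cen b) ^ 2 := funext (mvd_other h1 h2)
    rw [e]
    exact contDiffAt_const.div ((contDiffAt_id.sub contDiffAt_const).pow 2) (pow_ne_zero 2 h0)

/-- the gluing maps move points far -/
lemma dist_mv {b : Bd} {z : ℂ} (hz : z ∈ U b) : 3 ≤ ‖mv b z - z‖ := by
  have hzn := (F_bdd hz.1).1
  by_cases h1 : b = (0, true)
  · subst h1
    rw [mv_true]
    have e : 64 * z - z = 63 * z := by ring
    rw [e, norm_mul]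
    have : ‖(63 : ℂ)‖ = 63 := by norm_num
    rw [this]
    linarith
  by_cases h2 : b = (0, false)
  · subst h2
    obtain ⟨h3, -⟩ := U_false (hz.1 _) hz.2
    rw [mv_false]
    have e : z / 64 - z = -(63 / 64 : ℂ) * z := by ring
    rw [e, norm_mul]
    have : ‖(-(63 / 64) : ℂ)‖ = 63 / 64 := by
      rw [norm_neg, norm_div]; norm_num
    rw [this]
    linarith
  · obtain ⟨h3, h4⟩ := inv_ne_of h1 h2
    obtain ⟨-, h5⟩ := U_other h2 (hz.1 _) hz.2
    have hz' := mv_mem hz
    obtain ⟨-, h6⟩ := U_other h4 (hz'.1 _) hz'.2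
    have h7 := cen_sep (Bd.inv_ne b) h4 h2
    have e : cen b.inv - cen b = (mv b z - z) - (mv b z - cen b.inv) + (z - cen b) := by ring
    have h8 : ‖cen b.inv - cen b‖ ≤ ‖mv b z - z‖ + ‖mv b z - cen b.inv‖ + ‖z - cen b‖ := by
      rw [e]
      exact (norm_add_le _ _).trans (add_le_add_left (norm_sub_le _ _) _)
    linarith

lemma act_mem {i : Mv} {z : ℂ} (hz : z ∈ dom i) : act i z ∈ dom i.inv := by
  cases i with
  | none => exact hz
  | some b => exact mv_mem hz

lemma act_mem_F {i : Mv} {z : ℂ} (hz : z ∈ dom i) : act i z ∈ F := dom_subset _ (act_mem hz)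

lemma act_act {i : Mv} {z : ℂ} (hz : z ∈ dom i) : act i.inv (act i z) = z := by
  cases i with
  | none => rfl
  | some b => exact mv_mv hz

lemma actd_actd {i : Mv} {z : ℂ} (hz : z ∈ dom i) : actd i.inv (act i z) * actd i z = 1 := by
  cases i with
  | none => exact one_mul 1
  | some b => exact mvd_mvd hz

lemma actd_ne {i : Mv} {z : ℂ} (hz : z ∈ dom i) : actd i z ≠ 0 :=
  right_ne_zero_of_mul_eq_one (actd_actd hz)

lemma hasDerivAt_act {i : Mv} {z : ℂ} (hz : z ∈ dom i) : HasDerivAt (act i) (actd i z) z := by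
  cases i with
  | none => exact hasDerivAt_id z
  | some b => exact hasDerivAt_mv hz

lemma contDiffAt_act {i : Mv} {z : ℂ} (hz : z ∈ dom i) (n : WithTop ℕ∞) : ContDiffAt ℂ n (act i) z := by
  cases i with
  | none => exact contDiffAt_id
  | some b => exact contDiffAt_mv hz n

lemma contDiffAt_actd {i : Mv} {z : ℂ} (hz : z ∈ dom i) (n : WithTop ℕ∞) : ContDiffAt ℂ n (actd i) z := by
  cases i with
  | none => exact contDiffAt_const
  | some b => exact contDiffAt_mvd hz n

/-- composition of two moves -/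
lemma act_comp {i j : Mv} {z : ℂ} (hz : z ∈ dom i) (hz' : act i z ∈ dom j) :
    (i = none ∨ j = none ∨ j = i.inv) := by
  cases i with
  | none => exact Or.inl rfl
  | some b =>
    cases j with
    | none => exact Or.inr (Or.inl rfl)
    | some b' =>
      right; right
      have h1 : mv b z ∈ U b.inv := mv_mem hz
      have h2 : mv b z ∈ U b' := hz'
      rw [U_disj h2 h1]
      rfl

end Pool.Agent.H5.EC
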