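import Pool.Agent.H5.EC.A1

/-! Part A2: partition of unity and the conformal factor. -/

open Set Topology MeasureTheory
open scoped Manifold ContDiff

noncomputable section

namespace Pool.Agent.H5.EC

lemma S_nonneg (h : ℝ) : 0 ≤ S h := Real.smoothTransition.nonneg _
lemma S_le_one (h : ℝ) : S h ≤ 1 := Real.smoothTransition.le_one _
lemma S_zero {h : ℝ} (hh : h ≤ 1 / 3) : S h = 0 :=
  Real.smoothTransition.zero_of_nonpos (by linarith)
lemma S_one {h : ℝ} (hh : 2 / 3 ≤ h) : S h = 1 :=
  Real.smoothTransition.one_of_one_le (by linarith)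
lemma S_pos {h : ℝ} (hh : 1 / 3 < h) : 0 < S h :=
  Real.smoothTransition.pos_of_pos (by linarith)
lemma S_add (h : ℝ) : S h + S (1 - h) = 1 := by
  unfold S Real.smoothTransition
  have h1 := Real.smoothTransition.pos_denom (3 * h - 1)
  have e1 : 3 * (1 - h) - 1 = 1 - (3 * h - 1) := by ring
  rw [e1]
  have e2 : 1 - (1 - (3 * h - 1)) = 3 * h - 1 := by ring
  rw [e2, add_comm (expNegInvGlue (1 - (3 * h - 1))) (expNegInvGlue (3 * h - 1)), ← add_div,
    div_self h1.ne']
lemma contDiff_S : ContDiff ℝ ∞ S :=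
  Real.smoothTransition.contDiff.comp (by fun_prop)

lemma sum_eps (z : ℂ) : ∑ i : Mv, eps i z = 1 := by
  rw [Fintype.sum_option]
  simp [eps]

private lemma not_U_dep {b : Bd} {z : ℂ} (hz : z ∈ F) (h : z ∉ U b) : 1 ≤ dep b z := by
  by_contra h'
  exact h ⟨hz, not_le.1 h'⟩

private lemma eps_some_zero {b : Bd} {z : ℂ} (hz : z ∈ F) (h : z ∉ U b) : eps (some b) z = 0 := by
  have := not_U_dep hz h
  exact S_zero (by linarith)

/-- values of all the `eps` on a collar -/
lemma eps_some_of_U {b : Bd} {z : ℂ} (hz : z ∈ U b) (b' : Bd) :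
    eps (some b') z = if b' = b then S (1 - dep b z) else 0 := by
  by_cases h : b' = b
  · subst h; simp [eps]
  · rw [if_neg h]
    exact eps_some_zero hz.1 fun h' => h (U_disj h' hz)

lemma eps_none_of_U {b : Bd} {z : ℂ} (hz : z ∈ U b) : eps none z = S (dep b z) := by
  have h1 := sum_eps z
  rw [Fintype.sum_option, Finset.sum_congr rfl fun b' _ => eps_some_of_U hz b'] at h1
  simp only [Finset.sum_ite_eq', Finset.mem_univ, if_true] at h1
  have h2 := S_add (dep b z)
  linarith

lemma eps_none_of_not {z : ℂ} (hz : z ∈ F) (h : ∀ b, z ∉ U b) : eps none z = 1 := by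
  have h1 := sum_eps z
  rw [Fintype.sum_option, Finset.sum_congr rfl fun b' _ => eps_some_zero hz (h b')] at h1
  simpa using h1

lemma eps_nonneg (i : Mv) {z : ℂ} (hz : z ∈ F) : 0 ≤ eps i z := by
  cases i with
  | none =>
    by_cases h : ∃ b, z ∈ U b
    · obtain ⟨b, hb⟩ := h
      rw [eps_none_of_U hb]
      exact S_nonneg _
    · push Not at h
      rw [eps_none_of_not hz h]
      exact zero_le_one
  | some b => exact S_nonneg _

lemma eps_le_one (i : Mv) {z : ℂ} (hz : z ∈ F) : eps i z ≤ 1 := by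
  rw [← sum_eps z]
  exact Finset.single_le_sum (f := fun i => eps i z) (fun j _ => eps_nonneg j hz) (Finset.mem_univ i)

lemma eps_eq {i : Mv} {z : ℂ} (hz : z ∈ dom i) : eps i z = eps none (act i z) := by
  cases i with
  | none => rfl
  | some b =>
    have hz' : z ∈ U b := hz
    have h1 : eps none (mv b z) = S (dep b.inv (mv b z)) := eps_none_of_U (mv_mem hz')
    rw [dep_mv hz'] at h1
    exact h1.symm

lemma eps_zero {i : Mv} {z : ℂ} (hz : z ∈ F) (h : z ∉ dom i) : eps i z = 0 := by
  cases i with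
  | none => exact absurd hz h
  | some b => exact eps_some_zero hz h

lemma contDiffOn_eps (i : Mv) : ContDiffOn ℝ ∞ (eps i) F := by
  have hs : ∀ b, ContDiffOn ℝ ∞ (fun z => S (1 - dep b z)) F := by
    intro b z hz
    have h1 := contDiffAt_dep b hz ∞ le_rfl
    exact ((contDiff_S.contDiffAt).comp z (contDiffAt_const.sub h1)).contDiffWithinAt
  cases i with
  | none => exact contDiffOn_const.sub (ContDiffOn.sum fun b _ => hs b)
  | some b => exact hs b

lemma eps_none_ne {z : ℂ} (hz : z ∈ F) (h : eps none z ≠ 0) : z ∈ KF (1 / 3) := by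
  intro b
  by_contra h'
  push Not at h'
  have hb : z ∈ U b := ⟨hz, by linarith⟩
  rw [eps_none_of_U hb, S_zero h'.le] at h
  exact h rfl

lemma KF_subset {h : ℝ} (hh : 0 < h) : KF h ⊆ F := fun _ hz b => lt_of_lt_of_le hh (hz b)

lemma eps_none_pos {z : ℂ} (hz : z ∈ KF (1 / 2)) : 0 < eps none z := by
  have hz' : z ∈ F := KF_subset (by norm_num) hz
  by_cases h : ∃ b, z ∈ U b
  · obtain ⟨b, hb⟩ := h
    rw [eps_none_of_U hb]
    have := hz b
    exact S_pos (by linarith)
  · push Not at h
    rw [eps_none_of_not hz' h]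
    exact zero_lt_one

/-- every point can be moved into the core -/
lemma exists_core {z : ℂ} (hz : z ∈ F) : ∃ i : Mv, z ∈ dom i ∧ act i z ∈ KF (1 / 2) := by
  by_cases h : z ∈ KF (1 / 2)
  · exact ⟨none, hz, h⟩
  · have h' : ∃ b, ¬ (1 / 2 ≤ dep b z) := by
      by_contra hc
      push Not at hc
      exact h hc
    obtain ⟨b, hb⟩ := h'
    push Not at hb
    have hU : z ∈ U b := ⟨hz, by linarith⟩
    refine ⟨some b, hU, fun b' => ?_⟩
    have hm := mv_mem hU
    have hd := dep_mv hU
    change 1 / 2 ≤ dep b' (mv b z)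
    by_cases hbb : b.inv = b'
    · subst hbb
      rw [hd]; linarith
    · have := dep_sep hbb (hm.1 _) hm.2
      linarith

/-- a general transformation rule: a sum over the moves -/
lemma sum_eps_mv {G : Mv → ℝ} {b : Bd} {z : ℂ} (hz : z ∈ U b) :
    ∑ i : Mv, eps i z * G i = S (dep b z) * G none + S (1 - dep b z) * G (some b) := by
  rw [Fintype.sum_option, eps_none_of_U hz]
  congr 1
  rw [Finset.sum_congr rfl fun b' _ => by rw [eps_some_of_U hz b']]
  simp

lemma sig_pos {z : ℂ} (hz : z ∈ F) : 0 < sig z := by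
  have hnn : ∀ i ∈ (Finset.univ : Finset Mv), 0 ≤ eps i z * ‖actd i z‖ ^ 2 :=
    fun i _ => mul_nonneg (eps_nonneg i hz) (by positivity)
  have h1 : ∃ i : Mv, 0 < eps i z := by
    by_contra hc
    push Not at hc
    have := Finset.sum_nonpos (s := Finset.univ) fun i (_ : i ∈ (Finset.univ : Finset Mv)) => hc i
    rw [sum_eps z] at this
    linarith
  obtain ⟨i, hi⟩ := h1
  have hd : z ∈ dom i := by
    by_contra hc
    rw [eps_zero hz hc] at hi
    exact lt_irrefl _ hi
  have h2 := actd_ne hd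
  exact lt_of_lt_of_le (mul_pos hi (by positivity)) (Finset.single_le_sum hnn (Finset.mem_univ i))

lemma contDiffOn_sig : ContDiffOn ℝ ∞ sig F := by
  intro z hz
  refine (ContDiffAt.sum fun i _ => ?_).contDiffWithinAt
  by_cases hi : z ∈ dom i
  · have h1 : ContDiffAt ℝ ∞ (eps i) z := (contDiffOn_eps i).contDiffAt (isOpen_F.mem_nhds hz)
    have h2 : ContDiffAt ℝ ∞ (actd i) z := (contDiffAt_actd hi ∞).restrict_scalars ℝ
    exact h1.mul (h2.norm_sq ℝ)
  · -- here `eps i` vanishes near `z`
    have hnear : ∀ᶠ w in 𝓝 z, eps i w * ‖actd i w‖ ^ 2 = 0 := by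
      cases i with
      | none => exact absurd hz hi
      | some b =>
        have h1 := not_U_dep hz hi
        have hc := (continuousOn_dep b).continuousAt (isOpen_F.mem_nhds hz)
        filter_upwards [hc.eventually (lt_mem_nhds (show (2 / 3 : ℝ) < dep b z by linarith))] with w hw
        have : eps (some b) w = 0 := S_zero (by linarith)
        rw [this, zero_mul]
    exact (contDiffAt_const (c := (0 : ℝ))).congr_of_eventuallyEq hnear

lemma sig_mv {b : Bd} {z : ℂ} (hz : z ∈ U b) : sig (mv b z) * ‖mvd b z‖ ^ 2 = sig z := by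
  have hm := mv_mem hz
  have hd := dep_mv hz
  have h1 : sig (mv b z) = S (1 - dep b z) * 1 + S (dep b z) * ‖mvd b.inv (mv b z)‖ ^ 2 := by
    unfold sig
    rw [sum_eps_mv (G := fun i => ‖actd i (mv b z)‖ ^ 2) hm, hd]
    simp [actd]
  have h2 : sig z = S (dep b z) * 1 + S (1 - dep b z) * ‖mvd b z‖ ^ 2 := by
    unfold sig
    rw [sum_eps_mv (G := fun i => ‖actd i z‖ ^ 2) hz]
    simp [actd]
  have h3 : ‖mvd b.inv (mv b z)‖ ^ 2 * ‖mvd b z‖ ^ 2 = 1 := by
    rw [← mul_pow, ← norm_mul, mvd_mvd hz]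
    simp
  rw [h1, h2, add_mul, mul_assoc (S (dep b z)), h3]
  ring

lemma sig_act {i : Mv} {z : ℂ} (hz : z ∈ dom i) : sig (act i z) * ‖actd i z‖ ^ 2 = sig z := by
  cases i with
  | none => simp [act, actd]
  | some b => exact sig_mv hz

lemma isCompact_KF {h : ℝ} (hh : 0 < h) : IsCompact (KF h) := by
  have hb : Bornology.IsBounded (KF h) := by
    refine (Metric.isBounded_ball (x := (0 : ℂ)) (r := 128)).subset fun z hz => ?_
    rw [Metric.mem_ball, dist_zero_right]
    exact (F_bdd (KF_subset hh hz)).2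
  refine Metric.isCompact_of_isClosed_isBounded ?_ hb
  -- closedness: each condition is closed in `ℂ`
  have hl : 0 < Real.log 2 := Real.log_pos (by norm_num)
  have hcl : ∀ r : ℝ, ∀ c : ℂ, 0 < r →
      {z : ℂ | r ≤ Real.log ‖z - c‖ / Real.log 2} = {z : ℂ | Real.exp (r * Real.log 2) ≤ ‖z - c‖} := by
    intro r c hr
    ext z
    simp only [mem_ofPred_eq]
    rw [le_div_iff₀ hl]
    constructor
    · intro h1
      have h0 : 0 < ‖z - c‖ := by
        rcases (norm_nonneg (z - c)).eq_or_lt with h2 | h2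
        · rw [← h2, Real.log_zero] at h1
          have := mul_pos hr hl
          linarith
        · exact h2
      rwa [Real.le_log_iff_exp_le h0] at h1
    · intro h1
      have h0 : 0 < ‖z - c‖ := lt_of_lt_of_le (Real.exp_pos _) h1
      rwa [Real.le_log_iff_exp_le h0]
  have e : KF h = {z : ℂ | h ≤ dep (0, false) z ∧ h ≤ dep (0, true) z} ∩
      ⋂ b : Bd, {z : ℂ | b ≠ (0, false) → h ≤ dep b z} := by
    ext z
    simp only [KF, mem_ofPred_eq, mem_inter_iff, mem_iInter]
    constructor
    · intro h1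
      exact ⟨⟨h1 _, h1 _⟩, fun b _ => h1 b⟩
    · rintro ⟨⟨h1, h2⟩, h3⟩ b
      by_cases hb : b = (0, false)
      · subst hb; exact h1
      · exact h3 b hb
  rw [e]
  refine IsClosed.inter ?_ (isClosed_iInter fun b => ?_)
  · -- the outer circle together with the inner one
    have e2 : {z : ℂ | h ≤ dep (0, false) z ∧ h ≤ dep (0, true) z} =
        {z : ℂ | ‖z‖ ≤ Real.exp ((7 - h) * Real.log 2)} ∩ {z : ℂ | Real.exp (h * Real.log 2) ≤ ‖z‖} := by
      ext z
      have h3 : dep (0, true) z = Real.log ‖z - 0‖ / Real.log 2 := by simp [dep, cen]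
      have h4 : dep (0, false) z = 7 - Real.log ‖z‖ / Real.log 2 := by simp [dep]
      have h5 := Set.ext_iff.1 (hcl h 0 hh) z
      simp only [mem_ofPred_eq] at h5
      simp only [mem_ofPred_eq, mem_inter_iff]
      rw [h3, h4, h5, sub_zero, and_comm, and_comm (a := ‖z‖ ≤ _)]
      refine and_congr_right fun h6 => ?_
      have h0 : 0 < ‖z‖ := lt_of_lt_of_le (Real.exp_pos _) h6
      rw [← Real.log_le_iff_le_exp h0, ← div_le_iff₀ hl]
      constructor <;> intro h7 <;> linarith
    rw [e2]
    exact (isClosed_le continuous_norm continuous_const).inter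
      (isClosed_le continuous_const continuous_norm)
  · by_cases hb : b = (0, false)
    · simp [hb]
    · have e3 : {z : ℂ | b ≠ (0, false) → h ≤ dep b z} =
          {z : ℂ | h ≤ Real.log ‖z - cen b‖ / Real.log 2} := by
        ext z
        simp [dep, hb]
      rw [e3, hcl h _ hh]
      exact isClosed_le continuous_const (by fun_prop)

end Pool.Agent.H5.EC
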