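import Pool.Agent.H5.EC.A1

/-! Part A4: connectedness of the domain. -/

open Set Topology MeasureTheory
open scoped Manifold ContDiff

noncomputable section

namespace Pool.Agent.H5.EC

/-- the round annulus -/
private def ann (c : ℂ) : Set ℂ := {z | 1 < ‖z - c‖ ∧ ‖z - c‖ < 2}

private lemma ann_preconnected (c : ℂ) : IsPreconnected (ann c) := by
  have h1 : ann c = (fun p : ℝ × ℝ => c + p.1 * Complex.exp (p.2 * Complex.I)) ''
      (Ioo (1 : ℝ) 2 ×ˢ (univ : Set ℝ)) := by
    ext z
    constructor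
    · rintro ⟨h1, h2⟩
      refine ⟨(‖z - c‖, Complex.arg (z - c)), ⟨⟨h1, h2⟩, mem_univ _⟩, ?_⟩
      simp only
      rw [Complex.norm_mul_exp_arg_mul_I]
      ring
    · rintro ⟨⟨r, t⟩, ⟨⟨h1, h2⟩, -⟩, rfl⟩
      simp only at h1 h2
      have h3 : ‖c + (r : ℂ) * Complex.exp (t * Complex.I) - c‖ = r := by
        rw [add_sub_cancel_left, norm_mul, Complex.norm_exp_ofReal_mul_I, mul_one,
          Complex.norm_real, Real.norm_eq_abs, abs_of_pos (by linarith)]
      exact ⟨by rw [h3]; exact h1, by rw [h3]; exact h2⟩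
  rw [h1]
  exact (isPreconnected_Ioo.prod isPreconnected_univ).image _ (by fun_prop)

private lemma remove {W : Set ℂ} (hW : IsOpen W) (hp : IsPreconnected W) {c : ℂ}
    (hb : Metric.ball c 2 ⊆ W) : IsPreconnected (W \ Metric.closedBall c 1) := by
  have hS : IsOpen (W \ Metric.closedBall c 1) := hW.sdiff Metric.isClosed_closedBall
  set S := W \ Metric.closedBall c 1 with hSdef
  have hAn : ann c ⊆ S := by
    rintro z ⟨h1, h2⟩
    refine ⟨hb (by rwa [Metric.mem_ball, dist_eq_norm]), ?_⟩
    rw [Metric.mem_closedBall, dist_eq_norm]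
    linarith
  -- main argument, with the annulus in the first set
  have key : ∀ u v : Set ℂ, IsOpen u → IsOpen v → S ⊆ u ∪ v → (S ∩ u).Nonempty →
      (S ∩ v).Nonempty → ann c ⊆ u → (S ∩ (u ∩ v)).Nonempty := by
    intro u v hu hv huv hnu hnv hau
    obtain ⟨w, hwW, hw1, hw2⟩ := hp ((u ∩ S) ∪ Metric.ball c 2) (v ∩ S)
      ((hu.inter hS).union Metric.isOpen_ball) (hv.inter hS) (by
        intro w hw
        by_cases h : w ∈ Metric.closedBall c 1
        · left; right
          rw [Metric.mem_closedBall] at h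
          rw [Metric.mem_ball]
          linarith
        · have hwS : w ∈ S := ⟨hw, h⟩
          rcases huv hwS with h' | h'
          · left; left; exact ⟨h', hwS⟩
          · right; exact ⟨h', hwS⟩)
      (by
        obtain ⟨w, h1, h2⟩ := hnu
        exact ⟨w, h1.1, Or.inl ⟨h2, h1⟩⟩)
      (by
        obtain ⟨w, h1, h2⟩ := hnv
        exact ⟨w, h1.1, h2, h1⟩)
    refine ⟨w, hw2.2, ?_, hw2.1⟩
    rcases hw1 with h | h
    · exact h.1
    · apply hau
      have h3 := hw2.2.2
      rw [Metric.mem_closedBall, dist_eq_norm, not_le] at h3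
      rw [Metric.mem_ball, dist_eq_norm] at h
      exact ⟨h3, h⟩
  intro u v hu hv huv hnu hnv
  by_contra hne
  rw [not_nonempty_iff_eq_empty] at hne
  have hdis : Disjoint (u ∩ S) (v ∩ S) := by
    rw [Set.disjoint_left]
    rintro x ⟨h1, h2⟩ ⟨h3, -⟩
    have : x ∈ S ∩ (u ∩ v) := ⟨h2, h1, h3⟩
    rw [hne] at this
    exact this
  have hcov : ann c ⊆ (u ∩ S) ∪ (v ∩ S) := by
    intro x hx
    rcases huv (hAn hx) with h | h
    · exact Or.inl ⟨h, hAn hx⟩
    · exact Or.inr ⟨h, hAn hx⟩
  rcases IsPreconnected.subset_or_subset (hu.inter hS) (hv.inter hS) hdis hcov (ann_preconnected c)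
    with h | h
  · have := key u v hu hv huv hnu hnv fun x hx => (h hx).1
    rw [hne] at this
    exact Set.not_nonempty_empty this
  · have := key v u hv hu (by rwa [union_comm]) hnv hnu fun x hx => (h hx).1
    rw [inter_comm v u, hne] at this
    exact Set.not_nonempty_empty this

private lemma cen_real (j : Fin 4) (s : Bool) :
    cen (j, s) = ((if s then (8 * (j : ℕ) : ℝ) else -(8 * (j : ℕ) : ℝ) : ℝ) : ℂ) := by
  cases s <;> simp [cen]

private lemma cen_far {b b' : Bd} (h : b ≠ b') (hb : b ≠ (0, false)) (hb' : b' ≠ (0, false)) :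
    8 ≤ ‖cen b - cen b'‖ := by
  obtain ⟨j, s⟩ := b
  obtain ⟨j', s'⟩ := b'
  rw [cen_real, cen_real, ← Complex.ofReal_sub, Complex.norm_real]
  fin_cases j <;> fin_cases j' <;> cases s <;> cases s' <;> simp_all <;>
    norm_num [abs_of_nonneg, abs_of_neg]

private lemma cen_bd (b : Bd) : ‖cen b‖ ≤ 24 := by
  obtain ⟨j, s⟩ := b
  have h1 : (j : ℕ) ≤ 3 := by omega
  have h2 : ((j : ℕ) : ℝ) ≤ 3 := by exact_mod_cast h1
  have h3 : (0 : ℝ) ≤ ((j : ℕ) : ℝ) := Nat.cast_nonneg _
  rw [cen_real, Complex.norm_real, Real.norm_eq_abs, abs_le]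
  cases s <;> constructor <;> simp <;> linarith

private lemma step (s : Finset Bd) (hs : ∀ b ∈ s, b ≠ (0, false)) :
    IsOpen (Metric.ball (0 : ℂ) 128 \ ⋃ b ∈ s, Metric.closedBall (cen b) 1) ∧
    IsPreconnected (Metric.ball (0 : ℂ) 128 \ ⋃ b ∈ s, Metric.closedBall (cen b) 1) := by
  induction s using Finset.induction_on with
  | empty =>
    simp only [Finset.notMem_empty, iUnion_of_empty, iUnion_empty, sdiff_empty]
    exact ⟨Metric.isOpen_ball, (convex_ball (0 : ℂ) 128).isPreconnected⟩
  | insert b s hbs ih =>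
    obtain ⟨h1, h2⟩ := ih fun b' hb' => hs b' (Finset.mem_insert_of_mem hb')
    have e : Metric.ball (0 : ℂ) 128 \ ⋃ b' ∈ insert b s, Metric.closedBall (cen b') 1 =
        (Metric.ball (0 : ℂ) 128 \ ⋃ b' ∈ s, Metric.closedBall (cen b') 1) \
          Metric.closedBall (cen b) 1 := by
      rw [Finset.set_biUnion_insert, sdiff_sdiff, union_comm]
    rw [e]
    refine ⟨h1.sdiff Metric.isClosed_closedBall, remove h1 h2 ?_⟩
    intro z hz
    rw [Metric.mem_ball, dist_eq_norm] at hz
    refine ⟨?_, ?_⟩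
    · rw [Metric.mem_ball, dist_zero_right]
      have h3 := cen_bd b
      have h4 : ‖z‖ ≤ ‖z - cen b‖ + ‖cen b‖ := by
        have := norm_add_le (z - cen b) (cen b)
        simpa using this
      linarith
    · simp only [mem_iUnion, not_exists]
      intro b' hb' hz'
      rw [Metric.mem_closedBall, dist_eq_norm] at hz'
      have hne : b ≠ b' := by
        rintro rfl
        exact hbs hb'
      have h3 := cen_far hne (hs b (Finset.mem_insert_self _ _))
        (hs b' (Finset.mem_insert_of_mem hb'))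
      have h4 : ‖cen b - cen b'‖ ≤ ‖z - cen b'‖ + ‖z - cen b‖ := by
        have := norm_sub_le (z - cen b') (z - cen b)
        have e : (z - cen b') - (z - cen b) = cen b - cen b' := by ring
        rw [e] at this
        exact this
      linarith

private lemma F_set : F = Metric.ball (0 : ℂ) 128 \
    ⋃ b ∈ (Finset.univ.filter fun b : Bd => b ≠ (0, false)), Metric.closedBall (cen b) 1 := by
  have hl : 0 < Real.log 2 := Real.log_pos (by norm_num)
  ext z
  simp only [mem_sdiff, Metric.mem_ball, dist_zero_right, mem_iUnion, Finset.mem_filter,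
    Finset.mem_univ, true_and, Metric.mem_closedBall, not_exists, not_le]
  constructor
  · intro hz
    refine ⟨(F_bdd hz).2, fun b hb => ?_⟩
    have h1 := hz b
    unfold dep at h1
    rw [if_neg hb, div_pos_iff_of_pos_right hl, Real.log_pos_iff (norm_nonneg _)] at h1
    rwa [dist_eq_norm]
  · rintro ⟨h1, h2⟩ b
    by_cases hb : b = (0, false)
    · unfold dep
      rw [if_pos hb, sub_pos, div_lt_iff₀ hl]
      rcases (norm_nonneg z).eq_or_lt with h3 | h3
      · rw [← h3, Real.log_zero]; positivity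
      · have h4 : Real.log ‖z‖ < Real.log 128 := Real.log_lt_log h3 h1
        have h5 : Real.log 128 = 7 * Real.log 2 := by
          rw [show (128 : ℝ) = 2 ^ 7 by norm_num, Real.log_pow]; norm_num
        linarith
    · have h3 := h2 b hb
      rw [dist_eq_norm] at h3
      unfold dep
      rw [if_neg hb, div_pos_iff_of_pos_right hl, Real.log_pos_iff (norm_nonneg _)]
      exact h3

lemma isPreconnected_F : IsPreconnected F := by
  rw [F_set]
  exact (step _ fun b hb => (Finset.mem_filter.1 hb).2).2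

end Pool.Agent.H5.EC
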