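import Pool.Agent.H5.EC.A1

/-! Part A5: change of variables along the gluing maps. -/

open Set Topology MeasureTheory
open scoped Manifold ContDiff ENNReal

noncomputable section

namespace Pool.Agent.H5.EC

lemma measurable_mv (b : Bd) : Measurable (mv b) := by
  by_cases h1 : b = (0, true)
  · have e : mv b = fun z => 64 * z := by
      funext z; simp [mv, h1]
    rw [e]
    fun_prop
  by_cases h2 : b = (0, false)
  · have e : mv b = fun z => z / 64 := by
      funext z; simp [mv, h2]
    rw [e]
    fun_prop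
  · have e : mv b = fun z => cen b.inv + 2 / (z - cen b) := by
      funext z; simp [mv, h1, h2]
    rw [e]
    fun_prop

lemma measurable_act (i : Mv) : Measurable (act i) := by
  cases i with
  | none => exact measurable_id
  | some b => exact measurable_mv b

/-- the real derivative of a gluing map -/
private def rd (b : Bd) (z : ℂ) : ℂ →L[ℝ] ℂ :=
  (ContinuousLinearMap.toSpanSingleton ℂ (mvd b z)).restrictScalars ℝ

private lemma rd_det (b : Bd) (z : ℂ) : (rd b z).det = ‖mvd b z‖ ^ 2 := by
  have h1 : ((rd b z : ℂ →L[ℝ] ℂ) : ℂ →ₗ[ℝ] ℂ) = Algebra.lmul ℝ ℂ (mvd b z) := by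
    apply LinearMap.ext
    intro w
    simp [rd, mul_comm]
  rw [ContinuousLinearMap.det, h1]
  have h2 := Algebra.norm_apply ℝ (mvd b z)
  rw [← h2, Algebra.norm_complex_apply, Complex.normSq_eq_norm_sq]

private lemma hasFDerivWithinAt_mv {b : Bd} {z : ℂ} (hz : z ∈ U b) :
    HasFDerivWithinAt (mv b) (rd b z) (U b) z :=
  ((hasDerivAt_mv hz).hasFDerivAt.restrictScalars ℝ).hasFDerivWithinAt

private lemma injOn_mv (b : Bd) : InjOn (mv b) (U b) := by
  intro z hz w hw h
  rw [← mv_mv hz, ← mv_mv hw, h]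

private lemma image_mv (b : Bd) : mv b '' U b = U b.inv := by
  apply Subset.antisymm
  · rintro _ ⟨z, hz, rfl⟩
    exact mv_mem hz
  · intro w hw
    refine ⟨mv b.inv w, ?_, ?_⟩
    · have := mv_mem hw
      rwa [Bd.inv_inv] at this
    · have := mv_mv hw
      rwa [Bd.inv_inv] at this

/-- change of variables, for nonnegative functions -/
lemma lintegral_mv (b : Bd) (G : ℂ → ℝ≥0∞) :
    ∫⁻ z in U b, ENNReal.ofReal (‖mvd b z‖ ^ 2) * G (mv b z) = ∫⁻ z in U b.inv, G z := by
  rw [← image_mv b, lintegral_image_eq_lintegral_abs_det_fderiv_mul volume (isOpen_U b).measurableSet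
    (fun z hz => hasFDerivWithinAt_mv hz) (injOn_mv b)]
  simp only [rd_det, abs_pow, abs_norm]

/-- change of variables -/
lemma integral_mv (b : Bd) (G : ℂ → ℝ) :
    ∫ z in U b, ‖mvd b z‖ ^ 2 * G (mv b z) = ∫ z in U b.inv, G z := by
  rw [← image_mv b, integral_image_eq_integral_abs_det_fderiv_smul volume (isOpen_U b).measurableSet
    (fun z hz => hasFDerivWithinAt_mv hz) (injOn_mv b)]
  simp only [rd_det, abs_pow, abs_norm, smul_eq_mul]

lemma integral_act (i : Mv) (G : ℂ → ℝ) :
    ∫ z in dom i, ‖actd i z‖ ^ 2 * G (act i z) = ∫ z in dom i.inv, G z := by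
  cases i with
  | none => simp [dom, actd, act, Mv.inv]
  | some b => exact integral_mv b G

lemma lintegral_act (i : Mv) (G : ℂ → ℝ≥0∞) :
    ∫⁻ z in dom i, ENNReal.ofReal (‖actd i z‖ ^ 2) * G (act i z) = ∫⁻ z in dom i.inv, G z := by
  cases i with
  | none => simp [dom, actd, act, Mv.inv]
  | some b => exact lintegral_mv b G

end Pool.Agent.H5.EC
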