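import Pool.Agent.H5.EC.A1

/-! Part B1: the linear maps, the numbers, equivariance. -/

open Set Topology MeasureTheory
open scoped Manifold ContDiff

noncomputable section

namespace Pool.Agent.H5.EC

variable {T : Type} [NormedAddCommGroup T] [NormedSpace ℂ T]

lemma cLE_apply (c : ℂ) (hc : c ≠ 0) (x : ℂ) : cLE c hc x = c * x := by
  simp [cLE, ContinuousLinearEquiv.unitsEquivAut, mul_comm]

lemma cLE_symm_apply (c : ℂ) (hc : c ≠ 0) (x : ℂ) : (cLE c hc).symm x = c⁻¹ * x := by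
  rw [ContinuousLinearEquiv.symm_apply_eq, cLE_apply, ← mul_assoc, mul_inv_cancel₀ hc, one_mul]

lemma Rr_apply (p : (ℂ × ℂ) × T) : Rr T p =
    ((Complex.exp Complex.I * p.1.1, Complex.exp (-Complex.I) * p.1.2), p.2) := by
  rcases p with ⟨⟨a, b⟩, t⟩
  simp [Rr, cLE_apply]

lemma Ru_apply (p : (ℂ × ℂ) × T) : Ru T p = ((p.1.1 + p.1.2, p.1.2), p.2) := by
  rcases p with ⟨⟨a, b⟩, t⟩
  rfl

lemma Rw_apply (p : (ℂ × ℂ) × T) : Rw T p = ((p.1.2, -p.1.1), p.2) := by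
  rcases p with ⟨⟨a, b⟩, t⟩
  rfl

lemma Rt_apply (v : T) (p : (ℂ × ℂ) × T) : Rt v p = (p.1, p.2 + p.1.1 • v) := by
  rcases p with ⟨⟨a, b⟩, t⟩
  rfl

lemma Rr_symm_apply (p : (ℂ × ℂ) × T) : (Rr T).symm p =
    ((Complex.exp (-Complex.I) * p.1.1, Complex.exp Complex.I * p.1.2), p.2) := by
  rw [ContinuousLinearEquiv.symm_apply_eq, Rr_apply]
  have h : Complex.exp Complex.I * Complex.exp (-Complex.I) = 1 := by
    rw [← Complex.exp_add]; simp
  have h' : Complex.exp (-Complex.I) * Complex.exp Complex.I = 1 := by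
    rw [← Complex.exp_add]; simp
  rcases p with ⟨⟨a, b⟩, t⟩
  simp only [← mul_assoc, h, h', one_mul]

lemma Ru_symm_apply (p : (ℂ × ℂ) × T) : (Ru T).symm p = ((p.1.1 - p.1.2, p.1.2), p.2) := by
  rcases p with ⟨⟨a, b⟩, t⟩
  rfl

lemma Rw_symm_apply (p : (ℂ × ℂ) × T) : (Rw T).symm p = ((-p.1.2, p.1.1), p.2) := by
  rcases p with ⟨⟨a, b⟩, t⟩
  rfl

lemma Rt_symm_apply (v : T) (p : (ℂ × ℂ) × T) : (Rt v).symm p = (p.1, p.2 - p.1.1 • v) := by
  rcases p with ⟨⟨a, b⟩, t⟩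
  rfl

lemma RM_inv (v : T) (i : Mv) : RM v i.inv = (RM v i).symm := by
  rcases i with _ | ⟨j, s⟩
  · rfl
  · cases s
    · rfl
    · rfl

lemma RM_inv_apply (v : T) (i : Mv) (p : (ℂ × ℂ) × T) : RM v i.inv (RM v i p) = p := by
  rw [RM_inv]; simp

lemma RM_none (v : T) (p : (ℂ × ℂ) × T) : RM v none p = p := rfl

/-- case distinction over the moves -/
lemma Mv_cases {P : Mv → Prop} (h0 : P none) (h : ∀ (j : Fin 4) (s : Bool), P (some (j, s))) :
    ∀ i, P i := by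
  rintro (_ | ⟨j, s⟩)
  · exact h0
  · exact h j s

lemma RM_zero_true (v : T) (p : (ℂ × ℂ) × T) : RM v (some (0, true)) p =
    ((Complex.exp Complex.I * p.1.1, Complex.exp (-Complex.I) * p.1.2), p.2) := by
  show Rr T p = _
  exact Rr_apply p

lemma RM_zero_false (v : T) (p : (ℂ × ℂ) × T) : RM v (some (0, false)) p =
    ((Complex.exp (-Complex.I) * p.1.1, Complex.exp Complex.I * p.1.2), p.2) := by
  show (Rr T).symm p = _
  exact Rr_symm_apply p

lemma RM_one_true (v : T) (p : (ℂ × ℂ) × T) : RM v (some (1, true)) p =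
    ((p.1.1 + p.1.2, p.1.2), p.2) := rfl

lemma RM_one_false (v : T) (p : (ℂ × ℂ) × T) : RM v (some (1, false)) p =
    ((p.1.1 - p.1.2, p.1.2), p.2) := rfl

lemma RM_two_true (v : T) (p : (ℂ × ℂ) × T) : RM v (some (2, true)) p =
    ((p.1.2, -p.1.1), p.2) := rfl

lemma RM_two_false (v : T) (p : (ℂ × ℂ) × T) : RM v (some (2, false)) p =
    ((-p.1.2, p.1.1), p.2) := rfl

lemma RM_three_true (v : T) (p : (ℂ × ℂ) × T) : RM v (some (3, true)) p =
    (p.1, p.2 + p.1.1 • v) := rfl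

lemma RM_three_false (v : T) (p : (ℂ × ℂ) × T) : RM v (some (3, false)) p =
    (p.1, p.2 - p.1.1 • v) := rfl

lemma Mv_rec {P : Mv → Prop} (h0 : P none) (h1 : P (some (0, true))) (h2 : P (some (0, false)))
    (h3 : P (some (1, true))) (h4 : P (some (1, false))) (h5 : P (some (2, true)))
    (h6 : P (some (2, false))) (h7 : P (some (3, true))) (h8 : P (some (3, false))) :
    ∀ i, P i := by
  rintro (_ | ⟨j, s⟩)
  · exact h0
  · fin_cases j <;> cases s <;> assumption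

/-- the first component does not depend on the second one, and vanishes only at `0` -/
lemma RM_fst (v : T) (i : Mv) (p : (ℂ × ℂ) × T) :
    (RM v i p).1 = (RM (0 : ℂ) i (p.1, 0)).1 := by
  revert i
  apply Mv_rec
  · rfl
  · rw [RM_zero_true, RM_zero_true]
  · rw [RM_zero_false, RM_zero_false]
  · rfl
  · rfl
  · rfl
  · rfl
  · rfl
  · rfl

lemma RM_zero_fst (v : T) (i : Mv) (t : T) : RM v i (0, t) = (0, t) := by
  revert i
  apply Mv_rec
  · rfl
  · rw [RM_zero_true]; simp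
  · rw [RM_zero_false]; simp
  · rw [RM_one_true]; simp
  · rw [RM_one_false]; simp
  · rw [RM_two_true]; simp
  · rw [RM_two_false]; simp
  · rw [RM_three_true]; simp
  · rw [RM_three_false]; simp

lemma RM_fst_ne (v : T) (i : Mv) (p : (ℂ × ℂ) × T) : (RM v i p).1 ≠ 0 ↔ p.1 ≠ 0 := by
  constructor
  · intro h h0
    apply h
    have : p = (0, p.2) := Prod.ext h0 rfl
    rw [this, RM_zero_fst]
  · intro h h0
    apply h
    have h1 : RM v i p = (0, (RM v i p).2) := Prod.ext h0 rfl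
    have h2 := RM_inv_apply v i p
    rw [h1, RM_zero_fst] at h2
    rw [← h2]

lemma RM_add_snd (v : T) (i : Mv) (p : (ℂ × ℂ) × T) (t : T) :
    RM v i (p + (0, t)) = RM v i p + (0, t) := by
  rw [map_add, RM_zero_fst]

lemma la_pos : 0 < la := la_aux.1
lemma la_lt_one : la < 1 := la_aux.2
lemma la_ne : la ≠ 0 := la_pos.ne'
lemma lac_ne : (la : ℂ) ≠ 0 := by exact_mod_cast la_ne

lemma b1_la_quad : la ^ 2 = (1 + Real.sqrt 2) * la - 1 := by
  have h2 : Real.sqrt 2 ^ 2 = 2 := Real.sq_sqrt (by norm_num)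
  have h1 : 1.4 < Real.sqrt 2 := by
    rw [Real.lt_sqrt (by norm_num)]; norm_num
  have h3 : Real.sqrt ((1 + Real.sqrt 2) ^ 2 - 4) ^ 2 = (1 + Real.sqrt 2) ^ 2 - 4 :=
    Real.sq_sqrt (by nlinarith)
  unfold la
  nlinarith

lemma la_poly : la ^ 4 = 2 * la ^ 3 - la ^ 2 + 2 * la - 1 := by
  have h2 : Real.sqrt 2 ^ 2 = 2 := Real.sq_sqrt (by norm_num)
  have hq := b1_la_quad
  -- (la^2 - la + 1)^2 = 2 la^2
  have h1 : la ^ 2 - la + 1 = Real.sqrt 2 * la := by rw [hq]; ring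
  have h3 : (la ^ 2 - la + 1) ^ 2 = 2 * la ^ 2 := by
    rw [h1, mul_pow, h2]
  linear_combination h3

lemma ka_re : ka = Complex.exp ((Real.arccos ((1 - Real.sqrt 2) / 2) : ℝ) * Complex.I) := by
  unfold ka ka0
  congr 1
  push_cast
  have : (Real.pi : ℂ) ≠ 0 := by exact_mod_cast Real.pi_ne_zero
  field_simp

lemma cos_aux : Real.cos (Real.arccos ((1 - Real.sqrt 2) / 2)) = (1 - Real.sqrt 2) / 2 := by
  have h1 : 1 < Real.sqrt 2 := by
    rw [Real.lt_sqrt (by norm_num)]; norm_num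
  have h1' : Real.sqrt 2 < 1.5 := by
    rw [Real.sqrt_lt (by norm_num) (by norm_num)]; norm_num
  apply Real.cos_arccos <;> linarith

lemma norm_ka : ‖ka‖ = 1 := by
  rw [ka_re, Complex.norm_exp_ofReal_mul_I]

lemma ka_ne : ka ≠ 0 := by
  intro h
  have := norm_ka
  rw [h] at this
  simp at this

lemma ka_inv_add : ka + ka⁻¹ = (1 - Real.sqrt 2 : ℝ) := by
  have h : ka⁻¹ = Complex.exp (-((Real.arccos ((1 - Real.sqrt 2) / 2) : ℝ) * Complex.I)) := by
    rw [ka_re, Complex.exp_neg]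
  rw [h, ka_re]
  have h2 := Complex.two_cos ((Real.arccos ((1 - Real.sqrt 2) / 2) : ℝ) : ℂ)
  rw [neg_mul] at h2
  rw [← h2, ← Complex.ofReal_cos, cos_aux]
  push_cast
  ring

lemma b1_ka_quad : ka ^ 2 = (1 - Real.sqrt 2 : ℝ) * ka - 1 := by
  have h := ka_inv_add
  have hne := ka_ne
  field_simp at h
  linear_combination h

lemma ka_poly : ka ^ 4 = 2 * ka ^ 3 - ka ^ 2 + 2 * ka - 1 := by
  have h2 : (Real.sqrt 2 : ℂ) ^ 2 = 2 := by
    have : Real.sqrt 2 ^ 2 = 2 := Real.sq_sqrt (by norm_num)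
    exact_mod_cast this
  have hq := b1_ka_quad
  push_cast at hq
  have h1 : ka ^ 2 - ka + 1 = -(Real.sqrt 2 : ℂ) * ka := by rw [hq]; ring
  have h3 : (ka ^ 2 - ka + 1) ^ 2 = 2 * ka ^ 2 := by
    rw [h1, mul_pow, neg_sq, h2]
  linear_combination h3

lemma ka_ne_la : ka ≠ la := by
  intro h
  have h1 := norm_ka
  rw [h, Complex.norm_real, Real.norm_of_nonneg la_pos.le] at h1
  exact absurd h1 la_lt_one.ne

lemma yc_ka0 : yc (ka0 : UnitAddCircle) = ka := by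
  unfold yc ka
  rw [AddCircle.toCircle_apply_mk, Circle.coe_exp]
  congr 1
  push_cast
  ring

lemma yc_add (s t : UnitAddCircle) : yc (s + t) = yc s * yc t := by
  unfold yc
  rw [AddCircle.toCircle_add, Circle.coe_mul]

lemma yc_zero : yc 0 = 1 := by
  unfold yc
  rw [AddCircle.toCircle_zero, Circle.coe_one]

lemma yc_neg (s : UnitAddCircle) : yc (-s) = (yc s)⁻¹ := by
  have h : yc (-s) * yc s = 1 := by rw [← yc_add]; simp [yc_zero]
  exact eq_inv_of_mul_eq_one_left h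

lemma yc_nsmul (k : ℕ) (s : UnitAddCircle) : yc (k • s) = yc s ^ k := by
  induction k with
  | zero => simp [yc_zero]
  | succ k ih => rw [succ_nsmul, yc_add, ih, pow_succ]

lemma yc_zsmul (k : ℤ) : yc (k • (ka0 : UnitAddCircle)) = ka ^ k := by
  rcases k with k | k
  · rw [Int.ofNat_eq_natCast, natCast_zsmul, yc_nsmul, yc_ka0, zpow_natCast]
  · rw [negSucc_zsmul, yc_neg, yc_nsmul, yc_ka0, zpow_negSucc]

lemma norm_yc (s : UnitAddCircle) : ‖yc s‖ = 1 := by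
  unfold yc
  exact Circle.norm_coe _

lemma yc_injective : Function.Injective yc := by
  intro s t h
  unfold yc at h
  exact AddCircle.injective_toCircle one_ne_zero (Circle.ext h)

lemma continuous_yc : Continuous yc := by
  unfold yc
  exact continuous_subtype_val.comp AddCircle.continuous_toCircle

lemma A_apply (t : T4) : A t = ![t 1, t 2, t 3, -t 0 + 2 * t 1 - t 2 + 2 * t 3] := rfl

lemma A_symm_apply (t : T4) : A.symm t = ![2 * t 0 - t 1 + 2 * t 2 - t 3, t 0, t 1, t 2] := rfl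

lemma A_eig {x : ℂ} (hx : x ^ 4 = 2 * x ^ 3 - x ^ 2 + 2 * x - 1) :
    A (fun k : Fin 4 => x ^ (k : ℕ)) = x • (fun k : Fin 4 => x ^ (k : ℕ)) := by
  rw [A_apply]
  funext k
  fin_cases k
  · simp
  · simp [pow_two]
  · simp; ring
  · simp
    linear_combination -hx

lemma A_vl : A vl = (la : ℂ) • vl := by
  apply A_eig
  have := la_poly
  exact_mod_cast this

lemma A_uk : A uk = ka • uk := A_eig ka_poly

lemma A_mem {l : T4} (hl : l ∈ Lam) : A l ∈ Lam := by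
  choose a b h using hl
  intro k
  rw [A_apply]
  fin_cases k
  · exact ⟨a 1, b 1, h 1⟩
  · exact ⟨a 2, b 2, h 2⟩
  · exact ⟨a 3, b 3, h 3⟩
  · refine ⟨-a 0 + 2 * a 1 - a 2 + 2 * a 3, -b 0 + 2 * b 1 - b 2 + 2 * b 3, ?_⟩
    simp only [Fin.reduceFinMk, Matrix.cons_val]
    rw [h 0, h 1, h 2, h 3]
    push_cast
    ring

lemma A_symm_mem {l : T4} (hl : l ∈ Lam) : A.symm l ∈ Lam := by
  choose a b h using hl
  intro k
  rw [A_symm_apply]
  fin_cases k
  · refine ⟨2 * a 0 - a 1 + 2 * a 2 - a 3, 2 * b 0 - b 1 + 2 * b 2 - b 3, ?_⟩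
    simp only [Fin.zero_eta, Matrix.cons_val_zero]
    rw [h 0, h 1, h 2, h 3]
    push_cast
    ring
  · exact ⟨a 0, b 0, h 0⟩
  · exact ⟨a 1, b 1, h 1⟩
  · exact ⟨a 2, b 2, h 2⟩

lemma Th_apply (p : V7) : Th p = ((la : ℂ) • p.1, A p.2) := by
  rcases p with ⟨⟨x, y⟩, t⟩
  show ((cLE (la : ℂ) _ x, cLE (la : ℂ) _ y), A t) = _
  rw [cLE_apply, cLE_apply]
  rfl

lemma Thz_add (k k' : ℤ) (p : V7) : (Th ^ (k + k')) p = (Th ^ k) ((Th ^ k') p) := by
  rw [zpow_add]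
  rfl

lemma one_V7_apply (p : V7) : (1 : V7 ≃L[ℂ] V7) p = p := rfl

lemma Thz_zero (p : V7) : (Th ^ (0 : ℤ)) p = p := by
  rw [zpow_zero]
  rfl

lemma Thz_neg (k : ℤ) (p : V7) : (Th ^ (-k)) ((Th ^ k) p) = p := by
  rw [← Thz_add, neg_add_cancel, Thz_zero]

lemma Thz_neg' (k : ℤ) (p : V7) : (Th ^ k) ((Th ^ (-k)) p) = p := by
  rw [← Thz_add, add_neg_cancel, Thz_zero]

lemma Thz_one (p : V7) : (Th ^ (1 : ℤ)) p = Th p := by
  rw [zpow_one]

lemma Thz_succ (n : ℕ) (p : V7) : (Th ^ ((n + 1 : ℕ) : ℤ)) p = Th ((Th ^ (n : ℤ)) p) := by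
  have h : ((n + 1 : ℕ) : ℤ) = 1 + (n : ℤ) := by push_cast; ring
  rw [h, Thz_add, Thz_one]

lemma Thz_fst_nat (k : ℕ) (p : V7) : ((Th ^ (k : ℤ)) p).1 = ((la : ℂ) ^ k) • p.1 := by
  induction k with
  | zero => simp [one_V7_apply]
  | succ k ih =>
    rw [Thz_succ, Th_apply]
    show (la : ℂ) • ((Th ^ (k : ℤ)) p).1 = _
    rw [ih, smul_smul, pow_succ']

lemma Thz_fst (k : ℤ) (p : V7) : ((Th ^ k) p).1 = ((la : ℂ) ^ k) • p.1 := by
  rcases k with k | k
  · rw [Int.ofNat_eq_natCast, Thz_fst_nat, zpow_natCast]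
  · have h := Thz_fst_nat (k + 1) ((Th ^ (Int.negSucc k)) p)
    have e : (Th ^ ((k + 1 : ℕ) : ℤ)) ((Th ^ (Int.negSucc k)) p) = p := by
      rw [Int.negSucc_eq]
      have := Thz_neg' ((k + 1 : ℕ) : ℤ) p
      push_cast at this ⊢
      exact this
    rw [e] at h
    have e2 : (la : ℂ) ^ (Int.negSucc k) * (la : ℂ) ^ (k + 1) = 1 := by
      rw [zpow_negSucc, inv_mul_cancel₀ (pow_ne_zero _ lac_ne)]
    calc ((Th ^ (Int.negSucc k)) p).1
        = ((la : ℂ) ^ (Int.negSucc k) * (la : ℂ) ^ (k + 1)) • ((Th ^ (Int.negSucc k)) p).1 := by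
          rw [e2, one_smul]
      _ = (la : ℂ) ^ (Int.negSucc k) • p.1 := by rw [mul_smul, ← h]

lemma Th_lat {l : T4} (hl : l ∈ Lam) : ∃ l' ∈ Lam, Th ((0 : ℂ × ℂ), l) = (0, l') := by
  refine ⟨A l, A_mem hl, ?_⟩
  rw [Th_apply]
  simp

lemma Th_symm_lat {l : T4} (hl : l ∈ Lam) :
    ∃ l' ∈ Lam, (Th ^ (-1 : ℤ)) ((0 : ℂ × ℂ), l) = (0, l') := by
  refine ⟨A.symm l, A_symm_mem hl, ?_⟩
  have h : Th ((0 : ℂ × ℂ), A.symm l) = (0, l) := by
    rw [Th_apply]
    simp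
  have h2 := Thz_neg 1 ((0 : ℂ × ℂ), A.symm l)
  rw [Thz_one, h] at h2
  exact h2

/-- the lattice is preserved -/
lemma Thz_lat (k : ℤ) {l : T4} (hl : l ∈ Lam) : ∃ l' ∈ Lam, (Th ^ k) (0, l) = (0, l') := by
  rcases k with k | k
  · rw [Int.ofNat_eq_natCast]
    induction k with
    | zero => exact ⟨l, hl, by simp [one_V7_apply]⟩
    | succ k ih =>
      obtain ⟨l', hl', h⟩ := ih
      rw [Thz_succ, h]
      exact Th_lat hl'
  · induction k with
    | zero => exact Th_symm_lat hl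
    | succ k ih =>
      obtain ⟨l', hl', h⟩ := ih
      have e : (Int.negSucc (k + 1)) = -1 + Int.negSucc k := by
        rw [Int.negSucc_eq, Int.negSucc_eq]; push_cast; ring
      rw [e, Thz_add, h]
      exact Th_symm_lat hl'

lemma Th_RM (i : Mv) (p : V7) : Th (RM vl i p) = RM vl i (Th p) := by
  revert i
  apply Mv_rec
  · rfl
  · rw [RM_zero_true, RM_zero_true, Th_apply, Th_apply]
    simp only [Prod.smul_mk, smul_eq_mul, Prod.smul_fst, Prod.smul_snd]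
    congr 2 <;> ring
  · rw [RM_zero_false, RM_zero_false, Th_apply, Th_apply]
    simp only [Prod.smul_mk, smul_eq_mul, Prod.smul_fst, Prod.smul_snd]
    congr 2 <;> ring
  · rw [RM_one_true, RM_one_true, Th_apply, Th_apply]
    simp only [Prod.smul_mk, smul_eq_mul, Prod.smul_fst, Prod.smul_snd]
    congr 2; ring
  · rw [RM_one_false, RM_one_false, Th_apply, Th_apply]
    simp only [Prod.smul_mk, smul_eq_mul, Prod.smul_fst, Prod.smul_snd]
    congr 2; ring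
  · rw [RM_two_true, RM_two_true, Th_apply, Th_apply]
    simp only [Prod.smul_mk, smul_eq_mul, Prod.smul_fst, Prod.smul_snd]
    congr 2; ring
  · rw [RM_two_false, RM_two_false, Th_apply, Th_apply]
    simp only [Prod.smul_mk, smul_eq_mul, Prod.smul_fst, Prod.smul_snd]
    congr 2; ring
  · rw [RM_three_true, RM_three_true, Th_apply, Th_apply]
    simp only [map_add, map_smul, A_vl, smul_smul, Prod.smul_fst, smul_eq_mul]
    rw [mul_comm]
  · rw [RM_three_false, RM_three_false, Th_apply, Th_apply]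
    simp only [map_sub, map_smul, A_vl, smul_smul, Prod.smul_fst, smul_eq_mul]
    rw [mul_comm]

lemma Thz_RM_nat (k : ℕ) (i : Mv) (p : V7) :
    (Th ^ (k : ℤ)) (RM vl i p) = RM vl i ((Th ^ (k : ℤ)) p) := by
  induction k with
  | zero => simp [one_V7_apply]
  | succ k ih => rw [Thz_succ, Thz_succ, ih, Th_RM]

lemma Thz_RM (k : ℤ) (i : Mv) (p : V7) : (Th ^ k) (RM vl i p) = RM vl i ((Th ^ k) p) := by
  rcases k with k | k
  · exact Thz_RM_nat k i p
  · have h := Thz_RM_nat (k + 1) i ((Th ^ (Int.negSucc k)) p)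
    have hneg : Int.negSucc k = -((k + 1 : ℕ) : ℤ) := by rw [Int.negSucc_eq]; push_cast; rfl
    rw [hneg] at h ⊢
    rw [Thz_neg'] at h
    rw [← h, Thz_neg]

lemma Th_snd_eig (x : ℂ × ℂ) (a b : ℂ) :
    Th (x, a • uk + b • vl) = ((la : ℂ) • x, (a * ka) • uk + (b * (la : ℂ)) • vl) := by
  rw [Th_apply]
  simp only [map_add, map_smul, A_uk, A_vl, smul_smul]

lemma Thz_snd_eig_nat (k : ℕ) (x : ℂ × ℂ) (a b : ℂ) :
    (Th ^ (k : ℤ)) (x, a • uk + b • vl) =
      (((la : ℂ) ^ k) • x, (a * ka ^ k) • uk + (b * (la : ℂ) ^ k) • vl) := by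
  induction k with
  | zero => simp [one_V7_apply]
  | succ k ih =>
    rw [Thz_succ, ih, Th_snd_eig, smul_smul]
    congr 1
    · rw [pow_succ']
    · rw [pow_succ, pow_succ, mul_assoc, mul_assoc]

lemma Thz_snd_eig (k : ℤ) (x : ℂ × ℂ) (a b : ℂ) :
    (Th ^ k) (x, a • uk + b • vl) =
      (((la : ℂ) ^ k) • x, (a * ka ^ k) • uk + (b * (la : ℂ) ^ k) • vl) := by
  rcases k with k | k
  · exact_mod_cast Thz_snd_eig_nat k x a b
  · have h := Thz_snd_eig_nat (k + 1) (((la : ℂ) ^ (Int.negSucc k)) • x)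
      (a * ka ^ (Int.negSucc k)) (b * (la : ℂ) ^ (Int.negSucc k))
    have hneg : Int.negSucc k = -((k + 1 : ℕ) : ℤ) := by rw [Int.negSucc_eq]; push_cast; rfl
    have e1 : ∀ z : ℂ, z ≠ 0 → z ^ (Int.negSucc k) * z ^ (k + 1) = 1 := by
      intro z hz
      rw [zpow_negSucc, inv_mul_cancel₀ (pow_ne_zero _ hz)]
    rw [smul_smul, mul_comm ((la : ℂ) ^ (k + 1)), e1 _ lac_ne, mul_assoc, e1 _ ka_ne, mul_assoc,
      e1 _ lac_ne, one_smul, mul_one, mul_one] at h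
    rw [← h, hneg, Thz_neg]

lemma th_apply (k : ℤ) (m : W) : th k m = (((la : ℂ) ^ k) • m.1, m.2 + k • (ka0 : UnitAddCircle)) :=
  rfl

lemma th_add (k k' : ℤ) (m : W) : th (k + k') m = th k (th k' m) := by
  simp only [th_apply, smul_smul, zpow_add₀ lac_ne, add_zsmul]
  congr 1
  abel

lemma th_zero (m : W) : th 0 m = m := by
  simp [th_apply]

lemma th_neg (k : ℤ) (m : W) : th (-k) (th k m) = m := by
  rw [← th_add]
  simp [th_zero]

lemma rho_apply (i : Mv) (m : W) : rho i m = (RM (1 : ℂ) i m.1, m.2) := rfl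

lemma th_rho (k : ℤ) (i : Mv) (m : W) : th k (rho i m) = rho i (th k m) := by
  simp only [th_apply, rho_apply, map_smul]

lemma rho_inv (i : Mv) (m : W) : rho i.inv (rho i m) = m := by
  simp only [rho_apply, RM_inv_apply]

lemma rho_none (m : W) : rho none m = m := rfl

lemma th_mem {k : ℤ} {m : W} : th k m ∈ N ↔ m ∈ N := by
  show ((la : ℂ) ^ k) • m.1 ≠ 0 ↔ m.1 ≠ 0
  rw [smul_ne_zero_iff]
  exact ⟨fun h => h.2, fun h => ⟨zpow_ne_zero _ lac_ne, h⟩⟩

lemma rho_mem {i : Mv} {m : W} : rho i m ∈ N ↔ m ∈ N := by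
  show RM (1 : ℂ) i m.1 ≠ 0 ↔ m.1 ≠ 0
  constructor
  · intro h h0
    apply h
    rw [h0, map_zero]
  · intro h h0
    apply h
    exact (RM (1 : ℂ) i).injective (by rw [h0, map_zero])

lemma th_x {k : ℤ} {m : W} : (th k m).1.1 ≠ 0 ↔ m.1.1 ≠ 0 := by
  show ((la : ℂ) ^ k) • m.1.1 ≠ 0 ↔ m.1.1 ≠ 0
  rw [smul_ne_zero_iff]
  exact ⟨fun h => h.2, fun h => ⟨zpow_ne_zero _ lac_ne, h⟩⟩

lemma rho_x {i : Mv} {m : W} : (rho i m).1.1 ≠ 0 ↔ m.1.1 ≠ 0 := by
  exact RM_fst_ne (1 : ℂ) i m.1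

lemma continuous_th (k : ℤ) : Continuous (th k) := by
  unfold th
  fun_prop

lemma continuous_rho (i : Mv) : Continuous (rho i) := by
  unfold rho
  fun_prop

lemma isOpen_N : IsOpen N := by
  have : N = Prod.fst ⁻¹' ({0}ᶜ : Set ((ℂ × ℂ) × ℂ)) := rfl
  rw [this]
  exact isOpen_compl_singleton.preimage continuous_fst

lemma nsq_nonneg' (p : (ℂ × ℂ) × ℂ) : 0 ≤ nsq p := by
  unfold nsq
  positivity

lemma nsq_pos {m : W} (hm : m ∈ N) : 0 < nsq m.1 := by
  rcases (nsq_nonneg' m.1).lt_or_eq with h | h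
  · exact h
  · exfalso
    apply hm
    unfold nsq at h
    have h1 : 0 ≤ ‖m.1.1.1‖ ^ 2 := by positivity
    have h2 : 0 ≤ ‖m.1.1.2‖ ^ 2 := by positivity
    have h3 : 0 ≤ ‖m.1.2‖ ^ 2 := by positivity
    have e1 : ‖m.1.1.1‖ ^ 2 = 0 := by linarith
    have e2 : ‖m.1.1.2‖ ^ 2 = 0 := by linarith
    have e3 : ‖m.1.2‖ ^ 2 = 0 := by linarith
    have f1 : m.1.1.1 = 0 := by simpa using e1
    have f2 : m.1.1.2 = 0 := by simpa using e2
    have f3 : m.1.2 = 0 := by simpa using e3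
    exact Prod.ext (Prod.ext f1 f2) f3

lemma nsq_smul' (c : ℂ) (p : (ℂ × ℂ) × ℂ) : nsq (c • p) = ‖c‖ ^ 2 * nsq p := by
  unfold nsq
  simp only [Prod.smul_fst, Prod.smul_snd, smul_eq_mul, norm_mul]
  ring

lemma nsq_th (k : ℤ) (m : W) : nsq (th k m).1 = (la ^ 2) ^ k * nsq m.1 := by
  show nsq (((la : ℂ) ^ k) • m.1) = _
  rw [nsq_smul', norm_zpow, Complex.norm_real, Real.norm_of_nonneg la_pos.le]
  congr 1
  rw [← zpow_natCast, ← zpow_natCast, ← zpow_mul, ← zpow_mul, mul_comm]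

lemma isOpen_DY : IsOpen DY := isOpen_F.prod isOpen_N

lemma exists_shell {m : W} (hm : m ∈ N) : ∃ k : ℤ, th k m ∈ Sh := by
  have hx := nsq_pos hm
  have hl : 0 < la ^ 2 := by have := la_pos; positivity
  have hl1 : la ^ 2 < 1 := by
    have h1 := la_pos
    have h2 := la_lt_one
    nlinarith
  have hy : 1 < (la ^ 2)⁻¹ := (one_lt_inv₀ hl).2 hl1
  obtain ⟨n, hn1, hn2⟩ := exists_mem_Ioc_zpow hx hy
  refine ⟨n + 1, ?_⟩
  show la ^ 2 < nsq (th (n + 1) m).1 ∧ nsq (th (n + 1) m).1 ≤ 1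
  rw [nsq_th]
  have hpos : 0 < (la ^ 2) ^ (n + 1) := zpow_pos hl _
  constructor
  · have e : (la ^ 2) ^ (n + 1) * ((la ^ 2)⁻¹) ^ n = la ^ 2 := by
      rw [zpow_add_one₀ hl.ne', inv_zpow]
      have : (la ^ 2) ^ n ≠ 0 := (zpow_pos hl n).ne'
      field_simp
    calc la ^ 2 = (la ^ 2) ^ (n + 1) * ((la ^ 2)⁻¹) ^ n := e.symm
      _ < (la ^ 2) ^ (n + 1) * nsq m.1 := by
        exact mul_lt_mul_of_pos_left hn1 hpos
  · have e : (la ^ 2) ^ (n + 1) * ((la ^ 2)⁻¹) ^ (n + 1) = 1 := by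
      rw [inv_zpow, mul_inv_cancel₀ hpos.ne']
    calc (la ^ 2) ^ (n + 1) * nsq m.1 ≤ (la ^ 2) ^ (n + 1) * ((la ^ 2)⁻¹) ^ (n + 1) :=
        mul_le_mul_of_nonneg_left hn2 hpos.le
      _ = 1 := e

lemma pic_apply (c : ℝ) (m : W) : pic c m = (m.1.1, ((c : ℂ) * yc m.2) • uk + m.1.2 • vl) := rfl

lemma continuous_pic (c : ℝ) : Continuous (pic c) := by
  have h := continuous_yc
  unfold pic
  fun_prop

lemma pic_th (c : ℝ) (k : ℤ) (m : W) : pic c (th k m) = (Th ^ k) (pic c m) := by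
  rw [pic_apply, pic_apply, Thz_snd_eig]
  simp only [th_apply, Prod.smul_fst, Prod.smul_snd, smul_eq_mul, yc_add, yc_zsmul]
  rw [mul_comm ((la : ℂ) ^ k) m.1.2, mul_assoc]

lemma pic_rho (c : ℝ) (i : Mv) (m : W) : pic c (rho i m) = RM vl i (pic c m) := by
  rw [pic_apply, pic_apply, rho_apply]
  revert i
  apply Mv_rec
  · rfl
  · rw [RM_zero_true, RM_zero_true]
  · rw [RM_zero_false, RM_zero_false]
  · rfl
  · rfl
  · rfl
  · rfl
  · rw [RM_three_true, RM_three_true]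
    simp only [add_smul, smul_eq_mul, mul_one, add_assoc]
  · rw [RM_three_false, RM_three_false]
    simp only [sub_smul, smul_eq_mul, mul_one, add_sub_assoc]

lemma norm_add_sq_le' (a b : ℂ) : ‖a + b‖ ^ 2 ≤ 2 * ‖a‖ ^ 2 + 2 * ‖b‖ ^ 2 := by
  have h := norm_add_le a b
  have h0 := norm_nonneg (a + b)
  nlinarith [sq_nonneg (‖a‖ - ‖b‖), norm_nonneg a, norm_nonneg b]

lemma norm_sub_sq_le' (a b : ℂ) : ‖a - b‖ ^ 2 ≤ 2 * ‖a‖ ^ 2 + 2 * ‖b‖ ^ 2 := by
  have := norm_add_sq_le' a (-b)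
  rwa [norm_neg, ← sub_eq_add_neg] at this

lemma norm_exp_I' : ‖Complex.exp Complex.I‖ = 1 := by
  have := Complex.norm_exp_ofReal_mul_I 1
  simpa using this

lemma norm_exp_neg_I' : ‖Complex.exp (-Complex.I)‖ = 1 := by
  have := Complex.norm_exp_ofReal_mul_I (-1)
  simpa using this

/-- bounds for the metric of a moved vector -/
lemma nsq_RM_le (i : Mv) (p : (ℂ × ℂ) × ℂ) : nsq (RM (1 : ℂ) i p) ≤ 4 * nsq p := by
  have h1 : 0 ≤ ‖p.1.1‖ ^ 2 := by positivity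
  have h2 : 0 ≤ ‖p.1.2‖ ^ 2 := by positivity
  have h3 : 0 ≤ ‖p.2‖ ^ 2 := by positivity
  revert i
  apply Mv_rec
  · rw [RM_none]; unfold nsq; linarith
  · rw [RM_zero_true]; unfold nsq
    simp only [norm_mul, norm_exp_I', norm_exp_neg_I', one_mul]; linarith
  · rw [RM_zero_false]; unfold nsq
    simp only [norm_mul, norm_exp_I', norm_exp_neg_I', one_mul]; linarith
  · rw [RM_one_true]; unfold nsq
    have := norm_add_sq_le' p.1.1 p.1.2
    simp only; linarith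
  · rw [RM_one_false]; unfold nsq
    have := norm_sub_sq_le' p.1.1 p.1.2
    simp only; linarith
  · rw [RM_two_true]; unfold nsq
    simp only [norm_neg]; linarith
  · rw [RM_two_false]; unfold nsq
    simp only [norm_neg]; linarith
  · rw [RM_three_true]; unfold nsq
    have := norm_add_sq_le' p.2 p.1.1
    simp only [smul_eq_mul, mul_one]; linarith
  · rw [RM_three_false]; unfold nsq
    have := norm_sub_sq_le' p.2 p.1.1
    simp only [smul_eq_mul, mul_one]; linarith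

lemma nsq_RM_ge (i : Mv) (p : (ℂ × ℂ) × ℂ) : nsq p ≤ 4 * nsq (RM (1 : ℂ) i p) := by
  have := nsq_RM_le i.inv (RM (1 : ℂ) i p)
  rwa [RM_inv_apply] at this

lemma nsq2_RM_le (v : T) (i : Mv) (p : (ℂ × ℂ) × T) : nsq2 (RM v i p).1 ≤ 4 * nsq2 p.1 := by
  have h1 : 0 ≤ ‖p.1.1‖ ^ 2 := by positivity
  have h2 : 0 ≤ ‖p.1.2‖ ^ 2 := by positivity
  revert i
  apply Mv_rec
  · rw [RM_none]; unfold nsq2; linarith
  · rw [RM_zero_true]; unfold nsq2
    simp only [norm_mul, norm_exp_I', norm_exp_neg_I', one_mul]; linarith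
  · rw [RM_zero_false]; unfold nsq2
    simp only [norm_mul, norm_exp_I', norm_exp_neg_I', one_mul]; linarith
  · rw [RM_one_true]; unfold nsq2
    have := norm_add_sq_le' p.1.1 p.1.2
    simp only; linarith
  · rw [RM_one_false]; unfold nsq2
    have := norm_sub_sq_le' p.1.1 p.1.2
    simp only; linarith
  · rw [RM_two_true]; unfold nsq2
    simp only [norm_neg]; linarith
  · rw [RM_two_false]; unfold nsq2
    simp only [norm_neg]; linarith
  · rw [RM_three_true]; unfold nsq2; simp only; linarith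
  · rw [RM_three_false]; unfold nsq2; simp only; linarith

lemma nsq2_RM_ge (v : T) (i : Mv) (p : (ℂ × ℂ) × T) : nsq2 p.1 ≤ 4 * nsq2 (RM v i p).1 := by
  have := nsq2_RM_le v i.inv (RM v i p)
  rwa [RM_inv_apply] at this

lemma nsq_RM_x_zero (i : Mv) (s : ℂ) : nsq (RM (1 : ℂ) i (0, s)) = ‖s‖ ^ 2 := by
  rw [RM_zero_fst]
  simp [nsq]

end Pool.Agent.H5.EC
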