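import Pool.Agent.H5.EC.B1

/-! Part B2: lattice facts: the plane spanned by the two eigenvectors meets the lattice trivially
near the contracted direction. -/

open Set Topology MeasureTheory
open scoped Manifold ContDiff

noncomputable section

namespace Pool.Agent.H5.EC

lemma Lam_small {l : T4} (hl : l ∈ Lam) (h : ∀ k, ‖l k‖ < 1) : l = 0 := by
  funext k
  obtain ⟨a, b, hab⟩ := hl k
  have h1 := h k
  have hre : |(l k).re| < 1 := lt_of_le_of_lt (Complex.abs_re_le_norm _) h1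
  have him : |(l k).im| < 1 := lt_of_le_of_lt (Complex.abs_im_le_norm _) h1
  have e1 : (l k).re = a := by rw [hab]; simp
  have e2 : (l k).im = b := by rw [hab]; simp
  rw [e1] at hre
  rw [e2] at him
  have ha : a = 0 := by
    have : |a| < 1 := by exact_mod_cast hre
    exact Int.abs_lt_one_iff.mp this
  have hb : b = 0 := by
    have : |b| < 1 := by exact_mod_cast him
    exact Int.abs_lt_one_iff.mp this
  rw [hab, ha, hb]
  simp

/-- iterating the companion matrix on the plane of the two eigenvectors -/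
lemma lat_eig_iter {a b : ℂ} (h : a • uk + b • vl ∈ Lam) (n : ℕ) :
    (a * ka ^ n) • uk + (b * (la : ℂ) ^ n) • vl ∈ Lam := by
  induction n with
  | zero => simpa using h
  | succ n ih =>
    have h1 := A_mem ih
    rw [map_add, map_smul, map_smul, A_vl, A_uk, smul_smul, smul_smul] at h1
    have e1 : a * ka ^ n * ka = a * ka ^ (n + 1) := by ring
    have e2 : b * (la : ℂ) ^ n * (la : ℂ) = b * (la : ℂ) ^ (n + 1) := by ring
    rw [e1, e2] at h1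
    exact h1

lemma norm_la : ‖(la : ℂ)‖ = la := by
  rw [Complex.norm_real, Real.norm_eq_abs, abs_of_pos la_pos]

lemma lat_eig {a b : ℂ} (h : a • uk + b • vl ∈ Lam) (ha : ‖a‖ < 1) : a = 0 ∧ b = 0 := by
  -- choose `n` with `‖a‖ + ‖b‖ la ^ n < 1`
  obtain ⟨n, hn⟩ : ∃ n : ℕ, ‖b‖ * la ^ n < 1 - ‖a‖ := by
    have hlim : Filter.Tendsto (fun n : ℕ => ‖b‖ * la ^ n) Filter.atTop (𝓝 (‖b‖ * 0)) :=
      (tendsto_pow_atTop_nhds_zero_of_lt_one la_pos.le la_lt_one).const_mul _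
    rw [mul_zero] at hlim
    exact (hlim.eventually_lt_const (by linarith : (0 : ℝ) < 1 - ‖a‖)).exists
  have hz := Lam_small (lat_eig_iter h n) (fun k => by
    have e : ((a * ka ^ n) • uk + (b * (la : ℂ) ^ n) • vl) k =
        a * ka ^ n * ka ^ (k : ℕ) + b * (la : ℂ) ^ n * (la : ℂ) ^ (k : ℕ) := by
      simp [uk, vl, smul_eq_mul]
    rw [e]
    calc ‖a * ka ^ n * ka ^ (k : ℕ) + b * (la : ℂ) ^ n * (la : ℂ) ^ (k : ℕ)‖
        ≤ ‖a * ka ^ n * ka ^ (k : ℕ)‖ + ‖b * (la : ℂ) ^ n * (la : ℂ) ^ (k : ℕ)‖ := norm_add_le _ _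
      _ = ‖a‖ + ‖b‖ * la ^ n * la ^ (k : ℕ) := by
          simp only [norm_mul, norm_pow, norm_ka, norm_la, one_pow, mul_one]
      _ ≤ ‖a‖ + ‖b‖ * la ^ n * 1 := by
          have h1 : la ^ (k : ℕ) ≤ 1 := pow_le_one₀ la_pos.le la_lt_one.le
          have h2 : 0 ≤ ‖b‖ * la ^ n := mul_nonneg (norm_nonneg _) (pow_nonneg la_pos.le _)
          have := mul_le_mul_of_nonneg_left h1 h2
          linarith
      _ < 1 := by rw [mul_one]; linarith)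
  have h0 := congrFun hz 0
  have h1 := congrFun hz 1
  simp only [uk, vl, Pi.add_apply, Pi.smul_apply, smul_eq_mul, Fin.val_zero, pow_zero, mul_one,
    Pi.zero_apply, Fin.val_one, pow_one] at h0 h1
  have hka := ka_ne
  have hla := lac_ne
  have hne := ka_ne_la
  have key : a * ka ^ n * (ka - la) = 0 := by linear_combination h1 - (la : ℂ) * h0
  have ha0 : a = 0 := by
    rcases mul_eq_zero.mp key with h | h
    · rcases mul_eq_zero.mp h with h | h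
      · exact h
      · exact absurd h (pow_ne_zero _ hka)
    · exact absurd (sub_eq_zero.mp h) hne
  refine ⟨ha0, ?_⟩
  rw [ha0, zero_mul, zero_add] at h0
  rcases mul_eq_zero.mp h0 with h | h
  · exact h
  · exact absurd h (pow_ne_zero _ hla)

/-- points of the model spaces with the same image -/
lemma pic_inj {c c' : ℝ} (hc : c ∈ Ioo (0 : ℝ) (1 / 2)) (hc' : c' ∈ Ioo (0 : ℝ) (1 / 2)) {m m' : W}
    {k : ℤ} {l : T4} (hl : l ∈ Lam) (h : pic c' m' = (Th ^ k) (pic c m) + (0, l)) :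
    c' = c ∧ m' = th k m := by
  have hp : pic c m = (m.1.1, ((c : ℂ) * yc m.2) • uk + m.1.2 • vl) := rfl
  rw [hp, Thz_snd_eig] at h
  have hp' : pic c' m' = (m'.1.1, ((c' : ℂ) * yc m'.2) • uk + m'.1.2 • vl) := rfl
  rw [hp'] at h
  have h1 : m'.1.1 = ((la : ℂ) ^ k) • m.1.1 := by
    have := congrArg Prod.fst h
    simpa using this
  have h2 : ((c' : ℂ) * yc m'.2) • uk + m'.1.2 • vl =
      ((c : ℂ) * yc m.2 * ka ^ k) • uk + (m.1.2 * (la : ℂ) ^ k) • vl + l := by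
    have := congrArg Prod.snd h
    simpa using this
  have h3 : ((c' : ℂ) * yc m'.2 - (c : ℂ) * yc m.2 * ka ^ k) • uk +
      (m'.1.2 - m.1.2 * (la : ℂ) ^ k) • vl ∈ Lam := by
    have e : ((c' : ℂ) * yc m'.2 - (c : ℂ) * yc m.2 * ka ^ k) • uk +
        (m'.1.2 - m.1.2 * (la : ℂ) ^ k) • vl = l := by
      rw [sub_smul, sub_smul]
      have : l = (((c' : ℂ) * yc m'.2) • uk + m'.1.2 • vl) -
          (((c : ℂ) * yc m.2 * ka ^ k) • uk + (m.1.2 * (la : ℂ) ^ k) • vl) := by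
        rw [h2]; abel
      rw [this]; abel
    rw [e]; exact hl
  have hn : ‖(c' : ℂ) * yc m'.2‖ = c' := by
    rw [norm_mul, norm_yc, mul_one, Complex.norm_real, Real.norm_eq_abs, abs_of_pos hc'.1]
  have hn2 : ‖(c : ℂ) * yc m.2 * ka ^ k‖ = c := by
    rw [norm_mul, norm_mul, norm_yc, norm_zpow, norm_ka, one_zpow, mul_one, mul_one,
      Complex.norm_real, Real.norm_eq_abs, abs_of_pos hc.1]
  obtain ⟨h4, h5⟩ := lat_eig h3 (by
    calc ‖(c' : ℂ) * yc m'.2 - (c : ℂ) * yc m.2 * ka ^ k‖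
        ≤ ‖(c' : ℂ) * yc m'.2‖ + ‖(c : ℂ) * yc m.2 * ka ^ k‖ := norm_sub_le _ _
      _ = c' + c := by rw [hn, hn2]
      _ < 1 := by linarith [hc.2, hc'.2])
  have h6 : (c' : ℂ) * yc m'.2 = (c : ℂ) * yc m.2 * ka ^ k := sub_eq_zero.mp h4
  have hcc : c' = c := by rw [← hn, ← hn2, h6]
  refine ⟨hcc, ?_⟩
  have h7 : yc m'.2 = yc m.2 * ka ^ k := by
    rw [hcc] at h6
    have hc0 : (c : ℂ) ≠ 0 := by exact_mod_cast hc.1.ne'
    apply mul_left_cancel₀ hc0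
    rw [h6]; ring
  have h8 : m'.2 = m.2 + k • (ka0 : UnitAddCircle) := by
    apply yc_injective
    rw [yc_add, yc_zsmul, h7]
  have h9 : m'.1.2 = (la : ℂ) ^ k * m.1.2 := by
    rw [sub_eq_zero.mp h5]; ring
  unfold th
  ext
  · rw [h1]; rfl
  · rw [h1]; rfl
  · rw [h9]; rfl
  · exact h8

lemma sqrt_two_indep {a b : ℤ} (h : (a : ℝ) + b * Real.sqrt 2 = 0) : a = 0 ∧ b = 0 := by
  by_cases hb : b = 0
  · subst hb
    refine ⟨?_, rfl⟩
    have : (a : ℝ) = 0 := by simpa using h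
    exact_mod_cast this
  · exfalso
    have hb' : (b : ℝ) ≠ 0 := by exact_mod_cast hb
    have e : Real.sqrt 2 = ((-a / b : ℚ) : ℝ) := by
      push_cast
      rw [eq_div_iff hb']
      linarith
    exact irrational_sqrt_two ⟨_, e.symm⟩

lemma la_quad_b2 : la ^ 2 = (1 + Real.sqrt 2) * la - 1 := by
  have h2 : Real.sqrt 2 ^ 2 = 2 := Real.sq_sqrt (by norm_num)
  have h1 : 1.4 < Real.sqrt 2 := by
    rw [Real.lt_sqrt (by norm_num)]; norm_num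
  have hD : (0 : ℝ) ≤ (1 + Real.sqrt 2) ^ 2 - 4 := by nlinarith
  have h3 : Real.sqrt ((1 + Real.sqrt 2) ^ 2 - 4) ^ 2 = (1 + Real.sqrt 2) ^ 2 - 4 := Real.sq_sqrt hD
  unfold la
  linear_combination (1 / 4) * h3

/-- linear independence over the integers of the powers of `la` -/
lemma la_indep (n : Fin 4 → ℤ) (h : ∑ k, (n k : ℝ) * la ^ (k : ℕ) = 0) : n = 0 := by
  rw [Fin.sum_univ_four] at h
  simp only [Fin.val_zero, pow_zero, mul_one, Fin.val_one, pow_one] at h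
  have e2 : ((2 : Fin 4) : ℕ) = 2 := rfl
  have e3 : ((3 : Fin 4) : ℕ) = 3 := rfl
  rw [e2, e3] at h
  have h2 : Real.sqrt 2 ^ 2 = 2 := Real.sq_sqrt (by norm_num)
  have hq := la_quad_b2
  obtain ⟨n0, hn0⟩ : ∃ m, m = n 0 := ⟨_, rfl⟩
  obtain ⟨n1, hn1⟩ : ∃ m, m = n 1 := ⟨_, rfl⟩
  obtain ⟨n2, hn2⟩ : ∃ m, m = n 2 := ⟨_, rfl⟩
  obtain ⟨n3, hn3⟩ : ∃ m, m = n 3 := ⟨_, rfl⟩
  rw [← hn0, ← hn1, ← hn2, ← hn3] at h
  obtain ⟨A0, hA0⟩ : ∃ m : ℤ, m = n0 - n2 - n3 := ⟨_, rfl⟩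
  obtain ⟨A1, hA1⟩ : ∃ m : ℤ, m = -n3 := ⟨_, rfl⟩
  obtain ⟨B0, hB0⟩ : ∃ m : ℤ, m = n1 + n2 + 2 * n3 := ⟨_, rfl⟩
  obtain ⟨B1, hB1⟩ : ∃ m : ℤ, m = n2 + 2 * n3 := ⟨_, rfl⟩
  have hlin : ((A0 : ℝ) + A1 * Real.sqrt 2) + ((B0 : ℝ) + B1 * Real.sqrt 2) * la = 0 := by
    rw [hA0, hA1, hB0, hB1]
    push_cast
    have h3 : la ^ 3 = (2 + 2 * Real.sqrt 2) * la - (1 + Real.sqrt 2) := by
      have : la ^ 3 = la * la ^ 2 := by ring
      rw [this, hq]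
      linear_combination (1 + Real.sqrt 2) * hq + la * h2
    rw [hq, h3] at h
    linear_combination h
  obtain ⟨C0, hC0⟩ : ∃ m : ℤ, m = 2 * A0 + B0 + 2 * B1 := ⟨_, rfl⟩
  obtain ⟨C1, hC1⟩ : ∃ m : ℤ, m = 2 * A1 + B0 + B1 := ⟨_, rfl⟩
  have hga : (C0 : ℝ) + C1 * Real.sqrt 2 =
      -((B0 : ℝ) + B1 * Real.sqrt 2) * (2 * la - (1 + Real.sqrt 2)) := by
    rw [hC0, hC1]
    push_cast
    linear_combination 2 * hlin - (B1 : ℝ) * h2
  have hsq : (2 * la - (1 + Real.sqrt 2)) ^ 2 = 2 * Real.sqrt 2 - 1 := by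
    linear_combination 4 * hq + h2
  have hg2 : ((C0 : ℝ) + C1 * Real.sqrt 2) ^ 2 =
      ((B0 : ℝ) + B1 * Real.sqrt 2) ^ 2 * (2 * Real.sqrt 2 - 1) := by
    rw [hga, mul_pow, hsq, neg_sq]
  obtain ⟨hP, hQ⟩ := sqrt_two_indep (a := C0 ^ 2 + 2 * C1 ^ 2 - (8 * B0 * B1 - B0 ^ 2 - 2 * B1 ^ 2))
    (b := 2 * C0 * C1 - (2 * B0 ^ 2 + 4 * B1 ^ 2 - 2 * B0 * B1)) (by
      push_cast
      linear_combination hg2 - ((C1 : ℝ) ^ 2 - (4 * B0 * B1 - B1 ^ 2 + 2 * Real.sqrt 2 * B1 ^ 2)) * h2)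
  have hkey : (C0 ^ 2 - 2 * C1 ^ 2) ^ 2 + 7 * (B0 ^ 2 - 2 * B1 ^ 2) ^ 2 = 0 := by
    have hP' : C0 ^ 2 + 2 * C1 ^ 2 = 8 * B0 * B1 - B0 ^ 2 - 2 * B1 ^ 2 := by linarith
    have hQ' : 2 * C0 * C1 = 2 * B0 ^ 2 + 4 * B1 ^ 2 - 2 * B0 * B1 := by linarith
    have e : (C0 ^ 2 - 2 * C1 ^ 2) ^ 2 = (C0 ^ 2 + 2 * C1 ^ 2) ^ 2 - 2 * (2 * C0 * C1) ^ 2 := by ring
    rw [e, hP', hQ']
    ring
  have hB : B0 ^ 2 - 2 * B1 ^ 2 = 0 := by
    have h7 : (B0 ^ 2 - 2 * B1 ^ 2) ^ 2 = 0 := by nlinarith [sq_nonneg (C0 ^ 2 - 2 * C1 ^ 2), sq_nonneg (B0 ^ 2 - 2 * B1 ^ 2)]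
    exact pow_eq_zero_iff (two_ne_zero) |>.mp h7
  have hBf : ((B0 : ℝ) + B1 * Real.sqrt 2) * ((B0 : ℝ) + (-B1 : ℤ) * Real.sqrt 2) = 0 := by
    have : ((B0 ^ 2 - 2 * B1 ^ 2 : ℤ) : ℝ) = 0 := by exact_mod_cast hB
    push_cast at this ⊢
    linear_combination this - (B1 : ℝ) ^ 2 * h2
  have hBB : B0 = 0 ∧ B1 = 0 := by
    rcases mul_eq_zero.mp hBf with h | h
    · exact sqrt_two_indep h
    · obtain ⟨h1, h2⟩ := sqrt_two_indep h
      exact ⟨h1, by omega⟩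
  obtain ⟨hb0, hb1⟩ := hBB
  rw [hb0, hb1] at hlin
  obtain ⟨ha0, ha1⟩ := sqrt_two_indep (a := A0) (b := A1) (by
    have := hlin
    push_cast at this
    linear_combination this)
  funext k
  fin_cases k
  · change n 0 = 0; omega
  · change n 1 = 0; omega
  · change n 2 = 0; omega
  · change n 3 = 0; omega

end Pool.Agent.H5.EC
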