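import Pool.Agent.H5.EC.B2
import Pool.Graph.R_pool_sql_team_ae5b0c61.H86.Kronecker

/-! Part B3: density and minimality of the holonomy action. -/

open Set Topology MeasureTheory
open scoped Manifold ContDiff

noncomputable section

namespace Pool.Agent.H5.EC

/-! ### density of the contracted line -/

/-- the one-parameter subgroup of the real torus -/
def b3phi : ℝ →+ (Fin 4 → UnitAddCircle) where
  toFun x := fun k => ((x * la ^ (k : ℕ) : ℝ) : UnitAddCircle)
  map_zero' := by funext k; simp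
  map_add' x y := by
    funext k
    simp only [Pi.add_apply, add_mul]
    exact AddCircle.coe_add 1 _ _

/-- the characters of the real torus -/
def b3Gam : AddSubgroup ((Fin 4 → UnitAddCircle) →+ UnitAddCircle) where
  carrier := {χ | ∃ n : Fin 4 → ℤ, ∀ y, χ y = ∑ k, n k • y k}
  add_mem' := by
    rintro χ χ' ⟨n, hn⟩ ⟨n', hn'⟩
    refine ⟨n + n', fun y => ?_⟩
    simp only [AddMonoidHom.add_apply, hn, hn', Pi.add_apply, add_smul, Finset.sum_add_distrib]
  zero_mem' := ⟨0, fun y => by simp⟩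
  neg_mem' := by
    rintro χ ⟨n, hn⟩
    refine ⟨-n, fun y => ?_⟩
    simp only [AddMonoidHom.neg_apply, hn, Pi.neg_apply, neg_smul, Finset.sum_neg_distrib]

lemma b3_dense (x : Fin 4 → UnitAddCircle) : x ∈ b3phi.range.topologicalClosure := by
  refine Pool.Agent.H86.Kronecker.kronecker b3Gam ?_ ?_ b3phi.range.topologicalClosure
    (AddSubgroup.isClosed_topologicalClosure _) x ?_
  · rintro χ ⟨n, hn⟩
    have : (χ : (Fin 4 → UnitAddCircle) → UnitAddCircle) = fun y => ∑ k, n k • y k := by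
      funext y; exact hn y
    rw [this]
    fun_prop
  · intro y hy
    obtain ⟨k, hk⟩ := Function.ne_iff.1 hy
    refine ⟨Pi.evalAddMonoidHom _ k, ⟨Pi.single k 1, fun z => ?_⟩, by simpa using hk⟩
    rw [Finset.sum_eq_single k]
    · simp
    · intro j _ hj
      simp [Pi.single_eq_of_ne hj]
    · intro h; exact absurd (Finset.mem_univ k) h
  · rintro χ ⟨n, hn⟩ h0
    have h1 : ∀ t : ℝ, (((∑ k, (n k : ℝ) * la ^ (k : ℕ)) * t : ℝ) : UnitAddCircle) = 0 := by
      intro t
      have h2 := h0 (b3phi t) (AddSubgroup.le_topologicalClosure _ ⟨t, rfl⟩)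
      rw [hn] at h2
      rw [← h2, Finset.sum_mul]
      have e : ∀ s : Finset (Fin 4), ((∑ i ∈ s, (n i : ℝ) * la ^ (i : ℕ) * t : ℝ) : UnitAddCircle) =
          ∑ k ∈ s, n k • b3phi t k := by
        intro s
        induction s using Finset.induction_on with
        | empty => simp
        | insert i s hi ih =>
          rw [Finset.sum_insert hi, Finset.sum_insert hi, AddCircle.coe_add, ih]
          congr 1
          change _ = n i • ((t * la ^ (i : ℕ) : ℝ) : UnitAddCircle)
          rw [← AddCircle.coe_zsmul]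
          congr 1
          rw [zsmul_eq_mul]
          ring
      exact e Finset.univ
    have hn0 : n = 0 := by
      apply la_indep
      by_contra hs
      have h3 := h1 (1 / (2 * ∑ k, (n k : ℝ) * la ^ (k : ℕ)))
      have h4 : (∑ k, (n k : ℝ) * la ^ (k : ℕ)) * (1 / (2 * ∑ k, (n k : ℝ) * la ^ (k : ℕ))) =
          1 / 2 := by
        field_simp
      rw [h4, AddCircle.coe_eq_zero_iff] at h3
      obtain ⟨m, hm⟩ := h3
      rw [zsmul_eq_mul, mul_one] at hm
      have h5 : (2 * m : ℝ) = 1 := by linarith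
      have h6 : (2 * m : ℤ) = 1 := by exact_mod_cast h5
      omega
    rw [hn, hn0]
    simp

lemma b3_real (r : Fin 4 → ℝ) {ε : ℝ} (hε : 0 < ε) :
    ∃ x : ℝ, ∃ n : Fin 4 → ℤ, ∀ k, |r k - x * la ^ (k : ℕ) - n k| < ε := by
  have h := b3_dense (fun k => ((r k : ℝ) : UnitAddCircle))
  have h' : (fun k => ((r k : ℝ) : UnitAddCircle)) ∈ closure (b3phi.range : Set _) := h
  rw [Metric.mem_closure_iff] at h'
  obtain ⟨y, ⟨x, rfl⟩, hx⟩ := h' ε hε
  refine ⟨x, fun k => round (r k - x * la ^ (k : ℕ)), fun k => ?_⟩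
  have h1 := lt_of_le_of_lt (dist_le_pi_dist _ _ k) hx
  rw [dist_eq_norm] at h1
  have e : ((r k : ℝ) : UnitAddCircle) - b3phi x k =
      ((r k - x * la ^ (k : ℕ) : ℝ) : UnitAddCircle) := by
    rw [AddCircle.coe_sub]
    rfl
  rw [e, UnitAddCircle.norm_eq] at h1
  exact h1

/-- the contracted line is dense in the torus -/
lemma dense_vl (t : T4) {ε : ℝ} (hε : 0 < ε) : ∃ c : ℂ, ∃ l ∈ Lam, ‖t - c • vl - l‖ < ε := by
  obtain ⟨x, n, hx⟩ := b3_real (fun k => (t k).re) (half_pos hε)
  obtain ⟨y, m, hy⟩ := b3_real (fun k => (t k).im) (half_pos hε)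
  refine ⟨x + y * Complex.I, fun k => (n k : ℂ) + (m k : ℂ) * Complex.I,
    fun k => ⟨n k, m k, rfl⟩, ?_⟩
  rw [pi_norm_lt_iff hε]
  intro k
  have h1 := Complex.norm_le_abs_re_add_abs_im
    ((t - ((x : ℂ) + y * Complex.I) • vl - fun k => (n k : ℂ) + (m k : ℂ) * Complex.I) k)
  have e : ((t - ((x : ℂ) + y * Complex.I) • vl - fun k => (n k : ℂ) + (m k : ℂ) * Complex.I) k)
      = ((t k).re - x * la ^ (k : ℕ) - n k : ℝ) +
        ((t k).im - y * la ^ (k : ℕ) - m k : ℝ) * Complex.I := by
    simp only [Pi.sub_apply, Pi.smul_apply, vl, smul_eq_mul]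
    conv_lhs => rw [← Complex.re_add_im (t k)]
    push_cast
    ring
  have e0 : ∀ p q : ℝ, ((p : ℂ) + (q : ℂ) * Complex.I).re = p ∧
      ((p : ℂ) + (q : ℂ) * Complex.I).im = q := fun p q => by simp
  have e1 : ((t - ((x : ℂ) + y * Complex.I) • vl -
      fun k => (n k : ℂ) + (m k : ℂ) * Complex.I) k).re = (t k).re - x * la ^ (k : ℕ) - n k := by
    rw [e]; exact (e0 _ _).1
  have e2 : ((t - ((x : ℂ) + y * Complex.I) • vl -
      fun k => (n k : ℂ) + (m k : ℂ) * Complex.I) k).im = (t k).im - y * la ^ (k : ℕ) - m k := by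
    rw [e]; exact (e0 _ _).2
  rw [e1, e2] at h1
  have := hx k
  have := hy k
  linarith

/-- rotations by one radian are dense -/
lemma dense_rot {a : ℂ} (ha : ‖a‖ = 1) {ε : ℝ} (hε : 0 < ε) :
    ∃ n : ℕ, ‖Complex.exp Complex.I ^ n - a‖ < ε := by
  have : Fact (0 < 2 * Real.pi) := ⟨by positivity⟩
  have hirr : Irrational (1 / (2 * Real.pi)) := by
    have h1 : Irrational (2 * Real.pi) := by
      simpa using irrational_pi.ratCast_mul (q := 2) (by norm_num)
    simpa using h1.inv
  have hd : DenseRange ((fun n : ℕ => n • ((1 : ℝ) : AddCircle (2 * Real.pi)))) := by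
    rw [← denseRange_zsmul_iff_nsmul]
    exact AddCircle.denseRange_zsmul_coe_iff.2 hirr
  have hcont : Continuous (fun x : AddCircle (2 * Real.pi) => ‖(AddCircle.toCircle x : ℂ) - a‖) :=
    ((continuous_subtype_val.comp AddCircle.continuous_toCircle).sub continuous_const).norm
  have hop : IsOpen {x : AddCircle (2 * Real.pi) | ‖(AddCircle.toCircle x : ℂ) - a‖ < ε} :=
    isOpen_lt hcont continuous_const
  have htc : ∀ x : ℝ, ((AddCircle.toCircle (x : AddCircle (2 * Real.pi)) : Circle) : ℂ) =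
      Complex.exp (x * Complex.I) := by
    intro x
    rw [AddCircle.toCircle_apply_mk, Circle.coe_exp]
    congr 2
    rw [div_self (by positivity : (2 * Real.pi) ≠ 0), one_mul]
  have hne : {x : AddCircle (2 * Real.pi) | ‖(AddCircle.toCircle x : ℂ) - a‖ < ε}.Nonempty := by
    refine ⟨((Complex.arg a : ℝ) : AddCircle (2 * Real.pi)), ?_⟩
    have : Complex.exp (Complex.arg a * Complex.I) = a := by
      have := Complex.norm_mul_exp_arg_mul_I a
      rwa [ha, Complex.ofReal_one, one_mul] at this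
    simp only [mem_ofPred_eq, htc, this, sub_self, norm_zero]
    exact hε
  obtain ⟨n, hn⟩ := hd.exists_mem_open hop hne
  refine ⟨n, ?_⟩
  simp only [mem_ofPred_eq, AddCircle.toCircle_nsmul, Circle.coe_pow, htc] at hn
  simpa using hn

/-! ### minimality -/

/-- unit complex numbers generate the plane additively -/
lemma b3_unit_gen (S : AddSubmonoid ℂ) (h : ∀ u : ℂ, ‖u‖ = 1 → u ∈ S) (c : ℂ) : c ∈ S := by
  have h2 : ∀ c : ℂ, ‖c‖ ≤ 2 → c ∈ S := by
    intro c hc
    set φ := Real.arccos (‖c‖ / 2) with hφ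
    have hcos : Real.cos φ = ‖c‖ / 2 :=
      Real.cos_arccos (by linarith [norm_nonneg c]) (by linarith)
    have e : c = Complex.exp ((Complex.arg c + φ : ℝ) * Complex.I) +
        Complex.exp ((Complex.arg c - φ : ℝ) * Complex.I) := by
      have e1 : Complex.exp ((Complex.arg c + φ : ℝ) * Complex.I) =
          Complex.exp (Complex.arg c * Complex.I) * Complex.exp (φ * Complex.I) := by
        rw [← Complex.exp_add]; congr 1; push_cast; ring
      have e2 : Complex.exp ((Complex.arg c - φ : ℝ) * Complex.I) =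
          Complex.exp (Complex.arg c * Complex.I) * Complex.exp (-φ * Complex.I) := by
        rw [← Complex.exp_add]; congr 1; push_cast; ring
      have e3 : Complex.exp (φ * Complex.I) + Complex.exp (-φ * Complex.I) = ‖c‖ := by
        have : Complex.exp (φ * Complex.I) + Complex.exp (-φ * Complex.I) = 2 * Complex.cos φ := by
          rw [Complex.cos]; ring
        rw [this, ← Complex.ofReal_cos, hcos]
        push_cast
        ring
      rw [e1, e2, ← mul_add, e3, mul_comm]
      exact (Complex.norm_mul_exp_arg_mul_I c).symm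
    rw [e]
    exact S.add_mem (h _ (Complex.norm_exp_ofReal_mul_I _)) (h _ (Complex.norm_exp_ofReal_mul_I _))
  obtain ⟨n, hn⟩ := exists_nat_ge ‖c‖
  have hn1 : (0 : ℝ) < (n : ℝ) + 1 := by positivity
  have hc : c = (n + 1) • (c / ((n : ℂ) + 1)) := by
    have : ((n : ℂ) + 1) ≠ 0 := by exact_mod_cast hn1.ne'
    rw [nsmul_eq_mul]
    push_cast
    field_simp
  rw [hc]
  apply S.nsmul_mem
  apply h2
  rw [norm_div]
  have : ‖((n : ℂ) + 1)‖ = (n : ℝ) + 1 := by
    have := Complex.norm_natCast (n + 1)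
    push_cast at this
    exact this
  rw [this, div_le_iff₀ hn1]
  linarith

/-- rotation by `u` -/
def b3rot (u : ℂ) (m : V7) : V7 := ((u * m.1.1, u⁻¹ * m.1.2), m.2)

/-- a nonempty closed invariant subset of the fibre is everything -/
lemma minimal_V (C : Set V7) (hne : ∃ m ∈ C, m.1 ≠ 0)
    (hcl : ∀ m, m.1 ≠ 0 → m ∈ closure C → m ∈ C)
    (hR : ∀ i : Mv, ∀ m ∈ C, m.1 ≠ 0 → RM vl i m ∈ C)
    (hL : ∀ m ∈ C, ∀ l ∈ Lam, m + (0, l) ∈ C) : ∀ m : V7, m.1 ≠ 0 → m ∈ C := by
  set P : V7 → Prop := fun m => m ∈ C ∧ m.1 ≠ 0 with hP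
  have hPR : ∀ i m, P m → P (RM vl i m) := fun i m hm =>
    ⟨hR i m hm.1 hm.2, (RM_fst_ne vl i m).2 hm.2⟩
  -- the four generators
  have hPr : ∀ m, P m → P (Rr T4 m) := by
    intro m hm
    have := hPR (some (0, true)) m hm
    simpa [RM, RR] using this
  have hPu : ∀ m, P m → P (Ru T4 m) := by
    intro m hm
    have := hPR (some (1, true)) m hm
    simpa [RM, RR] using this
  have hPw : ∀ m, P m → P (Rw T4 m) := by
    intro m hm
    have := hPR (some (2, true)) m hm
    simpa [RM, RR] using this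
  have hPw' : ∀ m, P m → P ((Rw T4).symm m) := by
    intro m hm
    have := hPR (some (2, false)) m hm
    simpa [RM, RR] using this
  have hPt : ∀ m, P m → P (Rt vl m) := by
    intro m hm
    have := hPR (some (3, true)) m hm
    simpa [RM, RR] using this
  have hae : Complex.exp Complex.I ≠ 0 := Complex.exp_ne_zero _
  -- rotations
  have hpow : ∀ n : ℕ, ∀ m, P m → P (b3rot (Complex.exp Complex.I ^ n) m) := by
    intro n
    induction n with
    | zero =>
      intro m hm
      have : b3rot (Complex.exp Complex.I ^ 0) m = m := by simp [b3rot]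
      rwa [this]
    | succ n ih =>
      intro m hm
      have h1 := hPr _ (ih m hm)
      rw [Rr_apply] at h1
      have : b3rot (Complex.exp Complex.I ^ (n + 1)) m =
          ((Complex.exp Complex.I * (b3rot (Complex.exp Complex.I ^ n) m).1.1,
            Complex.exp (-Complex.I) * (b3rot (Complex.exp Complex.I ^ n) m).1.2),
            (b3rot (Complex.exp Complex.I ^ n) m).2) := by
        simp only [b3rot, pow_succ, mul_inv, Complex.exp_neg]
        refine Prod.ext (Prod.ext ?_ ?_) rfl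
        · simp only; ring
        · simp only; ring
      rwa [this]
  have hrot : ∀ u : ℂ, ‖u‖ = 1 → ∀ m, P m → P (b3rot u m) := by
    intro u hu m hm
    have hu0 : u ≠ 0 := by
      intro h; rw [h, norm_zero] at hu; exact zero_ne_one hu
    have hne' : (b3rot u m).1 ≠ 0 := by
      intro h
      apply hm.2
      have h1 : u * m.1.1 = 0 := congrArg Prod.fst h
      have h2 : u⁻¹ * m.1.2 = 0 := congrArg Prod.snd h
      exact Prod.ext ((mul_eq_zero.1 h1).resolve_left hu0)
        ((mul_eq_zero.1 h2).resolve_left (inv_ne_zero hu0))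
    refine ⟨hcl _ hne' ?_, hne'⟩
    choose N hN using fun k : ℕ => dense_rot hu (ε := 1 / ((k : ℝ) + 1)) (by positivity)
    have htend : Filter.Tendsto (fun k => Complex.exp Complex.I ^ N k) Filter.atTop (𝓝 u) := by
      rw [tendsto_iff_norm_sub_tendsto_zero]
      exact squeeze_zero (fun k => norm_nonneg _) (fun k => (hN k).le)
        tendsto_one_div_add_atTop_nhds_zero_nat
    have hc : ContinuousAt (fun v : ℂ => b3rot v m) u := by
      unfold b3rot
      exact ((continuousAt_id.mul continuousAt_const).prodMk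
        ((continuousAt_inv₀ hu0).mul continuousAt_const)).prodMk continuousAt_const
    exact mem_closure_of_tendsto (hc.tendsto.comp htend)
      (Filter.Eventually.of_forall fun k => (hpow (N k) m hm).1)
  -- shears
  have hsq : ∀ c : ℂ, ‖c‖ = 1 → ∃ u : ℂ, ‖u‖ = 1 ∧ u * u = c := by
    intro c hc
    refine ⟨Complex.exp ((Complex.arg c / 2 : ℝ) * Complex.I),
      Complex.norm_exp_ofReal_mul_I _, ?_⟩
    rw [← Complex.exp_add]
    have e : ((Complex.arg c / 2 : ℝ) : ℂ) * Complex.I + ((Complex.arg c / 2 : ℝ) : ℂ) * Complex.I =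
        Complex.arg c * Complex.I := by push_cast; ring
    rw [e]
    have := Complex.norm_mul_exp_arg_mul_I c
    rwa [hc, Complex.ofReal_one, one_mul] at this
  have hE1 : ∀ c : ℂ, ∀ m, P m → P ((m.1.1 + c * m.1.2, m.1.2), m.2) := by
    let S1 : AddSubmonoid ℂ :=
      { carrier := {c | ∀ m, P m → P ((m.1.1 + c * m.1.2, m.1.2), m.2)}
        zero_mem' := fun m hm => by simpa using hm
        add_mem' := by
          intro c d hc hd m hm
          have := hc _ (hd m hm)
          have e : (((m.1.1 + (c + d) * m.1.2, m.1.2), m.2) : V7) =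
            ((m.1.1 + d * m.1.2 + c * m.1.2, m.1.2), m.2) := by
              refine Prod.ext (Prod.ext ?_ rfl) rfl
              simp only; ring
          rw [e]
          exact this }
    intro c
    refine b3_unit_gen S1 ?_ c
    intro c hc m hm
    obtain ⟨u, hu, hu2⟩ := hsq c hc
    have hu0 : u ≠ 0 := by
      intro h; rw [h, norm_zero] at hu; exact zero_ne_one hu
    have hui : ‖u⁻¹‖ = 1 := by rw [norm_inv, hu, inv_one]
    have h1 := hrot u hu _ (hPu _ (hrot u⁻¹ hui m hm))
    rw [Ru_apply] at h1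
    have e : b3rot u (((b3rot u⁻¹ m).1.1 + (b3rot u⁻¹ m).1.2, (b3rot u⁻¹ m).1.2),
        (b3rot u⁻¹ m).2) = ((m.1.1 + c * m.1.2, m.1.2), m.2) := by
      simp only [b3rot, inv_inv]
      refine Prod.ext (Prod.ext ?_ ?_) rfl
      · simp only
        rw [mul_add, ← mul_assoc, mul_inv_cancel₀ hu0, one_mul, ← mul_assoc, hu2]
      · simp only
        rw [← mul_assoc, inv_mul_cancel₀ hu0, one_mul]
    rwa [e] at h1
  have hE2 : ∀ c : ℂ, ∀ m, P m → P ((m.1.1, m.1.2 + c * m.1.1), m.2) := by
    intro c m hm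
    have h1 := hPw' _ (hE1 (-c) _ (hPw m hm))
    rw [Rw_symm_apply, Rw_apply] at h1
    have e : (((-(-m.1.1), m.1.2 + -c * -m.1.1), m.2) : V7) =
      ((m.1.1, m.1.2 + c * m.1.1), m.2) := by
      refine Prod.ext (Prod.ext ?_ ?_) rfl
      · simp
      · simp only; ring
    simpa using h1
  have hE3 : ∀ c : ℂ, ∀ m, P m → P (m.1, m.2 + (c * m.1.1) • vl) := by
    let S3 : AddSubmonoid ℂ :=
      { carrier := {c | ∀ m, P m → P (m.1, m.2 + (c * m.1.1) • vl)}
        zero_mem' := fun m hm => by simpa using hm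
        add_mem' := by
          intro c d hc hd m hm
          have := hc _ (hd m hm)
          have e : ((m.1, m.2 + ((c + d) * m.1.1) • vl) : V7) =
            (m.1, m.2 + (d * m.1.1) • vl + (c * m.1.1) • vl) := by
              refine Prod.ext rfl ?_
              simp only [add_mul, add_smul]
              abel
          rw [e]
          exact this }
    intro c
    refine b3_unit_gen S3 ?_ c
    intro u hu m hm
    have hu0 : u ≠ 0 := by
      intro h; rw [h, norm_zero] at hu; exact zero_ne_one hu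
    have hui : ‖u⁻¹‖ = 1 := by rw [norm_inv, hu, inv_one]
    have h1 := hrot u⁻¹ hui _ (hPt _ (hrot u hu m hm))
    rw [Rt_apply] at h1
    have e : b3rot u⁻¹ ((b3rot u m).1, (b3rot u m).2 + (b3rot u m).1.1 • vl) =
        (m.1, m.2 + (u * m.1.1) • vl) := by
      simp only [b3rot, inv_inv]
      refine Prod.ext (Prod.ext ?_ ?_) rfl
      · simp only
        rw [← mul_assoc, inv_mul_cancel₀ hu0, one_mul]
      · simp only
        rw [← mul_assoc, mul_inv_cancel₀ hu0, one_mul]
    rwa [e] at h1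
  -- start
  obtain ⟨m0, hm0, hm0'⟩ := hne
  have hstart : ∃ τ : T4, P ((1, 0), τ) := by
    have h0 : P m0 := ⟨hm0, hm0'⟩
    have h1 : ∃ m, P m ∧ m.1.2 ≠ 0 := by
      by_cases h : m0.1.2 = 0
      · have h11 : m0.1.1 ≠ 0 := by
          intro h'
          exact hm0' (Prod.ext h' h)
        refine ⟨_, hE2 1 m0 h0, ?_⟩
        simp [h, h11]
      · exact ⟨m0, h0, h⟩
    obtain ⟨m1, h1, h2⟩ := h1
    have h3 := hE1 ((1 - m1.1.1) / m1.1.2) m1 h1
    have e1 : m1.1.1 + (1 - m1.1.1) / m1.1.2 * m1.1.2 = 1 := by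
      rw [div_mul_cancel₀ _ h2]; ring
    rw [e1] at h3
    have h4 := hE2 (-m1.1.2) _ h3
    refine ⟨m1.2, ?_⟩
    simpa using h4
  obtain ⟨τ0, hτ0⟩ := hstart
  have hall : ∀ τ : T4, P ((1, 0), τ) := by
    intro τ
    have hne1 : (((1, 0), τ) : V7).1 ≠ 0 := by
      intro h
      exact one_ne_zero (congrArg Prod.fst h)
    refine ⟨hcl _ hne1 ?_, hne1⟩
    rw [Metric.mem_closure_iff]
    intro ε hε
    obtain ⟨c, l, hl, hcl'⟩ := dense_vl (τ - τ0) hε
    have h1 := hE3 c _ hτ0
    have h2 := hL _ h1.1 l hl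
    refine ⟨_, h2, ?_⟩
    have e : ((((1, 0), τ0).1, ((1, 0), τ0).2 + (c * ((1, 0), τ0).1.1) • vl) : V7) + (0, l) =
        ((1, 0), τ0 + c • vl + l) := by
      refine Prod.ext ?_ ?_
      · simp
      · simp
    rw [e, dist_eq_norm]
    have e2 : (((1, 0), τ) : V7) - ((1, 0), τ0 + c • vl + l) =
        ((0, 0), τ - τ0 - c • vl - l) := by
      refine Prod.ext ?_ ?_
      · simp only [Prod.fst_sub, sub_self]
        rfl
      · simp only [Prod.snd_sub]
        abel
    rw [e2, Prod.norm_def, max_lt_iff]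
    refine ⟨?_, hcl'⟩
    have : ‖((0, 0) : ℂ × ℂ)‖ = 0 := by simp
    simpa [this] using hε
  intro m hm
  obtain ⟨⟨x1, x2⟩, τ⟩ := m
  by_cases h1 : x1 = 0
  · have h2 : x2 ≠ 0 := by
      intro h; exact hm (Prod.ext h1 h)
    have h3 := hE2 x2 _ (hall τ)
    have h4 := hE1 (-1 / x2) _ h3
    have e : (1 : ℂ) + -1 / x2 * x2 = 0 := by
      rw [div_mul_cancel₀ _ h2]; ring
    simp only [zero_add, mul_one] at h4
    rw [e] at h4
    rw [h1]
    exact h4.1
  · have h3 := hE2 1 _ (hall τ)
    have h4 := hE1 (x1 - 1) _ h3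
    have h5 := hE2 ((x2 - 1) / x1) _ h4
    simp only [zero_add, mul_one] at h5
    have e1 : (1 : ℂ) + (x1 - 1) = x1 := by ring
    rw [e1] at h5
    have e2 : (1 : ℂ) + (x2 - 1) / x1 * x1 = x2 := by
      rw [div_mul_cancel₀ _ h1]; ring
    rw [e2] at h5
    exact h5.1

end Pool.Agent.H5.EC
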