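import Pool.Agent.H5.EC.A4
import Pool.Agent.H5.EC.A2
import Pool.Agent.H5.EC.B2

/-! Part C1: the compact complex manifold `X = D / Rel`. (Port of `Helper289/Quot.lean`.) -/

open Set Topology
open scoped Manifold ContDiff

noncomputable section

namespace Pool.Agent.H5.EC

/-- the transition maps generating the relation -/
def tr (i : Mv) (k : ℤ) (l : T4) (p : E7) : E7 := (act i p.1, (Th ^ k) (RM vl i p.2) + (0, l))

lemma rel_iff {p q : E7} : Rel p q ↔ ∃ (i : Mv) (k : ℤ) (l : T4), l ∈ Lam ∧ p.1 ∈ dom i ∧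
    q = tr i k l p := by
  constructor
  · rintro ⟨i, k, l, hl, hi, h1, h2⟩
    exact ⟨i, k, l, hl, hi, Prod.ext h1 h2⟩
  · rintro ⟨i, k, l, hl, hi, rfl⟩
    exact ⟨i, k, l, hl, hi, rfl, rfl⟩

lemma isOpen_D : IsOpen D := by
  have h1 : IsOpen {p : E7 | p.1 ∈ F} := isOpen_F.preimage continuous_fst
  have h2 : IsOpen {p : E7 | p.2.1 ≠ 0} :=
    isOpen_ne.preimage (continuous_fst.comp continuous_snd)
  exact h1.inter h2

/-- sums in the second factor -/
lemma c1_add_snd (m : V7) (s t : T4) : m + (0, s) + (0, t) = m + (0, s + t) := by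
  rw [add_assoc]
  congr 1
  refine Prod.ext ?_ rfl
  simp

lemma c1_tr_snd_fst (i : Mv) (k : ℤ) (l : T4) (p : E7) :
    (tr i k l p).2.1 = ((la : ℂ) ^ k) • (RM vl i p.2).1 := by
  change ((Th ^ k) (RM vl i p.2) + ((0 : ℂ × ℂ), l)).1 = _
  rw [Prod.fst_add, Thz_fst]
  simp

lemma c1_tr_comp (i j : Mv) (k k' : ℤ) {l l' : T4} (hl : l ∈ Lam) (hl' : l' ∈ Lam) (p : E7) :
    ∃ l'' ∈ Lam, tr j k' l' (tr i k l p) =
      (act j (act i p.1), (Th ^ (k' + k)) (RM vl j (RM vl i p.2)) + (0, l'')) := by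
  obtain ⟨l1, hl1, h1⟩ := Thz_lat k' hl
  refine ⟨l1 + l', Lam.add_mem hl1 hl', ?_⟩
  refine Prod.ext rfl ?_
  change (Th ^ k') (RM vl j ((Th ^ k) (RM vl i p.2) + (0, l))) + (0, l') = _
  rw [RM_add_snd, ← Thz_RM, map_add, ← Thz_add, h1]
  exact c1_add_snd _ _ _

lemma c1_tr_zero (p : E7) : tr none 0 0 p = p := by
  refine Prod.ext rfl ?_
  change (Th ^ (0 : ℤ)) (RM vl none p.2) + ((0 : ℂ × ℂ), (0 : T4)) = p.2
  rw [Thz_zero, RM_none]
  exact add_zero _
lemma tr_mem_D {i : Mv} {k : ℤ} {l : T4} {p : E7} (hp : p ∈ D) (hi : p.1 ∈ dom i) :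
    tr i k l p ∈ D := by
  refine ⟨act_mem_F hi, ?_⟩
  rw [c1_tr_snd_fst]
  exact smul_ne_zero (zpow_ne_zero k lac_ne) ((RM_fst_ne vl i p.2).2 hp.2)
lemma Rel.refl {p : E7} (hp : p ∈ D) : Rel p p :=
  rel_iff.2 ⟨none, 0, 0, Lam.zero_mem, hp.1, (c1_tr_zero p).symm⟩
lemma Rel.symm {p q : E7} (hp : p ∈ D) (h : Rel p q) : Rel q p := by
  obtain ⟨i, k, l, hl, hi, rfl⟩ := rel_iff.1 h
  obtain ⟨l'', hl'', h''⟩ := c1_tr_comp i i.inv k (-k) hl Lam.zero_mem p
  have h2 : tr i.inv (-k) 0 (tr i k l p) = p + (0, (0, l'')) := by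
    rw [h'', act_act hi, RM_inv_apply, neg_add_cancel, Thz_zero]
    refine Prod.ext ?_ rfl
    simp
  refine rel_iff.2 ⟨i.inv, -k, -l'', Lam.neg_mem hl'', act_mem hi, ?_⟩
  have h3 : tr i.inv (-k) (-l'') (tr i k l p) = tr i.inv (-k) 0 (tr i k l p) + (0, (0, -l'')) := by
    refine Prod.ext ?_ ?_
    · change act i.inv _ = act i.inv _ + 0
      rw [add_zero]
    · change _ + ((0 : ℂ × ℂ), -l'') = _ + ((0 : ℂ × ℂ), (0 : T4)) + ((0 : ℂ × ℂ), -l'')
      rw [c1_add_snd, zero_add]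
  rw [h3, h2, add_assoc]
  have h4 : ((0 : ℂ), ((0 : ℂ × ℂ), l'')) + (0, (0, -l'')) = (0 : E7) := by
    refine Prod.ext ?_ (Prod.ext ?_ ?_)
    · simp
    · simp
    · simp
  rw [h4, add_zero]
lemma Rel.trans {p q r : E7} (hp : p ∈ D) (h : Rel p q) (h' : Rel q r) : Rel p r := by
  obtain ⟨i, k, l, hl, hi, rfl⟩ := rel_iff.1 h
  obtain ⟨j, k', l', hl', hj, rfl⟩ := rel_iff.1 h'
  obtain ⟨l'', hl'', h''⟩ := c1_tr_comp i j k k' hl hl' p
  rw [h'']
  have hj' : act i p.1 ∈ dom j := hj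
  rcases act_comp hi hj' with h1 | h1 | h1
  · subst h1
    refine rel_iff.2 ⟨j, k' + k, l'', hl'', hj', ?_⟩
    rw [RM_none]
    rfl
  · subst h1
    refine rel_iff.2 ⟨i, k' + k, l'', hl'', hi, ?_⟩
    rw [RM_none]
    rfl
  · subst h1
    refine rel_iff.2 ⟨none, k' + k, l'', hl'', hp.1, ?_⟩
    rw [act_act hi, RM_inv_apply]
    refine Prod.ext rfl ?_
    change _ = (Th ^ (k' + k)) (RM vl none p.2) + (0, l'')
    rw [RM_none]

instance relSetoid : Setoid D where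
  r p q := Rel p.1 q.1
  iseqv := ⟨fun p => Rel.refl p.2, fun {p _} h => Rel.symm p.2 h, fun {p _ _} h h' => Rel.trans p.2 h h'⟩

/-- The compact complex manifold `X`. -/
def X : Type := Quotient relSetoid

instance : TopologicalSpace X := inferInstanceAs (TopologicalSpace (Quotient relSetoid))

/-- the projection `D → X` -/
def mkX : D → X := Quotient.mk relSetoid

lemma continuous_mkX : Continuous mkX := continuous_quotient_mk'
lemma mkX_eq_iff {p q : D} : mkX p = mkX q ↔ Rel p.1 q.1 := Quotient.eq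
lemma isOpen_X {U : Set X} : IsOpen U ↔ IsOpen (mkX ⁻¹' U) := Iff.rfl

/-- a base point -/
def base : D := ⟨((32 : ℂ), ((1, 0), 0)), F_nonempty, by simp⟩

open Classical in
/-- the projection, extended by a junk value outside `D` -/
def ppi (p : E7) : X := if h : p ∈ D then mkX ⟨p, h⟩ else mkX base

lemma ppi_of_mem {p : E7} (h : p ∈ D) : ppi p = mkX ⟨p, h⟩ := dif_pos h
lemma ppi_eq_iff {p q : E7} (hp : p ∈ D) (hq : q ∈ D) : ppi p = ppi q ↔ Rel p q := by
  rw [ppi_of_mem hp, ppi_of_mem hq, mkX_eq_iff]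
lemma ppi_tr {i : Mv} {k : ℤ} {l : T4} {p : E7} (hp : p ∈ D) (hi : p.1 ∈ dom i) (hl : l ∈ Lam) :
    ppi (tr i k l p) = ppi p := by
  symm
  rw [ppi_eq_iff hp (tr_mem_D hp hi)]
  exact rel_iff.2 ⟨i, k, l, hl, hi, rfl⟩
lemma ppi_move {i : Mv} {z : ℂ} {m : V7} (hz : z ∈ dom i) (hm : m.1 ≠ 0) :
    ppi (act i z, RM vl i m) = ppi (z, m) := by
  have hp : ((z, m) : E7) ∈ D := ⟨dom_subset i hz, hm⟩
  have h := ppi_tr (k := 0) (l := 0) hp hz Lam.zero_mem
  rw [← h]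
  congr 1
  refine Prod.ext rfl ?_
  change _ = (Th ^ (0 : ℤ)) (RM vl i m) + ((0 : ℂ × ℂ), (0 : T4))
  rw [Thz_zero]
  exact (add_zero _).symm
lemma ppi_scale {z : ℂ} {m : V7} (hz : z ∈ F) (hm : m.1 ≠ 0) (k : ℤ) :
    ppi (z, (Th ^ k) m) = ppi (z, m) := by
  have hp : ((z, m) : E7) ∈ D := ⟨hz, hm⟩
  have h := ppi_tr (i := none) (k := k) (l := 0) hp hz Lam.zero_mem
  rw [← h]
  congr 1
  refine Prod.ext rfl ?_
  change _ = (Th ^ k) (RM vl none m) + ((0 : ℂ × ℂ), (0 : T4))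
  rw [RM_none]
  exact (add_zero _).symm
lemma ppi_add {z : ℂ} {m : V7} (hz : z ∈ F) (hm : m.1 ≠ 0) {l : T4} (hl : l ∈ Lam) :
    ppi (z, m + (0, l)) = ppi (z, m) := by
  have hp : ((z, m) : E7) ∈ D := ⟨hz, hm⟩
  have h := ppi_tr (i := none) (k := 0) (l := l) hp hz hl
  rw [← h]
  have e : tr none 0 l (z, m) = (z, m + (0, l)) := by
    refine Prod.ext rfl ?_
    change (Th ^ (0 : ℤ)) (RM vl none m) + ((0 : ℂ × ℂ), l) = _
    rw [Thz_zero, RM_none]
  rw [e]

/-- a chosen preimage -/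
def rep (x : X) : E7 := (Quotient.out x).1
lemma rep_mem (x : X) : rep x ∈ D := (Quotient.out x).2
lemma ppi_rep (x : X) : ppi (rep x) = x := by
  rw [ppi_of_mem (rep_mem x)]
  exact Quotient.out_eq (s := relSetoid) x
lemma ppi_surjective (x : X) : ∃ p ∈ D, ppi p = x := ⟨rep x, rep_mem x, ppi_rep x⟩

lemma continuousOn_ppi : ContinuousOn ppi D := by
  rw [continuousOn_iff_continuous_domRestrict]
  have : D.domRestrict ppi = mkX := by
    funext p
    exact ppi_of_mem p.2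
  rw [this]
  exact continuous_mkX
lemma continuousAt_ppi {p : E7} (h : p ∈ D) : ContinuousAt ppi p :=
  continuousOn_ppi.continuousAt (isOpen_D.mem_nhds h)

lemma contDiffAt_tr {i : Mv} {k : ℤ} {l : T4} {v : E7} (hi : v.1 ∈ dom i) (n : WithTop ℕ∞) :
    ContDiffAt ℂ n (tr i k l) v := by
  have h1 : ContDiffAt ℂ n (fun p : E7 => act i p.1) v :=
    (contDiffAt_act hi n).comp v contDiffAt_fst
  have h2 : ContDiffAt ℂ n (fun p : E7 => (Th ^ k) (RM vl i p.2) + ((0 : ℂ × ℂ), l)) v := by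
    apply ContDiffAt.add _ contDiffAt_const
    exact ((((Th ^ k : V7 ≃L[ℂ] V7) : V7 →L[ℂ] V7).comp
      ((RM vl i : V7 ≃L[ℂ] V7) : V7 →L[ℂ] V7)).contDiff.comp contDiff_snd).contDiffAt
  exact h1.prodMk h2

lemma isOpen_image_ppi {U : Set E7} (hU : IsOpen U) (hUD : U ⊆ D) : IsOpen (ppi '' U) := by
  rw [isOpen_X, isOpen_iff_mem_nhds]
  rintro ⟨q, hq⟩ ⟨p, hp, hpq⟩
  rw [← ppi_of_mem hq] at hpq
  obtain ⟨i, k, l, hl, hi, h⟩ := rel_iff.1 ((ppi_eq_iff hq (hUD hp)).1 hpq.symm)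
  have hc : ContinuousAt (fun v : D => tr i k l v.1) ⟨q, hq⟩ :=
    ContinuousAt.comp (f := fun v : D => v.1) (g := tr i k l) (x := ⟨q, hq⟩)
      (contDiffAt_tr (v := q) hi 0).continuousAt continuous_subtype_val.continuousAt
  have hmem : U ∈ 𝓝 (tr i k l q) := by
    rw [← h]; exact hU.mem_nhds hp
  have hdom : ∀ᶠ v : D in 𝓝 ⟨q, hq⟩, v.1.1 ∈ dom i := by
    have : Continuous (fun v : D => v.1.1) := continuous_fst.comp continuous_subtype_val
    exact this.continuousAt.eventually ((isOpen_dom i).mem_nhds hi)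
  filter_upwards [hc.eventually hmem, hdom] with v hv hv'
  refine ⟨_, hv, ?_⟩
  rw [← ppi_of_mem v.2]
  exact ppi_tr v.2 hv' hl

/-- two related points which are close are equal -/
lemma c1_close {p q : E7} {δ : ℝ} (hδ : δ ≤ 1) (hp : p ∈ D) (hpq : ‖q - p‖ < δ)
    (hr : ‖p.2.1‖ * la < ‖q.2.1‖) (hr' : ‖q.2.1‖ * la < ‖p.2.1‖) (h : Rel p q) : q = p := by
  obtain ⟨i, k, l, hl, hi, rfl⟩ := rel_iff.1 h
  have hi0 : i = none := by
    cases i with
    | none => rfl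
    | some b =>
      exfalso
      have h1 := dist_mv (b := b) (z := p.1) hi
      have h2 : ‖(tr (some b) k l p - p).1‖ ≤ ‖tr (some b) k l p - p‖ := norm_fst_le _
      have h3 : (tr (some b) k l p - p).1 = mv b p.1 - p.1 := rfl
      rw [h3] at h2
      linarith
  subst hi0
  have hx : (tr none k l p).2.1 = ((la : ℂ) ^ k) • p.2.1 := by
    rw [c1_tr_snd_fst, RM_none]
  have hnorm : ‖(tr none k l p).2.1‖ = la ^ k * ‖p.2.1‖ := by
    rw [hx, norm_smul, norm_zpow, Complex.norm_real, Real.norm_of_nonneg la_pos.le]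
  have hpp : 0 < ‖p.2.1‖ := norm_pos_iff.2 hp.2
  rw [hnorm] at hr hr'
  have hk : k = 0 := by
    have h1 : la < la ^ k := by
      have : la * ‖p.2.1‖ < la ^ k * ‖p.2.1‖ := by linarith
      exact lt_of_mul_lt_mul_right this hpp.le
    have h2 : la ^ k * la < 1 := by
      have : la ^ k * la * ‖p.2.1‖ < 1 * ‖p.2.1‖ := by linarith
      exact lt_of_mul_lt_mul_right this hpp.le
    have h3 : k < 1 := by
      rw [← zpow_lt_zpow_iff_right_of_lt_one₀ la_pos la_lt_one]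
      simpa using h1
    have h4 : -1 < k := by
      rw [← zpow_lt_zpow_iff_right_of_lt_one₀ la_pos la_lt_one, zpow_neg_one]
      rw [← lt_div_iff₀ la_pos, one_div] at h2
      exact h2
    omega
  subst hk
  have h5 : tr none 0 l p = p + (0, (0, l)) := by
    refine Prod.ext ?_ ?_
    · change p.1 = p.1 + 0
      rw [add_zero]
    · change (Th ^ (0 : ℤ)) (RM vl none p.2) + ((0 : ℂ × ℂ), l) = _
      rw [Thz_zero, RM_none]
      rfl
  rw [h5, add_sub_cancel_left] at hpq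
  have h6 : ‖l‖ < 1 := by
    have h7 : ‖l‖ ≤ ‖((0 : ℂ), ((0 : ℂ × ℂ), l))‖ :=
      (norm_snd_le ((0 : ℂ × ℂ), l)).trans (norm_snd_le ((0 : ℂ), ((0 : ℂ × ℂ), l)))
    linarith
  have h8 : l = 0 := Lam_small hl (fun k => lt_of_le_of_lt (norm_le_pi_norm l k) h6)
  rw [h5, h8]
  have : ((0 : ℂ), ((0 : ℂ × ℂ), (0 : T4))) = (0 : E7) := rfl
  rw [this, add_zero]

/-- small balls embed -/
lemma exists_rad {p : E7} (hp : p ∈ D) : ∃ r > 0, Metric.ball p r ⊆ D ∧
    InjOn ppi (Metric.ball p r) := by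
  obtain ⟨r0, hr0, hb⟩ := Metric.isOpen_iff.1 isOpen_D p hp
  have hpp : 0 < ‖p.2.1‖ := norm_pos_iff.2 hp.2
  have hla := la_pos
  have hla1 := la_lt_one
  have hr1 : 0 < ‖p.2.1‖ * (1 - la) / 2 := by
    apply div_pos (mul_pos hpp (by linarith)) (by norm_num)
  refine ⟨min r0 (min (1 / 2) (‖p.2.1‖ * (1 - la) / 2)), lt_min hr0 (lt_min (by norm_num) hr1),
    (Metric.ball_subset_ball (min_le_left _ _)).trans hb, ?_⟩
  have hsub : Metric.ball p (min r0 (min (1 / 2) (‖p.2.1‖ * (1 - la) / 2))) ⊆ D :=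
    (Metric.ball_subset_ball (min_le_left _ _)).trans hb
  intro q hq q' hq' h
  have hqD := hsub hq
  have hqD' := hsub hq'
  rw [ppi_eq_iff hqD hqD'] at h
  have h1 : ∀ v ∈ Metric.ball p (min r0 (min (1 / 2) (‖p.2.1‖ * (1 - la) / 2))),
      ‖v - p‖ < 1 / 2 ∧ |‖v.2.1‖ - ‖p.2.1‖| < ‖p.2.1‖ * (1 - la) / 2 := by
    intro v hv
    rw [mem_ball_iff_norm] at hv
    have h2 := hv.trans_le ((min_le_right _ _).trans (min_le_left _ _))
    have h3 := hv.trans_le ((min_le_right _ _).trans (min_le_right _ _))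
    refine ⟨h2, ?_⟩
    have h4 : ‖(v - p).2.1‖ ≤ ‖v - p‖ := (norm_fst_le _).trans (norm_snd_le _)
    have h5 : (v - p).2.1 = v.2.1 - p.2.1 := rfl
    rw [h5] at h4
    exact lt_of_le_of_lt ((abs_norm_sub_norm_le _ _).trans h4) h3
  obtain ⟨h2, h3⟩ := h1 q hq
  obtain ⟨h2', h3'⟩ := h1 q' hq'
  rw [abs_lt] at h3 h3'
  have h6 : ‖q' - q‖ < 1 := by
    have : q' - q = (q' - p) - (q - p) := by abel
    rw [this]
    have := norm_sub_le (q' - p) (q - p)
    linarith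
  have hl2 : ‖p.2.1‖ * la < ‖p.2.1‖ := by nlinarith
  refine (c1_close le_rfl hqD h6 ?_ ?_ h).symm
  · nlinarith
  · nlinarith

open Classical in
/-- radius of a ball around `p` on which the projection is injective -/
def rad (p : E7) : ℝ := if h : p ∈ D then Classical.choose (exists_rad h) else 1
lemma rad_pos {p : E7} (hp : p ∈ D) : 0 < rad p := by
  rw [rad, dif_pos hp]
  exact (Classical.choose_spec (exists_rad hp)).1
lemma ball_subset_D {p : E7} (hp : p ∈ D) : Metric.ball p (rad p) ⊆ D := by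
  rw [rad, dif_pos hp]
  exact (Classical.choose_spec (exists_rad hp)).2.1
lemma injOn_ball {p : E7} (hp : p ∈ D) : InjOn ppi (Metric.ball p (rad p)) := by
  rw [rad, dif_pos hp]
  exact (Classical.choose_spec (exists_rad hp)).2.2

lemma isClosed_Lam : IsClosed (Lam : Set T4) := by
  have hsm : ∀ l ∈ Lam, ‖l‖ < 1 → l = 0 := fun l hl h =>
    Lam_small hl (fun k => lt_of_le_of_lt (norm_le_pi_norm l k) h)
  rw [← closure_subset_iff_isClosed]
  intro a ha
  rw [Metric.mem_closure_iff] at ha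
  obtain ⟨b, hb, hab⟩ := ha (1 / 2) (by norm_num)
  have : a = b := by
    by_contra hne
    have hpos : 0 < dist a b := dist_pos.mpr hne
    obtain ⟨c, hc, hac⟩ := ha (min (1 / 2) (dist a b)) (lt_min (by norm_num) hpos)
    have h1 : dist a c < 1 / 2 := lt_of_lt_of_le hac (min_le_left _ _)
    have h2 : dist a c < dist a b := lt_of_lt_of_le hac (min_le_right _ _)
    have h3 : ‖b - c‖ < 1 := by
      rw [← dist_eq_norm]
      have := dist_triangle_left b c a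
      linarith
    have h4 := hsm _ (Lam.sub_mem hb hc) h3
    rw [sub_eq_zero] at h4
    rw [h4] at h2
    exact lt_irrefl _ h2
  rw [this]
  exact hb

/-- non-relatedness is an open condition -/
lemma c1_sep_ev {p q : E7} (hp : p ∈ D) (hq : q ∈ D) (h : ¬ Rel p q) :
    ∀ᶠ v : E7 × E7 in 𝓝 (p, q), (v.1 ∈ D ∧ v.2 ∈ D) ∧ ¬ Rel v.1 v.2 := by
  have hpp : 0 < ‖p.2.1‖ := norm_pos_iff.2 hp.2
  have hqq : 0 < ‖q.2.1‖ := norm_pos_iff.2 hq.2
  have hla := la_pos
  have hla1 := la_lt_one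
  obtain ⟨M, hM⟩ : ∃ M : ℕ, la ^ M < ‖q.2.1‖ / ‖p.2.1‖ / 4 ∧ la ^ M < ‖p.2.1‖ / ‖q.2.1‖ / 4 := by
    have ha : 0 < ‖q.2.1‖ / ‖p.2.1‖ / 4 := by positivity
    have hb : 0 < ‖p.2.1‖ / ‖q.2.1‖ / 4 := by positivity
    obtain ⟨N1, h1⟩ := exists_pow_lt_of_lt_one ha hla1
    obtain ⟨N2, h2⟩ := exists_pow_lt_of_lt_one hb hla1
    exact ⟨max N1 N2,
      lt_of_le_of_lt (pow_le_pow_of_le_one hla.le hla1.le (le_max_left _ _)) h1,
      lt_of_le_of_lt (pow_le_pow_of_le_one hla.le hla1.le (le_max_right _ _)) h2⟩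
  -- the moved vector has norm comparable with the vector
  have hcomp : ∀ (i : Mv) (m : V7), ‖(RM vl i m).1‖ ≤ 4 * ‖m.1‖ ∧ ‖m.1‖ ≤ 4 * ‖(RM vl i m).1‖ := by
    have hn1 : ∀ x : ℂ × ℂ, ‖x‖ ^ 2 ≤ nsq2 x := by
      intro x
      rw [Prod.norm_def, nsq2]
      rcases max_cases ‖x.1‖ ‖x.2‖ with h | h <;> rw [h.1] <;> nlinarith [norm_nonneg x.1, norm_nonneg x.2]
    have hn2 : ∀ x : ℂ × ℂ, nsq2 x ≤ 2 * ‖x‖ ^ 2 := by
      intro x
      have h1 := norm_fst_le x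
      have h2 := norm_snd_le x
      rw [nsq2]
      nlinarith [norm_nonneg x.1, norm_nonneg x.2]
    intro i m
    have h1 := nsq2_RM_le vl i m
    have h2 := nsq2_RM_ge vl i m
    have h3 := hn1 (RM vl i m).1
    have h4 := hn2 (RM vl i m).1
    have h5 := hn1 m.1
    have h6 := hn2 m.1
    constructor
    · apply le_of_sq_le_sq _ (by positivity)
      nlinarith [sq_nonneg ‖m.1‖]
    · apply le_of_sq_le_sq _ (by positivity)
      nlinarith [sq_nonneg ‖(RM vl i m).1‖]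
  have hK : ∀ (i : Mv), ∀ k ∈ Finset.Icc (-(M : ℤ)) M, ∀ᶠ v : E7 × E7 in 𝓝 (p, q),
      v.1 ∈ D → v.2 ∈ D → v.1.1 ∈ dom i → v.2.1 = act i v.1.1 →
        v.2.2 - (Th ^ k) (RM vl i v.1.2) ∉ {m : V7 | m.1 = 0 ∧ m.2 ∈ Lam} := by
    intro i k _
    have hclosed : IsClosed {m : V7 | m.1 = 0 ∧ m.2 ∈ Lam} :=
      (isClosed_eq continuous_fst continuous_const).inter (isClosed_Lam.preimage continuous_snd)
    by_cases hi : p.1 ∈ dom i
    · by_cases hbase : q.1 = act i p.1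
      · -- second component not related
        have hn : q.2 - (Th ^ k) (RM vl i p.2) ∉ {m : V7 | m.1 = 0 ∧ m.2 ∈ Lam} := by
          rintro ⟨h1, h2⟩
          apply h
          refine rel_iff.2 ⟨i, k, _, h2, hi, ?_⟩
          refine Prod.ext hbase ?_
          change q.2 = (Th ^ k) (RM vl i p.2) + ((0 : ℂ × ℂ), (q.2 - (Th ^ k) (RM vl i p.2)).2)
          have : ((0 : ℂ × ℂ), (q.2 - (Th ^ k) (RM vl i p.2)).2) = q.2 - (Th ^ k) (RM vl i p.2) :=
            Prod.ext h1.symm rfl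
          rw [this]
          abel
        have hc : Continuous (fun v : E7 × E7 => v.2.2 - (Th ^ k) (RM vl i v.1.2)) := by fun_prop
        filter_upwards [hc.continuousAt.eventually (hclosed.isOpen_compl.mem_nhds hn)] with v hv
        intro _ _ _ _
        exact hv
      · -- base points different
        have hc : ContinuousAt (fun v : E7 × E7 => v.2.1 - act i v.1.1) (p, q) := by
          have h1 : ContinuousAt (fun v : E7 × E7 => act i v.1.1) (p, q) :=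
            ContinuousAt.comp (f := fun v : E7 × E7 => v.1.1) (g := act i)
              (contDiffAt_act hi 0).continuousAt (by fun_prop)
          have h2 : ContinuousAt (fun v : E7 × E7 => v.2.1) (p, q) := by fun_prop
          exact h2.sub h1
        have hne : (fun v : E7 × E7 => v.2.1 - act i v.1.1) (p, q) ≠ 0 := sub_ne_zero.2 hbase
        filter_upwards [hc.eventually_ne hne] with v hv
        intro _ _ _ h'
        exact absurd (sub_eq_zero.2 h') hv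
    · cases i with
      | none => exact absurd hp.1 hi
      | some b =>
        have h1 : 1 ≤ dep b p.1 := by
          by_contra hlt
          push Not at hlt
          exact hi ⟨hp.1, hlt⟩
        have h2 : 0 < dep b.inv q.1 := hq.1 _
        have c1 : ContinuousAt (fun v : E7 × E7 => dep b v.1.1) (p, q) :=
          ContinuousAt.comp (f := fun v : E7 × E7 => v.1.1) (g := dep b)
            ((continuousOn_dep b).continuousAt (isOpen_F.mem_nhds hp.1)) (by fun_prop)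
        have c2 : ContinuousAt (fun v : E7 × E7 => dep b.inv v.2.1) (p, q) :=
          ContinuousAt.comp (f := fun v : E7 × E7 => v.2.1) (g := dep b.inv)
            ((continuousOn_dep b.inv).continuousAt (isOpen_F.mem_nhds hq.1)) (by fun_prop)
        have c3 := (c1.add c2).eventually (Ioi_mem_nhds
          (show (1 : ℝ) < dep b p.1 + dep b.inv q.1 by linarith))
        filter_upwards [c3] with v hv
        intro _ _ hd h'
        exfalso
        have h3 : dep b.inv (mv b v.1.1) = 1 - dep b v.1.1 := dep_mv hd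
        have h4 : v.2.1 = mv b v.1.1 := h'
        rw [← h4] at h3
        have h5 : 1 < dep b v.1.1 + dep b.inv v.2.1 := hv
        linarith
  have hKall : ∀ᶠ v : E7 × E7 in 𝓝 (p, q), ∀ (i : Mv), ∀ k ∈ Finset.Icc (-(M : ℤ)) M,
      v.1 ∈ D → v.2 ∈ D → v.1.1 ∈ dom i → v.2.1 = act i v.1.1 →
        v.2.2 - (Th ^ k) (RM vl i v.1.2) ∉ {m : V7 | m.1 = 0 ∧ m.2 ∈ Lam} := by
    rw [Filter.eventually_all]
    intro i
    rw [Filter.eventually_all_finset]
    exact hK i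
  have c1 : ContinuousAt (fun v : E7 × E7 => ‖v.2.2.1‖ / ‖v.1.2.1‖ / 4) (p, q) := by
    apply ContinuousAt.div_const
    apply ContinuousAt.div
    · fun_prop
    · fun_prop
    · exact hpp.ne'
  have c2 : ContinuousAt (fun v : E7 × E7 => ‖v.1.2.1‖ / ‖v.2.2.1‖ / 4) (p, q) := by
    apply ContinuousAt.div_const
    apply ContinuousAt.div
    · fun_prop
    · fun_prop
    · exact hqq.ne'
  filter_upwards [(continuous_fst.continuousAt (x := (p, q))).eventually (isOpen_D.mem_nhds hp),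
    (continuous_snd.continuousAt (x := (p, q))).eventually (isOpen_D.mem_nhds hq),
    c1.eventually (Ioi_mem_nhds hM.1), c2.eventually (Ioi_mem_nhds hM.2), hKall]
    with v hv1 hv2 hv3 hv4 hv5
  refine ⟨⟨hv1, hv2⟩, fun hrel => ?_⟩
  obtain ⟨i, k, l, hl, hi, hvv⟩ := rel_iff.1 hrel
  have hb : v.2.1 = act i v.1.1 := by rw [hvv]; rfl
  have hf : v.2.2 = (Th ^ k) (RM vl i v.1.2) + ((0 : ℂ × ℂ), l) := by rw [hvv]; rfl
  have h1 : 0 < ‖v.1.2.1‖ := norm_pos_iff.2 hv1.2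
  have h2 : 0 < ‖v.2.2.1‖ := norm_pos_iff.2 hv2.2
  have hx : ‖v.2.2.1‖ = la ^ k * ‖(RM vl i v.1.2).1‖ := by
    have : v.2.2.1 = ((la : ℂ) ^ k) • (RM vl i v.1.2).1 := by
      rw [hf, Prod.fst_add, Thz_fst]; simp
    rw [this, norm_smul, norm_zpow, Complex.norm_real, Real.norm_of_nonneg la_pos.le]
  obtain ⟨h3, h4⟩ := hcomp i v.1.2
  have hkpos : 0 < la ^ k := zpow_pos hla k
  have hk1 : k ≤ M := by
    by_contra hlt
    push Not at hlt
    have h5 : la ^ k ≤ la ^ (M : ℤ) := zpow_le_zpow_right_of_le_one₀ hla hla1.le hlt.le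
    rw [zpow_natCast] at h5
    have h6 : la ^ M < ‖v.2.2.1‖ / ‖v.1.2.1‖ / 4 := hv3
    rw [div_div, lt_div_iff₀ (by positivity)] at h6
    have h7 : la ^ k * ‖(RM vl i v.1.2).1‖ ≤ la ^ M * (4 * ‖v.1.2.1‖) :=
      mul_le_mul h5 h3 (norm_nonneg _) (by positivity)
    rw [hx] at h6
    nlinarith
  have hk2 : -(M : ℤ) ≤ k := by
    by_contra hlt
    push Not at hlt
    have h5 : la ^ (-(M : ℤ)) ≤ la ^ k := zpow_le_zpow_right_of_le_one₀ hla hla1.le hlt.le
    rw [zpow_neg, zpow_natCast] at h5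
    have hMpos : 0 < la ^ M := pow_pos hla M
    have h6 : la ^ M < ‖v.1.2.1‖ / ‖v.2.2.1‖ / 4 := hv4
    rw [div_div, lt_div_iff₀ (by positivity)] at h6
    have h7 : (la ^ M)⁻¹ * ‖(RM vl i v.1.2).1‖ ≤ ‖v.2.2.1‖ := by
      rw [hx]
      exact mul_le_mul_of_nonneg_right h5 (norm_nonneg _)
    have h8 : ‖(RM vl i v.1.2).1‖ ≤ la ^ M * ‖v.2.2.1‖ := by
      rwa [inv_mul_le_iff₀ hMpos] at h7
    nlinarith
  refine hv5 i k (Finset.mem_Icc.2 ⟨hk2, hk1⟩) hv1 hv2 hi hb ?_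
  rw [hf, add_sub_cancel_left]
  exact ⟨rfl, hl⟩

instance : T2Space X := by
  constructor
  intro x y hxy
  have h : ¬ Rel (rep x) (rep y) := by
    intro h
    apply hxy
    rw [← ppi_rep x, ← ppi_rep y]
    exact (ppi_eq_iff (rep_mem x) (rep_mem y)).mpr h
  have hev := c1_sep_ev (rep_mem x) (rep_mem y) h
  rw [nhds_prod_eq, Filter.eventually_prod_iff] at hev
  obtain ⟨P, hP, Q, hQ, hPQ⟩ := hev
  obtain ⟨U, hUP, hU, hpU⟩ := mem_nhds_iff.mp hP
  obtain ⟨V, hVQ, hV, hqV⟩ := mem_nhds_iff.mp hQ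
  have hUD : U ⊆ D := fun u hu => (hPQ (hUP hu) (hVQ hqV)).1.1
  have hVD : V ⊆ D := fun v hv => (hPQ (hUP hpU) (hVQ hv)).1.2
  refine ⟨ppi '' U, ppi '' V, isOpen_image_ppi hU hUD, isOpen_image_ppi hV hVD,
    ⟨_, hpU, ppi_rep x⟩, ⟨_, hqV, ppi_rep y⟩, ?_⟩
  rw [Set.disjoint_left]
  rintro z ⟨u, hu, rfl⟩ ⟨v, hv, hvu⟩
  exact (hPQ (hUP hu) (hVQ hv)).2 ((ppi_eq_iff (hUD hu) (hVD hv)).mp hvu.symm)

/-- every lattice translate class meets a bounded box -/
lemma c1_box (t : T4) : ∃ l ∈ Lam, ‖t + l‖ ≤ 2 := by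
  refine ⟨fun k => ((-⌊(t k).re⌋ : ℤ) : ℂ) + ((-⌊(t k).im⌋ : ℤ) : ℂ) * Complex.I,
    fun k => ⟨_, _, rfl⟩, ?_⟩
  rw [pi_norm_le_iff_of_nonneg (by norm_num)]
  intro k
  have e : (t + fun k => ((-⌊(t k).re⌋ : ℤ) : ℂ) + ((-⌊(t k).im⌋ : ℤ) : ℂ) * Complex.I) k =
      ((Int.fract (t k).re : ℝ) : ℂ) + ((Int.fract (t k).im : ℝ) : ℂ) * Complex.I := by
    rw [Pi.add_apply, Int.fract, Int.fract]
    nth_rewrite 1 [← Complex.re_add_im (t k)]
    push_cast
    ring
  rw [e]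
  refine (norm_add_le _ _).trans ?_
  rw [norm_mul, Complex.norm_I, mul_one, Complex.norm_real, Complex.norm_real,
    Real.norm_of_nonneg (Int.fract_nonneg _), Real.norm_of_nonneg (Int.fract_nonneg _)]
  have := Int.fract_lt_one (t k).re
  have := Int.fract_lt_one (t k).im
  linarith

/-- the fundamental compact set -/
def c1K : Set E7 := KF (1 / 2) ×ˢ ({x : ℂ × ℂ | la ≤ ‖x‖ ∧ ‖x‖ ≤ 1} ×ˢ Metric.closedBall (0 : T4) 2)

lemma c1K_compact : IsCompact c1K := by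
  have h1 : IsCompact {x : ℂ × ℂ | la ≤ ‖x‖ ∧ ‖x‖ ≤ 1} := by
    have : {x : ℂ × ℂ | la ≤ ‖x‖ ∧ ‖x‖ ≤ 1} = {x : ℂ × ℂ | la ≤ ‖x‖} ∩ Metric.closedBall 0 1 := by
      ext x; simp
    rw [this, inter_comm]
    exact (isCompact_closedBall _ _).inter_right (isClosed_le continuous_const continuous_norm)
  exact (isCompact_KF (by norm_num)).prod (h1.prod (isCompact_closedBall _ _))

lemma c1K_subset : c1K ⊆ D := by
  rintro ⟨z, x, t⟩ ⟨hz, hx, -⟩
  refine ⟨KF_subset (by norm_num) hz, ?_⟩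
  intro h
  have h' : x = 0 := h
  have hx1 : la ≤ ‖x‖ := hx.1
  rw [h', norm_zero] at hx1
  exact absurd la_pos (not_lt.2 hx1)

lemma c1K_surj (x : X) : ∃ p ∈ c1K, ppi p = x := by
  set p := rep x with hp
  have hpD : p ∈ D := rep_mem x
  obtain ⟨i, hi, hic⟩ := exists_core hpD.1
  set m1 := RM vl i p.2 with hm1
  have hm1' : m1.1 ≠ 0 := (RM_fst_ne vl i p.2).2 hpD.2
  have h1 : ppi (act i p.1, m1) = x := by
    rw [hm1, ppi_move hi hpD.2]
    exact ppi_rep x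
  have hcF : act i p.1 ∈ F := act_mem_F hi
  have hla1 : 1 < la⁻¹ := (one_lt_inv₀ la_pos).2 la_lt_one
  obtain ⟨n, hn⟩ := exists_mem_Ioc_zpow (norm_pos_iff.2 hm1') hla1
  set m2 := (Th ^ (n + 1)) m1 with hm2
  have hm2n : ‖m2.1‖ = la ^ (n + 1) * ‖m1.1‖ := by
    rw [hm2, Thz_fst, norm_smul, norm_zpow, Complex.norm_real, Real.norm_of_nonneg la_pos.le]
  have hpn : 0 < la ^ (n + 1) := zpow_pos la_pos _
  have hm2a : la ≤ ‖m2.1‖ ∧ ‖m2.1‖ ≤ 1 := by
    rw [hm2n]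
    constructor
    · have h2 := hn.1
      rw [inv_zpow] at h2
      have h3 : la ^ n * (la ^ n)⁻¹ < la ^ n * ‖m1.1‖ :=
        mul_lt_mul_of_pos_left h2 (zpow_pos la_pos _)
      rw [mul_inv_cancel₀ (zpow_pos la_pos n).ne'] at h3
      rw [zpow_add_one₀ la_ne]
      nlinarith [la_pos]
    · have h2 := hn.2
      rw [inv_zpow] at h2
      have h3 : la ^ (n + 1) * ‖m1.1‖ ≤ la ^ (n + 1) * (la ^ (n + 1))⁻¹ :=
        mul_le_mul_of_nonneg_left h2 hpn.le
      rwa [mul_inv_cancel₀ hpn.ne'] at h3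
  have hm2' : m2.1 ≠ 0 := by
    intro h
    rw [h, norm_zero] at hm2a
    exact absurd la_pos (not_lt.2 hm2a.1)
  obtain ⟨l, hl, hlb⟩ := c1_box m2.2
  refine ⟨(act i p.1, m2 + (0, l)), ⟨hic, ?_, ?_⟩, ?_⟩
  · have : (m2 + ((0 : ℂ × ℂ), l)).1 = m2.1 := by simp
    change la ≤ ‖(m2 + ((0 : ℂ × ℂ), l)).1‖ ∧ ‖(m2 + ((0 : ℂ × ℂ), l)).1‖ ≤ 1
    rw [this]
    exact hm2a
  · change (m2 + ((0 : ℂ × ℂ), l)).2 ∈ Metric.closedBall (0 : T4) 2
    rw [mem_closedBall_zero_iff]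
    exact hlb
  · rw [ppi_add hcF hm2' hl, hm2, ppi_scale hcF hm1', h1]

instance : CompactSpace X := by
  constructor
  have := c1K_compact.image_of_continuousOn (continuousOn_ppi.mono c1K_subset)
  convert this
  symm
  rw [eq_univ_iff_forall]
  intro x
  obtain ⟨p, hp, h⟩ := c1K_surj x
  exact ⟨p, hp, h⟩

instance : ConnectedSpace X := by
  have h1 : IsPreconnected ({0}ᶜ : Set (ℂ × ℂ)) := by
    have hr : 1 < Module.rank ℝ (ℂ × ℂ) := by
      apply Module.one_lt_rank_of_one_lt_finrank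
      rw [Module.finrank_prod, Complex.finrank_real_complex]
      norm_num
    exact (isConnected_compl_singleton_of_one_lt_rank hr 0).isPreconnected
  have h2 : IsPreconnected (F ×ˢ (({0}ᶜ : Set (ℂ × ℂ)) ×ˢ (univ : Set T4))) :=
    isPreconnected_F.prod (h1.prod isPreconnected_univ)
  have h3 : D = F ×ˢ (({0}ᶜ : Set (ℂ × ℂ)) ×ˢ (univ : Set T4)) := by
    ext ⟨z, x, t⟩
    simp [D]
  have hD : IsConnected D := ⟨⟨base.1, base.2⟩, by rw [h3]; exact h2⟩
  have : ConnectedSpace D := isConnected_iff_connectedSpace.mp hD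
  have hs : Function.Surjective mkX := Quotient.mk_surjective
  exact hs.connectedSpace continuous_mkX

instance : SecondCountableTopology X := by
  have hq : IsQuotientMap mkX := isQuotientMap_quotient_mk'
  have ho : IsOpenMap mkX := by
    intro U hU
    obtain ⟨V, hV, rfl⟩ := isOpen_induced_iff.mp hU
    have : mkX '' (Subtype.val ⁻¹' V) = ppi '' (V ∩ D) := by
      ext x
      constructor
      · rintro ⟨u, hu, rfl⟩
        exact ⟨u.1, ⟨hu, u.2⟩, ppi_of_mem u.2⟩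
      · rintro ⟨u, ⟨hu, hu'⟩, rfl⟩
        exact ⟨⟨u, hu'⟩, hu, (ppi_of_mem hu').symm⟩
    rw [this]
    exact isOpen_image_ppi (hV.inter isOpen_D) inter_subset_right
  exact hq.secondCountableTopology ho

/-! ### Charts -/

/-- the inverse chart at `p`: the projection restricted to a small ball -/
def ichart (p : D) : OpenPartialHomeomorph E7 X :=
  OpenPartialHomeomorph.ofContinuousOpenRestrict
    ((injOn_ball p.2).toPartialEquiv ppi (Metric.ball p.1 (rad p.1)))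
    (continuousOn_ppi.mono (ball_subset_D p.2))
    (by
      intro U hU
      obtain ⟨V, hV, rfl⟩ := isOpen_induced_iff.mp hU
      have : (Metric.ball p.1 (rad p.1)).domRestrict ppi '' (Subtype.val ⁻¹' V) =
          ppi '' (Metric.ball p.1 (rad p.1) ∩ V) := by
        ext x
        constructor
        · rintro ⟨u, hu, rfl⟩
          exact ⟨u.1, ⟨u.2, hu⟩, rfl⟩
        · rintro ⟨u, ⟨hu, hu'⟩, rfl⟩
          exact ⟨⟨u, hu⟩, hu', rfl⟩
      change IsOpen ((Metric.ball p.1 (rad p.1)).domRestrict ppi '' (Subtype.val ⁻¹' V))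
      rw [this]
      exact isOpen_image_ppi (Metric.isOpen_ball.inter hV)
        (inter_subset_left.trans (ball_subset_D p.2)))
    Metric.isOpen_ball

/-- the chart at `p` -/
def chart (p : D) : OpenPartialHomeomorph X E7 := (ichart p).symm

lemma chart_symm_apply (p : D) (u : E7) : (chart p).symm u = ppi u := rfl
lemma chart_symm_coe (p : D) : ((chart p).symm : E7 → X) = ppi := rfl
lemma chart_target (p : D) : (chart p).target = Metric.ball p.1 (rad p.1) := rfl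
lemma chart_source (p : D) : (chart p).source = ppi '' Metric.ball p.1 (rad p.1) := rfl
lemma chart_ppi {p : D} {u : E7} (hu : u ∈ Metric.ball p.1 (rad p.1)) : chart p (ppi u) = u :=
  (chart p).right_inv hu
lemma chart_of_rel {p : D} {u v : E7} (hu : u ∈ Metric.ball p.1 (rad p.1)) (hv : v ∈ D)
    (h : Rel v u) : chart p (ppi v) = u := by
  rw [(ppi_eq_iff hv (ball_subset_D p.2 hu)).mpr h, chart_ppi hu]

instance : ChartedSpace E7 X where
  atlas := range chart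
  chartAt x := chart (Quotient.out x)
  mem_chart_source x := by
    rw [chart_source]
    exact ⟨rep x, Metric.mem_ball_self (rad_pos (rep_mem x)), ppi_rep x⟩
  chart_mem_atlas x := ⟨_, rfl⟩

lemma mem_atlas_iff {e : OpenPartialHomeomorph X E7} : e ∈ atlas E7 X ↔ ∃ p, chart p = e := Iff.rfl
lemma chartAt_eq (x : X) : chartAt E7 x = chart ⟨rep x, rep_mem x⟩ := rfl

lemma eventually_chart (p : D) {v : E7} (hv : v ∈ D) {i : Mv} {k : ℤ} {l : T4} (hl : l ∈ Lam)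
    (hi : v.1 ∈ dom i) (hu : tr i k l v ∈ Metric.ball p.1 (rad p.1)) :
    ∀ᶠ v' in 𝓝 v, chart p (ppi v') = tr i k l v' := by
  have hc : ContinuousAt (tr i k l) v := (contDiffAt_tr hi 0).continuousAt
  have hd : ∀ᶠ v' : E7 in 𝓝 v, v'.1 ∈ dom i :=
    continuous_fst.continuousAt.eventually ((isOpen_dom i).mem_nhds hi)
  filter_upwards [isOpen_D.mem_nhds hv, hc.eventually (Metric.isOpen_ball.mem_nhds hu), hd]
    with v' hv' hu' hd'
  exact chart_of_rel hu' hv' (rel_iff.2 ⟨i, k, l, hl, hd', rfl⟩)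

lemma contDiffOn_transition_C (n : WithTop ℕ∞) (p q : D) :
    ContDiffOn ℂ n (chart q ∘ (chart p).symm) ((chart p).symm ≫ₕ chart q).source := by
  intro v hv
  rw [OpenPartialHomeomorph.trans_source] at hv
  obtain ⟨hv1, hv2⟩ := hv
  have hv1' : v ∈ Metric.ball p.1 (rad p.1) := hv1
  have hvD := ball_subset_D p.2 hv1'
  have hv2' : ppi v ∈ ppi '' Metric.ball q.1 (rad q.1) := hv2
  obtain ⟨u, hu, huv⟩ := hv2'
  obtain ⟨i, k, l, hl, hi, h⟩ := rel_iff.1 ((ppi_eq_iff hvD (ball_subset_D q.2 hu)).mp huv.symm)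
  rw [h] at hu
  have hev := eventually_chart q hvD hl hi hu
  exact ((contDiffAt_tr hi n).congr_of_eventuallyEq hev).contDiffWithinAt

lemma contDiffOn_transition_R (n : WithTop ℕ∞) (p q : D) :
    ContDiffOn ℝ n (chart q ∘ (chart p).symm) ((chart p).symm ≫ₕ chart q).source :=
  (contDiffOn_transition_C n p q).restrict_scalars ℝ

instance isManifoldC : IsManifold 𝓘(ℂ, E7) ω X := by
  apply isManifold_of_contDiffOn
  rintro e e' ⟨p, rfl⟩ ⟨q, rfl⟩
  have := contDiffOn_transition_C ω p q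
  simpa using this
instance isManifoldR : IsManifold 𝓘(ℝ, E7) ω X := by
  apply isManifold_of_contDiffOn
  rintro e e' ⟨p, rfl⟩ ⟨q, rfl⟩
  have := contDiffOn_transition_R ω p q
  simpa using this
instance isManifoldR' : IsManifold 𝓘(ℝ, E7) ∞ X := IsManifold.of_le (n := ω) le_top

lemma exists_rep {v : E7} (hv : v ∈ D) : ∃ (i : Mv) (k : ℤ) (l : T4), l ∈ Lam ∧ v.1 ∈ dom i ∧
    rep (ppi v) = tr i k l v :=
  rel_iff.1 ((ppi_eq_iff hv (rep_mem (ppi v))).mp (ppi_rep (ppi v)).symm)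

/-- the derivative of a transition map -/
def dtr (i : Mv) (k : ℤ) (z : ℂ) : E7 →L[ℂ] E7 :=
  ((actd i z) • ContinuousLinearMap.id ℂ ℂ).prodMap
    (((Th ^ k : V7 ≃L[ℂ] V7) : V7 →L[ℂ] V7).comp ((RM vl i : V7 ≃L[ℂ] V7) : V7 →L[ℂ] V7))

lemma dtr_apply (i : Mv) (k : ℤ) (z : ℂ) (u : E7) :
    dtr i k z u = (actd i z * u.1, (Th ^ k) (RM vl i u.2)) := by
  refine Prod.ext ?_ rfl
  simp [dtr]

lemma hasFDerivAt_tr {i : Mv} {k : ℤ} {l : T4} {v : E7} (hi : v.1 ∈ dom i) :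
    HasFDerivAt (tr i k l) (dtr i k v.1) v := by
  have h1 : HasFDerivAt (fun p : E7 => act i p.1)
      ((ContinuousLinearMap.toSpanSingleton ℂ (actd i v.1)).comp
        (ContinuousLinearMap.fst ℂ ℂ V7)) v :=
    (hasDerivAt_act hi).hasFDerivAt.comp v hasFDerivAt_fst
  have h2 : HasFDerivAt (fun p : E7 => (Th ^ k) (RM vl i p.2) + ((0 : ℂ × ℂ), l))
      ((((Th ^ k : V7 ≃L[ℂ] V7) : V7 →L[ℂ] V7).comp
        ((RM vl i : V7 ≃L[ℂ] V7) : V7 →L[ℂ] V7)).comp (ContinuousLinearMap.snd ℂ ℂ V7)) v :=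
    ((((Th ^ k : V7 ≃L[ℂ] V7) : V7 →L[ℂ] V7).comp
        ((RM vl i : V7 ≃L[ℂ] V7) : V7 →L[ℂ] V7)).comp
        (ContinuousLinearMap.snd ℂ ℂ V7)).hasFDerivAt.add_const _
  have h3 := h1.prodMk h2
  have e : dtr i k v.1 = ((ContinuousLinearMap.toSpanSingleton ℂ (actd i v.1)).comp
        (ContinuousLinearMap.fst ℂ ℂ V7)).prod ((((Th ^ k : V7 ≃L[ℂ] V7) : V7 →L[ℂ] V7).comp
        ((RM vl i : V7 ≃L[ℂ] V7) : V7 →L[ℂ] V7)).comp (ContinuousLinearMap.snd ℂ ℂ V7)) := by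
    apply ContinuousLinearMap.ext
    intro u
    rw [dtr_apply]
    refine Prod.ext ?_ rfl
    simp [mul_comm]
  rw [e]
  exact h3

lemma hasMFDerivAt_ppi_C {v : E7} {i : Mv} {k : ℤ} {l : T4} (hv : v ∈ D) (hl : l ∈ Lam)
    (hi : v.1 ∈ dom i) (h : rep (ppi v) = tr i k l v) :
    HasMFDerivAt 𝓘(ℂ, E7) 𝓘(ℂ, E7) ppi v (dtr i k v.1) := by
  refine ⟨continuousAt_ppi hv, ?_⟩
  have hu : tr i k l v ∈ Metric.ball (rep (ppi v)) (rad (rep (ppi v))) := by
    rw [← h]; exact Metric.mem_ball_self (rad_pos (rep_mem _))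
  have hev := eventually_chart ⟨rep (ppi v), rep_mem _⟩ hv hl hi hu
  have hd : HasFDerivAt (tr i k l) (dtr i k v.1) v := hasFDerivAt_tr hi
  have hd' := (hd.congr_of_eventuallyEq hev).hasFDerivWithinAt (s := univ)
  simp only [writtenInExtChartAt, extChartAt, chartAt_self_eq, OpenPartialHomeomorph.refl_partialEquiv,
    mfld_simps, chartAt_eq]
  exact hd'

lemma hasMFDerivAt_ppi_R {v : E7} {i : Mv} {k : ℤ} {l : T4} (hv : v ∈ D) (hl : l ∈ Lam)
    (hi : v.1 ∈ dom i) (h : rep (ppi v) = tr i k l v) :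
    HasMFDerivAt 𝓘(ℝ, E7) 𝓘(ℝ, E7) ppi v ((dtr i k v.1).restrictScalars ℝ) := by
  refine ⟨continuousAt_ppi hv, ?_⟩
  have hu : tr i k l v ∈ Metric.ball (rep (ppi v)) (rad (rep (ppi v))) := by
    rw [← h]; exact Metric.mem_ball_self (rad_pos (rep_mem _))
  have hev := eventually_chart ⟨rep (ppi v), rep_mem _⟩ hv hl hi hu
  have hd : HasFDerivAt (tr i k l) ((dtr i k v.1).restrictScalars ℝ) v :=
    (hasFDerivAt_tr hi).restrictScalars ℝ
  have hd' := (hd.congr_of_eventuallyEq hev).hasFDerivWithinAt (s := univ)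
  simp only [writtenInExtChartAt, extChartAt, chartAt_self_eq, OpenPartialHomeomorph.refl_partialEquiv,
    mfld_simps, chartAt_eq]
  exact hd'

end Pool.Agent.H5.EC
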