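import Pool.Agent.H5.EC.Defs

/-! Part L: the plane Laplacian. -/

open Set Topology MeasureTheory
open scoped Manifold ContDiff

noncomputable section

namespace Pool.Agent.H5.EC

/-- square of the norm of the gradient -/
def gr2 (a : ℂ → ℝ) (z : ℂ) : ℝ := (fderiv ℝ a z 1) ^ 2 + (fderiv ℝ a z Complex.I) ^ 2

/-! auxiliary lemmas on second derivatives in a direction -/

lemma lapaux_ev {a : ℂ → ℝ} {z : ℂ} (ha : ContDiffAt ℝ 2 a z) :
    ∀ᶠ u in 𝓝 z, DifferentiableAt ℝ a u := by
  filter_upwards [ha.eventually (by norm_num)] with u hu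
  exact hu.differentiableAt (by norm_num)

lemma lapaux_d {a : ℂ → ℝ} {z : ℂ} (ha : ContDiffAt ℝ 2 a z) (v : ℂ) :
    DifferentiableAt ℝ (fun u => fderiv ℝ a u v) z := by
  have h1 : ContDiffAt ℝ 1 (fderiv ℝ a) z := ha.fderiv_right (by norm_num)
  exact (h1.differentiableAt (by norm_num)).clm_apply (differentiableAt_const v)

lemma lapaux_congr {a b : ℂ → ℝ} {z : ℂ} (h : a =ᶠ[𝓝 z] b) (v : ℂ) :
    fderiv ℝ (fun u => fderiv ℝ a u v) z v = fderiv ℝ (fun u => fderiv ℝ b u v) z v := by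
  have h1 : (fun u => fderiv ℝ a u v) =ᶠ[𝓝 z] (fun u => fderiv ℝ b u v) := by
    filter_upwards [h.fderiv (𝕜 := ℝ)] with u hu
    rw [hu]
  rw [h1.fderiv_eq]

lemma lap2_congr {a b : ℂ → ℝ} {z : ℂ} (h : a =ᶠ[𝓝 z] b) : lap2 a z = lap2 b z := by
  unfold lap2
  rw [lapaux_congr h, lapaux_congr h]

lemma gr2_congr {a b : ℂ → ℝ} {z : ℂ} (h : a =ᶠ[𝓝 z] b) : gr2 a z = gr2 b z := by
  unfold gr2
  rw [h.fderiv_eq]

lemma lap2_const (c : ℝ) (z : ℂ) : lap2 (fun _ => c) z = 0 := by
  unfold lap2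
  simp

lemma lapaux_add {a b : ℂ → ℝ} {z : ℂ} (ha : ContDiffAt ℝ 2 a z) (hb : ContDiffAt ℝ 2 b z)
    (v : ℂ) : fderiv ℝ (fun u => fderiv ℝ (fun z => a z + b z) u v) z v =
      fderiv ℝ (fun u => fderiv ℝ a u v) z v + fderiv ℝ (fun u => fderiv ℝ b u v) z v := by
  have h1 : (fun u => fderiv ℝ (fun z => a z + b z) u v) =ᶠ[𝓝 z]
      (fun u => fderiv ℝ a u v + fderiv ℝ b u v) := by
    filter_upwards [lapaux_ev ha, lapaux_ev hb] with u hu hu'
    rw [fderiv_fun_add hu hu']
    rfl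
  rw [h1.fderiv_eq, fderiv_fun_add (lapaux_d ha v) (lapaux_d hb v)]
  rfl

lemma lap2_add {a b : ℂ → ℝ} {z : ℂ} (ha : ContDiffAt ℝ 2 a z) (hb : ContDiffAt ℝ 2 b z) :
    lap2 (fun z => a z + b z) z = lap2 a z + lap2 b z := by
  unfold lap2
  rw [lapaux_add ha hb, lapaux_add ha hb]
  ring

/-- composition with a function of one variable, in a direction -/
lemma lapaux_comp {a : ℂ → ℝ} {χ : ℝ → ℝ} {z : ℂ} (ha : ContDiffAt ℝ 2 a z)
    (hχ : ContDiffAt ℝ 2 χ (a z)) (v : ℂ) :
    fderiv ℝ (fun u => fderiv ℝ (fun z => χ (a z)) u v) z v =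
      deriv χ (a z) * fderiv ℝ (fun u => fderiv ℝ a u v) z v +
        deriv (deriv χ) (a z) * (fderiv ℝ a z v) ^ 2 := by
  have hχ1 : ContDiffAt ℝ 1 (fderiv ℝ χ) (a z) := hχ.fderiv_right (by norm_num)
  have hχd : DifferentiableAt ℝ (deriv χ) (a z) := by
    have := (hχ1.differentiableAt (by norm_num)).clm_apply (differentiableAt_const (1 : ℝ))
    simpa [fderiv_apply_one_eq_deriv] using this
  have hχe : ∀ᶠ t in 𝓝 (a z), DifferentiableAt ℝ χ t := by
    filter_upwards [hχ.eventually (by norm_num)] with u hu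
    exact hu.differentiableAt (by norm_num)
  have hχe' : ∀ᶠ u in 𝓝 z, DifferentiableAt ℝ χ (a u) := ha.continuousAt.eventually hχe
  have h1 : (fun u => fderiv ℝ (fun z => χ (a z)) u v) =ᶠ[𝓝 z]
      (fun u => deriv χ (a u) * fderiv ℝ a u v) := by
    filter_upwards [lapaux_ev ha, hχe'] with u hu hu'
    have := (hu'.hasDerivAt.comp_hasFDerivAt u hu.hasFDerivAt).fderiv
    have e : (fun z => χ (a z)) = χ ∘ a := rfl
    rw [e, this]
    simp
  have h2 : HasFDerivAt (fun u => deriv χ (a u))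
      (deriv (deriv χ) (a z) • fderiv ℝ a z) z :=
    hχd.hasDerivAt.comp_hasFDerivAt z (ha.differentiableAt (by norm_num)).hasFDerivAt
  have h3 := h2.fun_mul (lapaux_d ha v).hasFDerivAt
  rw [h1.fderiv_eq, h3.fderiv]
  simp only [ContinuousLinearMap.add_apply, ContinuousLinearMap.smul_apply, smul_eq_mul]
  ring

/-- composition with a function of one variable -/
lemma lap2_comp {a : ℂ → ℝ} {χ : ℝ → ℝ} {z : ℂ} (ha : ContDiffAt ℝ 2 a z)
    (hχ : ContDiffAt ℝ 2 χ (a z)) :
    lap2 (fun z => χ (a z)) z = deriv χ (a z) * lap2 a z + deriv (deriv χ) (a z) * gr2 a z := by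
  unfold lap2 gr2
  rw [lapaux_comp ha hχ, lapaux_comp ha hχ]
  ring

lemma gr2_comp {a : ℂ → ℝ} {χ : ℝ → ℝ} {z : ℂ} (ha : ContDiffAt ℝ 1 a z)
    (hχ : ContDiffAt ℝ 1 χ (a z)) :
    gr2 (fun z => χ (a z)) z = (deriv χ (a z)) ^ 2 * gr2 a z := by
  have h1 := ((hχ.differentiableAt (by norm_num)).hasDerivAt.comp_hasFDerivAt z
    (ha.differentiableAt (by norm_num)).hasFDerivAt).fderiv
  have e : (fun z => χ (a z)) = χ ∘ a := rfl
  unfold gr2
  rw [e, h1]
  simp only [ContinuousLinearMap.smul_apply, smul_eq_mul]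
  ring

lemma lap2_const_mul {a : ℂ → ℝ} {z : ℂ} (c : ℝ) (ha : ContDiffAt ℝ 2 a z) :
    lap2 (fun z => c * a z) z = c * lap2 a z := by
  have h := lap2_comp (χ := fun t => c * t) ha (contDiffAt_const.mul contDiffAt_id)
  have e1 : deriv (fun t : ℝ => c * t) = fun _ => c := by
    funext t
    simp
  rw [h, e1]
  simp

lemma lap2_sub {a b : ℂ → ℝ} {z : ℂ} (ha : ContDiffAt ℝ 2 a z) (hb : ContDiffAt ℝ 2 b z) :
    lap2 (fun z => a z - b z) z = lap2 a z - lap2 b z := by
  have h := lap2_add ha (b := fun z => (-1) * b z) (contDiffAt_const.mul hb)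
  have e : (fun z => a z - b z) = fun z => a z + (-1) * b z := by
    funext z; ring
  rw [e, h, lap2_const_mul _ hb]
  ring

lemma lap2_sum {ι : Type*} (s : Finset ι) {a : ι → ℂ → ℝ} {z : ℂ}
    (ha : ∀ i ∈ s, ContDiffAt ℝ 2 (a i) z) :
    lap2 (fun z => ∑ i ∈ s, a i z) z = ∑ i ∈ s, lap2 (a i) z := by
  classical
  induction s using Finset.induction_on with
  | empty => simpa using lap2_const 0 z
  | insert i s hi ih =>
    have h1 : ∀ j ∈ s, ContDiffAt ℝ 2 (a j) z := fun j hj => ha j (Finset.mem_insert_of_mem hj)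
    have e : (fun z => ∑ j ∈ insert i s, a j z) = fun z => a i z + ∑ j ∈ s, a j z := by
      funext z
      rw [Finset.sum_insert hi]
    rw [e, lap2_add (ha i (Finset.mem_insert_self i s)) (ContDiffAt.sum h1), ih h1,
      Finset.sum_insert hi]

lemma lapaux_mul {a b : ℂ → ℝ} {z : ℂ} (ha : ContDiffAt ℝ 2 a z) (hb : ContDiffAt ℝ 2 b z)
    (v : ℂ) : fderiv ℝ (fun u => fderiv ℝ (fun z => a z * b z) u v) z v =
      a z * fderiv ℝ (fun u => fderiv ℝ b u v) z v +
      b z * fderiv ℝ (fun u => fderiv ℝ a u v) z v +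
      2 * (fderiv ℝ a z v * fderiv ℝ b z v) := by
  have h1 : (fun u => fderiv ℝ (fun z => a z * b z) u v) =ᶠ[𝓝 z]
      (fun u => a u * fderiv ℝ b u v + b u * fderiv ℝ a u v) := by
    filter_upwards [lapaux_ev ha, lapaux_ev hb] with u hu hu'
    rw [(hu.hasFDerivAt.fun_mul hu'.hasFDerivAt).fderiv]
    simp only [ContinuousLinearMap.add_apply, ContinuousLinearMap.smul_apply, smul_eq_mul]
  have ha1 := (ha.differentiableAt (by norm_num)).hasFDerivAt
  have hb1 := (hb.differentiableAt (by norm_num)).hasFDerivAt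
  have h2 := (ha1.fun_mul (lapaux_d hb v).hasFDerivAt).fun_add
    (hb1.fun_mul (lapaux_d ha v).hasFDerivAt)
  rw [h1.fderiv_eq, h2.fderiv]
  simp only [ContinuousLinearMap.add_apply, ContinuousLinearMap.smul_apply, smul_eq_mul]
  ring

lemma lap2_mul {a b : ℂ → ℝ} {z : ℂ} (ha : ContDiffAt ℝ 2 a z) (hb : ContDiffAt ℝ 2 b z) :
    lap2 (fun z => a z * b z) z = a z * lap2 b z + b z * lap2 a z +
      2 * (fderiv ℝ a z 1 * fderiv ℝ b z 1 +
        fderiv ℝ a z Complex.I * fderiv ℝ b z Complex.I) := by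
  unfold lap2
  rw [lapaux_mul ha hb, lapaux_mul ha hb]
  ring

/-- a real linear functional on the plane, in coordinates -/
lemma lapaux_lin (L : ℂ →L[ℝ] ℝ) (w : ℂ) : L w = w.re * L 1 + w.im * L Complex.I := by
  have e : w = w.re • (1 : ℂ) + w.im • Complex.I := by
    apply Complex.ext <;> simp
  conv_lhs => rw [e]
  rw [map_add, map_smul, map_smul]
  simp

/-- first derivative of a composition with a holomorphic map -/
lemma lapaux_fd_holo {a : ℂ → ℝ} {g : ℂ → ℂ} {z : ℂ} (hg : DifferentiableAt ℂ g z)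
    (ha : DifferentiableAt ℝ a (g z)) (v : ℂ) :
    fderiv ℝ (fun z => a (g z)) z v = fderiv ℝ a (g z) (deriv g z * v) := by
  have hg' : HasFDerivAt g ((ContinuousLinearMap.toSpanSingleton ℂ (deriv g z)).restrictScalars ℝ) z :=
    hg.hasDerivAt.hasFDerivAt.restrictScalars ℝ
  have h := (ha.hasFDerivAt.comp z hg').fderiv
  have e : (fun z => a (g z)) = a ∘ g := rfl
  rw [e, h]
  simp [mul_comm]

lemma gr2_comp_holo {a : ℂ → ℝ} {g : ℂ → ℂ} {z : ℂ} (hg : DifferentiableAt ℂ g z)
    (ha : DifferentiableAt ℝ a (g z)) :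
    gr2 (fun z => a (g z)) z = ‖deriv g z‖ ^ 2 * gr2 a (g z) := by
  unfold gr2
  rw [lapaux_fd_holo hg ha, lapaux_fd_holo hg ha, lapaux_lin _ (deriv g z * 1),
    lapaux_lin _ (deriv g z * Complex.I), Complex.sq_norm, Complex.normSq_apply]
  simp
  ring

/-- conformal invariance -/
lemma lap2_comp_holo {a : ℂ → ℝ} {g : ℂ → ℂ} {z : ℂ} (hg : ContDiffAt ℂ 2 g z)
    (ha : ContDiffAt ℝ 2 a (g z)) :
    lap2 (fun z => a (g z)) z = ‖deriv g z‖ ^ 2 * lap2 a (g z) := by
  have hgd : ∀ᶠ u in 𝓝 z, DifferentiableAt ℂ g u := by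
    filter_upwards [hg.eventually (by norm_num)] with u hu
    exact hu.differentiableAt (by norm_num)
  have hgz : DifferentiableAt ℂ g z := hg.differentiableAt (by norm_num)
  have hg1 : DifferentiableAt ℂ (deriv g) z := by
    have h1 : ContDiffAt ℂ 1 (fderiv ℂ g) z := hg.fderiv_right (by norm_num)
    have := (h1.differentiableAt (by norm_num)).clm_apply (differentiableAt_const (1 : ℂ))
    simpa [fderiv_apply_one_eq_deriv] using this
  have hae : ∀ᶠ u in 𝓝 z, DifferentiableAt ℝ a (g u) := hgz.continuousAt.eventually (lapaux_ev ha)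
  have hA1 : ContDiffAt ℝ 1 (fderiv ℝ a) (g z) := ha.fderiv_right (by norm_num)
  have hAd : DifferentiableAt ℝ (fderiv ℝ a) (g z) := hA1.differentiableAt (by norm_num)
  have hgf : HasFDerivAt g
      ((ContinuousLinearMap.toSpanSingleton ℂ (deriv g z)).restrictScalars ℝ) z :=
    hgz.hasDerivAt.hasFDerivAt.restrictScalars ℝ
  have hg1f : HasFDerivAt (deriv g)
      ((ContinuousLinearMap.toSpanSingleton ℂ (deriv (deriv g) z)).restrictScalars ℝ) z :=
    hg1.hasDerivAt.hasFDerivAt.restrictScalars ℝ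
  have key : ∀ v : ℂ, fderiv ℝ (fun u => fderiv ℝ (fun z => a (g z)) u v) z v =
      fderiv ℝ (fderiv ℝ a) (g z) (deriv g z * v) (deriv g z * v) +
        fderiv ℝ a (g z) (deriv (deriv g) z * v * v) := by
    intro v
    have h1 : (fun u => fderiv ℝ (fun z => a (g z)) u v) =ᶠ[𝓝 z]
        (fun u => fderiv ℝ a (g u) (deriv g u * v)) := by
      filter_upwards [hgd, hae] with u hu hu'
      exact lapaux_fd_holo hu hu' v
    have h2 := (hAd.hasFDerivAt.comp z hgf).clm_apply (hg1f.mul_const' v)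
    rw [h1.fderiv_eq]
    have h3 := h2.fderiv
    simp only [Function.comp_def] at h3
    rw [h3]
    simp
    ring_nf
  have hsec : ∀ v : ℂ, fderiv ℝ (fun u => fderiv ℝ a u v) (g z) v =
      fderiv ℝ (fderiv ℝ a) (g z) v v := by
    intro v
    have h2 := hAd.hasFDerivAt.clm_apply (hasFDerivAt_const v (g z))
    rw [h2.fderiv]
    simp
  unfold lap2
  rw [key, key, hsec, hsec]
  set B := fderiv ℝ (fderiv ℝ a) (g z) with hB
  have hBl : ∀ w w' : ℂ, B w w' = w.re * w'.re * B 1 1 + w.re * w'.im * B 1 Complex.I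
      + w.im * w'.re * B Complex.I 1 + w.im * w'.im * B Complex.I Complex.I := by
    intro w w'
    have e1 : B w = w.re • B 1 + w.im • B Complex.I := by
      have e : w = w.re • (1 : ℂ) + w.im • Complex.I := by
        apply Complex.ext <;> simp
      conv_lhs => rw [e]
      rw [map_add, map_smul, map_smul]
    rw [e1]
    simp only [ContinuousLinearMap.add_apply, ContinuousLinearMap.smul_apply, smul_eq_mul]
    rw [lapaux_lin (B 1) w', lapaux_lin (B Complex.I) w']
    ring
  rw [hBl (deriv g z * 1), hBl (deriv g z * Complex.I),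
    lapaux_lin (fderiv ℝ a (g z)) (deriv (deriv g) z * 1 * 1),
    lapaux_lin (fderiv ℝ a (g z)) (deriv (deriv g) z * Complex.I * Complex.I),
    Complex.sq_norm, Complex.normSq_apply]
  simp
  ring

lemma lapaux_contDiffOn {a : ℂ → ℝ} {O : Set ℂ} (hO : IsOpen O) (ha : ContDiffOn ℝ ∞ a O)
    (v : ℂ) : ContDiffOn ℝ ∞ (fun u => fderiv ℝ a u v) O := by
  have h1 : ContDiffOn ℝ ∞ (fderiv ℝ a) O := ha.fderiv_of_isOpen hO (by norm_num)
  exact h1.clm_apply contDiffOn_const

lemma contDiffOn_lap2 {a : ℂ → ℝ} {O : Set ℂ} (hO : IsOpen O) (ha : ContDiffOn ℝ ∞ a O) :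
    ContDiffOn ℝ ∞ (lap2 a) O :=
  (lapaux_contDiffOn hO (lapaux_contDiffOn hO ha 1) 1).add
    (lapaux_contDiffOn hO (lapaux_contDiffOn hO ha Complex.I) Complex.I)

lemma contDiffOn_gr2 {a : ℂ → ℝ} {O : Set ℂ} (hO : IsOpen O) (ha : ContDiffOn ℝ ∞ a O) :
    ContDiffOn ℝ ∞ (gr2 a) O :=
  ((lapaux_contDiffOn hO ha 1).pow 2).add ((lapaux_contDiffOn hO ha Complex.I).pow 2)

/-- second derivative test in a direction -/
lemma lapaux_max {a : ℂ → ℝ} {z : ℂ} (ha : ContDiffAt ℝ 2 a z)
    (h : IsLocalMax a z) (v : ℂ) : fderiv ℝ (fun u => fderiv ℝ a u v) z v ≤ 0 := by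
  set φ : ℝ → ℝ := fun t => a (z + t • v) with hφ
  have hline : ∀ t : ℝ, HasDerivAt (fun t : ℝ => z + t • v) v t := by
    intro t
    simpa using ((hasDerivAt_id t).smul_const v).const_add z
  have hz0 : z + (0 : ℝ) • v = z := by simp
  have hcont : Filter.Tendsto (fun t : ℝ => z + t • v) (𝓝 0) (𝓝 z) := by
    have := (hline 0).continuousAt
    rw [ContinuousAt, hz0] at this
    exact this
  have hd1 : deriv φ =ᶠ[𝓝 0] fun t => fderiv ℝ a (z + t • v) v := by
    filter_upwards [hcont.eventually (lapaux_ev ha)] with t ht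
    exact (ht.hasFDerivAt.comp_hasDerivAt t (hline t)).deriv
  have hd2 : deriv (deriv φ) 0 = fderiv ℝ (fun u => fderiv ℝ a u v) z v := by
    rw [hd1.deriv_eq]
    have h1 : DifferentiableAt ℝ (fun u => fderiv ℝ a u v) (z + (0 : ℝ) • v) := by
      rw [hz0]; exact lapaux_d ha v
    have h2 := (h1.hasFDerivAt.comp_hasDerivAt (0 : ℝ) (hline 0)).deriv
    rw [hz0] at h2
    exact h2
  have hmax : IsLocalMax φ 0 := by
    have : ∀ᶠ t in 𝓝 (0 : ℝ), a (z + t • v) ≤ a z := hcont.eventually h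
    filter_upwards [this] with t ht
    simpa [hφ] using ht
  have hd0 : deriv φ 0 = 0 := hmax.deriv_eq_zero
  have hc : ContinuousAt φ 0 := by
    have h1 : ContinuousAt a (z + (0 : ℝ) • v) := by
      rw [hz0]; exact ha.continuousAt
    exact ContinuousAt.comp (f := fun t : ℝ => z + t • v) h1 (hline 0).continuousAt
  by_contra hpos
  push Not at hpos
  rw [← hd2] at hpos
  have hmin : IsLocalMin φ 0 := isLocalMin_of_deriv_deriv_pos hpos hd0 hc
  have hconst : φ =ᶠ[𝓝 0] fun _ => φ 0 := by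
    filter_upwards [hmin, hmax] with t h1 h2
    exact le_antisymm h2 h1
  have h3 : deriv φ =ᶠ[𝓝 0] fun _ => 0 := by
    have := hconst.deriv
    simpa using this
  rw [h3.deriv_eq] at hpos
  simp at hpos

/-- second derivative test -/
lemma lap2_nonpos_of_isLocalMax {a : ℂ → ℝ} {z : ℂ} (ha : ContDiffAt ℝ 2 a z)
    (h : IsLocalMax a z) : lap2 a z ≤ 0 :=
  add_nonpos (lapaux_max ha h 1) (lapaux_max ha h Complex.I)

/-- the integral of a derivative of a compactly supported function is zero -/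
lemma lapaux_int {c : ℂ → ℝ} (hc : ContDiff ℝ 1 c) (hs : HasCompactSupport c) (v : ℂ) :
    ∫ z, fderiv ℝ c z v = 0 := by
  have h1 : Continuous (fun z => fderiv ℝ c z v) :=
    (hc.continuous_fderiv (by norm_num)).clm_apply continuous_const
  have h2 : HasCompactSupport (fun z => fderiv ℝ c z v) := hs.fderiv_apply (𝕜 := ℝ) v
  have h := integral_mul_fderiv_eq_neg_fderiv_mul_of_integrable (𝕜 := ℝ) (μ := volume) (v := v)
    (f := fun _ : ℂ => (1 : ℝ)) (g := c) (by simp)
    (by simpa using h1.integrable_of_hasCompactSupport h2)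
    (by simpa using hc.continuous.integrable_of_hasCompactSupport hs)
    (fun x _ => differentiableAt_const _) (fun x _ => hc.differentiable (by norm_num) x)
  simpa using h

/-- Green's formula, `a` being supported in a compact subset of the open set `O` -/
lemma integral_lap2_mul {a b : ℂ → ℝ} {O K : Set ℂ} (hO : IsOpen O) (hK : IsCompact K)
    (hKO : K ⊆ O) (ha : ContDiffOn ℝ ∞ a O) (hb : ContDiffOn ℝ ∞ b O)
    (hs : ∀ z ∈ O, z ∉ K → a z = 0) :
    ∫ z in O, lap2 a z * b z = ∫ z in O, a z * lap2 b z := by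
  classical
  set c : ℂ → ℂ → ℝ := fun v => O.indicator (fun z => fderiv ℝ a z v * b z - a z * fderiv ℝ b z v)
    with hc
  have hKc : IsOpen Kᶜ := hK.isClosed.isOpen_compl
  have ha0 : ∀ z ∈ O, z ∉ K → a =ᶠ[𝓝 z] fun _ => 0 := by
    intro z hz hzK
    filter_upwards [hO.mem_nhds hz, hKc.mem_nhds hzK] with u hu hu'
    exact hs u hu hu'
  have hc0 : ∀ v, ∀ z, z ∉ K → c v z = 0 := by
    intro v z hzK
    by_cases hz : z ∈ O
    · simp only [hc, Set.indicator_of_mem hz]
      rw [(ha0 z hz hzK).fderiv_eq, hs z hz hzK]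
      simp
    · simp only [hc, Set.indicator_of_notMem hz]
  have hcO : ∀ v, ContDiffOn ℝ ∞ (fun z => fderiv ℝ a z v * b z - a z * fderiv ℝ b z v) O :=
    fun v => ((lapaux_contDiffOn hO ha v).mul hb).sub (ha.mul (lapaux_contDiffOn hO hb v))
  have hcd : ∀ v, ContDiff ℝ 1 (c v) := by
    intro v
    rw [contDiff_iff_contDiffAt]
    intro z
    by_cases hz : z ∈ O
    · have h1 := ((hcO v).contDiffAt (hO.mem_nhds hz)).of_le (m := 1) (by norm_num)
      apply h1.congr_of_eventuallyEq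
      filter_upwards [hO.mem_nhds hz] with u hu
      simp only [hc, Set.indicator_of_mem hu]
    · have hzK : z ∉ K := fun h => hz (hKO h)
      apply (contDiffAt_const (c := (0 : ℝ))).congr_of_eventuallyEq
      filter_upwards [hKc.mem_nhds hzK] with u hu
      exact hc0 v u hu
  have hcs : ∀ v, HasCompactSupport (c v) := fun v =>
    HasCompactSupport.intro hK (fun z hz => hc0 v z hz)
  have hint : ∀ v, ∫ z, fderiv ℝ (c v) z v = 0 := fun v => lapaux_int (hcd v) (hcs v) v
  have hcont : ∀ v, Integrable (fun z => fderiv ℝ (c v) z v) := fun v =>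
    (((hcd v).continuous_fderiv (by norm_num)).clm_apply
      continuous_const).integrable_of_hasCompactSupport ((hcs v).fderiv_apply (𝕜 := ℝ) v)
  -- pointwise identity
  have hpt : ∀ z, O.indicator (fun z => lap2 a z * b z - a z * lap2 b z) z =
      fderiv ℝ (c 1) z 1 + fderiv ℝ (c Complex.I) z Complex.I := by
    intro z
    by_cases hz : z ∈ O
    · rw [Set.indicator_of_mem hz]
      have haz : ContDiffAt ℝ 2 a z := (ha.contDiffAt (hO.mem_nhds hz)).of_le (by norm_cast)
      have hbz : ContDiffAt ℝ 2 b z := (hb.contDiffAt (hO.mem_nhds hz)).of_le (by norm_cast)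
      have ha1 := (haz.differentiableAt (by norm_num)).hasFDerivAt
      have hb1 := (hbz.differentiableAt (by norm_num)).hasFDerivAt
      have hv : ∀ v, fderiv ℝ (c v) z v = fderiv ℝ (fun u => fderiv ℝ a u v) z v * b z -
          a z * fderiv ℝ (fun u => fderiv ℝ b u v) z v := by
        intro v
        have e : c v =ᶠ[𝓝 z] fun z => fderiv ℝ a z v * b z - a z * fderiv ℝ b z v := by
          filter_upwards [hO.mem_nhds hz] with u hu
          simp only [hc, Set.indicator_of_mem hu]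
        have h2 := ((lapaux_d haz v).hasFDerivAt.fun_mul hb1).fun_sub
          (ha1.fun_mul (lapaux_d hbz v).hasFDerivAt)
        rw [e.fderiv_eq, h2.fderiv]
        simp only [ContinuousLinearMap.add_apply, ContinuousLinearMap.sub_apply,
          ContinuousLinearMap.smul_apply, smul_eq_mul]
        ring
      rw [hv, hv]
      unfold lap2
      ring
    · rw [Set.indicator_of_notMem hz]
      have hzK : z ∉ K := fun h => hz (hKO h)
      have hv : ∀ v, fderiv ℝ (c v) z v = 0 := by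
        intro v
        have e : c v =ᶠ[𝓝 z] fun _ => 0 := by
          filter_upwards [hKc.mem_nhds hzK] with u hu
          exact hc0 v u hu
        rw [e.fderiv_eq]
        simp
      rw [hv, hv]
      simp
  have hmain : ∫ z in O, (lap2 a z * b z - a z * lap2 b z) = 0 := by
    rw [← integral_indicator hO.measurableSet]
    simp_rw [hpt]
    rw [integral_add (hcont 1) (hcont Complex.I), hint, hint]
    simp
  -- integrability of the two products on `O`
  have hiab : ∀ f g : ℂ → ℝ, ContinuousOn f O → ContinuousOn g O → (∀ z ∈ O, z ∉ K → f z = 0) →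
      IntegrableOn (fun z => f z * g z) O := by
    intro f g hf hg h0
    have h1 : IntegrableOn (fun z => f z * g z) K :=
      ((hf.mul hg).mono hKO).integrableOn_compact hK
    have h2 : IntegrableOn (fun z => f z * g z) (O \ K) := by
      refine IntegrableOn.congr_fun (f := fun _ => (0 : ℝ)) integrableOn_zero ?_
        (hO.measurableSet.diff hK.isClosed.measurableSet)
      intro z hz
      simp [h0 z hz.1 hz.2]
    have h3 := h1.union h2
    exact h3.mono_set (fun z hz => by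
      by_cases h : z ∈ K
      · exact Or.inl h
      · exact Or.inr ⟨hz, h⟩)
  have hla0 : ∀ z ∈ O, z ∉ K → lap2 a z = 0 := by
    intro z hz hzK
    rw [lap2_congr (ha0 z hz hzK)]
    exact lap2_const 0 z
  have i1 := hiab (lap2 a) b (contDiffOn_lap2 hO ha).continuousOn hb.continuousOn hla0
  have i2 := hiab a (lap2 b) ha.continuousOn (contDiffOn_lap2 hO hb).continuousOn hs
  rw [integral_sub i1 i2] at hmain
  linarith

end Pool.Agent.H5.EC
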