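import Pool.Agent.H5.EC.C1
import Pool.Agent.H5.EC.Lap
import Pool.Graph.R_seed8.Helper289.LamDefs

/-! Part D1: forms on `X` as invariant forms on `D`; the leafwise density of a 2-form; `dd^c`;
currents attached to functionals. (Port of `Helper289/Forms.lean`, `Forms2.lean`, `Forms3.lean`,
`Curr.lean`.) -/

open Set Topology
open scoped Manifold ContDiff

attribute [-instance] TopCat.of.chartedSpace

noncomputable section

namespace Pool.Agent.H5.EC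

open Pool.Agent.Helper289.LamDefs

/-- pull-back to `D` of a form on `X` -/
def hat {k : ℕ} (φ : X → E7 [⋀^Fin k]→L[ℝ] ℝ) (v : E7) : E7 [⋀^Fin k]→L[ℝ] ℝ :=
  (φ (ppi v)).compContinuousLinearMap (mfderiv 𝓘(ℝ, E7) 𝓘(ℝ, E7) ppi v : E7 →L[ℝ] E7)

/-- real derivative of a transition map -/
def dR (i : Mv) (k : ℤ) (z : ℂ) : E7 →L[ℝ] E7 := (dtr i k z).restrictScalars ℝ

/-- invariant forms on `D` -/
def InvF {n : ℕ} (ψ : E7 → E7 [⋀^Fin n]→L[ℝ] ℝ) : Prop :=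
  ∀ (i : Mv) (k : ℤ) (l : T4) (v : E7), v ∈ D → v.1 ∈ dom i → l ∈ Lam →
    (ψ (tr i k l v)).compContinuousLinearMap (dR i k v.1) = ψ v

lemma d1_localForm_chart {n : ℕ} (p : D) (φ : X → E7 [⋀^Fin n]→L[ℝ] ℝ) :
    localForm (chart p) φ = hat φ := rfl

lemma hat_eq {n : ℕ} (φ : X → E7 [⋀^Fin n]→L[ℝ] ℝ) {v : E7} {i : Mv} {k : ℤ} {l : T4}
    (hv : v ∈ D) (hl : l ∈ Lam) (hi : v.1 ∈ dom i) (h : rep (ppi v) = tr i k l v) :
    hat φ v = (φ (ppi v)).compContinuousLinearMap (dR i k v.1) := by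
  have := (hasMFDerivAt_ppi_R hv hl hi h).mfderiv
  simp only [hat]
  congr 1

lemma d1_hat_add {n : ℕ} (φ ψ : X → E7 [⋀^Fin n]→L[ℝ] ℝ) (v : E7) :
    hat (φ + ψ) v = hat φ v + hat ψ v := by
  ext m; rfl

lemma d1_hat_smul {n : ℕ} (h : X → ℝ) (φ : X → E7 [⋀^Fin n]→L[ℝ] ℝ) (v : E7) :
    hat (fun x => h x • φ x) v = h (ppi v) • hat φ v := by
  ext m; rfl

lemma d1_dR_apply (i : Mv) (k : ℤ) (z : ℂ) (u : E7) :
    dR i k z u = (actd i z * u.1, (Th ^ k) (RM vl i u.2)) := dtr_apply i k z u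

lemma d1_comp_comp {n : ℕ} (φ : E7 [⋀^Fin n]→L[ℝ] ℝ) (A B : E7 →L[ℝ] E7) :
    (φ.compContinuousLinearMap A).compContinuousLinearMap B =
      φ.compContinuousLinearMap (A.comp B) := by
  ext m; simp [Function.comp_def]

lemma d1_hasFDerivAt_tr {i : Mv} {k : ℤ} {l : T4} {v : E7} (hi : v.1 ∈ dom i) :
    HasFDerivAt (tr i k l) (dR i k v.1) v := (hasFDerivAt_tr hi).restrictScalars ℝ

lemma d1_nhds {i : Mv} {v : E7} (hi : v.1 ∈ dom i) : {u : E7 | u.1 ∈ dom i} ∈ 𝓝 v :=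
  ((isOpen_dom i).preimage continuous_fst).mem_nhds hi

lemma inv_hat {n : ℕ} (φ : X → E7 [⋀^Fin n]→L[ℝ] ℝ) : InvF (hat φ) := by
  intro i k l v hv hi hl
  have hv' : tr i k l v ∈ D := tr_mem_D hv hi
  obtain ⟨i', k', l', hl', hi', hr⟩ := exists_rep hv'
  rw [hat_eq φ hv' hl' hi' hr, d1_comp_comp]
  have h1 := hasMFDerivAt_ppi_R hv' hl' hi' hr
  have h2 : HasMFDerivAt 𝓘(ℝ, E7) 𝓘(ℝ, E7) (tr i k l) v (dR i k v.1) :=
    (d1_hasFDerivAt_tr hi).hasMFDerivAt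
  have h3 := h1.comp v h2
  have hev : ppi =ᶠ[𝓝 v] ppi ∘ tr i k l := by
    filter_upwards [isOpen_D.mem_nhds hv, d1_nhds hi] with u hu hu'
    exact (ppi_tr hu hu' hl).symm
  have h4 : mfderiv 𝓘(ℝ, E7) 𝓘(ℝ, E7) (ppi ∘ tr i k l) v =
      (dR i' k' (tr i k l v).1).comp (dR i k v.1) := h3.mfderiv
  have h5 : (mfderiv 𝓘(ℝ, E7) 𝓘(ℝ, E7) ppi v : E7 →L[ℝ] E7) =
      (mfderiv 𝓘(ℝ, E7) 𝓘(ℝ, E7) (ppi ∘ tr i k l) v : E7 →L[ℝ] E7) := hev.mfderiv_eq
  rw [ppi_tr hv hi hl]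
  simp only [hat]
  congr 1
  rw [h5]
  exact h4.symm

/-- descent of an invariant form to `X` -/
def desc {n : ℕ} (ψ : E7 → E7 [⋀^Fin n]→L[ℝ] ℝ) (x : X) : E7 [⋀^Fin n]→L[ℝ] ℝ := ψ (rep x)

lemma hat_desc {n : ℕ} {ψ : E7 → E7 [⋀^Fin n]→L[ℝ] ℝ} (h : InvF ψ) {v : E7} (hv : v ∈ D) :
    hat (desc ψ) v = ψ v := by
  obtain ⟨i, k, l, hl, hi, hr⟩ := exists_rep hv
  rw [hat_eq _ hv hl hi hr, desc, hr, h i k l v hv hi hl]

lemma isContForm_iff {n : ℕ} {φ : X → E7 [⋀^Fin n]→L[ℝ] ℝ} :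
    IsContForm φ ↔ ContinuousOn (hat φ) D := by
  constructor
  · intro h v hv
    have := h (chart ⟨v, hv⟩) ⟨_, rfl⟩
    rw [d1_localForm_chart, chart_target] at this
    exact (this.continuousAt (Metric.ball_mem_nhds _ (rad_pos hv))).continuousWithinAt
  · rintro h e ⟨p, rfl⟩
    rw [d1_localForm_chart, chart_target]
    exact h.mono (ball_subset_D p.2)
lemma isSmoothForm_iff {n : ℕ} {φ : X → E7 [⋀^Fin n]→L[ℝ] ℝ} :
    IsSmoothForm φ ↔ ContDiffOn ℝ ∞ (hat φ) D := by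
  constructor
  · intro h v hv
    have := h (chart ⟨v, hv⟩) ⟨_, rfl⟩
    rw [d1_localForm_chart, chart_target] at this
    exact (this.contDiffAt (Metric.ball_mem_nhds _ (rad_pos hv))).contDiffWithinAt
  · rintro h e ⟨p, rfl⟩
    rw [d1_localForm_chart, chart_target]
    exact h.mono (ball_subset_D p.2)
lemma isExtDeriv_iff {n : ℕ} {φ : X → E7 [⋀^Fin n]→L[ℝ] ℝ}
    {ψ : X → E7 [⋀^Fin (n + 1)]→L[ℝ] ℝ} :
    IsExtDeriv φ ψ ↔ ∀ v ∈ D, hat ψ v = extDeriv (hat φ) v := by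
  constructor
  · intro h v hv
    exact h (chart ⟨v, hv⟩) ⟨_, rfl⟩ v (Metric.mem_ball_self (rad_pos hv))
  · rintro h e ⟨p, rfl⟩ v hv
    exact h v (ball_subset_D p.2 hv)

/-- smooth functions on `X` and on `D` -/
lemma contDiffOn_comp_ppi {f : X → ℝ} (hf : ContMDiff 𝓘(ℝ, E7) 𝓘(ℝ, ℝ) ∞ f) :
    ContDiffOn ℝ ∞ (fun v => f (ppi v)) D := by
  intro v hv
  have h1 : ContMDiffOn 𝓘(ℝ, E7) 𝓘(ℝ, E7) ∞ (chart ⟨v, hv⟩).symm (chart ⟨v, hv⟩).target := by
    have : IsManifold 𝓘(ℝ, E7) ∞ X := IsManifold.of_le (n := ω) le_top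
    exact contMDiffOn_symm_of_mem_maximalAtlas
      (IsManifold.subset_maximalAtlas ⟨_, rfl⟩)
  have h2 : ContMDiffAt 𝓘(ℝ, E7) 𝓘(ℝ, E7) ∞ ppi v :=
    h1.contMDiffAt (Metric.ball_mem_nhds _ (rad_pos hv))
  have h3 := (hf (ppi v)).comp v h2
  rw [contMDiffAt_iff_contDiffAt] at h3
  exact h3.contDiffWithinAt
lemma contMDiff_of_comp_ppi {f : X → ℝ} (hf : ContDiffOn ℝ ∞ (fun v => f (ppi v)) D) :
    ContMDiff 𝓘(ℝ, E7) 𝓘(ℝ, ℝ) ∞ f := by
  have : IsManifold 𝓘(ℝ, E7) ∞ X := IsManifold.of_le (n := ω) le_top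
  intro x
  have hx : x ∈ (chart ⟨rep x, rep_mem x⟩).source := mem_chart_source E7 x
  have h1 : ContMDiffOn 𝓘(ℝ, E7) 𝓘(ℝ, E7) ∞ (chart ⟨rep x, rep_mem x⟩)
      (chart ⟨rep x, rep_mem x⟩).source :=
    contMDiffOn_of_mem_maximalAtlas (IsManifold.subset_maximalAtlas ⟨_, rfl⟩)
  have h2 := h1.contMDiffAt ((chart ⟨rep x, rep_mem x⟩).open_source.mem_nhds hx)
  have h3 : ContMDiffAt 𝓘(ℝ, E7) 𝓘(ℝ, ℝ) ∞ (fun v => f (ppi v)) ((chart ⟨rep x, rep_mem x⟩) x) := by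
    rw [contMDiffAt_iff_contDiffAt]
    apply hf.contDiffAt (isOpen_D.mem_nhds _)
    exact ball_subset_D (rep_mem x) ((chart ⟨rep x, rep_mem x⟩).map_source hx)
  have h4 := h3.comp x h2
  apply h4.congr_of_eventuallyEq
  filter_upwards [(chart ⟨rep x, rep_mem x⟩).open_source.mem_nhds hx] with y hy
  have := (chart ⟨rep x, rep_mem x⟩).left_inv hy
  simp only [Function.comp]
  rw [chart_symm_apply] at this
  rw [this]
lemma continuous_of_comp_ppi {Y : Type*} [TopologicalSpace Y] {h : X → Y}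
    (hc : ContinuousOn (fun v => h (ppi v)) D) : Continuous h := by
  have hq : IsQuotientMap mkX := isQuotientMap_quotient_mk'
  rw [hq.continuous_iff]
  rw [continuousOn_iff_continuous_domRestrict] at hc
  convert hc using 1
  funext v
  simp only [Function.comp, Set.domRestrict, ppi_of_mem v.2]

/-- descent of functions -/
lemma exists_desc_fun {G : E7 → ℝ} (hG : ContDiffOn ℝ ∞ G D)
    (hinv : ∀ (i : Mv) (k : ℤ) (l : T4) (v : E7), v ∈ D → v.1 ∈ dom i → l ∈ Lam →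
      G (tr i k l v) = G v) :
    ∃ f : X → ℝ, ContMDiff 𝓘(ℝ, E7) 𝓘(ℝ, ℝ) ∞ f ∧ ∀ v ∈ D, f (ppi v) = G v := by
  have h1 : ∀ v ∈ D, G (rep (ppi v)) = G v := by
    intro v hv
    obtain ⟨i, k, l, hl, hi, hr⟩ := exists_rep hv
    rw [hr, hinv i k l v hv hi hl]
  exact ⟨fun x => G (rep x), contMDiff_of_comp_ppi (hG.congr h1), h1⟩

/-- the leaf direction -/
def e1 : E7 := (1, 0)

/-- the leafwise density of a 2-form, relative to the leafwise area form `sig dx ∧ dy` -/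
def Qf (φ : X → E7 [⋀^Fin 2]→L[ℝ] ℝ) (x : X) : ℝ :=
  (sig (rep x).1)⁻¹ * φ x ![e1, Complex.I • e1]

lemma d1_form_swap (φ : E7 [⋀^Fin 2]→L[ℝ] ℝ) (u w : E7) : φ ![u, w] = - φ ![w, u] := by
  have h := φ.toAlternatingMap.map_swap ![w, u] (i := (0 : Fin 2)) (j := 1) (by decide)
  have e : (![w, u] : Fin 2 → E7) ∘ Equiv.swap (0 : Fin 2) 1 = ![u, w] := by
    funext i; fin_cases i <;> simp
  rw [e] at h
  exact h

lemma d1_form_add (φ : E7 [⋀^Fin 2]→L[ℝ] ℝ) (u u' w : E7) :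
    φ ![u + u', w] = φ ![u, w] + φ ![u', w] := φ.vecCons_add ![w] u u'

lemma d1_form_smul (φ : E7 [⋀^Fin 2]→L[ℝ] ℝ) (c : ℝ) (u w : E7) :
    φ ![c • u, w] = c * φ ![u, w] := φ.vecCons_smul ![w] c u

lemma d1_form_add' (φ : E7 [⋀^Fin 2]→L[ℝ] ℝ) (u u' w : E7) :
    φ ![w, u + u'] = φ ![w, u] + φ ![w, u'] := by
  rw [d1_form_swap, d1_form_add, d1_form_swap φ u w, d1_form_swap φ u' w]; ring

lemma d1_form_smul' (φ : E7 [⋀^Fin 2]→L[ℝ] ℝ) (c : ℝ) (u w : E7) :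
    φ ![w, c • u] = c * φ ![w, u] := by
  rw [d1_form_swap, d1_form_smul, d1_form_swap φ u w]; ring

lemma d1_form_self (φ : E7 [⋀^Fin 2]→L[ℝ] ℝ) (u : E7) : φ ![u, u] = 0 := by
  have := d1_form_swap φ u u
  linarith

lemma d1_form_cpair (φ : E7 [⋀^Fin 2]→L[ℝ] ℝ) (c : ℂ) (u : E7) :
    φ ![c • u, Complex.I • (c • u)] = ‖c‖ ^ 2 * φ ![u, Complex.I • u] := by
  have e1 : c • u = c.re • u + c.im • (Complex.I • u) := by
    have h : c = (c.re : ℂ) + (c.im : ℂ) * Complex.I := (Complex.re_add_im c).symm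
    conv_lhs => rw [h]
    rw [add_smul, mul_smul, Complex.coe_smul, Complex.coe_smul]
  have e2 : Complex.I • (c • u) = c.re • (Complex.I • u) + (-c.im) • u := by
    rw [e1, smul_add, smul_comm Complex.I c.re u, smul_comm Complex.I c.im (Complex.I • u),
      smul_smul Complex.I Complex.I, Complex.I_mul_I, neg_one_smul, smul_neg, neg_smul]
  rw [e2, e1, d1_form_add, d1_form_add', d1_form_add', d1_form_smul, d1_form_smul, d1_form_smul,
    d1_form_smul, d1_form_smul', d1_form_smul', d1_form_smul', d1_form_smul', d1_form_self,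
    d1_form_self, d1_form_swap φ (Complex.I • u) u, ← Complex.normSq_eq_norm_sq,
    Complex.normSq_apply]
  ring

lemma d1_dR_e1 (i : Mv) (k : ℤ) (z : ℂ) : dR i k z e1 = actd i z • e1 := by
  rw [d1_dR_apply]
  simp [e1]

lemma d1_dR_I (i : Mv) (k : ℤ) (z : ℂ) (u : E7) :
    dR i k z (Complex.I • u) = Complex.I • dR i k z u := by
  change dtr i k z (Complex.I • u) = Complex.I • dtr i k z u
  rw [map_smul]

lemma d1_hat_apply_pair (φ : X → E7 [⋀^Fin 2]→L[ℝ] ℝ) {v : E7} {i : Mv} {k : ℤ} {l : T4}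
    (hv : v ∈ D) (hl : l ∈ Lam) (hi : v.1 ∈ dom i) (h : rep (ppi v) = tr i k l v) (u w : E7) :
    hat φ v ![u, w] = φ (ppi v) ![dR i k v.1 u, dR i k v.1 w] := by
  rw [hat_eq φ hv hl hi h, ContinuousAlternatingMap.compContinuousLinearMap_apply]
  congr 1
  funext i; fin_cases i <;> rfl

lemma Qf_ppi (φ : X → E7 [⋀^Fin 2]→L[ℝ] ℝ) {v : E7} (hv : v ∈ D) :
    Qf φ (ppi v) = (sig v.1)⁻¹ * hat φ v ![e1, Complex.I • e1] := by
  obtain ⟨i, k, l, hl, hi, hr⟩ := exists_rep hv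
  have him : (rep (ppi v)).1 = act i v.1 := by rw [hr]; rfl
  rw [Qf, him, d1_hat_apply_pair φ hv hl hi hr, d1_dR_I, d1_dR_e1, d1_form_cpair, ← sig_act hi]
  have h1 : ‖actd i v.1‖ ≠ 0 := norm_ne_zero_iff.2 (actd_ne hi)
  have h2 : sig (act i v.1) ≠ 0 := (sig_pos (act_mem_F hi)).ne'
  field_simp

lemma d1_continuousOn_sig : ContinuousOn (fun v : E7 => sig v.1) D :=
  contDiffOn_sig.continuousOn.comp continuous_fst.continuousOn (fun _ hv => hv.1)

lemma continuous_Qf {φ : X → E7 [⋀^Fin 2]→L[ℝ] ℝ} (h : IsContForm φ) : Continuous (Qf φ) := by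
  apply continuous_of_comp_ppi
  rw [isContForm_iff] at h
  have h1 : ContinuousOn (fun v : E7 => (sig v.1)⁻¹ * hat φ v ![e1, Complex.I • e1]) D := by
    apply ContinuousOn.mul
    · exact d1_continuousOn_sig.inv₀ (fun v hv => (sig_pos hv.1).ne')
    · have : Continuous (fun ψ : E7 [⋀^Fin 2]→L[ℝ] ℝ => ψ ![e1, Complex.I • e1]) := by
        fun_prop
      exact this.comp_continuousOn h
  exact h1.congr (fun v hv => Qf_ppi φ hv)

/-- the leafwise density as a linear map -/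
def Q : ContForms E7 X →ₗ[ℝ] C(X, ℝ) where
  toFun φ := ⟨Qf φ.1, continuous_Qf φ.2⟩
  map_add' φ ψ := by
    ext x
    simp only [ContinuousMap.coe_mk, ContinuousMap.add_apply, Qf, Submodule.coe_add, Pi.add_apply,
      ContinuousAlternatingMap.add_apply]
    ring
  map_smul' c φ := by
    ext x
    simp only [ContinuousMap.coe_mk, ContinuousMap.smul_apply, Qf, Submodule.coe_smul, Pi.smul_apply,
      ContinuousAlternatingMap.smul_apply, RingHom.id_apply, smul_eq_mul]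
    ring

lemma Q_apply (φ : ContForms E7 X) (x : X) : Q φ x = Qf φ.1 x := rfl

/-- leafwise flat Laplacian -/
def d1_lap (G : E7 → ℝ) (v : E7) : ℝ :=
  fderiv ℝ (fun u => fderiv ℝ G u e1) v e1 +
    fderiv ℝ (fun u => fderiv ℝ G u (Complex.I • e1)) v (Complex.I • e1)

/-- multiplication by `i` as a real linear map -/
def d1_J : E7 →L[ℝ] E7 := Complex.I • ContinuousLinearMap.id ℝ E7

lemma d1_J_apply (v : E7) : d1_J v = Complex.I • v := rfl

/-- the `1`-form `-(1/2π) dG ∘ J` on the model -/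
def dcF (G : E7 → ℝ) (v : E7) : E7 [⋀^Fin 1]→L[ℝ] ℝ :=
  ContinuousAlternatingMap.ofSubsingleton ℝ E7 ℝ (0 : Fin 1)
    ((-(1 / (2 * Real.pi))) • (fderiv ℝ G v).comp d1_J)

lemma dcF_apply (G : E7 → ℝ) (v : E7) (m : Fin 1 → E7) :
    dcF G v m = -(1 / (2 * Real.pi)) * fderiv ℝ G v (Complex.I • m 0) := by
  simp [dcF, d1_J_apply]

/-- the derivative of a function on `X`, as a linear form on the model -/
def d1_mf (f : X → ℝ) (x : X) : E7 →L[ℝ] ℝ := mfderiv 𝓘(ℝ, E7) 𝓘(ℝ, ℝ) f x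

lemma d1_fderiv_comp_ppi {f : X → ℝ} (hf : ContMDiff 𝓘(ℝ, E7) 𝓘(ℝ, ℝ) ∞ f) {v : E7} {i : Mv}
    {k : ℤ} {l : T4} (hv : v ∈ D) (hl : l ∈ Lam) (hi : v.1 ∈ dom i)
    (h : rep (ppi v) = tr i k l v) :
    fderiv ℝ (fun v => f (ppi v)) v = (d1_mf f (ppi v)).comp (dR i k v.1) := by
  have h1 : MDifferentiableAt 𝓘(ℝ, E7) 𝓘(ℝ, ℝ) f (ppi v) :=
    (hf (ppi v)).mdifferentiableAt (by simp)
  have h2 := h1.hasMFDerivAt.comp v (hasMFDerivAt_ppi_R hv hl hi h)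
  have h3 : HasFDerivAt (fun v => f (ppi v)) ((d1_mf f (ppi v)).comp (dR i k v.1)) v :=
    hasMFDerivAt_iff_hasFDerivAt.mp h2
  exact h3.fderiv

lemma d1_dcForm_eq (f : X → ℝ) (x : X) : dcForm f x =
    ContinuousAlternatingMap.ofSubsingleton ℝ E7 ℝ (0 : Fin 1)
      ((-(1 / (2 * Real.pi))) • (d1_mf f x).comp d1_J) := rfl

lemma d1_hat_dcForm {f : X → ℝ} (hf : ContMDiff 𝓘(ℝ, E7) 𝓘(ℝ, ℝ) ∞ f) {v : E7} (hv : v ∈ D) :
    hat (dcForm f) v = dcF (fun v => f (ppi v)) v := by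
  obtain ⟨i, k, l, hl, hi, hr⟩ := exists_rep hv
  rw [hat_eq _ hv hl hi hr]
  ext m
  rw [dcF_apply, d1_fderiv_comp_ppi hf hv hl hi hr]
  rw [ContinuousAlternatingMap.compContinuousLinearMap_apply, d1_dcForm_eq]
  rw [ContinuousLinearMap.comp_apply, d1_dR_I]
  simp [d1_J_apply]

lemma d1_contDiffOn_dcF {G : E7 → ℝ} (hG : ContDiffOn ℝ ∞ G D) :
    ContDiffOn ℝ ∞ (dcF G) D := by
  have h1 : ContDiffOn ℝ ∞ (fderiv ℝ G) D := hG.fderiv_of_isOpen isOpen_D (by simp)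
  have h2 : ContDiff ℝ ∞ (fun A : E7 →L[ℝ] ℝ =>
      ContinuousAlternatingMap.ofSubsingleton ℝ E7 ℝ (0 : Fin 1)
        ((-(1 / (2 * Real.pi))) • A.comp d1_J)) := by
    have h3 : (fun A : E7 →L[ℝ] ℝ =>
      ContinuousAlternatingMap.ofSubsingleton ℝ E7 ℝ (0 : Fin 1)
        ((-(1 / (2 * Real.pi))) • A.comp d1_J)) =
        fun A => (ContinuousAlternatingMap.ofSubsingletonLIE (𝕜 := ℝ) (E := E7) (F := ℝ)
          (0 : Fin 1)).toContinuousLinearEquiv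
          ((-(1 / (2 * Real.pi))) • (ContinuousLinearMap.compL ℝ E7 E7 ℝ).flip d1_J A) := by
      funext A; rfl
    rw [h3]
    apply ContDiff.comp (ContinuousLinearEquiv.contDiff _)
    fun_prop
  exact h2.comp_contDiffOn h1

lemma d1_contDiffOn_extDeriv {n : ℕ} {ψ : E7 → E7 [⋀^Fin n]→L[ℝ] ℝ} (h : ContDiffOn ℝ ∞ ψ D) :
    ContDiffOn ℝ ∞ (extDeriv ψ) D := by
  have h1 : ContDiffOn ℝ ∞ (fderiv ℝ ψ) D := h.fderiv_of_isOpen isOpen_D (by simp)
  exact (ContinuousAlternatingMap.alternatizeUncurryFinCLM ℝ E7 ℝ).contDiff.comp_contDiffOn h1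

lemma d1_inv_extDeriv {n : ℕ} {ψ : E7 → E7 [⋀^Fin n]→L[ℝ] ℝ} (h : InvF ψ)
    (hs : ContDiffOn ℝ ∞ ψ D) : InvF (extDeriv ψ) := by
  intro i k l v hv hi hl
  have hv' : tr i k l v ∈ D := tr_mem_D hv hi
  have hA' : ContDiffAt ℝ ∞ (tr i k l) v := (contDiffAt_tr hi ∞).restrict_scalars ℝ
  have h1 : extDeriv (fun x => (ψ (tr i k l x)).compContinuousLinearMap
      (fderiv ℝ (tr i k l) x)) v =
      (extDeriv ψ (tr i k l v)).compContinuousLinearMap
        (fderiv ℝ (tr i k l) v) :=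
    extDeriv_pullback (r := ∞)
    ((hs.contDiffAt (isOpen_D.mem_nhds hv')).differentiableAt (by simp)) hA'
    (by rw [minSmoothness_of_isRCLikeNormedField]; exact ENat.LEInfty.out)
  rw [(d1_hasFDerivAt_tr hi).fderiv] at h1
  rw [← h1]
  apply Filter.EventuallyEq.extDeriv_eq
  filter_upwards [isOpen_D.mem_nhds hv, d1_nhds hi] with u hu hu'
  rw [(d1_hasFDerivAt_tr hu').fderiv]
  exact h i k l u hu hu' hl

lemma d1_inv_congr {n : ℕ} {ψ ψ' : E7 → E7 [⋀^Fin n]→L[ℝ] ℝ} (h : InvF ψ)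
    (hc : ∀ v ∈ D, ψ v = ψ' v) : InvF ψ' := by
  intro i k l v hv hi hl
  rw [← hc v hv, ← hc _ (tr_mem_D hv hi)]
  exact h i k l v hv hi hl

lemma d1_extDeriv_dcF_pair {G : E7 → ℝ} (hG : ContDiffOn ℝ ∞ G D) {v : E7} (hv : v ∈ D) :
    extDeriv (dcF G) v ![e1, Complex.I • e1] = (1 / (2 * Real.pi)) * d1_lap G v := by
  have hd : DifferentiableAt ℝ (dcF G) v :=
    ((d1_contDiffOn_dcF hG).contDiffAt (isOpen_D.mem_nhds hv)).differentiableAt (by simp)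
  rw [extDeriv_apply hd, Fin.sum_univ_two]
  have h0 : (fun u => dcF G u ((0 : Fin 2).removeNth ![e1, Complex.I • e1])) =
      fun u => (1 / (2 * Real.pi)) * fderiv ℝ G u e1 := by
    funext u
    rw [dcF_apply]
    have : Complex.I • ((0 : Fin 2).removeNth ![e1, Complex.I • e1]) 0 = -e1 := by
      change Complex.I • (Complex.I • e1) = -e1
      rw [smul_smul, Complex.I_mul_I, neg_one_smul]
    rw [this, map_neg]
    ring
  have h1 : (fun u => dcF G u ((1 : Fin 2).removeNth ![e1, Complex.I • e1])) =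
      fun u => (-(1 / (2 * Real.pi))) * fderiv ℝ G u (Complex.I • e1) := by
    funext u
    rw [dcF_apply]
    rfl
  rw [h0, h1]
  have hF' : ContDiffOn ℝ ∞ (fderiv ℝ G) D := hG.fderiv_of_isOpen isOpen_D (by simp)
  have hdF : ∀ w : E7, DifferentiableAt ℝ (fun u => fderiv ℝ G u w) v := by
    intro w
    have : DifferentiableAt ℝ (fderiv ℝ G) v :=
      (hF'.contDiffAt (isOpen_D.mem_nhds hv)).differentiableAt (by simp)
    fun_prop
  rw [fderiv_const_mul (hdF _), fderiv_const_mul (hdF _)]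
  have hs : ∀ (c : ℝ) (A : E7 →L[ℝ] ℝ) (u : E7), (c • A) u = c * A u := fun _ _ _ => rfl
  simp only [Matrix.cons_val_zero, Matrix.cons_val_one, Fin.val_zero, pow_zero, one_smul,
    Fin.val_one, pow_one, hs, d1_lap]
  ring

lemma d1_slice {G : E7 → ℝ} {z : ℂ} {m : V7} (h : DifferentiableAt ℝ G (z, m)) (w : ℂ) :
    fderiv ℝ (fun z => G (z, m)) z w = fderiv ℝ G (z, m) (w, 0) := by
  have h1 : HasFDerivAt (fun z : ℂ => ((z, m) : E7)) (ContinuousLinearMap.inl ℝ ℂ V7) z :=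
    (hasFDerivAt_id z).prodMk (hasFDerivAt_const m z)
  have h2 : HasFDerivAt (fun z => G (z, m)) ((fderiv ℝ G (z, m)).comp
      (ContinuousLinearMap.inl ℝ ℂ V7)) z :=
    HasFDerivAt.comp z h.hasFDerivAt h1
  rw [h2.fderiv]
  rfl

lemma d1_lap_eq {G : E7 → ℝ} (hG : ContDiffOn ℝ ∞ G D) {v : E7} (hv : v ∈ D) :
    d1_lap G v = lap2 (fun z => G (z, v.2)) v.1 := by
  have hF' : ContDiffOn ℝ ∞ (fderiv ℝ G) D := hG.fderiv_of_isOpen isOpen_D (by simp)
  have hdF : ∀ w : E7, DifferentiableAt ℝ (fun u => fderiv ℝ G u w) v := by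
    intro w
    have : DifferentiableAt ℝ (fderiv ℝ G) v :=
      (hF'.contDiffAt (isOpen_D.mem_nhds hv)).differentiableAt (by simp)
    fun_prop
  have hdG : ∀ u ∈ D, DifferentiableAt ℝ G u := fun u hu =>
    (hG.contDiffAt (isOpen_D.mem_nhds hu)).differentiableAt (by simp)
  have key : ∀ w : ℂ, fderiv ℝ (fun u => fderiv ℝ G u (w, 0)) v (w, 0) =
      fderiv ℝ (fun u => fderiv ℝ (fun z => G (z, v.2)) u w) v.1 w := by
    intro w
    have h1 := d1_slice (G := fun u => fderiv ℝ G u (w, 0)) (z := v.1) (m := v.2) (hdF (w, 0)) w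
    rw [show ((v.1, v.2) : E7) = v from rfl] at h1
    rw [← h1]
    have h2 : (fun z => fderiv ℝ G (z, v.2) (w, 0)) =ᶠ[𝓝 v.1]
        (fun u => fderiv ℝ (fun z => G (z, v.2)) u w) := by
      filter_upwards [isOpen_F.mem_nhds hv.1] with u hu
      exact (d1_slice (hdG (u, v.2) ⟨hu, hv.2⟩) w).symm
    rw [h2.fderiv_eq]
  have hI : Complex.I • e1 = ((Complex.I, 0) : E7) := by simp [e1]
  unfold d1_lap lap2
  rw [hI]
  rw [show e1 = ((1, 0) : E7) from rfl, key 1, key Complex.I]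

/-- the exact form attached to a function `G` for which `dcF G` is invariant -/
lemma d1_exists {G : E7 → ℝ} (hG : ContDiffOn ℝ ∞ G D) (h1 : InvF (dcF G)) :
    ∃ φ : ContForms E7 X, (∀ v ∈ D, hat φ.1 v = extDeriv (dcF G) v) ∧
      ∀ v ∈ D, Q φ (ppi v) = (1 / (2 * Real.pi)) *
        ((sig v.1)⁻¹ * lap2 (fun z => G (z, v.2)) v.1) := by
  have h2 := d1_inv_extDeriv h1 (d1_contDiffOn_dcF hG)
  have h3 := d1_contDiffOn_extDeriv (d1_contDiffOn_dcF hG)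
  refine ⟨⟨desc (extDeriv (dcF G)), ?_⟩, ?_, ?_⟩
  · change IsContForm _
    rw [isContForm_iff]
    exact (h3.continuousOn).congr (fun v hv => hat_desc h2 hv)
  · intro v hv
    exact hat_desc h2 hv
  · intro v hv
    rw [Q_apply, Qf_ppi _ hv, hat_desc h2 hv, d1_extDeriv_dcF_pair hG hv, d1_lap_eq hG hv]
    ring

lemma d1_inv_dcForm {f : X → ℝ} (hf : ContMDiff 𝓘(ℝ, E7) 𝓘(ℝ, ℝ) ∞ f) :
    InvF (dcF (fun v => f (ppi v))) :=
  d1_inv_congr (inv_hat (dcForm f)) (fun v hv => d1_hat_dcForm hf hv)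

/-- existence of `dd^c f` -/
lemma exists_ddc {f : X → ℝ} (hf : ContMDiff 𝓘(ℝ, E7) 𝓘(ℝ, ℝ) ∞ f) :
    ∃ φ : ContForms E7 X, IsExtDeriv (dcForm f) φ.1 := by
  obtain ⟨φ, h1, -⟩ := d1_exists (contDiffOn_comp_ppi hf) (d1_inv_dcForm hf)
  refine ⟨φ, ?_⟩
  rw [isExtDeriv_iff]
  intro v hv
  rw [h1 v hv]
  apply Filter.EventuallyEq.extDeriv_eq
  filter_upwards [isOpen_D.mem_nhds hv] with u hu
  exact (d1_hat_dcForm hf hu).symm

/-- leafwise density of `dd^c f` -/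
lemma Q_ddc {f : X → ℝ} (hf : ContMDiff 𝓘(ℝ, E7) 𝓘(ℝ, ℝ) ∞ f) {φ : ContForms E7 X}
    (hφ : IsExtDeriv (dcForm f) φ.1) {v : E7} (hv : v ∈ D) :
    Q φ (ppi v) = (1 / (2 * Real.pi)) *
      ((sig v.1)⁻¹ * lap2 (fun z => f (ppi (z, v.2))) v.1) := by
  rw [Q_apply, Qf_ppi _ hv, isExtDeriv_iff.mp hφ v hv]
  have : extDeriv (hat (dcForm f)) v = extDeriv (dcF (fun v => f (ppi v))) v := by
    apply Filter.EventuallyEq.extDeriv_eq
    filter_upwards [isOpen_D.mem_nhds hv] with u hu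
    exact d1_hat_dcForm hf hu
  rw [this, d1_extDeriv_dcF_pair (contDiffOn_comp_ppi hf) hv, d1_lap_eq (contDiffOn_comp_ppi hf) hv]
  ring

/-- an exact form attached to a function on `D` which is invariant up to additive constants -/
lemma exists_dc {G : E7 → ℝ} (hG : ContDiffOn ℝ ∞ G D) (c : ℝ)
    (hinv : ∀ (i : Mv) (k : ℤ) (l : T4) (v : E7), v ∈ D → v.1 ∈ dom i → l ∈ Lam →
      G (tr i k l v) = G v + k * c) :
    ∃ β : X → E7 [⋀^Fin 1]→L[ℝ] ℝ, IsSmoothForm β ∧ ∃ φ : ContForms E7 X, IsExtDeriv β φ.1 ∧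
      ∀ v ∈ D, Q φ (ppi v) = (1 / (2 * Real.pi)) *
        ((sig v.1)⁻¹ * lap2 (fun z => G (z, v.2)) v.1) := by
  have hdG : ∀ u ∈ D, DifferentiableAt ℝ G u := fun u hu =>
    (hG.contDiffAt (isOpen_D.mem_nhds hu)).differentiableAt (by simp)
  have hI : InvF (dcF G) := by
    intro i k l v hv hi hl
    have hv' : tr i k l v ∈ D := tr_mem_D hv hi
    have h1 : HasFDerivAt (fun u => G (tr i k l u))
        ((fderiv ℝ G (tr i k l v)).comp (dR i k v.1)) v :=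
      HasFDerivAt.comp v (hdG _ hv').hasFDerivAt (d1_hasFDerivAt_tr hi)
    have h2 : (fun u => G (tr i k l u)) =ᶠ[𝓝 v] fun u => G u + k * c := by
      filter_upwards [isOpen_D.mem_nhds hv, d1_nhds hi] with u hu hu'
      exact hinv i k l u hu hu' hl
    have h3 : HasFDerivAt (fun u => G u + k * c) (fderiv ℝ G v) v :=
      (hdG v hv).hasFDerivAt.add_const _
    have h4 : (fderiv ℝ G (tr i k l v)).comp (dR i k v.1) = fderiv ℝ G v :=
      (h1.congr_of_eventuallyEq h2.symm).unique h3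
    ext m
    rw [ContinuousAlternatingMap.compContinuousLinearMap_apply, dcF_apply, dcF_apply, ← h4,
      ContinuousLinearMap.comp_apply, d1_dR_I]
    rfl
  obtain ⟨φ, h1, h2⟩ := d1_exists hG hI
  refine ⟨desc (dcF G), ?_, φ, ?_, h2⟩
  · rw [isSmoothForm_iff]
    exact (d1_contDiffOn_dcF hG).congr (fun v hv => hat_desc hI hv)
  · rw [isExtDeriv_iff]
    intro v hv
    rw [h1 v hv]
    apply Filter.EventuallyEq.extDeriv_eq
    filter_upwards [isOpen_D.mem_nhds hv] with u hu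
    exact (hat_desc hI hu).symm

/-- the area form of the leaves -/
def area : E7 [⋀^Fin 2]→L[ℝ] ℝ :=
  ContinuousAlternatingMap.alternatizeUncurryFin
    ((Complex.reCLM.comp (ContinuousLinearMap.fst ℝ ℂ V7)).smulRight
      (ContinuousAlternatingMap.ofSubsingleton ℝ E7 ℝ (0 : Fin 1)
        (Complex.imCLM.comp (ContinuousLinearMap.fst ℝ ℂ V7))))

lemma area_apply (m : Fin 2 → E7) :
    area m = (m 0).1.re * (m 1).1.im - (m 1).1.re * (m 0).1.im := by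
  rw [area, ContinuousAlternatingMap.alternatizeUncurryFin_apply]
  rw [Fin.sum_univ_two]
  simp only [Fin.val_zero, pow_zero, one_smul, ContinuousLinearMap.smulRight_apply,
    ContinuousAlternatingMap.smul_apply, Fin.val_one, pow_one, smul_eq_mul]
  have ht : ∀ m : Fin 2 → E7, Fin.tail m 0 = m 1 := fun _ => rfl
  simp [Fin.removeNth, ht]
  ring

/-- the invariant form -/
def psi0 (v : E7) : E7 [⋀^Fin 2]→L[ℝ] ℝ := sig v.1 • area

lemma inv_psi0 : InvF psi0 := by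
  intro i k l v hv hi hl
  ext m
  have h2 : ∀ u : E7, (dR i k v.1 u).1 = actd i v.1 * u.1 := by
    intro u
    rw [d1_dR_apply]
  have h3 : (tr i k l v).1 = act i v.1 := rfl
  simp only [psi0, ContinuousAlternatingMap.compContinuousLinearMap_apply,
    ContinuousAlternatingMap.smul_apply, area_apply, Function.comp, h2, h3, smul_eq_mul,
    Complex.mul_re, Complex.mul_im]
  rw [← sig_act hi, ← Complex.normSq_eq_norm_sq, Complex.normSq_apply]
  ring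

/-- the form `sig dx ∧ dy` on `X` -/
def omega0 : X → E7 [⋀^Fin 2]→L[ℝ] ℝ := desc psi0

lemma isContForm_smul_omega0 (h : C(X, ℝ)) : IsContForm (fun x => h x • omega0 x) := by
  rw [isContForm_iff]
  have h1 : ContinuousOn (fun v => h (ppi v)) D := h.continuous.comp_continuousOn continuousOn_ppi
  have h2 : ContinuousOn psi0 D := d1_continuousOn_sig.smul continuousOn_const
  refine (h1.smul h2).congr (fun v hv => ?_)
  rw [d1_hat_smul h omega0 v]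
  congr 1
  exact hat_desc inv_psi0 hv

/-- `h ↦ h • ω₀` -/
def om : C(X, ℝ) →ₗ[ℝ] ContForms E7 X where
  toFun h := ⟨fun x => h x • omega0 x, isContForm_smul_omega0 h⟩
  map_add' h h' := by
    apply Subtype.ext
    funext x
    exact add_smul (h x) (h' x) (omega0 x)
  map_smul' c h := by
    apply Subtype.ext
    funext x
    exact mul_smul c (h x) (omega0 x)

lemma om_apply (h : C(X, ℝ)) (x : X) : (om h).1 x = h x • omega0 x := rfl

lemma omega0_pair (x : X) (v : E7) :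
    omega0 x ![v, Complex.I • v] = sig (rep x).1 * ‖v.1‖ ^ 2 := by
  change psi0 (rep x) ![v, Complex.I • v] = _
  rw [psi0, ContinuousAlternatingMap.smul_apply, area_apply, smul_eq_mul]
  congr 1
  simp only [Matrix.cons_val_zero, Matrix.cons_val_one, Prod.smul_fst, smul_eq_mul,
    Complex.mul_re, Complex.mul_im, Complex.I_re, Complex.I_im]
  rw [← Complex.normSq_eq_norm_sq, Complex.normSq_apply]
  ring

lemma Q_om (h : C(X, ℝ)) : Q (om h) = h := by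
  ext x
  have h1 : sig (rep x).1 ≠ 0 := (sig_pos (rep_mem x).1).ne'
  rw [Q_apply, Qf, om_apply, ContinuousAlternatingMap.smul_apply, omega0_pair, smul_eq_mul]
  simp [e1]
  field_simp

/-- the current of a functional -/
def cur (L : C(X, ℝ) →ₗ[ℝ] ℝ) : Current E7 X := L.comp Q

/-- the functional of a current -/
def fn (T : Current E7 X) : C(X, ℝ) →ₗ[ℝ] ℝ := T.comp om

lemma cur_apply (L : C(X, ℝ) →ₗ[ℝ] ℝ) (φ : ContForms E7 X) : cur L φ = L (Q φ) := rfl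
lemma fn_apply (T : Current E7 X) (h : C(X, ℝ)) : fn T h = T (om h) := rfl

lemma fn_cur (L : C(X, ℝ) →ₗ[ℝ] ℝ) : fn (cur L) = L := by
  ext h
  rw [fn_apply, cur_apply, Q_om]

/-- positivity of functionals -/
def PosL (L : C(X, ℝ) →ₗ[ℝ] ℝ) : Prop := ∀ h : C(X, ℝ), (∀ x, 0 ≤ h x) → 0 ≤ L h

/-- harmonic functionals -/
def HarmL (L : C(X, ℝ) →ₗ[ℝ] ℝ) : Prop :=
  ∀ f : X → ℝ, ContMDiff 𝓘(ℝ, E7) 𝓘(ℝ, ℝ) ∞ f → ∀ h : C(X, ℝ),
    (∀ v ∈ D, sig v.1 * h (ppi v) = lap2 (fun z => f (ppi (z, v.2))) v.1) → L h = 0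

lemma isPositive_cur {L : C(X, ℝ) →ₗ[ℝ] ℝ} (hL : PosL L) : IsPositive (cur L) := by
  intro φ hφ
  apply hL
  intro x
  rw [Q_apply, Qf]
  exact mul_nonneg (inv_nonneg.2 (sig_pos (rep_mem x).1).le) (hφ x e1)
lemma posL_fn {T : Current E7 X} (hT : IsPositive T) : PosL (fn T) := by
  intro h hh
  apply hT
  intro x v
  rw [om_apply, ContinuousAlternatingMap.smul_apply, omega0_pair, smul_eq_mul]
  have h1 : 0 < sig (rep x).1 := sig_pos (rep_mem x).1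
  exact mul_nonneg (hh x) (by positivity)
lemma isDdcClosed_cur {L : C(X, ℝ) →ₗ[ℝ] ℝ} (hL : HarmL L) : IsDdcClosed (cur L) := by
  intro f hf φ hφ
  have h1 := hL f hf ((2 * Real.pi) • Q φ) (by
    intro v hv
    rw [ContinuousMap.smul_apply, Q_ddc hf hφ hv, smul_eq_mul]
    have := Real.pi_pos
    have := sig_pos hv.1
    field_simp)
  rw [map_smul, smul_eq_mul] at h1
  have h2 : (2 * Real.pi) ≠ 0 := by have := Real.pi_pos; positivity
  exact (mul_eq_zero.mp h1).resolve_left h2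
lemma harmL_fn {T : Current E7 X} (hT : IsDdcClosed T) (hd : ∀ φ, T φ = fn T (Q φ)) :
    HarmL (fn T) := by
  intro f hf h hh
  obtain ⟨φ, hφ⟩ := exists_ddc hf
  have h1 : h = (2 * Real.pi) • Q φ := by
    ext x
    obtain ⟨v, hv, rfl⟩ := ppi_surjective x
    have hp := Real.pi_pos
    have hs := sig_pos hv.1
    rw [ContinuousMap.smul_apply, Q_ddc hf hφ hv, ← hh v hv, smul_eq_mul]
    field_simp
  rw [h1, map_smul, ← hd, hT f hf φ hφ, smul_zero]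

end Pool.Agent.H5.EC
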