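import Mathlib

/-! Basic definitions: the Schottky domain `F`, its gluing moves, the partition of unity, the
linear holonomy maps and the model fibre. -/

open Set Topology MeasureTheory
open scoped Manifold ContDiff

noncomputable section

namespace Pool.Agent.H5.EC

/-! ### The base -/

/-- boundary components: handle number and side -/
abbrev Bd : Type := Fin 4 × Bool

/-- the other side of the handle -/
def Bd.inv (b : Bd) : Bd := (b.1, !b.2)

/-- moves: the identity and the crossings of the boundary components -/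
abbrev Mv : Type := Option Bd

/-- inverse move -/
def Mv.inv (i : Mv) : Mv := i.map Bd.inv

/-- centre of a boundary circle -/
def cen (b : Bd) : ℂ := if b.2 then ((8 * (b.1 : ℕ) : ℕ) : ℂ) else -((8 * (b.1 : ℕ) : ℕ) : ℂ)

/-- logarithmic depth below the boundary component `b` -/
def dep (b : Bd) (z : ℂ) : ℝ :=
  if b = (0, false) then 7 - Real.log ‖z‖ / Real.log 2 else Real.log ‖z - cen b‖ / Real.log 2

/-- the domain `F` (a disc with seven holes) -/
def F : Set ℂ := {z | ∀ b, 0 < dep b z}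

/-- the gluing annulus along the boundary component `b` -/
def U (b : Bd) : Set ℂ := {z | z ∈ F ∧ dep b z < 1}

/-- the gluing map defined on `U b` -/
def mv (b : Bd) (z : ℂ) : ℂ :=
  if b = (0, true) then 64 * z else if b = (0, false) then z / 64 else
    cen b.inv + 2 / (z - cen b)

/-- its derivative -/
def mvd (b : Bd) (z : ℂ) : ℂ :=
  if b = (0, true) then 64 else if b = (0, false) then 1 / 64 else - 2 / (z - cen b) ^ 2

/-- domain of a move -/
def dom : Mv → Set ℂ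
  | none => F
  | some b => U b

/-- action of a move -/
def act : Mv → ℂ → ℂ
  | none => id
  | some b => mv b

/-- derivative of a move -/
def actd : Mv → ℂ → ℂ
  | none => fun _ => 1
  | some b => mvd b

/-- the step function: `0` up to `1/3`, `1` from `2/3`, with `S h + S (1 - h) = 1` -/
def S (h : ℝ) : ℝ := Real.smoothTransition (3 * h - 1)

/-- the partition functions: `eps i z = e (act i z)` on `dom i` and `0` off it, `e = eps none` -/
def eps : Mv → ℂ → ℝ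
  | none => fun z => 1 - ∑ b : Bd, S (1 - dep b z)
  | some b => fun z => S (1 - dep b z)

/-- conformal factor of the leafwise metric -/
def sig (z : ℂ) : ℝ := ∑ i : Mv, eps i z * ‖actd i z‖ ^ 2

/-- compact cores -/
def KF (h : ℝ) : Set ℂ := {z | ∀ b, h ≤ dep b z}

/-- the flat Laplacian of the plane -/
def lap2 (a : ℂ → ℝ) (z : ℂ) : ℝ :=
  fderiv ℝ (fun u => fderiv ℝ a u 1) z 1 +
    fderiv ℝ (fun u => fderiv ℝ a u Complex.I) z Complex.I

/-! ### Linear maps -/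

/-- rotation of both coordinates -/
def cLE (c : ℂ) (hc : c ≠ 0) : ℂ ≃L[ℂ] ℂ := ContinuousLinearEquiv.unitsEquivAut ℂ (Units.mk0 c hc)

variable {T : Type} [NormedAddCommGroup T] [NormedSpace ℂ T]

variable (T) in
/-- `(x₁, x₂, τ) ↦ (a x₁, a⁻¹ x₂, τ)` with `a = exp i` -/
def Rr : ((ℂ × ℂ) × T) ≃L[ℂ] ((ℂ × ℂ) × T) :=
  ((cLE (Complex.exp Complex.I) (Complex.exp_ne_zero _)).prodCongr
    (cLE (Complex.exp (-Complex.I)) (Complex.exp_ne_zero _))).prodCongr
    (ContinuousLinearEquiv.refl ℂ T)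

variable (T) in
/-- `(x₁, x₂, τ) ↦ (x₁ + x₂, x₂, τ)` -/
def Ru : ((ℂ × ℂ) × T) ≃L[ℂ] ((ℂ × ℂ) × T) :=
  ContinuousLinearEquiv.equivOfInverse
    (((ContinuousLinearMap.fst ℂ ℂ ℂ + ContinuousLinearMap.snd ℂ ℂ ℂ).prod
      (ContinuousLinearMap.snd ℂ ℂ ℂ)).prodMap (ContinuousLinearMap.id ℂ T))
    (((ContinuousLinearMap.fst ℂ ℂ ℂ - ContinuousLinearMap.snd ℂ ℂ ℂ).prod
      (ContinuousLinearMap.snd ℂ ℂ ℂ)).prodMap (ContinuousLinearMap.id ℂ T))
    (by rintro ⟨⟨a, b⟩, t⟩; simp) (by rintro ⟨⟨a, b⟩, t⟩; simp)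

variable (T) in
/-- `(x₁, x₂, τ) ↦ (x₂, -x₁, τ)` -/
def Rw : ((ℂ × ℂ) × T) ≃L[ℂ] ((ℂ × ℂ) × T) :=
  ContinuousLinearEquiv.equivOfInverse
    (((ContinuousLinearMap.snd ℂ ℂ ℂ).prod
      (-ContinuousLinearMap.fst ℂ ℂ ℂ)).prodMap (ContinuousLinearMap.id ℂ T))
    (((-ContinuousLinearMap.snd ℂ ℂ ℂ).prod
      (ContinuousLinearMap.fst ℂ ℂ ℂ)).prodMap (ContinuousLinearMap.id ℂ T))
    (by rintro ⟨⟨a, b⟩, t⟩; simp) (by rintro ⟨⟨a, b⟩, t⟩; simp)

/-- `(x₁, x₂, τ) ↦ (x₁, x₂, τ + x₁ v)` -/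
def Rt (v : T) : ((ℂ × ℂ) × T) ≃L[ℂ] ((ℂ × ℂ) × T) :=
  ContinuousLinearEquiv.equivOfInverse
    ((ContinuousLinearMap.fst ℂ (ℂ × ℂ) T).prod (ContinuousLinearMap.snd ℂ (ℂ × ℂ) T +
      ((ContinuousLinearMap.fst ℂ ℂ ℂ).comp (ContinuousLinearMap.fst ℂ (ℂ × ℂ) T)).smulRight v))
    ((ContinuousLinearMap.fst ℂ (ℂ × ℂ) T).prod (ContinuousLinearMap.snd ℂ (ℂ × ℂ) T -
      ((ContinuousLinearMap.fst ℂ ℂ ℂ).comp (ContinuousLinearMap.fst ℂ (ℂ × ℂ) T)).smulRight v))
    (by rintro ⟨⟨a, b⟩, t⟩; simp) (by rintro ⟨⟨a, b⟩, t⟩; simp)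

/-- the holonomy of the `j`-th handle -/
def RR (v : T) (j : Fin 4) : ((ℂ × ℂ) × T) ≃L[ℂ] ((ℂ × ℂ) × T) :=
  if j = 0 then Rr T else if j = 1 then Ru T else if j = 2 then Rw T else Rt v

/-- the holonomy of a move -/
def RM (v : T) : Mv → (((ℂ × ℂ) × T) ≃L[ℂ] ((ℂ × ℂ) × T))
  | none => ContinuousLinearEquiv.refl ℂ _
  | some b => if b.2 then RR v b.1 else (RR v b.1).symm

/-! ### Numbers -/

/-- the small root of `x⁴ - 2x³ + x² - 2x + 1` -/
def la : ℝ := ((1 + Real.sqrt 2) - Real.sqrt ((1 + Real.sqrt 2) ^ 2 - 4)) / 2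

/-- the angle (in turns) of the root on the unit circle -/
def ka0 : ℝ := Real.arccos ((1 - Real.sqrt 2) / 2) / (2 * Real.pi)

/-- the root on the unit circle -/
def ka : ℂ := Complex.exp (2 * Real.pi * Complex.I * ka0)

/-- the torus `ℂ⁴` direction -/
abbrev T4 : Type := Fin 4 → ℂ

/-- eigenvector for `la` -/
def vl : T4 := fun k => (la : ℂ) ^ (k : ℕ)

/-- eigenvector for `ka` -/
def uk : T4 := fun k => ka ^ (k : ℕ)

/-- companion matrix -/
def Amap : T4 →ₗ[ℂ] T4 where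
  toFun t := ![t 1, t 2, t 3, -t 0 + 2 * t 1 - t 2 + 2 * t 3]
  map_add' s t := by
    funext k
    fin_cases k
    all_goals simp
    all_goals ring
  map_smul' c t := by
    funext k
    fin_cases k
    all_goals simp
    all_goals ring

/-- inverse of the companion matrix -/
def Ainv : T4 →ₗ[ℂ] T4 where
  toFun t := ![2 * t 0 - t 1 + 2 * t 2 - t 3, t 0, t 1, t 2]
  map_add' s t := by
    funext k
    fin_cases k
    all_goals simp
    all_goals ring
  map_smul' c t := by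
    funext k
    fin_cases k
    all_goals simp
    all_goals ring

/-- the companion matrix as an equivalence -/
def A : T4 ≃L[ℂ] T4 :=
  (LinearEquiv.ofLinearMap Amap Ainv
    (by apply LinearMap.ext; intro t; funext k; fin_cases k <;> simp [Amap, Ainv]; ring)
    (by apply LinearMap.ext; intro t; funext k; fin_cases k <;> simp [Amap, Ainv])).toContinuousLinearEquiv

lemma la_aux : (0 : ℝ) < la ∧ la < 1 := by
  have h2 : Real.sqrt 2 ^ 2 = 2 := Real.sq_sqrt (by norm_num)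
  have h0 : 0 ≤ Real.sqrt 2 := Real.sqrt_nonneg 2
  have h1 : 1.4 < Real.sqrt 2 := by
    rw [Real.lt_sqrt (by norm_num)]; norm_num
  have h1' : Real.sqrt 2 < 1.42 := by
    rw [Real.sqrt_lt (by norm_num) (by norm_num)]; norm_num
  have e : (1 + Real.sqrt 2) ^ 2 - 4 = 2 * Real.sqrt 2 - 1 := by nlinarith
  have h3 : Real.sqrt ((1 + Real.sqrt 2) ^ 2 - 4) < 1 + Real.sqrt 2 := by
    rw [Real.sqrt_lt (by rw [e]; nlinarith) (by positivity)]; linarith
  have h4 : Real.sqrt 2 - 1 < Real.sqrt ((1 + Real.sqrt 2) ^ 2 - 4) := by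
    rw [Real.lt_sqrt (by linarith), e]; nlinarith
  constructor
  · unfold la; linarith
  · unfold la; linarith

/-- the scaling `(x, τ) ↦ (la x, A τ)` -/
def Th : ((ℂ × ℂ) × T4) ≃L[ℂ] ((ℂ × ℂ) × T4) :=
  ((cLE (la : ℂ) (by exact_mod_cast la_aux.1.ne')).prodCongr
    (cLE (la : ℂ) (by exact_mod_cast la_aux.1.ne'))).prodCongr A

/-- the Gaussian lattice -/
def Lam : AddSubgroup T4 where
  carrier := {t | ∀ k, ∃ a b : ℤ, t k = a + b * Complex.I}
  add_mem' := by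
    intro s t hs ht k
    obtain ⟨a, b, h⟩ := hs k
    obtain ⟨c, d, h'⟩ := ht k
    refine ⟨a + c, b + d, ?_⟩
    rw [Pi.add_apply, h, h']
    push_cast
    ring
  zero_mem' := fun k => ⟨0, 0, by simp⟩
  neg_mem' := by
    intro t ht k
    obtain ⟨a, b, h⟩ := ht k
    refine ⟨-a, -b, ?_⟩
    rw [Pi.neg_apply, h]
    push_cast
    ring

/-! ### The complex manifold -/

/-- the transversal model -/
abbrev V7 : Type := (ℂ × ℂ) × T4

/-- the model of the manifold -/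
abbrev E7 : Type := ℂ × V7

/-- the domain covering the manifold -/
def D : Set E7 := {p | p.1 ∈ F ∧ p.2.1 ≠ 0}

/-- the equivalence relation -/
def Rel (p q : E7) : Prop :=
  ∃ (i : Mv) (k : ℤ) (l : T4), l ∈ Lam ∧ p.1 ∈ dom i ∧ q.1 = act i p.1 ∧
    q.2 = (Th ^ k) (RM vl i p.2) + (0, l)

/-! ### The model fibre of the currents -/

/-- `(x, s)` together with a point of the circle -/
abbrev W : Type := ((ℂ × ℂ) × ℂ) × UnitAddCircle

/-- powers of the scaling -/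
def th (k : ℤ) (m : W) : W := (((la : ℂ) ^ k) • m.1, m.2 + k • (ka0 : UnitAddCircle))

/-- holonomy on the model fibre -/
def rho (i : Mv) (m : W) : W := (RM (1 : ℂ) i m.1, m.2)

/-- the nonzero part of the fibre -/
def N : Set W := {m | m.1 ≠ 0}

/-- the model space -/
def DY : Set (ℂ × W) := F ×ˢ N

/-- the point of the unit circle -/
def yc (s : UnitAddCircle) : ℂ := (AddCircle.toCircle s : ℂ)

/-- the maps to the complex manifold, on the fibre -/
def pic (c : ℝ) (m : W) : V7 := (m.1.1, ((c : ℂ) * yc m.2) • uk + m.1.2 • vl)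

/-- square of the norm of `(x, s)` -/
def nsq (p : (ℂ × ℂ) × ℂ) : ℝ := ‖p.1.1‖ ^ 2 + ‖p.1.2‖ ^ 2 + ‖p.2‖ ^ 2

/-- square of the norm of `x` -/
def nsq2 (p : ℂ × ℂ) : ℝ := ‖p.1‖ ^ 2 + ‖p.2‖ ^ 2

/-- equivariant metric -/
def HH (z : ℂ) (p : (ℂ × ℂ) × ℂ) : ℝ := ∑ i : Mv, eps i z * nsq (RM (1 : ℂ) i p)

/-- equivariant metric on the quotient -/
def HP (v : T) (z : ℂ) (p : (ℂ × ℂ) × T) : ℝ := ∑ i : Mv, eps i z * nsq2 (RM v i p).1

/-- invariance of a function on `DY` -/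
structure InvY (g : ℂ × W → ℝ) : Prop where
  sc : ∀ z ∈ F, ∀ m ∈ N, g (z, th 1 m) = g (z, m)
  mo : ∀ b, ∀ z ∈ U b, ∀ m ∈ N, g (mv b z, rho (some b) m) = g (z, m)

/-- continuous invariant functions -/
def IY : Submodule ℝ (ℂ × W → ℝ) where
  carrier := {g | ContinuousOn g DY ∧ InvY g}
  add_mem' := by
    rintro g h ⟨h1, h2⟩ ⟨h3, h4⟩
    refine ⟨h1.add h3, ⟨fun z hz m hm => ?_, fun b z hz m hm => ?_⟩⟩
    · simp only [Pi.add_apply, h2.sc z hz m hm, h4.sc z hz m hm]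
    · simp only [Pi.add_apply, h2.mo b z hz m hm, h4.mo b z hz m hm]
  zero_mem' := ⟨continuousOn_const, ⟨fun _ _ _ _ => rfl, fun _ _ _ _ _ => rfl⟩⟩
  smul_mem' := by
    rintro c g ⟨h1, h2⟩
    refine ⟨h1.const_smul c, ⟨fun z hz m hm => ?_, fun b z hz m hm => ?_⟩⟩
    · simp only [Pi.smul_apply, h2.sc z hz m hm]
    · simp only [Pi.smul_apply, h2.mo b z hz m hm]

/-- the constant function one -/
def oneY : IY := ⟨fun _ => 1, continuousOn_const, ⟨fun _ _ _ _ => rfl, fun _ _ _ _ _ => rfl⟩⟩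

/-- leafwise Laplacian -/
def lapZ (f : ℂ × W → ℝ) (p : ℂ × W) : ℝ := lap2 (fun z => f (z, p.2)) p.1

/-- test functions -/
structure TF (f : ℂ × W → ℝ) : Prop where
  inv : InvY f
  sum : ∃ (n : ℕ) (α : Fin n → ℂ → ℝ) (β : Fin n → W → ℝ),
    (∀ k, ContDiffOn ℝ ∞ (α k) F) ∧ (∀ k, ContinuousOn (β k) N) ∧
    (∀ k, ∀ m ∈ N, β k (th 1 m) = β k m) ∧
    ∀ z ∈ F, ∀ m ∈ N, f (z, m) = ∑ k, α k z * β k m

/-- positive harmonic functionals -/
structure PH (L : IY →ₗ[ℝ] ℝ) : Prop where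
  pos : ∀ g : IY, (∀ p ∈ DY, 0 ≤ g.1 p) → 0 ≤ L g
  harm : ∀ f, TF f → ∀ g : IY, (∀ p ∈ DY, sig p.1 * g.1 p = lapZ f p) → L g = 0

/-- the drift function -/
def qY (p : ℂ × W) : ℝ := (sig p.1)⁻¹ * lap2 (fun z => Real.log (HH z p.2.1)) p.1

open Classical in
/-- averaging over the moves -/
def Av (f : ℂ × W → ℝ) (p : ℂ × W) : ℝ :=
  ∑ i : Mv, if p.1 ∈ dom i then f (act i p.1, rho i p.2) else 0

/-- the fundamental shell -/
def Sh : Set W := {m | la ^ 2 < nsq m.1 ∧ nsq m.1 ≤ 1}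

end Pool.Agent.H5.EC
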