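import Pool.Agent.H5.EC.EDefs

/-! Part E1: elementary properties of the metric, of the shell and of the weight. -/

open Set Topology MeasureTheory
open scoped Manifold ContDiff ENNReal

noncomputable section

namespace Pool.Agent.H5.EC

lemma nsq_nonneg (p : X3) : 0 ≤ nsq p := by
  unfold nsq
  positivity

lemma nsq_pos3 {p : X3} (hp : p ≠ 0) : 0 < nsq p :=
  nsq_pos (m := (p, 0)) hp

lemma continuous_nsq : Continuous nsq := by
  unfold nsq
  fun_prop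

lemma nsq_smul (c : ℂ) (p : X3) : nsq (c • p) = ‖c‖ ^ 2 * nsq p := nsq_smul' c p

lemma HH_le {z : ℂ} (hz : z ∈ F) (p : X3) : HH z p ≤ 4 * nsq p := by
  unfold HH
  calc ∑ i : Mv, eps i z * nsq (RM (1 : ℂ) i p) ≤ ∑ i : Mv, eps i z * (4 * nsq p) :=
        Finset.sum_le_sum fun i _ => mul_le_mul_of_nonneg_left (nsq_RM_le i p) (eps_nonneg i hz)
    _ = 4 * nsq p := by rw [← Finset.sum_mul, sum_eps, one_mul]

lemma HH_ge {z : ℂ} (hz : z ∈ F) (p : X3) : nsq p ≤ 4 * HH z p := by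
  unfold HH
  calc nsq p = ∑ i : Mv, eps i z * nsq p := by rw [← Finset.sum_mul, sum_eps, one_mul]
    _ ≤ ∑ i : Mv, eps i z * (4 * nsq (RM (1 : ℂ) i p)) :=
        Finset.sum_le_sum fun i _ => mul_le_mul_of_nonneg_left (nsq_RM_ge i p) (eps_nonneg i hz)
    _ = 4 * ∑ i : Mv, eps i z * nsq (RM (1 : ℂ) i p) := by
        rw [Finset.mul_sum]
        exact Finset.sum_congr rfl fun i _ => by ring

lemma HH_pos {z : ℂ} (hz : z ∈ F) {p : X3} (hp : p ≠ 0) : 0 < HH z p := by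
  have h1 := HH_ge hz p
  have h2 := nsq_pos3 hp
  linarith

lemma HH_smul (z : ℂ) (c : ℂ) (p : X3) : HH z (c • p) = ‖c‖ ^ 2 * HH z p := by
  unfold HH
  rw [Finset.mul_sum]
  refine Finset.sum_congr rfl fun i _ => ?_
  rw [map_smul, nsq_smul]
  ring

lemma HH_mv {b : Bd} {z : ℂ} (hz : z ∈ U b) (p : X3) :
    HH (mv b z) (RM (1 : ℂ) (some b) p) = HH z p := by
  have h1 : HH z p = S (dep b z) * nsq (RM (1 : ℂ) none p) +
      S (1 - dep b z) * nsq (RM (1 : ℂ) (some b) p) :=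
    sum_eps_mv (G := fun i => nsq (RM (1 : ℂ) i p)) hz
  have h2 : HH (mv b z) (RM (1 : ℂ) (some b) p) =
      S (dep b.inv (mv b z)) * nsq (RM (1 : ℂ) none (RM (1 : ℂ) (some b) p)) +
      S (1 - dep b.inv (mv b z)) * nsq (RM (1 : ℂ) (some b.inv) (RM (1 : ℂ) (some b) p)) :=
    sum_eps_mv (G := fun i => nsq (RM (1 : ℂ) i (RM (1 : ℂ) (some b) p))) (mv_mem hz)
  have h3 : RM (1 : ℂ) (some b.inv) (RM (1 : ℂ) (some b) p) = p := RM_inv_apply (1 : ℂ) (some b) p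
  rw [h2, h1, dep_mv hz, h3, RM_none, RM_none, sub_sub_cancel]
  ring

lemma HH_act {i : Mv} {z : ℂ} (hz : z ∈ dom i) (p : X3) :
    HH (act i z) (RM (1 : ℂ) i p) = HH z p := by
  cases i with
  | none => rfl
  | some b => exact HH_mv hz p

lemma contDiffOn_HH (p : X3) : ContDiffOn ℝ ∞ (fun z => HH z p) F := by
  unfold HH
  exact ContDiffOn.sum fun i _ => (contDiffOn_eps i).mul contDiffOn_const

lemma continuous_nsqRM (i : Mv) : Continuous (fun p : X3 => nsq (RM (1 : ℂ) i p)) :=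
  continuous_nsq.comp (RM (1 : ℂ) i).continuous

/-- joint continuity of sums of products -/
lemma continuousOn_sum_prod {ι : Type*} (s : Finset ι) {a : ι → ℂ → ℝ} {b : ι → X3 → ℝ}
    {P : Set X3} (ha : ∀ i ∈ s, ContinuousOn (a i) F) (hb : ∀ i ∈ s, ContinuousOn (b i) P) :
    ContinuousOn (fun x : ℂ × X3 => ∑ i ∈ s, a i x.1 * b i x.2) (F ×ˢ P) := by
  refine continuousOn_finsetSum _ fun i hi => ?_
  exact ((ha i hi).comp continuousOn_fst fun x hx => hx.1).mul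
    ((hb i hi).comp continuousOn_snd fun x hx => hx.2)

lemma continuousOn_HH : ContinuousOn (fun x : ℂ × X3 => HH x.1 x.2) (F ×ˢ univ) := by
  unfold HH
  exact continuousOn_sum_prod _ (fun i _ => (contDiffOn_eps i).continuousOn)
    fun i _ => (continuous_nsqRM i).continuousOn

lemma continuousOn_HH' : ContinuousOn (fun x : ℂ × X3 => HH x.1 x.2) (F ×ˢ {0}ᶜ) :=
  continuousOn_HH.mono (prod_mono subset_rfl (subset_univ _))

/-- joint continuity of the logarithm of the metric and of its derivatives -/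
lemma continuousOn_logHH : ContinuousOn (fun x : ℂ × X3 => Real.log (HH x.1 x.2)) (F ×ˢ {0}ᶜ) :=
  continuousOn_HH'.log fun _ hx => (HH_pos hx.1 hx.2).ne'

lemma fd_sum_prod {ι : Type*} (s : Finset ι) {a : ι → ℂ → ℝ} {z : ℂ}
    (ha : ∀ i ∈ s, ContDiffAt ℝ ∞ (a i) z) (c : ι → ℝ) (v : ℂ) :
    fderiv ℝ (fun u => ∑ i ∈ s, a i u * c i) z v = ∑ i ∈ s, fderiv ℝ (a i) z v * c i := by
  have hd : ∀ i ∈ s, DifferentiableAt ℝ (a i) z := fun i hi => (ha i hi).differentiableAt (by simp)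
  rw [fderiv_fun_sum fun i hi => (hd i hi).mul_const (c i)]
  rw [_root_.sum_apply]
  refine Finset.sum_congr rfl fun i hi => ?_
  rw [fderiv_mul_const (hd i hi)]
  simp [mul_comm]

lemma two_le_inf : (2 : WithTop ℕ∞) ≤ ((⊤ : ℕ∞) : WithTop ℕ∞) := by norm_cast

lemma one_le_inf : (1 : WithTop ℕ∞) ≤ ((⊤ : ℕ∞) : WithTop ℕ∞) := by norm_cast

lemma lap_sum_prod {ι : Type*} (s : Finset ι) {a : ι → ℂ → ℝ} {z : ℂ}
    (ha : ∀ i ∈ s, ContDiffAt ℝ ∞ (a i) z) (c : ι → ℝ) :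
    lap2 (fun u => ∑ i ∈ s, a i u * c i) z = ∑ i ∈ s, lap2 (a i) z * c i := by
  have hd : ∀ i ∈ s, ContDiffAt ℝ 2 (a i) z := fun i hi => (ha i hi).of_le two_le_inf
  have e : (fun u => ∑ i ∈ s, a i u * c i) = fun u => ∑ i ∈ s, (fun w => c i * a i w) u := by
    funext u
    exact Finset.sum_congr rfl fun i _ => mul_comm _ _
  rw [e, lap2_sum s fun i hi => contDiffAt_const.mul (hd i hi)]
  refine Finset.sum_congr rfl fun i hi => ?_
  rw [lap2_const_mul _ (hd i hi), mul_comm]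

lemma eps_at (i : Mv) {z : ℂ} (hz : z ∈ F) : ContDiffAt ℝ ∞ (eps i) z :=
  (contDiffOn_eps i).contDiffAt (isOpen_F.mem_nhds hz)

lemma HH_at (p : X3) {z : ℂ} (hz : z ∈ F) : ContDiffAt ℝ ∞ (fun u => HH u p) z :=
  (contDiffOn_HH p).contDiffAt (isOpen_F.mem_nhds hz)

lemma fd_HH (p : X3) {z : ℂ} (hz : z ∈ F) (v : ℂ) :
    fderiv ℝ (fun u => HH u p) z v = ∑ i : Mv, fderiv ℝ (eps i) z v * nsq (RM (1 : ℂ) i p) :=
  fd_sum_prod _ (fun i _ => eps_at i hz) _ v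

lemma lap_HH (p : X3) {z : ℂ} (hz : z ∈ F) :
    lap2 (fun u => HH u p) z = ∑ i : Mv, lap2 (eps i) z * nsq (RM (1 : ℂ) i p) :=
  lap_sum_prod _ (fun i _ => eps_at i hz) _

lemma continuousOn_fd_HH (v : ℂ) : ContinuousOn (fun x : ℂ × X3 =>
    fderiv ℝ (fun z => HH z x.2) x.1 v) (F ×ˢ {0}ᶜ) := by
  have h : ContinuousOn (fun x : ℂ × X3 => ∑ i : Mv, fderiv ℝ (eps i) x.1 v *
      nsq (RM (1 : ℂ) i x.2)) (F ×ˢ {0}ᶜ) :=
    continuousOn_sum_prod _
      (fun i _ => (lapaux_contDiffOn isOpen_F (contDiffOn_eps i) v).continuousOn)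
      fun i _ => (continuous_nsqRM i).continuousOn
  exact h.congr fun x hx => fd_HH x.2 hx.1 v

lemma continuousOn_lap_HH : ContinuousOn (fun x : ℂ × X3 =>
    lap2 (fun z => HH z x.2) x.1) (F ×ˢ {0}ᶜ) := by
  have h : ContinuousOn (fun x : ℂ × X3 => ∑ i : Mv, lap2 (eps i) x.1 *
      nsq (RM (1 : ℂ) i x.2)) (F ×ˢ {0}ᶜ) :=
    continuousOn_sum_prod _
      (fun i _ => (contDiffOn_lap2 isOpen_F (contDiffOn_eps i)).continuousOn)
      fun i _ => (continuous_nsqRM i).continuousOn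
  exact h.congr fun x hx => lap_HH x.2 hx.1

lemma fd_logHH {p : X3} (hp : p ≠ 0) {z : ℂ} (hz : z ∈ F) (v : ℂ) :
    fderiv ℝ (fun u => Real.log (HH u p)) z v = (HH z p)⁻¹ * fderiv ℝ (fun u => HH u p) z v := by
  have h1 : DifferentiableAt ℝ (fun u => HH u p) z := (HH_at p hz).differentiableAt (by simp)
  have := (h1.hasFDerivAt.log (HH_pos hz hp).ne').fderiv
  rw [this]
  simp

lemma logHH_at {p : X3} (hp : p ≠ 0) {z : ℂ} (hz : z ∈ F) :
    ContDiffAt ℝ ∞ (fun u => Real.log (HH u p)) z :=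
  (HH_at p hz).log (HH_pos hz hp).ne'

lemma continuousOn_fderiv_logHH (v : ℂ) : ContinuousOn (fun x : ℂ × X3 =>
    fderiv ℝ (fun z => Real.log (HH z x.2)) x.1 v) (F ×ˢ {0}ᶜ) := by
  have h := (continuousOn_HH'.inv₀ fun x hx => (HH_pos hx.1 hx.2).ne').mul (continuousOn_fd_HH v)
  exact h.congr fun x hx => fd_logHH hx.2 hx.1 v

lemma lap_logHH {p : X3} (hp : p ≠ 0) {z : ℂ} (hz : z ∈ F) :
    lap2 (fun u => Real.log (HH u p)) z = (HH z p)⁻¹ * lap2 (fun u => HH u p) z +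
      (-((HH z p) ^ 2)⁻¹) * gr2 (fun u => HH u p) z := by
  have hne := (HH_pos hz hp).ne'
  rw [lap2_comp (χ := Real.log) ((HH_at p hz).of_le two_le_inf) (Real.contDiffAt_log.2 hne)]
  rw [Real.deriv_log']
  congr 2
  rw [deriv_inv']

lemma continuousOn_gr_HH : ContinuousOn (fun x : ℂ × X3 =>
    gr2 (fun z => HH z x.2) x.1) (F ×ˢ {0}ᶜ) := by
  unfold gr2
  exact ((continuousOn_fd_HH 1).pow 2).add ((continuousOn_fd_HH Complex.I).pow 2)

lemma continuousOn_lap2_logHH : ContinuousOn (fun x : ℂ × X3 =>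
    lap2 (fun z => Real.log (HH z x.2)) x.1) (F ×ˢ {0}ᶜ) := by
  have h := ((continuousOn_HH'.inv₀ fun x hx => (HH_pos hx.1 hx.2).ne').mul
    continuousOn_lap_HH).add
    ((((continuousOn_HH'.pow 2).inv₀ fun x hx => pow_ne_zero 2 (HH_pos hx.1 hx.2).ne').neg).mul
      continuousOn_gr_HH)
  exact h.congr fun x hx => lap_logHH hx.2 hx.1

variable {f : ℂ → X3 → ℝ}

lemma TF3.act (hf : TF3 f) {i : Mv} {z : ℂ} (hz : z ∈ dom i) {p : X3} (hp : p ≠ 0) :
    f (act i z) (RM (1 : ℂ) i p) = f z p := by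
  cases i with
  | none => rfl
  | some b => exact hf.mo b z hz p hp

lemma TF3.scale (hf : TF3 f) {z : ℂ} (hz : z ∈ F) {p : X3} (hp : p ≠ 0) :
    f z ((la : ℂ) • p) = f z p := by
  obtain ⟨n, α, β, _, _, h3, h4⟩ := hf.sum
  have hp' : (la : ℂ) • p ≠ 0 := smul_ne_zero lac_ne hp
  rw [h4 z hz _ hp', h4 z hz p hp]
  exact Finset.sum_congr rfl fun k _ => by rw [h3 k p hp]

lemma TF3.smooth (hf : TF3 f) {p : X3} (hp : p ≠ 0) : ContDiffOn ℝ ∞ (fun z => f z p) F := by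
  obtain ⟨n, α, β, h1, _, _, h4⟩ := hf.sum
  have h : ContDiffOn ℝ ∞ (fun z => ∑ k, α k z * β k p) F :=
    ContDiffOn.sum fun k _ => (h1 k).mul contDiffOn_const
  exact h.congr fun z hz => h4 z hz p hp

lemma bt_smooth (hf : TF3 f) {p : X3} (hp : p ≠ 0) : ContDiffOn ℝ ∞ (fun z => bt f z p) F := by
  unfold bt
  exact ((contDiffOn_HH p).log fun z hz => (HH_pos hz hp).ne').sub (hf.smooth hp)

lemma bt_scale (hf : TF3 f) {z : ℂ} (hz : z ∈ F) {p : X3} (hp : p ≠ 0) :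
    bt f z ((la : ℂ) • p) = bt f z p + 2 * Real.log la := by
  unfold bt
  rw [hf.scale hz hp, HH_smul, Complex.norm_real, Real.norm_of_nonneg la_pos.le,
    Real.log_mul (pow_ne_zero 2 la_ne) (HH_pos hz hp).ne', Real.log_pow]
  push_cast
  ring

lemma bt_act (hf : TF3 f) {i : Mv} {z : ℂ} (hz : z ∈ dom i) {p : X3} (hp : p ≠ 0) :
    bt f (Pool.Agent.H5.EC.act i z) (RM (1 : ℂ) i p) = bt f z p := by
  unfold bt
  rw [HH_act hz, hf.act hz hp]

lemma ph_pos (z : ℂ) (p : X3) : 0 < ph f z p := Real.exp_pos _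

lemma ph_smooth (hf : TF3 f) {p : X3} (hp : p ≠ 0) : ContDiffOn ℝ ∞ (fun z => ph f z p) F := by
  unfold ph
  exact (contDiffOn_const.mul (bt_smooth hf hp)).exp

lemma ph_scale (hf : TF3 f) {z : ℂ} (hz : z ∈ F) {p : X3} (hp : p ≠ 0) :
    ph f z ((la : ℂ) • p) = la ^ (-3 : ℤ) * ph f z p := by
  unfold ph
  rw [bt_scale hf hz hp]
  have e : -(3 / 2) * (bt f z p + 2 * Real.log la) = Real.log la * (-3 : ℝ) +
      -(3 / 2) * bt f z p := by ring
  rw [e, Real.exp_add]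
  congr 1
  rw [← Real.rpow_def_of_pos la_pos]
  have : (-3 : ℝ) = ((-3 : ℤ) : ℝ) := by norm_num
  rw [this, Real.rpow_intCast]

lemma ph_act (hf : TF3 f) {i : Mv} {z : ℂ} (hz : z ∈ dom i) {p : X3} (hp : p ≠ 0) :
    ph f (Pool.Agent.H5.EC.act i z) (RM (1 : ℂ) i p) = ph f z p := by
  unfold ph
  rw [bt_act hf hz hp]

/-- joint continuity -/
lemma continuousOn_f (hf : TF3 f) : ContinuousOn (fun x : ℂ × X3 => f x.1 x.2) (F ×ˢ {0}ᶜ) := by
  obtain ⟨n, α, β, h1, h2, _, h4⟩ := hf.sum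
  have h : ContinuousOn (fun x : ℂ × X3 => ∑ k, α k x.1 * β k x.2) (F ×ˢ {0}ᶜ) :=
    continuousOn_sum_prod _ (fun k _ => (h1 k).continuousOn) fun k _ => h2 k
  exact h.congr fun x hx => h4 x.1 hx.1 x.2 hx.2

lemma continuousOn_fd_f (hf : TF3 f) (v : ℂ) :
    ContinuousOn (fun x : ℂ × X3 => fderiv ℝ (fun z => f z x.2) x.1 v) (F ×ˢ {0}ᶜ) := by
  obtain ⟨n, α, β, h1, h2, _, h4⟩ := hf.sum
  have h : ContinuousOn (fun x : ℂ × X3 => ∑ k, fderiv ℝ (α k) x.1 v * β k x.2) (F ×ˢ {0}ᶜ) :=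
    continuousOn_sum_prod _ (fun k _ => (lapaux_contDiffOn isOpen_F (h1 k) v).continuousOn)
      fun k _ => h2 k
  refine h.congr fun x hx => ?_
  have he : (fun z => f z x.2) =ᶠ[𝓝 x.1] fun z => ∑ k, α k z * β k x.2 := by
    filter_upwards [isOpen_F.mem_nhds hx.1] with z hz
    exact h4 z hz x.2 hx.2
  show fderiv ℝ (fun z => f z x.2) x.1 v = _
  rw [he.fderiv_eq]
  exact fd_sum_prod _ (fun k _ => (h1 k).contDiffAt (isOpen_F.mem_nhds hx.1)) _ v

lemma continuousOn_lap_f (hf : TF3 f) :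
    ContinuousOn (fun x : ℂ × X3 => lap2 (fun z => f z x.2) x.1) (F ×ˢ {0}ᶜ) := by
  obtain ⟨n, α, β, h1, h2, _, h4⟩ := hf.sum
  have h : ContinuousOn (fun x : ℂ × X3 => ∑ k, lap2 (α k) x.1 * β k x.2) (F ×ˢ {0}ᶜ) :=
    continuousOn_sum_prod _ (fun k _ => (contDiffOn_lap2 isOpen_F (h1 k)).continuousOn)
      fun k _ => h2 k
  refine h.congr fun x hx => ?_
  have he : (fun z => f z x.2) =ᶠ[𝓝 x.1] fun z => ∑ k, α k z * β k x.2 := by
    filter_upwards [isOpen_F.mem_nhds hx.1] with z hz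
    exact h4 z hz x.2 hx.2
  show lap2 (fun z => f z x.2) x.1 = _
  rw [lap2_congr he]
  exact lap_sum_prod _ (fun k _ => (h1 k).contDiffAt (isOpen_F.mem_nhds hx.1)) _

lemma continuousOn_bt (hf : TF3 f) : ContinuousOn (fun x : ℂ × X3 => bt f x.1 x.2) (F ×ˢ {0}ᶜ) := by
  unfold bt
  exact continuousOn_logHH.sub (continuousOn_f hf)

lemma continuousOn_ph (hf : TF3 f) : ContinuousOn (fun x : ℂ × X3 => ph f x.1 x.2) (F ×ˢ {0}ᶜ) := by
  unfold ph
  exact (continuousOn_const.mul (continuousOn_bt hf)).rexp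

lemma f_at (hf : TF3 f) {p : X3} (hp : p ≠ 0) {z : ℂ} (hz : z ∈ F) :
    ContDiffAt ℝ ∞ (fun u => f u p) z := (hf.smooth hp).contDiffAt (isOpen_F.mem_nhds hz)

lemma bt_at (hf : TF3 f) {p : X3} (hp : p ≠ 0) {z : ℂ} (hz : z ∈ F) :
    ContDiffAt ℝ ∞ (fun u => bt f u p) z := (bt_smooth hf hp).contDiffAt (isOpen_F.mem_nhds hz)

lemma fd_bt (hf : TF3 f) {p : X3} (hp : p ≠ 0) {z : ℂ} (hz : z ∈ F) (v : ℂ) :
    fderiv ℝ (fun u => bt f u p) z v = fderiv ℝ (fun u => Real.log (HH u p)) z v -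
      fderiv ℝ (fun u => f u p) z v := by
  have h1 : DifferentiableAt ℝ (fun u => Real.log (HH u p)) z :=
    (logHH_at hp hz).differentiableAt (by simp)
  have h2 : DifferentiableAt ℝ (fun u => f u p) z := (f_at hf hp hz).differentiableAt (by simp)
  have e : (fun u => bt f u p) = fun u => Real.log (HH u p) - f u p := rfl
  rw [e, fderiv_fun_sub h1 h2]
  rfl

lemma continuousOn_fd_bt (hf : TF3 f) (v : ℂ) :
    ContinuousOn (fun x : ℂ × X3 => fderiv ℝ (fun z => bt f z x.2) x.1 v) (F ×ˢ {0}ᶜ) :=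
  ((continuousOn_fderiv_logHH v).sub (continuousOn_fd_f hf v)).congr
    fun _x hx => fd_bt hf hx.2 hx.1 v

lemma continuousOn_gr2_bt (hf : TF3 f) :
    ContinuousOn (fun x : ℂ × X3 => gr2 (fun z => bt f z x.2) x.1) (F ×ˢ {0}ᶜ) := by
  unfold gr2
  exact ((continuousOn_fd_bt hf 1).pow 2).add ((continuousOn_fd_bt hf Complex.I).pow 2)

lemma continuousOn_lap2_bt (hf : TF3 f) :
    ContinuousOn (fun x : ℂ × X3 => lap2 (fun z => bt f z x.2) x.1) (F ×ˢ {0}ᶜ) := by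
  refine (continuousOn_lap2_logHH.sub (continuousOn_lap_f hf)).congr fun x hx => ?_
  exact lap2_sub ((logHH_at hx.2 hx.1).of_le two_le_inf) ((f_at hf hx.2 hx.1).of_le two_le_inf)

lemma gr2_ph (hf : TF3 f) {z : ℂ} (hz : z ∈ F) {p : X3} (hp : p ≠ 0) :
    gr2 (fun z => ph f z p) z = (9 / 4) * (ph f z p) ^ 2 * gr2 (fun z => bt f z p) z := by
  have hχ : ContDiff ℝ 1 (fun t : ℝ => Real.exp (-(3 / 2) * t)) := by fun_prop
  have h := gr2_comp (a := fun z => bt f z p) (χ := fun t : ℝ => Real.exp (-(3 / 2) * t))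
    (z := z) ((bt_at hf hp hz).of_le one_le_inf) hχ.contDiffAt
  have hd : deriv (fun t : ℝ => Real.exp (-(3 / 2) * t)) (bt f z p) =
      -(3 / 2) * Real.exp (-(3 / 2) * bt f z p) := by
    have : HasDerivAt (fun t : ℝ => Real.exp (-(3 / 2) * t))
        (Real.exp (-(3 / 2) * bt f z p) * (-(3 / 2) * 1)) (bt f z p) :=
      ((hasDerivAt_id _).const_mul _).exp
    rw [this.deriv]
    ring
  rw [hd] at h
  have e : (fun z => ph f z p) = fun z => Real.exp (-(3 / 2) * bt f z p) := rfl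
  rw [e, h]
  unfold ph
  ring

lemma lap2_ph_sq (hf : TF3 f) {z : ℂ} (hz : z ∈ F) {p : X3} (hp : p ≠ 0) :
    lap2 (fun z => (ph f z p) ^ 2) z =
      4 * gr2 (fun z => ph f z p) z - 3 * (ph f z p) ^ 2 * lap2 (fun z => bt f z p) z := by
  rw [gr2_ph hf hz hp]
  have hχ : ContDiff ℝ 2 (fun t : ℝ => Real.exp (-3 * t)) := by fun_prop
  have h := lap2_comp (a := fun z => bt f z p) (χ := fun t : ℝ => Real.exp (-3 * t))
    (z := z) ((bt_at hf hp hz).of_le two_le_inf) hχ.contDiffAt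
  have hd : ∀ s : ℝ, deriv (fun t : ℝ => Real.exp (-3 * t)) s = -3 * Real.exp (-3 * s) := by
    intro s
    have : HasDerivAt (fun t : ℝ => Real.exp (-3 * t)) (Real.exp (-3 * s) * (-3 * 1)) s :=
      ((hasDerivAt_id _).const_mul _).exp
    rw [this.deriv]
    ring
  have hdd : deriv (deriv (fun t : ℝ => Real.exp (-3 * t))) (bt f z p) =
      9 * Real.exp (-3 * bt f z p) := by
    have e : deriv (fun t : ℝ => Real.exp (-3 * t)) = fun s => -3 * Real.exp (-3 * s) := funext hd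
    rw [e, deriv_const_mul_field, hd]
    ring
  rw [hd, hdd] at h
  have e : (fun z => (ph f z p) ^ 2) = fun z => Real.exp (-3 * bt f z p) := by
    funext u
    unfold ph
    rw [← Real.exp_nat_mul]
    congr 1
    push_cast
    ring
  have e2 : (ph f z p) ^ 2 = Real.exp (-3 * bt f z p) := congrFun e z
  rw [e, h, e2]
  ring

/-- the shell -/
lemma Sh3_ne {p : X3} (hp : p ∈ Sh3) : p ≠ 0 := by
  rintro rfl
  have h := hp.1
  have h0 : nsq (0 : X3) = 0 := by simp [nsq]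
  rw [h0] at h
  exact absurd h (not_lt.2 (sq_nonneg la))

lemma measurableSet_Sh3 : MeasurableSet Sh3 := by
  have h1 : MeasurableSet {p : X3 | la ^ 2 < nsq p} :=
    (isOpen_lt continuous_const continuous_nsq).measurableSet
  have h2 : MeasurableSet {p : X3 | nsq p ≤ 1} :=
    (isClosed_le continuous_nsq continuous_const).measurableSet
  exact h1.inter h2

/-- the closed shell is compact and avoids the origin -/
lemma isCompact_cSh3 : IsCompact {p : X3 | la ^ 2 ≤ nsq p ∧ nsq p ≤ 1} := by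
  apply Metric.isCompact_of_isClosed_isBounded
  · exact (isClosed_le continuous_const continuous_nsq).inter
      (isClosed_le continuous_nsq continuous_const)
  · refine (Metric.isBounded_closedBall (x := (0 : X3)) (r := 1)).subset ?_
    rintro p ⟨_, h⟩
    rw [mem_closedBall_zero_iff]
    unfold nsq at h
    have h1 : ‖p.1.1‖ ≤ 1 := by
      nlinarith [sq_nonneg ‖p.1.1‖, sq_nonneg ‖p.1.2‖, sq_nonneg ‖p.2‖, norm_nonneg p.1.1]
    have h2 : ‖p.1.2‖ ≤ 1 := by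
      nlinarith [sq_nonneg ‖p.1.1‖, sq_nonneg ‖p.1.2‖, sq_nonneg ‖p.2‖, norm_nonneg p.1.2]
    have h3 : ‖p.2‖ ≤ 1 := by
      nlinarith [sq_nonneg ‖p.1.1‖, sq_nonneg ‖p.1.2‖, sq_nonneg ‖p.2‖, norm_nonneg p.2]
    exact max_le (max_le h1 h2) h3

lemma Sh3_subset : Sh3 ⊆ {p : X3 | la ^ 2 ≤ nsq p ∧ nsq p ≤ 1} := fun _ h => ⟨h.1.le, h.2⟩

lemma volume_Sh3_lt_top : volume Sh3 < ⊤ :=
  lt_of_le_of_lt (measure_mono Sh3_subset) isCompact_cSh3.measure_lt_top

lemma volume_Sh3_pos : 0 < volume Sh3 := by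
  have ho : IsOpen {p : X3 | la ^ 2 < nsq p ∧ nsq p < 1} :=
    (isOpen_lt continuous_const continuous_nsq).inter (isOpen_lt continuous_nsq continuous_const)
  have hne : {p : X3 | la ^ 2 < nsq p ∧ nsq p < 1}.Nonempty := by
    refine ⟨(((((1 + la) / 2 : ℝ) : ℂ), 0), 0), ?_⟩
    have h1 := la_pos
    have h2 := la_lt_one
    have e : nsq (((((1 + la) / 2 : ℝ) : ℂ), 0), 0) = ((1 + la) / 2) ^ 2 := by
      unfold nsq
      simp only [Complex.norm_real, norm_zero]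
      rw [Real.norm_of_nonneg (by positivity)]
      ring
    show la ^ 2 < nsq _ ∧ nsq _ < 1
    rw [e]
    constructor <;> nlinarith
  refine lt_of_lt_of_le (ho.measure_pos volume hne) (measure_mono ?_)
  rintro p ⟨h1, h2⟩
  exact ⟨h1, h2.le⟩

end Pool.Agent.H5.EC
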