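import Pool.Agent.H5.EC.E1

/-! Part E2: integration over the shell is invariant under the holonomy. -/

open Set Topology MeasureTheory
open scoped Manifold ContDiff ENNReal

noncomputable section

namespace Pool.Agent.H5.EC

lemma mp_mul (c : ℂ) (hc : ‖c‖ = 1) : MeasurePreserving (fun z : ℂ => c * z) volume volume := by
  have h := (rotation ⟨c, by simpa [Submonoid.unitSphere] using hc⟩).measurePreserving
  exact h

lemma mp_X3 {f : ℂ × ℂ → ℂ × ℂ} (hf : MeasurePreserving f volume volume) :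
    MeasurePreserving (fun p : X3 => (f p.1, p.2)) volume volume := by
  have h := hf.prod (MeasurePreserving.id (volume : Measure ℂ))
  exact h

lemma mp_shear_add (c : ℂ) : MeasurePreserving (fun p : ℂ × ℂ => (p.1, p.2 + c * p.1)) volume volume := by
  have h := (MeasurePreserving.id (volume : Measure ℂ)).skew_product
    (μc := (volume : Measure ℂ)) (μd := (volume : Measure ℂ)) (g := fun a b => b + c * a)
    (by fun_prop) (Filter.Eventually.of_forall fun a =>
      (measurePreserving_add_right (volume : Measure ℂ) (c * a)).map_eq)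
  exact h

lemma mp_swap : MeasurePreserving (Prod.swap : ℂ × ℂ → ℂ × ℂ) volume volume :=
  Measure.measurePreserving_swap

lemma mp_neg : MeasurePreserving (fun z : ℂ => -z) volume volume :=
  Measure.measurePreserving_neg _

lemma mp_shear_t (c : ℂ) : MeasurePreserving (fun p : X3 => (p.1, p.2 + c * p.1.1)) volume volume := by
  have h := (MeasurePreserving.id (volume : Measure (ℂ × ℂ))).skew_product
    (μc := (volume : Measure ℂ)) (μd := (volume : Measure ℂ))
    (g := fun (a : ℂ × ℂ) (b : ℂ) => b + c * a.1)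
    (by fun_prop) (Filter.Eventually.of_forall fun a =>
      (measurePreserving_add_right (volume : Measure ℂ) (c * a.1)).map_eq)
  exact h

lemma norm_expI : ‖Complex.exp Complex.I‖ = 1 := by
  have := Complex.norm_exp_ofReal_mul_I 1
  simpa using this

lemma norm_expnI : ‖Complex.exp (-Complex.I)‖ = 1 := by
  rw [Complex.exp_neg, norm_inv, norm_expI, inv_one]

lemma measurePreserving_RM (i : Mv) :
    MeasurePreserving (fun p : X3 => RM (1 : ℂ) i p) volume volume := by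
  revert i
  apply Mv_rec
  · exact MeasurePreserving.id _
  · have h := mp_X3 ((mp_mul _ norm_expI).prod (mp_mul _ norm_expnI))
    simp only [RM_zero_true]
    exact h
  · have h := mp_X3 ((mp_mul _ norm_expnI).prod (mp_mul _ norm_expI))
    simp only [RM_zero_false]
    exact h
  · have h := mp_X3 ((mp_swap.comp (mp_shear_add 1)).comp mp_swap)
    simp only [RM_one_true]
    convert h using 2 with p
    simp [Prod.swap]
  · have h := mp_X3 ((mp_swap.comp (mp_shear_add (-1))).comp mp_swap)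
    simp only [RM_one_false]
    convert h using 2 with p
    simp [Prod.swap, sub_eq_add_neg]
  · have h := mp_X3 (((MeasurePreserving.id (volume : Measure ℂ)).prod mp_neg).comp mp_swap)
    simp only [RM_two_true]
    exact h
  · have h := mp_X3 (((mp_neg).prod (MeasurePreserving.id (volume : Measure ℂ))).comp mp_swap)
    simp only [RM_two_false]
    exact h
  · have h := mp_shear_t 1
    simp only [RM_three_true]
    convert h using 2 with p
    simp
  · have h := mp_shear_t (-1)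
    simp only [RM_three_false]
    convert h using 2 with p
    simp [sub_eq_add_neg]

instance haarC2 : (volume : Measure (ℂ × ℂ)).IsAddHaarMeasure := by
  rw [Measure.volume_eq_prod]
  infer_instance

instance haarX3 : (volume : Measure X3).IsAddHaarMeasure := by
  rw [Measure.volume_eq_prod]
  infer_instance

/-- the indicator function of the shell -/
def chi (p : X3) : ℝ≥0∞ := Sh3.indicator (fun _ => 1) p

lemma measurable_chi : Measurable chi := measurable_const.indicator measurableSet_Sh3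

lemma nsq_zpow_smul (k : ℤ) (p : X3) : nsq (((la : ℂ) ^ k) • p) = (la ^ 2) ^ k * nsq p := by
  rw [nsq_smul, norm_zpow, Complex.norm_real, Real.norm_of_nonneg la_pos.le]
  congr 1
  rw [← zpow_natCast, ← zpow_natCast, ← zpow_mul, ← zpow_mul, mul_comm]

lemma la2_pos : 0 < la ^ 2 := by have := la_pos; positivity

lemma la2_lt_one : la ^ 2 < 1 := by
  have h1 := la_pos
  have h2 := la_lt_one
  nlinarith

lemma exists_shell3 {p : X3} (hp : p ≠ 0) : ∃ k : ℤ, ((la : ℂ) ^ k) • p ∈ Sh3 := by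
  obtain ⟨k, hk⟩ := exists_shell (m := (p, 0)) hp
  exact ⟨k, hk⟩

lemma shell3_unique {p : X3} {k l : ℤ} (hk : ((la : ℂ) ^ k) • p ∈ Sh3)
    (hl : ((la : ℂ) ^ l) • p ∈ Sh3) : k = l := by
  have key : ∀ {k l : ℤ}, ((la : ℂ) ^ k) • p ∈ Sh3 → ((la : ℂ) ^ l) • p ∈ Sh3 → ¬ k < l := by
    intro k l hk hl hlt
    obtain ⟨h1, h2⟩ := hk
    obtain ⟨h3, h4⟩ := hl
    rw [nsq_zpow_smul] at h1 h2 h3 h4
    have e : (la ^ 2) ^ l = (la ^ 2) ^ (l - k) * (la ^ 2) ^ k := by
      rw [← zpow_add₀ la2_pos.ne']; congr 1; ring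
    have h5 : (la ^ 2) ^ (l - k) ≤ la ^ 2 := by
      have := zpow_le_zpow_right_of_le_one₀ la2_pos la2_lt_one.le (show (1 : ℤ) ≤ l - k by omega)
      simpa using this
    have h6 : 0 ≤ (la ^ 2) ^ k * nsq p := mul_nonneg (zpow_pos la2_pos _).le (nsq_nonneg p)
    rw [e, mul_assoc] at h3
    have h7 : (la ^ 2) ^ (l - k) * ((la ^ 2) ^ k * nsq p) ≤ la ^ 2 * 1 :=
      mul_le_mul h5 h2 h6 la2_pos.le
    linarith
  rcases lt_trichotomy k l with h | h | h
  · exact absurd h (key hk hl)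
  · exact h
  · exact absurd h (key hl hk)

lemma tsum_chi {p : X3} (hp : p ≠ 0) : ∑' k : ℤ, chi (((la : ℂ) ^ k) • p) = 1 := by
  obtain ⟨k, hk⟩ := exists_shell3 hp
  rw [tsum_eq_single k]
  · unfold chi
    rw [indicator_of_mem hk]
  · intro l hl
    unfold chi
    rw [indicator_of_notMem]
    intro h
    exact hl (shell3_unique h hk)

lemma coe_smul_X3 (c : ℝ) (p : X3) : ((c : ℂ)) • p = c • p := by
  rcases p with ⟨⟨a, b⟩, t⟩
  rfl

lemma finrank_X3 : Module.finrank ℝ X3 = 6 := by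
  rw [Module.finrank_prod, Module.finrank_prod, Complex.finrank_real_complex]

/-- scaling of the Lebesgue integral -/
lemma lintegral_scale (k : ℤ) {g : X3 → ℝ≥0∞} (hg : Measurable g) :
    ∫⁻ p, g (((la : ℂ) ^ k) • p) = ENNReal.ofReal ((la ^ (-6 : ℤ)) ^ k) * ∫⁻ p, g p := by
  have hr : la ^ k ≠ 0 := (zpow_pos la_pos k).ne'
  have h := Measure.map_addHaar_smul (volume : Measure X3) hr
  have e : ∀ p : X3, ((la : ℂ) ^ k) • p = (la ^ k : ℝ) • p := by
    intro p
    rw [← coe_smul_X3]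
    push_cast
    rfl
  simp only [e]
  rw [← lintegral_map hg (by fun_prop), h, lintegral_smul_measure, finrank_X3, smul_eq_mul]
  congr 2
  rw [abs_of_pos (inv_pos.2 (pow_pos (zpow_pos la_pos k) 6)), ← zpow_natCast, ← zpow_mul,
    ← zpow_neg, ← zpow_mul]
  congr 1
  push_cast
  ring

lemma hom_zpow {w : X3 → ℝ≥0∞}
    (hh : ∀ p : X3, p ≠ 0 → w ((la : ℂ) • p) = ENNReal.ofReal (la ^ (-6 : ℤ)) * w p)
    (k : ℤ) {p : X3} (hp : p ≠ 0) :
    w (((la : ℂ) ^ k) • p) = ENNReal.ofReal ((la ^ (-6 : ℤ)) ^ k) * w p := by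
  have hc : 0 < la ^ (-6 : ℤ) := zpow_pos la_pos _
  have hn : ∀ (n : ℕ) {p : X3}, p ≠ 0 →
      w (((la : ℂ) ^ (n : ℤ)) • p) = ENNReal.ofReal ((la ^ (-6 : ℤ)) ^ (n : ℤ)) * w p := by
    intro n
    induction n with
    | zero => intro p hp; simp
    | succ n ih =>
      intro p hp
      have e : ((la : ℂ) ^ ((n + 1 : ℕ) : ℤ)) • p = (la : ℂ) • (((la : ℂ) ^ (n : ℤ)) • p) := by
        rw [smul_smul]
        congr 1
        push_cast
        rw [zpow_add_one₀ lac_ne, mul_comm]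
      rw [e, hh _ (smul_ne_zero (zpow_ne_zero _ lac_ne) hp), ih hp, ← mul_assoc,
        ← ENNReal.ofReal_mul hc.le]
      congr 2
      push_cast
      rw [zpow_add_one₀ hc.ne', mul_comm]
  rcases Int.eq_nat_or_neg k with ⟨n, rfl | rfl⟩
  · exact hn n hp
  · have hq : (((la : ℂ) ^ (-(n : ℤ))) • p) ≠ 0 := smul_ne_zero (zpow_ne_zero _ lac_ne) hp
    have h := hn n hq
    rw [smul_smul, ← zpow_add₀ lac_ne, add_neg_cancel, zpow_zero, one_smul] at h
    rw [h, ← mul_assoc, ← ENNReal.ofReal_mul (zpow_pos hc _).le, ← zpow_add₀ hc.ne',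
      neg_add_cancel, zpow_zero, ENNReal.ofReal_one, one_mul]

lemma ae_ne_zero : ∀ᵐ p : X3, p ≠ 0 := by
  have h : volume ({0} : Set X3) = 0 := measure_singleton 0
  rw [ae_iff]
  simp

/-- invariance, for functions homogeneous of degree `-6` -/
lemma lintegral_shell (i : Mv) {w : X3 → ℝ≥0∞} (hw : Measurable w)
    (hh : ∀ p : X3, p ≠ 0 → w ((la : ℂ) • p) = ENNReal.ofReal (la ^ (-6 : ℤ)) * w p) :
    ∫⁻ p in Sh3, w (RM (1 : ℂ) i p) = ∫⁻ p in Sh3, w p := by
  have hRm : ∀ j : Mv, Measurable (fun p : X3 => RM (1 : ℂ) j p) := fun j =>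
    (RM (1 : ℂ) j).continuous.measurable
  have hinv : ∀ p : X3, RM (1 : ℂ) i.inv (RM (1 : ℂ) i p) = p := fun p => RM_inv_apply 1 i p
  have hlin : ∀ (j : Mv) (c : ℂ) (p : X3), RM (1 : ℂ) j (c • p) = c • RM (1 : ℂ) j p :=
    fun j c p => map_smul _ c p
  have hne : ∀ (j : Mv) (p : X3), p ≠ 0 → RM (1 : ℂ) j p ≠ 0 := by
    intro j p hp h
    apply hp
    exact (map_eq_zero_iff _ (RM (1 : ℂ) j).injective).1 h
  have hset : ∀ g : X3 → ℝ≥0∞, ∫⁻ p in Sh3, g p = ∫⁻ p, chi p * g p := by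
    intro g
    rw [← lintegral_indicator measurableSet_Sh3]
    congr 1
    funext p
    unfold chi
    by_cases h : p ∈ Sh3
    · simp [h]
    · simp [h]
  have hcs : ∀ k : ℤ, Measurable fun p : X3 => chi (((la : ℂ) ^ k) • p) := fun k =>
    measurable_chi.comp (measurable_const_smul _)
  rw [hset, hset]
  calc ∫⁻ p, chi p * w (RM (1 : ℂ) i p)
      = ∫⁻ p, (fun q => chi (RM (1 : ℂ) i.inv q) * w q) (RM (1 : ℂ) i p) := by
        simp only [hinv]
    _ = ∫⁻ q, chi (RM (1 : ℂ) i.inv q) * w q := by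
        have hm : Measurable (fun q => chi (RM (1 : ℂ) i.inv q) * w q) :=
          (measurable_chi.comp (hRm _)).mul hw
        exact (measurePreserving_RM i).lintegral_comp hm
    _ = ∫⁻ q, ∑' k : ℤ, chi (((la : ℂ) ^ k) • q) * (chi (RM (1 : ℂ) i.inv q) * w q) := by
        apply lintegral_congr_ae
        filter_upwards [ae_ne_zero] with q hq
        rw [ENNReal.tsum_mul_right, tsum_chi hq, one_mul]
    _ = ∑' k : ℤ, ∫⁻ q, chi (((la : ℂ) ^ k) • q) * (chi (RM (1 : ℂ) i.inv q) * w q) := by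
        rw [lintegral_tsum]
        intro k
        exact ((hcs k).mul ((measurable_chi.comp (hRm _)).mul hw)).aemeasurable
    _ = ∑' k : ℤ, ∫⁻ q, chi (((la : ℂ) ^ (-k)) • RM (1 : ℂ) i.inv q) * (chi q * w q) := by
        congr 1
        funext k
        have hm : Measurable (fun q => chi (((la : ℂ) ^ (-k)) • RM (1 : ℂ) i.inv q) *
            (chi q * w q)) :=
          ((hcs (-k)).comp (hRm _)).mul (measurable_chi.mul hw)
        have h1 := lintegral_scale k hm
        have hc : 0 < (la ^ (-6 : ℤ)) ^ k := zpow_pos (zpow_pos la_pos _) _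
        have hc1 : ENNReal.ofReal ((la ^ (-6 : ℤ)) ^ k) ≠ 0 := by
          rw [Ne, ENNReal.ofReal_eq_zero, not_le]; exact hc
        apply (ENNReal.mul_right_inj hc1 ENNReal.ofReal_ne_top).1
        rw [← h1, ← lintegral_const_mul' _ _ ENNReal.ofReal_ne_top]
        apply lintegral_congr_ae
        filter_upwards [ae_ne_zero] with q hq
        rw [hlin, smul_smul, ← zpow_add₀ lac_ne, neg_add_cancel, zpow_zero, one_smul,
          hom_zpow hh k hq]
        ring
    _ = ∫⁻ q, ∑' k : ℤ, chi (((la : ℂ) ^ (-k)) • RM (1 : ℂ) i.inv q) * (chi q * w q) := by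
        rw [lintegral_tsum]
        intro k
        exact (((hcs (-k)).comp (hRm _)).mul (measurable_chi.mul hw)).aemeasurable
    _ = ∫⁻ q, chi q * w q := by
        apply lintegral_congr_ae
        filter_upwards [ae_ne_zero] with q hq
        rw [ENNReal.tsum_mul_right]
        have h2 := (Equiv.neg ℤ).tsum_eq (fun k : ℤ => chi (((la : ℂ) ^ k) • RM (1 : ℂ) i.inv q))
        simp only [Equiv.neg_apply] at h2
        rw [h2, tsum_chi (hne _ _ hq), one_mul]

lemma integral_shell (i : Mv) {w : X3 → ℝ} (hw : Measurable w)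
    (hh : ∀ p : X3, p ≠ 0 → w ((la : ℂ) • p) = la ^ (-6 : ℤ) * w p) :
    ∫ p in Sh3, w (RM (1 : ℂ) i p) = ∫ p in Sh3, w p := by
  have hc : 0 ≤ la ^ (-6 : ℤ) := (zpow_pos la_pos _).le
  have hR : Measurable (fun p : X3 => RM (1 : ℂ) i p) := (RM (1 : ℂ) i).continuous.measurable
  have hwR : Measurable (fun p : X3 => w (RM (1 : ℂ) i p)) := hw.comp hR
  have hpos := lintegral_shell i (w := fun p => ENNReal.ofReal (w p)) hw.ennreal_ofReal
    (fun p hp => by rw [hh p hp, ENNReal.ofReal_mul hc])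
  have hneg := lintegral_shell i (w := fun p => ENNReal.ofReal (-w p)) hw.neg.ennreal_ofReal
    (fun p hp => by rw [hh p hp, ← mul_neg, ENNReal.ofReal_mul hc])
  have hen := lintegral_shell i (w := fun p => ‖w p‖ₑ) hw.enorm
    (fun p hp => by rw [hh p hp, enorm_mul, Real.enorm_eq_ofReal hc])
  by_cases hI : Integrable w (volume.restrict Sh3)
  · have hI2 : Integrable (fun p : X3 => w (RM (1 : ℂ) i p)) (volume.restrict Sh3) := by
      refine ⟨hwR.aestronglyMeasurable, ?_⟩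
      unfold HasFiniteIntegral
      rw [hen]
      exact hI.2
    rw [integral_eq_lintegral_pos_part_sub_lintegral_neg_part hI,
      integral_eq_lintegral_pos_part_sub_lintegral_neg_part hI2, hpos, hneg]
  · have hI2 : ¬ Integrable (fun p : X3 => w (RM (1 : ℂ) i p)) (volume.restrict Sh3) := by
      intro h
      apply hI
      refine ⟨hw.aestronglyMeasurable, ?_⟩
      unfold HasFiniteIntegral
      rw [← hen]
      exact h.2
    rw [integral_undef hI, integral_undef hI2]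

/-- powers of the shear -/
def us (k : ℕ) (p : X3) : X3 := ((p.1.1 + k * p.1.2, p.1.2), p.2)

lemma us_zero (p : X3) : us 0 p = p := by
  unfold us
  simp

lemma us_succ (k : ℕ) (p : X3) : us (k + 1) p = RM (1 : ℂ) (some (1, true)) (us k p) := by
  rw [RM_one_true]
  unfold us
  push_cast
  ring_nf

lemma measurable_us (k : ℕ) : Measurable (us k) := by
  unfold us
  fun_prop

lemma measurable_RM (i : Mv) : Measurable (fun p : X3 => RM (1 : ℂ) i p) :=
  (RM (1 : ℂ) i).continuous.measurable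

lemma RM_ne_zero3 (i : Mv) {p : X3} (hp : p ≠ 0) : RM (1 : ℂ) i p ≠ 0 := by
  intro h
  apply hp
  exact (map_eq_zero_iff _ (RM (1 : ℂ) i).injective).1 h

lemma us_ne (k : ℕ) {p : X3} (hp : p ≠ 0) : us k p ≠ 0 := by
  induction k with
  | zero => rwa [us_zero]
  | succ k ih => rw [us_succ]; exact RM_ne_zero3 _ ih

lemma us_smul (k : ℕ) (c : ℂ) (p : X3) : us k (c • p) = c • us k p := by
  rcases p with ⟨⟨a, b⟩, t⟩
  unfold us
  simp only [smul_eq_mul, Prod.smul_mk]
  ring_nf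

/-- homogeneity of degree `-6` -/
def H6 (w : X3 → ℝ≥0∞) : Prop :=
  ∀ p : X3, p ≠ 0 → w ((la : ℂ) • p) = ENNReal.ofReal (la ^ (-6 : ℤ)) * w p

lemma H6.comp_RM {w : X3 → ℝ≥0∞} (hh : H6 w) (i : Mv) :
    H6 (fun p => w (RM (1 : ℂ) i p)) := by
  intro p hp
  show w (RM (1 : ℂ) i ((la : ℂ) • p)) = _
  rw [map_smul, hh _ (RM_ne_zero3 i hp)]

lemma shell_us (k : ℕ) {w : X3 → ℝ≥0∞} (hw : Measurable w) (hh : H6 w) :
    ∫⁻ p in Sh3, w (us k p) = ∫⁻ p in Sh3, w p := by
  induction k generalizing w with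
  | zero => simp only [us_zero]
  | succ k ih =>
    simp only [us_succ]
    have h1 := ih (w := fun p => w (RM (1 : ℂ) (some (1, true)) p)) (hw.comp (measurable_RM _))
      (hh.comp_RM _)
    rw [h1]
    exact lintegral_shell _ hw hh

/-- homogeneity of degree `-3` -/
def H3 (ψ : X3 → ℝ) : Prop := ∀ p : X3, p ≠ 0 → ψ ((la : ℂ) • p) = la ^ (-3 : ℤ) * ψ p

lemma la_sq3 (x : ℝ) : (la ^ (-3 : ℤ) * x) ^ 2 = la ^ (-6 : ℤ) * x ^ 2 := by
  rw [mul_pow, ← zpow_natCast, ← zpow_mul]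
  norm_num

lemma H3.sq {ψ : X3 → ℝ} (h : H3 ψ) : H6 (fun p => ENNReal.ofReal ((ψ p) ^ 2)) := by
  intro p hp
  show ENNReal.ofReal ((ψ ((la : ℂ) • p)) ^ 2) = _
  rw [h p hp, la_sq3, ENNReal.ofReal_mul (zpow_pos la_pos _).le]

lemma H3.comp_RM {ψ : X3 → ℝ} (h : H3 ψ) (i : Mv) : H3 (fun p => ψ (RM (1 : ℂ) i p)) := by
  intro p hp
  show ψ (RM (1 : ℂ) i ((la : ℂ) • p)) = _
  rw [map_smul, h _ (RM_ne_zero3 i hp)]

lemma H3.comp_us {ψ : X3 → ℝ} (h : H3 ψ) (k : ℕ) : H3 (fun p => ψ (us k p)) := by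
  intro p hp
  show ψ (us k ((la : ℂ) • p)) = _
  rw [us_smul, h _ (us_ne k hp)]

lemma H3.sub {ψ φ : X3 → ℝ} (h : H3 ψ) (h' : H3 φ) : H3 (fun p => ψ p - φ p) := by
  intro p hp
  show ψ ((la : ℂ) • p) - φ ((la : ℂ) • p) = _
  rw [h p hp, h' p hp, mul_sub]

lemma D_us_le {ψ : X3 → ℝ} (hm : Measurable ψ) (h : H3 ψ) (k : ℕ) :
    ∫⁻ p in Sh3, ENNReal.ofReal ((ψ (us k p) - ψ p) ^ 2) ≤
      (k : ℝ≥0∞) * (k * ∫⁻ p in Sh3,
        ENNReal.ofReal ((ψ (RM (1 : ℂ) (some (1, true)) p) - ψ p) ^ 2)) := by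
  set i : Mv := some (1, true)
  have h1 : ∀ p : X3, ENNReal.ofReal ((ψ (us k p) - ψ p) ^ 2) ≤
      (k : ℝ≥0∞) * ∑ j ∈ Finset.range k,
        ENNReal.ofReal ((ψ (RM (1 : ℂ) i (us j p)) - ψ (us j p)) ^ 2) := by
    intro p
    have e1 : ψ (us k p) - ψ p = ∑ j ∈ Finset.range k, (ψ (us (j + 1) p) - ψ (us j p)) := by
      rw [Finset.sum_range_sub (fun j => ψ (us j p)) k, us_zero]
    have e2 : (ψ (us k p) - ψ p) ^ 2 ≤
        (k : ℝ) * ∑ j ∈ Finset.range k, (ψ (us (j + 1) p) - ψ (us j p)) ^ 2 := by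
      rw [e1]
      have := sq_sum_le_card_mul_sum_sq (s := Finset.range k)
        (f := fun j => ψ (us (j + 1) p) - ψ (us j p))
      simpa using this
    calc ENNReal.ofReal ((ψ (us k p) - ψ p) ^ 2)
        ≤ ENNReal.ofReal ((k : ℝ) * ∑ j ∈ Finset.range k, (ψ (us (j + 1) p) - ψ (us j p)) ^ 2) :=
          ENNReal.ofReal_le_ofReal e2
      _ = _ := by
          rw [ENNReal.ofReal_mul (Nat.cast_nonneg k), ENNReal.ofReal_natCast,
            ENNReal.ofReal_sum_of_nonneg (fun _ _ => sq_nonneg _)]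
          simp only [us_succ]
          rfl
  have hmu : ∀ j : ℕ, Measurable fun p : X3 =>
      ENNReal.ofReal ((ψ (RM (1 : ℂ) i (us j p)) - ψ (us j p)) ^ 2) := by
    intro j
    have a1 : Measurable fun p : X3 => ψ (RM (1 : ℂ) i (us j p)) :=
      hm.comp ((measurable_RM i).comp (measurable_us j))
    have a2 : Measurable fun p : X3 => ψ (us j p) := hm.comp (measurable_us j)
    exact ((a1.sub a2).pow_const 2).ennreal_ofReal
  calc ∫⁻ p in Sh3, ENNReal.ofReal ((ψ (us k p) - ψ p) ^ 2)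
      ≤ ∫⁻ p in Sh3, (k : ℝ≥0∞) * ∑ j ∈ Finset.range k,
        ENNReal.ofReal ((ψ (RM (1 : ℂ) i (us j p)) - ψ (us j p)) ^ 2) :=
        lintegral_mono h1
    _ = (k : ℝ≥0∞) * ∑ j ∈ Finset.range k, ∫⁻ p in Sh3,
        ENNReal.ofReal ((ψ (RM (1 : ℂ) i (us j p)) - ψ (us j p)) ^ 2) := by
        rw [lintegral_const_mul' _ _ (ENNReal.natCast_ne_top k)]
        congr 1
        rw [lintegral_finsetSum]
        intro j _
        exact hmu j
    _ = _ := by
        congr 1
        have a1 : Measurable fun p : X3 => ψ (RM (1 : ℂ) i p) := hm.comp (measurable_RM i)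
        have a2 : Measurable fun p : X3 => ENNReal.ofReal ((ψ (RM (1 : ℂ) i p) - ψ p) ^ 2) :=
          ((a1.sub hm).pow_const 2).ennreal_ofReal
        rw [Finset.sum_congr rfl (fun j _ => shell_us j a2 ((h.comp_RM i).sub h).sq)]
        simp

lemma mass_compare {ψ : X3 → ℝ} (hm : Measurable ψ) {g : X3 → X3} (hg : Measurable g)
    {B : Set X3} (hB : MeasurableSet B) :
    ∫⁻ p in Sh3, B.indicator (fun q => ENNReal.ofReal ((ψ q) ^ 2)) p ≤
      ENNReal.ofReal (5 / 4) * (∫⁻ p in Sh3, B.indicator (fun q => ENNReal.ofReal ((ψ (g q)) ^ 2)) p)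
      + ENNReal.ofReal 5 * ∫⁻ p in Sh3, ENNReal.ofReal ((ψ (g p) - ψ p) ^ 2) := by
  have hmg : Measurable fun p => ψ (g p) := hm.comp hg
  have hmd : Measurable fun p => ENNReal.ofReal ((ψ (g p) - ψ p) ^ 2) :=
    ((hmg.sub hm).pow_const 2).ennreal_ofReal
  rw [← lintegral_const_mul _ ((hmg.pow_const 2).ennreal_ofReal.indicator hB),
    ← lintegral_const_mul _ hmd,
    ← lintegral_add_left (((hmg.pow_const 2).ennreal_ofReal.indicator hB).const_mul _)]
  apply lintegral_mono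
  intro p
  show B.indicator (fun q => ENNReal.ofReal ((ψ q) ^ 2)) p ≤
    ENNReal.ofReal (5 / 4) * B.indicator (fun q => ENNReal.ofReal ((ψ (g q)) ^ 2)) p +
      ENNReal.ofReal 5 * ENNReal.ofReal ((ψ (g p) - ψ p) ^ 2)
  by_cases h : p ∈ B
  · rw [indicator_of_mem h, indicator_of_mem h, ← ENNReal.ofReal_mul (by norm_num),
      ← ENNReal.ofReal_mul (by norm_num), ← ENNReal.ofReal_add (by positivity) (by positivity)]
    apply ENNReal.ofReal_le_ofReal
    nlinarith [sq_nonneg (ψ (g p) / 2 + 2 * (ψ (g p) - ψ p))]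
  · rw [indicator_of_notMem h]
    exact zero_le

/-- the discs of the ping-pong -/
def Bs (k : ℕ) : Set X3 := {p | ‖p.1.1 - k * p.1.2‖ ≤ ‖p.1.2‖ ∧ p.1.2 ≠ 0}

/-- the complementary disc -/
def Cs : Set X3 := {p | ‖p.1.2‖ ≤ ‖p.1.1‖ ∧ p.1.1 ≠ 0}

lemma measurableSet_Bs (k : ℕ) : MeasurableSet (Bs k) := by
  have h1 : MeasurableSet {p : X3 | ‖p.1.1 - k * p.1.2‖ ≤ ‖p.1.2‖} :=
    (isClosed_le (by fun_prop) (by fun_prop)).measurableSet
  have h2 : MeasurableSet {p : X3 | p.1.2 ≠ 0} :=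
    (isOpen_ne_fun (by fun_prop) (by fun_prop)).measurableSet
  exact h1.inter h2

lemma measurableSet_Cs : MeasurableSet Cs := by
  have h1 : MeasurableSet {p : X3 | ‖p.1.2‖ ≤ ‖p.1.1‖} :=
    (isClosed_le (by fun_prop) (by fun_prop)).measurableSet
  have h2 : MeasurableSet {p : X3 | p.1.1 ≠ 0} :=
    (isOpen_ne_fun (by fun_prop) (by fun_prop)).measurableSet
  exact h1.inter h2

lemma us_mem_Bs (k : ℕ) (p : X3) : us k p ∈ Bs k ↔ p ∈ Bs 0 := by
  unfold Bs us
  simp

lemma Bs_scale (k : ℕ) (p : X3) : (la : ℂ) • p ∈ Bs k ↔ p ∈ Bs k := by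
  unfold Bs
  simp only [mem_ofPred_eq, Prod.smul_fst, Prod.smul_snd, smul_eq_mul]
  have e : (la : ℂ) * p.1.1 - k * (la * p.1.2) = la * (p.1.1 - k * p.1.2) := by ring
  rw [e, norm_mul, norm_mul]
  have h : 0 < ‖(la : ℂ)‖ := norm_pos_iff.2 lac_ne
  constructor
  · rintro ⟨h1, h2⟩
    exact ⟨le_of_mul_le_mul_left h1 h, right_ne_zero_of_mul h2⟩
  · rintro ⟨h1, h2⟩
    exact ⟨mul_le_mul_of_nonneg_left h1 h.le, mul_ne_zero lac_ne h2⟩

lemma H6.indicator {w : X3 → ℝ≥0∞} (hw : H6 w) {B : Set X3}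
    (hB : ∀ p : X3, (la : ℂ) • p ∈ B ↔ p ∈ B) : H6 (B.indicator w) := by
  intro p hp
  by_cases h : p ∈ B
  · rw [indicator_of_mem h, indicator_of_mem ((hB p).2 h), hw p hp]
  · rw [indicator_of_notMem h, indicator_of_notMem (fun h' => h ((hB p).1 h')), mul_zero]

lemma Bs_disj {k l : ℕ} (hkl : k + 3 ≤ l) : Disjoint (Bs k) (Bs l) := by
  rw [Set.disjoint_left]
  rintro p ⟨h1, h2⟩ ⟨h3, _⟩
  have h4 : (0 : ℝ) < ‖p.1.2‖ := norm_pos_iff.2 h2
  have h5 : ‖((l : ℂ) - k) * p.1.2‖ ≤ 2 * ‖p.1.2‖ := by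
    have e : ((l : ℂ) - k) * p.1.2 = (p.1.1 - k * p.1.2) - (p.1.1 - l * p.1.2) := by ring
    rw [e]
    calc _ ≤ _ := norm_sub_le _ _
      _ ≤ _ := by linarith
  rw [norm_mul] at h5
  have h6 : ‖((l : ℂ) - k)‖ = (l : ℝ) - k := by
    have e : ((l : ℂ) - k) = (((l : ℝ) - k : ℝ) : ℂ) := by push_cast; ring
    rw [e, Complex.norm_real, Real.norm_of_nonneg]
    have : (k : ℝ) ≤ l := by exact_mod_cast (by omega : k ≤ l)
    linarith
  rw [h6] at h5
  have h7 : (k : ℝ) + 3 ≤ l := by exact_mod_cast hkl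
  nlinarith

/-- the plane `x = 0` is null -/
lemma ae_fst_ne_zero : ∀ᵐ p : X3, p.1 ≠ 0 := by
  have hS : (LinearMap.ker (LinearMap.fst ℝ (ℂ × ℂ) ℂ)) ≠ ⊤ := by
    intro h
    have h1 : (((1 : ℂ), (0 : ℂ)), (0 : ℂ)) ∈ LinearMap.ker (LinearMap.fst ℝ (ℂ × ℂ) ℂ) := by
      rw [h]; trivial
    rw [LinearMap.mem_ker] at h1
    have h2 : (((1 : ℂ), (0 : ℂ))) = 0 := h1
    have h3 := congrArg Prod.fst h2
    simp at h3
  have h := Measure.addHaar_submodule (volume : Measure X3) _ hS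
  rw [ae_iff]
  convert h using 2
  ext p
  simp

/-- no function is almost invariant -/
lemma no_almost_inv : ∃ δ > 0, ∀ ψ : X3 → ℝ, Measurable ψ →
    (∀ p : X3, p ≠ 0 → ψ ((la : ℂ) • p) = la ^ (-3 : ℤ) * ψ p) →
    IntegrableOn (fun p => (ψ p) ^ 2) Sh3 →
    ENNReal.ofReal δ * ∫⁻ p in Sh3, ENNReal.ofReal ((ψ p) ^ 2) ≤
      ∑ i : Mv, ∫⁻ p in Sh3, ENNReal.ofReal ((ψ (RM (1 : ℂ) i p) - ψ p) ^ 2) := by
  refine ⟨1 / 1200, by norm_num, ?_⟩
  intro ψ hm h3 hint
  have h3' : H3 ψ := h3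
  set w : X3 → ℝ≥0∞ := fun p => ENNReal.ofReal ((ψ p) ^ 2) with hwdef
  have hw : Measurable w := (hm.pow_const 2).ennreal_ofReal
  have hw6 : H6 w := h3'.sq
  set M := ∫⁻ p in Sh3, w p with hM
  set Dn := ∑ i : Mv, ∫⁻ p in Sh3, ENNReal.ofReal ((ψ (RM (1 : ℂ) i p) - ψ p) ^ 2) with hDn
  have hMtop : M ≠ ⊤ := by
    have h := hint.2
    unfold HasFiniteIntegral at h
    have e : M = ∫⁻ p in Sh3, ‖(ψ p) ^ 2‖ₑ := by
      rw [hM]
      congr 1
      funext p
      rw [Real.enorm_eq_ofReal (sq_nonneg _)]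
    rw [e]
    exact h.ne
  by_cases hD : Dn = ⊤
  · rw [hD]; exact le_top
  have hDi : ∀ i : Mv, ∫⁻ p in Sh3, ENNReal.ofReal ((ψ (RM (1 : ℂ) i p) - ψ p) ^ 2) ≤ Dn :=
    fun i => Finset.single_le_sum
      (f := fun i : Mv => ∫⁻ p in Sh3, ENNReal.ofReal ((ψ (RM (1 : ℂ) i p) - ψ p) ^ 2))
      (fun _ _ => zero_le) (Finset.mem_univ i)
  -- masses
  set b := ∫⁻ p in Sh3, (Bs 0).indicator w p with hb
  set m3 := ∫⁻ p in Sh3, (Bs 3).indicator w p with hm3
  set m6 := ∫⁻ p in Sh3, (Bs 6).indicator w p with hm6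
  set mc := ∫⁻ p in Sh3, Cs.indicator w p with hmc
  have hk : ∀ k : ℕ, b ≤ ENNReal.ofReal (5 / 4) * (∫⁻ p in Sh3, (Bs k).indicator w p) +
      ENNReal.ofReal 5 * ((k : ℝ≥0∞) * (k * Dn)) := by
    intro k
    have h1 := mass_compare hm (measurable_us k) (measurableSet_Bs 0)
    have h2 := shell_us k (hw.indicator (measurableSet_Bs k)) (hw6.indicator (Bs_scale k))
    have e : ∀ p : X3, (Bs k).indicator w (us k p) =
        (Bs 0).indicator (fun q => ENNReal.ofReal ((ψ (us k q)) ^ 2)) p := by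
      intro p
      by_cases h : p ∈ Bs 0
      · rw [indicator_of_mem h, indicator_of_mem ((us_mem_Bs k p).2 h)]
      · rw [indicator_of_notMem h, indicator_of_notMem (fun h' => h ((us_mem_Bs k p).1 h'))]
    simp only [e] at h2
    rw [h2] at h1
    refine h1.trans ?_
    gcongr
    refine (D_us_le hm h3' k).trans ?_
    gcongr
    exact hDi _
  have i3 := hk 3
  have i6 := hk 6
  rw [← hm3] at i3
  rw [← hm6] at i6
  have isum : b + m3 + m6 ≤ M := by
    have hs : Measurable fun p => (Bs 0).indicator w p + (Bs 3).indicator w p :=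
      (hw.indicator (measurableSet_Bs 0)).add (hw.indicator (measurableSet_Bs 3))
    rw [hb, hm3, hm6, hM, ← lintegral_add_left (hw.indicator (measurableSet_Bs 0)),
      ← lintegral_add_left hs]
    apply lintegral_mono
    intro p
    show (Bs 0).indicator w p + (Bs 3).indicator w p + (Bs 6).indicator w p ≤ w p
    have d1 := Set.disjoint_left.1 (Bs_disj (k := 0) (l := 3) (by norm_num))
    have d2 := Set.disjoint_left.1 (Bs_disj (k := 0) (l := 6) (by norm_num))
    have d3 := Set.disjoint_left.1 (Bs_disj (k := 3) (l := 6) (by norm_num))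
    by_cases a0 : p ∈ Bs 0
    · rw [indicator_of_mem a0, indicator_of_notMem (d1 a0), indicator_of_notMem (d2 a0)]
      simp
    · by_cases a3 : p ∈ Bs 3
      · rw [indicator_of_notMem a0, indicator_of_mem a3, indicator_of_notMem (d3 a3)]
        simp
      · rw [indicator_of_notMem a0, indicator_of_notMem a3, zero_add, zero_add]
        exact indicator_le_self _ _ _
  have ic : mc ≤ ENNReal.ofReal (5 / 4) * b + ENNReal.ofReal 5 * Dn := by
    have h1 := mass_compare hm (measurable_RM (some (2, true))) measurableSet_Cs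
    have h2 := lintegral_shell (some (2, true)) (hw.indicator (measurableSet_Bs 0))
      (hw6.indicator (Bs_scale 0))
    have em : ∀ p : X3, RM (1 : ℂ) (some (2, true)) p ∈ Bs 0 ↔ p ∈ Cs := by
      intro p
      rw [RM_two_true]
      unfold Bs Cs
      simp
    have e : ∀ p : X3, (Bs 0).indicator w (RM (1 : ℂ) (some (2, true)) p) =
        Cs.indicator (fun q => ENNReal.ofReal ((ψ (RM (1 : ℂ) (some (2, true)) q)) ^ 2)) p := by
      intro p
      by_cases h : p ∈ Cs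
      · rw [indicator_of_mem h, indicator_of_mem ((em p).2 h)]
      · rw [indicator_of_notMem h, indicator_of_notMem (fun h' => h ((em p).1 h'))]
    simp only [e] at h2
    rw [h2] at h1
    refine h1.trans ?_
    gcongr
    exact hDi _
  have iM : M ≤ b + mc := by
    rw [hb, hmc, hM, ← lintegral_add_left (hw.indicator (measurableSet_Bs 0))]
    apply lintegral_mono_ae
    filter_upwards [ae_restrict_of_ae (s := Sh3) ae_fst_ne_zero] with p hp
    by_cases a0 : p ∈ Bs 0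
    · rw [indicator_of_mem a0]
      exact le_self_add
    · have : p ∈ Cs := by
        unfold Bs at a0
        simp only [Nat.cast_zero, zero_mul, sub_zero, mem_ofPred_eq, not_and_or, not_le,
          not_not] at a0
        unfold Cs
        rcases a0 with a0 | a0
        · refine ⟨a0.le, ?_⟩
          intro h
          rw [h, norm_zero] at a0
          exact absurd a0 (not_lt.2 (norm_nonneg _))
        · refine ⟨by rw [a0, norm_zero]; exact norm_nonneg _, ?_⟩
          intro h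
          exact hp (Prod.ext h a0)
      rw [indicator_of_mem this]
      exact le_add_self
  -- pass to real numbers
  have hbM : b ≤ M := le_trans (by rw [add_assoc]; exact le_self_add) isum
  have h3M : m3 ≤ M := le_trans (le_trans le_add_self le_self_add) isum
  have h6M : m6 ≤ M := le_trans le_add_self isum
  have hbt : b ≠ ⊤ := ne_top_of_le_ne_top hMtop hbM
  have h3t : m3 ≠ ⊤ := ne_top_of_le_ne_top hMtop h3M
  have h6t : m6 ≠ ⊤ := ne_top_of_le_ne_top hMtop h6M
  have hct : mc ≠ ⊤ := by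
    refine ne_top_of_le_ne_top ?_ ic
    exact ENNReal.add_ne_top.2 ⟨ENNReal.mul_ne_top ENNReal.ofReal_ne_top hbt,
      ENNReal.mul_ne_top ENNReal.ofReal_ne_top hD⟩
  clear_value M Dn b m3 m6 mc
  lift M to NNReal using hMtop
  lift Dn to NNReal using hD
  lift b to NNReal using hbt
  lift m3 to NNReal using h3t
  lift m6 to NNReal using h6t
  lift mc to NNReal using hct
  have e54 : ENNReal.ofReal (5 / 4) = ((5 / 4 : NNReal) : ℝ≥0∞) := by
    rw [ENNReal.ofReal_eq_coe_nnreal (by norm_num : (0 : ℝ) ≤ 5 / 4)]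
    rfl
  have e5 : ENNReal.ofReal 5 = ((5 : NNReal) : ℝ≥0∞) := by
    rw [ENNReal.ofReal_eq_coe_nnreal (by norm_num : (0 : ℝ) ≤ 5)]
    rfl
  have ed : ENNReal.ofReal (1 / 1200) = ((1 / 1200 : NNReal) : ℝ≥0∞) := by
    rw [ENNReal.ofReal_eq_coe_nnreal (by norm_num : (0 : ℝ) ≤ 1 / 1200)]
    congr 1
  rw [ed]
  rw [e54, e5] at i3 i6 ic
  have e3 : ((3 : ℕ) : ℝ≥0∞) = ((3 : NNReal) : ℝ≥0∞) := by norm_num
  have e6 : ((6 : ℕ) : ℝ≥0∞) = ((6 : NNReal) : ℝ≥0∞) := by norm_num
  rw [e3] at i3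
  rw [e6] at i6
  norm_cast at i3 i6 isum ic iM ⊢
  have j3 : (b : ℝ) ≤ 5 / 4 * m3 + 5 * (3 * (3 * Dn)) := by exact_mod_cast i3
  have j6 : (b : ℝ) ≤ 5 / 4 * m6 + 5 * (6 * (6 * Dn)) := by exact_mod_cast i6
  have js : (b : ℝ) + m3 + m6 ≤ M := by exact_mod_cast isum
  have jc : (mc : ℝ) ≤ 5 / 4 * b + 5 * Dn := by exact_mod_cast ic
  have jM : (M : ℝ) ≤ b + mc := by exact_mod_cast iM
  have jd : (0 : ℝ) ≤ Dn := Dn.2
  have : (1 / 1200 : ℝ) * M ≤ Dn := by linarith
  exact_mod_cast this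

end Pool.Agent.H5.EC
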