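import Pool.Agent.H5.EC.E2

/-! Part E3: the energy identity. -/

open Set Topology MeasureTheory
open scoped Manifold ContDiff ENNReal

noncomputable section

namespace Pool.Agent.H5.EC

/-! #### supports -/

private lemma KFt_sub : KF (1 / 3) ⊆ F := KF_subset (by norm_num)
private lemma KFt_cpt : IsCompact (KF (1 / 3)) := isCompact_KF (by norm_num)

/-- off the core the partition functions are locally constant -/
private lemma eps_none_near {z : ℂ} (hz : z ∈ F) (h : z ∉ KF (1 / 3)) :
    eps none =ᶠ[𝓝 z] fun _ => (0 : ℝ) := by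
  have h' : ∃ b, dep b z < 1 / 3 := by
    by_contra hc
    push Not at hc
    exact h hc
  obtain ⟨b, hb⟩ := h'
  have hc := (continuousOn_dep b).continuousAt (isOpen_F.mem_nhds hz)
  filter_upwards [hc.eventually (gt_mem_nhds hb), isOpen_F.mem_nhds hz] with w hw hwF
  have hU : w ∈ U b := ⟨hwF, by linarith⟩
  rw [eps_none_of_U hU]
  exact S_zero hw.le

private lemma lap2_eps_none_zero {z : ℂ} (hz : z ∈ F) (h : z ∉ KF (1 / 3)) :
    lap2 (eps none) z = 0 := by
  rw [lap2_congr (eps_none_near hz h), lap2_const]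

private lemma eps_none_zero {z : ℂ} (hz : z ∈ F) (h : z ∉ KF (1 / 3)) : eps none z = 0 :=
  (eps_none_near hz h).eq_of_nhds

/-- far from all the collars the central function is constant -/
private lemma lap2_eps_none_off {z : ℂ} (hz : z ∈ F) (h : ∀ b, z ∉ U b) :
    lap2 (eps none) z = 0 := by
  have hd : ∀ b, 1 ≤ dep b z := by
    intro b
    by_contra hc
    exact h b ⟨hz, not_le.1 hc⟩
  have hev : ∀ᶠ w in 𝓝 z, ∀ b : Bd, 2 / 3 < dep b w := by
    rw [Filter.eventually_all]
    intro b
    have hc := (continuousOn_dep b).continuousAt (isOpen_F.mem_nhds hz)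
    exact hc.eventually (lt_mem_nhds (by linarith [hd b]))
  have h1 : eps none =ᶠ[𝓝 z] fun _ => (1 : ℝ) := by
    filter_upwards [hev] with w hw
    have : ∀ b ∈ (Finset.univ : Finset Bd), S (1 - dep b w) = 0 := fun b _ =>
      S_zero (by linarith [hw b])
    change 1 - ∑ b : Bd, S (1 - dep b w) = 1
    rw [Finset.sum_eq_zero this, sub_zero]
  rw [lap2_congr h1, lap2_const]

private lemma cda_eps {z : ℂ} (hz : z ∈ F) (i : Mv) : ContDiffAt ℝ ∞ (eps i) z :=
  (contDiffOn_eps i).contDiffAt (isOpen_F.mem_nhds hz)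

private lemma cont_lap2_eps : ContinuousOn (lap2 (eps none)) F :=
  (contDiffOn_lap2 isOpen_F (contDiffOn_eps none)).continuousOn

/-- a continuous function on `F` vanishing off the core is integrable -/
private lemma integ_F {g : ℂ → ℝ} (hg : ContinuousOn g F)
    (h0 : ∀ z ∈ F, z ∉ KF (1 / 3) → g z = 0) : IntegrableOn g F := by
  have h1 : IntegrableOn g (KF (1 / 3)) := (hg.mono KFt_sub).integrableOn_compact KFt_cpt
  exact h1.of_forall_sdiff_eq_zero isOpen_F.measurableSet fun z hz => h0 z hz.1 hz.2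

/-- integration by parts against an invariant function -/
lemma integral_lap2_eps {I : ℂ → ℝ} (hI : ContinuousOn I F)
    (hinv : ∀ i : Mv, ∀ z ∈ dom i, I (act i z) = I z) :
    ∫ z in F, lap2 (eps none) z * I z = 0 := by
  have hint : IntegrableOn (fun z => lap2 (eps none) z * I z) F :=
    integ_F (cont_lap2_eps.mul hI) fun z hz h => by rw [lap2_eps_none_zero hz h, zero_mul]
  -- splitting into the collars
  have h1 : ∫ z in F, lap2 (eps none) z * I z =
      ∑ b : Bd, ∫ z in U b, lap2 (eps none) z * I z := by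
    have h2 : ∫ z in F, lap2 (eps none) z * I z =
        ∫ z in ⋃ b : Bd, U b, lap2 (eps none) z * I z := by
      refine (setIntegral_eq_of_subset_of_forall_sdiff_eq_zero isOpen_F.measurableSet
        (iUnion_subset fun b => U_subset b) fun z hz => ?_)
      rw [lap2_eps_none_off hz.1 fun b hb => hz.2 (mem_iUnion.2 ⟨b, hb⟩), zero_mul]
    rw [h2]
    refine integral_iUnion_fintype (fun b => (isOpen_U b).measurableSet) ?_
      (fun b => hint.mono_set (U_subset b))
    intro b b' hbb
    rw [Function.onFun, Set.disjoint_left]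
    intro z hz hz'
    exact hbb (U_disj hz hz')
  -- change of variables
  have h3 : ∀ b : Bd, ∫ z in U b.inv, lap2 (eps none) z * I z =
      -∫ z in U b, lap2 (eps none) z * I z := by
    intro b
    rw [← integral_neg, ← integral_mv b]
    refine setIntegral_congr_fun (isOpen_U b).measurableSet fun z hz => ?_
    show ‖mvd b z‖ ^ 2 * (lap2 (eps none) (mv b z) * I (mv b z)) = -(lap2 (eps none) z * I z)
    have hz' : z ∈ F := hz.1
    have hm := mv_mem hz
    have h4 : lap2 (fun w => eps none (mv b w)) z =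
        ‖deriv (mv b) z‖ ^ 2 * lap2 (eps none) (mv b z) :=
      lap2_comp_holo (contDiffAt_mv hz 2) ((cda_eps (mv_mem_F hz) none).of_le (by norm_cast))
    rw [(hasDerivAt_mv hz).deriv] at h4
    have h5 : (fun w => eps none (mv b w)) =ᶠ[𝓝 z] fun w => 1 - eps none w := by
      filter_upwards [(isOpen_U b).mem_nhds hz] with w hw
      have e1 : eps none (mv b w) = S (1 - dep b w) := by
        rw [eps_none_of_U (mv_mem hw), dep_mv hw]
      have e2 := S_add (dep b w)
      rw [e1, eps_none_of_U hw]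
      linarith
    have h6 : lap2 (fun w => 1 - eps none w) z = - lap2 (eps none) z := by
      rw [lap2_sub contDiffAt_const ((cda_eps hz' none).of_le (by norm_cast)), lap2_const,
        zero_sub]
    rw [lap2_congr h5, h6] at h4
    have h7 := hinv (some b) z hz
    change I (mv b z) = I z at h7
    rw [h7]
    linear_combination (-I z) * h4
  have hbij : ∑ b : Bd, ∫ z in U b.inv, lap2 (eps none) z * I z =
      ∑ b : Bd, ∫ z in U b, lap2 (eps none) z * I z :=
    Fintype.sum_equiv ⟨Bd.inv, Bd.inv, Bd.inv_inv, Bd.inv_inv⟩ _ _ fun b => rfl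
  rw [Finset.sum_congr rfl fun b _ => h3 b, Finset.sum_neg_distrib] at hbij
  rw [h1]
  linarith

/-- summation over the moves of an invariant density -/
lemma lintegral_le_nine {g : ℂ → ℝ≥0∞} (hg : Measurable g)
    (hinv : ∀ i : Mv, ∀ z ∈ dom i, ENNReal.ofReal (‖actd i z‖ ^ 2) * g (act i z) = g z) :
    ∫⁻ z in F, g z ≤ 9 * ∫⁻ z in F, ENNReal.ofReal (eps none z) * g z := by
  have h1 : ∫⁻ z in F, g z = ∫⁻ z in F, ∑ i : Mv, ENNReal.ofReal (eps i z) * g z := by
    refine setLIntegral_congr_fun isOpen_F.measurableSet fun z hz => ?_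
    show g z = ∑ i : Mv, ENNReal.ofReal (eps i z) * g z
    rw [← Finset.sum_mul, ← ENNReal.ofReal_sum_of_nonneg fun i _ => eps_nonneg i hz, sum_eps]
    simp
  rw [h1, lintegral_finsetSum']
  · have h2 : ∀ i : Mv, ∫⁻ z in F, ENNReal.ofReal (eps i z) * g z ≤
        ∫⁻ z in F, ENNReal.ofReal (eps none z) * g z := by
      intro i
      calc ∫⁻ z in F, ENNReal.ofReal (eps i z) * g z
          = ∫⁻ z in dom i, ENNReal.ofReal (eps i z) * g z := by
            have h3 := lintegral_inter_add_sdiff (μ := volume) (fun z => ENNReal.ofReal (eps i z) * g z)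
              F (isOpen_dom i).measurableSet
            rw [inter_eq_self_of_subset_right (dom_subset i)] at h3
            have h4 : ∫⁻ z in F \ dom i, ENNReal.ofReal (eps i z) * g z = 0 := by
              refine setLIntegral_eq_zero (isOpen_F.measurableSet.diff (isOpen_dom i).measurableSet) ?_
              intro z hz
              show ENNReal.ofReal (eps i z) * g z = 0
              rw [eps_zero hz.1 hz.2]
              simp
            rw [h4, add_zero] at h3
            exact h3.symm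
        _ = ∫⁻ z in dom i, ENNReal.ofReal (‖actd i z‖ ^ 2) *
              (ENNReal.ofReal (eps none (act i z)) * g (act i z)) := by
            refine setLIntegral_congr_fun (isOpen_dom i).measurableSet fun z hz => ?_
            show ENNReal.ofReal (eps i z) * g z = ENNReal.ofReal (‖actd i z‖ ^ 2) *
              (ENNReal.ofReal (eps none (act i z)) * g (act i z))
            rw [eps_eq hz, ← hinv i z hz]
            ring
        _ = ∫⁻ z in dom i.inv, ENNReal.ofReal (eps none z) * g z :=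
            lintegral_act i fun z => ENNReal.ofReal (eps none z) * g z
        _ ≤ ∫⁻ z in F, ENNReal.ofReal (eps none z) * g z :=
            lintegral_mono_set (dom_subset _)
    refine (Finset.sum_le_sum fun i _ => h2 i).trans ?_
    rw [Finset.sum_const, Finset.card_univ]
    have : Fintype.card Mv = 9 := by decide
    rw [this, nsmul_eq_mul]
    norm_num
  · intro i _
    exact (((contDiffOn_eps i).continuousOn.aemeasurable isOpen_F.measurableSet).ennreal_ofReal).mul
      hg.aemeasurable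

/-! #### the weight -/

variable {f : ℂ → X3 → ℝ}

private lemma cSh3_ne : {p : X3 | la ^ 2 ≤ nsq p ∧ nsq p ≤ 1} ⊆ ({0}ᶜ : Set X3) := by
  rintro p ⟨h1, -⟩ h0
  rw [mem_singleton_iff] at h0
  subst h0
  have h2 : nsq (0 : X3) = 0 := by simp [nsq]
  have h3 : 0 < la := la_aux.1
  rw [h2] at h1
  have : 0 < la ^ 2 := by positivity
  linarith

private lemma sec_cont {z : ℂ} (hz : z ∈ F) {g : ℂ × X3 → ℝ} (hg : ContinuousOn g (F ×ˢ {0}ᶜ)) :
    ContinuousOn (fun p : X3 => g (z, p)) {0}ᶜ :=
  hg.comp (Continuous.prodMk_right z).continuousOn fun p hp => ⟨hz, hp⟩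

/-- integrability in the second variable -/
private lemma integ_Sh3 {z : ℂ} (hz : z ∈ F) {g : ℂ × X3 → ℝ} (hg : ContinuousOn g (F ×ˢ {0}ᶜ)) :
    IntegrableOn (fun p : X3 => g (z, p)) Sh3 :=
  (((sec_cont hz hg).mono cSh3_ne).integrableOn_compact isCompact_cSh3).mono_set Sh3_subset

/-- integrability on the product -/
private lemma integ_prod {g : ℂ × X3 → ℝ} (hg : ContinuousOn g (F ×ˢ {0}ᶜ))
    (h0 : ∀ z ∈ F, z ∉ KF (1 / 3) → ∀ p, g (z, p) = 0) :
    IntegrableOn g (F ×ˢ Sh3) (volume.prod volume) := by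
  have h1 : IntegrableOn g (KF (1 / 3) ×ˢ {p : X3 | la ^ 2 ≤ nsq p ∧ nsq p ≤ 1})
      (volume.prod volume) :=
    (hg.mono (prod_mono KFt_sub cSh3_ne)).integrableOn_compact (KFt_cpt.prod isCompact_cSh3)
  refine (h1.mono_set (prod_mono_right Sh3_subset)).of_forall_sdiff_eq_zero
    (isOpen_F.measurableSet.prod measurableSet_Sh3) ?_
  rintro ⟨z, p⟩ ⟨⟨h2, h3⟩, h4⟩
  refine h0 z h2 (fun h5 => h4 ⟨h5, h3⟩) p

private lemma ph_sq_cont (hf : TF3 f) :
    ContinuousOn (fun x : ℂ × X3 => (ph f x.1 x.2) ^ 2) (F ×ˢ {0}ᶜ) := (continuousOn_ph hf).pow 2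

lemma ms_act {f : ℂ → X3 → ℝ} (hf : TF3 f) {i : Mv} {z : ℂ} (hz : z ∈ dom i) :
    ms f (act i z) = ms f z := by
  have hz' : act i z ∈ F := act_mem_F hz
  have h1 := integral_shell i (w := fun p => (ph f (act i z) p) ^ 2)
    (measurable_of_continuousOn_compl_singleton 0 (sec_cont hz' (ph_sq_cont hf)))
    (fun p hp => by
      rw [ph_scale hf hz' hp, mul_pow, ← zpow_natCast, ← zpow_mul]
      norm_num)
  unfold ms
  rw [← h1]
  refine setIntegral_congr_fun measurableSet_Sh3 fun p hp => ?_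
  show ph f (act i z) (RM (1 : ℂ) i p) ^ 2 = ph f z p ^ 2
  rw [ph_act hf hz (Sh3_ne hp)]

lemma continuousOn_ms {f : ℂ → X3 → ℝ} (hf : TF3 f) : ContinuousOn (ms f) F := by
  intro z hz
  refine ContinuousAt.continuousWithinAt ?_
  obtain ⟨K, hK, hKF, hKz⟩ := local_compact_nhds (isOpen_F.mem_nhds hz)
  have hc : ContinuousOn (fun x : ℂ × X3 => (ph f x.1 x.2) ^ 2)
      (K ×ˢ {p : X3 | la ^ 2 ≤ nsq p ∧ nsq p ≤ 1}) :=
    (ph_sq_cont hf).mono (prod_mono hKF cSh3_ne)
  obtain ⟨C, hC⟩ := (hKz.prod isCompact_cSh3).exists_bound_of_continuousOn hc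
  refine continuousAt_of_dominated (bound := fun _ => C) ?_ ?_ ?_ ?_
  · filter_upwards [isOpen_F.mem_nhds hz] with w hw
    exact (integ_Sh3 hw (ph_sq_cont hf)).aestronglyMeasurable
  · filter_upwards [hK] with w hw
    rw [ae_restrict_iff' measurableSet_Sh3]
    exact Filter.Eventually.of_forall fun p hp => hC (w, p) ⟨hw, Sh3_subset hp⟩
  · have : IsFiniteMeasure (volume.restrict Sh3) := ⟨by
      rw [Measure.restrict_apply_univ]; exact volume_Sh3_lt_top⟩
    exact integrable_const C
  · rw [ae_restrict_iff' measurableSet_Sh3]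
    refine Filter.Eventually.of_forall fun p hp => ?_
    have h1 : ContDiffOn ℝ ∞ (fun z => ph f z p) F := ph_smooth hf (Sh3_ne hp)
    exact ((h1.continuousOn.continuousAt (isOpen_F.mem_nhds hz)).pow 2)

lemma ms_pos {f : ℂ → X3 → ℝ} (hf : TF3 f) {z : ℂ} (hz : z ∈ F) : 0 < ms f z := by
  unfold ms
  rw [setIntegral_pos_iff_support_of_nonneg_ae]
  · have : Function.support (fun p => ph f z p ^ 2) ∩ Sh3 = Sh3 := by
      refine inter_eq_right.2 fun p _ => ?_
      rw [Function.mem_support]
      exact (pow_pos (ph_pos z p) 2).ne'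
    rw [this]
    exact volume_Sh3_pos
  · exact Filter.Eventually.of_forall fun p => sq_nonneg _
  · exact integ_Sh3 hz (ph_sq_cont hf)

/-! #### the energy inequality -/

private lemma eps_cont (i : Mv) : ContinuousOn (fun x : ℂ × X3 => eps i x.1) (F ×ˢ {0}ᶜ) :=
  (contDiffOn_eps i).continuousOn.comp continuousOn_fst fun _ h => h.1

private lemma gr2_cont (hf : TF3 f) :
    ContinuousOn (fun x : ℂ × X3 => gr2 (fun z => ph f z x.2) x.1) (F ×ˢ {0}ᶜ) := by
  have h1 : ContinuousOn (fun x : ℂ × X3 => (9 / 4) * (ph f x.1 x.2) ^ 2 *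
      gr2 (fun z => bt f z x.2) x.1) (F ×ˢ {0}ᶜ) :=
    (continuousOn_const.mul (ph_sq_cont hf)).mul (continuousOn_gr2_bt hf)
  exact h1.congr fun x hx => gr2_ph hf hx.1 hx.2

private lemma lap_cont (hf : TF3 f) :
    ContinuousOn (fun x : ℂ × X3 => lap2 (fun z => (ph f z x.2) ^ 2) x.1) (F ×ˢ {0}ᶜ) := by
  have h1 : ContinuousOn (fun x : ℂ × X3 => 4 * gr2 (fun z => ph f z x.2) x.1 -
      3 * (ph f x.1 x.2) ^ 2 * lap2 (fun z => bt f z x.2) x.1) (F ×ˢ {0}ᶜ) :=
    (continuousOn_const.mul (gr2_cont hf)).sub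
      ((continuousOn_const.mul (ph_sq_cont hf)).mul (continuousOn_lap2_bt hf))
  exact h1.congr fun x hx => lap2_ph_sq hf hx.1 hx.2

private lemma sig_cont : ContinuousOn (fun x : ℂ × X3 => sig x.1) (F ×ˢ {0}ᶜ) :=
  contDiffOn_sig.continuousOn.comp continuousOn_fst fun _ h => h.1

private lemma lapeps_cont :
    ContinuousOn (fun x : ℂ × X3 => lap2 (eps none) x.1) (F ×ˢ {0}ᶜ) :=
  cont_lap2_eps.comp continuousOn_fst fun _ h => h.1

private lemma int_G1 (hf : TF3 f) : IntegrableOn
    (fun x : ℂ × X3 => eps none x.1 * gr2 (fun z => ph f z x.2) x.1) (F ×ˢ Sh3)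
    (volume.prod volume) :=
  integ_prod ((eps_cont none).mul (gr2_cont hf)) fun z hz h p => by
    simp only [eps_none_zero hz h, zero_mul]

private lemma int_G2 (hf : TF3 f) : IntegrableOn
    (fun x : ℂ × X3 => eps none x.1 * lap2 (fun z => (ph f z x.2) ^ 2) x.1) (F ×ˢ Sh3)
    (volume.prod volume) :=
  integ_prod ((eps_cont none).mul (lap_cont hf)) fun z hz h p => by
    simp only [eps_none_zero hz h, zero_mul]

private lemma int_G3 (hf : TF3 f) : IntegrableOn
    (fun x : ℂ × X3 => eps none x.1 * (sig x.1 * (ph f x.1 x.2) ^ 2)) (F ×ˢ Sh3)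
    (volume.prod volume) :=
  integ_prod ((eps_cont none).mul (sig_cont.mul (ph_sq_cont hf))) fun z hz h p => by
    simp only [eps_none_zero hz h, zero_mul]

private lemma int_G4 (hf : TF3 f) : IntegrableOn
    (fun x : ℂ × X3 => lap2 (eps none) x.1 * (ph f x.1 x.2) ^ 2) (F ×ˢ Sh3)
    (volume.prod volume) :=
  integ_prod (lapeps_cont.mul (ph_sq_cont hf)) fun z hz h p => by
    simp only [lap2_eps_none_zero hz h, zero_mul]

/-- the term with the Laplacian vanishes -/
private lemma int_G2_zero (hf : TF3 f) :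
    ∫ x in F ×ˢ Sh3, eps none x.1 * lap2 (fun z => (ph f z x.2) ^ 2) x.1 ∂(volume.prod volume) = 0 := by
  have hI2 := int_G2 hf
  have hI4 := int_G4 hf
  have h2 : ∫ x in F ×ˢ Sh3, eps none x.1 * lap2 (fun z => (ph f z x.2) ^ 2) x.1
      ∂(volume.prod volume) =
      ∫ p in Sh3, ∫ z in F, eps none z * lap2 (fun z => (ph f z p) ^ 2) z := by
    rw [setIntegral_prod _ hI2]
    rw [IntegrableOn, ← Measure.prod_restrict] at hI2
    exact integral_integral_swap
      (f := fun z p => eps none z * lap2 (fun z => (ph f z p) ^ 2) z) hI2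
  have h4 : ∫ x in F ×ˢ Sh3, lap2 (eps none) x.1 * (ph f x.1 x.2) ^ 2 ∂(volume.prod volume) =
      ∫ p in Sh3, ∫ z in F, lap2 (eps none) z * (ph f z p) ^ 2 := by
    rw [setIntegral_prod _ hI4]
    rw [IntegrableOn, ← Measure.prod_restrict] at hI4
    exact integral_integral_swap
      (f := fun z p => lap2 (eps none) z * (ph f z p) ^ 2) hI4
  have h5 : ∫ x in F ×ˢ Sh3, lap2 (eps none) x.1 * (ph f x.1 x.2) ^ 2 ∂(volume.prod volume) = 0 := by
    rw [setIntegral_prod _ hI4]
    have h6 := integral_lap2_eps (continuousOn_ms hf) fun i z hz => ms_act hf hz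
    rw [← h6]
    refine setIntegral_congr_fun isOpen_F.measurableSet fun z hz => ?_
    show ∫ p in Sh3, lap2 (eps none) z * (ph f z p) ^ 2 = lap2 (eps none) z * ms f z
    rw [integral_const_mul]
    rfl
  rw [h2, ← h5, h4]
  refine setIntegral_congr_fun measurableSet_Sh3 fun p hp => ?_
  exact (integral_lap2_mul isOpen_F KFt_cpt KFt_sub (contDiffOn_eps none)
    ((ph_smooth hf (Sh3_ne hp)).pow 2) fun z hz h => eps_none_zero hz h).symm

/-- the energy inequality -/
theorem energy_le {f : ℂ → X3 → ℝ} (hf : TF3 f) {ε : ℝ}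
    (h : ∀ z ∈ F, ∀ p : X3, p ≠ 0 → lap2 (fun z => bt f z p) z ≤ ε * sig z) :
    ∫ z in F, eps none z * ∫ p in Sh3, gr2 (fun z => ph f z p) z ≤
      (3 / 4) * ε * ∫ z in F, eps none z * (sig z * ms f z) := by
  have e1 : ∫ z in F, eps none z * ∫ p in Sh3, gr2 (fun z => ph f z p) z =
      ∫ x in F ×ˢ Sh3, eps none x.1 * gr2 (fun z => ph f z x.2) x.1 ∂(volume.prod volume) := by
    rw [setIntegral_prod _ (int_G1 hf)]
    refine setIntegral_congr_fun isOpen_F.measurableSet fun z hz => ?_
    show eps none z * ∫ p in Sh3, gr2 (fun z => ph f z p) z =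
      ∫ p in Sh3, eps none z * gr2 (fun z => ph f z p) z
    rw [integral_const_mul]
  have e3 : ∫ z in F, eps none z * (sig z * ms f z) =
      ∫ x in F ×ˢ Sh3, eps none x.1 * (sig x.1 * (ph f x.1 x.2) ^ 2) ∂(volume.prod volume) := by
    rw [setIntegral_prod _ (int_G3 hf)]
    refine setIntegral_congr_fun isOpen_F.measurableSet fun z hz => ?_
    show eps none z * (sig z * ms f z) = ∫ p in Sh3, eps none z * (sig z * (ph f z p) ^ 2)
    rw [integral_const_mul, integral_const_mul]
    rfl
  have hmono : ∫ x in F ×ˢ Sh3, 4 * (eps none x.1 * gr2 (fun z => ph f z x.2) x.1)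
        ∂(volume.prod volume) ≤
      ∫ x in F ×ˢ Sh3, (eps none x.1 * lap2 (fun z => (ph f z x.2) ^ 2) x.1 +
        3 * ε * (eps none x.1 * (sig x.1 * (ph f x.1 x.2) ^ 2))) ∂(volume.prod volume) := by
    refine setIntegral_mono_on ((int_G1 hf).const_mul 4) ((int_G2 hf).add
      ((int_G3 hf).const_mul (3 * ε))) (isOpen_F.measurableSet.prod measurableSet_Sh3) ?_
    rintro ⟨z, p⟩ ⟨hz, hp⟩
    simp only
    have hp0 : p ≠ 0 := Sh3_ne hp
    have h1 := lap2_ph_sq hf hz hp0
    have h2 := h z hz p hp0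
    have h3 := eps_nonneg none hz
    have h4 : 0 ≤ (ph f z p) ^ 2 := sq_nonneg _
    rw [h1]
    have h5 : (ph f z p) ^ 2 * lap2 (fun z => bt f z p) z ≤ (ph f z p) ^ 2 * (ε * sig z) :=
      mul_le_mul_of_nonneg_left h2 h4
    have h6 := mul_le_mul_of_nonneg_left h5 h3
    linarith
  rw [integral_const_mul, integral_add (int_G2 hf) ((int_G3 hf).const_mul (3 * ε)),
    integral_const_mul, int_G2_zero hf] at hmono
  rw [e1, e3]
  linarith

private lemma gr2_nonneg (a : ℂ → ℝ) (z : ℂ) : 0 ≤ gr2 a z := by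
  unfold gr2
  positivity

/-- the same for lower integrals -/
theorem lenergy_le {f : ℂ → X3 → ℝ} (hf : TF3 f) {ε : ℝ} (hε : 0 ≤ ε)
    (h : ∀ z ∈ F, ∀ p : X3, p ≠ 0 → lap2 (fun z => bt f z p) z ≤ ε * sig z) :
    ∫⁻ z in F, ENNReal.ofReal (eps none z) * ∫⁻ p in Sh3, ENNReal.ofReal (gr2 (fun z => ph f z p) z) ≤
      ENNReal.ofReal ((3 / 4) * ε) * ∫⁻ z in F, ENNReal.ofReal (eps none z * (sig z * ms f z)) := by
  have hI1 : IntegrableOn (fun z => eps none z * ∫ p in Sh3, gr2 (fun z => ph f z p) z) F := by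
    have h1 := int_G1 hf
    rw [IntegrableOn, ← Measure.prod_restrict] at h1
    have h2 := h1.integral_prod_left
    refine h2.congr (Filter.Eventually.of_forall fun z => ?_)
    show ∫ p in Sh3, eps none z * gr2 (fun z => ph f z p) z =
      eps none z * ∫ p in Sh3, gr2 (fun z => ph f z p) z
    rw [integral_const_mul]
  have hI3 : IntegrableOn (fun z => eps none z * (sig z * ms f z)) F :=
    integ_F ((contDiffOn_eps none).continuousOn.mul
      (contDiffOn_sig.continuousOn.mul (continuousOn_ms hf))) fun z hz h => by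
        rw [eps_none_zero hz h, zero_mul]
  have e1 : ∫⁻ z in F, ENNReal.ofReal (eps none z) *
      ∫⁻ p in Sh3, ENNReal.ofReal (gr2 (fun z => ph f z p) z) =
      ENNReal.ofReal (∫ z in F, eps none z * ∫ p in Sh3, gr2 (fun z => ph f z p) z) := by
    rw [ofReal_integral_eq_lintegral_ofReal hI1]
    · refine setLIntegral_congr_fun isOpen_F.measurableSet fun z hz => ?_
      show ENNReal.ofReal (eps none z) * ∫⁻ p in Sh3, ENNReal.ofReal (gr2 (fun z => ph f z p) z) =
        ENNReal.ofReal (eps none z * ∫ p in Sh3, gr2 (fun z => ph f z p) z)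
      rw [ENNReal.ofReal_mul (eps_nonneg none hz),
        ofReal_integral_eq_lintegral_ofReal (integ_Sh3 hz (gr2_cont hf))
          (Filter.Eventually.of_forall fun p => gr2_nonneg _ _)]
    · rw [Filter.EventuallyLE, ae_restrict_iff' isOpen_F.measurableSet]
      refine Filter.Eventually.of_forall fun z hz => ?_
      exact mul_nonneg (eps_nonneg none hz)
        (integral_nonneg fun p => gr2_nonneg _ _)
  have e3 : ∫⁻ z in F, ENNReal.ofReal (eps none z * (sig z * ms f z)) =
      ENNReal.ofReal (∫ z in F, eps none z * (sig z * ms f z)) := by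
    rw [ofReal_integral_eq_lintegral_ofReal hI3]
    rw [Filter.EventuallyLE, ae_restrict_iff' isOpen_F.measurableSet]
    refine Filter.Eventually.of_forall fun z hz => ?_
    exact mul_nonneg (eps_nonneg none hz) (mul_nonneg (sig_pos hz).le (ms_pos hf hz).le)
  rw [e1, e3, ← ENNReal.ofReal_mul (by positivity)]
  exact ENNReal.ofReal_le_ofReal (energy_le hf h)

end Pool.Agent.H5.EC
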