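import Pool.Agent.H5.EC.A4
import Pool.Agent.H5.EC.Lap

/-! Part E4: a Poincare inequality along chains of discs in `F`. -/

open Set Topology MeasureTheory
open scoped Manifold ContDiff ENNReal

noncomputable section

namespace Pool.Agent.H5.EC

lemma pc_gr2_nonneg (a : ℂ → ℝ) (z : ℂ) : 0 ≤ gr2 a z := by unfold gr2; positivity

/-- Jensen for a continuous function on the unit interval -/
lemma pc_jensen {g : ℝ → ℝ} (hg : ContinuousOn g (Icc 0 1)) :
    (∫ t in (0:ℝ)..1, g t) ^ 2 ≤ ∫ t in (0:ℝ)..1, (g t) ^ 2 := by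
  have hg' : ContinuousOn g (uIcc 0 1) := by rwa [uIcc_of_le zero_le_one]
  have i1 : IntervalIntegrable g volume 0 1 := hg'.intervalIntegrable
  have i2 : IntervalIntegrable (fun t => (g t) ^ 2) volume 0 1 := (hg'.pow 2).intervalIntegrable
  set m := ∫ t in (0:ℝ)..1, g t with hm
  have h0 : 0 ≤ ∫ t in (0:ℝ)..1, (g t - m) ^ 2 :=
    intervalIntegral.integral_nonneg zero_le_one (fun t _ => sq_nonneg _)
  have h1 : ∫ t in (0:ℝ)..1, (g t - m) ^ 2 = (∫ t in (0:ℝ)..1, (g t) ^ 2) - 2 * m * m + m ^ 2 := by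
    have e : (fun t => (g t - m) ^ 2) = fun t => ((g t)^2 - (2 * m) * g t) + m ^ 2 := by
      funext t; ring
    rw [e, intervalIntegral.integral_add (i2.sub (i1.const_mul _)) intervalIntegrable_const,
      intervalIntegral.integral_sub i2 (i1.const_mul _), intervalIntegral.integral_const_mul, ← hm]
    simp
  nlinarith

lemma pc_lin (L : ℂ →L[ℝ] ℝ) (w : ℂ) : (L w) ^ 2 ≤ ‖w‖ ^ 2 * ((L 1) ^ 2 + (L Complex.I) ^ 2) := by
  rw [lapaux_lin L w, ← Complex.normSq_eq_norm_sq, Complex.normSq_apply]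
  nlinarith [sq_nonneg (w.re * L Complex.I - w.im * L 1)]

/-- pointwise bound -/
lemma pc_pointwise {c : ℂ} {r : ℝ} {a : ℂ → ℝ}
    (ha : ContDiffOn ℝ 1 a (Metric.ball c r)) {y y' : ℂ} (hy : y ∈ Metric.ball c r)
    (hy' : y' ∈ Metric.ball c r) :
    ENNReal.ofReal ((a y - a y') ^ 2) ≤ ENNReal.ofReal (4 * r ^ 2) *
      ∫⁻ t in Ioo (0:ℝ) 1, ENNReal.ofReal (gr2 a (y' + t • (y - y'))) := by
  have hr : 0 < r := Metric.pos_of_mem_ball hy
  have hopen : IsOpen (Metric.ball c r) := Metric.isOpen_ball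
  have hmem : ∀ t ∈ Icc (0:ℝ) 1, y' + t • (y - y') ∈ Metric.ball c r := by
    intro t ht
    have := (convex_ball c r) hy' hy (sub_nonneg.2 ht.2) ht.1 (by ring)
    have e : (1 - t) • y' + t • y = y' + t • (y - y') := by
      rw [sub_smul, smul_sub, one_smul]; ring
    rwa [e] at this
  have hl : ∀ t : ℝ, HasDerivAt (fun t : ℝ => y' + t • (y - y')) (y - y') t := by
    intro t
    have h1 : HasDerivAt (fun t : ℝ => t • (y - y')) ((1:ℝ) • (y - y')) t :=
      (hasDerivAt_id t).smul_const (y - y')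
    rw [one_smul] at h1
    exact h1.const_add y'
  have hlc : Continuous (fun t : ℝ => y' + t • (y - y')) := by fun_prop
  have hd : ∀ t ∈ Icc (0:ℝ) 1, HasDerivAt (fun t : ℝ => a (y' + t • (y - y')))
      (fderiv ℝ a (y' + t • (y - y')) (y - y')) t := by
    intro t ht
    have h1 : DifferentiableAt ℝ a (y' + t • (y - y')) :=
      (ha.contDiffAt (hopen.mem_nhds (hmem t ht))).differentiableAt (by norm_num)
    exact h1.hasFDerivAt.comp_hasDerivAt t (hl t)
  have hfc : ContinuousOn (fderiv ℝ a) (Metric.ball c r) :=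
    ha.continuousOn_fderiv_of_isOpen hopen (by norm_num)
  have hfc' : ContinuousOn (fun t : ℝ => fderiv ℝ a (y' + t • (y - y'))) (Icc 0 1) :=
    hfc.comp hlc.continuousOn (fun t ht => hmem t ht)
  have hgc : ContinuousOn (fun t : ℝ => fderiv ℝ a (y' + t • (y - y')) (y - y')) (Icc 0 1) :=
    hfc'.clm_apply continuousOn_const
  have hgr : ContinuousOn (fun t : ℝ => gr2 a (y' + t • (y - y'))) (Icc 0 1) := by
    unfold gr2
    exact ((hfc'.clm_apply continuousOn_const).pow 2).add
      ((hfc'.clm_apply continuousOn_const).pow 2)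
  have hftc : ∫ t in (0:ℝ)..1, fderiv ℝ a (y' + t • (y - y')) (y - y') = a y - a y' := by
    rw [intervalIntegral.integral_eq_sub_of_hasDerivAt (f := fun t : ℝ => a (y' + t • (y - y')))
      (fun t ht => hd t (by rwa [uIcc_of_le zero_le_one] at ht))
      ((by rwa [uIcc_of_le zero_le_one] :
        ContinuousOn (fun t : ℝ => fderiv ℝ a (y' + t • (y - y')) (y - y')) (uIcc 0 1)).intervalIntegrable)]
    simp
  have hn : ‖y - y'‖ ^ 2 ≤ 4 * r ^ 2 := by
    have h1 : ‖y - y'‖ ≤ 2 * r := by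
      have h2 := Metric.mem_ball.1 hy
      have h3 := Metric.mem_ball.1 hy'
      rw [← dist_eq_norm]
      have := dist_triangle_right y y' c
      linarith
    have := norm_nonneg (y - y')
    nlinarith
  have hre : (a y - a y') ^ 2 ≤ (4 * r ^ 2) * ∫ t in (0:ℝ)..1, gr2 a (y' + t • (y - y')) := by
    rw [← hftc]
    refine (pc_jensen hgc).trans ?_
    rw [← intervalIntegral.integral_const_mul]
    refine intervalIntegral.integral_mono_on zero_le_one ?_ ?_ ?_
    · exact ((by rw [uIcc_of_le zero_le_one]; exact hgc.pow 2 :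
        ContinuousOn (fun t : ℝ => (fderiv ℝ a (y' + t • (y - y')) (y - y')) ^ 2)
          (uIcc 0 1)).intervalIntegrable)
    · exact ((by rw [uIcc_of_le zero_le_one]; exact continuousOn_const.mul hgr :
        ContinuousOn (fun t : ℝ => (4 * r ^ 2) * gr2 a (y' + t • (y - y')))
          (uIcc 0 1)).intervalIntegrable)
    · intro t _
      refine (pc_lin _ _).trans ?_
      exact mul_le_mul_of_nonneg_right hn (pc_gr2_nonneg a _)
  have hint : IntegrableOn (fun t : ℝ => gr2 a (y' + t • (y - y'))) (Ioo 0 1) :=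
    (hgr.integrableOn_Icc).mono_set Ioo_subset_Icc_self
  have hlast : ∫⁻ t in Ioo (0:ℝ) 1, ENNReal.ofReal (gr2 a (y' + t • (y - y'))) =
      ENNReal.ofReal (∫ t in (0:ℝ)..1, gr2 a (y' + t • (y - y'))) := by
    rw [intervalIntegral.integral_of_le zero_le_one, integral_Ioc_eq_integral_Ioo,
      ofReal_integral_eq_lintegral_ofReal hint (ae_of_all _ (fun t => pc_gr2_nonneg a _))]
  rw [hlast, ← ENNReal.ofReal_mul (by positivity)]
  exact ENNReal.ofReal_le_ofReal hre

lemma pc_half {G : ℂ → ℝ≥0∞} (hG : Measurable G) {t : ℝ} (ht : 1 / 2 ≤ t) (w : ℂ) :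
    ∫⁻ y, G (w + t • y) ≤ 4 * ∫⁻ y, G y := by
  have ht0 : t ≠ 0 := by linarith
  have h1 : ∫⁻ y, G (w + t • y) = ∫⁻ u, G (w + u) ∂(Measure.map (fun y : ℂ => t • y) volume) := by
    have hm : Measurable (fun u => G (w + u)) := hG.comp (measurable_const_add w)
    rw [lintegral_map hm (measurable_const_smul t)]
  rw [h1, Measure.map_addHaar_smul volume ht0, lintegral_smul_measure, lintegral_add_left_eq_self]
  refine mul_le_mul_left ?_ _
  rw [Complex.finrank_real_complex]
  have h2 : |(t ^ 2)⁻¹| ≤ 4 := by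
    rw [abs_of_pos (by positivity)]
    rw [inv_le_comm₀ (by positivity) (by norm_num)]
    nlinarith
  calc ENNReal.ofReal |(t ^ 2)⁻¹| ≤ ENNReal.ofReal 4 := ENNReal.ofReal_le_ofReal h2
    _ = 4 := by norm_num

lemma pc_conv {B : Set ℂ} (G : ℂ → ℝ≥0∞) (hG : Measurable G) {t : ℝ} :
    ∫⁻ y in B, ∫⁻ y' in B, G (y' + t • (y - y')) ≤ 4 * volume B * ∫⁻ y, G y := by
  rcases le_or_gt (1 / 2) t with ht | ht
  · have hm : Measurable (fun x : ℂ × ℂ => G (x.2 + t • (x.1 - x.2))) := by
      refine hG.comp ?_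
      fun_prop
    rw [lintegral_lintegral_swap hm.aemeasurable]
    have h1 : ∀ y', ∫⁻ y in B, G (y' + t • (y - y')) ≤ 4 * ∫⁻ y, G y := by
      intro y'
      refine (setLIntegral_le_lintegral _ _).trans ?_
      have := pc_half hG ht ((1 - t) • y')
      have e : ∀ y : ℂ, (1 - t) • y' + t • y = y' + t • (y - y') := by
        intro y; rw [sub_smul, smul_sub, one_smul]; ring
      simpa only [e] using this
    calc ∫⁻ y' in B, ∫⁻ y in B, G (y' + t • (y - y'))
        ≤ ∫⁻ y' in B, 4 * ∫⁻ y, G y := lintegral_mono h1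
      _ = 4 * volume B * ∫⁻ y, G y := by
        rw [setLIntegral_const]; ring
  · have h1 : ∀ y, ∫⁻ y' in B, G (y' + t • (y - y')) ≤ 4 * ∫⁻ y, G y := by
      intro y
      refine (setLIntegral_le_lintegral _ _).trans ?_
      have := pc_half hG (t := 1 - t) (by linarith) (t • y)
      have e : ∀ y' : ℂ, t • y + (1 - t) • y' = y' + t • (y - y') := by
        intro y'; rw [sub_smul, smul_sub, one_smul]; ring
      simpa only [e] using this
    calc ∫⁻ y in B, ∫⁻ y' in B, G (y' + t • (y - y'))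
        ≤ ∫⁻ y in B, 4 * ∫⁻ y, G y := lintegral_mono h1
      _ = 4 * volume B * ∫⁻ y, G y := by
        rw [setLIntegral_const]; ring

/-- Poincare inequality on a disc -/
lemma poincare_ball {c : ℂ} {r : ℝ} (hr : 0 < r) : ∃ C : ℝ≥0∞, C ≠ ⊤ ∧ ∀ a : ℂ → ℝ,
    ContDiffOn ℝ 1 a (Metric.ball c r) →
    ∫⁻ y in Metric.ball c r, ∫⁻ y' in Metric.ball c r, ENNReal.ofReal ((a y - a y') ^ 2) ≤
      C * ∫⁻ y in Metric.ball c r, ENNReal.ofReal (gr2 a y) := by
  refine ⟨ENNReal.ofReal (4 * r ^ 2) * (4 * volume (Metric.ball c r)),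
    ENNReal.mul_ne_top ENNReal.ofReal_ne_top (ENNReal.mul_ne_top (by norm_num)
      measure_ball_lt_top.ne), ?_⟩
  intro a ha
  have hopen : IsOpen (Metric.ball c r) := Metric.isOpen_ball
  set B := Metric.ball c r with hB
  have hfc : ContinuousOn (fderiv ℝ a) B := ha.continuousOn_fderiv_of_isOpen hopen (by norm_num)
  have hgr : ContinuousOn (gr2 a) B := by
    unfold gr2
    exact ((hfc.clm_apply continuousOn_const).pow 2).add
      ((hfc.clm_apply continuousOn_const).pow 2)
  set G : ℂ → ℝ≥0∞ := B.indicator (fun u => ENNReal.ofReal (gr2 a u)) with hGdef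
  have hG : Measurable G := by
    rw [hGdef]
    classical
    rw [← Set.piecewise_eq_indicator]
    exact ContinuousOn.measurable_piecewise
      (ENNReal.continuous_ofReal.comp_continuousOn hgr) continuousOn_const hopen.measurableSet
  have hGint : ∫⁻ y, G y = ∫⁻ y in B, ENNReal.ofReal (gr2 a y) := by
    rw [hGdef, lintegral_indicator hopen.measurableSet]
  have hm : Measurable (fun x : (ℂ × ℂ) × ℝ => G (x.1.2 + x.2 • (x.1.1 - x.1.2))) := by
    refine hG.comp ?_
    fun_prop
  have hpt : ∀ y ∈ B, ∀ y' ∈ B, ENNReal.ofReal ((a y - a y') ^ 2) ≤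
      ENNReal.ofReal (4 * r ^ 2) * ∫⁻ t in Ioo (0:ℝ) 1, G (y' + t • (y - y')) := by
    intro y hy y' hy'
    refine (pc_pointwise ha hy hy').trans ?_
    refine mul_le_mul_right (setLIntegral_mono' measurableSet_Ioo (fun t ht => ?_)) _
    have hmem : y' + t • (y - y') ∈ B := by
      have := (convex_ball c r) hy' hy (sub_nonneg.2 ht.2.le) ht.1.le (by ring)
      have e : (1 - t) • y' + t • y = y' + t • (y - y') := by
        rw [sub_smul, smul_sub, one_smul]; ring
      rwa [e] at this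
    rw [hGdef, Set.indicator_of_mem hmem]
  have hsw1 : ∀ y, ∫⁻ y' in B, ∫⁻ t in Ioo (0:ℝ) 1, G (y' + t • (y - y')) =
      ∫⁻ t in Ioo (0:ℝ) 1, ∫⁻ y' in B, G (y' + t • (y - y')) := by
    intro y
    refine lintegral_lintegral_swap ?_
    refine Measurable.aemeasurable ?_
    refine hG.comp ?_
    fun_prop
  have hsw2 : ∫⁻ y in B, ∫⁻ t in Ioo (0:ℝ) 1, ∫⁻ y' in B, G (y' + t • (y - y')) =
      ∫⁻ t in Ioo (0:ℝ) 1, ∫⁻ y in B, ∫⁻ y' in B, G (y' + t • (y - y')) := by
    refine lintegral_lintegral_swap ?_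
    refine Measurable.aemeasurable ?_
    have hm2 : Measurable (fun x : (ℂ × ℝ) × ℂ => G (x.2 + x.1.2 • (x.1.1 - x.2))) := by
      refine hG.comp ?_
      fun_prop
    exact hm2.lintegral_prod_right'
  calc ∫⁻ y in B, ∫⁻ y' in B, ENNReal.ofReal ((a y - a y') ^ 2)
      ≤ ∫⁻ y in B, ∫⁻ y' in B, ENNReal.ofReal (4 * r ^ 2) *
          ∫⁻ t in Ioo (0:ℝ) 1, G (y' + t • (y - y')) := by
        refine setLIntegral_mono' hopen.measurableSet (fun y hy => ?_)
        exact setLIntegral_mono' hopen.measurableSet (fun y' hy' => hpt y hy y' hy')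
    _ = ENNReal.ofReal (4 * r ^ 2) * ∫⁻ y in B, ∫⁻ y' in B,
          ∫⁻ t in Ioo (0:ℝ) 1, G (y' + t • (y - y')) := by
        rw [← lintegral_const_mul' _ _ ENNReal.ofReal_ne_top]
        congr 1
        funext y
        rw [← lintegral_const_mul' _ _ ENNReal.ofReal_ne_top]
    _ = ENNReal.ofReal (4 * r ^ 2) * ∫⁻ t in Ioo (0:ℝ) 1, ∫⁻ y in B, ∫⁻ y' in B,
          G (y' + t • (y - y')) := by
        rw [← hsw2]
        congr 1
        congr 1
        funext y
        exact hsw1 y
    _ ≤ ENNReal.ofReal (4 * r ^ 2) * ∫⁻ t in Ioo (0:ℝ) 1, 4 * volume B * ∫⁻ y, G y := by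
        refine mul_le_mul_right (lintegral_mono (fun t => ?_)) _
        exact pc_conv G hG
    _ = ENNReal.ofReal (4 * r ^ 2) * (4 * volume B) *
          ∫⁻ y in B, ENNReal.ofReal (gr2 a y) := by
        rw [setLIntegral_const, hGint, Real.volume_Ioo]
        simp only [sub_zero, ENNReal.ofReal_one, mul_one]
        ring

/-- linked by a Poincare inequality -/
def PC (O : Set ℂ) (z z' : ℂ) : Prop := ∃ r > 0, Metric.ball z r ⊆ O ∧ Metric.ball z' r ⊆ O ∧
    ∃ C : ℝ≥0∞, C ≠ ⊤ ∧ ∀ a : ℂ → ℝ, ContDiffOn ℝ 1 a O →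
    ∫⁻ y in Metric.ball z r, ∫⁻ y' in Metric.ball z' r, ENNReal.ofReal ((a y - a y') ^ 2) ≤
      C * ∫⁻ y in O, ENNReal.ofReal (gr2 a y)

lemma pc_meas {O : Set ℂ} (hO : IsOpen O) {a : ℂ → ℝ} (ha : ContinuousOn a O) :
    Measurable (O.indicator a) := by
  classical
  rw [← Set.piecewise_eq_indicator]
  exact ContinuousOn.measurable_piecewise ha continuousOn_const hO.measurableSet

lemma pc_congr {O : Set ℂ} {a : ℂ → ℝ} {z z' : ℂ} {r r' : ℝ}
    (hz : Metric.ball z r ⊆ O) (hz' : Metric.ball z' r' ⊆ O) :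
    ∫⁻ y in Metric.ball z r, ∫⁻ y' in Metric.ball z' r', ENNReal.ofReal ((a y - a y') ^ 2) =
    ∫⁻ y in Metric.ball z r, ∫⁻ y' in Metric.ball z' r',
      ENNReal.ofReal ((O.indicator a y - O.indicator a y') ^ 2) := by
  refine setLIntegral_congr_fun measurableSet_ball (fun y hy => ?_)
  refine setLIntegral_congr_fun measurableSet_ball (fun y' hy' => ?_)
  simp only [Set.indicator_of_mem (hz hy), Set.indicator_of_mem (hz' hy')]

lemma PC.symm {O : Set ℂ} (hO : IsOpen O) {z z' : ℂ} (h : PC O z z') : PC O z' z := by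
  obtain ⟨r, hr, h1, h2, C, hC, h3⟩ := h
  refine ⟨r, hr, h2, h1, C, hC, fun a ha => ?_⟩
  refine le_trans (le_of_eq ?_) (h3 a ha)
  have hm := pc_meas hO ha.continuousOn
  rw [pc_congr h2 h1, pc_congr h1 h2, lintegral_lintegral_swap]
  · congr 1
    funext y
    congr 1
    funext y'
    congr 1
    ring
  · refine Measurable.aemeasurable ?_
    refine ENNReal.measurable_ofReal.comp ?_
    exact (((hm.comp measurable_fst).sub (hm.comp measurable_snd)).pow_const 2)

lemma pc_mono {a : ℂ → ℝ} {z z' : ℂ} {r r' s s' : ℝ} (h : r ≤ s) (h' : r' ≤ s') :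
    ∫⁻ y in Metric.ball z r, ∫⁻ y' in Metric.ball z' r', ENNReal.ofReal ((a y - a y') ^ 2) ≤
    ∫⁻ y in Metric.ball z s, ∫⁻ y' in Metric.ball z' s', ENNReal.ofReal ((a y - a y') ^ 2) := by
  refine (lintegral_mono_set (Metric.ball_subset_ball h)).trans ?_
  exact lintegral_mono (fun y => lintegral_mono_set (Metric.ball_subset_ball h'))

lemma PC.trans {O : Set ℂ} (hO : IsOpen O) {z w z' : ℂ} (h1 : PC O z w) (h2 : PC O w z') :
    PC O z z' := by
  obtain ⟨r1, hr1, a1, b1, C1, hC1, e1⟩ := h1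
  obtain ⟨r2, hr2, a2, b2, C2, hC2, e2⟩ := h2
  set r := min r1 r2 with hr
  have hr0 : 0 < r := lt_min hr1 hr2
  have hz : Metric.ball z r ⊆ O := (Metric.ball_subset_ball (min_le_left _ _)).trans a1
  have hw : Metric.ball w r ⊆ O := (Metric.ball_subset_ball (min_le_left _ _)).trans b1
  have hz' : Metric.ball z' r ⊆ O := (Metric.ball_subset_ball (min_le_right _ _)).trans b2
  set V := volume (Metric.ball w r) with hV
  have hV0 : V ≠ 0 := (Metric.measure_ball_pos volume w hr0).ne'
  have hVt : V ≠ ⊤ := measure_ball_lt_top.ne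
  have hVz : volume (Metric.ball z r) ≠ ⊤ := measure_ball_lt_top.ne
  have hVz' : volume (Metric.ball z' r) ≠ ⊤ := measure_ball_lt_top.ne
  refine ⟨r, hr0, hz, hz', V⁻¹ * (2 * volume (Metric.ball z' r) * C1 +
    2 * volume (Metric.ball z r) * C2), ?_, ?_⟩
  · refine ENNReal.mul_ne_top (ENNReal.inv_ne_top.2 hV0) (ENNReal.add_ne_top.2 ⟨?_, ?_⟩)
    · exact ENNReal.mul_ne_top (ENNReal.mul_ne_top (by norm_num) hVz') hC1
    · exact ENNReal.mul_ne_top (ENNReal.mul_ne_top (by norm_num) hVz) hC2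
  · intro a ha
    have f1 := (pc_mono (a := a) (z := z) (z' := w) (min_le_left r1 r2) (min_le_left r1 r2)).trans
      (e1 a ha)
    have f2 := (pc_mono (a := a) (z := w) (z' := z') (min_le_right r1 r2)
      (min_le_right r1 r2)).trans (e2 a ha)
    rw [← hr] at f1 f2
    rw [pc_congr hz hw] at f1
    rw [pc_congr hw hz'] at f2
    rw [pc_congr hz hz']
    set b := O.indicator a with hb
    have hm : Measurable b := pc_meas hO ha.continuousOn
    set E := ∫⁻ y in O, ENNReal.ofReal (gr2 a y) with hE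
    have hmm : Measurable (fun x : ℂ × ℂ => ENNReal.ofReal ((b x.1 - b x.2) ^ 2)) := by
      refine ENNReal.measurable_ofReal.comp ?_
      exact (((hm.comp measurable_fst).sub (hm.comp measurable_snd)).pow_const 2)
    have hm1 : ∀ y, Measurable (fun w' => ENNReal.ofReal ((b y - b w') ^ 2)) := fun y =>
      hmm.comp measurable_prodMk_left
    have hm2 : ∀ y, Measurable (fun w' => ENNReal.ofReal ((b w' - b y) ^ 2)) := fun y =>
      hmm.comp measurable_prodMk_right
    have hpt : ∀ y y' w' : ℂ, ENNReal.ofReal ((b y - b y') ^ 2) ≤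
        2 * ENNReal.ofReal ((b y - b w') ^ 2) + 2 * ENNReal.ofReal ((b w' - b y') ^ 2) := by
      intro y y' w'
      have e : (2 : ℝ≥0∞) = ENNReal.ofReal 2 := by norm_num
      rw [e, ← ENNReal.ofReal_mul (by norm_num), ← ENNReal.ofReal_mul (by norm_num),
        ← ENNReal.ofReal_add (by positivity) (by positivity)]
      refine ENNReal.ofReal_le_ofReal ?_
      nlinarith [sq_nonneg ((b y - b w') - (b w' - b y'))]
    have hin : ∀ y y' : ℂ, V * ENNReal.ofReal ((b y - b y') ^ 2) ≤
        2 * (∫⁻ w' in Metric.ball w r, ENNReal.ofReal ((b y - b w') ^ 2)) +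
        2 * ∫⁻ w' in Metric.ball w r, ENNReal.ofReal ((b w' - b y') ^ 2) := by
      intro y y'
      calc V * ENNReal.ofReal ((b y - b y') ^ 2)
          = ∫⁻ w' in Metric.ball w r, ENNReal.ofReal ((b y - b y') ^ 2) := by
            rw [setLIntegral_const]; ring
        _ ≤ ∫⁻ w' in Metric.ball w r, (2 * ENNReal.ofReal ((b y - b w') ^ 2) +
              2 * ENNReal.ofReal ((b w' - b y') ^ 2)) := lintegral_mono (fun w' => hpt y y' w')
        _ = _ := by
            rw [lintegral_add_left ((hm1 y).const_mul 2), lintegral_const_mul _ (hm1 y),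
              lintegral_const_mul _ (hm2 y')]
    have hmain : V * ∫⁻ y in Metric.ball z r, ∫⁻ y' in Metric.ball z' r,
        ENNReal.ofReal ((b y - b y') ^ 2) ≤
        2 * volume (Metric.ball z' r) * (C1 * E) + 2 * volume (Metric.ball z r) * (C2 * E) := by
      calc V * ∫⁻ y in Metric.ball z r, ∫⁻ y' in Metric.ball z' r,
            ENNReal.ofReal ((b y - b y') ^ 2)
          = ∫⁻ y in Metric.ball z r, ∫⁻ y' in Metric.ball z' r,
            V * ENNReal.ofReal ((b y - b y') ^ 2) := by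
            rw [← lintegral_const_mul' _ _ hVt]
            congr 1
            funext y
            rw [← lintegral_const_mul' _ _ hVt]
        _ ≤ ∫⁻ y in Metric.ball z r, ∫⁻ y' in Metric.ball z' r,
            (2 * (∫⁻ w' in Metric.ball w r, ENNReal.ofReal ((b y - b w') ^ 2)) +
              2 * ∫⁻ w' in Metric.ball w r, ENNReal.ofReal ((b w' - b y') ^ 2)) :=
            lintegral_mono (fun y => lintegral_mono (fun y' => hin y y'))
        _ = ∫⁻ y in Metric.ball z r, (2 * volume (Metric.ball z' r) *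
              (∫⁻ w' in Metric.ball w r, ENNReal.ofReal ((b y - b w') ^ 2)) +
              2 * ∫⁻ y' in Metric.ball z' r, ∫⁻ w' in Metric.ball w r,
                ENNReal.ofReal ((b w' - b y') ^ 2)) := by
            congr 1
            funext y
            rw [lintegral_add_left measurable_const, setLIntegral_const,
              lintegral_const_mul' _ _ (by norm_num)]
            ring
        _ = 2 * volume (Metric.ball z' r) * (∫⁻ y in Metric.ball z r,
              ∫⁻ w' in Metric.ball w r, ENNReal.ofReal ((b y - b w') ^ 2)) +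
            2 * volume (Metric.ball z r) * ∫⁻ y' in Metric.ball z' r,
              ∫⁻ w' in Metric.ball w r, ENNReal.ofReal ((b w' - b y') ^ 2) := by
            rw [lintegral_add_right _ measurable_const, setLIntegral_const,
              lintegral_const_mul' _ _ (ENNReal.mul_ne_top (by norm_num) hVz')]
            ring
        _ ≤ _ := by
            refine add_le_add (mul_le_mul_right f1 _) (mul_le_mul_right ?_ _)
            refine le_trans (le_of_eq ?_) f2
            rw [lintegral_lintegral_swap]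
            exact (hmm.comp measurable_swap).aemeasurable
    calc ∫⁻ y in Metric.ball z r, ∫⁻ y' in Metric.ball z' r, ENNReal.ofReal ((b y - b y') ^ 2)
        = V⁻¹ * (V * ∫⁻ y in Metric.ball z r, ∫⁻ y' in Metric.ball z' r,
            ENNReal.ofReal ((b y - b y') ^ 2)) := by
          rw [← mul_assoc, ENNReal.inv_mul_cancel hV0 hVt, one_mul]
      _ ≤ V⁻¹ * (2 * volume (Metric.ball z' r) * (C1 * E) +
            2 * volume (Metric.ball z r) * (C2 * E)) := mul_le_mul_right hmain _
      _ = _ := by ring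

/-- two points of a preconnected open set are linked by a Poincare inequality -/
theorem poincare_chain {O : Set ℂ} (hO : IsOpen O) (hc : IsPreconnected O) {z z' : ℂ} (hz : z ∈ O)
    (hz' : z' ∈ O) : ∃ r > 0, Metric.ball z r ⊆ O ∧ Metric.ball z' r ⊆ O ∧
    ∃ C : ℝ≥0∞, C ≠ ⊤ ∧ ∀ a : ℂ → ℝ, ContDiffOn ℝ 1 a O →
    ∫⁻ y in Metric.ball z r, ∫⁻ y' in Metric.ball z' r, ENNReal.ofReal ((a y - a y') ^ 2) ≤
      C * ∫⁻ y in O, ENNReal.ofReal (gr2 a y) := by
  have key : PC O z z' := by
    refine hc.induction₂ (PC O) ?_ ?_ ?_ hz hz'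
    · intro x hx
      obtain ⟨ρ, hρ, hb⟩ := Metric.isOpen_iff.1 hO x hx
      have hmem : Metric.ball x (ρ / 2) ∈ 𝓝[O] x :=
        mem_nhdsWithin_of_mem_nhds (Metric.ball_mem_nhds x (by positivity))
      filter_upwards [hmem] with y hy
      have hsub : Metric.ball y (ρ / 2) ⊆ Metric.ball x ρ := by
        refine Metric.ball_subset_ball' ?_
        have := Metric.mem_ball.1 hy
        linarith
      have hsub' : Metric.ball x (ρ / 2) ⊆ Metric.ball x ρ :=
        Metric.ball_subset_ball (by linarith)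
      obtain ⟨C, hC, h⟩ := poincare_ball (c := x) hρ
      refine ⟨ρ / 2, by positivity, hsub'.trans hb, hsub.trans hb, C, hC, fun a ha => ?_⟩
      calc ∫⁻ u in Metric.ball x (ρ / 2), ∫⁻ u' in Metric.ball y (ρ / 2),
            ENNReal.ofReal ((a u - a u') ^ 2)
          ≤ ∫⁻ u in Metric.ball x ρ, ∫⁻ u' in Metric.ball x ρ,
            ENNReal.ofReal ((a u - a u') ^ 2) := by
            refine (lintegral_mono_set hsub').trans ?_
            exact lintegral_mono (fun y => lintegral_mono_set hsub)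
        _ ≤ C * ∫⁻ u in Metric.ball x ρ, ENNReal.ofReal (gr2 a u) := h a (ha.mono hb)
        _ ≤ _ := mul_le_mul_right (lintegral_mono_set hb) _
    · intro x y w _ _ _ h1 h2
      exact h1.trans hO h2
    · intro x y _ _ h
      exact h.symm hO
  exact key

end Pool.Agent.H5.EC
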