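import Pool.Agent.H5.EC.E3
import Pool.Agent.H5.EC.E4

/-! Part E5: the energy contradiction. -/

open Set Topology MeasureTheory
open scoped Manifold ContDiff ENNReal

noncomputable section

namespace Pool.Agent.H5.EC

/-- total energy -/
def En (f : ℂ → X3 → ℝ) : ℝ≥0∞ := ∫⁻ z in F, ∫⁻ p in Sh3, ENNReal.ofReal (gr2 (fun z => ph f z p) z)

/-! ### Measurability -/

lemma measurable_ind_e5 {g : ℂ × X3 → ℝ} (hg : ContinuousOn g (F ×ˢ {0}ᶜ)) :
    Measurable ((F ×ˢ ({0}ᶜ : Set X3)).indicator g) := by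
  classical
  rw [← Set.piecewise_eq_indicator]
  exact ContinuousOn.measurable_piecewise hg continuous_zero.continuousOn
    (isOpen_F.prod isOpen_compl_singleton).measurableSet

/-- a measurable representative of `ph` -/
def phm (f : ℂ → X3 → ℝ) : ℂ × X3 → ℝ :=
  (F ×ˢ ({0}ᶜ : Set X3)).indicator (fun x => ph f x.1 x.2)

/-- a measurable representative of the gradient of `ph` -/
def grm (f : ℂ → X3 → ℝ) : ℂ × X3 → ℝ :=
  (F ×ˢ ({0}ᶜ : Set X3)).indicator (fun x => gr2 (fun z => ph f z x.2) x.1)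

lemma continuousOn_gr2_ph {f : ℂ → X3 → ℝ} (hf : TF3 f) :
    ContinuousOn (fun x : ℂ × X3 => gr2 (fun z => ph f z x.2) x.1) (F ×ˢ {0}ᶜ) := by
  have h1 : ContinuousOn (fun x : ℂ × X3 =>
      (9 / 4) * (ph f x.1 x.2) ^ 2 * gr2 (fun z => bt f z x.2) x.1) (F ×ˢ {0}ᶜ) :=
    (continuousOn_const.mul ((continuousOn_ph hf).pow 2)).mul (continuousOn_gr2_bt hf)
  refine h1.congr ?_
  rintro ⟨z, p⟩ ⟨hz, hp⟩
  exact gr2_ph hf hz hp

lemma measurable_phm {f : ℂ → X3 → ℝ} (hf : TF3 f) : Measurable (phm f) :=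
  measurable_ind_e5 (continuousOn_ph hf)

lemma measurable_grm {f : ℂ → X3 → ℝ} (hf : TF3 f) : Measurable (grm f) :=
  measurable_ind_e5 (continuousOn_gr2_ph hf)

lemma phm_eq {f : ℂ → X3 → ℝ} {z : ℂ} (hz : z ∈ F) {p : X3} (hp : p ≠ 0) :
    phm f (z, p) = ph f z p :=
  Set.indicator_of_mem (show (z, p) ∈ F ×ˢ ({0}ᶜ : Set X3) from ⟨hz, hp⟩) _

lemma grm_eq {f : ℂ → X3 → ℝ} {z : ℂ} (hz : z ∈ F) {p : X3} (hp : p ≠ 0) :
    grm f (z, p) = gr2 (fun z => ph f z p) z :=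
  Set.indicator_of_mem (show (z, p) ∈ F ×ˢ ({0}ᶜ : Set X3) from ⟨hz, hp⟩) _

lemma En_eq (f : ℂ → X3 → ℝ) :
    En f = ∫⁻ z in F, ∫⁻ p in Sh3, ENNReal.ofReal (grm f (z, p)) := by
  unfold En
  refine setLIntegral_congr_fun isOpen_F.measurableSet (fun z hz => ?_)
  refine setLIntegral_congr_fun measurableSet_Sh3 (fun p hp => ?_)
  rw [grm_eq hz (Sh3_ne hp)]

lemma continuousOn_ph_right {f : ℂ → X3 → ℝ} (hf : TF3 f) {z : ℂ} (hz : z ∈ F) :
    ContinuousOn (fun p => ph f z p) {0}ᶜ := by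
  refine (continuousOn_ph hf).comp (f := fun p : X3 => (z, p)) (by fun_prop) ?_
  intro p hp
  exact ⟨hz, hp⟩

lemma measurable_ph_right {f : ℂ → X3 → ℝ} (hf : TF3 f) {z : ℂ} (hz : z ∈ F) :
    Measurable (fun p => ph f z p) :=
  measurable_of_continuousOn_compl_singleton 0 (continuousOn_ph_right hf hz)

lemma continuousOn_gr2_ph_right {f : ℂ → X3 → ℝ} (hf : TF3 f) {z : ℂ} (hz : z ∈ F) :
    ContinuousOn (fun p => gr2 (fun z => ph f z p) z) {0}ᶜ := by
  refine (continuousOn_gr2_ph hf).comp (f := fun p : X3 => (z, p)) (by fun_prop) ?_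
  intro p hp
  exact ⟨hz, hp⟩

lemma measurable_gr2_ph_right {f : ℂ → X3 → ℝ} (hf : TF3 f) {z : ℂ} (hz : z ∈ F) :
    Measurable (fun p => gr2 (fun z => ph f z p) z) :=
  measurable_of_continuousOn_compl_singleton 0 (continuousOn_gr2_ph_right hf hz)

lemma integrable_ph_sq {f : ℂ → X3 → ℝ} (hf : TF3 f) {z : ℂ} (hz : z ∈ F) :
    IntegrableOn (fun p => (ph f z p) ^ 2) Sh3 := by
  have h1 : ContinuousOn (fun p => (ph f z p) ^ 2) {p : X3 | la ^ 2 ≤ nsq p ∧ nsq p ≤ 1} := by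
    refine ((continuousOn_ph_right hf hz).pow 2).mono ?_
    intro p hp h0
    have h0' : p = 0 := h0
    have h2 : la ^ 2 ≤ nsq p := hp.1
    rw [h0'] at h2
    have h3 : nsq (0 : X3) = 0 := by simp [nsq]
    rw [h3] at h2
    have := pow_pos la_pos 2
    linarith
  exact (h1.integrableOn_compact isCompact_cSh3).mono_set Sh3_subset

lemma ofReal_ms {f : ℂ → X3 → ℝ} (hf : TF3 f) {z : ℂ} (hz : z ∈ F) :
    ENNReal.ofReal (ms f z) = ∫⁻ p in Sh3, ENNReal.ofReal ((ph f z p) ^ 2) := by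
  unfold ms
  exact ofReal_integral_eq_lintegral_ofReal (integrable_ph_sq hf hz)
    (Filter.Eventually.of_forall (fun p => sq_nonneg _))

/-! ### The first inequality -/

lemma gr2_scale {f : ℂ → X3 → ℝ} (hf : TF3 f) {z : ℂ} (hz : z ∈ F) {p : X3} (hp : p ≠ 0) :
    gr2 (fun z => ph f z ((la : ℂ) • p)) z = la ^ (-6 : ℤ) * gr2 (fun z => ph f z p) z := by
  have h1 : (fun z => ph f z ((la : ℂ) • p)) =ᶠ[𝓝 z] (fun z => la ^ (-3 : ℤ) * ph f z p) := by
    filter_upwards [isOpen_F.mem_nhds hz] with y hy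
    exact ph_scale hf hy hp
  rw [gr2_congr h1]
  unfold gr2
  have hd : DifferentiableAt ℝ (fun z => ph f z p) z :=
    ((ph_smooth hf hp).contDiffAt (isOpen_F.mem_nhds hz)).differentiableAt (by simp)
  have h2 : fderiv ℝ (fun z => la ^ (-3 : ℤ) * ph f z p) z =
      la ^ (-3 : ℤ) • fderiv ℝ (fun z => ph f z p) z := by
    have := fderiv_const_smul (f := fun z => ph f z p) hd (la ^ (-3 : ℤ))
    simpa [smul_eq_mul, Pi.smul_def] using this
  rw [h2]
  simp only [_root_.smul_apply, smul_eq_mul]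
  have h3 : la ^ (-6 : ℤ) = la ^ (-3 : ℤ) * la ^ (-3 : ℤ) := by
    rw [← zpow_add₀ la_ne]; norm_num
  rw [h3]; ring

lemma RM_ne_zero (i : Mv) {p : X3} (hp : p ≠ 0) : RM (1 : ℂ) i p ≠ 0 := by
  intro h
  apply hp
  exact (RM (1 : ℂ) i).injective (by rw [h, map_zero])

lemma gr2_act {f : ℂ → X3 → ℝ} (hf : TF3 f) {i : Mv} {z : ℂ} (hz : z ∈ dom i) {p : X3}
    (hp : p ≠ 0) :
    ‖actd i z‖ ^ 2 * gr2 (fun z => ph f z (RM (1 : ℂ) i p)) (act i z) =
      gr2 (fun z => ph f z p) z := by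
  have h1 : (fun z => ph f z p) =ᶠ[𝓝 z] (fun z => (fun y => ph f y (RM (1 : ℂ) i p)) (act i z)) := by
    filter_upwards [(isOpen_dom i).mem_nhds hz] with y hy
    exact (ph_act hf hy hp).symm
  rw [gr2_congr h1]
  have hd := hasDerivAt_act hz
  have h2 := gr2_comp_holo (a := fun y => ph f y (RM (1 : ℂ) i p)) (g := act i) (z := z)
    hd.differentiableAt ?_
  · rw [hd.deriv] at h2
    exact h2.symm
  exact ((ph_smooth hf (RM_ne_zero i hp)).contDiffAt
    (isOpen_F.mem_nhds (act_mem_F hz))).differentiableAt (by simp)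

lemma En_le {f : ℂ → X3 → ℝ} (hf : TF3 f) :
    En f ≤ 9 * ∫⁻ z in F, ENNReal.ofReal (eps none z) *
      ∫⁻ p in Sh3, ENNReal.ofReal (gr2 (fun z => ph f z p) z) := by
  have hm : Measurable (fun z => ∫⁻ p in Sh3, ENNReal.ofReal (grm f (z, p))) :=
    Measurable.lintegral_prod_right' (f := fun x : ℂ × X3 => ENNReal.ofReal (grm f x))
      (ENNReal.measurable_ofReal.comp (measurable_grm hf))
  have hgr : ∀ z ∈ F, ∫⁻ p in Sh3, ENNReal.ofReal (grm f (z, p)) =
      ∫⁻ p in Sh3, ENNReal.ofReal (gr2 (fun z => ph f z p) z) := fun z hz =>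
    setLIntegral_congr_fun measurableSet_Sh3 (fun p hp => by
      rw [grm_eq hz (Sh3_ne hp)])
  have h1 := lintegral_le_nine hm (by
    intro i z hz
    have hz1 : z ∈ F := dom_subset i hz
    have hz2 : act i z ∈ F := act_mem_F hz
    rw [hgr _ hz1, hgr _ hz2]
    have h2 := lintegral_shell i
      (w := fun p => ENNReal.ofReal (gr2 (fun z => ph f z p) (act i z)))
      (ENNReal.measurable_ofReal.comp (measurable_gr2_ph_right hf hz2)) (by
        intro p hp
        rw [gr2_scale hf hz2 hp, ENNReal.ofReal_mul (zpow_nonneg la_pos.le _)])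
    rw [← h2, ← lintegral_const_mul']
    · refine setLIntegral_congr_fun measurableSet_Sh3 (fun p hp => ?_)
      rw [← gr2_act hf hz (Sh3_ne hp), ENNReal.ofReal_mul (by positivity)]
    · exact ENNReal.ofReal_ne_top)
  rw [En_eq]
  refine h1.trans (le_of_eq ?_)
  congr 1
  refine setLIntegral_congr_fun isOpen_F.measurableSet (fun z hz => ?_)
  rw [hgr z hz]

/-! ### Differences of `ph` at two points -/

/-- squared distance of the slices -/
def Df (f : ℂ → X3 → ℝ) (y y' : ℂ) : ℝ≥0∞ :=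
  ∫⁻ p in Sh3, ENNReal.ofReal ((ph f y p - ph f y' p) ^ 2)

/-- a measurable representative -/
def Dm (f : ℂ → X3 → ℝ) (y y' : ℂ) : ℝ≥0∞ :=
  ∫⁻ p in Sh3, ENNReal.ofReal ((phm f (y, p) - phm f (y', p)) ^ 2)

lemma Df_eq {f : ℂ → X3 → ℝ} {y y' : ℂ} (hy : y ∈ F) (hy' : y' ∈ F) : Df f y y' = Dm f y y' := by
  unfold Df Dm
  refine setLIntegral_congr_fun measurableSet_Sh3 (fun p hp => ?_)
  rw [phm_eq hy (Sh3_ne hp), phm_eq hy' (Sh3_ne hp)]

lemma measurable_kernel {f : ℂ → X3 → ℝ} (hf : TF3 f) :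
    Measurable (fun x : (ℂ × ℂ) × X3 =>
      ENNReal.ofReal ((phm f (x.1.1, x.2) - phm f (x.1.2, x.2)) ^ 2)) := by
  have h := measurable_phm hf
  refine ENNReal.measurable_ofReal.comp (Measurable.pow_const ?_ 2)
  exact (h.comp (by fun_prop : Measurable (fun x : (ℂ × ℂ) × X3 => (x.1.1, x.2)))).sub
    (h.comp (by fun_prop : Measurable (fun x : (ℂ × ℂ) × X3 => (x.1.2, x.2))))

lemma measurable_kernel2 {f : ℂ → X3 → ℝ} (hf : TF3 f) :
    Measurable (fun x : (ℂ × X3) × ℂ =>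
      ENNReal.ofReal ((phm f (x.1.1, x.1.2) - phm f (x.2, x.1.2)) ^ 2)) := by
  have h := measurable_phm hf
  refine ENNReal.measurable_ofReal.comp (Measurable.pow_const ?_ 2)
  exact (h.comp (by fun_prop : Measurable (fun x : (ℂ × X3) × ℂ => (x.1.1, x.1.2)))).sub
    (h.comp (by fun_prop : Measurable (fun x : (ℂ × X3) × ℂ => (x.2, x.1.2))))

lemma measurable_kernel3 {f : ℂ → X3 → ℝ} (hf : TF3 f) (y : ℂ) :
    Measurable (fun x : ℂ × X3 =>
      ENNReal.ofReal ((phm f (y, x.2) - phm f (x.1, x.2)) ^ 2)) := by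
  have h := measurable_phm hf
  refine ENNReal.measurable_ofReal.comp (Measurable.pow_const ?_ 2)
  exact (h.comp (by fun_prop : Measurable (fun x : ℂ × X3 => (y, x.2)))).sub
    (h.comp (by fun_prop : Measurable (fun x : ℂ × X3 => (x.1, x.2))))

lemma measurable_kernel4 {f : ℂ → X3 → ℝ} (hf : TF3 f) (B : Set ℂ) :
    Measurable (fun x : ℂ × X3 => ∫⁻ y' in B,
      ENNReal.ofReal ((phm f (x.1, x.2) - phm f (y', x.2)) ^ 2)) :=
  Measurable.lintegral_prod_right' (f := fun x : (ℂ × X3) × ℂ =>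
      ENNReal.ofReal ((phm f (x.1.1, x.1.2) - phm f (x.2, x.1.2)) ^ 2)) (measurable_kernel2 hf)

lemma swap_Dm {f : ℂ → X3 → ℝ} (hf : TF3 f) (y : ℂ) (B : Set ℂ) :
    ∫⁻ y' in B, Dm f y y' =
        ∫⁻ p in Sh3, ∫⁻ y' in B, ENNReal.ofReal ((phm f (y, p) - phm f (y', p)) ^ 2) := by
  unfold Dm
  exact lintegral_lintegral_swap (f := fun y' p =>
    ENNReal.ofReal ((phm f (y, p) - phm f (y', p)) ^ 2)) (measurable_kernel3 hf y).aemeasurable

lemma swap_Dm2 {f : ℂ → X3 → ℝ} (hf : TF3 f) (A B : Set ℂ) :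
    ∫⁻ y in A, ∫⁻ y' in B, Dm f y y' =
        ∫⁻ p in Sh3, ∫⁻ y in A, ∫⁻ y' in B,
          ENNReal.ofReal ((phm f (y, p) - phm f (y', p)) ^ 2) := by
  simp_rw [swap_Dm hf]
  exact lintegral_lintegral_swap (f := fun y p => ∫⁻ y' in B,
    ENNReal.ofReal ((phm f (y, p) - phm f (y', p)) ^ 2)) (measurable_kernel4 hf B).aemeasurable

lemma measurable_Dm {f : ℂ → X3 → ℝ} (hf : TF3 f) :
    Measurable (fun x : ℂ × ℂ => Dm f x.1 x.2) :=
  Measurable.lintegral_prod_right' (f := fun x : (ℂ × ℂ) × X3 =>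
      ENNReal.ofReal ((phm f (x.1.1, x.2) - phm f (x.1.2, x.2)) ^ 2)) (measurable_kernel hf)

/-- Poincare inequality for the slices -/
lemma chain_ph {z z' : ℂ} (hz : z ∈ F) (hz' : z' ∈ F) : ∃ r > 0, Metric.ball z r ⊆ F ∧
    Metric.ball z' r ⊆ F ∧ ∃ C : ℝ≥0∞, C ≠ ⊤ ∧ ∀ f : ℂ → X3 → ℝ, TF3 f →
      ∫⁻ y in Metric.ball z r, ∫⁻ y' in Metric.ball z' r, Df f y y' ≤ C * En f := by
  obtain ⟨r, hr, hb, hb', C, hC, H⟩ := poincare_chain isOpen_F isPreconnected_F hz hz'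
  refine ⟨r, hr, hb, hb', C, hC, fun f hf => ?_⟩
  have e1 : ∫⁻ y in Metric.ball z r, ∫⁻ y' in Metric.ball z' r, Df f y y' =
      ∫⁻ y in Metric.ball z r, ∫⁻ y' in Metric.ball z' r, Dm f y y' := by
    refine setLIntegral_congr_fun measurableSet_ball (fun y hy => ?_)
    refine setLIntegral_congr_fun measurableSet_ball (fun y' hy' => ?_)
    exact Df_eq (hb hy) (hb' hy')
  rw [e1]
  rw [swap_Dm2 hf]
  have e4 : En f = ∫⁻ p in Sh3, ∫⁻ y in F, ENNReal.ofReal (grm f (y, p)) := by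
    rw [En_eq]
    refine lintegral_lintegral_swap ?_
    exact (ENNReal.measurable_ofReal.comp (measurable_grm hf)).aemeasurable
  rw [e4, ← lintegral_const_mul' _ _ hC]
  refine setLIntegral_mono' measurableSet_Sh3 (fun p hp => ?_)
  have hp0 := Sh3_ne hp
  have h1 := H (fun z => ph f z p) ((ph_smooth hf hp0).of_le (by simp))
  have e5 : ∫⁻ y in Metric.ball z r, ∫⁻ y' in Metric.ball z' r,
        ENNReal.ofReal ((phm f (y, p) - phm f (y', p)) ^ 2) =
      ∫⁻ y in Metric.ball z r, ∫⁻ y' in Metric.ball z' r,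
        ENNReal.ofReal ((ph f y p - ph f y' p) ^ 2) := by
    refine setLIntegral_congr_fun measurableSet_ball (fun y hy => ?_)
    refine setLIntegral_congr_fun measurableSet_ball (fun y' hy' => ?_)
    rw [phm_eq (hb hy) hp0, phm_eq (hb' hy') hp0]
  have e6 : ∫⁻ y in F, ENNReal.ofReal (grm f (y, p)) =
      ∫⁻ y in F, ENNReal.ofReal (gr2 (fun z => ph f z p) y) := by
    refine setLIntegral_congr_fun isOpen_F.measurableSet (fun y hy => ?_)
    rw [grm_eq hy hp0]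
  rw [e5, e6]
  exact h1

lemma sq_le_two {a b : ℝ} : b ^ 2 ≤ 2 * (a - b) ^ 2 + 2 * a ^ 2 := by nlinarith [sq_nonneg (2 * a - b)]

/-- mass at `y'` in terms of mass at `y` -/
lemma ms_bound {f : ℂ → X3 → ℝ} (hf : TF3 f) {y y' : ℂ} (hy : y ∈ F) (hy' : y' ∈ F) :
    ENNReal.ofReal (ms f y') ≤ 2 * Dm f y y' + 2 * ENNReal.ofReal (ms f y) := by
  rw [ofReal_ms hf hy', ofReal_ms hf hy, ← Df_eq hy hy']
  unfold Df
  rw [← lintegral_const_mul' _ _ (by simp), ← lintegral_const_mul' _ _ (by simp),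
    ← lintegral_add_right]
  · refine lintegral_mono (fun p => ?_)
    calc ENNReal.ofReal (ph f y' p ^ 2)
        ≤ ENNReal.ofReal (2 * (ph f y p - ph f y' p) ^ 2 + 2 * ph f y p ^ 2) :=
          ENNReal.ofReal_le_ofReal sq_le_two
      _ = _ := by
          rw [ENNReal.ofReal_add (by positivity) (by positivity), ENNReal.ofReal_mul (by norm_num),
            ENNReal.ofReal_mul (by norm_num)]
          simp
  · exact (ENNReal.measurable_ofReal.comp ((measurable_ph_right hf hy).pow_const 2)).const_mul _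

lemma measurable_msm {f : ℂ → X3 → ℝ} (hf : TF3 f) :
    AEMeasurable (fun z => ENNReal.ofReal (ms f z)) (volume.restrict F) :=
  ((continuousOn_ms hf).aemeasurable isOpen_F.measurableSet).ennreal_ofReal

/-- mass of a disc -/
lemma mass_ball {z₀ : ℂ} (hz₀ : z₀ ∈ F) {r₀ : ℝ} (hr₀ : 0 < r₀) {z' : ℂ} (hz' : z' ∈ F) :
    ∃ r > 0, Metric.ball z' r ⊆ F ∧ ∃ C : ℝ≥0∞, C ≠ ⊤ ∧ ∀ f : ℂ → X3 → ℝ, TF3 f →
      ∫⁻ z in Metric.ball z' r, ENNReal.ofReal (ms f z) ≤
        C * ((∫⁻ z in Metric.ball z₀ r₀, ENNReal.ofReal (ms f z)) + En f) := by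
  obtain ⟨r, hr, hb, hb', C, hC, H⟩ := chain_ph hz₀ hz'
  set ρ := min r r₀ with hρ
  have hρ0 : 0 < ρ := lt_min hr hr₀
  have hρr : Metric.ball z₀ ρ ⊆ Metric.ball z₀ r := Metric.ball_subset_ball (min_le_left _ _)
  have hρr₀ : Metric.ball z₀ ρ ⊆ Metric.ball z₀ r₀ := Metric.ball_subset_ball (min_le_right _ _)
  set vA := volume (Metric.ball z₀ ρ) with hvA
  set vB := volume (Metric.ball z' r) with hvB
  have hvA0 : vA ≠ 0 := (Metric.measure_ball_pos volume z₀ hρ0).ne'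
  have hvAt : vA ≠ ⊤ := measure_ball_lt_top.ne
  have hvBt : vB ≠ ⊤ := measure_ball_lt_top.ne
  refine ⟨r, hr, hb', vA⁻¹ * (2 * C + 2 * vB), ?_, fun f hf => ?_⟩
  · refine ENNReal.mul_ne_top (ENNReal.inv_ne_top.mpr hvA0) ?_
    exact ENNReal.add_ne_top.mpr ⟨ENNReal.mul_ne_top (by simp) hC, ENNReal.mul_ne_top (by simp) hvBt⟩
  have key : vA * ∫⁻ z in Metric.ball z' r, ENNReal.ofReal (ms f z) ≤
      2 * (C * En f) + 2 * vB * ∫⁻ z in Metric.ball z₀ r₀, ENNReal.ofReal (ms f z) := by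
    calc vA * ∫⁻ z in Metric.ball z' r, ENNReal.ofReal (ms f z)
        = ∫⁻ _ in Metric.ball z₀ ρ, ∫⁻ y' in Metric.ball z' r, ENNReal.ofReal (ms f y') := by
          rw [setLIntegral_const, mul_comm]
      _ ≤ ∫⁻ y in Metric.ball z₀ ρ, ∫⁻ y' in Metric.ball z' r,
            (2 * Dm f y y' + 2 * ENNReal.ofReal (ms f y)) := by
          refine setLIntegral_mono' measurableSet_ball (fun y hy => ?_)
          refine setLIntegral_mono' measurableSet_ball (fun y' hy' => ?_)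
          exact ms_bound hf (hb (hρr hy)) (hb' hy')
      _ = ∫⁻ y in Metric.ball z₀ ρ, ((2 * ∫⁻ y' in Metric.ball z' r, Dm f y y') +
            2 * vB * ENNReal.ofReal (ms f y)) := by
          refine lintegral_congr (fun y => ?_)
          rw [lintegral_add_right _ measurable_const, lintegral_const_mul' _ _ (by simp),
            setLIntegral_const]
          ring
      _ = (2 * ∫⁻ y in Metric.ball z₀ ρ, ∫⁻ y' in Metric.ball z' r, Dm f y y') +
            2 * vB * ∫⁻ y in Metric.ball z₀ ρ, ENNReal.ofReal (ms f y) := by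
          rw [lintegral_add_right', lintegral_const_mul' _ _ (by simp),
            lintegral_const_mul' _ _ (ENNReal.mul_ne_top (by simp) hvBt)]
          exact ((measurable_msm hf).mono_measure
            (Measure.restrict_mono (hρr.trans hb) le_rfl)).const_mul _
      _ ≤ _ := by
          refine add_le_add ?_ ?_
          · refine mul_le_mul_right ?_ 2
            refine le_trans ?_ (H f hf)
            refine le_trans (lintegral_mono_set hρr) (le_of_eq ?_)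
            refine setLIntegral_congr_fun measurableSet_ball (fun y hy => ?_)
            refine setLIntegral_congr_fun measurableSet_ball (fun y' hy' => ?_)
            exact (Df_eq (hb hy) (hb' hy')).symm
          · exact mul_le_mul_right (lintegral_mono_set hρr₀) _
  calc ∫⁻ z in Metric.ball z' r, ENNReal.ofReal (ms f z)
      = vA⁻¹ * (vA * ∫⁻ z in Metric.ball z' r, ENNReal.ofReal (ms f z)) := by
        rw [← mul_assoc, ENNReal.inv_mul_cancel hvA0 hvAt, one_mul]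
    _ ≤ vA⁻¹ * (2 * (C * En f) + 2 * vB * ∫⁻ z in Metric.ball z₀ r₀, ENNReal.ofReal (ms f z)) :=
        mul_le_mul_right key _
    _ ≤ vA⁻¹ * ((2 * C + 2 * vB) *
          ((∫⁻ z in Metric.ball z₀ r₀, ENNReal.ofReal (ms f z)) + En f)) := by
        refine mul_le_mul_right ?_ _
        set I := ∫⁻ z in Metric.ball z₀ r₀, ENNReal.ofReal (ms f z)
        calc 2 * (C * En f) + 2 * vB * I ≤ (2 * (C * En f) + 2 * vB * I) + (2 * C * I + 2 * vB * En f) :=
              le_self_add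
          _ = _ := by ring
    _ = _ := by rw [mul_assoc]

/-- mass of a compact set -/
lemma mass_compact {z₀ : ℂ} (hz₀ : z₀ ∈ F) {r₀ : ℝ} (hr₀ : 0 < r₀) {K : Set ℂ} (hK : IsCompact K)
    (hKF : K ⊆ F) : ∃ C : ℝ≥0∞, C ≠ ⊤ ∧ ∀ f : ℂ → X3 → ℝ, TF3 f →
      ∫⁻ z in K, ENNReal.ofReal (ms f z) ≤
        C * ((∫⁻ z in Metric.ball z₀ r₀, ENNReal.ofReal (ms f z)) + En f) := by
  refine hK.induction_on (p := fun K => ∃ C : ℝ≥0∞, C ≠ ⊤ ∧ ∀ f : ℂ → X3 → ℝ, TF3 f →
      ∫⁻ z in K, ENNReal.ofReal (ms f z) ≤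
        C * ((∫⁻ z in Metric.ball z₀ r₀, ENNReal.ofReal (ms f z)) + En f)) ?_ ?_ ?_ ?_
  · exact ⟨0, by simp, fun f _ => by simp⟩
  · rintro s t hst ⟨C, hC, H⟩
    exact ⟨C, hC, fun f hf => (lintegral_mono_set hst).trans (H f hf)⟩
  · rintro s t ⟨C, hC, H⟩ ⟨C', hC', H'⟩
    refine ⟨C + C', ENNReal.add_ne_top.mpr ⟨hC, hC'⟩, fun f hf => ?_⟩
    refine (lintegral_union_le _ _ _).trans ?_
    rw [add_mul]
    exact add_le_add (H f hf) (H' f hf)
  · intro x hx
    obtain ⟨r, hr, _, C, hC, H⟩ := mass_ball hz₀ hr₀ (hKF hx)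
    exact ⟨Metric.ball x r, mem_nhdsWithin_of_mem_nhds (Metric.ball_mem_nhds x hr), C, hC, H⟩

/-- the conformal factor is bounded on compact sets -/
lemma sig_bdd {K : Set ℂ} (hK : IsCompact K) (hKF : K ⊆ F) : ∃ M : ℝ, 0 ≤ M ∧ ∀ z ∈ K, sig z ≤ M := by
  obtain ⟨M, hM⟩ := hK.exists_bound_of_continuousOn (contDiffOn_sig.continuousOn.mono hKF)
  exact ⟨max M 0, le_max_right _ _, fun z hz =>
    (le_abs_self _).trans ((hM z hz).trans (le_max_left _ _))⟩

/-- the weighted mass lives on the core -/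
lemma weighted_le {f : ℂ → X3 → ℝ} (hf : TF3 f) {M : ℝ} (hM0 : 0 ≤ M)
    (hM : ∀ z ∈ KF (1 / 3), sig z ≤ M) :
    ∫⁻ z in F, ENNReal.ofReal (eps none z * (sig z * ms f z)) ≤
      ENNReal.ofReal M * ∫⁻ z in KF (1 / 3), ENNReal.ofReal (ms f z) := by
  have hKm : MeasurableSet (KF (1 / 3)) := (isCompact_KF (by norm_num)).measurableSet
  have hKF : KF (1 / 3) ⊆ F := KF_subset (by norm_num)
  calc ∫⁻ z in F, ENNReal.ofReal (eps none z * (sig z * ms f z))
      ≤ ∫⁻ z in F, (KF (1 / 3)).indicator (fun z => ENNReal.ofReal M * ENNReal.ofReal (ms f z)) z := by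
        refine setLIntegral_mono' isOpen_F.measurableSet (fun z hz => ?_)
        by_cases h : z ∈ KF (1 / 3)
        · rw [Set.indicator_of_mem h, ← ENNReal.ofReal_mul hM0]
          refine ENNReal.ofReal_le_ofReal ?_
          have h1 := eps_nonneg none hz
          have h2 := eps_le_one none hz
          have h3 := (sig_pos hz).le
          have h4 := (ms_pos hf hz).le
          calc eps none z * (sig z * ms f z) ≤ 1 * (sig z * ms f z) :=
                mul_le_mul_of_nonneg_right h2 (mul_nonneg h3 h4)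
            _ ≤ M * ms f z := by
                rw [one_mul]
                exact mul_le_mul_of_nonneg_right (hM z h) h4
        · have h0 : eps none z = 0 := by
            by_contra hne
            exact h (eps_none_ne hz hne)
          rw [h0, zero_mul, ENNReal.ofReal_zero]
          exact bot_le
    _ = ∫⁻ z in KF (1 / 3), ENNReal.ofReal M * ENNReal.ofReal (ms f z) := by
        rw [lintegral_indicator hKm, Measure.restrict_restrict hKm,
          Set.inter_eq_self_of_subset_left hKF]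
    _ = _ := lintegral_const_mul' _ _ ENNReal.ofReal_ne_top

/-- the weighted mass is controlled by the mass of a small disc and the energy -/
lemma mass_le {z₀ : ℂ} (hz₀ : z₀ ∈ F) {r₀ : ℝ} (hr₀ : 0 < r₀) (_hb : Metric.ball z₀ r₀ ⊆ F) :
    ∃ C : ℝ≥0∞, C ≠ ⊤ ∧ ∀ f : ℂ → X3 → ℝ, TF3 f →
      ∫⁻ z in F, ENNReal.ofReal (eps none z * (sig z * ms f z)) ≤
        C * ((∫⁻ z in Metric.ball z₀ r₀, ENNReal.ofReal (ms f z)) + En f) := by
  have hK : IsCompact (KF (1 / 3)) := isCompact_KF (by norm_num)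
  have hKF : KF (1 / 3) ⊆ F := KF_subset (by norm_num)
  obtain ⟨M, hM0, hM⟩ := sig_bdd hK hKF
  obtain ⟨C, hC, H⟩ := mass_compact hz₀ hr₀ hK hKF
  refine ⟨ENNReal.ofReal M * C, ENNReal.mul_ne_top ENNReal.ofReal_ne_top hC, fun f hf => ?_⟩
  rw [mul_assoc]
  exact (weighted_le hf hM0 hM).trans (mul_le_mul_right (H f hf) _)

/-- finiteness of the weighted mass -/
lemma weighted_ne_top {f : ℂ → X3 → ℝ} (hf : TF3 f) :
    ∫⁻ z in F, ENNReal.ofReal (eps none z * (sig z * ms f z)) ≠ ⊤ := by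
  have hK : IsCompact (KF (1 / 3)) := isCompact_KF (by norm_num)
  have hKF : KF (1 / 3) ⊆ F := KF_subset (by norm_num)
  obtain ⟨M, hM0, hM⟩ := sig_bdd hK hKF
  refine ne_top_of_le_ne_top ?_ (weighted_le hf hM0 hM)
  refine ENNReal.mul_ne_top ENNReal.ofReal_ne_top ?_
  have h1 : IntegrableOn (ms f) (KF (1 / 3)) :=
    ((continuousOn_ms hf).mono hKF).integrableOn_compact hK
  exact h1.lintegral_lt_top.ne

/-! ### Almost invariance -/

lemma sq_le_four {a b c : ℝ} : (a - b) ^ 2 ≤ 2 * (a - c) ^ 2 + 2 * (c - b) ^ 2 := by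
  nlinarith [sq_nonneg (a - 2 * c + b)]

/-- squared distance of the slice to its image -/
def Dr (f : ℂ → X3 → ℝ) (i : Mv) (z : ℂ) : ℝ≥0∞ :=
  ∫⁻ p in Sh3, ENNReal.ofReal ((ph f z (RM (1 : ℂ) i p) - ph f z p) ^ 2)

lemma Df_move {f : ℂ → X3 → ℝ} (hf : TF3 f) (i : Mv) {y y' : ℂ} (hy : y ∈ F) (hy' : y' ∈ F) :
    ∫⁻ p in Sh3, ENNReal.ofReal ((ph f y (RM (1 : ℂ) i p) - ph f y' (RM (1 : ℂ) i p)) ^ 2) =
      Df f y y' := by
  refine lintegral_shell i (w := fun p => ENNReal.ofReal ((ph f y p - ph f y' p) ^ 2)) ?_ ?_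
  · exact ENNReal.measurable_ofReal.comp
      (((measurable_ph_right hf hy).sub (measurable_ph_right hf hy')).pow_const 2)
  · intro p hp
    rw [ph_scale hf hy hp, ph_scale hf hy' hp, ← ENNReal.ofReal_mul (zpow_nonneg la_pos.le _)]
    congr 1
    have h3 : la ^ (-6 : ℤ) = la ^ (-3 : ℤ) * la ^ (-3 : ℤ) := by
      rw [← zpow_add₀ la_ne]; norm_num
    rw [h3]; ring

/-- pointwise triangle inequality -/
lemma Dr_le {f : ℂ → X3 → ℝ} (hf : TF3 f) {b : Bd} {y z : ℂ} (hy : y ∈ F) (hz : z ∈ U b) :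
    Dr f (some b) y ≤ 2 * Dm f y (mv b z) + 2 * Dm f y z := by
  have hz' : z ∈ F := U_subset b hz
  have hmz : mv b z ∈ F := mv_mem_F hz
  rw [← Df_eq hy hmz, ← Df_eq hy hz', ← Df_move hf (some b) hy hmz]
  unfold Dr Df
  rw [← lintegral_const_mul' _ _ (by simp), ← lintegral_const_mul' _ _ (by simp),
    ← lintegral_add_right]
  · refine setLIntegral_mono' measurableSet_Sh3 (fun p hp => ?_)
    have e : ph f (mv b z) (RM (1 : ℂ) (some b) p) = ph f z p :=
      ph_act hf (i := some b) hz (Sh3_ne hp)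
    rw [e]
    calc ENNReal.ofReal ((ph f y (RM (1 : ℂ) (some b) p) - ph f y p) ^ 2)
        ≤ ENNReal.ofReal (2 * (ph f y (RM (1 : ℂ) (some b) p) - ph f z p) ^ 2 +
            2 * (ph f y p - ph f z p) ^ 2) := by
          refine ENNReal.ofReal_le_ofReal ?_
          nlinarith [sq_nonneg (ph f y (RM (1 : ℂ) (some b) p) - 2 * ph f z p + ph f y p)]
      _ = _ := by
          rw [ENNReal.ofReal_add (by positivity) (by positivity), ENNReal.ofReal_mul (by norm_num),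
            ENNReal.ofReal_mul (by norm_num)]
          simp
  · exact (ENNReal.measurable_ofReal.comp
      (((measurable_ph_right hf hy).sub (measurable_ph_right hf hz')).pow_const 2)).const_mul _

/-- a point in each collar -/
lemma exists_U (b : Bd) : ∃ z, z ∈ U b := by
  have hl2 : 0 < Real.log 2 := Real.log_pos (by norm_num)
  obtain ⟨z, h0, h1⟩ : ∃ z, 0 < dep b z ∧ dep b z < 1 := by
    by_cases hb : b = (0, false)
    · refine ⟨100 * Complex.I, ?_⟩
      unfold dep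
      rw [if_pos hb]
      have hn : ‖(100 * Complex.I : ℂ)‖ = 100 := by simp
      rw [hn]
      have e6 : Real.log (2 ^ 6) < Real.log 100 := Real.log_lt_log (by norm_num) (by norm_num)
      have e7 : Real.log 100 < Real.log (2 ^ 7) := Real.log_lt_log (by norm_num) (by norm_num)
      rw [Real.log_pow] at e6 e7
      push_cast at e6 e7
      have h6 : 6 < Real.log 100 / Real.log 2 := by rw [lt_div_iff₀ hl2]; exact e6
      have h7 : Real.log 100 / Real.log 2 < 7 := by rw [div_lt_iff₀ hl2]; exact e7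
      constructor <;> linarith
    · refine ⟨cen b + (3 / 2 : ℝ) * Complex.I, ?_⟩
      unfold dep
      rw [if_neg hb, add_sub_cancel_left]
      have hn : ‖((3 / 2 : ℝ) * Complex.I : ℂ)‖ = 3 / 2 := by
        rw [norm_mul, Complex.norm_I, mul_one, Complex.norm_real]
        norm_num
      rw [hn]
      have e0 : 0 < Real.log (3 / 2) := Real.log_pos (by norm_num)
      have e1 : Real.log (3 / 2) < Real.log 2 := Real.log_lt_log (by norm_num) (by norm_num)
      exact ⟨div_pos e0 hl2, by rw [div_lt_one hl2]; exact e1⟩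
  refine ⟨z, ?_, h1⟩
  intro b'
  by_cases hb : b = b'
  · rw [← hb]; exact h0
  · have := dep_sep hb h0 h1
    linarith

/-- change of variables in the second point -/
lemma Dm_mv_le (f : ℂ → X3 → ℝ) (b : Bd) {V B : Set ℂ} (hV : MeasurableSet V) (hVU : V ⊆ U b)
    (hB : MeasurableSet B) (hVB : ∀ z ∈ V, mv b z ∈ B) {c : ℝ} (hc : 0 < c)
    (hcV : ∀ z ∈ V, c ≤ ‖mvd b z‖ ^ 2) (y : ℂ) :
    ∫⁻ z in V, Dm f y (mv b z) ≤ (ENNReal.ofReal c)⁻¹ * ∫⁻ z in B, Dm f y z := by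
  have hc0 : ENNReal.ofReal c ≠ 0 := by simpa using hc
  have hct : (ENNReal.ofReal c)⁻¹ ≠ ⊤ := ENNReal.inv_ne_top.mpr hc0
  calc ∫⁻ z in V, Dm f y (mv b z)
      ≤ ∫⁻ z in V, (ENNReal.ofReal c)⁻¹ *
          (ENNReal.ofReal (‖mvd b z‖ ^ 2) * (B.indicator (fun z => Dm f y z)) (mv b z)) := by
        refine setLIntegral_mono' hV (fun z hz => ?_)
        rw [Set.indicator_of_mem (hVB z hz), ← mul_assoc]
        calc Dm f y (mv b z) = 1 * Dm f y (mv b z) := (one_mul _).symm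
          _ ≤ _ := by
              refine mul_le_mul_left ?_ _
              rw [← ENNReal.inv_mul_cancel hc0 ENNReal.ofReal_ne_top]
              exact mul_le_mul_right (ENNReal.ofReal_le_ofReal (hcV z hz)) _
    _ = (ENNReal.ofReal c)⁻¹ * ∫⁻ z in V,
          (ENNReal.ofReal (‖mvd b z‖ ^ 2) * (B.indicator (fun z => Dm f y z)) (mv b z)) :=
        lintegral_const_mul' _ _ hct
    _ ≤ (ENNReal.ofReal c)⁻¹ * ∫⁻ z in U b,
          (ENNReal.ofReal (‖mvd b z‖ ^ 2) * (B.indicator (fun z => Dm f y z)) (mv b z)) :=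
        mul_le_mul_right (lintegral_mono_set hVU) _
    _ = (ENNReal.ofReal c)⁻¹ * ∫⁻ z in U b.inv, (B.indicator (fun z => Dm f y z)) z := by
        rw [lintegral_mv]
    _ ≤ (ENNReal.ofReal c)⁻¹ * ∫⁻ z, (B.indicator (fun z => Dm f y z)) z :=
        mul_le_mul_right (setLIntegral_le_lintegral _ _) _
    _ = _ := by rw [lintegral_indicator hB]

/-- good neighbourhoods for the change of variables -/
lemma local_data {b : Bd} {z1 : ℂ} (hz1 : z1 ∈ U b) {r1 r2 : ℝ} (hr1 : 0 < r1) (hr2 : 0 < r2) :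
    ∃ ρ > 0, ∃ c > 0, ∀ z ∈ Metric.ball z1 ρ, c ≤ ‖mvd b z‖ ^ 2 ∧
      mv b z ∈ Metric.ball (mv b z1) r2 ∧ z ∈ U b ∧ z ∈ Metric.ball z1 r1 := by
  have hpos : 0 < ‖mvd b z1‖ ^ 2 := by
    have := norm_pos_iff.mpr (mvd_ne hz1)
    positivity
  have hcont : ContinuousAt (fun z => ‖mvd b z‖ ^ 2) z1 :=
    ((contDiffAt_mvd hz1 0).continuousAt.norm).pow 2
  have hev1 : ∀ᶠ z in 𝓝 z1, ‖mvd b z1‖ ^ 2 / 2 < ‖mvd b z‖ ^ 2 :=
    hcont.eventually (lt_mem_nhds (by linarith))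
  have hev2 : ∀ᶠ z in 𝓝 z1, mv b z ∈ Metric.ball (mv b z1) r2 :=
    (hasDerivAt_mv hz1).continuousAt.eventually (Metric.ball_mem_nhds _ hr2)
  have hev3 : ∀ᶠ z in 𝓝 z1, z ∈ U b := (isOpen_U b).mem_nhds hz1
  have hev4 : ∀ᶠ z in 𝓝 z1, z ∈ Metric.ball z1 r1 := Metric.ball_mem_nhds _ hr1
  obtain ⟨ρ, hρ, hV⟩ := Metric.eventually_nhds_iff_ball.mp
    (hev1.and (hev2.and (hev3.and hev4)))
  exact ⟨ρ, hρ, ‖mvd b z1‖ ^ 2 / 2, by linarith, fun z hz =>
    ⟨(hV z hz).1.le, (hV z hz).2.1, (hV z hz).2.2.1, (hV z hz).2.2.2⟩⟩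

/-- replacing `Df` by `Dm` in the double integral -/
lemma dbl_eq (f : ℂ → X3 → ℝ) {A B : Set ℂ} (hA : MeasurableSet A) (hB : MeasurableSet B)
    (hAF : A ⊆ F) (hBF : B ⊆ F) :
    ∫⁻ y in A, ∫⁻ z in B, Dm f y z = ∫⁻ y in A, ∫⁻ z in B, Df f y z := by
  refine setLIntegral_congr_fun hA (fun y hy => ?_)
  refine setLIntegral_congr_fun hB (fun y' hy' => ?_)
  exact (Df_eq (hAF hy) (hBF hy')).symm

lemma defect_aux1 {f : ℂ → X3 → ℝ} (hf : TF3 f) (b : Bd) {A V : Set ℂ} (hA : MeasurableSet A)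
    (hV : MeasurableSet V) (hAF : A ⊆ F) (hVU : V ⊆ U b) (hvt : volume V ≠ ⊤) :
    volume V * ∫⁻ y in A, Dr f (some b) y ≤
      (2 * ∫⁻ y in A, ∫⁻ z in V, Dm f y (mv b z)) + 2 * ∫⁻ y in A, ∫⁻ z in V, Dm f y z := by
  have hDm := measurable_Dm hf
  have hmy : ∀ y, Measurable (fun z => Dm f y z) := fun y =>
    Measurable.comp (g := fun x : ℂ × ℂ => Dm f x.1 x.2) (f := fun z : ℂ => (y, z)) hDm
      measurable_prodMk_left
  have hmV : Measurable (fun y => ∫⁻ z in V, Dm f y z) :=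
    Measurable.lintegral_prod_right' (f := fun x : ℂ × ℂ => Dm f x.1 x.2) hDm
  calc volume V * ∫⁻ y in A, Dr f (some b) y
      = ∫⁻ y in A, ∫⁻ _ in V, Dr f (some b) y := by
        simp_rw [setLIntegral_const]
        rw [lintegral_mul_const' _ _ hvt, mul_comm]
    _ ≤ ∫⁻ y in A, ∫⁻ z in V, (2 * Dm f y (mv b z) + 2 * Dm f y z) := by
        refine setLIntegral_mono' hA (fun y hy => ?_)
        refine setLIntegral_mono' hV (fun z hz => ?_)
        exact Dr_le hf (hAF hy) (hVU hz)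
    _ = ∫⁻ y in A, ((2 * ∫⁻ z in V, Dm f y (mv b z)) + 2 * ∫⁻ z in V, Dm f y z) := by
        refine lintegral_congr (fun y => ?_)
        rw [lintegral_add_right _ ((hmy y).const_mul 2), lintegral_const_mul' _ _ (by simp),
          lintegral_const_mul' _ _ (by simp)]
    _ = (2 * ∫⁻ y in A, ∫⁻ z in V, Dm f y (mv b z)) + 2 * ∫⁻ y in A, ∫⁻ z in V, Dm f y z := by
        rw [lintegral_add_right _ (hmV.const_mul 2), lintegral_const_mul' _ _ (by simp),
          lintegral_const_mul' _ _ (by simp)]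

lemma defect_aux2 {f : ℂ → X3 → ℝ} (b : Bd) {A A' V B : Set ℂ} (hAA : A ⊆ A')
    (hV : MeasurableSet V) (hB : MeasurableSet B) (hVU : V ⊆ U b) (hVB : ∀ z ∈ V, mv b z ∈ B)
    {c : ℝ} (hc : 0 < c) (hcV : ∀ z ∈ V, c ≤ ‖mvd b z‖ ^ 2) :
    ∫⁻ y in A, ∫⁻ z in V, Dm f y (mv b z) ≤
      (ENNReal.ofReal c)⁻¹ * ∫⁻ y in A', ∫⁻ z in B, Dm f y z := by
  have hc0 : ENNReal.ofReal c ≠ 0 := by simpa using hc
  have hct : (ENNReal.ofReal c)⁻¹ ≠ ⊤ := ENNReal.inv_ne_top.mpr hc0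
  calc ∫⁻ y in A, ∫⁻ z in V, Dm f y (mv b z)
      ≤ ∫⁻ y in A, (ENNReal.ofReal c)⁻¹ * ∫⁻ z in B, Dm f y z :=
        lintegral_mono (fun y => Dm_mv_le f b hV hVU hB hVB hc hcV y)
    _ = (ENNReal.ofReal c)⁻¹ * ∫⁻ y in A, ∫⁻ z in B, Dm f y z :=
        lintegral_const_mul' _ _ hct
    _ ≤ _ := mul_le_mul_right (lintegral_mono_set hAA) _

lemma defect_aux3 {I E v C1 C2 c : ℝ≥0∞} (hv0 : v ≠ 0) (hvt : v ≠ ⊤)
    (h : v * I ≤ 2 * (c * (C2 * E)) + 2 * (C1 * E)) :
    I ≤ v⁻¹ * (2 * (c * C2) + 2 * C1) * E := by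
  calc I = v⁻¹ * (v * I) := by rw [← mul_assoc, ENNReal.inv_mul_cancel hv0 hvt, one_mul]
    _ ≤ v⁻¹ * (2 * (c * (C2 * E)) + 2 * (C1 * E)) := mul_le_mul_right h _
    _ = _ := by ring

/-- almost invariance along one collar -/
lemma defect_b {z₀ : ℂ} (hz₀ : z₀ ∈ F) (b : Bd) : ∃ r₀ > 0, Metric.ball z₀ r₀ ⊆ F ∧
    ∃ C : ℝ≥0∞, C ≠ ⊤ ∧ ∀ f : ℂ → X3 → ℝ, TF3 f →
      ∫⁻ z in Metric.ball z₀ r₀, Dr f (some b) z ≤ C * En f := by
  obtain ⟨z1, hz1⟩ := exists_U b
  obtain ⟨r1, hr1, hb1, hb1', C1, hC1, H1⟩ := chain_ph hz₀ (U_subset b hz1)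
  obtain ⟨r2, hr2, hb2, hb2', C2, hC2, H2⟩ := chain_ph hz₀ (mv_mem_F hz1)
  obtain ⟨ρ, hρ, c, hc, hV⟩ := local_data hz1 hr1 hr2
  have hA1 : Metric.ball z₀ (min r1 r2) ⊆ Metric.ball z₀ r1 :=
    Metric.ball_subset_ball (min_le_left _ _)
  have hA2 : Metric.ball z₀ (min r1 r2) ⊆ Metric.ball z₀ r2 :=
    Metric.ball_subset_ball (min_le_right _ _)
  have hv0 : volume (Metric.ball z1 ρ) ≠ 0 := (Metric.measure_ball_pos volume z1 hρ).ne'
  have hvt : volume (Metric.ball z1 ρ) ≠ ⊤ := measure_ball_lt_top.ne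
  have hc0 : ENNReal.ofReal c ≠ 0 := by simpa using hc
  have hct : (ENNReal.ofReal c)⁻¹ ≠ ⊤ := ENNReal.inv_ne_top.mpr hc0
  refine ⟨min r1 r2, lt_min hr1 hr2, hA1.trans hb1,
    (volume (Metric.ball z1 ρ))⁻¹ * (2 * ((ENNReal.ofReal c)⁻¹ * C2) + 2 * C1), ?_,
    fun f hf => ?_⟩
  · refine ENNReal.mul_ne_top (ENNReal.inv_ne_top.mpr hv0) (ENNReal.add_ne_top.mpr ⟨?_, ?_⟩)
    · exact ENNReal.mul_ne_top (by simp) (ENNReal.mul_ne_top hct hC2)
    · exact ENNReal.mul_ne_top (by simp) hC1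
  refine defect_aux3 hv0 hvt ?_
  have h1 := defect_aux1 hf b (A := Metric.ball z₀ (min r1 r2)) (V := Metric.ball z1 ρ)
    measurableSet_ball measurableSet_ball (hA1.trans hb1) (fun z hz => (hV z hz).2.2.1) hvt
  refine h1.trans (add_le_add (mul_le_mul_right ?_ 2) (mul_le_mul_right ?_ 2))
  · have h2 := defect_aux2 (f := f) b hA2 (V := Metric.ball z1 ρ) (B := Metric.ball (mv b z1) r2)
      measurableSet_ball measurableSet_ball (fun z hz => (hV z hz).2.2.1)
      (fun z hz => (hV z hz).2.1) hc (fun z hz => (hV z hz).1)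
    refine h2.trans (mul_le_mul_right ?_ _)
    rw [dbl_eq f measurableSet_ball measurableSet_ball hb2 hb2']
    exact H2 f hf
  · have h3 : ∫⁻ y in Metric.ball z₀ (min r1 r2), ∫⁻ z in Metric.ball z1 ρ, Dm f y z ≤
        ∫⁻ y in Metric.ball z₀ r1, ∫⁻ z in Metric.ball z1 r1, Dm f y z :=
      (lintegral_mono (fun y => lintegral_mono_set (fun z hz => (hV z hz).2.2.2))).trans
        (lintegral_mono_set hA1)
    refine h3.trans ?_
    rw [dbl_eq f measurableSet_ball measurableSet_ball hb1 hb1']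
    exact H1 f hf

lemma Dr_none (f : ℂ → X3 → ℝ) (z : ℂ) : Dr f none z = 0 := by
  unfold Dr
  simp [RM_none]

/-- almost invariance in terms of the energy -/
lemma defect_le {z₀ : ℂ} (hz₀ : z₀ ∈ F) : ∃ r₀ > 0, Metric.ball z₀ r₀ ⊆ F ∧
    ∃ C : ℝ≥0∞, C ≠ ⊤ ∧ ∀ f : ℂ → X3 → ℝ, TF3 f → ∀ i : Mv,
      ∫⁻ z in Metric.ball z₀ r₀, ∫⁻ p in Sh3,
        ENNReal.ofReal ((ph f z (RM (1 : ℂ) i p) - ph f z p) ^ 2) ≤ C * En f := by
  choose r hr hb C hC H using fun b => defect_b hz₀ b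
  obtain ⟨b0, hb0⟩ := Finite.exists_min r
  refine ⟨r b0, hr b0, hb b0, ∑ b, C b, ?_, fun f hf i => ?_⟩
  · exact (ENNReal.sum_lt_top.mpr (fun b _ => (hC b).lt_top)).ne
  change ∫⁻ z in Metric.ball z₀ (r b0), Dr f i z ≤ _
  rcases i with _ | b
  · simp [Dr_none]
  · refine (lintegral_mono_set (Metric.ball_subset_ball (hb0 b))).trans ((H b f hf).trans ?_)
    exact mul_le_mul_left (Finset.single_le_sum (fun _ _ => bot_le) (Finset.mem_univ b)) _

/-! ### The contradiction -/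

/-- mass of a disc in terms of the energy -/
lemma mass_en {δ : ℝ}
    (H : ∀ ψ : X3 → ℝ, Measurable ψ →
      (∀ p : X3, p ≠ 0 → ψ ((la : ℂ) • p) = la ^ (-3 : ℤ) * ψ p) →
      IntegrableOn (fun p => (ψ p) ^ 2) Sh3 →
      ENNReal.ofReal δ * ∫⁻ p in Sh3, ENNReal.ofReal ((ψ p) ^ 2) ≤
        ∑ i : Mv, ∫⁻ p in Sh3, ENNReal.ofReal ((ψ (RM (1 : ℂ) i p) - ψ p) ^ 2))
    {f : ℂ → X3 → ℝ} (hf : TF3 f) {A : Set ℂ} (hA : MeasurableSet A) (hAF : A ⊆ F) {C : ℝ≥0∞}
    (HC : ∀ i : Mv, ∫⁻ z in A, Dr f i z ≤ C * En f) :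
    ENNReal.ofReal δ * ∫⁻ z in A, ENNReal.ofReal (ms f z) ≤ 9 * (C * En f) := by
  have hmeas : ∀ i : Mv, AEMeasurable (Dr f i) (volume.restrict A) := by
    intro i
    have h1 : Measurable (fun x : ℂ × X3 => ENNReal.ofReal
        ((phm f (x.1, RM (1 : ℂ) i x.2) - phm f x) ^ 2)) := by
      have h := measurable_phm hf
      have hR : Measurable (fun x : ℂ × X3 => (x.1, RM (1 : ℂ) i x.2)) :=
        measurable_fst.prodMk ((RM (1 : ℂ) i).continuous.measurable.comp measurable_snd)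
      exact ENNReal.measurable_ofReal.comp (((h.comp hR).sub h).pow_const 2)
    have h2 : Measurable (fun z => ∫⁻ p in Sh3, ENNReal.ofReal
        ((phm f (z, RM (1 : ℂ) i p) - phm f (z, p)) ^ 2)) :=
      Measurable.lintegral_prod_right' (f := fun x : ℂ × X3 => ENNReal.ofReal
        ((phm f (x.1, RM (1 : ℂ) i x.2) - phm f x) ^ 2)) h1
    refine ⟨_, h2, ?_⟩
    refine (ae_restrict_iff' hA).mpr (Filter.Eventually.of_forall (fun z hz => ?_))
    refine setLIntegral_congr_fun measurableSet_Sh3 (fun p hp => ?_)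
    have hp0 := Sh3_ne hp
    rw [phm_eq (hAF hz) hp0, phm_eq (hAF hz) (RM_ne_zero i hp0)]
  calc ENNReal.ofReal δ * ∫⁻ z in A, ENNReal.ofReal (ms f z)
      = ∫⁻ z in A, ENNReal.ofReal δ * ENNReal.ofReal (ms f z) :=
        (lintegral_const_mul' _ _ ENNReal.ofReal_ne_top).symm
    _ ≤ ∫⁻ z in A, ∑ i : Mv, Dr f i z := by
        refine setLIntegral_mono' hA (fun z hz => ?_)
        rw [ofReal_ms hf (hAF hz)]
        exact H (fun p => ph f z p) (measurable_ph_right hf (hAF hz))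
          (fun p hp => ph_scale hf (hAF hz) hp) (integrable_ph_sq hf (hAF hz))
    _ = ∑ i : Mv, ∫⁻ z in A, Dr f i z := lintegral_finsetSum' _ (fun i _ => hmeas i)
    _ ≤ ∑ _ : Mv, C * En f := Finset.sum_le_sum (fun i _ => HC i)
    _ = 9 * (C * En f) := by
        rw [Finset.sum_const, nsmul_eq_mul]
        rfl

/-- the arithmetic of the contradiction -/
lemma ennreal_contra {E M W C1 C2 : ℝ≥0∞} {δ ε : ℝ} (hδ : 0 < δ) (hC1 : C1 ≠ ⊤) (hC2 : C2 ≠ ⊤)
    (hε : 0 < ε) (hεs : 27 / 4 * ε * (C2.toReal * (9 * C1.toReal / δ + 1)) < 1)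
    (hW : W ≠ ⊤) (h1 : E ≤ 9 * (ENNReal.ofReal ((3 / 4) * ε) * W)) (h2 : W ≤ C2 * (M + E))
    (h3 : ENNReal.ofReal δ * M ≤ 9 * (C1 * E)) : M = 0 := by
  have hE : E ≠ ⊤ := ne_top_of_le_ne_top
    (ENNReal.mul_ne_top (by simp) (ENNReal.mul_ne_top ENNReal.ofReal_ne_top hW)) h1
  have hδ0 : ENNReal.ofReal δ ≠ 0 := by simpa using hδ
  have hM : M ≠ ⊤ := by
    intro h
    rw [h, ENNReal.mul_top hδ0] at h3
    exact (ENNReal.mul_ne_top (by simp) (ENNReal.mul_ne_top hC1 hE)) (top_le_iff.mp h3)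
  -- pass to real numbers
  lift E to NNReal using hE
  lift M to NNReal using hM
  lift W to NNReal using hW
  lift C1 to NNReal using hC1
  lift C2 to NNReal using hC2
  simp only [ENNReal.coe_toReal] at hεs
  have e9 : (9 : ℝ≥0∞) = ((9 : NNReal) : ℝ≥0∞) := by simp
  have r1 : (E : ℝ) ≤ 9 * ((3 / 4 * ε) * W) := by
    have h : (E : ℝ≥0∞) ≤ ((9 * (Real.toNNReal (3 / 4 * ε) * W) : NNReal) : ℝ≥0∞) := by
      rw [ENNReal.coe_mul, ENNReal.coe_mul, ← e9]; exact h1
    have h' : (E : NNReal) ≤ 9 * (Real.toNNReal (3 / 4 * ε) * W) := by exact_mod_cast h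
    have h'' : (E : ℝ) ≤ ((9 * (Real.toNNReal (3 / 4 * ε) * W) : NNReal) : ℝ) := by exact_mod_cast h'
    rw [NNReal.coe_mul, NNReal.coe_mul, Real.coe_toNNReal _ (by positivity)] at h''
    exact h''
  have r2 : (W : ℝ) ≤ C2 * (M + E) := by exact_mod_cast h2
  have r3 : δ * M ≤ 9 * (C1 * E) := by
    have h : ((Real.toNNReal δ * M : NNReal) : ℝ≥0∞) ≤ ((9 * (C1 * E) : NNReal) : ℝ≥0∞) := by
      rw [ENNReal.coe_mul, ENNReal.coe_mul, ENNReal.coe_mul, ← e9]; exact h3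
    have h' : (Real.toNNReal δ * M : NNReal) ≤ 9 * (C1 * E) := by exact_mod_cast h
    have h'' : ((Real.toNNReal δ * M : NNReal) : ℝ) ≤ ((9 * (C1 * E) : NNReal) : ℝ) := by
      exact_mod_cast h'
    rw [NNReal.coe_mul, Real.coe_toNNReal _ hδ.le] at h''
    exact h''
  have hE0 : (0 : ℝ) ≤ E := E.coe_nonneg
  have hM0 : (0 : ℝ) ≤ M := M.coe_nonneg
  have hC10 : (0 : ℝ) ≤ C1 := C1.coe_nonneg
  have hC20 : (0 : ℝ) ≤ C2 := C2.coe_nonneg
  have r4 : (M : ℝ) ≤ 9 * C1 / δ * E := by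
    rw [div_mul_eq_mul_div, le_div_iff₀ hδ]
    linarith
  have r5 : (E : ℝ) ≤ (27 / 4 * ε * (C2 * (9 * C1 / δ + 1))) * E := by
    calc (E : ℝ) ≤ 9 * ((3 / 4 * ε) * W) := r1
      _ ≤ 9 * ((3 / 4 * ε) * (C2 * (M + E))) := by gcongr
      _ ≤ 9 * ((3 / 4 * ε) * (C2 * (9 * C1 / δ * E + E))) := by gcongr
      _ = _ := by ring
  have r6 : (E : ℝ) = 0 := by
    by_contra hne
    have hpos : (0 : ℝ) < E := lt_of_le_of_ne hE0 (Ne.symm hne)
    have := mul_lt_mul_of_pos_right hεs hpos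
    linarith
  have r7 : (M : ℝ) = 0 := by
    rw [r6, mul_zero] at r4
    linarith
  have r8 : M = 0 := by exact_mod_cast r7
  rw [r8]; rfl

/-- the energy contradiction, without the circle variable -/
theorem energy3 : ∃ ε > 0, ∀ f : ℂ → X3 → ℝ, TF3 f →
    ¬ ∀ z ∈ F, ∀ p : X3, p ≠ 0 → lap2 (fun z => bt f z p) z ≤ ε * sig z := by
  obtain ⟨δ, hδ, Hδ⟩ := no_almost_inv
  obtain ⟨r₀, hr₀, hb, C1, hC1, H1⟩ := defect_le F_nonempty
  obtain ⟨C2, hC2, H2⟩ := mass_le F_nonempty hr₀ hb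
  set K : ℝ := 27 / 4 * (C2.toReal * (9 * C1.toReal / δ + 1)) with hK
  have hK0 : 0 ≤ K := by positivity
  refine ⟨1 / (K + 1), by positivity, fun f hf h => ?_⟩
  have hεpos : (0 : ℝ) < 1 / (K + 1) := by positivity
  have h3 := mass_en Hδ hf measurableSet_ball hb (fun i => H1 f hf i)
  have h1 : En f ≤ 9 * (ENNReal.ofReal ((3 / 4) * (1 / (K + 1))) *
      ∫⁻ z in F, ENNReal.ofReal (eps none z * (sig z * ms f z))) :=
    (En_le hf).trans (mul_le_mul_right (lenergy_le hf hεpos.le h) 9)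
  have hM := ennreal_contra hδ hC1 hC2 hεpos (by
      have e : 27 / 4 * (1 / (K + 1)) * (C2.toReal * (9 * C1.toReal / δ + 1)) = K / (K + 1) := by
        rw [hK]; field_simp
      rw [e, div_lt_one (by positivity)]
      linarith) (weighted_ne_top hf) h1 (H2 f hf) h3
  -- the mass of the disc is positive
  rw [lintegral_eq_zero_iff' ((measurable_msm hf).mono_measure
    (Measure.restrict_mono hb le_rfl))] at hM
  have hM' := (ae_restrict_iff' measurableSet_ball).mp hM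
  have hsub : Metric.ball (32 : ℂ) r₀ ⊆ {z | ¬ (z ∈ Metric.ball (32 : ℂ) r₀ →
      (fun z => ENNReal.ofReal (ms f z)) z = (0 : ℂ → ℝ≥0∞) z)} := by
    intro z hz h0
    have h5 : ENNReal.ofReal (ms f z) = 0 := h0 hz
    rw [ENNReal.ofReal_eq_zero] at h5
    exact absurd (ms_pos hf (hb hz)) (not_lt.mpr h5)
  have h6 : volume (Metric.ball (32 : ℂ) r₀) = 0 := measure_mono_null hsub (ae_iff.mp hM')
  exact (Metric.measure_ball_pos volume _ hr₀).ne' h6

/-! ### Averaging over the circle -/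

lemma continuousOn_avg {β : W → ℝ} (hβ : ContinuousOn β N) :
    ContinuousOn (fun p : X3 => ∫ s : UnitAddCircle, β (p, s)) {0}ᶜ := by
  refine continuousOn_integral_of_compact_support (f := fun (p : X3) (s : UnitAddCircle) => β (p, s))
    (k := univ) isCompact_univ ?_ (fun p s _ hs => absurd (mem_univ s) hs)
  refine ContinuousOn.congr (f := β) (hβ.mono ?_) ?_
  · rintro ⟨p, s⟩ ⟨hp, _⟩
    exact hp
  · rintro ⟨p, s⟩ _
    rfl

/-- averaging over the circle -/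
lemma exists_avg {f : ℂ × W → ℝ} (hf : TF f) : ∃ g : ℂ → X3 → ℝ, TF3 g ∧
    ∀ z ∈ F, ∀ p : X3, p ≠ 0 → ∀ C : ℝ, (∀ s : UnitAddCircle, C ≤ lapZ f (z, (p, s))) →
      C ≤ lap2 (fun z => g z p) z := by
  obtain ⟨hinv, n, α, β, hα, hβ, hsc, hsum⟩ := hf
  have hβs : ∀ k, ∀ p : X3, p ≠ 0 → Continuous (fun s : UnitAddCircle => β k (p, s)) := by
    intro k p hp
    rw [← continuousOn_univ]
    exact (hβ k).comp (f := fun s : UnitAddCircle => ((p, s) : W)) (by fun_prop)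
      (fun s _ => hp)
  have hint : ∀ k, ∀ p : X3, p ≠ 0 → Integrable (fun s : UnitAddCircle => β k (p, s)) := by
    intro k p hp
    exact (hβs k p hp).integrable_of_hasCompactSupport (HasCompactSupport.of_compactSpace _)
  refine ⟨fun z p => ∫ s : UnitAddCircle, f (z, (p, s)), ⟨?_, ?_⟩, ?_⟩
  · intro b z hz p hp
    refine integral_congr_ae (Filter.Eventually.of_forall (fun s => ?_))
    exact hinv.mo b z hz (p, s) hp
  · refine ⟨n, α, fun k p => ∫ s : UnitAddCircle, β k (p, s), hα,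
      fun k => continuousOn_avg (hβ k), ?_, ?_⟩
    · intro k p hp
      calc ∫ s : UnitAddCircle, β k ((la : ℂ) • p, s)
          = ∫ s : UnitAddCircle, β k ((la : ℂ) • p, s + (ka0 : UnitAddCircle)) :=
            (integral_add_right_eq_self (fun s : UnitAddCircle => β k ((la : ℂ) • p, s))
              (ka0 : UnitAddCircle)).symm
        _ = ∫ s : UnitAddCircle, β k (p, s) := by
            refine integral_congr_ae (Filter.Eventually.of_forall (fun s => ?_))
            have h1 := hsc k (p, s) hp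
            have h2 : th 1 (p, s) = ((la : ℂ) • p, s + (ka0 : UnitAddCircle)) := by
              unfold th
              simp
            rw [h2] at h1
            exact h1
    · intro z hz p hp
      calc ∫ s : UnitAddCircle, f (z, (p, s))
          = ∫ s : UnitAddCircle, ∑ k, α k z * β k (p, s) := by
            refine integral_congr_ae (Filter.Eventually.of_forall (fun s => ?_))
            exact hsum z hz (p, s) hp
        _ = ∑ k, α k z * ∫ s : UnitAddCircle, β k (p, s) := by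
            rw [integral_finsetSum _ (fun k _ => (hint k p hp).const_mul _)]
            refine Finset.sum_congr rfl (fun k _ => ?_)
            rw [integral_const_mul]
  · intro z hz p hp C hC
    have hαz : ∀ k, ContDiffAt ℝ 2 (α k) z := fun k =>
      ((hα k).contDiffAt (isOpen_F.mem_nhds hz)).of_le (WithTop.coe_le_coe.mpr le_top)
    have e1 : ∀ s : UnitAddCircle, lapZ f (z, (p, s)) = ∑ k, β k (p, s) * lap2 (α k) z := by
      intro s
      have h1 : (fun y => f (y, (p, s))) =ᶠ[𝓝 z] (fun y => ∑ k, β k (p, s) * α k y) := by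
        filter_upwards [isOpen_F.mem_nhds hz] with y hy
        rw [hsum y hy (p, s) hp]
        exact Finset.sum_congr rfl (fun k _ => mul_comm _ _)
      unfold lapZ
      rw [lap2_congr h1, lap2_sum _ (fun k _ => contDiffAt_const.mul (hαz k))]
      exact Finset.sum_congr rfl (fun k _ => lap2_const_mul _ (hαz k))
    have e2 : lap2 (fun y => ∫ s : UnitAddCircle, f (y, (p, s))) z =
        ∑ k, (∫ s : UnitAddCircle, β k (p, s)) * lap2 (α k) z := by
      have h1 : (fun y => ∫ s : UnitAddCircle, f (y, (p, s))) =ᶠ[𝓝 z]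
          (fun y => ∑ k, (∫ s : UnitAddCircle, β k (p, s)) * α k y) := by
        filter_upwards [isOpen_F.mem_nhds hz] with y hy
        calc ∫ s : UnitAddCircle, f (y, (p, s))
            = ∫ s : UnitAddCircle, ∑ k, α k y * β k (p, s) := by
              refine integral_congr_ae (Filter.Eventually.of_forall (fun s => ?_))
              exact hsum y hy (p, s) hp
          _ = ∑ k, (∫ s : UnitAddCircle, β k (p, s)) * α k y := by
              rw [integral_finsetSum _ (fun k _ => (hint k p hp).const_mul _)]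
              refine Finset.sum_congr rfl (fun k _ => ?_)
              rw [integral_const_mul, mul_comm]
      rw [lap2_congr h1, lap2_sum _ (fun k _ => contDiffAt_const.mul (hαz k))]
      exact Finset.sum_congr rfl (fun k _ => lap2_const_mul _ (hαz k))
    have e3 : lap2 (fun y => ∫ s : UnitAddCircle, f (y, (p, s))) z =
        ∫ s : UnitAddCircle, lapZ f (z, (p, s)) := by
      rw [e2]
      simp_rw [e1]
      rw [integral_finsetSum _ (fun k _ => (hint k p hp).mul_const _)]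
      refine Finset.sum_congr rfl (fun k _ => ?_)
      rw [integral_mul_const]
    change C ≤ lap2 (fun y => ∫ s : UnitAddCircle, f (y, (p, s))) z
    rw [e3]
    calc C = ∫ _ : UnitAddCircle, C := by
          rw [integral_const, measureReal_def, UnitAddCircle.measure_univ]
          simp
      _ ≤ ∫ s : UnitAddCircle, lapZ f (z, (p, s)) := by
          refine integral_mono (integrable_const C) ?_ hC
          simp_rw [e1]
          exact integrable_finsetSum _ (fun k _ => (hint k p hp).mul_const _)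

/-- the energy contradiction -/
theorem energy : ∃ ε > 0, ∀ f : ℂ × W → ℝ, TF f →
    ¬ ∀ p ∈ DY, qY p ≤ ε + (sig p.1)⁻¹ * lapZ f p := by
  obtain ⟨ε, hε, H⟩ := energy3
  refine ⟨ε, hε, fun f hf h => ?_⟩
  obtain ⟨g, hg, hgl⟩ := exists_avg hf
  refine H g hg (fun z hz p hp => ?_)
  have hs := sig_pos hz
  have h1 : lap2 (fun z => Real.log (HH z p)) z - ε * sig z ≤ lap2 (fun z => g z p) z := by
    refine hgl z hz p hp _ (fun s => ?_)
    have h2 := h (z, (p, s)) ⟨hz, hp⟩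
    unfold qY at h2
    simp only at h2
    have h3 := mul_le_mul_of_nonneg_left h2 hs.le
    rw [mul_add, ← mul_assoc, ← mul_assoc, mul_inv_cancel₀ hs.ne', one_mul, one_mul] at h3
    linarith
  have hlog : ContDiffAt ℝ 2 (fun z => Real.log (HH z p)) z :=
    (((contDiffOn_HH p).contDiffAt (isOpen_F.mem_nhds hz)).of_le (WithTop.coe_le_coe.mpr le_top)).log
      (HH_pos hz hp).ne'
  have hgz : ContDiffAt ℝ 2 (fun z => g z p) z :=
    ((hg.smooth hp).contDiffAt (isOpen_F.mem_nhds hz)).of_le (WithTop.coe_le_coe.mpr le_top)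
  have h4 : lap2 (fun z => bt g z p) z =
      lap2 (fun z => Real.log (HH z p)) z - lap2 (fun z => g z p) z := lap2_sub hlog hgz
  rw [h4]
  linarith

end Pool.Agent.H5.EC
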