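import Pool.Agent.H5.EC.A2
import Pool.Agent.H5.EC.A5
import Pool.Agent.H5.EC.B1
import Pool.Agent.H5.EC.Lap

/-! Definitions and first properties for the energy estimate. -/

open Set Topology MeasureTheory
open scoped Manifold ContDiff ENNReal

noncomputable section

namespace Pool.Agent.H5.EC

/-- the model `ℂ³` -/
abbrev X3 : Type := (ℂ × ℂ) × ℂ

/-- the shell -/
def Sh3 : Set X3 := {p | la ^ 2 < nsq p ∧ nsq p ≤ 1}

/-- test functions without the circle variable -/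
structure TF3 (f : ℂ → X3 → ℝ) : Prop where
  mo : ∀ b, ∀ z ∈ U b, ∀ p : X3, p ≠ 0 → f (mv b z) (RM (1 : ℂ) (some b) p) = f z p
  sum : ∃ (n : ℕ) (α : Fin n → ℂ → ℝ) (β : Fin n → X3 → ℝ),
    (∀ k, ContDiffOn ℝ ∞ (α k) F) ∧ (∀ k, ContinuousOn (β k) {0}ᶜ) ∧
    (∀ k, ∀ p : X3, p ≠ 0 → β k ((la : ℂ) • p) = β k p) ∧
    ∀ z ∈ F, ∀ p : X3, p ≠ 0 → f z p = ∑ k, α k z * β k p

/-- the difference of `log H` and `f` -/
def bt (f : ℂ → X3 → ℝ) (z : ℂ) (p : X3) : ℝ := Real.log (HH z p) - f z p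

/-- the square root of the weight -/
def ph (f : ℂ → X3 → ℝ) (z : ℂ) (p : X3) : ℝ := Real.exp (-(3 / 2) * bt f z p)

/-- mass of the weight -/
def ms (f : ℂ → X3 → ℝ) (z : ℂ) : ℝ := ∫ p in Sh3, (ph f z p) ^ 2

end Pool.Agent.H5.EC
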