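import Pool.Graph.R_seed8.Helper289.LamDefs

/-!
Holomorphic foliations by Riemann surfaces on complex manifolds, and the currents directed by them.

The complex manifold `X` is modelled on `ℂ × V`. Continuous real `2`-forms, currents, positivity,
`dd^c`-closedness and closedness are those of `Pool.Agent.Helper289.LamDefs`.
-/

open scoped Manifold ContDiff Topology
open Set Topology

noncomputable section

namespace Pool.Agent.H5.EC

open Pool.Agent.Helper289.LamDefs

variable (V : Type) [NormedAddCommGroup V] [NormedSpace ℂ V]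
variable (X : Type) [TopologicalSpace X] [ChartedSpace (ℂ × V) X]

/-- A nonsingular holomorphic foliation by Riemann surfaces on the complex manifold `X`: a family of
holomorphic charts which cover `X`, have values in `ℂ × V`, map onto products (disc) `×` (open set),
and whose changes of coordinates locally preserve the slices `{v = const}` (so that they are locally
of the form `(z, v) ↦ (f (z, v), g v)`). The plaques are the preimages of the slices. -/
structure Foliation where
  /-- the flow boxes -/
  charts : Set (OpenPartialHomeomorph X (ℂ × V))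
  holomorphic : ∀ e ∈ charts, e ∈ IsManifold.maximalAtlas 𝓘(ℂ, ℂ × V) ω X
  box : ∀ e ∈ charts, ∃ (c : ℂ) (r : ℝ) (O : Set V), IsOpen O ∧ e.target = Metric.ball c r ×ˢ O
  cover : ∀ x, ∃ e ∈ charts, x ∈ e.source
  compat : ∀ e ∈ charts, ∀ e' ∈ charts, ∀ x ∈ e.source ∩ e'.source, ∃ N ∈ 𝓝 x,
    N ⊆ e.source ∩ e'.source ∧
      ∀ y ∈ N, ∀ y' ∈ N, (e y).2 = (e y').2 → (e' y).2 = (e' y').2

namespace Foliation

variable {V X}
variable (𝓕 : Foliation V X)

/-- `x` and `y` lie in a common plaque. -/
def SamePlaque (x y : X) : Prop :=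
  ∃ e ∈ 𝓕.charts, x ∈ e.source ∧ y ∈ e.source ∧ (e x).2 = (e y).2

/-- The leaf through `x`: the points that can be reached from `x` by a chain of plaques. -/
def leaf (x : X) : Set X := {y | Relation.ReflTransGen 𝓕.SamePlaque x y}

/-- The foliation is minimal: every leaf is dense. -/
def IsMinimal : Prop := ∀ x : X, Dense (𝓕.leaf x)

/-- The complex tangent vector `∂/∂z` at `x` of the plaque through `x` in the flow box `e`. -/
def tangentVec (e : OpenPartialHomeomorph X (ℂ × V)) (x : X) : ℂ × V :=
  mfderiv 𝓘(ℂ, ℂ × V) 𝓘(ℂ, ℂ × V) e.symm (e x) ((1, 0) : ℂ × V)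

/-- `T` is directed by the foliation: `T(φ) = 0` whenever the restriction of `φ` to every leaf
vanishes. -/
def IsDirected (T : Current (ℂ × V) X) : Prop :=
  ∀ φ : ContForms (ℂ × V) X,
    (∀ e ∈ 𝓕.charts, ∀ x ∈ e.source,
      φ.1 x ![tangentVec e x, Complex.I • tangentVec e x] = 0) → T φ = 0

/-- The convex cone of positive `dd^c`-closed currents directed by the foliation. -/
def cone : Set (Current (ℂ × V) X) := {T | IsPositive T ∧ IsDdcClosed T ∧ 𝓕.IsDirected T}

/-- `T` spans an extremal ray of the cone of positive `dd^c`-closed currents directed by the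
foliation. -/
def IsExtremal (T : Current (ℂ × V) X) : Prop :=
  T ∈ 𝓕.cone ∧ T ≠ 0 ∧ ∀ T₁ ∈ 𝓕.cone, ∀ T₂ ∈ 𝓕.cone, T₁ + T₂ = T → IsMultiple T₁ T

end Foliation

end Pool.Agent.H5.EC
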