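import Pool.Agent.H5.EC.A2
import Pool.Agent.H5.EC.B1
import Pool.Agent.H5.EC.Lap
import Pool.Agent.H5.EC.E1

/-! Part G1: invariant functions, test functions, the maximum principle. -/

open Set Topology MeasureTheory
open scoped Manifold ContDiff

noncomputable section

namespace Pool.Agent.H5.EC

/-- invariance under the generator gives invariance under all powers -/
lemma th_inv_of {β : W → ℝ} (h : ∀ m ∈ N, β (th 1 m) = β m) {m : W} (hm : m ∈ N) (k : ℤ) :
    β (th k m) = β m := by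
  have hn : ∀ (n : ℕ) (m : W), m ∈ N → β (th n m) = β m := by
    intro n
    induction n with
    | zero => intro m hm; rw [Nat.cast_zero, th_zero]
    | succ n ih =>
      intro m hm
      have e : th ((n + 1 : ℕ) : ℤ) m = th 1 (th n m) := by
        rw [← th_add]; congr 1; push_cast; ring
      rw [e, h _ (th_mem.2 hm), ih m hm]
  rcases Int.eq_nat_or_neg k with ⟨n, rfl | rfl⟩
  · exact hn n m hm
  · have h1 := hn n (th (-n) m) (th_mem.2 hm)
    have e : th n (th (-n) m) = m := by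
      rw [← th_add, add_neg_cancel, th_zero]
    rw [e] at h1
    exact h1.symm

lemma InvY.act {g : ℂ × W → ℝ} (hg : InvY g) {i : Mv} {z : ℂ} (hz : z ∈ dom i) {m : W}
    (hm : m ∈ N) : g (Pool.Agent.H5.EC.act i z, rho i m) = g (z, m) := by
  cases i with
  | none => rfl
  | some b => exact hg.mo b z hz m hm

lemma InvY.th {g : ℂ × W → ℝ} (hg : InvY g) {z : ℂ} (hz : z ∈ F) {m : W} (hm : m ∈ N) (k : ℤ) :
    g (z, Pool.Agent.H5.EC.th k m) = g (z, m) :=
  th_inv_of (β := fun m => g (z, m)) (fun m hm => hg.sc z hz m hm) hm k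

/-- the closed shell in `W` -/
def cSh : Set W := {p : X3 | la ^ 2 ≤ nsq p ∧ nsq p ≤ 1} ×ˢ univ

lemma isCompact_cSh : IsCompact cSh := isCompact_cSh3.prod isCompact_univ

lemma Sh_subset : Sh ⊆ cSh := fun _ h => ⟨⟨h.1.le, h.2⟩, mem_univ _⟩

lemma cSh_subset : cSh ⊆ N := by
  rintro m ⟨⟨h1, _⟩, _⟩ h
  have h' : m.1 = 0 := h
  rw [h'] at h1
  have h0 : nsq (0 : X3) = 0 := by simp [nsq]
  rw [h0] at h1
  have := la_pos
  have h3 : 0 < la ^ 2 := by positivity
  linarith

lemma N_nonempty : ∃ m : W, m ∈ N := by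
  refine ⟨(((1, 0), 0), 0), ?_⟩
  intro h
  have h1 := congrArg (fun p : X3 => p.1.1) h
  simp at h1

/-- a continuous invariant function attains its maximum -/
lemma DY_max {g : ℂ × W → ℝ} (hg : g ∈ IY) : ∃ p₀ ∈ DY, ∀ p ∈ DY, g p ≤ g p₀ := by
  obtain ⟨hc, hi⟩ := hg
  have hC : IsCompact (KF (1 / 2) ×ˢ cSh) := (isCompact_KF (by norm_num)).prod isCompact_cSh
  have hsub : KF (1 / 2) ×ˢ cSh ⊆ DY := prod_mono (KF_subset (by norm_num)) cSh_subset
  have key : ∀ p ∈ DY, ∃ q ∈ KF (1 / 2) ×ˢ cSh, g p = g q := by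
    rintro ⟨z, m⟩ ⟨hz, hm⟩
    obtain ⟨i, hi1, hi2⟩ := exists_core hz
    obtain ⟨k, hk⟩ := exists_shell (rho_mem (i := i).2 hm)
    refine ⟨(act i z, th k (rho i m)), ⟨hi2, Sh_subset hk⟩, ?_⟩
    rw [hi.th (act_mem_F hi1) (rho_mem.2 hm) k, hi.act hi1 hm]
  have hne : (KF (1 / 2) ×ˢ cSh).Nonempty := by
    obtain ⟨m, hm⟩ := N_nonempty
    obtain ⟨q, hq, _⟩ := key (32, m) ⟨F_nonempty, hm⟩
    exact ⟨q, hq⟩
  obtain ⟨q, hq, hmax⟩ := hC.exists_isMaxOn hne (hc.mono hsub)
  refine ⟨q, hsub hq, fun p hp => ?_⟩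
  obtain ⟨r, hr, e⟩ := key p hp
  rw [e]
  exact hmax hr

/-- functions on `K × N` which are continuous and invariant under the scaling are bounded -/
lemma bdd_of_scale {g : ℂ × W → ℝ} (hg : ContinuousOn g DY)
    (hinv : ∀ z ∈ F, ∀ m ∈ N, g (z, th 1 m) = g (z, m)) {K : Set ℂ} (hK : IsCompact K)
    (hKF : K ⊆ F) : ∃ C, ∀ z ∈ K, ∀ m ∈ N, |g (z, m)| ≤ C := by
  have hC : IsCompact (K ×ˢ cSh) := hK.prod isCompact_cSh
  have hsub : K ×ˢ cSh ⊆ DY := prod_mono hKF cSh_subset
  obtain ⟨C, hC'⟩ := hC.exists_bound_of_continuousOn (hg.mono hsub)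
  refine ⟨C, fun z hz m hm => ?_⟩
  obtain ⟨k, hk⟩ := exists_shell hm
  have h1 := hC' (z, th k m) ⟨hz, Sh_subset hk⟩
  rw [th_inv_of (β := fun m => g (z, m)) (fun m hm => hinv z (hKF hz) m hm) hm k] at h1
  exact h1

/-- test functions indexed by any finite type -/
lemma TF_of {ι : Type*} [Fintype ι] {f : ℂ × W → ℝ} (hf : InvY f) (α : ι → ℂ → ℝ)
    (β : ι → W → ℝ) (h1 : ∀ k, ContDiffOn ℝ ∞ (α k) F) (h2 : ∀ k, ContinuousOn (β k) N)
    (h3 : ∀ k, ∀ m ∈ N, β k (th 1 m) = β k m)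
    (h4 : ∀ z ∈ F, ∀ m ∈ N, f (z, m) = ∑ k, α k z * β k m) : TF f := by
  refine ⟨hf, Fintype.card ι, fun j => α ((Fintype.equivFin ι).symm j),
    fun j => β ((Fintype.equivFin ι).symm j), fun j => h1 _, fun j => h2 _, fun j => h3 _, ?_⟩
  intro z hz m hm
  rw [h4 z hz m hm]
  exact ((Fintype.equivFin ι).symm.sum_comp (fun k => α k z * β k m)).symm

lemma TF_zero : TF (fun _ => 0) := by
  refine ⟨⟨fun _ _ _ _ => rfl, fun _ _ _ _ _ => rfl⟩, 0, fun _ _ => 0, fun _ _ => 0, ?_, ?_, ?_, ?_⟩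
  · intro k; exact k.elim0
  · intro k; exact k.elim0
  · intro k; exact k.elim0
  · intro z _ m _; simp

lemma TF_add {f g : ℂ × W → ℝ} (hf : TF f) (hg : TF g) : TF (fun p => f p + g p) := by
  obtain ⟨n, α, β, h1, h2, h3, h4⟩ := hf.sum
  obtain ⟨n', α', β', h1', h2', h3', h4'⟩ := hg.sum
  refine TF_of (ι := Fin n ⊕ Fin n') ?_ (Sum.elim α α') (Sum.elim β β') ?_ ?_ ?_ ?_
  · refine ⟨fun z hz m hm => ?_, fun b z hz m hm => ?_⟩
    · simp only [hf.inv.sc z hz m hm, hg.inv.sc z hz m hm]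
    · simp only [hf.inv.mo b z hz m hm, hg.inv.mo b z hz m hm]
  · rintro (k | k)
    · exact h1 k
    · exact h1' k
  · rintro (k | k)
    · exact h2 k
    · exact h2' k
  · rintro (k | k)
    · exact h3 k
    · exact h3' k
  · intro z hz m hm
    rw [Fintype.sum_sum_type]
    simp only [Sum.elim_inl, Sum.elim_inr]
    rw [← h4 z hz m hm, ← h4' z hz m hm]

lemma TF_smul {f : ℂ × W → ℝ} (c : ℝ) (hf : TF f) : TF (fun p => c * f p) := by
  obtain ⟨n, α, β, h1, h2, h3, h4⟩ := hf.sum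
  refine ⟨⟨fun z hz m hm => ?_, fun b z hz m hm => ?_⟩, n, fun k z => c * α k z, β, ?_, h2, h3, ?_⟩
  · simp only [hf.inv.sc z hz m hm]
  · simp only [hf.inv.mo b z hz m hm]
  · intro k
    exact contDiffOn_const.mul (h1 k)
  · intro z hz m hm
    show c * f (z, m) = _
    rw [h4 z hz m hm, Finset.mul_sum]
    exact Finset.sum_congr rfl fun k _ => by ring

lemma TF_smooth {f : ℂ × W → ℝ} (hf : TF f) {m : W} (hm : m ∈ N) :
    ContDiffOn ℝ ∞ (fun z => f (z, m)) F := by
  obtain ⟨n, α, β, h1, _, _, h4⟩ := hf.sum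
  have h : ContDiffOn ℝ ∞ (fun z => ∑ k, α k z * β k m) F :=
    ContDiffOn.sum fun k _ => (h1 k).mul contDiffOn_const
  exact h.congr fun z hz => h4 z hz m hm

lemma TF_at {f : ℂ × W → ℝ} (hf : TF f) {z : ℂ} (hz : z ∈ F) {m : W} (hm : m ∈ N) :
    ContDiffAt ℝ ∞ (fun z => f (z, m)) z :=
  (TF_smooth hf hm).contDiffAt (isOpen_F.mem_nhds hz)

lemma TF_at2 {f : ℂ × W → ℝ} (hf : TF f) {z : ℂ} (hz : z ∈ F) {m : W} (hm : m ∈ N) :
    ContDiffAt ℝ 2 (fun z => f (z, m)) z := (TF_at hf hz hm).of_le two_le_inf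

/-- joint continuity of sums of products -/
lemma continuousOn_sum_prodW {ι : Type*} (s : Finset ι) {a : ι → ℂ → ℝ} {b : ι → W → ℝ}
    (ha : ∀ i ∈ s, ContinuousOn (a i) F) (hb : ∀ i ∈ s, ContinuousOn (b i) N) :
    ContinuousOn (fun x : ℂ × W => ∑ i ∈ s, a i x.1 * b i x.2) DY := by
  refine continuousOn_finsetSum _ fun i hi => ?_
  exact ((ha i hi).comp continuousOn_fst fun x hx => hx.1).mul
    ((hb i hi).comp continuousOn_snd fun x hx => hx.2)

lemma TF_continuousOn {f : ℂ × W → ℝ} (hf : TF f) : ContinuousOn f DY := by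
  obtain ⟨n, α, β, h1, h2, _, h4⟩ := hf.sum
  have h := continuousOn_sum_prodW Finset.univ (a := α) (b := β)
    (fun k _ => (h1 k).continuousOn) fun k _ => h2 k
  exact h.congr fun x hx => h4 x.1 hx.1 x.2 hx.2

lemma TF_mem {f : ℂ × W → ℝ} (hf : TF f) : f ∈ IY := ⟨TF_continuousOn hf, hf.inv⟩

lemma TF_lap_continuousOn {f : ℂ × W → ℝ} (hf : TF f) : ContinuousOn (lapZ f) DY := by
  obtain ⟨n, α, β, h1, h2, _, h4⟩ := hf.sum
  have h := continuousOn_sum_prodW Finset.univ (a := fun k => lap2 (α k)) (b := β)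
    (fun k _ => (contDiffOn_lap2 isOpen_F (h1 k)).continuousOn) fun k _ => h2 k
  refine h.congr fun x hx => ?_
  have he : (fun z => f (z, x.2)) =ᶠ[𝓝 x.1] fun z => ∑ k, α k z * β k x.2 := by
    filter_upwards [isOpen_F.mem_nhds hx.1] with z hz
    exact h4 z hz x.2 hx.2
  show lap2 (fun z => f (z, x.2)) x.1 = _
  rw [lap2_congr he]
  exact lap_sum_prod _ (fun k _ => (h1 k).contDiffAt (isOpen_F.mem_nhds hx.1)) _

lemma deriv_mv {b : Bd} {z : ℂ} (hz : z ∈ U b) : deriv (mv b) z = mvd b z :=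
  (hasDerivAt_mv hz).deriv

lemma sig_inv_mv {b : Bd} {z : ℂ} (hz : z ∈ U b) {x : ℝ} :
    (sig (mv b z))⁻¹ * x = (sig z)⁻¹ * (‖mvd b z‖ ^ 2 * x) := by
  have h2 : ‖mvd b z‖ ^ 2 ≠ 0 := pow_ne_zero 2 (norm_ne_zero_iff.2 (mvd_ne hz))
  rw [← sig_mv hz, mul_inv, mul_assoc, inv_mul_cancel_left₀ h2]

/-- the leafwise Laplacian of a test function, as an invariant function -/
lemma TF_lap_mem {f : ℂ × W → ℝ} (hf : TF f) : (fun p => (sig p.1)⁻¹ * lapZ f p) ∈ IY := by
  refine ⟨?_, ⟨?_, ?_⟩⟩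
  · have h1 : ContinuousOn (fun p : ℂ × W => (sig p.1)⁻¹) DY :=
      (contDiffOn_sig.continuousOn.comp continuousOn_fst fun x hx => hx.1).inv₀
        fun x hx => (sig_pos hx.1).ne'
    exact h1.mul (TF_lap_continuousOn hf)
  · intro z hz m hm
    show (sig z)⁻¹ * lap2 (fun u => f (u, th 1 m)) z = (sig z)⁻¹ * lap2 (fun u => f (u, m)) z
    congr 1
    apply lap2_congr
    filter_upwards [isOpen_F.mem_nhds hz] with u hu
    exact hf.inv.sc u hu m hm
  · intro b z hz m hm
    show (sig (mv b z))⁻¹ * lap2 (fun u => f (u, rho (some b) m)) (mv b z) =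
      (sig z)⁻¹ * lap2 (fun u => f (u, m)) z
    rw [sig_inv_mv hz]
    congr 1
    have h1 := lap2_comp_holo (a := fun u => f (u, rho (some b) m)) (g := mv b) (z := z)
      (contDiffAt_mv hz 2) (TF_at2 hf (mv_mem_F hz) (rho_mem.2 hm))
    rw [deriv_mv hz] at h1
    rw [← h1]
    apply lap2_congr
    filter_upwards [(isOpen_U b).mem_nhds hz] with u hu
    exact hf.inv.mo b u hu m hm

lemma TF_lap_add {f g : ℂ × W → ℝ} (hf : TF f) (hg : TF g) {p : ℂ × W} (hp : p ∈ DY) :
    lapZ (fun p => f p + g p) p = lapZ f p + lapZ g p :=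
  lap2_add (TF_at2 hf hp.1 hp.2) (TF_at2 hg hp.1 hp.2)

lemma TF_lap_smul {f : ℂ × W → ℝ} (c : ℝ) (hf : TF f) {p : ℂ × W} (hp : p ∈ DY) :
    lapZ (fun p => c * f p) p = c * lapZ f p :=
  lap2_const_mul c (TF_at2 hf hp.1 hp.2)

/-- the maximum principle -/
lemma TF_lap_nonpos {f : ℂ × W → ℝ} (hf : TF f) : ∃ p ∈ DY, lapZ f p ≤ 0 := by
  obtain ⟨p, hp, hmax⟩ := DY_max (TF_mem hf)
  refine ⟨p, hp, ?_⟩
  apply lap2_nonpos_of_isLocalMax (TF_at2 hf hp.1 hp.2)
  show ∀ᶠ u in 𝓝 p.1, f (u, p.2) ≤ f (p.1, p.2)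
  filter_upwards [isOpen_F.mem_nhds hp.1] with u hu
  exact hmax (u, p.2) ⟨hu, hp.2⟩

/-- the average on a gluing annulus -/
lemma Av_U (f : ℂ × W → ℝ) {b : Bd} {z : ℂ} (hz : z ∈ U b) (m : W) :
    Av f (z, m) = f (z, m) + f (mv b z, rho (some b) m) := by
  classical
  unfold Av
  rw [Fintype.sum_option]
  congr 1
  · have h : (z, m).1 ∈ dom none := U_subset b hz
    rw [if_pos h]
    rfl
  · rw [Finset.sum_eq_single b]
    · have h : (z, m).1 ∈ dom (some b) := hz
      rw [if_pos h]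
      rfl
    · intro b' _ hb'
      have h : ¬ (z, m).1 ∈ dom (some b') := fun h => hb' (U_disj h hz)
      rw [if_neg h]
    · intro h
      exact absurd (Finset.mem_univ b) h

lemma Av_mo (f : ℂ × W → ℝ) {b : Bd} {z : ℂ} (hz : z ∈ U b) (m : W) :
    Av f (mv b z, rho (some b) m) = Av f (z, m) := by
  have e : rho (some b.inv) (rho (some b) m) = m := rho_inv (some b) m
  rw [Av_U f (mv_mem hz), Av_U f hz, mv_mv hz, e, add_comm]

/-- the product of a function of the base, compactly supported, and a function of the fibre,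
averaged over the moves, is a test function -/
lemma TF_Av {a : ℂ → ℝ} (ha : ContDiff ℝ ∞ a) {K : Set ℂ} (hK : IsCompact K) (hKF : K ⊆ F)
    (haK : ∀ z, z ∉ K → a z = 0) {β : W → ℝ} (hβ : ContinuousOn β N)
    (hinv : ∀ m ∈ N, β (th 1 m) = β m) : TF (Av (fun p => a p.1 * β p.2)) := by
  classical
  have hinvY : InvY (Av (fun p : ℂ × W => a p.1 * β p.2)) := by
    refine ⟨?_, ?_⟩
    · intro z hz m hm
      unfold Av
      refine Finset.sum_congr rfl fun i _ => ?_
      by_cases h : z ∈ dom i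
      · rw [if_pos h, if_pos h, ← th_rho]
        show a (act i z) * β (th 1 (rho i m)) = a (act i z) * β (rho i m)
        rw [hinv _ (rho_mem.2 hm)]
      · rw [if_neg h, if_neg h]
    · intro b z hz m hm
      exact Av_mo _ hz m
  refine TF_of (ι := Mv) hinvY (fun i z => if z ∈ dom i then a (act i z) else 0)
    (fun i m => β (rho i m)) ?_ ?_ ?_ ?_
  · intro i
    cases i with
    | none =>
      refine (ha.contDiffOn (s := F)).congr fun z hz => ?_
      have h : z ∈ dom none := hz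
      rw [if_pos h]
      rfl
    | some b =>
      -- positive lower bound of the depth on `K`
      obtain ⟨h, hpos, hle⟩ : ∃ h : ℝ, 0 < h ∧ ∀ z ∈ K, h ≤ dep b.inv z := by
        rcases K.eq_empty_or_nonempty with he | hne
        · exact ⟨1, one_pos, fun z hz => by rw [he] at hz; exact hz.elim⟩
        · obtain ⟨q, hq, hmin⟩ := hK.exists_isMinOn hne ((continuousOn_dep b.inv).mono hKF)
          exact ⟨dep b.inv q, hKF hq b.inv, fun z hz => hmin hz⟩
      have hvan : ∀ z ∈ F, 1 - h < dep b z →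
          (if z ∈ dom (some b) then a (act (some b) z) else 0) = 0 := by
        intro z hz hd
        by_cases hb : z ∈ U b
        · have h1 : z ∈ dom (some b) := hb
          rw [if_pos h1]
          apply haK
          intro hmem
          have h2 := hle _ hmem
          have h3 : dep b.inv (act (some b) z) = 1 - dep b z := dep_mv hb
          rw [h3] at h2
          linarith
        · have h1 : ¬ z ∈ dom (some b) := hb
          rw [if_neg h1]
      intro z hz
      apply ContDiffAt.contDiffWithinAt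
      by_cases hb : z ∈ U b
      · have h1 : ContDiffAt ℝ ∞ (fun u => a (mv b u)) z := by
          have h2 : ContDiffAt ℝ ∞ (mv b) z := (contDiffAt_mv hb ∞).restrict_scalars ℝ
          exact ha.contDiffAt.comp z h2
        refine h1.congr_of_eventuallyEq ?_
        filter_upwards [(isOpen_U b).mem_nhds hb] with u hu
        have h3 : u ∈ dom (some b) := hu
        rw [if_pos h3]
        rfl
      · have hd : 1 - h < dep b z := by
          have h1 : 1 ≤ dep b z := by
            by_contra hc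
            exact hb ⟨hz, not_le.1 hc⟩
          linarith
        have hev : ∀ᶠ u in 𝓝 z, 1 - h < dep b u :=
          ((contDiffAt_dep b hz 0 (by simp)).continuousAt.eventually (lt_mem_nhds hd))
        refine (contDiffAt_const (c := (0 : ℝ))).congr_of_eventuallyEq ?_
        filter_upwards [hev, isOpen_F.mem_nhds hz] with u hu huF
        exact hvan u huF hu
  · intro i
    exact hβ.comp (continuous_rho i).continuousOn fun m hm => rho_mem.2 hm
  · intro i m hm
    rw [← th_rho, hinv _ (rho_mem.2 hm)]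
  · intro z hz m hm
    unfold Av
    refine Finset.sum_congr rfl fun i _ => ?_
    by_cases h : z ∈ dom i
    · simp only [if_pos h]
    · simp only [if_neg h, zero_mul]

lemma mapsTo_DY : MapsTo (fun p : ℂ × W => ((p.1, p.2.1) : ℂ × X3)) DY (F ×ˢ {0}ᶜ) := by
  intro x hx
  have h1 : x.1 ∈ F := hx.1
  have h2 : x.2.1 ≠ 0 := hx.2
  have h3 : x.2.1 ∈ ({0}ᶜ : Set X3) := h2
  show (x.1, x.2.1) ∈ F ×ˢ ({0}ᶜ : Set X3)
  constructor
  · exact h1
  · exact h3

lemma continuousOn_pull {g : ℂ × X3 → ℝ} (hg : ContinuousOn g (F ×ˢ {0}ᶜ)) :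
    ContinuousOn (fun p : ℂ × W => g (p.1, p.2.1)) DY := by
  have h3 : Continuous (fun p : ℂ × W => ((p.1, p.2.1) : ℂ × X3)) :=
    continuous_fst.prodMk (continuous_fst.comp continuous_snd)
  exact hg.comp h3.continuousOn mapsTo_DY

lemma continuousOn_lapW :
    ContinuousOn (fun p : ℂ × W => lap2 (fun z => Real.log (HH z p.2.1)) p.1) DY := by
  have h := continuousOn_pull continuousOn_lap2_logHH
  exact h

lemma qY_mem : qY ∈ IY := by
  refine ⟨?_, ⟨?_, ?_⟩⟩
  · have h1 : ContinuousOn (fun p : ℂ × W => (sig p.1)⁻¹) DY :=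
      (contDiffOn_sig.continuousOn.comp continuousOn_fst fun x hx => hx.1).inv₀
        fun x hx => (sig_pos hx.1).ne'
    exact h1.mul continuousOn_lapW
  · intro z hz m hm
    show (sig z)⁻¹ * lap2 (fun u => Real.log (HH u (th 1 m).1)) z =
      (sig z)⁻¹ * lap2 (fun u => Real.log (HH u m.1)) z
    congr 1
    have h1 : lap2 (fun u => Real.log (HH u (th 1 m).1)) z =
        lap2 (fun u => Real.log (HH u m.1) + 2 * Real.log la) z := by
      apply lap2_congr
      filter_upwards [isOpen_F.mem_nhds hz] with u hu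
      have e : (th 1 m).1 = (la : ℂ) • m.1 := by
        rw [th_apply, zpow_one]
      rw [e, HH_smul, Complex.norm_real, Real.norm_of_nonneg la_pos.le,
        Real.log_mul (pow_ne_zero 2 la_ne) (HH_pos hu hm).ne', Real.log_pow]
      push_cast
      ring
    rw [h1, lap2_add ((logHH_at hm hz).of_le two_le_inf) contDiffAt_const, lap2_const, add_zero]
  · intro b z hz m hm
    show (sig (mv b z))⁻¹ * lap2 (fun u => Real.log (HH u (rho (some b) m).1)) (mv b z) =
      (sig z)⁻¹ * lap2 (fun u => Real.log (HH u m.1)) z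
    rw [sig_inv_mv hz]
    congr 1
    have hm' : RM (1 : ℂ) (some b) m.1 ≠ 0 := rho_mem (i := some b).2 hm
    have h1 := lap2_comp_holo (a := fun u => Real.log (HH u (rho (some b) m).1)) (g := mv b)
      (z := z) (contDiffAt_mv hz 2) ((logHH_at hm' (mv_mem_F hz)).of_le two_le_inf)
    rw [deriv_mv hz] at h1
    rw [← h1]
    apply lap2_congr
    filter_upwards [(isOpen_U b).mem_nhds hz] with u hu
    rw [rho_apply, HH_mv hu]

/-- the drift vanishes where `x = 0` -/
lemma qY_zero {p : ℂ × W} (hp : p ∈ DY) (h : p.2.1.1 = 0) : qY p = 0 := by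
  unfold qY
  have e : (fun z => Real.log (HH z p.2.1)) = fun _ => Real.log (‖p.2.1.2‖ ^ 2) := by
    funext z
    congr 1
    unfold HH
    have h1 : p.2.1 = (0, p.2.1.2) := Prod.ext h rfl
    have h2 : ∀ i : Mv, nsq (RM (1 : ℂ) i p.2.1) = ‖p.2.1.2‖ ^ 2 := by
      intro i
      rw [h1]
      exact nsq_RM_x_zero i _
    simp only [h2]
    rw [← Finset.sum_mul, sum_eps, one_mul]
  rw [e, lap2_const, mul_zero]

end Pool.Agent.H5.EC
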