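import Pool.Agent.H5.EC.G1

/-! Part G2: Hahn-Banach and Krein-Milman. -/

open Set Topology MeasureTheory
open scoped Manifold ContDiff

noncomputable section

namespace Pool.Agent.H5.EC

/-- the drift as an element of the space of invariant functions -/
def qe : IY := ⟨qY, qY_mem⟩

/-- admissible constants -/
def g2S (g : IY) : Set ℝ :=
  {t | ∃ f, TF f ∧ ∀ p ∈ DY, g.1 p ≤ t + (sig p.1)⁻¹ * lapZ f p}

/-- the sublinear functional -/
def g2P (g : IY) : ℝ := sInf (g2S g)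

lemma g2_lapZ_zero (p : ℂ × W) : lapZ (fun _ => 0) p = 0 := by
  unfold lapZ
  exact lap2_const 0 p.1

lemma g2_bound (g : IY) : ∃ C, ∀ p ∈ DY, |g.1 p| ≤ C := by
  obtain ⟨p₀, -, h0⟩ := DY_max g.2
  obtain ⟨p₁, -, h1⟩ := DY_max (g := (-g : IY).1) (-g : IY).2
  refine ⟨max (g.1 p₀) (-g.1 p₁), fun p hp => abs_le.2 ⟨?_, ?_⟩⟩
  · have h2 : -g.1 p ≤ -g.1 p₁ := h1 p hp
    have := le_max_right (g.1 p₀) (-g.1 p₁)
    linarith
  · exact (h0 p hp).trans (le_max_left _ _)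

lemma g2S_nonempty (g : IY) : (g2S g).Nonempty := by
  obtain ⟨C, hC⟩ := g2_bound g
  refine ⟨C, fun _ => 0, TF_zero, fun p hp => ?_⟩
  rw [g2_lapZ_zero, mul_zero, add_zero]
  exact (abs_le.1 (hC p hp)).2

lemma g2S_bdd (g : IY) : BddBelow (g2S g) := by
  obtain ⟨C, hC⟩ := g2_bound g
  refine ⟨-C, ?_⟩
  rintro t ⟨f, hf, h⟩
  obtain ⟨p, hp, hp'⟩ := TF_lap_nonpos hf
  have h1 := h p hp
  have h2 : (sig p.1)⁻¹ * lapZ f p ≤ 0 :=
    mul_nonpos_of_nonneg_of_nonpos (inv_nonneg.2 (sig_pos hp.1).le) hp'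
  have h3 := (abs_le.1 (hC p hp)).1
  linarith

lemma g2P_le {g : IY} {t : ℝ} (f : ℂ × W → ℝ) (hf : TF f)
    (h : ∀ p ∈ DY, g.1 p ≤ t + (sig p.1)⁻¹ * lapZ f p) : g2P g ≤ t :=
  csInf_le (g2S_bdd g) ⟨f, hf, h⟩

lemma g2P_add (x y : IY) : g2P (x + y) ≤ g2P x + g2P y := by
  have key : ∀ t ∈ g2S x, ∀ s ∈ g2S y, g2P (x + y) ≤ t + s := by
    rintro t ⟨f, hf, h⟩ s ⟨f', hf', h'⟩
    refine g2P_le (fun p => f p + f' p) (TF_add hf hf') (fun p hp => ?_)
    rw [TF_lap_add hf hf' hp]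
    have h1 := h p hp
    have h2 := h' p hp
    change x.1 p + y.1 p ≤ _
    rw [mul_add]
    linarith
  have h1 : ∀ t ∈ g2S x, g2P (x + y) - t ≤ g2P y := fun t ht =>
    le_csInf (g2S_nonempty y) (fun s hs => by linarith [key t ht s hs])
  have h2 : g2P (x + y) - g2P y ≤ g2P x :=
    le_csInf (g2S_nonempty x) (fun t ht => by linarith [h1 t ht])
  linarith

lemma g2P_smul_le {c : ℝ} (hc : 0 < c) (x : IY) : g2P (c • x) ≤ c * g2P x := by
  have key : ∀ t ∈ g2S x, g2P (c • x) / c ≤ t := by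
    rintro t ⟨f, hf, h⟩
    rw [div_le_iff₀ hc]
    refine g2P_le (fun p => c * f p) (TF_smul c hf) (fun p hp => ?_)
    rw [TF_lap_smul c hf hp]
    have h1 := mul_le_mul_of_nonneg_left (h p hp) hc.le
    change c * x.1 p ≤ _
    calc c * x.1 p ≤ c * (t + (sig p.1)⁻¹ * lapZ f p) := h1
      _ = t * c + (sig p.1)⁻¹ * (c * lapZ f p) := by ring
  have := le_csInf (g2S_nonempty x) key
  rw [div_le_iff₀ hc] at this
  rw [mul_comm]
  exact this

lemma g2P_smul {c : ℝ} (hc : 0 < c) (x : IY) : g2P (c • x) = c * g2P x := by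
  refine le_antisymm (g2P_smul_le hc x) ?_
  have h := g2P_smul_le (inv_pos.2 hc) (c • x)
  rw [smul_smul, inv_mul_cancel₀ hc.ne', one_smul] at h
  have h' := mul_le_mul_of_nonneg_left h hc.le
  rwa [← mul_assoc, mul_inv_cancel₀ hc.ne', one_mul] at h'

lemma g2P_zero_le : g2P 0 ≤ 0 := by
  refine g2P_le (fun _ => 0) TF_zero (fun p _ => ?_)
  rw [g2_lapZ_zero, mul_zero, add_zero]
  exact le_refl (0 : ℝ)

lemma g2P_zero : g2P 0 = 0 := by
  have h := g2P_smul (c := 2) (by norm_num) (0 : IY)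
  rw [smul_zero] at h
  linarith

lemma g2_le_smul (c : ℝ) (x : IY) : c * g2P x ≤ g2P (c • x) := by
  rcases lt_trichotomy c 0 with h | h | h
  · have h1 := g2P_add (c • x) ((-c) • x)
    have e : c • x + (-c) • x = 0 := by rw [← add_smul, add_neg_cancel, zero_smul]
    rw [e, g2P_zero, g2P_smul (by linarith : 0 < -c)] at h1
    linarith
  · subst h
    rw [zero_mul, zero_smul, g2P_zero]
  · rw [g2P_smul h]

/-- Hahn-Banach: a harmonic functional with positive drift -/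
theorem exists_PH (h : ∃ ε > 0, ∀ f : ℂ × W → ℝ, TF f →
    ¬ ∀ p ∈ DY, qY p ≤ ε + (sig p.1)⁻¹ * lapZ f p) :
    ∃ L : IY →ₗ[ℝ] ℝ, PH L ∧ L oneY = 1 ∧ 0 < L qe := by
  obtain ⟨ε, hε, hn⟩ := h
  have hq : ε ≤ g2P qe := by
    refine le_csInf (g2S_nonempty qe) ?_
    rintro t ⟨f, hf, h⟩
    by_contra hlt
    push Not at hlt
    exact hn f hf (fun p hp => (h p hp).trans (by linarith))
  have hne : qe ≠ 0 := by
    intro h0
    rw [h0, g2P_zero] at hq
    linarith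
  obtain ⟨L, hL1, hL2⟩ := exists_extension_of_le_sublinear
    (LinearPMap.mkSpanSingleton (K := ℝ) qe (g2P qe) hne) g2P (fun c hc x => g2P_smul hc x)
    g2P_add (by
      rintro ⟨x, hx⟩
      obtain ⟨c, rfl⟩ := Submodule.mem_span_singleton.1 hx
      have e : (LinearPMap.mkSpanSingleton (K := ℝ) qe (g2P qe) hne) ⟨c • qe, hx⟩ =
          c • g2P qe := LinearPMap.mkSpanSingleton'_apply _ _ _ _ _
      rw [e]
      exact g2_le_smul c qe)
  have hpos : ∀ g : IY, (∀ p ∈ DY, 0 ≤ g.1 p) → 0 ≤ L g := by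
    intro g hg
    have h1 : g2P (-g) ≤ 0 := by
      refine g2P_le (fun _ => 0) TF_zero (fun p hp => ?_)
      rw [g2_lapZ_zero, mul_zero, add_zero]
      have := hg p hp
      change -g.1 p ≤ 0
      linarith
    have h2 := hL2 (-g)
    rw [map_neg] at h2
    linarith
  refine ⟨L, ⟨hpos, ?_⟩, ?_, ?_⟩
  · intro f hf g hg
    have hlap : ∀ p ∈ DY, (sig p.1)⁻¹ * lapZ f p = g.1 p := by
      intro p hp
      rw [← hg p hp, ← mul_assoc, inv_mul_cancel₀ (sig_pos hp.1).ne', one_mul]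
    have h1 : g2P g ≤ 0 := g2P_le f hf (fun p hp => by rw [hlap p hp, zero_add])
    have h2 : g2P (-g) ≤ 0 := by
      refine g2P_le (fun p => (-1) * f p) (TF_smul (-1) hf) (fun p hp => ?_)
      rw [TF_lap_smul (-1) hf hp]
      have := hlap p hp
      change -g.1 p ≤ _
      rw [← this]
      apply le_of_eq
      ring
    have h3 := hL2 g
    have h4 := hL2 (-g)
    rw [map_neg] at h4
    linarith
  · have h1 : g2P oneY ≤ 1 := by
      refine g2P_le (fun _ => 0) TF_zero (fun p hp => ?_)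
      rw [g2_lapZ_zero, mul_zero, add_zero]
      exact le_refl (1 : ℝ)
    have h2 : g2P (-oneY) ≤ -1 := by
      refine g2P_le (fun _ => 0) TF_zero (fun p hp => ?_)
      rw [g2_lapZ_zero, mul_zero, add_zero]
      exact le_refl (-1 : ℝ)
    have h3 := hL2 oneY
    have h4 := hL2 (-oneY)
    rw [map_neg] at h4
    linarith
  · have h1 := hL1 ⟨qe, Submodule.mem_span_singleton_self qe⟩
    have h2 : L qe = g2P qe := h1.trans (LinearPMap.mkSpanSingleton_apply ℝ ℝ hne (g2P qe))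
    rw [h2]
    linarith

/-- bounds for positive functionals -/
lemma g2_pos_bound {L : IY →ₗ[ℝ] ℝ} (hL : PH L) (g : IY) {C : ℝ} (hC : ∀ p ∈ DY, |g.1 p| ≤ C) :
    |L g| ≤ C * L oneY := by
  have h1 : 0 ≤ L (C • oneY - g) := hL.pos _ (by
    intro p hp
    change 0 ≤ C * 1 - g.1 p
    linarith [(abs_le.mp (hC p hp)).2])
  have h2 : 0 ≤ L (C • oneY + g) := hL.pos _ (by
    intro p hp
    change 0 ≤ C * 1 + g.1 p
    linarith [(abs_le.mp (hC p hp)).1])
  rw [map_sub, map_smul, smul_eq_mul] at h1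
  rw [map_add, map_smul, smul_eq_mul] at h2
  rw [abs_le]
  constructor <;> linarith

lemma g2_eq_zero {L : IY →ₗ[ℝ] ℝ} (hL : PH L) (h1 : L oneY = 0) : L = 0 := by
  ext g
  obtain ⟨C, hC⟩ := g2_bound g
  have := g2_pos_bound hL g hC
  rw [h1, mul_zero] at this
  simpa using abs_nonpos_iff.mp this

/-- normalised positive harmonic functionals, as functions on `IY` -/
def g2K : Set (IY → ℝ) := {l | ∃ L : IY →ₗ[ℝ] ℝ, PH L ∧ L oneY = 1 ∧ l = L}

lemma g2K_eq : g2K = {l : IY → ℝ | (∀ x y, l (x + y) = l x + l y) ∧ (∀ (c : ℝ) x, l (c • x) = c * l x) ∧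
    (∀ g : IY, (∀ p ∈ DY, 0 ≤ g.1 p) → 0 ≤ l g) ∧
    (∀ f, TF f → ∀ g : IY, (∀ p ∈ DY, sig p.1 * g.1 p = lapZ f p) → l g = 0) ∧
    l oneY = 1} := by
  ext l
  constructor
  · rintro ⟨L, hL, h1, rfl⟩
    exact ⟨fun x y => map_add L x y, fun c x => map_smul L c x, hL.pos, hL.harm, h1⟩
  · rintro ⟨ha, hs, hp, hh, h1⟩
    exact ⟨{ toFun := l, map_add' := ha, map_smul' := hs }, ⟨hp, hh⟩, h1, rfl⟩

lemma isClosed_g2K : IsClosed g2K := by
  rw [g2K_eq]
  have ev : ∀ g : IY, Continuous (fun l : IY → ℝ => l g) := fun g => continuous_apply g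
  refine IsClosed.and ?_ (IsClosed.and ?_ (IsClosed.and ?_ (IsClosed.and ?_ ?_)))
  · simp only [Set.ofPred_forall]
    exact isClosed_iInter fun x => isClosed_iInter fun y =>
      isClosed_eq (ev _) ((ev x).add (ev y))
  · simp only [Set.ofPred_forall]
    exact isClosed_iInter fun c => isClosed_iInter fun x =>
      isClosed_eq (ev _) (continuous_const.mul (ev x))
  · simp only [Set.ofPred_forall]
    exact isClosed_iInter fun g => isClosed_iInter fun _ => isClosed_le continuous_const (ev g)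
  · simp only [Set.ofPred_forall]
    exact isClosed_iInter fun f => isClosed_iInter fun _ => isClosed_iInter fun g =>
      isClosed_iInter fun _ => isClosed_eq (ev g) continuous_const
  · exact isClosed_eq (ev _) continuous_const

lemma isCompact_g2K : IsCompact g2K := by
  choose C hC using g2_bound
  have h1 : IsCompact (Set.pi univ (fun g : IY => Icc (-(C g)) (C g))) :=
    isCompact_univ_pi (fun g => isCompact_Icc)
  refine h1.of_isClosed_subset isClosed_g2K ?_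
  rintro l ⟨L, hL, h1, rfl⟩ g -
  have := g2_pos_bound hL g (hC g)
  rw [h1, mul_one] at this
  exact abs_le.1 this

/-- Krein-Milman: an extremal one -/
theorem exists_ext (h : ∃ L : IY →ₗ[ℝ] ℝ, PH L ∧ L oneY = 1 ∧ 0 < L qe) :
    ∃ L : IY →ₗ[ℝ] ℝ, PH L ∧ L oneY = 1 ∧ 0 < L qe ∧
      ∀ L₁ L₂ : IY →ₗ[ℝ] ℝ, PH L₁ → PH L₂ → L₁ + L₂ = L → ∃ c : ℝ, L₁ = c • L := by
  obtain ⟨L₀, hL0, hL01, hL0q⟩ := h
  have hne : g2K.Nonempty := ⟨_, L₀, hL0, hL01, rfl⟩
  have hcont : Continuous (fun l : IY → ℝ => l qe) := continuous_apply qe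
  obtain ⟨l₁, hl₁, hmax⟩ := isCompact_g2K.exists_isMaxOn hne hcont.continuousOn
  set K' : Set (IY → ℝ) := g2K ∩ {l | l qe = l₁ qe} with hK'
  have hK'c : IsCompact K' := isCompact_g2K.inter_right (isClosed_eq hcont continuous_const)
  have hK'ne : K'.Nonempty := ⟨l₁, hl₁, rfl⟩
  obtain ⟨l, hl⟩ := hK'c.extremePoints_nonempty hK'ne
  rw [mem_extremePoints] at hl
  obtain ⟨⟨⟨L, hL, hL1, rfl⟩, hlq⟩, hext⟩ := hl
  have hmax' : ∀ l ∈ g2K, l qe ≤ l₁ qe := fun l hl => hmax hl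
  refine ⟨L, hL, hL1, ?_, ?_⟩
  · have h1 : L qe = l₁ qe := hlq
    rw [h1]
    have h2 : L₀ qe ≤ l₁ qe := hmax' _ ⟨L₀, hL0, hL01, rfl⟩
    linarith
  · intro L₁ L₂ h1 h2 h12
    have e1 : L₁ oneY + L₂ oneY = 1 := by rw [← LinearMap.add_apply, h12, hL1]
    have p1 : 0 ≤ L₁ oneY := h1.pos _ (fun p _ => zero_le_one)
    have p2 : 0 ≤ L₂ oneY := h2.pos _ (fun p _ => zero_le_one)
    rcases p1.eq_or_lt with z1 | z1
    · exact ⟨0, by rw [g2_eq_zero h1 z1.symm, zero_smul]⟩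
    rcases p2.eq_or_lt with z2 | z2
    · refine ⟨1, ?_⟩
      rw [g2_eq_zero h2 z2.symm, add_zero] at h12
      rw [one_smul, h12]
    · set a := L₁ oneY with ha
      set b := L₂ oneY with hb
      have m1 : ((a⁻¹ • L₁ : IY →ₗ[ℝ] ℝ) : IY → ℝ) ∈ g2K := by
        refine ⟨a⁻¹ • L₁, ⟨?_, ?_⟩, ?_, rfl⟩
        · intro g hg
          exact mul_nonneg (inv_nonneg.2 p1) (h1.pos g hg)
        · intro f hf g hg
          change a⁻¹ * L₁ g = 0
          rw [h1.harm f hf g hg, mul_zero]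
        · change a⁻¹ * L₁ oneY = 1
          rw [← ha, inv_mul_cancel₀ z1.ne']
      have m2 : ((b⁻¹ • L₂ : IY →ₗ[ℝ] ℝ) : IY → ℝ) ∈ g2K := by
        refine ⟨b⁻¹ • L₂, ⟨?_, ?_⟩, ?_, rfl⟩
        · intro g hg
          exact mul_nonneg (inv_nonneg.2 p2) (h2.pos g hg)
        · intro f hf g hg
          change b⁻¹ * L₂ g = 0
          rw [h2.harm f hf g hg, mul_zero]
        · change b⁻¹ * L₂ oneY = 1
          rw [← hb, inv_mul_cancel₀ z2.ne']
      have q1 := hmax' _ m1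
      have q2 := hmax' _ m2
      have eL : ∀ g, L g = a * (a⁻¹ * L₁ g) + b * (b⁻¹ * L₂ g) := by
        intro g
        rw [← h12, LinearMap.add_apply, ← mul_assoc, ← mul_assoc, mul_inv_cancel₀ z1.ne',
          mul_inv_cancel₀ z2.ne', one_mul, one_mul]
      have q1' : a⁻¹ * L₁ qe ≤ l₁ qe := q1
      have q2' : b⁻¹ * L₂ qe ≤ l₁ qe := q2
      have q3 : L qe = l₁ qe := hlq
      have q4 := eL qe
      have r1 : a⁻¹ * L₁ qe = l₁ qe := by
        by_contra hlt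
        have hlt' : a⁻¹ * L₁ qe < l₁ qe := lt_of_le_of_ne q1' hlt
        have t1 := mul_lt_mul_of_pos_left hlt' z1
        have t2 := mul_le_mul_of_nonneg_left q2' p2
        have t3 : a * l₁ qe + b * l₁ qe = l₁ qe := by rw [← add_mul, e1, one_mul]
        linarith
      have r2 : b⁻¹ * L₂ qe = l₁ qe := by
        by_contra hlt
        have hlt' : b⁻¹ * L₂ qe < l₁ qe := lt_of_le_of_ne q2' hlt
        have t1 := mul_lt_mul_of_pos_left hlt' z2
        have t2 := mul_le_mul_of_nonneg_left q1' p1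
        have t3 : a * l₁ qe + b * l₁ qe = l₁ qe := by rw [← add_mul, e1, one_mul]
        linarith
      have hseg := hext _ ⟨m1, r1⟩ _ ⟨m2, r2⟩ ⟨a, b, z1, z2, e1, by
        funext g
        exact (eL g).symm⟩
      refine ⟨a, ?_⟩
      ext g
      have h3 : a⁻¹ * L₁ g = L g := congrFun hseg.1 g
      change L₁ g = a * L g
      rw [← h3, ← mul_assoc, mul_inv_cancel₀ z1.ne', one_mul]

end Pool.Agent.H5.EC
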