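import Pool.Agent.H5.EC.G3a

/-! Part G3: the Riesz representation. -/

open Set Topology MeasureTheory
open scoped Manifold ContDiff ENNReal CompactlySupported

noncomputable section

namespace Pool.Agent.H5.EC

/-- `ξ` represents the positive functional `L` -/
structure Rep (L : IY →ₗ[ℝ] ℝ) (ξ : Measure (ℂ × W)) : Prop where
  supp : ξ (F ×ˢ Sh)ᶜ = 0
  fin : ∀ K : Set ℂ, IsCompact K → K ⊆ F → ξ (K ×ˢ univ) < ⊤
  rep : ∀ f : ℂ × W → ℝ, ContinuousOn f DY → (∀ z ∈ F, ∀ m ∈ N, f (z, th 1 m) = f (z, m)) →
    (∃ K : Set ℂ, IsCompact K ∧ K ⊆ F ∧ ∀ z ∈ F, z ∉ K → ∀ m ∈ N, f (z, m) = 0) →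
    ∀ g : IY, (∀ p ∈ DY, g.1 p = Av f p) → ∫ p, f p ∂ξ = L g
  inv : ∀ i : Mv, ∀ f : ℂ × W → ℝ≥0∞, Measurable f →
    (∀ z ∈ F, ∀ m ∈ N, f (z, th 1 m) = f (z, m)) →
    ∫⁻ p in dom i ×ˢ univ, f (act i p.1, rho i p.2) ∂ξ = ∫⁻ p in dom i.inv ×ˢ univ, f p ∂ξ

/-! ### averages over the moves -/

lemma g3_Av_none (f : ℂ × W → ℝ) {z : ℂ} (hz : z ∈ F) (h : ∀ b, z ∉ U b) (m : W) :
    Av f (z, m) = f (z, m) := by
  unfold Av
  rw [Fintype.sum_option, if_pos (show z ∈ dom none from hz)]
  rw [Finset.sum_eq_zero]
  · rw [add_zero]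
    change f (z, rho none m) = f (z, m)
    rw [rho_none]
  · intro b _
    exact if_neg (h b)

lemma g3_Av_U (f : ℂ × W → ℝ) {b : Bd} {z : ℂ} (hz : z ∈ U b) (m : W) :
    Av f (z, m) = f (z, m) + f (mv b z, rho (some b) m) := by
  unfold Av
  rw [Fintype.sum_option, if_pos (show z ∈ dom none from hz.1)]
  rw [Finset.sum_eq_single b]
  · rw [if_pos (show z ∈ dom (some b) from hz)]
    have e : f (act none z, rho none m) = f (z, m) := by
      change f (z, rho none m) = f (z, m)
      rw [rho_none]
    rw [e]
    rfl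
  · intro b' _ hb'
    exact if_neg (fun h => hb' (U_disj h hz))
  · intro h
    exact absurd (Finset.mem_univ b) h

lemma g3_Av_congr {f f' : ℂ × W → ℝ} (h : ∀ z ∈ F, ∀ m ∈ N, f (z, m) = f' (z, m)) :
    ∀ p ∈ DY, Av f p = Av f' p := by
  intro p hp
  unfold Av
  apply Finset.sum_congr rfl
  intro i _
  by_cases hi : p.1 ∈ dom i
  · rw [if_pos hi, if_pos hi]
    exact h _ (act_mem_F hi) _ (rho_mem.2 hp.2)
  · rw [if_neg hi, if_neg hi]

lemma g3_Av_nonneg {f : ℂ × W → ℝ} (h : ∀ z ∈ F, ∀ m ∈ N, 0 ≤ f (z, m)) :
    ∀ p ∈ DY, 0 ≤ Av f p := by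
  intro p hp
  unfold Av
  apply Finset.sum_nonneg
  intro i _
  by_cases hi : p.1 ∈ dom i
  · rw [if_pos hi]
    exact h _ (act_mem_F hi) _ (rho_mem.2 hp.2)
  · rw [if_neg hi]

lemma g3_Av_add (f f' : ℂ × W → ℝ) (p : ℂ × W) :
    Av (fun p => f p + f' p) p = Av f p + Av f' p := by
  unfold Av
  rw [← Finset.sum_add_distrib]
  apply Finset.sum_congr rfl
  intro i _
  by_cases hi : p.1 ∈ dom i
  · simp only [if_pos hi]
  · simp only [if_neg hi, add_zero]

lemma g3_Av_smul (c : ℝ) (f : ℂ × W → ℝ) (p : ℂ × W) :
    Av (fun p => c * f p) p = c * Av f p := by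
  unfold Av
  rw [Finset.mul_sum]
  apply Finset.sum_congr rfl
  intro i _
  by_cases hi : p.1 ∈ dom i
  · simp only [if_pos hi]
  · simp only [if_neg hi, mul_zero]

/-- a function supported in the collar `b.inv` and its pull back to the collar `b` have the same
average -/
lemma g3_Av_shift {b : Bd} {f f' : ℂ × W → ℝ}
    (hf : ∀ z ∈ F, z ∉ U b.inv → ∀ m ∈ N, f (z, m) = 0)
    (hf' : ∀ z ∈ F, z ∉ U b → ∀ m ∈ N, f' (z, m) = 0)
    (h : ∀ z ∈ U b, ∀ m ∈ N, f' (z, m) = f (mv b z, rho (some b) m)) :
    ∀ p ∈ DY, Av f' p = Av f p := by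
  rintro ⟨z, m⟩ ⟨hz, hm⟩
  have hz' : z ∈ F := hz
  have hm' : m ∈ N := hm
  by_cases hc : ∃ b', z ∈ U b'
  · obtain ⟨b', hb'⟩ := hc
    rw [g3_Av_U f hb', g3_Av_U f' hb']
    have hmm : ∀ i, rho i m ∈ N := fun i => rho_mem.2 hm'
    have hmv := mv_mem hb'
    by_cases h1 : b' = b
    · subst h1
      have h2 : z ∉ U b'.inv := fun h' => Bd.inv_ne b' (U_disj h' hb')
      have h3 : mv b' z ∉ U b' := fun h' => Bd.inv_ne b' (U_disj hmv h')
      rw [hf z hz' h2 m hm', hf' _ hmv.1 h3 _ (hmm _), h z hb' m hm', add_zero, zero_add]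
    · by_cases h1' : b' = b.inv
      · subst h1'
        rw [Bd.inv_inv] at hmv
        have h2 : z ∉ U b := fun h' => Bd.inv_ne b (U_disj hb' h')
        have h3 : mv b.inv z ∉ U b.inv := fun h' => Bd.inv_ne b (U_disj h' hmv)
        rw [hf' z hz' h2 m hm', hf _ hmv.1 h3 _ (hmm _), h _ hmv _ (hmm _), add_zero, zero_add]
        have h4 : mv b (mv b.inv z) = z := by
          have := mv_mv hb'
          rwa [Bd.inv_inv] at this
        have h5 : rho (some b) (rho (some b.inv) m) = m := by
          have := rho_inv (some b.inv) m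
          have e : Mv.inv (some b.inv) = some b := by
            change some b.inv.inv = some b
            rw [Bd.inv_inv]
          rwa [e] at this
        rw [h4, h5]
      · have h2 : z ∉ U b := fun h' => h1 (U_disj hb' h')
        have h2' : z ∉ U b.inv := fun h' => h1' (U_disj hb' h')
        have h3 : mv b' z ∉ U b := fun h' => h1' (by
          have := U_disj hmv h'
          rw [← this, Bd.inv_inv])
        have h3' : mv b' z ∉ U b.inv := fun h' => h1 (by
          have := U_disj hmv h'
          have h4 := congrArg Bd.inv this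
          rwa [Bd.inv_inv, Bd.inv_inv] at h4)
        rw [hf z hz' h2' m hm', hf' z hz' h2 m hm', hf _ hmv.1 h3' _ (hmm _),
          hf' _ hmv.1 h3 _ (hmm _)]
  · push Not at hc
    rw [g3_Av_none f hz' hc, g3_Av_none f' hz' hc, hf z hz' (hc _) m hm', hf' z hz' (hc _) m hm']

/-- averages of continuous functions with support over a compact subset of `F` -/
lemma Av_mem {f : ℂ × W → ℝ} (hf : ContinuousOn f DY)
    (hinv : ∀ z ∈ F, ∀ m ∈ N, f (z, th 1 m) = f (z, m))
    (hK : ∃ K : Set ℂ, IsCompact K ∧ K ⊆ F ∧ ∀ z ∈ F, z ∉ K → ∀ m ∈ N, f (z, m) = 0) :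
    Av f ∈ IY := by
  obtain ⟨K, hKc, hKF, hK0⟩ := hK
  refine ⟨?_, ⟨?_, ?_⟩⟩
  · -- continuity
    have hi : ∀ i : Mv, ContinuousOn (fun p : ℂ × W =>
        @ite ℝ (p.1 ∈ dom i) (Classical.propDecidable _) (f (act i p.1, rho i p.2)) 0) DY := by
      intro i p0 hp0
      apply ContinuousAt.continuousWithinAt
      by_cases h0 : p0.1 ∈ dom i
      · have hev : ∀ᶠ p : ℂ × W in 𝓝 p0, p.1 ∈ dom i :=
          continuous_fst.continuousAt.eventually ((isOpen_dom i).mem_nhds h0)
        have hc : ContinuousAt (fun p : ℂ × W => f (act i p.1, rho i p.2)) p0 := by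
          have h1 : ContinuousAt (fun p : ℂ × W => (act i p.1, rho i p.2)) p0 := by
            apply ContinuousAt.prodMk
            · exact ContinuousAt.comp (f := fun p : ℂ × W => p.1) (g := act i)
                (hasDerivAt_act h0).continuousAt continuous_fst.continuousAt
            · exact ((continuous_rho i).comp continuous_snd).continuousAt
          have h2 : ContinuousAt f (act i p0.1, rho i p0.2) :=
            hf.continuousAt (isOpen_DY.mem_nhds ⟨act_mem_F h0, rho_mem.2 hp0.2⟩)
          exact ContinuousAt.comp (f := fun p : ℂ × W => (act i p.1, rho i p.2)) (g := f) h2 h1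
        apply hc.congr_of_eventuallyEq
        filter_upwards [hev] with p hp
        rw [if_pos hp]
      · apply (continuousAt_const (y := (0 : ℝ))).congr_of_eventuallyEq
        cases i with
        | none => exact absurd hp0.1 h0
        | some b =>
          -- positive lower bound of the depth on `K`
          obtain ⟨c, hc, hcK⟩ : ∃ c > 0, ∀ z ∈ K, c ≤ dep b.inv z := by
            rcases K.eq_empty_or_nonempty with hE | hne
            · exact ⟨1, one_pos, fun z hz => by rw [hE] at hz; exact hz.elim⟩
            · obtain ⟨z0, hz0, hmin⟩ := hKc.exists_isMinOn hne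
                ((continuousOn_dep b.inv).mono hKF)
              exact ⟨dep b.inv z0, hKF hz0 _, fun z hz => hmin hz⟩
          have h1 : 1 ≤ dep b p0.1 := by
            by_contra hlt
            push Not at hlt
            exact h0 ⟨hp0.1, hlt⟩
          have hcd : ContinuousAt (fun p : ℂ × W => dep b p.1) p0 :=
            ContinuousAt.comp (f := fun p : ℂ × W => p.1) (g := dep b)
              ((continuousOn_dep b).continuousAt (isOpen_F.mem_nhds hp0.1))
              continuous_fst.continuousAt
          filter_upwards [hcd.eventually (Ioi_mem_nhds (show 1 - c < dep b p0.1 by linarith)),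
            isOpen_DY.mem_nhds hp0] with p hp hpD
          by_cases hpd : p.1 ∈ dom (some b)
          · rw [if_pos hpd]
            have hpd' : p.1 ∈ U b := hpd
            apply hK0 _ (act_mem_F hpd) _ _ (rho_mem.2 hpD.2)
            intro hmem
            have h2 := hcK _ hmem
            have h3 : dep b.inv (mv b p.1) = 1 - dep b p.1 := dep_mv hpd'
            have h4 : c ≤ dep b.inv (mv b p.1) := h2
            rw [h3] at h4
            have h5 : 1 - c < dep b p.1 := hp
            linarith
          · rw [if_neg hpd]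
    have e : Av f = fun p => ∑ i : Mv,
        @ite ℝ (p.1 ∈ dom i) (Classical.propDecidable _) (f (act i p.1, rho i p.2)) 0 := rfl
    rw [e]
    exact continuousOn_finsetSum _ (fun i _ => hi i)
  · intro z hz m hm
    unfold Av
    apply Finset.sum_congr rfl
    intro i _
    by_cases hi : z ∈ dom i
    · rw [if_pos hi, if_pos hi]
      rw [← th_rho]
      exact hinv _ (act_mem_F hi) _ (rho_mem.2 hm)
    · rw [if_neg hi, if_neg hi]
  · intro b z hz m hm
    rw [g3_Av_U f hz, g3_Av_U f (mv_mem hz), mv_mv hz]
    have h5 : rho (some b.inv) (rho (some b) m) = m := rho_inv (some b) m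
    rw [h5, add_comm]

/-! ### two measures on an open set -/

lemma g3_ext_open {Z : Type*} [TopologicalSpace Z] [T2Space Z] [LocallyCompactSpace Z]
    [SecondCountableTopology Z] [MeasurableSpace Z] [BorelSpace Z] {O : Set Z} (hO : IsOpen O)
    {μ1 μ2 : Measure Z} (h1 : μ1 Oᶜ = 0) (h2 : μ2 Oᶜ = 0)
    (hf1 : ∀ K, IsCompact K → K ⊆ O → μ1 K < ⊤) (hf2 : ∀ K, IsCompact K → K ⊆ O → μ2 K < ⊤)
    (h : ∀ g : Z → ℝ, Continuous g → (∃ K, IsCompact K ∧ K ⊆ O ∧ ∀ z, z ∉ K → g z = 0) →
      ∫ z, g z ∂μ1 = ∫ z, g z ∂μ2) : μ1 = μ2 := by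
  have hOm := hO.measurableSet
  have hLC : LocallyCompactSpace O := hO.locallyCompactSpace
  have hmr : ∀ μ : Measure Z, μ Oᶜ = 0 → (μ.comap (Subtype.val : O → Z)).map Subtype.val = μ := by
    intro μ hμ
    rw [map_comap_subtype_coe hOm]
    exact Measure.restrict_eq_self_of_ae_mem (by
      rw [ae_iff]
      exact hμ)
  have hfin : ∀ μ : Measure Z, (∀ K, IsCompact K → K ⊆ O → μ K < ⊤) →
      IsFiniteMeasureOnCompacts (μ.comap (Subtype.val : O → Z)) := by
    intro μ hμ
    refine ⟨fun K hK => ?_⟩
    rw [comap_subtype_coe_apply hOm]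
    refine hμ _ (hK.image continuous_subtype_val) ?_
    rintro _ ⟨y, _, rfl⟩
    exact y.2
  have i1 := hfin μ1 hf1
  have i2 := hfin μ2 hf2
  rw [← hmr μ1 h1, ← hmr μ2 h2]
  congr 1
  apply Measure.ext_of_integral_eq_on_compactlySupported
  intro f
  classical
  -- extension by zero
  set g : Z → ℝ := fun z => if hz : z ∈ O then f ⟨z, hz⟩ else 0 with hg
  set K : Set Z := Subtype.val '' (tsupport f) with hKdef
  have hKc : IsCompact K := f.hasCompactSupport.image continuous_subtype_val
  have hKO : K ⊆ O := by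
    rintro _ ⟨y, _, rfl⟩
    exact y.2
  have hg0 : ∀ z, z ∉ K → g z = 0 := by
    intro z hz
    by_cases hzO : z ∈ O
    · simp only [hg, dif_pos hzO]
      by_contra hne
      exact hz ⟨⟨z, hzO⟩, subset_tsupport _ hne, rfl⟩
    · simp only [hg, dif_neg hzO]
  have hgv : ∀ y : O, g y.1 = f y := fun y => by
    simp only [hg, dif_pos y.2]
  have hgc : Continuous g := by
    rw [continuous_iff_continuousAt]
    intro z
    by_cases hzO : z ∈ O
    · have : ContinuousAt (g ∘ (Subtype.val : O → Z)) ⟨z, hzO⟩ := by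
        have e : g ∘ (Subtype.val : O → Z) = f := funext hgv
        rw [e]
        exact f.continuous.continuousAt
      exact (hO.isOpenEmbedding_subtypeVal.continuousAt_iff (x := ⟨z, hzO⟩)).1 this
    · have hzK : z ∉ K := fun h => hzO (hKO h)
      apply (continuousAt_const (y := (0 : ℝ))).congr_of_eventuallyEq
      filter_upwards [hKc.isClosed.isOpen_compl.mem_nhds hzK] with u hu
      exact hg0 u hu
  have key : ∀ μ : Measure Z, μ Oᶜ = 0 →
      ∫ y, f y ∂(μ.comap (Subtype.val : O → Z)) = ∫ z, g z ∂μ := by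
    intro μ hμ
    have e1 : ∫ y, f y ∂(μ.comap (Subtype.val : O → Z)) =
        ∫ y, g y.1 ∂(μ.comap (Subtype.val : O → Z)) := by
      congr 1
      funext y
      exact (hgv y).symm
    rw [e1, ← (MeasurableEmbedding.subtype_coe hOm).integral_map, hmr μ hμ]
  rw [key μ1 h1, key μ2 h2]
  exact h g hgc ⟨K, hKc, hKO, hg0⟩

/-- invariance under the powers of the scaling -/
lemma g3_th_inv {α : Type*} (φ : W → α) (h : ∀ m ∈ N, φ (th 1 m) = φ m) (k : ℤ) :
    ∀ m ∈ N, φ (th k m) = φ m := by
  induction k using Int.induction_on with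
  | zero => intro m _; rw [th_zero]
  | succ i ih =>
    intro m hm
    rw [add_comm, th_add, h _ (th_mem.2 hm), ih m hm]
  | pred i ih =>
    intro m hm
    have h1 : th (-(i : ℤ) - 1) m ∈ N := th_mem.2 hm
    have h2 := h _ h1
    rw [← th_add] at h2
    have e : (1 : ℤ) + (-(i : ℤ) - 1) = -(i : ℤ) := by ring
    rw [e, ih m hm] at h2
    exact h2.symm

/-- Riesz representation -/
theorem exists_Rep (L : IY →ₗ[ℝ] ℝ) (hL : ∀ g : IY, (∀ p ∈ DY, 0 ≤ g.1 p) → 0 ≤ L g) :
    ∃ ξ : Measure (ℂ × W), Rep L ξ := by
  obtain ⟨Nb, _, _, _, _, _, _, sec, P, hsecm, hsecSh, hsecP, hPsec, hPth, hPc, hdesc⟩ :=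
    exists_model
  classical
  have hShN : ∀ m ∈ Sh, m ∈ N := by
    rintro m ⟨hm, _⟩ h0
    have h1 : nsq m.1 = 0 := by
      rw [h0]; simp [nsq]
    rw [h1] at hm
    exact absurd hm (not_lt.2 (sq_nonneg la))
  have hsecN : ∀ n, sec n ∈ N := fun n => hShN _ (hsecSh n)
  -- `L` depends only on the values on `DY`
  have hLcongr : ∀ g g' : IY, (∀ p ∈ DY, g.1 p = g'.1 p) → L g = L g' := by
    intro g g' h
    apply le_antisymm
    · have := hL (g' - g) (fun p hp => by
        change 0 ≤ g'.1 p - g.1 p
        rw [h p hp, sub_self])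
      rw [map_sub] at this
      linarith
    · have := hL (g - g') (fun p hp => by
        change 0 ≤ g.1 p - g'.1 p
        rw [h p hp, sub_self])
      rw [map_sub] at this
      linarith
  have hLC : LocallyCompactSpace F := isOpen_F.locallyCompactSpace
  -- the lift
  let fh : C_c(F × Nb, ℝ) → ℂ × W → ℝ := fun h p =>
    if hz : p.1 ∈ F then h (⟨p.1, hz⟩, P p.2) else 0
  have hfh : ∀ (h : C_c(F × Nb, ℝ)) (z : ℂ) (hz : z ∈ F) (m : W),
      fh h (z, m) = h (⟨z, hz⟩, P m) := fun h z hz m => dif_pos hz
  have hfh_cont : ∀ h, ContinuousOn (fh h) DY := by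
    intro h
    rw [continuousOn_iff_continuous_domRestrict]
    have e : DY.domRestrict (fh h) = fun p : DY => h (⟨p.1.1, p.2.1⟩, P p.1.2) := by
      funext p
      exact hfh h p.1.1 p.2.1 p.1.2
    rw [e]
    have h1 : Continuous (fun p : DY => (⟨p.1.1, p.2.1⟩ : F)) :=
      (continuous_fst.comp continuous_subtype_val).subtype_mk _
    have h2 : Continuous (fun p : DY => P p.1.2) :=
      hPc.comp_continuous (continuous_snd.comp continuous_subtype_val) (fun p => p.2.2)
    exact h.continuous.comp (h1.prodMk h2)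
  have hfh_inv : ∀ h, ∀ z ∈ F, ∀ m ∈ N, fh h (z, th 1 m) = fh h (z, m) := by
    intro h z hz m hm
    rw [hfh h z hz, hfh h z hz, hPth m hm]
  have hfh_supp : ∀ h, ∃ K : Set ℂ, IsCompact K ∧ K ⊆ F ∧
      ∀ z ∈ F, z ∉ K → ∀ m ∈ N, fh h (z, m) = 0 := by
    intro h
    refine ⟨(fun y : F × Nb => y.1.1) '' tsupport h,
      h.hasCompactSupport.image (continuous_subtype_val.comp continuous_fst), ?_, ?_⟩
    · rintro _ ⟨y, _, rfl⟩
      exact y.1.2
    · intro z hz hzK m hm
      rw [hfh h z hz]
      by_contra hne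
      exact hzK ⟨(⟨z, hz⟩, P m), subset_tsupport _ hne, rfl⟩
  let Λ0 : C_c(F × Nb, ℝ) →ₗ[ℝ] ℝ :=
    { toFun := fun h => L ⟨Av (fh h), Av_mem (hfh_cont h) (hfh_inv h) (hfh_supp h)⟩
      map_add' := by
        intro h h'
        rw [← map_add]
        apply hLcongr
        intro p hp
        change Av (fh (h + h')) p = Av (fh h) p + Av (fh h') p
        rw [← g3_Av_add]
        apply g3_Av_congr _ p hp
        intro z hz m _
        rw [hfh _ z hz, hfh _ z hz, hfh _ z hz]
        rfl
      map_smul' := by
        intro c h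
        rw [← map_smul]
        apply hLcongr
        intro p hp
        change Av (fh (c • h)) p = c * Av (fh h) p
        rw [← g3_Av_smul]
        apply g3_Av_congr _ p hp
        intro z hz m _
        rw [hfh _ z hz, hfh _ z hz]
        rfl }
  let Λ : C_c(F × Nb, ℝ) →ₚ[ℝ] ℝ := PositiveLinearMap.mk₀ Λ0 (by
    intro h hh
    apply hL
    apply g3_Av_nonneg
    intro z hz m _
    rw [hfh h z hz]
    exact hh _)
  set μ := RealRMK.rieszMeasure Λ with hμ
  have hμint : ∀ h : C_c(F × Nb, ℝ), ∫ y, h y ∂μ =
      L ⟨Av (fh h), Av_mem (hfh_cont h) (hfh_inv h) (hfh_supp h)⟩ := fun h =>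
    RealRMK.integral_rieszMeasure Λ h
  -- the embedding
  set ι : F × Nb → ℂ × Nb := Prod.map Subtype.val id with hι
  have hιo : IsOpenEmbedding ι := isOpen_F.isOpenEmbedding_subtypeVal.prodMap IsOpenEmbedding.id
  have hιm : MeasurableEmbedding ι := hιo.measurableEmbedding
  set ν := μ.map ι with hν
  have hFm : MeasurableSet (F ×ˢ (univ : Set Nb)) := isOpen_F.measurableSet.prod MeasurableSet.univ
  have hν0 : ν (F ×ˢ (univ : Set Nb))ᶜ = 0 := by
    rw [hν, Measure.map_apply hιm.measurable hFm.compl]
    have : ι ⁻¹' (F ×ˢ (univ : Set Nb))ᶜ = ∅ := by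
      ext y
      simp only [mem_preimage, mem_compl_iff, mem_prod, mem_univ, and_true, mem_empty_iff_false,
        iff_false, not_not]
      exact y.1.2
    rw [this, measure_empty]
  have hνfin : ∀ K : Set ℂ, IsCompact K → K ⊆ F → ν (K ×ˢ univ) < ⊤ := by
    intro K hK hKF
    rw [hν, Measure.map_apply hιm.measurable (hK.isClosed.measurableSet.prod MeasurableSet.univ)]
    have : ι ⁻¹' (K ×ˢ (univ : Set Nb)) = (Subtype.val ⁻¹' K) ×ˢ univ := by
      ext y; rfl
    rw [this]
    have h1 : IsCompact (Subtype.val ⁻¹' K : Set F) := by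
      rw [Subtype.isCompact_iff, Subtype.image_preimage_coe, inter_eq_right.2 hKF]
      exact hK
    exact (h1.prod isCompact_univ).measure_lt_top
  have hνint : ∀ h : ℂ × Nb → ℝ, ContinuousOn h (F ×ˢ univ) →
      (∃ K : Set ℂ, IsCompact K ∧ K ⊆ F ∧ ∀ z ∈ F, z ∉ K → ∀ n, h (z, n) = 0) →
      ∀ g : IY, (∀ p ∈ DY, g.1 p = Av (fun p => h (p.1, P p.2)) p) → ∫ x, h x ∂ν = L g := by
    rintro h hh ⟨K, hK, hKF, hK0⟩ g hg
    rw [hν, hιm.integral_map]
    have hc1 : Continuous (fun y : F × Nb => h (ι y)) :=
      hh.comp_continuous hιo.continuous (fun y => ⟨y.1.2, mem_univ _⟩)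
    have hc2 : HasCompactSupport (fun y : F × Nb => h (ι y)) := by
      have h1 : IsCompact (Subtype.val ⁻¹' K : Set F) := by
        rw [Subtype.isCompact_iff, Subtype.image_preimage_coe, inter_eq_right.2 hKF]
        exact hK
      apply HasCompactSupport.intro (h1.prod (isCompact_univ (X := Nb)))
      rintro ⟨z, n⟩ hy
      apply hK0 _ z.2
      intro hzK
      exact hy ⟨hzK, mem_univ _⟩
    let hc : C_c(F × Nb, ℝ) := ⟨⟨fun y => h (ι y), hc1⟩, hc2⟩
    have e := hμint hc
    refine e.trans ?_
    apply hLcongr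
    intro p hp
    rw [hg p hp]
    apply g3_Av_congr _ p hp
    intro z hz m _
    rw [hfh _ z hz]
    rfl
  -- the measure
  set Sc : ℂ × Nb → ℂ × W := fun x => (x.1, sec x.2) with hSc
  have hScm : Measurable Sc := measurable_fst.prodMk (hsecm.comp measurable_snd)
  have hShm : MeasurableSet Sh := by
    have hc : Continuous (fun m : W => nsq m.1) := continuous_nsq.comp continuous_fst
    exact (measurableSet_lt measurable_const hc.measurable).inter
      (measurableSet_le hc.measurable measurable_const)
  have hFS : MeasurableSet (F ×ˢ Sh) := isOpen_F.measurableSet.prod hShm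
  have hξ0 : (ν.map Sc) (F ×ˢ Sh)ᶜ = 0 := by
    rw [Measure.map_apply hScm hFS.compl]
    have : Sc ⁻¹' (F ×ˢ Sh)ᶜ = (F ×ˢ (univ : Set Nb))ᶜ := by
      ext x
      simp only [hSc, mem_preimage, mem_compl_iff, mem_prod, mem_univ, and_true, hsecSh]
    rw [this, hν0]
  refine ⟨ν.map Sc, ⟨hξ0, ?_, ?_, ?_⟩⟩
  · -- finiteness
    intro K hK hKF
    rw [Measure.map_apply hScm (hK.isClosed.measurableSet.prod MeasurableSet.univ)]
    have : Sc ⁻¹' (K ×ˢ univ) = K ×ˢ univ := by
      ext x; simp [hSc]
    rw [this]
    exact hνfin K hK hKF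
  · -- representation
    rintro f hf hfinv ⟨K, hK, hKF, hK0⟩ g hg
    have hDYm : MeasurableSet DY := isOpen_DY.measurableSet
    have hres : (ν.map Sc).restrict DY = ν.map Sc := by
      apply Measure.restrict_eq_self_of_ae_mem
      rw [ae_iff]
      refine measure_mono_null ?_ hξ0
      intro p hp hp'
      exact hp ⟨hp'.1, hShN _ hp'.2⟩
    have hfm : AEStronglyMeasurable f (ν.map Sc) := by
      rw [← hres]
      exact hf.aestronglyMeasurable hDYm
    rw [integral_map hScm.aemeasurable hfm]
    apply hνint (fun x => f (x.1, sec x.2)) (hdesc f hf hfinv)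
    · exact ⟨K, hK, hKF, fun z hz hzK n => hK0 z hz hzK _ (hsecN n)⟩
    · intro p hp
      rw [hg p hp]
      apply g3_Av_congr _ p hp
      intro z hz m hm
      obtain ⟨k, hk⟩ := hsecP m hm
      change f (z, m) = f (z, sec (P m))
      rw [hk]
      exact (g3_th_inv (fun m => f (z, m)) (hfinv z hz) k m hm).symm
  · -- invariance
    intro i f hf hfinv
    cases i with
    | none =>
      have e : ∀ p : ℂ × W, (act none p.1, rho none p.2) = p := by
        intro p
        rw [rho_none]
        rfl
      simp only [e]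
      rfl
    | some b =>
      set Φ : ℂ × Nb → ℂ × Nb := fun x => (mv b x.1, P (rho (some b) (sec x.2))) with hΦ
      have hPm : Measurable (fun n => P (rho (some b) (sec n))) := by
        rcases isEmpty_or_nonempty Nb with hE | hne
        · exact measurable_of_empty _
        · obtain ⟨n0⟩ := hne
          have h1 : Measurable (N.piecewise P (fun _ => n0)) :=
            hPc.measurable_piecewise continuousOn_const isOpen_N.measurableSet
          have h2 : (fun n => P (rho (some b) (sec n))) =
              fun n => N.piecewise P (fun _ => n0) (rho (some b) (sec n)) := by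
            funext n
            rw [Set.piecewise_eq_of_mem _ _ _ (rho_mem.2 (hsecN n))]
          rw [h2]
          exact h1.comp ((continuous_rho _).measurable.comp hsecm)
      have hΦm : Measurable Φ :=
        ((measurable_mv b).comp measurable_fst).prodMk (hPm.comp measurable_snd)
      have hUm : MeasurableSet (U b ×ˢ (univ : Set Nb)) :=
        (isOpen_U b).measurableSet.prod MeasurableSet.univ
      have hOo : IsOpen (U b.inv ×ˢ (univ : Set Nb)) := (isOpen_U b.inv).prod isOpen_univ
      have hmain : (ν.restrict (U b ×ˢ (univ : Set Nb))).map Φ =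
          ν.restrict (U b.inv ×ˢ (univ : Set Nb)) := by
        have himg : ∀ K : Set (ℂ × Nb), IsCompact K → K ⊆ U b.inv ×ˢ (univ : Set Nb) →
            IsCompact (mv b.inv '' (Prod.fst '' K)) ∧ mv b.inv '' (Prod.fst '' K) ⊆ U b ∧
            ∀ z ∈ U b, mv b z ∈ Prod.fst '' K → z ∈ mv b.inv '' (Prod.fst '' K) := by
          intro K hK hKO
          have hK1 : Prod.fst '' K ⊆ U b.inv := by
            rintro _ ⟨x, hx, rfl⟩
            exact (hKO hx).1
          refine ⟨?_, ?_, ?_⟩
          · apply (hK.image continuous_fst).image_of_continuousOn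
            intro z hz
            exact (hasDerivAt_mv (hK1 hz)).continuousAt.continuousWithinAt
          · rintro _ ⟨z, hz, rfl⟩
            have := mv_mem (hK1 hz)
            rwa [Bd.inv_inv] at this
          · intro z hz hz'
            exact ⟨mv b z, hz', mv_mv hz⟩
        apply g3_ext_open hOo
        · rw [Measure.map_apply hΦm hOo.measurableSet.compl, Measure.restrict_apply
            (hΦm hOo.measurableSet.compl)]
          have : Φ ⁻¹' (U b.inv ×ˢ (univ : Set Nb))ᶜ ∩ U b ×ˢ (univ : Set Nb) = ∅ := by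
            ext x
            simp only [mem_inter_iff, mem_preimage, mem_compl_iff, mem_prod, mem_univ, and_true,
              mem_empty_iff_false, iff_false, not_and]
            intro h h'
            exact h (mv_mem h')
          rw [this, measure_empty]
        · rw [Measure.restrict_apply hOo.measurableSet.compl, compl_inter_self, measure_empty]
        · intro K hK hKO
          obtain ⟨h1, h2, h3⟩ := himg K hK hKO
          rw [Measure.map_apply hΦm hK.isClosed.measurableSet, Measure.restrict_apply
            (hΦm hK.isClosed.measurableSet)]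
          refine lt_of_le_of_lt (measure_mono ?_) (hνfin _ h1 (h2.trans (U_subset b)))
          rintro x ⟨hx1, hx2⟩
          exact ⟨h3 x.1 hx2.1 ⟨_, hx1, rfl⟩, mem_univ _⟩
        · intro K hK hKO
          rw [Measure.restrict_apply hK.isClosed.measurableSet]
          refine lt_of_le_of_lt (measure_mono ?_)
            (hνfin (Prod.fst '' K) (hK.image continuous_fst) ?_)
          · rintro x ⟨hx1, _⟩
            exact ⟨⟨x, hx1, rfl⟩, mem_univ _⟩
          · rintro _ ⟨x, hx, rfl⟩
            exact (hKO hx).1.1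
        · rintro g hg ⟨K, hK, hKO, hK0⟩
          obtain ⟨h1, h2, h3⟩ := himg K hK hKO
          have hKb : IsCompact (Prod.fst '' K) := hK.image continuous_fst
          have hKbU : Prod.fst '' K ⊆ U b.inv := by
            rintro _ ⟨x, hx, rfl⟩
            exact (hKO hx).1
          have hg0 : ∀ z n, z ∉ Prod.fst '' K → g (z, n) = 0 := fun z n hz =>
            hK0 _ (fun h => hz ⟨_, h, rfl⟩)
          -- the function on the side of `b.inv`
          set f1 : ℂ × W → ℝ := fun p => g (p.1, P p.2) with hf1
          have hf1c : ContinuousOn f1 DY := by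
            apply hg.comp_continuousOn
            exact continuousOn_fst.prodMk (hPc.comp continuousOn_snd (fun p hp => hp.2))
          have hf1i : ∀ z ∈ F, ∀ m ∈ N, f1 (z, th 1 m) = f1 (z, m) := by
            intro z _ m hm
            simp only [hf1, hPth m hm]
          have hf1s : ∃ K : Set ℂ, IsCompact K ∧ K ⊆ F ∧
              ∀ z ∈ F, z ∉ K → ∀ m ∈ N, f1 (z, m) = 0 :=
            ⟨_, hKb, hKbU.trans (U_subset _), fun z _ hz m _ => hg0 z _ hz⟩
          -- the function on the side of `b`
          set f2 : ℂ × W → ℝ := fun p =>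
            if p.1 ∈ U b then g (mv b p.1, P (rho (some b) p.2)) else 0 with hf2
          have hf20 : ∀ z, z ∉ mv b.inv '' (Prod.fst '' K) → ∀ m, f2 (z, m) = 0 := by
            intro z hz m
            by_cases hzU : z ∈ U b
            · simp only [hf2, if_pos hzU]
              apply hg0
              intro h
              exact hz (h3 z hzU h)
            · simp only [hf2, if_neg hzU]
          have hf2c : ContinuousOn f2 DY := by
            intro p hp
            apply ContinuousAt.continuousWithinAt
            by_cases hpU : p.1 ∈ U b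
            · have hc : ContinuousAt (fun p : ℂ × W => g (mv b p.1, P (rho (some b) p.2))) p := by
                have e1 : ContinuousAt (fun p : ℂ × W => mv b p.1) p :=
                  ContinuousAt.comp (f := fun p : ℂ × W => p.1) (g := mv b)
                    (hasDerivAt_mv hpU).continuousAt continuous_fst.continuousAt
                have e2 : ContinuousAt (fun p : ℂ × W => P (rho (some b) p.2)) p := by
                  have e3 : ContinuousAt P (rho (some b) p.2) :=
                    hPc.continuousAt (isOpen_N.mem_nhds (rho_mem.2 hp.2))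
                  exact ContinuousAt.comp (f := fun p : ℂ × W => rho (some b) p.2) (g := P) e3
                    ((continuous_rho _).comp continuous_snd).continuousAt
                exact ContinuousAt.comp (g := g) hg.continuousAt (e1.prodMk e2)
              apply hc.congr_of_eventuallyEq
              have hev : ∀ᶠ p' : ℂ × W in 𝓝 p, p'.1 ∈ U b :=
                continuous_fst.continuousAt.eventually ((isOpen_U b).mem_nhds hpU)
              filter_upwards [hev] with p' hp'
              simp only [hf2, if_pos hp']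
            · apply (continuousAt_const (y := (0 : ℝ))).congr_of_eventuallyEq
              have hpK : p.1 ∉ mv b.inv '' (Prod.fst '' K) := fun h => hpU (h2 h)
              have hev : ∀ᶠ p' : ℂ × W in 𝓝 p, p'.1 ∈ (mv b.inv '' (Prod.fst '' K))ᶜ :=
                continuous_fst.continuousAt.eventually (h1.isClosed.isOpen_compl.mem_nhds hpK)
              filter_upwards [hev] with p' hp'
              exact hf20 p'.1 hp' p'.2
          have hf2i : ∀ z ∈ F, ∀ m ∈ N, f2 (z, th 1 m) = f2 (z, m) := by
            intro z _ m hm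
            have : P (rho (some b) (th 1 m)) = P (rho (some b) m) := by
              rw [← th_rho, hPth _ (rho_mem.2 hm)]
            simp only [hf2, this]
          have hf2s : ∃ K : Set ℂ, IsCompact K ∧ K ⊆ F ∧
              ∀ z ∈ F, z ∉ K → ∀ m ∈ N, f2 (z, m) = 0 :=
            ⟨_, h1, h2.trans (U_subset _), fun z _ hz m _ => hf20 z hz m⟩
          have hAv : ∀ p ∈ DY, Av f2 p = Av f1 p := by
            apply g3_Av_shift (b := b)
            · intro z _ hzU m _
              exact hg0 z _ (fun h => hzU (hKbU h))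
            · intro z _ hzU m _
              simp only [hf2, if_neg hzU]
            · intro z hz m _
              simp only [hf2, if_pos hz, hf1]
          -- right-hand side
          have hR : ∫ x, g x ∂(ν.restrict (U b.inv ×ˢ (univ : Set Nb))) =
              L ⟨Av f1, Av_mem hf1c hf1i hf1s⟩ := by
            rw [setIntegral_eq_integral_of_forall_compl_eq_zero (fun x hx => hK0 x
              (fun h => hx (hKO h)))]
            apply hνint g hg.continuousOn
            · exact ⟨_, hKb, hKbU.trans (U_subset _), fun z _ hz n => hg0 z n hz⟩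
            · intro p _
              rfl
          -- left-hand side
          have hLh : ∫ x, g x ∂((ν.restrict (U b ×ˢ (univ : Set Nb))).map Φ) =
              L ⟨Av f2, Av_mem hf2c hf2i hf2s⟩ := by
            rw [integral_map hΦm.aemeasurable hg.aestronglyMeasurable]
            have e : ∫ x in U b ×ˢ (univ : Set Nb), g (Φ x) ∂ν = ∫ x, f2 (x.1, sec x.2) ∂ν := by
              rw [← integral_indicator hUm]
              congr 1
              funext x
              by_cases hx : x.1 ∈ U b
              · rw [Set.indicator_of_mem (show x ∈ U b ×ˢ (univ : Set Nb) from ⟨hx, mem_univ _⟩)]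
                simp only [hf2, if_pos hx, hΦ]
              · rw [Set.indicator_of_notMem (fun h : x ∈ U b ×ˢ (univ : Set Nb) => hx h.1)]
                simp only [hf2, if_neg hx]
            rw [e]
            apply hνint (fun x => f2 (x.1, sec x.2)) (hdesc f2 hf2c hf2i)
            · exact ⟨_, h1, h2.trans (U_subset _), fun z _ hz n => hf20 z hz _⟩
            · intro p hp
              apply g3_Av_congr _ p hp
              intro z hz m hm
              obtain ⟨k, hk⟩ := hsecP m hm
              change f2 (z, m) = f2 (z, sec (P m))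
              rw [hk]
              exact (g3_th_inv (fun m => f2 (z, m)) (hf2i z hz) k m hm).symm
          rw [hR, hLh]
          apply hLcongr
          intro p hp
          exact hAv p hp
      -- conclusion
      have hact : Measurable (fun p : ℂ × W => f (mv b p.1, rho (some b) p.2)) :=
        hf.comp (((measurable_mv b).comp measurable_fst).prodMk
          ((continuous_rho _).measurable.comp measurable_snd))
      have hW1 : MeasurableSet (U b ×ˢ (univ : Set W)) :=
        (isOpen_U b).measurableSet.prod MeasurableSet.univ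
      have hW2 : MeasurableSet (U b.inv ×ˢ (univ : Set W)) :=
        (isOpen_U b.inv).measurableSet.prod MeasurableSet.univ
      change ∫⁻ p in U b ×ˢ univ, f (mv b p.1, rho (some b) p.2) ∂(ν.map Sc) =
        ∫⁻ p in U b.inv ×ˢ univ, f p ∂(ν.map Sc)
      rw [setLIntegral_map hW1 hact hScm, setLIntegral_map hW2 hf hScm]
      have p1 : Sc ⁻¹' (U b ×ˢ (univ : Set W)) = U b ×ˢ (univ : Set Nb) := by
        ext x; simp [hSc]
      have p2 : Sc ⁻¹' (U b.inv ×ˢ (univ : Set W)) = U b.inv ×ˢ (univ : Set Nb) := by
        ext x; simp [hSc]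
      have hlm : ∫⁻ x, f (Sc x) ∂((ν.restrict (U b ×ˢ (univ : Set Nb))).map Φ) =
          ∫⁻ x in U b ×ˢ (univ : Set Nb), f (Sc (Φ x)) ∂ν :=
        lintegral_map (f := fun x => f (Sc x)) (hf.comp hScm) hΦm
      rw [p1, p2, ← hmain, hlm]
      apply setLIntegral_congr_fun hUm
      intro x hx
      have hx1 : x.1 ∈ U b := hx.1
      obtain ⟨k, hk⟩ := hsecP (rho (some b) (sec x.2)) (rho_mem.2 (hsecN _))
      change f (mv b x.1, rho (some b) (sec x.2)) =
        f (mv b x.1, sec (P (rho (some b) (sec x.2))))
      rw [hk]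
      exact (g3_th_inv (fun m => f (mv b x.1, m)) (hfinv _ (mv_mem hx1).1) k _
        (rho_mem.2 (hsecN _))).symm

end Pool.Agent.H5.EC
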