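import Pool.Agent.H5.EC.G1

/-! Part G3a: a compact model of the fibre modulo the scaling. -/

open Set Topology MeasureTheory
open scoped Manifold ContDiff ENNReal

noncomputable section

namespace Pool.Agent.H5.EC

/-- the unit sphere of the fibre -/
def Sp : Set X3 := {p | nsq p = 1}

lemma g3a_compact : IsCompact Sp := by
  have h := isCompact_cSh3
  apply h.of_isClosed_subset (isClosed_eq continuous_nsq continuous_const)
  intro p hp
  have hp' : nsq p = 1 := hp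
  constructor
  · rw [hp']
    have h1 := la_pos
    have h2 := la_lt_one
    nlinarith
  · exact hp'.le

lemma g3a_base : nsq (((1 : ℂ), (0 : ℂ)), (0 : ℂ)) = 1 := by
  simp [nsq]

/-- radius -/
def g3r (p : X3) : ℝ := Real.sqrt (nsq p)

lemma g3r_pos {p : X3} (hp : p ≠ 0) : 0 < g3r p := Real.sqrt_pos.2 (nsq_pos3 hp)

lemma g3r_sq {p : X3} : g3r p ^ 2 = nsq p := Real.sq_sqrt (nsq_nonneg p)

/-- logarithmic radius -/
def g3t (p : X3) : ℝ := Real.log (g3r p) / Real.log la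

lemma g3a_log_la_ne : Real.log la ≠ 0 := (Real.log_neg la_pos la_lt_one).ne

lemma g3a_la_rpow {p : X3} (hp : p ≠ 0) : la ^ (g3t p) = g3r p := by
  rw [Real.rpow_def_of_pos la_pos, g3t, mul_div_cancel₀ _ g3a_log_la_ne]
  exact Real.exp_log (g3r_pos hp)

lemma g3a_nsq_norm {p : X3} (hp : p ≠ 0) : nsq (((g3r p)⁻¹ : ℝ) • p) = 1 := by
  have h := nsq_smul (((g3r p)⁻¹ : ℝ) : ℂ) p
  have e : (((g3r p)⁻¹ : ℝ) : ℂ) • p = ((g3r p)⁻¹ : ℝ) • p := by
    exact Complex.coe_smul _ _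
  rw [e] at h
  rw [h, Complex.norm_real, Real.norm_of_nonneg (inv_pos.2 (g3r_pos hp)).le, inv_pow, g3r_sq,
    inv_mul_cancel₀ (nsq_pos3 hp).ne']

lemma g3a_nsq_rpow (t : ℝ) {w : X3} (hw : nsq w = 1) : nsq ((la ^ t : ℝ) • w) = (la ^ t) ^ 2 := by
  have h := nsq_smul ((la ^ t : ℝ) : ℂ) w
  have e : ((la ^ t : ℝ) : ℂ) • w = (la ^ t : ℝ) • w := by
    exact Complex.coe_smul _ _
  rw [e] at h
  rw [h, Complex.norm_real, Real.norm_of_nonneg (Real.rpow_pos_of_pos la_pos t).le, hw, mul_one]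

lemma g3r_rpow (t : ℝ) {w : X3} (hw : nsq w = 1) : g3r ((la ^ t : ℝ) • w) = la ^ t := by
  rw [g3r, g3a_nsq_rpow t hw, Real.sqrt_sq (Real.rpow_pos_of_pos la_pos t).le]

lemma g3_ne {w : X3} (hw : nsq w = 1) (t : ℝ) : (la ^ t : ℝ) • w ≠ 0 := by
  intro h
  have h1 := g3a_nsq_rpow t hw
  rw [h] at h1
  have h2 : nsq (0 : X3) = 0 := by simp [nsq]
  rw [h2] at h1
  have := Real.rpow_pos_of_pos la_pos t
  exact absurd h1 (by positivity : (0 : ℝ) < (la ^ t) ^ 2).ne

/-- the point with coordinates `(w, t, s)` -/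
def g3q (w : X3) (t : ℝ) (s : UnitAddCircle) : W :=
  ((la ^ t : ℝ) • w, s + ((t * ka0 : ℝ) : UnitAddCircle))

lemma g3q_th (w : X3) (t : ℝ) (s : UnitAddCircle) (k : ℤ) :
    g3q w (t + k) s = th k (g3q w t s) := by
  unfold g3q th
  refine Prod.ext ?_ ?_
  · change (la ^ (t + k) : ℝ) • w = ((la : ℂ) ^ k) • ((la ^ t : ℝ) • w)
    rw [Real.rpow_add la_pos, Real.rpow_intCast, ← Complex.ofReal_zpow]
    rw [Complex.coe_smul, smul_smul, mul_comm]
  · change s + (((t + k) * ka0 : ℝ) : UnitAddCircle) =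
      s + ((t * ka0 : ℝ) : UnitAddCircle) + k • (ka0 : UnitAddCircle)
    rw [add_mul, AddCircle.coe_add, ← AddCircle.coe_zsmul, zsmul_eq_mul, add_assoc]

lemma g3q_mem {w : X3} (hw : nsq w = 1) (t : ℝ) (s : UnitAddCircle) : g3q w t s ∈ N :=
  g3_ne hw t

lemma g3q_coords {m : W} (hm : m ∈ N) : g3q (((g3r m.1)⁻¹ : ℝ) • m.1) (g3t m.1)
    (m.2 - ((g3t m.1 * ka0 : ℝ) : UnitAddCircle)) = m := by
  have hm' : m.1 ≠ 0 := hm
  unfold g3q
  refine Prod.ext ?_ ?_
  · change (la ^ (g3t m.1) : ℝ) • (((g3r m.1)⁻¹ : ℝ) • m.1) = m.1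
    rw [g3a_la_rpow hm', smul_smul, mul_inv_cancel₀ (g3r_pos hm').ne', one_smul]
  · simp

/-- the compact model -/
abbrev NbT : Type := Sp × (UnitAddCircle × UnitAddCircle)

/-- the representative in `[0, 1)` -/
def g3f (τ : UnitAddCircle) : ℝ := (AddCircle.equivIco 1 0 τ : ℝ)

lemma g3f_mem (τ : UnitAddCircle) : 0 ≤ g3f τ ∧ g3f τ < 1 := by
  have h := (AddCircle.equivIco 1 0 τ).2
  refine ⟨h.1, ?_⟩
  have h2 : g3f τ < 0 + 1 := h.2
  linarith

lemma g3f_coe (τ : UnitAddCircle) : ((g3f τ : ℝ) : UnitAddCircle) = τ := AddCircle.coe_equivIco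

lemma g3f_of (t : ℝ) : ∃ k : ℤ, g3f (t : UnitAddCircle) = t + k := by
  have h := g3f_coe (t : UnitAddCircle)
  rw [← sub_eq_zero, ← AddCircle.coe_sub, AddCircle.coe_eq_zero_iff] at h
  obtain ⟨k, hk⟩ := h
  refine ⟨k, ?_⟩
  rw [zsmul_eq_mul, mul_one] at hk
  linarith

lemma g3f_meas : Measurable g3f :=
  measurable_subtype_coe.comp (AddCircle.measurableEquivIco 1 0).measurable

/-- the section -/
def g3sec (n : NbT) : W := g3q n.1.1 (g3f n.2.1) n.2.2

open Classical in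
/-- the projection -/
def g3P (m : W) : NbT :=
  if h : m.1 ≠ 0 then (⟨((g3r m.1)⁻¹ : ℝ) • m.1, g3a_nsq_norm h⟩, ((g3t m.1 : ℝ) : UnitAddCircle),
    m.2 - ((g3t m.1 * ka0 : ℝ) : UnitAddCircle))
  else (⟨_, g3a_base⟩, 0, 0)

lemma g3P_of {m : W} (h : m ∈ N) : g3P m = (⟨((g3r m.1)⁻¹ : ℝ) • m.1, g3a_nsq_norm h⟩,
    ((g3t m.1 : ℝ) : UnitAddCircle), m.2 - ((g3t m.1 * ka0 : ℝ) : UnitAddCircle)) := dif_pos h

/-- the section of the projection of the point with coordinates `(w, t, s)` -/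
lemma g3sec_eq (w : X3) (hw : nsq w = 1) (t : ℝ) (s : UnitAddCircle) :
    ∃ k : ℤ, g3sec (⟨w, hw⟩, (t : UnitAddCircle), s) = th k (g3q w t s) := by
  obtain ⟨k, hk⟩ := g3f_of t
  refine ⟨k, ?_⟩
  change g3q w (g3f t) s = _
  rw [hk, g3q_th]

lemma g3t_rpow (t : ℝ) {w : X3} (hw : nsq w = 1) : g3t ((la ^ t : ℝ) • w) = t := by
  rw [g3t, g3r_rpow t hw, Real.log_rpow la_pos, mul_div_assoc, div_self g3a_log_la_ne, mul_one]

lemma g3P_q {w : X3} (hw : nsq w = 1) (t : ℝ) (s : UnitAddCircle) :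
    g3P (g3q w t s) = (⟨w, hw⟩, (t : UnitAddCircle), s) := by
  rw [g3P_of (g3q_mem hw t s)]
  have h1 : (g3q w t s).1 = (la ^ t : ℝ) • w := rfl
  have h2 : (g3q w t s).2 = s + ((t * ka0 : ℝ) : UnitAddCircle) := rfl
  refine Prod.ext (Subtype.ext ?_) (Prod.ext ?_ ?_)
  · change ((g3r (g3q w t s).1)⁻¹ : ℝ) • (g3q w t s).1 = w
    rw [h1, g3r_rpow t hw, smul_smul,
      inv_mul_cancel₀ (Real.rpow_pos_of_pos la_pos t).ne', one_smul]
  · change ((g3t (g3q w t s).1 : ℝ) : UnitAddCircle) = t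
    rw [h1, g3t_rpow t hw]
  · change (g3q w t s).2 - ((g3t (g3q w t s).1 * ka0 : ℝ) : UnitAddCircle) = s
    rw [h1, g3t_rpow t hw, h2]
    simp

lemma g3P_th {m : W} (hm : m ∈ N) : g3P (th 1 m) = g3P m := by
  have h := g3q_coords hm
  have hw : nsq (((g3r m.1)⁻¹ : ℝ) • m.1) = 1 := g3a_nsq_norm hm
  rw [← h, ← g3q_th, g3P_q hw, g3P_q hw]
  refine Prod.ext rfl (Prod.ext ?_ rfl)
  change ((g3t m.1 + ((1 : ℤ) : ℝ) : ℝ) : UnitAddCircle) = ((g3t m.1 : ℝ) : UnitAddCircle)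
  rw [AddCircle.coe_add]
  have : (((1 : ℤ) : ℝ) : UnitAddCircle) = 0 := by
    rw [AddCircle.coe_eq_zero_iff]
    exact ⟨1, by simp⟩
  rw [this, add_zero]

lemma g3P_cont : ContinuousOn g3P N := by
  rw [continuousOn_iff_continuous_domRestrict]
  have e : N.domRestrict g3P = fun m : N => ((⟨((g3r m.1.1)⁻¹ : ℝ) • m.1.1, g3a_nsq_norm m.2⟩ : Sp),
      ((g3t m.1.1 : ℝ) : UnitAddCircle),
      m.1.2 - ((g3t m.1.1 * ka0 : ℝ) : UnitAddCircle)) := by
    funext m
    exact g3P_of m.2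
  rw [e]
  have h1 : Continuous (fun m : N => m.1.1) := continuous_fst.comp continuous_subtype_val
  have h2 : Continuous (fun m : N => g3r m.1.1) := (continuous_nsq.comp h1).sqrt
  have h3 : Continuous (fun m : N => g3t m.1.1) :=
    (h2.log (fun m => (g3r_pos m.2).ne')).div_const _
  refine Continuous.prodMk ?_ (Continuous.prodMk ?_ ?_)
  · exact ((h2.inv₀ (fun m => (g3r_pos m.2).ne')).smul h1).subtype_mk _
  · exact (AddCircle.continuous_mk' 1).comp h3
  · exact (continuous_snd.comp continuous_subtype_val).sub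
      ((AddCircle.continuous_mk' 1).comp (h3.mul continuous_const))

/-- a compact model of the fibre modulo the scaling (for instance sphere × circle × circle) -/
lemma exists_model : ∃ (Nb : Type) (_ : TopologicalSpace Nb) (_ : CompactSpace Nb) (_ : T2Space Nb)
    (_ : SecondCountableTopology Nb) (_ : MeasurableSpace Nb) (_ : BorelSpace Nb)
    (sec : Nb → W) (P : W → Nb), Measurable sec ∧ (∀ n, sec n ∈ Sh) ∧
    (∀ m ∈ N, ∃ k : ℤ, sec (P m) = th k m) ∧ (∀ n, P (sec n) = n) ∧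
    (∀ m ∈ N, P (th 1 m) = P m) ∧ ContinuousOn P N ∧
    ∀ f : ℂ × W → ℝ, ContinuousOn f DY → (∀ z ∈ F, ∀ m ∈ N, f (z, th 1 m) = f (z, m)) →
      ContinuousOn (fun x : ℂ × Nb => f (x.1, sec x.2)) (F ×ˢ univ) := by
  have hcs : CompactSpace Sp := isCompact_iff_compactSpace.1 g3a_compact
  refine ⟨NbT, inferInstance, inferInstance, inferInstance, inferInstance, inferInstance,
    inferInstance, g3sec, g3P, ?_, ?_, ?_, ?_, ?_, g3P_cont, ?_⟩
  · -- measurability
    have h1 : Measurable (fun n : NbT => g3f n.2.1) :=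
      g3f_meas.comp (measurable_fst.comp measurable_snd)
    have h2 : Measurable (fun n : NbT => n.1.1) := measurable_subtype_coe.comp measurable_fst
    have h3 : Measurable (fun n : NbT => (la ^ (g3f n.2.1) : ℝ)) := h1.const_pow la
    have hc : Measurable (fun t : ℝ => (t : UnitAddCircle)) :=
      (AddCircle.continuous_mk' 1).measurable
    refine Measurable.prodMk (h3.smul h2) ?_
    exact (measurable_snd.comp measurable_snd).add (hc.comp (h1.mul_const ka0))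
  · intro n
    have h := g3a_nsq_rpow (g3f n.2.1) n.1.2
    obtain ⟨h1, h2⟩ := g3f_mem n.2.1
    change la ^ 2 < nsq ((la ^ (g3f n.2.1) : ℝ) • n.1.1) ∧
      nsq ((la ^ (g3f n.2.1) : ℝ) • n.1.1) ≤ 1
    rw [h]
    have h3 : la < la ^ (g3f n.2.1) := by
      calc la = la ^ (1 : ℝ) := (Real.rpow_one la).symm
        _ < la ^ (g3f n.2.1) := Real.rpow_lt_rpow_of_exponent_gt la_pos la_lt_one h2
    have h4 : la ^ (g3f n.2.1) ≤ 1 := Real.rpow_le_one la_pos.le la_lt_one.le h1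
    have h5 := la_pos
    constructor
    · nlinarith
    · nlinarith
  · intro m hm
    have hw : nsq (((g3r m.1)⁻¹ : ℝ) • m.1) = 1 := g3a_nsq_norm hm
    obtain ⟨k, hk⟩ := g3sec_eq _ hw (g3t m.1) (m.2 - ((g3t m.1 * ka0 : ℝ) : UnitAddCircle))
    refine ⟨k, ?_⟩
    rw [g3P_of hm, hk, g3q_coords hm]
  · rintro ⟨w, τ, σ⟩
    change g3P (g3q w.1 (g3f τ) σ) = _
    rw [g3P_q w.2, g3f_coe]
  · intro m hm
    exact g3P_th hm
  · -- descent
    intro f hf hfi
    have hthi : ∀ k : ℤ, ∀ z ∈ F, ∀ m ∈ N, f (z, th k m) = f (z, m) := by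
      intro k z hz
      induction k using Int.induction_on with
      | zero => intro m _; rw [th_zero]
      | succ i ih =>
        intro m hm
        rw [add_comm, th_add, hfi z hz _ (th_mem.2 hm), ih m hm]
      | pred i ih =>
        intro m hm
        have h1 : th (-(i : ℤ) - 1) m ∈ N := th_mem.2 hm
        have h2 := hfi z hz _ h1
        rw [← th_add] at h2
        have e : (1 : ℤ) + (-(i : ℤ) - 1) = -(i : ℤ) := by ring
        rw [e, ih m hm] at h2
        exact h2.symm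
    set π : ℂ × (Sp × (ℝ × UnitAddCircle)) → ℂ × NbT :=
      Prod.map id (Prod.map id (Prod.map (fun t : ℝ => (t : UnitAddCircle)) id)) with hπ
    have hπq : IsOpenQuotientMap π := by
      have hq : IsOpenQuotientMap (fun t : ℝ => (t : UnitAddCircle)) :=
        ⟨QuotientAddGroup.mk_surjective, AddCircle.continuous_mk' 1, QuotientAddGroup.isOpenMap_coe⟩
      exact IsOpenQuotientMap.id.prodMap (IsOpenQuotientMap.id.prodMap
        (hq.prodMap IsOpenQuotientMap.id))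
    intro y hy
    apply ContinuousAt.continuousWithinAt
    obtain ⟨x, rfl⟩ := hπq.surjective y
    rw [← hπq.continuousAt_comp_iff]
    have hxF : x.1 ∈ F := hy.1
    have hc : Continuous (fun x : ℂ × (Sp × (ℝ × UnitAddCircle)) =>
        ((x.1, g3q x.2.1.1 x.2.2.1 x.2.2.2) : ℂ × W)) := by
      refine continuous_fst.prodMk (Continuous.prodMk ?_ ?_)
      · have e1 : Continuous (fun x : ℂ × (Sp × (ℝ × UnitAddCircle)) => (la ^ x.2.2.1 : ℝ)) :=
          Continuous.rpow continuous_const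
            (continuous_fst.comp (continuous_snd.comp continuous_snd))
            (fun _ => Or.inl la_ne)
        have e2 : Continuous (fun x : ℂ × (Sp × (ℝ × UnitAddCircle)) => (x.2.1 : X3)) :=
          continuous_subtype_val.comp (continuous_fst.comp continuous_snd)
        exact e1.smul e2
      · exact (continuous_snd.comp (continuous_snd.comp continuous_snd)).add
          ((AddCircle.continuous_mk' 1).comp
            ((continuous_fst.comp (continuous_snd.comp continuous_snd)).mul continuous_const))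
    have hfc : ContinuousAt (fun x : ℂ × (Sp × (ℝ × UnitAddCircle)) =>
        f (x.1, g3q x.2.1.1 x.2.2.1 x.2.2.2)) x := by
      have h1 : ContinuousAt f (x.1, g3q x.2.1.1 x.2.2.1 x.2.2.2) :=
        hf.continuousAt (isOpen_DY.mem_nhds ⟨hxF, g3q_mem x.2.1.2 _ _⟩)
      exact ContinuousAt.comp (g := f) h1 hc.continuousAt
    apply hfc.congr_of_eventuallyEq
    have hev : ∀ᶠ x' : ℂ × (Sp × (ℝ × UnitAddCircle)) in 𝓝 x, x'.1 ∈ F :=
      continuous_fst.continuousAt.eventually (isOpen_F.mem_nhds hxF)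
    filter_upwards [hev] with x' hx'
    obtain ⟨k, hk⟩ := g3sec_eq x'.2.1.1 x'.2.1.2 x'.2.2.1 x'.2.2.2
    change f (x'.1, g3sec (x'.2.1, (x'.2.2.1 : UnitAddCircle), x'.2.2.2)) = _
    have e : g3sec (x'.2.1, (x'.2.2.1 : UnitAddCircle), x'.2.2.2) =
      th k (g3q x'.2.1.1 x'.2.2.1 x'.2.2.2) := hk
    rw [e, hthi k x'.1 hx' _ (g3q_mem x'.2.1.2 _ _)]

end Pool.Agent.H5.EC
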