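import Pool.Agent.H5.EC.G2
import Pool.Agent.H5.EC.G3

/-! Part G4: harmonic densities. -/

open Set Topology MeasureTheory
open scoped Manifold ContDiff ENNReal

noncomputable section

namespace Pool.Agent.H5.EC

/-- `w ξ` is harmonic: it kills `sig⁻¹ Δ_z (a(z) β(m))`, `a` smooth with compact support in `F`,
`β` bounded Borel and invariant under the scaling -/
def Harm (ξ : Measure (ℂ × W)) (w : ℂ × W → ℝ) : Prop :=
  ∀ a : ℂ → ℝ, ContDiff ℝ ∞ a → (∃ K : Set ℂ, IsCompact K ∧ K ⊆ F ∧ ∀ z, z ∉ K → a z = 0) →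
    ∀ β : W → ℝ, Measurable β → (∀ m ∈ N, β (th 1 m) = β m) → (∃ C, ∀ m, |β m| ≤ C) →
      ∫ p, ((sig p.1)⁻¹ * lap2 a p.1 * β p.2) * w p ∂ξ = 0

/-- bounded measurable invariant densities -/
structure Dens (w : ℂ × W → ℝ) : Prop where
  meas : Measurable w
  bdd : ∃ C, ∀ p, |w p| ≤ C
  inv : InvY w

/-- the part of the model space where `x ≠ 0` -/
def DX : Set (ℂ × W) := {p | p.1 ∈ F ∧ p.2.1.1 ≠ 0}

/-- nice functions: invariant, vanishing for `x = 0`, continuous with their leafwise derivatives for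
`x ≠ 0`, with bounds over compact subsets of `F` -/
structure NF (G : ℂ × W → ℝ) : Prop where
  inv : InvY G
  zero : ∀ z ∈ F, ∀ m ∈ N, m.1.1 = 0 → G (z, m) = 0
  smooth : ∀ m : W, m.1.1 ≠ 0 → ContDiffOn ℝ ∞ (fun z => G (z, m)) F
  cont : ContinuousOn G DX
  contd : ∀ v : ℂ, ContinuousOn (fun p : ℂ × W => fderiv ℝ (fun z => G (z, p.2)) p.1 v) DX
  contL : ContinuousOn (lapZ G) DX
  bdd : ∀ K : Set ℂ, IsCompact K → K ⊆ F → ∃ C, ∀ z ∈ K, ∀ m : W, m.1.1 ≠ 0 →
    |G (z, m)| ≤ C ∧ |lapZ G (z, m)| ≤ C ∧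
      ∀ v : ℂ, |fderiv ℝ (fun z => G (z, m)) z v| ≤ C * ‖v‖

variable {L : IY →ₗ[ℝ] ℝ} {ξ : Measure (ℂ × W)}

/-! #### auxiliary facts -/

lemma g4_meas_dep (b : Bd) : Measurable (dep b) := by
  unfold dep
  by_cases hb : b = (0, false)
  · simp only [hb, if_true]
    exact ((Real.measurable_log.comp measurable_norm).div_const _).const_sub _
  · simp only [hb, if_false]
    exact (Real.measurable_log.comp (measurable_norm.comp (measurable_id.sub_const _))).div_const _

lemma g4_meas_eps (i : Mv) : Measurable (eps i) := by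
  have hS : Measurable S := contDiff_S.continuous.measurable
  cases i with
  | none =>
    have h : Measurable (fun z => 1 - ∑ b : Bd, S (1 - dep b z)) :=
      measurable_const.sub (Finset.measurable_sum _
        (fun b _ => hS.comp ((g4_meas_dep b).const_sub 1)))
    exact h
  | some b => exact hS.comp ((g4_meas_dep b).const_sub 1)

lemma g4_Sh_N {m : W} (hm : m ∈ Sh) : m ∈ N := by
  intro h0
  have h1 : nsq m.1 = 0 := by
    rw [h0]; simp [nsq]
  have h2 := hm.1
  rw [h1] at h2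
  exact absurd h2 (not_lt.2 (sq_nonneg la))

lemma Rep.ae (hξ : Rep L ξ) : ∀ᵐ p ∂ξ, p.1 ∈ F ∧ p.2 ∈ N := by
  have h : ∀ᵐ p ∂ξ, p ∈ F ×ˢ Sh := by
    rw [ae_iff]
    exact hξ.supp
  filter_upwards [h] with p hp
  exact ⟨hp.1, g4_Sh_N hp.2⟩

lemma g4_meas_set (i : Mv) : MeasurableSet (dom i ×ˢ (univ : Set W)) :=
  (isOpen_dom i).measurableSet.prod MeasurableSet.univ

lemma g4_int (hξ : Rep L ξ) {u : ℂ × W → ℝ} (hu : AEStronglyMeasurable u ξ) {C : ℝ}
    (hC : ∀ z ∈ F, ∀ m ∈ N, |u (z, m)| ≤ C) {K : Set ℂ} (hK : IsCompact K) (hKF : K ⊆ F)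
    (h0 : ∀ z ∈ F, z ∉ K → ∀ m ∈ N, u (z, m) = 0) : Integrable u ξ := by
  have hKm : MeasurableSet (K ×ˢ (univ : Set W)) :=
    hK.isClosed.measurableSet.prod MeasurableSet.univ
  have h1 : Integrable ((K ×ˢ (univ : Set W)).indicator (fun _ => C)) ξ := by
    rw [integrable_indicator_iff hKm]
    exact integrableOn_const (hξ.fin K hK hKF).ne
  apply h1.mono' hu
  filter_upwards [hξ.ae] with p hp
  by_cases hpK : p.1 ∈ K
  · rw [Set.indicator_of_mem (show p ∈ K ×ˢ (univ : Set W) from ⟨hpK, mem_univ _⟩)]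
    exact hC p.1 hp.1 p.2 hp.2
  · have := h0 p.1 hp.1 hpK p.2 hp.2
    have e : u p = 0 := this
    rw [e, Set.indicator_of_notMem (fun h : p ∈ K ×ˢ (univ : Set W) => hpK h.1)]
    simp

lemma g4_meas_mv (i : Mv) : Measurable (fun p : ℂ × W => (act i p.1, rho i p.2)) :=
  ((measurable_act i).comp measurable_fst).prodMk
    ((continuous_rho i).measurable.comp measurable_snd)

/-- invariance of the measure, for integrable functions -/
lemma Rep.inv_int (hξ : Rep L ξ) (i : Mv) {f : ℂ × W → ℝ} (hf : Measurable f)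
    (hfi : ∀ z ∈ F, ∀ m ∈ N, f (z, th 1 m) = f (z, m))
    (hint : IntegrableOn f (dom i.inv ×ˢ univ) ξ) :
    IntegrableOn (fun p => f (act i p.1, rho i p.2)) (dom i ×ˢ univ) ξ ∧
      ∫ p in dom i ×ˢ univ, f (act i p.1, rho i p.2) ∂ξ =
        ∫ p in dom i.inv ×ˢ univ, f p ∂ξ := by
  have hm := g4_meas_mv i
  have h1 := hξ.inv i (fun p => ‖f p‖ₑ) hf.enorm (fun z hz m hm => by simp only [hfi z hz m hm])
  have hint' : IntegrableOn (fun p => f (act i p.1, rho i p.2)) (dom i ×ˢ univ) ξ := by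
    refine ⟨(hf.comp hm).aestronglyMeasurable, ?_⟩
    have h2 := hint.2
    unfold HasFiniteIntegral at h2 ⊢
    rw [← h1] at h2
    exact h2
  refine ⟨hint', ?_⟩
  rw [integral_eq_lintegral_pos_part_sub_lintegral_neg_part hint,
    integral_eq_lintegral_pos_part_sub_lintegral_neg_part hint']
  rw [← hξ.inv i (fun p => ENNReal.ofReal (f p)) hf.ennreal_ofReal
      (fun z hz m hm => by simp only [hfi z hz m hm]),
    ← hξ.inv i (fun p => ENNReal.ofReal (-f p)) hf.neg.ennreal_ofReal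
      (fun z hz m hm => by simp only [hfi z hz m hm])]

open Classical in
/-- one term of the average -/
lemma g4_term (hξ : Rep L ξ) {h g : ℂ × W → ℝ} (hh : Measurable h) (hg : Dens g)
    (hb : ∃ C, ∀ p, |h p| ≤ C) (hinv : ∀ z ∈ F, ∀ m ∈ N, h (z, th 1 m) = h (z, m))
    (hK : ∃ K : Set ℂ, IsCompact K ∧ K ⊆ F ∧ ∀ z ∈ F, z ∉ K → ∀ m ∈ N, h (z, m) = 0) (i : Mv) :
    Integrable (fun p => eps none p.1 *
      ((if p.1 ∈ dom i then h (act i p.1, rho i p.2) else 0) * g p)) ξ ∧
    ∫ p, eps none p.1 * ((if p.1 ∈ dom i then h (act i p.1, rho i p.2) else 0) * g p) ∂ξ =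
      ∫ p, eps i.inv p.1 * (h p * g p) ∂ξ := by
  obtain ⟨C, hC⟩ := hb
  obtain ⟨C', hC'⟩ := hg.bdd
  obtain ⟨K, hKc, hKF, hK0⟩ := hK
  have hgN : ∀ z ∈ F, ∀ m ∈ N, g (z, th 1 m) = g (z, m) := hg.inv.sc
  -- the function on the side of the inverse move
  have hu : Measurable (fun p : ℂ × W => eps i.inv p.1 * (h p * g p)) :=
    ((g4_meas_eps _).comp measurable_fst).mul (hh.mul hg.meas)
  have hui : Integrable (fun p : ℂ × W => eps i.inv p.1 * (h p * g p)) ξ := by
    apply g4_int hξ hu.aestronglyMeasurable (C := C * C') _ hKc hKF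
    · intro z hz hzK m hm
      simp only [hK0 z hz hzK m hm, zero_mul, mul_zero]
    · intro z hz m hm
      rw [abs_mul, abs_mul, abs_of_nonneg (eps_nonneg _ hz)]
      have h1 := eps_le_one i.inv hz
      have h2 := eps_nonneg i.inv hz
      have h3 := hC (z, m)
      have h4 := hC' (z, m)
      have h5 : |h (z, m)| * |g (z, m)| ≤ C * C' :=
        mul_le_mul h3 h4 (abs_nonneg _) (le_trans (abs_nonneg _) h3)
      have h6 : 0 ≤ |h (z, m)| * |g (z, m)| := by positivity
      nlinarith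
  set f : ℂ × W → ℝ := fun p => eps none (act i.inv p.1) * (h p * g p) with hf
  have hfm : Measurable f :=
    ((g4_meas_eps _).comp ((measurable_act _).comp measurable_fst)).mul (hh.mul hg.meas)
  have hfi : ∀ z ∈ F, ∀ m ∈ N, f (z, th 1 m) = f (z, m) := by
    intro z hz m hm
    simp only [hf, hinv z hz m hm, hgN z hz m hm]
  have hfe : ∀ p ∈ dom i.inv ×ˢ (univ : Set W), f p = eps i.inv p.1 * (h p * g p) := by
    intro p hp
    simp only [hf]
    rw [eps_eq hp.1]
  have hfint : IntegrableOn f (dom i.inv ×ˢ univ) ξ :=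
    hui.integrableOn.congr_fun (fun p hp => (hfe p hp).symm) (g4_meas_set _)
  obtain ⟨h1, h2⟩ := hξ.inv_int i hfm hfi hfint
  -- the two sides
  have hae : ∀ᵐ p ∂(ξ.restrict (dom i ×ˢ univ)), f (act i p.1, rho i p.2) = eps none p.1 *
      ((if p.1 ∈ dom i then h (act i p.1, rho i p.2) else 0) * g p) := by
    rw [ae_restrict_iff' (g4_meas_set i)]
    filter_upwards [hξ.ae] with p hp hpi
    have hpi' : p.1 ∈ dom i := hpi.1
    simp only [hf]
    rw [act_act hpi', if_pos hpi', hg.inv.act hpi' hp.2]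
  have hind : ∀ p, (dom i ×ˢ (univ : Set W)).indicator (fun p => eps none p.1 *
      ((if p.1 ∈ dom i then h (act i p.1, rho i p.2) else 0) * g p)) p = eps none p.1 *
      ((if p.1 ∈ dom i then h (act i p.1, rho i p.2) else 0) * g p) := by
    intro p
    by_cases hp : p.1 ∈ dom i
    · rw [Set.indicator_of_mem (show p ∈ dom i ×ˢ (univ : Set W) from ⟨hp, mem_univ _⟩)]
    · rw [Set.indicator_of_notMem (fun h : p ∈ dom i ×ˢ (univ : Set W) => hp h.1), if_neg hp,
        zero_mul, mul_zero]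
  have h1' : IntegrableOn (fun p => eps none p.1 *
      ((if p.1 ∈ dom i then h (act i p.1, rho i p.2) else 0) * g p)) (dom i ×ˢ univ) ξ :=
    h1.congr hae
  refine ⟨?_, ?_⟩
  · have := h1'.integrable_indicator (g4_meas_set i)
    exact this.congr (Filter.Eventually.of_forall hind)
  · have e1 : ∫ p, eps none p.1 *
        ((if p.1 ∈ dom i then h (act i p.1, rho i p.2) else 0) * g p) ∂ξ =
        ∫ p in dom i ×ˢ univ, f (act i p.1, rho i p.2) ∂ξ := by
      rw [integral_congr_ae hae, ← integral_indicator (g4_meas_set i)]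
      exact integral_congr_ae (Filter.Eventually.of_forall fun p => (hind p).symm)
    rw [e1, h2, setIntegral_congr_fun (g4_meas_set _) hfe]
    apply setIntegral_eq_integral_of_ae_compl_eq_zero
    filter_upwards [hξ.ae] with p hp hpi
    have : p.1 ∉ dom i.inv := fun h => hpi ⟨h, mem_univ _⟩
    rw [eps_zero hp.1 this, zero_mul]

/-- unfolding of the averaging over the moves -/
lemma rep_unfold (hξ : Rep L ξ) {h g : ℂ × W → ℝ} (hh : Measurable h) (hg : Dens g)
    (hb : ∃ C, ∀ p, |h p| ≤ C) (hinv : ∀ z ∈ F, ∀ m ∈ N, h (z, th 1 m) = h (z, m))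
    (hK : ∃ K : Set ℂ, IsCompact K ∧ K ⊆ F ∧ ∀ z ∈ F, z ∉ K → ∀ m ∈ N, h (z, m) = 0) :
    ∫ p, eps none p.1 * (Av h p * g p) ∂ξ = ∫ p, h p * g p ∂ξ := by
  classical
  have ht := fun i => g4_term hξ hh hg hb hinv hK i
  have e1 : ∀ p : ℂ × W, eps none p.1 * (Av h p * g p) = ∑ i : Mv, eps none p.1 *
      ((@ite ℝ (p.1 ∈ dom i) (Classical.propDecidable _) (h (act i p.1, rho i p.2)) 0) * g p) := by
    intro p
    unfold Av
    rw [Finset.sum_mul, Finset.mul_sum]
  simp_rw [e1]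
  rw [integral_finsetSum _ (fun i _ => (ht i).1)]
  rw [Finset.sum_congr rfl (fun i _ => (ht i).2)]
  have e2 : ∑ i : Mv, ∫ p, eps i.inv p.1 * (h p * g p) ∂ξ =
      ∑ i : Mv, ∫ p, eps i p.1 * (h p * g p) ∂ξ :=
    Fintype.sum_bijective Mv.inv (Function.Involutive.bijective Mv.inv_inv) _ _ (fun i => rfl)
  rw [e2]
  have hint : ∀ i : Mv, Integrable (fun p => eps i p.1 * (h p * g p)) ξ := by
    intro i
    obtain ⟨C, hC⟩ := hb
    obtain ⟨C', hC'⟩ := hg.bdd
    obtain ⟨K, hKc, hKF, hK0⟩ := hK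
    apply g4_int hξ (((g4_meas_eps _).comp measurable_fst).mul
      (hh.mul hg.meas)).aestronglyMeasurable (C := C * C') _ hKc hKF
    · intro z hz hzK m hm
      simp only [Pi.mul_apply, hK0 z hz hzK m hm, zero_mul, mul_zero]
    · intro z hz m hm
      simp only [Pi.mul_apply, Function.comp_apply]
      rw [abs_mul, abs_mul, abs_of_nonneg (eps_nonneg _ hz)]
      have h1 := eps_le_one i hz
      have h2 := eps_nonneg i hz
      have h3 := hC (z, m)
      have h4 := hC' (z, m)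
      have h5 : |h (z, m)| * |g (z, m)| ≤ C * C' :=
        mul_le_mul h3 h4 (abs_nonneg _) (le_trans (abs_nonneg _) h3)
      have h6 : 0 ≤ |h (z, m)| * |g (z, m)| := by positivity
      nlinarith
  rw [← integral_finsetSum _ (fun i _ => hint i)]
  congr 1
  funext p
  rw [← Finset.sum_mul, sum_eps, one_mul]

/-- the functional in terms of the measure -/
lemma rep_eq (hξ : Rep L ξ) (g : IY) : L g = ∫ p, eps none p.1 * g.1 p ∂ξ := by
  symm
  have hgc : ContinuousOn g.1 DY := g.2.1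
  have hgi : InvY g.1 := g.2.2
  apply hξ.rep
  · have h1 : ContinuousOn (fun p : ℂ × W => eps none p.1) DY :=
      (contDiffOn_eps none).continuousOn.comp continuousOn_fst (fun p hp => hp.1)
    exact h1.mul hgc
  · intro z hz m hm
    simp only [hgi.sc z hz m hm]
  · refine ⟨KF (1 / 3), isCompact_KF (by norm_num), KF_subset (by norm_num), ?_⟩
    intro z hz hzK m _
    have : eps none z = 0 := by
      by_contra hne
      exact hzK (eps_none_ne hz hne)
    simp only [this, zero_mul]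
  · intro p hp
    unfold Av
    have e : ∀ i : Mv, (@ite ℝ (p.1 ∈ dom i) (Classical.propDecidable _)
        (eps none (act i p.1) * g.1 (act i p.1, rho i p.2)) 0) = eps i p.1 * g.1 p := by
      intro i
      by_cases hi : p.1 ∈ dom i
      · rw [if_pos hi, ← eps_eq hi, hgi.act hi hp.2]
      · rw [if_neg hi, eps_zero hp.1 hi, zero_mul]
    rw [Finset.sum_congr rfl (fun i _ => e i), ← Finset.sum_mul, sum_eps, one_mul]

/-- functions of the fibre may be absorbed -/
lemma Harm.mul {w : ℂ × W → ℝ} (hw : Harm ξ w) {γ : W → ℝ} (hγ : Measurable γ)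
    (hγ' : ∀ m ∈ N, γ (th 1 m) = γ m) (hγb : ∃ C, ∀ m, |γ m| ≤ C) :
    Harm ξ (fun p => w p * γ p.2) := by
  intro a ha hK β hβ hβi hβb
  obtain ⟨C, hC⟩ := hβb
  obtain ⟨C', hC'⟩ := hγb
  have h := hw a ha hK (fun m => β m * γ m) (hβ.mul hγ)
    (fun m hm => by simp only [hβi m hm, hγ' m hm])
    ⟨C * C', fun m => by
      rw [abs_mul]
      exact mul_le_mul (hC m) (hC' m) (abs_nonneg _) (le_trans (abs_nonneg _) (hC m))⟩
  rw [← h]
  congr 1
  funext p
  ring

end Pool.Agent.H5.EC
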