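import Pool.Agent.H5.EC.G4

/-! Part G4b: harmonicity against Borel functions of the fibre. -/

open Set Topology MeasureTheory
open scoped Manifold ContDiff ENNReal

noncomputable section

namespace Pool.Agent.H5.EC

variable {L : IY →ₗ[ℝ] ℝ} {ξ : Measure (ℂ × W)}

open Classical in
/-- the pull back of a compactly supported function by a move, extended by zero -/
lemma g4b_loc {a : ℂ → ℝ} (ha : ContDiff ℝ ∞ a) {K : Set ℂ} (hK : IsCompact K) (hKF : K ⊆ F)
    (haK : ∀ z, z ∉ K → a z = 0) (i : Mv) {z : ℂ} (hz : z ∈ F) :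
    ContDiffAt ℝ 2 (fun u => if u ∈ dom i then a (act i u) else 0) z ∧
      lap2 (fun u => if u ∈ dom i then a (act i u) else 0) z =
        if z ∈ dom i then ‖actd i z‖ ^ 2 * lap2 a (act i z) else 0 := by
  by_cases hi : z ∈ dom i
  · have hev : (fun u => if u ∈ dom i then a (act i u) else 0) =ᶠ[𝓝 z] fun u => a (act i u) := by
      filter_upwards [(isOpen_dom i).mem_nhds hi] with u hu
      rw [if_pos hu]
    have ha2 : ContDiffAt ℝ 2 a (act i z) := (ha.contDiffAt).of_le (by norm_cast)
    refine ⟨?_, ?_⟩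
    · apply ContDiffAt.congr_of_eventuallyEq _ hev
      exact ha2.comp z ((contDiffAt_act hi 2).restrict_scalars ℝ)
    · rw [if_pos hi, lap2_congr hev, lap2_comp_holo (contDiffAt_act hi 2) ha2,
        (hasDerivAt_act hi).deriv]
  · have hev : (fun u => if u ∈ dom i then a (act i u) else 0) =ᶠ[𝓝 z] fun _ => 0 := by
      cases i with
      | none => exact absurd hz hi
      | some b =>
        obtain ⟨c, hc, hcK⟩ : ∃ c > 0, ∀ z ∈ K, c ≤ dep b.inv z := by
          rcases K.eq_empty_or_nonempty with hE | hne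
          · exact ⟨1, one_pos, fun z hz => by rw [hE] at hz; exact hz.elim⟩
          · obtain ⟨z0, hz0, hmin⟩ := hK.exists_isMinOn hne
              ((continuousOn_dep b.inv).mono hKF)
            exact ⟨dep b.inv z0, hKF hz0 _, fun z hz => hmin hz⟩
        have h1 : 1 ≤ dep b z := by
          by_contra hlt
          push Not at hlt
          exact hi ⟨hz, hlt⟩
        have hcd : ContinuousAt (dep b) z := (continuousOn_dep b).continuousAt (isOpen_F.mem_nhds hz)
        filter_upwards [hcd.eventually (Ioi_mem_nhds (show 1 - c < dep b z by linarith))] with u hu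
        by_cases hpd : u ∈ dom (some b)
        · rw [if_pos hpd]
          apply haK
          intro hmem
          have h2 : c ≤ dep b.inv (mv b u) := hcK _ hmem
          rw [dep_mv hpd] at h2
          have h5 : 1 - c < dep b u := hu
          linarith
        · rw [if_neg hpd]
    refine ⟨contDiffAt_const.congr_of_eventuallyEq hev, ?_⟩
    rw [if_neg hi, lap2_congr hev]
    exact lap2_const 0 z

lemma g4b_lap_zero {a : ℂ → ℝ} {K : Set ℂ} (hK : IsCompact K)
    (haK : ∀ z, z ∉ K → a z = 0) {z : ℂ} (hz : z ∉ K) : lap2 a z = 0 := by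
  have hev : a =ᶠ[𝓝 z] fun _ => 0 := by
    filter_upwards [hK.isClosed.isOpen_compl.mem_nhds hz] with u hu
    exact haK u hu
  rw [lap2_congr hev]
  exact lap2_const 0 z

lemma g4b_lap_cont {a : ℂ → ℝ} (ha : ContDiff ℝ ∞ a) : Continuous (lap2 a) := by
  have := contDiffOn_lap2 isOpen_univ ha.contDiffOn
  exact continuousOn_univ.1 this.continuousOn

lemma g4b_Av_lap {a : ℂ → ℝ} (ha : ContDiff ℝ ∞ a) {K : Set ℂ} (hK : IsCompact K) (hKF : K ⊆ F)
    (haK : ∀ z, z ∉ K → a z = 0) (β : W → ℝ) {p : ℂ × W} (hp : p ∈ DY) :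
    (sig p.1)⁻¹ * lapZ (Av (fun p => a p.1 * β p.2)) p =
      Av (fun p => (sig p.1)⁻¹ * lap2 a p.1 * β p.2) p := by
  classical
  obtain ⟨z, m⟩ := p
  have hz : z ∈ F := hp.1
  have h1 : (fun u => Av (fun p => a p.1 * β p.2) (u, m)) =
      fun u => ∑ i : Mv, β (rho i m) * (if u ∈ dom i then a (act i u) else 0) := by
    funext u
    unfold Av
    apply Finset.sum_congr rfl
    intro i _
    by_cases hi : u ∈ dom i
    · rw [if_pos hi, if_pos hi, mul_comm]
    · rw [if_neg hi, if_neg hi, mul_zero]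
  have h2 : lapZ (Av (fun p => a p.1 * β p.2)) (z, m) =
      ∑ i : Mv, β (rho i m) * (if z ∈ dom i then ‖actd i z‖ ^ 2 * lap2 a (act i z) else 0) := by
    change lap2 (fun u => Av (fun p => a p.1 * β p.2) (u, m)) z = _
    rw [h1, lap2_sum _ (fun i _ => contDiffAt_const.mul (g4b_loc ha hK hKF haK i hz).1)]
    apply Finset.sum_congr rfl
    intro i _
    rw [lap2_const_mul _ (g4b_loc ha hK hKF haK i hz).1, (g4b_loc ha hK hKF haK i hz).2]
  rw [h2, Finset.mul_sum]
  unfold Av
  apply Finset.sum_congr rfl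
  intro i _
  by_cases hi : z ∈ dom i
  · rw [if_pos hi, if_pos hi]
    change (sig z)⁻¹ * (β (rho i m) * (‖actd i z‖ ^ 2 * lap2 a (act i z))) =
      (sig (act i z))⁻¹ * lap2 a (act i z) * β (rho i m)
    have h3 := sig_act hi
    have h4 := sig_pos hz
    have h5 := sig_pos (act_mem_F hi)
    have h6 : (sig z)⁻¹ * ‖actd i z‖ ^ 2 = (sig (act i z))⁻¹ := by
      rw [← h3, mul_inv, mul_assoc, inv_mul_cancel₀, mul_one]
      have := actd_ne hi
      positivity
    rw [← h6]
    ring
  · rw [if_neg hi, if_neg hi]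
    simp

/-- harmonicity for continuous functions of the fibre -/
lemma g4b_cont (hL : PH L) (hξ : Rep L ξ) {a : ℂ → ℝ} (ha : ContDiff ℝ ∞ a) {K : Set ℂ}
    (hK : IsCompact K) (hKF : K ⊆ F) (haK : ∀ z, z ∉ K → a z = 0) {β : W → ℝ}
    (hβ : ContinuousOn β N) (hβi : ∀ m ∈ N, β (th 1 m) = β m) :
    ∫ p, (sig p.1)⁻¹ * lap2 a p.1 * β p.2 ∂ξ = 0 := by
  have hTF : TF (Av (fun p => a p.1 * β p.2)) := TF_Av ha hK hKF haK hβ hβi
  have hg := TF_lap_mem hTF
  have h0 : L ⟨_, hg⟩ = 0 := by
    apply hL.harm _ hTF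
    intro p hp
    have := sig_pos hp.1
    change sig p.1 * ((sig p.1)⁻¹ * lapZ (Av (fun p => a p.1 * β p.2)) p) = _
    rw [← mul_assoc, mul_inv_cancel₀ this.ne', one_mul]
  rw [← h0]
  apply hξ.rep
  · have h1 : ContinuousOn (fun p : ℂ × W => (sig p.1)⁻¹) DY :=
      (contDiffOn_sig.continuousOn.comp continuousOn_fst (fun p hp => hp.1)).inv₀
        (fun p hp => (sig_pos hp.1).ne')
    have h2 : ContinuousOn (fun p : ℂ × W => lap2 a p.1) DY :=
      ((g4b_lap_cont ha).comp continuous_fst).continuousOn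
    have h3 : ContinuousOn (fun p : ℂ × W => β p.2) DY :=
      hβ.comp continuousOn_snd (fun p hp => hp.2)
    exact (h1.mul h2).mul h3
  · intro z _ m hm
    simp only [hβi m hm]
  · refine ⟨K, hK, hKF, ?_⟩
    intro z _ hzK m _
    simp only [g4b_lap_zero hK haK hzK, mul_zero, zero_mul]
  · intro p hp
    exact g4b_Av_lap ha hK hKF haK β hp

lemma g4b_meas_sig : Measurable sig := by
  have h1 : ∀ i : Mv, Measurable (actd i) := by
    intro i
    cases i with
    | none => exact measurable_const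
    | some b =>
      change Measurable (mvd b)
      unfold mvd
      by_cases h1 : b = (0, true)
      · simp only [h1, if_true]
        exact measurable_const
      · by_cases h2 : b = (0, false)
        · simp only [h2]
          have : ((0 : Fin 4), false) ≠ (0, true) := by simp
          simp only [this, if_false, if_true]
          exact measurable_const
        · simp only [h1, h2, if_false]
          exact measurable_const.div ((measurable_id.sub_const _).pow_const 2)
  exact Finset.measurable_sum _ (fun i _ => (g4_meas_eps i).mul ((h1 i).norm.pow_const 2))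

/-- harmonicity for Borel functions of the fibre -/
lemma harm_one (hL : PH L) (hξ : Rep L ξ) : Harm ξ (fun _ => 1) := by
  rintro a ha ⟨K, hK, hKF, haK⟩ β hβ hβi ⟨C, hC⟩
  obtain ⟨Nb, _, _, _, _, _, _, sec, P, hsecm, hsecSh, hsecP, hPsec, hPth, hPc, hdesc⟩ :=
    exists_model
  classical
  set φ : ℂ → ℝ := fun z => (sig z)⁻¹ * lap2 a z with hφ
  have hφm : Measurable φ := g4b_meas_sig.inv.mul (g4b_lap_cont ha).measurable
  have hφ0 : ∀ z, z ∉ K → φ z = 0 := fun z hz => by
    simp only [hφ, g4b_lap_zero hK haK hz, mul_zero]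
  obtain ⟨B, hB⟩ : ∃ B, ∀ z ∈ F, |φ z| ≤ B := by
    have hc : ContinuousOn φ K := by
      have h1 : ContinuousOn (fun z : ℂ => (sig z)⁻¹) K :=
        (contDiffOn_sig.continuousOn.mono hKF).inv₀ (fun z hz => (sig_pos (hKF hz)).ne')
      exact h1.mul (g4b_lap_cont ha).continuousOn
    obtain ⟨B, hB⟩ := hK.exists_bound_of_continuousOn hc
    refine ⟨max B 0, fun z _ => ?_⟩
    by_cases hz : z ∈ K
    · exact (hB z hz).trans (le_max_left _ _)
    · rw [hφ0 z hz, abs_zero]
      exact le_max_right _ _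
  -- a measurable version of the projection
  set P' : W → Nb := N.piecewise P (fun _ => P ((0, 0), 0)) with hP'
  have hP'm : Measurable P' :=
    hPc.measurable_piecewise continuousOn_const isOpen_N.measurableSet
  have hP'e : ∀ m ∈ N, P' m = P m := fun m hm => Set.piecewise_eq_of_mem _ _ _ hm
  have hPm : Measurable (fun p : ℂ × W => P' p.2) := hP'm.comp measurable_snd
  have hφi : ∀ (ψ : Nb → ℝ), Measurable ψ → (∃ C, ∀ n, |ψ n| ≤ C) →
      Integrable (fun p : ℂ × W => φ p.1 * ψ (P' p.2)) ξ := by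
    rintro ψ hψ ⟨C', hC'⟩
    apply g4_int hξ ((hφm.comp measurable_fst).mul (hψ.comp hPm)).aestronglyMeasurable
      (C := B * C') _ hK hKF
    · intro z _ hzK m _
      simp only [Pi.mul_apply, Function.comp_apply, hφ0 z hzK, zero_mul]
    · intro z hz m _
      simp only [Pi.mul_apply, Function.comp_apply]
      rw [abs_mul]
      exact mul_le_mul (hB z hz) (hC' _) (abs_nonneg _) (le_trans (abs_nonneg _) (hB z hz))
  have hφint : Integrable (fun p : ℂ × W => φ p.1) ξ := by
    have := hφi (fun _ => 1) measurable_const ⟨1, fun _ => by simp⟩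
    simpa using this
  -- the two measures
  have hfin1 : IsFiniteMeasure (ξ.withDensity (fun p => ENNReal.ofReal (φ p.1))) :=
    isFiniteMeasure_withDensity_ofReal hφint.2
  have hfin2 : IsFiniteMeasure (ξ.withDensity (fun p => ENNReal.ofReal (-φ p.1))) :=
    isFiniteMeasure_withDensity_ofReal hφint.neg.2
  set κ1 := (ξ.withDensity (fun p => ENNReal.ofReal (φ p.1))).map (fun p => P' p.2) with hκ1
  set κ2 := (ξ.withDensity (fun p => ENNReal.ofReal (-φ p.1))).map (fun p => P' p.2) with hκ2
  have hm1 : Measurable (fun p : ℂ × W => ENNReal.ofReal (φ p.1)) :=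
    (hφm.comp measurable_fst).ennreal_ofReal
  have hm2 : Measurable (fun p : ℂ × W => ENNReal.ofReal (-φ p.1)) :=
    (hφm.comp measurable_fst).neg.ennreal_ofReal
  have key : ∀ (ψ : Nb → ℝ), Measurable ψ → (∃ C, ∀ n, |ψ n| ≤ C) →
      ∫ n, ψ n ∂κ1 - ∫ n, ψ n ∂κ2 = ∫ p, φ p.1 * ψ (P' p.2) ∂ξ := by
    intro ψ hψ hb
    have hint := hφi ψ hψ hb
    have i1 : Integrable (fun p : ℂ × W => max (φ p.1) 0 * ψ (P' p.2)) ξ := by
      apply hint.mono (((hφm.comp measurable_fst).max measurable_const).mul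
        (hψ.comp hPm)).aestronglyMeasurable
      refine Filter.Eventually.of_forall fun p => ?_
      change |max (φ p.1) 0 * ψ (P' p.2)| ≤ |φ p.1 * ψ (P' p.2)|
      rw [abs_mul, abs_mul]
      apply mul_le_mul_of_nonneg_right _ (abs_nonneg _)
      rw [abs_of_nonneg (le_max_right _ _)]
      exact max_le (le_abs_self _) (abs_nonneg _)
    have i2 : Integrable (fun p : ℂ × W => max (-φ p.1) 0 * ψ (P' p.2)) ξ := by
      apply hint.mono (((hφm.comp measurable_fst).neg.max measurable_const).mul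
        (hψ.comp hPm)).aestronglyMeasurable
      refine Filter.Eventually.of_forall fun p => ?_
      change |max (-φ p.1) 0 * ψ (P' p.2)| ≤ |φ p.1 * ψ (P' p.2)|
      rw [abs_mul, abs_mul]
      apply mul_le_mul_of_nonneg_right _ (abs_nonneg _)
      rw [abs_of_nonneg (le_max_right _ _)]
      exact max_le (neg_le_abs _) (abs_nonneg _)
    have e1 : ∫ n, ψ n ∂κ1 = ∫ p, max (φ p.1) 0 * ψ (P' p.2) ∂ξ := by
      rw [hκ1, integral_map hPm.aemeasurable hψ.aestronglyMeasurable,
        integral_withDensity_eq_integral_toReal_smul₀ hm1.aemeasurable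
          (Filter.Eventually.of_forall fun p => ENNReal.ofReal_lt_top)]
      rfl
    have e2 : ∫ n, ψ n ∂κ2 = ∫ p, max (-φ p.1) 0 * ψ (P' p.2) ∂ξ := by
      rw [hκ2, integral_map hPm.aemeasurable hψ.aestronglyMeasurable,
        integral_withDensity_eq_integral_toReal_smul₀ hm2.aemeasurable
          (Filter.Eventually.of_forall fun p => ENNReal.ofReal_lt_top)]
      rfl
    rw [e1, e2, ← integral_sub i1 i2]
    congr 1
    funext p
    rw [← sub_mul]
    congr 1
    rcases le_total 0 (φ p.1) with h | h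
    · rw [max_eq_left h, max_eq_right (by linarith), sub_zero]
    · rw [max_eq_right h, max_eq_left (by linarith)]
      ring
  have hκ : κ1 = κ2 := by
    have f1 : IsFiniteMeasure κ1 := Measure.isFiniteMeasure_map _ _
    have f2 : IsFiniteMeasure κ2 := Measure.isFiniteMeasure_map _ _
    apply ext_of_forall_integral_eq_of_IsFiniteMeasure
    intro ψ
    have h1 := key ψ ψ.continuous.measurable ⟨‖ψ‖, fun n => ψ.norm_coe_le_norm n⟩
    have h2 := g4b_cont hL hξ ha hK hKF haK (β := fun m => ψ (P' m))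
      ((ψ.continuous.comp_continuousOn hPc).congr (fun m hm => by
        simp only [Function.comp_apply, hP'e m hm]))
      (fun m hm => by rw [hP'e _ (th_mem.2 hm), hP'e _ hm, hPth m hm])
    have h3 : ∫ p, φ p.1 * ψ (P' p.2) ∂ξ = 0 := h2
    rw [h3] at h1
    linarith
  have hfinal := key (fun n => β (sec n)) (hβ.comp hsecm) ⟨C, fun n => hC _⟩
  rw [hκ, sub_self] at hfinal
  have e : ∫ p, ((sig p.1)⁻¹ * lap2 a p.1 * β p.2) * 1 ∂ξ =
      ∫ p, φ p.1 * β (sec (P' p.2)) ∂ξ := by
    apply integral_congr_ae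
    filter_upwards [hξ.ae] with p hp
    rw [hP'e _ hp.2]
    obtain ⟨k, hk⟩ := hsecP p.2 hp.2
    rw [hk, g3_th_inv β hβi k _ hp.2, mul_one]
  rw [e]
  exact hfinal.symm

end Pool.Agent.H5.EC
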