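import Pool.Agent.H5.EC.G4b

/-! Part G4c: harmonic densities against test functions and nice functions. -/

open Set Topology MeasureTheory Filter
open scoped Manifold ContDiff ENNReal

noncomputable section

namespace Pool.Agent.H5.EC

variable {L : IY →ₗ[ℝ] ℝ} {ξ : Measure (ℂ × W)}

/-! ### the cut-off function -/

/-- cut-off and extension by zero -/
def cutE (a : ℂ → ℝ) : ℂ → ℝ := F.indicator (fun z => eps none z * a z)

lemma cutE_of_mem {a : ℂ → ℝ} {z : ℂ} (hz : z ∈ F) : cutE a z = eps none z * a z :=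
  indicator_of_mem hz _

lemma cutE_zero {a : ℂ → ℝ} {z : ℂ} (hz : z ∉ KF (1 / 3)) : cutE a z = 0 := by
  by_cases h : z ∈ F
  · rw [cutE_of_mem h]
    have : eps none z = 0 := by
      by_contra h'
      exact hz (eps_none_ne h h')
    rw [this, zero_mul]
  · exact indicator_of_notMem h _

lemma isCompact_KF3 : IsCompact (KF (1 / 3)) := isCompact_KF (by norm_num)

lemma KF3_subset : KF (1 / 3) ⊆ F := KF_subset (by norm_num)

lemma isOpen_compl_KF3 : IsOpen (KF (1 / 3))ᶜ := isCompact_KF3.isClosed.isOpen_compl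

lemma contDiff_cutE {a : ℂ → ℝ} (ha : ContDiffOn ℝ ∞ a F) : ContDiff ℝ ∞ (cutE a) := by
  rw [contDiff_iff_contDiffAt]
  intro z
  by_cases hz : z ∈ KF (1 / 3)
  · have hF : z ∈ F := KF3_subset hz
    have h1 : ContDiffAt ℝ ∞ (fun z => eps none z * a z) z :=
      ((contDiffOn_eps none).mul ha).contDiffAt (isOpen_F.mem_nhds hF)
    refine h1.congr_of_eventuallyEq ?_
    filter_upwards [isOpen_F.mem_nhds hF] with u hu
    exact cutE_of_mem hu
  · have : cutE a =ᶠ[𝓝 z] fun _ => 0 := by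
      filter_upwards [isOpen_compl_KF3.mem_nhds hz] with u hu
      exact cutE_zero hu
    exact contDiffAt_const.congr_of_eventuallyEq this

lemma lap2_cutE_zero {a : ℂ → ℝ} {z : ℂ} (hz : z ∉ KF (1 / 3)) : lap2 (cutE a) z = 0 := by
  have : cutE a =ᶠ[𝓝 z] fun _ => 0 := by
    filter_upwards [isOpen_compl_KF3.mem_nhds hz] with u hu
    exact cutE_zero hu
  rw [lap2_congr this, lap2_const]

lemma cutE_congr {a b : ℂ → ℝ} (h : ∀ z ∈ F, a z = b z) : cutE a = cutE b := by
  funext z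
  by_cases hz : z ∈ F
  · rw [cutE_of_mem hz, cutE_of_mem hz, h z hz]
  · rw [cutE, cutE, indicator_of_notMem hz, indicator_of_notMem hz]

lemma eps_zero_nhds {i : Mv} {z : ℂ} (hz : z ∈ F) (h : z ∉ dom i) :
    eps i =ᶠ[𝓝 z] fun _ => 0 := by
  cases i with
  | none => exact absurd hz h
  | some b =>
    have h1 : 1 ≤ dep b z := by
      by_contra h'
      push Not at h'
      exact h ⟨hz, h'⟩
    have h2 : ∀ᶠ u in 𝓝 z, 2 / 3 < dep b u :=
      (contDiffAt_dep b hz 0 (by simp)).continuousAt.eventually (lt_mem_nhds (by linarith))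
    filter_upwards [h2] with u hu
    change S (1 - dep b u) = 0
    exact S_zero (by linarith)

open Classical in
lemma lap2_avg {a : Mv → ℂ → ℝ} {f : ℂ → ℝ} {z : ℂ} (hz : z ∈ F) (hf : ContDiffOn ℝ ∞ f F)
    (ha : ∀ i, ContDiffOn ℝ ∞ (a i) F) (h : ∀ i, ∀ u ∈ dom i, a i (act i u) = f u) :
    ∑ i : Mv, (if z ∈ dom i then ‖actd i z‖ ^ 2 * lap2 (cutE (a i)) (act i z) else 0) =
      lap2 f z := by
  have hfz : ContDiffAt ℝ ∞ f z := hf.contDiffAt (isOpen_F.mem_nhds hz)
  have hez : ∀ i, ContDiffAt ℝ ∞ (fun u => eps i u * f u) z := fun i =>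
    ((contDiffOn_eps i).contDiffAt (isOpen_F.mem_nhds hz)).mul hfz
  have h1 : f = fun u => ∑ i : Mv, eps i u * f u := by
    funext u
    rw [← Finset.sum_mul, sum_eps, one_mul]
  have h2 : lap2 f z = ∑ i : Mv, lap2 (fun u => eps i u * f u) z := by
    conv_lhs => rw [h1]
    exact lap2_sum _ (fun i _ => (hez i).of_le (by norm_cast))
  rw [h2]
  refine Finset.sum_congr rfl (fun i _ => ?_)
  by_cases hi : z ∈ dom i
  · rw [if_pos hi]
    have h3 : (fun u => eps i u * f u) =ᶠ[𝓝 z] fun u => cutE (a i) (act i u) := by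
      filter_upwards [(isOpen_dom i).mem_nhds hi] with u hu
      rw [cutE_of_mem (act_mem_F hu), h i u hu, eps_eq hu]
    rw [lap2_congr h3, lap2_comp_holo (contDiffAt_act hi 2)
      (((contDiff_cutE (ha i)).contDiffAt).of_le (by norm_cast)),
      (hasDerivAt_act hi).deriv]
  · rw [if_neg hi]
    have h3 : (fun u => eps i u * f u) =ᶠ[𝓝 z] fun _ => 0 := by
      filter_upwards [eps_zero_nhds hz hi] with u hu
      rw [hu, zero_mul]
    rw [lap2_congr h3, lap2_const]

lemma measurable_ind {α β : Type*} [TopologicalSpace α] [MeasurableSpace α] [OpensMeasurableSpace α]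
    [TopologicalSpace β] [MeasurableSpace β] [BorelSpace β] [Zero β] {s : Set α}
    (hs : MeasurableSet s) {f : α → β} (hf : ContinuousOn f s) : Measurable (s.indicator f) := by
  classical
  rw [← Set.piecewise_eq_indicator]
  exact ContinuousOn.measurable_piecewise hf continuousOn_const hs

/-- restriction to a part of the fibre -/
def HA (A : Set W) (G : ℂ × W → ℝ) (p : ℂ × W) : ℝ :=
  A.indicator (fun m => cutE (fun u => G (u, m)) p.1) p.2

lemma HA_of_mem {A : Set W} {G : ℂ × W → ℝ} {z : ℂ} {m : W} (hm : m ∈ A) :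
    HA A G (z, m) = cutE (fun u => G (u, m)) z := indicator_of_mem hm _

lemma HA_of_not {A : Set W} {G : ℂ × W → ℝ} {z : ℂ} {m : W} (hm : m ∉ A) :
    HA A G (z, m) = 0 := indicator_of_notMem hm _

lemma lap2_HA_of_mem {A : Set W} {G : ℂ × W → ℝ} {z : ℂ} {m : W} (hm : m ∈ A) :
    lap2 (fun z => HA A G (z, m)) z = lap2 (cutE (fun u => G (u, m))) z := by
  congr 1
  funext z
  exact HA_of_mem hm

lemma lap2_HA_of_not {A : Set W} {G : ℂ × W → ℝ} {z : ℂ} {m : W} (hm : m ∉ A) :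
    lap2 (fun z => HA A G (z, m)) z = 0 := by
  have : (fun z => HA A G (z, m)) = fun _ => 0 := by
    funext z
    exact HA_of_not hm
  rw [this, lap2_const]


/-! ### mollification -/

lemma exists_bump {δ : ℝ} (hδ : 0 < δ) : ∃ η : ℂ → ℝ, ContDiff ℝ ∞ η ∧ (∀ t, 0 ≤ η t) ∧
    (∀ t, δ ≤ ‖t‖ → η t = 0) ∧ ∫ t, η t = 1 := by
  let φ : ContDiffBump (0 : ℂ) := ⟨δ / 2, δ, by positivity, by linarith⟩
  refine ⟨φ.normed volume, φ.contDiff_normed, φ.nonneg_normed, ?_, φ.integral_normed⟩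
  intro t ht
  by_contra h
  have h1 : t ∈ Function.support (φ.normed volume) := h
  rw [φ.support_normed_eq, Metric.mem_ball, dist_zero_right] at h1
  exact absurd h1 (not_lt.2 ht)

lemma lap2_refl {η : ℂ → ℝ} (hη : ContDiff ℝ ∞ η) (z y : ℂ) :
    lap2 (fun y => η (z - y)) y = lap2 η (z - y) := by
  have hd : HasDerivAt (fun y : ℂ => z - y) (-1) y := (hasDerivAt_id y).const_sub z
  have h := lap2_comp_holo (a := η) (g := fun y => z - y) (z := y)
    (contDiffAt_const.sub contDiffAt_id) ((hη.contDiffAt).of_le (by norm_cast))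
  rw [h, hd.deriv, norm_neg, norm_one, one_pow, one_mul]

lemma lap2_shift {η : ℂ → ℝ} (hη : ContDiff ℝ ∞ η) (z y : ℂ) :
    lap2 (fun z => η (z - y)) z = lap2 η (z - y) := by
  have hd : HasDerivAt (fun z : ℂ => z - y) 1 z := (hasDerivAt_id z).sub_const y
  have h := lap2_comp_holo (a := η) (g := fun z => z - y) (z := z)
    (contDiffAt_id.sub contDiffAt_const) ((hη.contDiffAt).of_le (by norm_cast))
  rw [h, hd.deriv, norm_one, one_pow, one_mul]

lemma continuous_lap2 {a : ℂ → ℝ} (ha : ContDiff ℝ ∞ a) : Continuous (lap2 a) := by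
  have := (contDiffOn_lap2 isOpen_univ ha.contDiffOn).continuousOn
  rwa [continuousOn_univ] at this

/-- data for the mollification -/
structure Mol (H : ℂ × W → ℝ) (K : Set ℂ) (C : ℝ) : Prop where
  cpt : IsCompact K
  sub : K ⊆ F
  meas : Measurable H
  supp : ∀ z m, z ∉ K → H (z, m) = 0
  smooth : ∀ m, ContDiff ℝ ∞ (fun z => H (z, m))
  inv : ∀ m ∈ N, ∀ z, H (z, th 1 m) = H (z, m)
  bdd : ∀ z m, |H (z, m)| ≤ C
  bddL : ∀ z m, |lap2 (fun z => H (z, m)) z| ≤ C

/-- leafwise Laplacian of the mollified function -/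
def Phi (η : ℂ → ℝ) (K : Set ℂ) (H : ℂ × W → ℝ) (p : ℂ × W) : ℝ :=
  ∫ y in K, lap2 η (p.1 - y) * H (y, p.2)

section
variable {H : ℂ × W → ℝ} {K : Set ℂ} {C : ℝ} {η : ℂ → ℝ} {δ : ℝ}

lemma Mol.lapsupp (h : Mol H K C) {z : ℂ} (m : W) (hz : z ∉ K) :
    lap2 (fun z => H (z, m)) z = 0 := by
  have : (fun z => H (z, m)) =ᶠ[𝓝 z] fun _ => 0 := by
    filter_upwards [h.cpt.isClosed.isOpen_compl.mem_nhds hz] with u hu
    exact h.supp u m hu
  rw [lap2_congr this, lap2_const]

lemma Mol.green (h : Mol H K C) (hη : ContDiff ℝ ∞ η) (p : ℂ × W) :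
    Phi η K H p = ∫ y, η (p.1 - y) * lap2 (fun z => H (z, p.2)) y := by
  unfold Phi
  rw [setIntegral_eq_integral_of_forall_compl_eq_zero
    (fun y hy => by rw [h.supp y p.2 hy, mul_zero])]
  have hb : ContDiff ℝ ∞ (fun y => η (p.1 - y)) := hη.comp (contDiff_const.sub contDiff_id)
  have h1 := integral_lap2_mul (a := fun y => H (y, p.2)) (b := fun y => η (p.1 - y))
    isOpen_univ h.cpt (subset_univ K) (h.smooth p.2).contDiffOn hb.contDiffOn
    (fun z _ hz => h.supp z p.2 hz)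
  simp only [Measure.restrict_univ] at h1
  calc ∫ y, lap2 η (p.1 - y) * H (y, p.2) = ∫ y, H (y, p.2) * lap2 (fun y => η (p.1 - y)) y := by
        congr 1
        funext y
        rw [lap2_refl hη]
        ring
    _ = ∫ y, lap2 (fun y => H (y, p.2)) y * η (p.1 - y) := h1.symm
    _ = _ := by
        congr 1
        funext y
        ring

lemma integrable_eta (hη : ContDiff ℝ ∞ η) (h1 : ∀ t, δ ≤ ‖t‖ → η t = 0) : Integrable η := by
  refine hη.continuous.integrable_of_hasCompactSupport ?_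
  refine HasCompactSupport.intro (isCompact_closedBall (0 : ℂ) δ) (fun t ht => h1 t ?_)
  rw [Metric.mem_closedBall, dist_zero_right, not_le] at ht
  exact ht.le

lemma Mol.approx (h : Mol H K C) (hη : ContDiff ℝ ∞ η) (h0 : ∀ t, 0 ≤ η t)
    (h1 : ∀ t, δ ≤ ‖t‖ → η t = 0) (h2 : ∫ t, η t = 1) (p : ℂ × W) {ε : ℝ}
    (hε : ∀ y, ‖p.1 - y‖ < δ → |lap2 (fun z => H (z, p.2)) y - lap2 (fun z => H (z, p.2)) p.1| ≤ ε) :
    |Phi η K H p - lap2 (fun z => H (z, p.2)) p.1| ≤ ε := by
  set g := lap2 (fun z => H (z, p.2)) with hg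
  have hgc : Continuous g := continuous_lap2 (h.smooth p.2)
  have hi : Integrable (fun y => η (p.1 - y)) := (integrable_eta hη h1).comp_sub_left p.1
  have hi1 : ∫ y, η (p.1 - y) = 1 := by rw [integral_sub_left_eq_self, h2]
  have hgi : Integrable (fun y => η (p.1 - y) * g y) := by
    refine Integrable.mul_bdd (c := C) hi hgc.aestronglyMeasurable (ae_of_all _ (fun y => ?_))
    rw [Real.norm_eq_abs]
    exact h.bddL y p.2
  have e : Phi η K H p - g p.1 = ∫ y, (η (p.1 - y) * g y - η (p.1 - y) * g p.1) := by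
    rw [integral_sub hgi (hi.mul_const _), integral_mul_const, hi1, one_mul, h.green hη p]
  rw [e, ← Real.norm_eq_abs]
  calc ‖∫ y, (η (p.1 - y) * g y - η (p.1 - y) * g p.1)‖ ≤ ∫ y, η (p.1 - y) * ε := by
        refine norm_integral_le_of_norm_le (hi.mul_const ε) (ae_of_all _ (fun y => ?_))
        rw [← mul_sub, norm_mul, Real.norm_eq_abs, abs_of_nonneg (h0 _), Real.norm_eq_abs]
        by_cases hy : ‖p.1 - y‖ < δ
        · exact mul_le_mul_of_nonneg_left (hε y hy) (h0 _)
        · rw [h1 _ (not_lt.1 hy), zero_mul, zero_mul]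
    _ = ε := by rw [integral_mul_const, hi1, one_mul]

lemma Mol.phi_bdd (h : Mol H K C) (hη : ContDiff ℝ ∞ η) (h0 : ∀ t, 0 ≤ η t)
    (h1 : ∀ t, δ ≤ ‖t‖ → η t = 0) (h2 : ∫ t, η t = 1) (p : ℂ × W) :
    |Phi η K H p| ≤ C := by
  have hi : Integrable (fun y => η (p.1 - y)) := (integrable_eta hη h1).comp_sub_left p.1
  have hi1 : ∫ y, η (p.1 - y) = 1 := by rw [integral_sub_left_eq_self, h2]
  rw [h.green hη p, ← Real.norm_eq_abs]
  calc ‖∫ y, η (p.1 - y) * lap2 (fun z => H (z, p.2)) y‖ ≤ ∫ y, η (p.1 - y) * C := by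
        refine norm_integral_le_of_norm_le (hi.mul_const C) (ae_of_all _ (fun y => ?_))
        rw [norm_mul, Real.norm_eq_abs, abs_of_nonneg (h0 _), Real.norm_eq_abs]
        exact mul_le_mul_of_nonneg_left (h.bddL y p.2) (h0 _)
    _ = C := by rw [integral_mul_const, hi1, one_mul]

lemma lap2_eta_zero (h1 : ∀ t, δ ≤ ‖t‖ → η t = 0) {t : ℂ} (ht : δ < ‖t‖) : lap2 η t = 0 := by
  have : η =ᶠ[𝓝 t] fun _ => 0 := by
    filter_upwards [(isOpen_lt continuous_const continuous_norm).mem_nhds ht] with u hu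
    exact h1 u (le_of_lt hu)
  rw [lap2_congr this, lap2_const]

lemma Mol.phi_zero (h1 : ∀ t, δ ≤ ‖t‖ → η t = 0) {p : ℂ × W}
    (hp : p.1 ∉ Metric.cthickening δ K) : Phi η K H p = 0 := by
  unfold Phi
  refine setIntegral_eq_zero_of_forall_eq_zero (fun y hy => ?_)
  rw [lap2_eta_zero h1, zero_mul]
  by_contra hlt
  push Not at hlt
  apply hp
  refine Metric.mem_cthickening_of_dist_le p.1 y δ K hy ?_
  rw [dist_eq_norm]
  exact hlt

lemma Mol.meas_joint (h : Mol H K C) (hη : ContDiff ℝ ∞ η) :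
    Measurable (fun q : (ℂ × W) × ℂ => lap2 η (q.1.1 - q.2) * H (q.2, q.1.2)) := by
  refine Measurable.mul ?_ ?_
  · refine (continuous_lap2 hη).measurable.comp ?_
    fun_prop
  · refine h.meas.comp ?_
    fun_prop

lemma Mol.phi_meas (h : Mol H K C) (hη : ContDiff ℝ ∞ η) : Measurable (Phi η K H) := by
  have h1 := (h.meas_joint hη).stronglyMeasurable
  exact (h1.integral_prod_right' (ν := volume.restrict K)).measurable

lemma sig_inv_bdd {K : Set ℂ} (hK : IsCompact K) (hKF : K ⊆ F) :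
    ∃ c, 0 ≤ c ∧ ∀ z ∈ K, |(sig z)⁻¹| ≤ c := by
  have h : ContinuousOn (fun z => (sig z)⁻¹) K :=
    (contDiffOn_sig.continuousOn.mono hKF).inv₀ (fun z hz => (sig_pos (hKF hz)).ne')
  obtain ⟨c, hc⟩ := hK.exists_bound_of_continuousOn h
  exact ⟨max c 0, le_max_right _ _, fun z hz => (hc z hz).trans (le_max_left _ _)⟩

/-- `sig⁻¹` on a compact set -/
def sI (K' : Set ℂ) : ℂ → ℝ := K'.indicator (fun z => (sig z)⁻¹)

lemma measurable_sI {K : Set ℂ} (hK : IsCompact K) (hKF : K ⊆ F) : Measurable (sI K) :=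
  measurable_ind hK.measurableSet
    ((contDiffOn_sig.continuousOn.mono hKF).inv₀ (fun z hz => (sig_pos (hKF hz)).ne'))

lemma sI_bdd {K : Set ℂ} (hK : IsCompact K) (hKF : K ⊆ F) : ∃ c, 0 ≤ c ∧ ∀ z, |sI K z| ≤ c := by
  obtain ⟨c, hc0, hc⟩ := sig_inv_bdd hK hKF
  refine ⟨c, hc0, fun z => ?_⟩
  unfold sI
  by_cases hz : z ∈ K
  · rw [indicator_of_mem hz]
    exact hc z hz
  · rw [indicator_of_notMem hz, abs_zero]
    exact hc0

lemma lap2_eta_bdd (hη : ContDiff ℝ ∞ η) (h1 : ∀ t, δ ≤ ‖t‖ → η t = 0) :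
    ∃ B, 0 ≤ B ∧ ∀ t, |lap2 η t| ≤ B := by
  obtain ⟨B, hB⟩ := (isCompact_closedBall (0 : ℂ) δ).exists_bound_of_continuousOn
    (continuous_lap2 hη).continuousOn
  refine ⟨max B 0, le_max_right _ _, fun t => ?_⟩
  by_cases ht : t ∈ Metric.closedBall (0 : ℂ) δ
  · exact (hB t ht).trans (le_max_left _ _)
  · rw [Metric.mem_closedBall, dist_zero_right, not_le] at ht
    rw [lap2_eta_zero h1 ht, abs_zero]
    exact le_max_right _ _

/-- one mollified function is killed -/
lemma Mol.phi_harm (h : Mol H K C) (hξ : Rep L ξ) {w : ℂ × W → ℝ} (hd : Dens w) (hw : Harm ξ w)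
    (hη : ContDiff ℝ ∞ η) (h1 : ∀ t, δ ≤ ‖t‖ → η t = 0)
    (hsub : Metric.cthickening δ K ⊆ F) :
    ∫ p, ((sig p.1)⁻¹ * Phi η K H p) * w p ∂ξ = 0 := by
  set K' := Metric.cthickening δ K with hK'
  have hK'c : IsCompact K' := h.cpt.cthickening
  have hms : MeasurableSet (K' ×ˢ (univ : Set W)) := hK'c.measurableSet.prod MeasurableSet.univ
  have hfin : IsFiniteMeasure (ξ.restrict (K' ×ˢ univ)) :=
    ⟨by rw [Measure.restrict_apply_univ]; exact hξ.fin K' hK'c hsub⟩
  have hfinK : IsFiniteMeasure (volume.restrict K) :=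
    ⟨by rw [Measure.restrict_apply_univ]; exact h.cpt.measure_lt_top⟩
  obtain ⟨c, hc0, hc⟩ := sI_bdd hK'c hsub
  obtain ⟨B, hB0, hB⟩ := lap2_eta_bdd hη h1
  obtain ⟨Cw, hCw⟩ := hd.bdd
  have hC0 : 0 ≤ C := (abs_nonneg _).trans (h.bdd 0 ((0, 0), 0))
  have hnear : ∀ y ∈ K, ∀ z, z ∉ K' → δ < ‖z - y‖ := by
    intro y hy z hz
    by_contra hlt
    push Not at hlt
    apply hz
    refine Metric.mem_cthickening_of_dist_le z y δ K hy ?_
    rw [dist_eq_norm]
    exact hlt
  have e1 : ∫ p, ((sig p.1)⁻¹ * Phi η K H p) * w p ∂ξ =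
      ∫ p in K' ×ˢ univ, (∫ y in K, sI K' p.1 * (lap2 η (p.1 - y) * H (y, p.2)) * w p) ∂ξ := by
    rw [← setIntegral_eq_integral_of_forall_compl_eq_zero (s := K' ×ˢ (univ : Set W))]
    · refine setIntegral_congr_fun hms (fun p hp => ?_)
      rw [integral_mul_const, integral_const_mul]
      have : sI K' p.1 = (sig p.1)⁻¹ := indicator_of_mem hp.1 _
      rw [this]
      rfl
    · intro p hp
      have hp' : p.1 ∉ K' := fun h' => hp ⟨h', mem_univ _⟩
      rw [Mol.phi_zero h1 hp', mul_zero, zero_mul]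
  have hjm : Measurable (fun q : (ℂ × W) × ℂ =>
      sI K' q.1.1 * (lap2 η (q.1.1 - q.2) * H (q.2, q.1.2)) * w q.1) := by
    refine Measurable.mul (Measurable.mul ?_ (h.meas_joint hη)) ?_
    · exact (measurable_sI hK'c hsub).comp (measurable_fst.comp measurable_fst)
    · exact hd.meas.comp measurable_fst
  have hint : Integrable (Function.uncurry (fun (p : ℂ × W) (y : ℂ) =>
      sI K' p.1 * (lap2 η (p.1 - y) * H (y, p.2)) * w p))
      ((ξ.restrict (K' ×ˢ univ)).prod (volume.restrict K)) := by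
    refine Integrable.of_bound (C := c * (B * C) * Cw) hjm.aestronglyMeasurable
      (ae_of_all _ (fun q => ?_))
    rw [Function.uncurry, norm_mul, norm_mul, norm_mul]
    refine mul_le_mul (mul_le_mul (hc _) (mul_le_mul (hB _) (h.bdd _ _) (norm_nonneg _) hB0)
      (by positivity) hc0) (hCw _) (norm_nonneg _) (by positivity)
  rw [e1, integral_integral_swap hint]
  refine setIntegral_eq_zero_of_forall_eq_zero (fun y hy => ?_)
  have hzero : ∀ z, z ∉ K' → lap2 η (z - y) = 0 := fun z hz => lap2_eta_zero h1 (hnear y hy z hz)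
  have hH := hw (fun z => η (z - y)) (hη.comp (contDiff_id.sub contDiff_const))
    ⟨K', hK'c, hsub, fun z hz => h1 _ (hnear y hy z hz).le⟩ (fun m => H (y, m))
    (h.meas.comp measurable_prodMk_left) (fun m hm => h.inv m hm y) ⟨C, fun m => h.bdd y m⟩
  have e2 : ∫ p in K' ×ˢ univ, ((sig p.1)⁻¹ * lap2 (fun z => η (z - y)) p.1 * H (y, p.2)) * w p ∂ξ =
      ∫ p, ((sig p.1)⁻¹ * lap2 (fun z => η (z - y)) p.1 * H (y, p.2)) * w p ∂ξ := by
    refine setIntegral_eq_integral_of_forall_compl_eq_zero (fun p hp => ?_)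
    have hp' : p.1 ∉ K' := fun h' => hp ⟨h', mem_univ _⟩
    rw [lap2_shift hη, hzero _ hp', mul_zero, zero_mul, zero_mul]
  calc ∫ p in K' ×ˢ univ, sI K' p.1 * (lap2 η (p.1 - y) * H (y, p.2)) * w p ∂ξ
      = ∫ p in K' ×ˢ univ, ((sig p.1)⁻¹ * lap2 (fun z => η (z - y)) p.1 * H (y, p.2)) * w p ∂ξ := by
        refine setIntegral_congr_fun hms (fun p hp => ?_)
        have : sI K' p.1 = (sig p.1)⁻¹ := indicator_of_mem hp.1 _
        change sI K' p.1 * (lap2 η (p.1 - y) * H (y, p.2)) * w p = _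
        rw [this, lap2_shift hη]
        ring
    _ = _ := e2
    _ = 0 := hH

/-- convergence of the mollified functions -/
lemma Mol.exists_seq (h : Mol H K C) : ∃ (δ : ℕ → ℝ) (η : ℕ → ℂ → ℝ) (K' : Set ℂ), IsCompact K' ∧
    K' ⊆ F ∧ (∀ n, Metric.cthickening (δ n) K ⊆ K') ∧ (∀ n, ContDiff ℝ ∞ (η n)) ∧
    (∀ n t, 0 ≤ η n t) ∧ (∀ n t, δ n ≤ ‖t‖ → η n t = 0) ∧ (∀ n, ∫ t, η n t = 1) ∧
    ∀ p, Tendsto (fun n => Phi (η n) K H p) atTop (𝓝 (lap2 (fun z => H (z, p.2)) p.1)) := by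
  obtain ⟨δ₀, hδ₀, hsub⟩ := h.cpt.exists_cthickening_subset_open isOpen_F h.sub
  have hδ : ∀ n : ℕ, 0 < δ₀ / (n + 1) := fun n => by positivity
  choose η hη h0 h1 h2 using fun n : ℕ => exists_bump (hδ n)
  have hlim : Tendsto (fun n : ℕ => δ₀ / ((n : ℝ) + 1)) atTop (𝓝 0) :=
    tendsto_const_div_atTop_nhds_zero_nat δ₀ |>.comp (tendsto_add_atTop_nat 1) |>.congr
      (fun n => by simp)
  refine ⟨fun n => δ₀ / (n + 1), η, Metric.cthickening δ₀ K, h.cpt.cthickening, hsub, ?_, hη, h0,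
    h1, h2, ?_⟩
  · intro n
    refine Metric.cthickening_mono ?_ K
    rw [div_le_iff₀ (by positivity)]
    have : (0 : ℝ) ≤ n := Nat.cast_nonneg n
    nlinarith
  · intro p
    set g := lap2 (fun z => H (z, p.2)) with hg
    have hgc : Continuous g := continuous_lap2 (h.smooth p.2)
    rw [Metric.tendsto_atTop]
    intro ε hε
    obtain ⟨r, hr, hr'⟩ := Metric.continuous_iff.1 hgc p.1 (ε / 2) (by positivity)
    obtain ⟨n₀, hn₀⟩ := (Metric.tendsto_atTop.1 hlim) r hr
    refine ⟨n₀, fun n hn => ?_⟩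
    have hδr : δ₀ / ((n : ℝ) + 1) < r := by
      have := hn₀ n hn
      rwa [Real.dist_eq, sub_zero, abs_of_pos (hδ n)] at this
    have := h.approx (hη n) (h0 n) (h1 n) (h2 n) p (ε := ε / 2) (by
      intro y hy
      have h3 := hr' y (by rw [dist_comm, dist_eq_norm]; linarith)
      rw [Real.dist_eq] at h3
      exact h3.le)
    rw [Real.dist_eq]
    exact this.trans_lt (by linarith)

lemma Mol.measL (h : Mol H K C) : Measurable (fun p : ℂ × W => lap2 (fun z => H (z, p.2)) p.1) := by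
  obtain ⟨δ, η, K', -, -, -, hη, -, -, -, hlim⟩ := h.exists_seq
  exact measurable_of_tendsto_metrizable (fun n => h.phi_meas (hη n)) (tendsto_pi_nhds.2 hlim)

/-- harmonic densities kill leafwise Laplacians of smooth functions of the first variable -/
theorem Mol.harm (h : Mol H K C) (hξ : Rep L ξ) {w : ℂ × W → ℝ} (hd : Dens w) (hw : Harm ξ w) :
    ∫ p, ((sig p.1)⁻¹ * lap2 (fun z => H (z, p.2)) p.1) * w p ∂ξ = 0 := by
  obtain ⟨δ, η, K', hK'c, hK'F, hth, hη, h0, h1, h2, hlim⟩ := h.exists_seq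
  have hms : MeasurableSet (K' ×ˢ (univ : Set W)) := hK'c.measurableSet.prod MeasurableSet.univ
  have hfin : IsFiniteMeasure (ξ.restrict (K' ×ˢ univ)) :=
    ⟨by rw [Measure.restrict_apply_univ]; exact hξ.fin K' hK'c hK'F⟩
  obtain ⟨c, hc0, hc⟩ := sI_bdd hK'c hK'F
  obtain ⟨Cw, hCw⟩ := hd.bdd
  have hC0 : 0 ≤ C := (abs_nonneg _).trans (h.bdd 0 ((0, 0), 0))
  have hKK' : K ⊆ K' := (Metric.self_subset_cthickening K).trans (hth 0)
  have e0 : ∀ (G : ℂ × W → ℝ), (∀ p : ℂ × W, p.1 ∉ K' → G p = 0) →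
      ∫ p, ((sig p.1)⁻¹ * G p) * w p ∂ξ = ∫ p in K' ×ˢ univ, (sI K' p.1 * G p) * w p ∂ξ := by
    intro G hG
    rw [← setIntegral_eq_integral_of_forall_compl_eq_zero (s := K' ×ˢ (univ : Set W))]
    · refine setIntegral_congr_fun hms (fun p hp => ?_)
      have : sI K' p.1 = (sig p.1)⁻¹ := indicator_of_mem hp.1 _
      rw [this]
    · intro p hp
      have hp' : p.1 ∉ K' := fun h' => hp ⟨h', mem_univ _⟩
      rw [hG p hp', mul_zero, zero_mul]
  have e1 : ∀ n, ∫ p in K' ×ˢ univ, (sI K' p.1 * Phi (η n) K H p) * w p ∂ξ = 0 := by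
    intro n
    rw [← e0 _ (fun p hp => Mol.phi_zero (h1 n) (fun h' => hp (hth n h')))]
    exact h.phi_harm hξ hd hw (hη n) (h1 n) ((hth n).trans hK'F)
  rw [e0 _ (fun p hp => h.lapsupp p.2 (fun h' => hp (hKK' h')))]
  have hdct := tendsto_integral_of_dominated_convergence (μ := ξ.restrict (K' ×ˢ univ))
    (F := fun n p => (sI K' p.1 * Phi (η n) K H p) * w p)
    (f := fun p => (sI K' p.1 * lap2 (fun z => H (z, p.2)) p.1) * w p)
    (fun _ => c * C * Cw)
    (fun n => ((((measurable_sI hK'c hK'F).comp measurable_fst).mul (h.phi_meas (hη n))).mul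
      hd.meas).aestronglyMeasurable)
    (integrable_const _)
    (fun n => ae_of_all _ (fun p => by
      rw [norm_mul, norm_mul]
      exact mul_le_mul (mul_le_mul (hc _) (h.phi_bdd (hη n) (h0 n) (h1 n) (h2 n) p)
        (norm_nonneg _) hc0) (hCw _) (norm_nonneg _) (by positivity)))
    (ae_of_all _ (fun p => ((hlim p).const_mul _).mul_const _))
  have hdct' : Tendsto (fun _ : ℕ => (0 : ℝ)) atTop
      (𝓝 (∫ p in K' ×ˢ univ, (sI K' p.1 * lap2 (fun z => H (z, p.2)) p.1) * w p ∂ξ)) :=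
    hdct.congr (fun n => e1 n)
  exact (tendsto_nhds_unique hdct' tendsto_const_nhds)

end

lemma Sh_subset_N : Sh ⊆ N := by
  intro m hm h0
  have h1 := hm.1
  rw [h0] at h1
  have h2 : nsq ((0 : (ℂ × ℂ) × ℂ)) = 0 := by simp [nsq]
  rw [h2] at h1
  have := la_pos
  nlinarith [sq_nonneg la]

lemma ae_mem_shell (hξ : Rep L ξ) : ∀ᵐ p ∂ξ, p ∈ F ×ˢ Sh := by
  rw [ae_iff]
  exact hξ.supp

/-- general form -/
lemma harm_gen (hξ : Rep L ξ) {w : ℂ × W → ℝ} (hd : Dens w) (hw : Harm ξ w) {A : Set W}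
    (hAo : IsOpen A) (hAN : A ⊆ N) (hAth : ∀ m, th 1 m ∈ A ↔ m ∈ A)
    (hArho : ∀ i m, rho i m ∈ A ↔ m ∈ A) {G : ℂ × W → ℝ} (hG : InvY G)
    (hGs : ∀ m ∈ A, ContDiffOn ℝ ∞ (fun z => G (z, m)) F) (hGc : ContinuousOn G (F ×ˢ A))
    {C : ℝ} (hC : 0 ≤ C) (hb : ∀ m ∈ A, ∀ z, |cutE (fun u => G (u, m)) z| ≤ C)
    (hbL : ∀ m ∈ A, ∀ z, |lap2 (cutE (fun u => G (u, m))) z| ≤ C) :
    ∫ p in F ×ˢ A, eps none p.1 * (((sig p.1)⁻¹ * lapZ G p) * w p) ∂ξ = 0 := by
  classical
  have hM : Mol (HA A G) (KF (1 / 3)) C := by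
    refine ⟨isCompact_KF3, KF3_subset, ?_, ?_, ?_, ?_, ?_, ?_⟩
    · have e : HA A G = (F ×ˢ A).indicator (fun p => eps none p.1 * G p) := by
        funext p
        obtain ⟨z, m⟩ := p
        by_cases hm : m ∈ A
        · rw [HA_of_mem hm]
          by_cases hz : z ∈ F
          · rw [cutE_of_mem hz, indicator_of_mem (show (z, m) ∈ F ×ˢ A from ⟨hz, hm⟩)]
          · rw [cutE, indicator_of_notMem hz, indicator_of_notMem (fun h => hz h.1)]
        · rw [HA_of_not hm, indicator_of_notMem (fun h => hm h.2)]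
      rw [e]
      refine measurable_ind (isOpen_F.prod hAo).measurableSet ?_
      exact (((contDiffOn_eps none).continuousOn).comp continuous_fst.continuousOn
        (fun p hp => hp.1)).mul hGc
    · intro z m hz
      by_cases hm : m ∈ A
      · rw [HA_of_mem hm, cutE_zero hz]
      · exact HA_of_not hm
    · intro m
      by_cases hm : m ∈ A
      · have : (fun z => HA A G (z, m)) = cutE (fun u => G (u, m)) := by
          funext z
          exact HA_of_mem hm
        rw [this]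
        exact contDiff_cutE (hGs m hm)
      · have : (fun z => HA A G (z, m)) = fun _ => 0 := by
          funext z
          exact HA_of_not hm
        rw [this]
        exact contDiff_const
    · intro m hmN z
      by_cases hm : m ∈ A
      · rw [HA_of_mem hm, HA_of_mem ((hAth m).2 hm)]
        rw [cutE_congr (fun u hu => hG.sc u hu m hmN)]
      · rw [HA_of_not hm, HA_of_not (fun h => hm ((hAth m).1 h))]
    · intro z m
      by_cases hm : m ∈ A
      · rw [HA_of_mem hm]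
        exact hb m hm z
      · rw [HA_of_not hm, abs_zero]
        exact hC
    · intro z m
      by_cases hm : m ∈ A
      · rw [lap2_HA_of_mem hm]
        exact hbL m hm z
      · rw [lap2_HA_of_not hm, abs_zero]
        exact hC
  set h : ℂ × W → ℝ := fun p => sI (KF (1 / 3)) p.1 * lap2 (fun z => HA A G (z, p.2)) p.1 with hh
  have hval : ∀ p, h p = (sig p.1)⁻¹ * lap2 (fun z => HA A G (z, p.2)) p.1 := by
    intro p
    by_cases hp : p.1 ∈ KF (1 / 3)
    · have : sI (KF (1 / 3)) p.1 = (sig p.1)⁻¹ := indicator_of_mem hp _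
      simp only [hh, this]
    · simp only [hh, hM.lapsupp p.2 hp, mul_zero]
  have hmeas : Measurable h :=
    ((measurable_sI isCompact_KF3 KF3_subset).comp measurable_fst).mul hM.measL
  obtain ⟨c, hc0, hc⟩ := sI_bdd isCompact_KF3 KF3_subset
  have hbd : ∃ C', ∀ p, |h p| ≤ C' := by
    refine ⟨c * C, fun p => ?_⟩
    rw [hh, abs_mul]
    exact mul_le_mul (hc _) (hM.bddL _ _) (abs_nonneg _) hc0
  have hinv : ∀ z ∈ F, ∀ m ∈ N, h (z, th 1 m) = h (z, m) := by
    intro z _ m hm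
    have : (fun z => HA A G (z, th 1 m)) = fun z => HA A G (z, m) := by
      funext z
      exact hM.inv m hm z
    simp only [hh, this]
  have hzero : ∃ K : Set ℂ, IsCompact K ∧ K ⊆ F ∧ ∀ z ∈ F, z ∉ K → ∀ m ∈ N, h (z, m) = 0 := by
    refine ⟨KF (1 / 3), isCompact_KF3, KF3_subset, fun z _ hz m _ => ?_⟩
    simp only [hh, hM.lapsupp m hz, mul_zero]
  have hunf := rep_unfold hξ hmeas hd hbd hinv hzero
  have hR : ∫ p, h p * w p ∂ξ = 0 := by
    rw [← hM.harm hξ hd hw]
    congr 1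
    funext p
    rw [hval]
  rw [hR] at hunf
  rw [← hunf, ← integral_indicator (isOpen_F.prod hAo).measurableSet]
  refine integral_congr_ae ?_
  filter_upwards [ae_mem_shell hξ] with p hp
  obtain ⟨z, m⟩ := p
  have hz : z ∈ F := hp.1
  have hmN : m ∈ N := Sh_subset_N hp.2
  by_cases hm : m ∈ A
  · rw [indicator_of_mem (show (z, m) ∈ F ×ˢ A from ⟨hz, hm⟩)]
    have key : Av h (z, m) = (sig z)⁻¹ * lapZ G (z, m) := by
      have h1 := lap2_avg (a := fun i u => G (u, rho i m)) (f := fun u => G (u, m)) hz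
        (hGs m hm) (fun i => hGs _ ((hArho i m).2 hm)) (fun i u hu => hG.act hu hmN)
      unfold lapZ
      rw [← h1, Finset.mul_sum]
      unfold Av
      refine Finset.sum_congr rfl (fun i _ => ?_)
      by_cases hi : z ∈ dom i
      · rw [if_pos hi, if_pos hi, hval, lap2_HA_of_mem ((hArho i m).2 hm)]
        have h2 := sig_act hi
        have h3 : sig (act i z) ≠ 0 := (sig_pos (act_mem_F hi)).ne'
        have h4 : ‖actd i z‖ ≠ 0 := norm_ne_zero_iff.2 (actd_ne hi)
        change (sig (act i z))⁻¹ * _ = _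
        rw [← h2]
        field_simp
      · rw [if_neg hi, if_neg hi, mul_zero]
    rw [key]
  · rw [indicator_of_notMem (fun h' => hm h'.2)]
    have key : Av h (z, m) = 0 := by
      unfold Av
      refine Finset.sum_eq_zero (fun i _ => ?_)
      split_ifs
      · rw [hval, lap2_HA_of_not (fun h' => hm ((hArho i m).1 h')), mul_zero]
      · rfl
    rw [key, zero_mul, mul_zero]

lemma bdd_cut {a : ℂ → ℝ} (ha : Continuous a) (hz : ∀ z, z ∉ KF (1 / 3) → a z = 0) :
    ∃ B, 0 ≤ B ∧ ∀ z, |a z| ≤ B := by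
  obtain ⟨B, hB⟩ := isCompact_KF3.exists_bound_of_continuousOn ha.continuousOn
  refine ⟨max B 0, le_max_right _ _, fun z => ?_⟩
  by_cases h : z ∈ KF (1 / 3)
  · exact (hB z h).trans (le_max_left _ _)
  · rw [hz z h, abs_zero]
    exact le_max_right _ _

/-- harmonic densities kill Laplacians of test functions -/
lemma Harm.tf (hξ : Rep L ξ) {w : ℂ × W → ℝ} (hd : Dens w) (hw : Harm ξ w) {f : ℂ × W → ℝ}
    (hf : TF f) : ∫ p, eps none p.1 * (((sig p.1)⁻¹ * lapZ f p) * w p) ∂ξ = 0 := by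
  obtain ⟨n, α, β, hα, hβ, hβi, hfe⟩ := hf.sum
  have hcut : ∀ m ∈ N, cutE (fun u => f (u, m)) = fun z => ∑ k, cutE (α k) z * β k m := by
    intro m hm
    funext z
    by_cases hz : z ∈ F
    · simp only [cutE_of_mem hz]
      rw [hfe z hz m hm, Finset.mul_sum]
      refine Finset.sum_congr rfl (fun k _ => by ring)
    · have : ∀ a : ℂ → ℝ, cutE a z = 0 := fun a => indicator_of_notMem hz _
      simp only [this, zero_mul, Finset.sum_const_zero]
  have hcd : ∀ k, ContDiff ℝ ∞ (cutE (α k)) := fun k => contDiff_cutE (hα k)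
  have hlap : ∀ m ∈ N, ∀ z, lap2 (cutE (fun u => f (u, m))) z =
      ∑ k, lap2 (cutE (α k)) z * β k m := by
    intro m hm z
    rw [hcut m hm, lap2_sum Finset.univ (a := fun k z => cutE (α k) z * β k m)]
    · refine Finset.sum_congr rfl (fun k _ => ?_)
      have e : (fun z => cutE (α k) z * β k m) = fun z => β k m * cutE (α k) z := by
        funext z; ring
      rw [e, lap2_const_mul _ (((hcd k).contDiffAt).of_le (by norm_cast))]
      ring
    · intro k _
      exact (((hcd k).mul contDiff_const).contDiffAt).of_le (by norm_cast)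
  choose B hB0 hB using fun k => bdd_cut (hcd k).continuous (fun z hz => cutE_zero hz)
  choose B' hB0' hB' using fun k => bdd_cut (continuous_lap2 (hcd k))
    (fun z hz => lap2_cutE_zero (a := α k) hz)
  have hD : ∀ k, ∃ D, 0 ≤ D ∧ ∀ m ∈ N, |β k m| ≤ D := by
    intro k
    obtain ⟨D, hD⟩ := bdd_of_scale (g := fun p => β k p.2)
      ((hβ k).comp continuous_snd.continuousOn (fun p hp => hp.2))
      (fun z _ m hm => hβi k m hm) (K := {(32 : ℂ)}) isCompact_singleton
      (by rintro z rfl; exact F_nonempty)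
    exact ⟨max D 0, le_max_right _ _, fun m hm => (hD 32 rfl m hm).trans (le_max_left _ _)⟩
  choose D hD0 hD using hD
  have hgen := harm_gen hξ hd hw (A := N) isOpen_N subset_rfl (fun m => th_mem) (fun i m => rho_mem)
    hf.inv (fun m hm => TF_smooth hf hm) (by
      have h1 : ContinuousOn (fun p : ℂ × W => ∑ k, α k p.1 * β k p.2) (F ×ˢ N) := by
        refine continuousOn_finsetSum _ (fun k _ => ?_)
        exact ((hα k).continuousOn.comp continuous_fst.continuousOn (fun p hp => hp.1)).mul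
          ((hβ k).comp continuous_snd.continuousOn (fun p hp => hp.2))
      exact h1.congr (fun p hp => hfe p.1 hp.1 p.2 hp.2))
    (C := ∑ k, (B k + B' k) * D k)
    (Finset.sum_nonneg (fun k _ => mul_nonneg (add_nonneg (hB0 k) (hB0' k)) (hD0 k)))
    (by
      intro m hm z
      rw [hcut m hm]
      refine (Finset.abs_sum_le_sum_abs _ _).trans (Finset.sum_le_sum (fun k _ => ?_))
      rw [abs_mul]
      refine mul_le_mul ((hB k z).trans ?_) (hD k m hm) (abs_nonneg _)
        (add_nonneg (hB0 k) (hB0' k))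
      linarith [hB0' k])
    (by
      intro m hm z
      rw [hlap m hm]
      refine (Finset.abs_sum_le_sum_abs _ _).trans (Finset.sum_le_sum (fun k _ => ?_))
      rw [abs_mul]
      refine mul_le_mul ((hB' k z).trans ?_) (hD k m hm) (abs_nonneg _)
        (add_nonneg (hB0 k) (hB0' k))
      linarith [hB0 k])
  have hres : ξ.restrict (F ×ˢ N) = ξ := by
    refine Measure.restrict_eq_self_of_ae_mem ?_
    filter_upwards [ae_mem_shell hξ] with p hp
    exact ⟨hp.1, Sh_subset_N hp.2⟩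
  rwa [hres] at hgen

/-- harmonic densities kill Laplacians of nice functions -/
lemma Harm.nf (hξ : Rep L ξ) {w : ℂ × W → ℝ} (hd : Dens w) (hw : Harm ξ w) {G : ℂ × W → ℝ}
    (hG : NF G) : ∫ p in DX, eps none p.1 * (((sig p.1)⁻¹ * lapZ G p) * w p) ∂ξ = 0 := by
  have hDX : DX = F ×ˢ {m : W | m.1.1 ≠ 0} := rfl
  obtain ⟨C, hC⟩ := hG.bdd _ isCompact_KF3 KF3_subset
  obtain ⟨E2, hE2⟩ := isCompact_KF3.exists_bound_of_continuousOn
    ((contDiffOn_lap2 isOpen_F (contDiffOn_eps none)).continuousOn.mono KF3_subset)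
  obtain ⟨E1, hE1⟩ := isCompact_KF3.exists_bound_of_continuousOn
    ((lapaux_contDiffOn isOpen_F (contDiffOn_eps none) 1).continuousOn.mono KF3_subset)
  obtain ⟨E1', hE1'⟩ := isCompact_KF3.exists_bound_of_continuousOn
    ((lapaux_contDiffOn isOpen_F (contDiffOn_eps none) Complex.I).continuousOn.mono KF3_subset)
  have hopen : IsOpen {m : W | m.1.1 ≠ 0} :=
    isOpen_ne.preimage (continuous_fst.comp continuous_fst)
  have hne : ∀ m : W, m.1.1 ≠ 0 → m ∈ N := by
    intro m hm h0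
    exact hm (by rw [h0]; rfl)
  set C' := |C| + |C| * |E2| + 2 * (|E1| * |C| + |E1'| * |C|) with hC'
  have hC0 : |C| ≤ C' := by
    have := abs_nonneg C
    have := abs_nonneg E1
    have := abs_nonneg E1'
    have := abs_nonneg E2
    rw [hC']
    nlinarith [mul_nonneg (abs_nonneg C) (abs_nonneg E2), mul_nonneg (abs_nonneg E1) (abs_nonneg C),
      mul_nonneg (abs_nonneg E1') (abs_nonneg C)]
  have hC'0 : 0 ≤ C' := (abs_nonneg C).trans hC0
  have heps : ∀ z ∈ F, |eps none z| ≤ 1 := fun z hz =>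
    abs_le.2 ⟨by linarith [eps_nonneg none hz], eps_le_one none hz⟩
  rw [hDX]
  refine harm_gen hξ hd hw hopen hne (fun m => th_x) (fun i m => rho_x) hG.inv
    (fun m hm => hG.smooth m hm) hG.cont hC'0 ?_ ?_
  · intro m hm z
    by_cases hz : z ∈ KF (1 / 3)
    · have hF : z ∈ F := KF3_subset hz
      rw [cutE_of_mem hF, abs_mul]
      have h1 := (hC z hz m hm).1
      calc |eps none z| * |G (z, m)| ≤ 1 * |C| :=
            mul_le_mul (heps z hF) (h1.trans (le_abs_self C)) (abs_nonneg _) zero_le_one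
        _ ≤ C' := by rw [one_mul]; exact hC0
    · rw [cutE_zero hz, abs_zero]
      exact hC'0
  · intro m hm z
    by_cases hz : z ∈ KF (1 / 3)
    · have hF : z ∈ F := KF3_subset hz
      have e1 : cutE (fun u => G (u, m)) =ᶠ[𝓝 z] fun u => eps none u * G (u, m) := by
        filter_upwards [isOpen_F.mem_nhds hF] with u hu
        exact cutE_of_mem hu
      have hs : ContDiffAt ℝ ∞ (fun u => G (u, m)) z :=
        (hG.smooth m hm).contDiffAt (isOpen_F.mem_nhds hF)
      have he : ContDiffAt ℝ ∞ (eps none) z :=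
        (contDiffOn_eps none).contDiffAt (isOpen_F.mem_nhds hF)
      rw [lap2_congr e1, lap2_mul (he.of_le (by norm_cast)) (hs.of_le (by norm_cast))]
      obtain ⟨g0, g1, g2⟩ := hC z hz m hm
      have g1' : |lap2 (fun u => G (u, m)) z| ≤ |C| := le_trans g1 (le_abs_self C)
      have g0' : |G (z, m)| ≤ |C| := g0.trans (le_abs_self C)
      have g3 : |fderiv ℝ (fun u => G (u, m)) z 1| ≤ |C| := by
        have := g2 1
        rw [norm_one, mul_one] at this
        exact this.trans (le_abs_self C)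
      have g4 : |fderiv ℝ (fun u => G (u, m)) z Complex.I| ≤ |C| := by
        have := g2 Complex.I
        rw [Complex.norm_I, mul_one] at this
        exact this.trans (le_abs_self C)
      have k2 : |lap2 (eps none) z| ≤ |E2| := (hE2 z hz).trans (le_abs_self _)
      have k3 : |fderiv ℝ (eps none) z 1| ≤ |E1| := (hE1 z hz).trans (le_abs_self _)
      have k4 : |fderiv ℝ (eps none) z Complex.I| ≤ |E1'| := (hE1' z hz).trans (le_abs_self _)
      have t1 : |eps none z * lap2 (fun u => G (u, m)) z| ≤ |C| := by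
        rw [abs_mul]
        calc _ ≤ 1 * |C| := mul_le_mul (heps z hF) g1' (abs_nonneg _) zero_le_one
          _ = |C| := one_mul _
      have t2 : |G (z, m) * lap2 (eps none) z| ≤ |C| * |E2| := by
        rw [abs_mul]
        exact mul_le_mul g0' k2 (abs_nonneg _) (abs_nonneg _)
      have t3 : |fderiv ℝ (eps none) z 1 * fderiv ℝ (fun u => G (u, m)) z 1| ≤ |E1| * |C| := by
        rw [abs_mul]
        exact mul_le_mul k3 g3 (abs_nonneg _) (abs_nonneg _)
      have t4 : |fderiv ℝ (eps none) z Complex.I * fderiv ℝ (fun u => G (u, m)) z Complex.I| ≤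
          |E1'| * |C| := by
        rw [abs_mul]
        exact mul_le_mul k4 g4 (abs_nonneg _) (abs_nonneg _)
      rw [abs_le] at t1 t2 t3 t4 ⊢
      constructor
      · linarith [t1.1, t2.1, t3.1, t4.1]
      · linarith [t1.2, t2.2, t3.2, t4.2]
    · rw [lap2_cutE_zero hz, abs_zero]
      exact hC'0

end Pool.Agent.H5.EC
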