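import Pool.Agent.H5.EC.G4c

/-! Part G4d: extremality in terms of densities. -/

open Set Topology MeasureTheory
open scoped Manifold ContDiff ENNReal

noncomputable section

namespace Pool.Agent.H5.EC

variable {L : IY →ₗ[ℝ] ℝ} {ξ : Measure (ℂ × W)}

/-- `L` is extremal -/
def Ext (L : IY →ₗ[ℝ] ℝ) : Prop :=
  ∀ L₁ L₂ : IY →ₗ[ℝ] ℝ, PH L₁ → PH L₂ → L₁ + L₂ = L → ∃ c : ℝ, L₁ = c • L

lemma Sh_N {m : W} (hm : m ∈ Sh) : m ∈ N := by
  intro h0
  have h1 : nsq m.1 = 0 := by
    rw [h0]; simp [nsq]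
  have h2 := hm.1
  rw [h1] at h2
  exact absurd h2 (not_lt.2 (sq_nonneg la))

lemma ae_supp (hξ : Rep L ξ) : ∀ᵐ p ∂ξ, p ∈ F ×ˢ Sh := by
  rw [ae_iff]
  exact hξ.supp

lemma ae_DY (hξ : Rep L ξ) : ∀ᵐ p ∂ξ, p ∈ DY := by
  filter_upwards [ae_supp hξ] with p hp
  exact ⟨hp.1, Sh_N hp.2⟩

lemma aesm_contOn (hξ : Rep L ξ) {f : ℂ × W → ℝ} (hf : ContinuousOn f DY) :
    AEStronglyMeasurable f ξ := by
  have h1 : ξ.restrict DY = ξ := Measure.restrict_eq_self_of_ae_mem (ae_DY hξ)
  rw [← h1]
  exact hf.aestronglyMeasurable isOpen_DY.measurableSet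

lemma integrable_eps (hξ : Rep L ξ) {f : ℂ × W → ℝ} (hf : AEStronglyMeasurable f ξ)
    (hb : ∃ C, ∀ z ∈ KF (1 / 3), ∀ m ∈ Sh, |f (z, m)| ≤ C) :
    Integrable (fun p => eps none p.1 * f p) ξ := by
  obtain ⟨C, hC⟩ := hb
  have hK : IsCompact (KF (1 / 3)) := isCompact_KF (by norm_num)
  have hKF : KF (1 / 3) ⊆ F := KF_subset (by norm_num)
  have hm : MeasurableSet (KF (1 / 3) ×ˢ (univ : Set W)) := hK.measurableSet.prod MeasurableSet.univ
  have hfin := hξ.fin _ hK hKF
  have hi : Integrable ((KF (1 / 3) ×ˢ (univ : Set W)).indicator (fun _ => C)) ξ := by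
    rw [integrable_indicator_iff hm]
    exact integrableOn_const hfin.ne
  have he : AEStronglyMeasurable (fun p : ℂ × W => eps none p.1) ξ := by
    apply aesm_contOn hξ
    exact (contDiffOn_eps none).continuousOn.comp continuousOn_fst (fun p hp => hp.1)
  refine hi.mono' (he.mul hf) ?_
  filter_upwards [ae_supp hξ] with p hp
  rw [Real.norm_eq_abs, abs_mul, abs_of_nonneg (eps_nonneg none hp.1)]
  by_cases h : p ∈ KF (1 / 3) ×ˢ (univ : Set W)
  · rw [indicator_of_mem h]
    have h1 := eps_le_one none hp.1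
    have h2 := hC p.1 h.1 p.2 hp.2
    have h3 := eps_nonneg none hp.1
    calc eps none p.1 * |f p| ≤ 1 * |f p| := by
          apply mul_le_mul_of_nonneg_right h1 (abs_nonneg _)
      _ ≤ C := by rw [one_mul]; exact h2
  · rw [indicator_of_notMem h]
    have h1 : eps none p.1 = 0 := by
      by_contra hne
      exact h ⟨eps_none_ne hp.1 hne, mem_univ _⟩
    rw [h1, zero_mul]

lemma IY_bdd (g : IY) : ∃ C, ∀ z ∈ KF (1 / 3), ∀ m ∈ Sh, |g.1 (z, m)| ≤ C := by
  obtain ⟨C, hC⟩ := bdd_of_scale g.2.1 g.2.2.sc (isCompact_KF (h := 1 / 3) (by norm_num))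
    (KF_subset (by norm_num))
  exact ⟨C, fun z hz m hm => hC z hz m (Sh_N hm)⟩

lemma integrable_gw (hξ : Rep L ξ) (g : IY) {w : ℂ × W → ℝ} (hd : Dens w) :
    Integrable (fun p => eps none p.1 * (g.1 p * w p)) ξ := by
  obtain ⟨C, hC⟩ := IY_bdd g
  obtain ⟨C', hC'⟩ := hd.bdd
  apply integrable_eps hξ ((aesm_contOn hξ g.2.1).mul hd.meas.aestronglyMeasurable)
  refine ⟨|C| * |C'|, fun z hz m hm => ?_⟩
  change |g.1 (z, m) * w (z, m)| ≤ _
  rw [abs_mul]
  exact mul_le_mul ((hC z hz m hm).trans (le_abs_self C)) ((hC' _).trans (le_abs_self C'))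
    (abs_nonneg _) (abs_nonneg _)

/-- the functional attached to a nonnegative harmonic density -/
lemma exists_fun (hξ : Rep L ξ) {w : ℂ × W → ℝ} (hd : Dens w) (h0 : ∀ p, 0 ≤ w p) (hw : Harm ξ w) :
    ∃ L' : IY →ₗ[ℝ] ℝ, PH L' ∧ ∀ g : IY, L' g = ∫ p, eps none p.1 * (g.1 p * w p) ∂ξ := by
  let L' : IY →ₗ[ℝ] ℝ :=
    { toFun := fun g => ∫ p, eps none p.1 * (g.1 p * w p) ∂ξ
      map_add' := by
        intro g g'
        rw [← integral_add (integrable_gw hξ g hd) (integrable_gw hξ g' hd)]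
        congr 1
        funext p
        change eps none p.1 * ((g.1 p + g'.1 p) * w p) = _
        ring
      map_smul' := by
        intro c g
        rw [RingHom.id_apply, smul_eq_mul, ← integral_const_mul]
        congr 1
        funext p
        change eps none p.1 * ((c * g.1 p) * w p) = _
        ring }
  refine ⟨L', ⟨?_, ?_⟩, fun g => rfl⟩
  · intro g hg
    apply integral_nonneg_of_ae
    filter_upwards [ae_DY hξ] with p hp
    exact mul_nonneg (eps_nonneg none hp.1) (mul_nonneg (hg p hp) (h0 p))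
  · intro f hf g hg
    have h1 := Harm.tf hξ hd hw hf
    change ∫ p, eps none p.1 * (g.1 p * w p) ∂ξ = 0
    rw [← h1]
    apply integral_congr_ae
    filter_upwards [ae_DY hξ] with p hp
    have h2 := sig_pos hp.1
    rw [← hg p hp, inv_mul_cancel_left₀ h2.ne']

lemma Dens.sub {w w' : ℂ × W → ℝ} (hd : Dens w) (hd' : Dens w') : Dens (fun p => w p - w' p) := by
  refine ⟨hd.meas.sub hd'.meas, ?_, ⟨?_, ?_⟩⟩
  · obtain ⟨C, hC⟩ := hd.bdd
    obtain ⟨C', hC'⟩ := hd'.bdd
    refine ⟨C + C', fun p => ?_⟩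
    exact (abs_sub _ _).trans (add_le_add (hC p) (hC' p))
  · intro z hz m hm
    simp only [hd.inv.sc z hz m hm, hd'.inv.sc z hz m hm]
  · intro b z hz m hm
    simp only [hd.inv.mo b z hz m hm, hd'.inv.mo b z hz m hm]

/-- a density orthogonal to the test averages is nonpositive -/
lemma dens_nonpos (hξ : Rep L ξ) {u : ℂ × W → ℝ} (hd : Dens u)
    (h : ∀ g : IY, ∫ p, eps none p.1 * (g.1 p * u p) ∂ξ = 0) : ∀ᵐ p ∂ξ, u p ≤ 0 := by
  obtain ⟨Nb, _, _, _, _, _, _, sec, P, hsecm, hsecSh, hsecP, hPsec, hPth, hPc, hdesc⟩ :=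
    exists_model
  classical
  obtain ⟨C, hC⟩ := hd.bdd
  -- the projection
  set Pr : ℂ × W → ℂ × Nb := fun p => (p.1, P p.2) with hPr
  have hPrc : ContinuousOn Pr DY :=
    continuousOn_fst.prodMk (hPc.comp continuousOn_snd (fun p hp => hp.2))
  have hPrm : AEMeasurable Pr ξ := by
    have h1 : ξ.restrict DY = ξ := Measure.restrict_eq_self_of_ae_mem (ae_DY hξ)
    rw [← h1]
    exact hPrc.aemeasurable isOpen_DY.measurableSet
  have hdens : ∀ v : ℂ × W → ℝ≥0∞, AEMeasurable Pr (ξ.withDensity v) := fun v =>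
    hPrm.mono_ac (withDensity_absolutelyContinuous _ _)
  set vp : ℂ × W → ℝ≥0∞ := fun p => ENNReal.ofReal (u p) with hvp
  set vm : ℂ × W → ℝ≥0∞ := fun p => ENNReal.ofReal (-(u p)) with hvm
  have hvpm : Measurable vp := hd.meas.ennreal_ofReal
  have hvmm : Measurable vm := hd.meas.neg.ennreal_ofReal
  have hO : IsOpen (F ×ˢ (univ : Set Nb)) := isOpen_F.prod isOpen_univ
  have hnull : ∀ v : ℂ × W → ℝ≥0∞, ((ξ.withDensity v).map Pr) (F ×ˢ (univ : Set Nb))ᶜ = 0 := by
    intro v
    rw [Measure.map_apply_of_aemeasurable (hdens v) hO.measurableSet.compl]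
    apply withDensity_absolutelyContinuous
    refine measure_mono_null ?_ hξ.supp
    intro p hp hp'
    exact hp ⟨hp'.1, mem_univ _⟩
  have hfin : ∀ v : ℂ × W → ℝ≥0∞, Measurable v → (∀ p, v p ≤ ENNReal.ofReal C) →
      ∀ K, IsCompact K → K ⊆ F ×ˢ (univ : Set Nb) → ((ξ.withDensity v).map Pr) K < ⊤ := by
    intro v hvm hv K hK hKF
    rw [Measure.map_apply_of_aemeasurable (hdens v) hK.measurableSet]
    have hK1 : IsCompact (Prod.fst '' K) := hK.image continuous_fst
    have hK2 : Prod.fst '' K ⊆ F := by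
      rintro _ ⟨q, hq, rfl⟩
      exact (hKF hq).1
    have hsub : Pr ⁻¹' K ⊆ (Prod.fst '' K) ×ˢ univ := by
      intro p hp
      exact ⟨⟨_, hp, rfl⟩, mem_univ _⟩
    refine lt_of_le_of_lt (measure_mono hsub) ?_
    rw [withDensity_apply _ (hK1.measurableSet.prod MeasurableSet.univ)]
    refine lt_of_le_of_lt (lintegral_mono hv) ?_
    rw [lintegral_const, Measure.restrict_apply_univ]
    exact ENNReal.mul_lt_top ENNReal.ofReal_lt_top (hξ.fin _ hK1 hK2)
  have hb1 : ∀ p, vp p ≤ ENNReal.ofReal C := fun p =>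
    ENNReal.ofReal_le_ofReal ((le_abs_self _).trans (hC p))
  have hb2 : ∀ p, vm p ≤ ENNReal.ofReal C := fun p =>
    ENNReal.ofReal_le_ofReal ((neg_le_abs _).trans (hC p))
  have heq : (ξ.withDensity vp).map Pr = (ξ.withDensity vm).map Pr := by
    refine g3_ext_open hO (hnull vp) (hnull vm) (hfin vp hvpm hb1) (hfin vm hvmm hb2) ?_
    rintro g hg ⟨K, hK, hKF, hgK⟩
    have hK1 : IsCompact (Prod.fst '' K) := hK.image continuous_fst
    have hK2 : Prod.fst '' K ⊆ F := by
      rintro _ ⟨q, hq, rfl⟩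
      exact (hKF hq).1
    obtain ⟨Cg, hCg⟩ : ∃ Cg, ∀ q, |g q| ≤ Cg := by
      obtain ⟨Cg, hCg⟩ := hK.exists_bound_of_continuousOn hg.continuousOn
      refine ⟨|Cg|, fun q => ?_⟩
      by_cases hq : q ∈ K
      · exact (hCg q hq).trans (le_abs_self _)
      · rw [hgK q hq, abs_zero]; exact abs_nonneg _
    -- the lifted function
    set hf : ℂ × W → ℝ := DY.piecewise (fun p => g (Pr p)) (fun _ => 0) with hhf
    have hfc : ContinuousOn (fun p => g (Pr p)) DY := hg.comp_continuousOn hPrc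
    have hfm : Measurable hf :=
      ContinuousOn.measurable_piecewise hfc continuousOn_const isOpen_DY.measurableSet
    have hfv : ∀ p ∈ DY, hf p = g (Pr p) := fun p hp => piecewise_eq_of_mem _ _ _ hp
    have hfb : ∀ p, |hf p| ≤ Cg := by
      intro p
      by_cases hp : p ∈ DY
      · rw [hfv p hp]; exact hCg _
      · rw [hhf, piecewise_eq_of_notMem _ _ _ hp, abs_zero]
        exact (abs_nonneg _).trans (hCg (0, P ((0, 0), 0)))
    have hfinv : ∀ z ∈ F, ∀ m ∈ N, hf (z, th 1 m) = hf (z, m) := by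
      intro z hz m hm
      rw [hfv _ ⟨hz, th_mem.2 hm⟩, hfv _ ⟨hz, hm⟩]
      simp only [hPr, hPth m hm]
    have hfK : ∃ K : Set ℂ, IsCompact K ∧ K ⊆ F ∧ ∀ z ∈ F, z ∉ K → ∀ m ∈ N, hf (z, m) = 0 := by
      refine ⟨_, hK1, hK2, fun z hz hzK m hm => ?_⟩
      rw [hfv _ ⟨hz, hm⟩]
      apply hgK
      intro hcon
      exact hzK ⟨_, hcon, rfl⟩
    have hfcont : ContinuousOn hf DY := hfc.congr hfv
    have hAv := Av_mem hfcont hfinv hfK
    have h1 := rep_unfold hξ hfm hd ⟨Cg, hfb⟩ hfinv hfK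
    rw [h ⟨Av hf, hAv⟩] at h1
    -- integrability
    have hint : Integrable (fun p => hf p * u p) ξ := by
      have hm : MeasurableSet ((Prod.fst '' K) ×ˢ (univ : Set W)) :=
        hK1.measurableSet.prod MeasurableSet.univ
      have hi : Integrable (((Prod.fst '' K) ×ˢ (univ : Set W)).indicator (fun _ => Cg * C)) ξ := by
        rw [integrable_indicator_iff hm]
        exact integrableOn_const (hξ.fin _ hK1 hK2).ne
      refine hi.mono' (hfm.mul hd.meas).aestronglyMeasurable ?_
      filter_upwards [ae_DY hξ] with p hp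
      by_cases hpK : p ∈ (Prod.fst '' K) ×ˢ (univ : Set W)
      · rw [indicator_of_mem hpK, Real.norm_eq_abs, abs_mul]
        exact mul_le_mul (hfb p) (hC p) (abs_nonneg _) ((abs_nonneg _).trans (hfb p))
      · rw [indicator_of_notMem hpK, hfv p hp]
        have : g (Pr p) = 0 := by
          apply hgK
          intro hcon
          exact hpK ⟨⟨_, hcon, rfl⟩, mem_univ _⟩
        rw [this, zero_mul, norm_zero]
    have hgm : Measurable g := hg.measurable
    rw [integral_map (hdens vp) hgm.aestronglyMeasurable,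
      integral_map (hdens vm) hgm.aestronglyMeasurable,
      integral_withDensity_eq_integral_toReal_smul hvpm (by
        filter_upwards with p using ENNReal.ofReal_lt_top),
      integral_withDensity_eq_integral_toReal_smul hvmm (by
        filter_upwards with p using ENNReal.ofReal_lt_top)]
    have e1 : ∀ᵐ p ∂ξ, (vp p).toReal • g (Pr p) = max (u p) 0 * hf p := by
      filter_upwards [ae_DY hξ] with p hp
      rw [hfv p hp, hvp, ENNReal.toReal_ofReal', smul_eq_mul]
    have e2 : ∀ᵐ p ∂ξ, (vm p).toReal • g (Pr p) = max (-(u p)) 0 * hf p := by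
      filter_upwards [ae_DY hξ] with p hp
      rw [hfv p hp, hvm, ENNReal.toReal_ofReal', smul_eq_mul]
    rw [integral_congr_ae e1, integral_congr_ae e2, ← sub_eq_zero]
    have i1 : Integrable (fun p => max (u p) 0 * hf p) ξ := by
      refine hint.mono ((hd.meas.max measurable_const).mul hfm).aestronglyMeasurable ?_
      filter_upwards with p
      rw [norm_mul, norm_mul, mul_comm]
      apply mul_le_mul_of_nonneg_left _ (norm_nonneg _)
      rw [Real.norm_eq_abs, Real.norm_eq_abs, abs_of_nonneg (le_max_right _ _)]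
      exact max_le (le_abs_self _) (abs_nonneg _)
    have i2 : Integrable (fun p => max (-(u p)) 0 * hf p) ξ := by
      refine hint.mono ((hd.meas.neg.max measurable_const).mul hfm).aestronglyMeasurable ?_
      filter_upwards with p
      rw [norm_mul, norm_mul, mul_comm]
      apply mul_le_mul_of_nonneg_left _ (norm_nonneg _)
      rw [Real.norm_eq_abs, Real.norm_eq_abs, abs_of_nonneg (le_max_right _ _)]
      exact max_le (neg_le_abs _) (abs_nonneg _)
    rw [← integral_sub i1 i2]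
    refine Eq.trans ?_ h1.symm
    apply integral_congr_ae
    filter_upwards with p
    rcases le_total 0 (u p) with hu | hu
    · rw [max_eq_left hu, max_eq_right (by linarith)]; ring
    · rw [max_eq_right hu, max_eq_left (by linarith)]; ring
  -- conclusion
  set B : Set (ℂ × Nb) := {q | 0 < u (q.1, sec q.2)} with hB
  have hBm : MeasurableSet B := by
    have hm : Measurable (fun q : ℂ × Nb => u (q.1, sec q.2)) :=
      hd.meas.comp (measurable_fst.prodMk (hsecm.comp measurable_snd))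
    exact measurableSet_lt measurable_const hm
  have hpre : ∀ᵐ p ∂ξ, (p ∈ Pr ⁻¹' B ↔ 0 < u p) := by
    filter_upwards [ae_DY hξ] with p hp
    obtain ⟨k, hk⟩ := hsecP p.2 hp.2
    change 0 < u (p.1, sec (P p.2)) ↔ _
    rw [hk, hd.inv.th hp.1 hp.2 k]
  have h2 : (ξ.withDensity vp) (Pr ⁻¹' B) = (ξ.withDensity vm) (Pr ⁻¹' B) := by
    rw [← Measure.map_apply_of_aemeasurable (hdens vp) hBm,
      ← Measure.map_apply_of_aemeasurable (hdens vm) hBm, heq]
  set B' : Set (ℂ × W) := {p | 0 < u p} with hB'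
  have hB'm : MeasurableSet B' := measurableSet_lt measurable_const hd.meas
  have h3 : ∀ v : ℂ × W → ℝ≥0∞, (ξ.withDensity v) (Pr ⁻¹' B) = (ξ.withDensity v) B' := by
    intro v
    apply measure_congr
    have := (withDensity_absolutelyContinuous ξ v).ae_le hpre
    filter_upwards [this] with p hp
    exact propext hp
  rw [h3, h3, withDensity_apply _ hB'm, withDensity_apply _ hB'm] at h2
  have h4 : ∫⁻ p in B', vm p ∂ξ = 0 := by
    rw [setLIntegral_congr_fun hB'm (g := fun _ => 0)]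
    · simp
    · intro p hp
      have hp' : 0 < u p := hp
      simp only [hvm]
      exact ENNReal.ofReal_of_nonpos (by linarith)
  rw [h4, lintegral_eq_zero_iff hvpm] at h2
  rw [Filter.EventuallyEq, ae_restrict_iff' hB'm] at h2
  filter_upwards [h2] with p hp
  by_contra hcon
  push Not at hcon
  have := hp hcon
  simp only [hvp, Pi.zero_apply, ENNReal.ofReal_eq_zero] at this
  linarith

/-- two densities giving the same functional agree almost everywhere -/
lemma dens_ae_eq (hξ : Rep L ξ) {w w' : ℂ × W → ℝ} (hd : Dens w) (hd' : Dens w')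
    (h : ∀ g : IY, ∫ p, eps none p.1 * (g.1 p * w p) ∂ξ = ∫ p, eps none p.1 * (g.1 p * w' p) ∂ξ) :
    w =ᵐ[ξ] w' := by
  have key : ∀ v v' : ℂ × W → ℝ, Dens v → Dens v' →
      (∀ g : IY, ∫ p, eps none p.1 * (g.1 p * v p) ∂ξ = ∫ p, eps none p.1 * (g.1 p * v' p) ∂ξ) →
      ∀ᵐ p ∂ξ, v p - v' p ≤ 0 := by
    intro v v' hv hv' hh
    apply dens_nonpos hξ (hv.sub hv')
    intro g
    have h1 : (fun p : ℂ × W => eps none p.1 * (g.1 p * (v p - v' p))) =
        fun p => eps none p.1 * (g.1 p * v p) - eps none p.1 * (g.1 p * v' p) := by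
      funext p; ring
    rw [h1, integral_sub (integrable_gw hξ g hv) (integrable_gw hξ g hv'), hh g, sub_self]
  filter_upwards [key w w' hd hd' h, key w' w hd' hd (fun g => (h g).symm)] with p h1 h2
  linarith

lemma dens_const_fun (c : ℝ) : Dens (fun _ => c) :=
  ⟨measurable_const, ⟨|c|, fun _ => le_rfl⟩, ⟨fun _ _ _ _ => rfl, fun _ _ _ _ _ => rfl⟩⟩

/-- no mass on `x = 0` -/
theorem null_zero (hξ : Rep L ξ) (hL : PH L) (hE : Ext L) (hq : 0 < L qe) :
    ξ {p | p.2.1.1 = 0} = 0 := by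
  classical
  set γ : W → ℝ := fun m => if m.1.1 = 0 then 1 else 0 with hγ
  have hms : MeasurableSet {m : W | m.1.1 = 0} := by
    have : Measurable (fun m : W => m.1.1) := measurable_fst.comp measurable_fst
    exact this (measurableSet_singleton 0)
  have hγm : Measurable γ := Measurable.ite hms measurable_const measurable_const
  have hγth : ∀ m ∈ N, γ (th 1 m) = γ m := by
    intro m _
    simp only [hγ]
    by_cases h : m.1.1 = 0
    · rw [if_pos h, if_pos]
      by_contra hne
      exact (th_x.1 hne) h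
    · rw [if_neg h, if_neg (th_x.2 h)]
  have hγb : ∀ m, |γ m| ≤ 1 := by
    intro m
    simp only [hγ]
    split_ifs <;> simp
  have hγ0 : ∀ m, 0 ≤ γ m := by
    intro m
    simp only [hγ]
    split_ifs <;> simp
  have hγ1 : ∀ m, γ m ≤ 1 := fun m => (le_abs_self _).trans (hγb m)
  have hrho : ∀ (i : Mv) (m : W), γ (rho i m) = γ m := by
    intro i m
    simp only [hγ]
    by_cases h : m.1.1 = 0
    · rw [if_pos h, if_pos]
      by_contra hne
      exact (rho_x.1 hne) h
    · rw [if_neg h, if_neg (rho_x.2 h)]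
  have hd0 : Dens (fun p : ℂ × W => γ p.2) :=
    ⟨hγm.comp measurable_snd, ⟨1, fun p => hγb p.2⟩,
      ⟨fun z _ m hm => hγth m hm, fun b z _ m _ => hrho (some b) m⟩⟩
  have hd1 : Dens (fun p : ℂ × W => 1 - γ p.2) := (dens_const_fun 1).sub hd0
  have hw0 : Harm ξ (fun p => γ p.2) := by
    have := (harm_one hL hξ).mul hγm hγth ⟨1, hγb⟩
    simpa using this
  have hw1 : Harm ξ (fun p => 1 - γ p.2) := by
    have := (harm_one hL hξ).mul (γ := fun m => 1 - γ m) (measurable_const.sub hγm)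
      (fun m hm => by simp only [hγth m hm]) ⟨2, fun m => by
        have h1 := hγ0 m
        have h2 := hγ1 m
        rw [abs_le]; constructor <;> linarith⟩
    simpa using this
  obtain ⟨L₀, hP0, hL0⟩ := exists_fun hξ hd0 (fun p => hγ0 p.2) hw0
  obtain ⟨L₁, hP1, hL1⟩ := exists_fun hξ hd1 (fun p => by linarith [hγ1 p.2]) hw1
  have hsum : L₀ + L₁ = L := by
    ext g
    rw [LinearMap.add_apply, hL0, hL1, rep_eq hξ g,
      ← integral_add (integrable_gw hξ g hd0) (integrable_gw hξ g hd1)]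
    congr 1
    funext p
    ring
  obtain ⟨c, hc⟩ := hE L₀ L₁ hP0 hP1 hsum
  have hq0 : L₀ qe = 0 := by
    rw [hL0]
    rw [integral_congr_ae (g := fun _ => 0)]
    · simp
    · filter_upwards [ae_DY hξ] with p hp
      change eps none p.1 * (qY p * γ p.2) = 0
      simp only [hγ]
      split_ifs with h
      · rw [qY_zero hp h]; ring
      · ring
  have hc0 : c = 0 := by
    rw [hc] at hq0
    have h1 : c * L qe = 0 := hq0
    exact (mul_eq_zero.mp h1).resolve_right hq.ne'
  have hz : ∀ g : IY, ∫ p, eps none p.1 * (g.1 p * γ p.2) ∂ξ =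
      ∫ p, eps none p.1 * (g.1 p * (0 : ℝ)) ∂ξ := by
    intro g
    have h1 := hL0 g
    rw [hc, hc0, zero_smul] at h1
    simp only [mul_zero, integral_zero]
    exact h1.symm
  have hae := dens_ae_eq hξ hd0 (dens_const_fun 0) hz
  have h5 : ∀ᵐ p ∂ξ, p ∉ {p : ℂ × W | p.2.1.1 = 0} := by
    filter_upwards [hae] with p hp hp0
    have h6 : γ p.2 = 1 := if_pos hp0
    rw [h6] at hp
    exact one_ne_zero hp
  exact measure_eq_zero_iff_ae_notMem.mpr h5

/-- harmonic densities of an extremal functional are constant -/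
theorem dens_const (hξ : Rep L ξ) (hL : PH L) (hE : Ext L) (h1 : L oneY = 1) {w : ℂ × W → ℝ}
    (hd : Dens w) (h0 : ∀ p, 0 ≤ w p ∧ w p ≤ 1) (hw : Harm ξ w) : ∃ c : ℝ, w =ᵐ[ξ] fun _ => c := by
  have hd' : Dens (fun p => 1 - w p) := (dens_const_fun 1).sub hd
  have hw' : Harm ξ (fun p => 1 - w p) := by
    intro a ha hK β hβ hβi hβb
    have h2 := harm_one hL hξ a ha hK β hβ hβi hβb
    have h3 := hw a ha hK β hβ hβi hβb
    have hi : ∀ v : ℂ × W → ℝ, Dens v → Integrable
        (fun p => ((sig p.1)⁻¹ * lap2 a p.1 * β p.2) * v p) ξ := by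
      intro v hv
      obtain ⟨K, hKc, hKF, haK⟩ := hK
      obtain ⟨C, hC⟩ := hβb
      obtain ⟨C', hC'⟩ := hv.bdd
      have hs : ContinuousOn (fun z => (sig z)⁻¹ * lap2 a z) F := by
        apply ContinuousOn.mul
        · exact contDiffOn_sig.continuousOn.inv₀ (fun z hz => (sig_pos hz).ne')
        · exact (contDiffOn_lap2 isOpen_F ha.contDiffOn).continuousOn
      obtain ⟨C'', hC''⟩ := hKc.exists_bound_of_continuousOn (hs.mono hKF)
      have hlap : ∀ z, z ∉ K → lap2 a z = 0 := by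
        intro z hz
        have h4 : a =ᶠ[𝓝 z] fun _ => 0 := by
          filter_upwards [hKc.isClosed.isOpen_compl.mem_nhds hz] with u hu
          exact haK u hu
        rw [lap2_congr h4, lap2_const]
      have hm : MeasurableSet (K ×ˢ (univ : Set W)) := hKc.measurableSet.prod MeasurableSet.univ
      have hi : Integrable ((K ×ˢ (univ : Set W)).indicator (fun _ => |C''| * |C| * |C'|)) ξ := by
        rw [integrable_indicator_iff hm]
        exact integrableOn_const (hξ.fin _ hKc hKF).ne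
      refine hi.mono' ?_ ?_
      · refine AEStronglyMeasurable.mul (AEStronglyMeasurable.mul ?_ ?_)
          hv.meas.aestronglyMeasurable
        · exact aesm_contOn hξ (hs.comp continuousOn_fst (fun p hp => hp.1))
        · exact (hβ.comp measurable_snd).aestronglyMeasurable
      · filter_upwards with p
        by_cases hp : p ∈ K ×ˢ (univ : Set W)
        · rw [indicator_of_mem hp, norm_mul, norm_mul]
          have e1 : ‖(sig p.1)⁻¹ * lap2 a p.1‖ ≤ |C''| := (hC'' _ hp.1).trans (le_abs_self _)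
          have e2 : ‖β p.2‖ ≤ |C| := (hC _).trans (le_abs_self _)
          have e3 : ‖v p‖ ≤ |C'| := (hC' _).trans (le_abs_self _)
          gcongr
        · rw [indicator_of_notMem hp]
          have h5 : p.1 ∉ K := fun h => hp ⟨h, mem_univ _⟩
          rw [hlap _ h5]
          simp
    have e : (fun p : ℂ × W => ((sig p.1)⁻¹ * lap2 a p.1 * β p.2) * (1 - w p)) =
        fun p => ((sig p.1)⁻¹ * lap2 a p.1 * β p.2) * 1 -
          ((sig p.1)⁻¹ * lap2 a p.1 * β p.2) * w p := by
      funext p; ring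
    rw [e, integral_sub (hi _ (dens_const_fun 1)) (hi _ hd), h2, h3, sub_zero]
  obtain ⟨L₀, hP0, hL0⟩ := exists_fun hξ hd (fun p => (h0 p).1) hw
  obtain ⟨L₁, hP1, hL1⟩ := exists_fun hξ hd' (fun p => by linarith [(h0 p).2]) hw'
  have hsum : L₀ + L₁ = L := by
    ext g
    rw [LinearMap.add_apply, hL0, hL1, rep_eq hξ g,
      ← integral_add (integrable_gw hξ g hd) (integrable_gw hξ g hd')]
    congr 1
    funext p
    ring
  obtain ⟨c, hc⟩ := hE L₀ L₁ hP0 hP1 hsum
  refine ⟨c, dens_ae_eq hξ hd (dens_const_fun c) ?_⟩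
  intro g
  rw [← hL0, hc, LinearMap.smul_apply, rep_eq hξ g, smul_eq_mul, ← integral_const_mul]
  congr 1
  funext p
  ring

end Pool.Agent.H5.EC
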