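import Pool.Agent.H5.EC.G4c
import Pool.Agent.H5.EC.D1

/-! Part G5: the map from the model space to `X`, the measures, smooth functions pulled back. -/

open Set Topology MeasureTheory
open scoped Manifold ContDiff ENNReal

attribute [-instance] TopCat.of.chartedSpace

noncomputable section

namespace Pool.Agent.H5.EC

instance : MeasurableSpace X := borel X
instance : BorelSpace X := ⟨rfl⟩

/-- the map to `X` -/
def iota (c : ℝ) (p : ℂ × W) : X := ppi (p.1, pic c p.2)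

lemma isOpen_DX : IsOpen DX := by
  have h1 : IsOpen {p : ℂ × W | p.1 ∈ F} := isOpen_F.preimage continuous_fst
  have h2 : IsOpen {p : ℂ × W | p.2.1.1 ≠ 0} :=
    isOpen_ne.preimage (continuous_fst.comp (continuous_fst.comp continuous_snd))
  exact h1.inter h2

lemma iota_mem (c : ℝ) {p : ℂ × W} (hp : p ∈ DX) : ((p.1, pic c p.2) : E7) ∈ D := hp

lemma g5_continuous_j (c : ℝ) : Continuous (fun p : ℂ × W => ((p.1, pic c p.2) : E7)) :=
  continuous_fst.prodMk ((continuous_pic c).comp continuous_snd)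

lemma continuousOn_iota (c : ℝ) : ContinuousOn (iota c) DX :=
  continuousOn_ppi.comp (g5_continuous_j c).continuousOn fun _ hp => iota_mem c hp

lemma measurable_iota (c : ℝ) : Measurable (iota c) := by
  apply measurable_of_isOpen
  intro O hO
  have h1 : IsOpen (DX ∩ iota c ⁻¹' O) := (continuousOn_iota c).isOpen_inter_preimage isOpen_DX hO
  have hout : ∀ p : ℂ × W, p ∉ DX → iota c p = mkX base := by
    intro p hp
    have h : ((p.1, pic c p.2) : E7) ∉ D := hp
    unfold iota ppi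
    rw [dif_neg h]
  have h2 : iota c ⁻¹' O = (DX ∩ iota c ⁻¹' O) ∪ (DXᶜ ∩ {p | mkX base ∈ O}) := by
    ext p
    by_cases hp : p ∈ DX
    · simp [hp]
    · simp [hp, hout p hp]
  rw [h2]
  exact h1.measurableSet.union (isOpen_DX.measurableSet.compl.inter (MeasurableSet.const _))

lemma iota_th (c : ℝ) (k : ℤ) {z : ℂ} {m : W} (hz : z ∈ F) (hm : m.1.1 ≠ 0) :
    iota c (z, th k m) = iota c (z, m) := by
  have h : (pic c m).1 ≠ 0 := hm
  show ppi (z, pic c (th k m)) = ppi (z, pic c m)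
  rw [pic_th, ppi_scale hz h]

lemma iota_act (c : ℝ) {i : Mv} {z : ℂ} {m : W} (hz : z ∈ dom i) (hm : m.1.1 ≠ 0) :
    iota c (act i z, rho i m) = iota c (z, m) := by
  have h : (pic c m).1 ≠ 0 := hm
  show ppi (act i z, pic c (rho i m)) = ppi (z, pic c m)
  rw [pic_rho, ppi_move hz h]

open Classical in
/-- pull-back of a function on `X`, extended by zero -/
def pb (c : ℝ) (f : X → ℝ) (p : ℂ × W) : ℝ := if p.2.1.1 ≠ 0 then f (iota c p) else 0

lemma g5_pb_of (c : ℝ) (f : X → ℝ) {p : ℂ × W} (hp : p.2.1.1 ≠ 0) : pb c f p = f (iota c p) :=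
  if_pos hp

lemma g5_pb_zero (c : ℝ) (f : X → ℝ) {p : ℂ × W} (hp : p.2.1.1 = 0) : pb c f p = 0 :=
  if_neg (not_not.2 hp)

lemma g5_InvY_pb (c : ℝ) (f : X → ℝ) : InvY (pb c f) := by
  refine ⟨?_, ?_⟩
  · intro z hz m hm
    by_cases h : m.1.1 = 0
    · have h' : (th 1 m).1.1 = 0 := by
        by_contra h2
        exact (th_x.1 h2) h
      rw [g5_pb_zero c f (p := (z, m)) h, g5_pb_zero c f (p := (z, th 1 m)) h']
    · rw [g5_pb_of c f (p := (z, m)) h, g5_pb_of c f (p := (z, th 1 m)) (th_x.2 h), iota_th c 1 hz h]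
  · intro b z hz m hm
    by_cases h : m.1.1 = 0
    · have h' : (rho (some b) m).1.1 = 0 := by
        by_contra h2
        exact (rho_x.1 h2) h
      rw [g5_pb_zero c f (p := (z, m)) h, g5_pb_zero c f (p := (mv b z, rho (some b) m)) h']
    · rw [g5_pb_of c f (p := (z, m)) h, g5_pb_of c f (p := (mv b z, rho (some b) m)) (rho_x.2 h)]
      exact congrArg f (iota_act c (i := some b) hz h)

/-- every vector can be moved to a compact box by scaling and the lattice -/
lemma g5_exists_box {m : V7} (hm : m.1 ≠ 0) : ∃ (k : ℤ) (l : T4), l ∈ Lam ∧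
    (Th ^ k) m + (0, l) ∈
      ({x : ℂ × ℂ | la ≤ ‖x‖ ∧ ‖x‖ ≤ 1} ×ˢ Metric.closedBall (0 : T4) 2 : Set V7) := by
  have hla1 : 1 < la⁻¹ := (one_lt_inv₀ la_pos).2 la_lt_one
  obtain ⟨n, hn⟩ := exists_mem_Ioc_zpow (norm_pos_iff.2 hm) hla1
  have hm2n : ‖((Th ^ (n + 1)) m).1‖ = la ^ (n + 1) * ‖m.1‖ := by
    rw [Thz_fst, norm_smul, norm_zpow, Complex.norm_real, Real.norm_of_nonneg la_pos.le]
  have hpn : 0 < la ^ (n + 1) := zpow_pos la_pos _
  have hm2a : la ≤ ‖((Th ^ (n + 1)) m).1‖ ∧ ‖((Th ^ (n + 1)) m).1‖ ≤ 1 := by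
    rw [hm2n]
    constructor
    · have h2 := hn.1
      rw [inv_zpow] at h2
      have h3 : la ^ n * (la ^ n)⁻¹ < la ^ n * ‖m.1‖ :=
        mul_lt_mul_of_pos_left h2 (zpow_pos la_pos _)
      rw [mul_inv_cancel₀ (zpow_pos la_pos n).ne'] at h3
      rw [zpow_add_one₀ la_ne]
      nlinarith [la_pos]
    · have h2 := hn.2
      rw [inv_zpow] at h2
      have h3 : la ^ (n + 1) * ‖m.1‖ ≤ la ^ (n + 1) * (la ^ (n + 1))⁻¹ :=
        mul_le_mul_of_nonneg_left h2 hpn.le
      rwa [mul_inv_cancel₀ hpn.ne'] at h3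
  obtain ⟨l, hl, hlb⟩ := c1_box ((Th ^ (n + 1)) m).2
  refine ⟨n + 1, l, hl, ?_, ?_⟩
  · have : ((Th ^ (n + 1)) m + ((0 : ℂ × ℂ), l)).1 = ((Th ^ (n + 1)) m).1 := by simp
    rw [this]
    exact hm2a
  · rw [mem_closedBall_zero_iff]
    exact hlb

/-- invariance along the leaves: scaling and lattice -/
def TrInv {Y : Type*} (G : E7 → Y) : Prop :=
  ∀ z ∈ F, ∀ m : V7, m.1 ≠ 0 → ∀ k : ℤ, ∀ l ∈ Lam, G (z, (Th ^ k) m + (0, l)) = G (z, m)

lemma g5_isCompact_B :
    IsCompact ({x : ℂ × ℂ | la ≤ ‖x‖ ∧ ‖x‖ ≤ 1} ×ˢ Metric.closedBall (0 : T4) 2 : Set V7) := by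
  have h1 : IsCompact {x : ℂ × ℂ | la ≤ ‖x‖ ∧ ‖x‖ ≤ 1} := by
    have : {x : ℂ × ℂ | la ≤ ‖x‖ ∧ ‖x‖ ≤ 1} = {x : ℂ × ℂ | la ≤ ‖x‖} ∩ Metric.closedBall 0 1 := by
      ext x; simp
    rw [this, inter_comm]
    exact (isCompact_closedBall _ _).inter_right (isClosed_le continuous_const continuous_norm)
  exact h1.prod (isCompact_closedBall _ _)

/-- continuous functions invariant under the scaling and the lattice are bounded over compacts -/
lemma g5_bdd_on_D {G : E7 → ℝ} (hG : ContinuousOn G D) (hinv : TrInv G) {K : Set ℂ}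
    (hK : IsCompact K) (hKF : K ⊆ F) : ∃ C, ∀ z ∈ K, ∀ m : V7, m.1 ≠ 0 → |G (z, m)| ≤ C := by
  have hC := hK.prod g5_isCompact_B
  have hsub : K ×ˢ ({x : ℂ × ℂ | la ≤ ‖x‖ ∧ ‖x‖ ≤ 1} ×ˢ Metric.closedBall (0 : T4) 2 : Set V7)
      ⊆ D := by
    rintro ⟨z, x, t⟩ ⟨hz, hx, -⟩
    refine ⟨hKF hz, ?_⟩
    intro h
    have h' : x = 0 := h
    have hx1 : la ≤ ‖x‖ := hx.1
    rw [h', norm_zero] at hx1
    exact absurd la_pos (not_lt.2 hx1)
  obtain ⟨C, hC'⟩ := hC.exists_bound_of_continuousOn (hG.mono hsub)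
  refine ⟨C, fun z hz m hm => ?_⟩
  obtain ⟨k, l, hl, hkl⟩ := g5_exists_box hm
  have h1 := hC' (z, (Th ^ k) m + (0, l)) ⟨hz, hkl⟩
  rw [hinv z (hKF hz) m hm k l hl] at h1
  exact h1

lemma TrInv.ev {G : E7 → ℝ} (h : TrInv G) {z : ℂ} (hz : z ∈ F) {m : V7} (hm : m.1 ≠ 0) (k : ℤ)
    {l : T4} (hl : l ∈ Lam) :
    (fun u => G (u, (Th ^ k) m + (0, l))) =ᶠ[𝓝 z] fun u => G (u, m) := by
  filter_upwards [isOpen_F.mem_nhds hz] with u hu
  exact h u hu m hm k l hl

/-- leafwise derivative -/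
def g5d (G : E7 → ℝ) (v : E7) : ℂ →L[ℝ] ℝ := fderiv ℝ (fun z => G (z, v.2)) v.1

/-- leafwise Laplacian -/
def g5l (G : E7 → ℝ) (v : E7) : ℝ := lap2 (fun z => G (z, v.2)) v.1

lemma TrInv.d {G : E7 → ℝ} (h : TrInv G) : TrInv (g5d G) := by
  intro z hz m hm k l hl
  exact (h.ev hz hm k hl).fderiv_eq

lemma TrInv.l {G : E7 → ℝ} (h : TrInv G) : TrInv (g5l G) := by
  intro z hz m hm k l hl
  exact lap2_congr (h.ev hz hm k hl)

lemma g5d_eq {G : E7 → ℝ} (hG : ContDiffOn ℝ ∞ G D) {v : E7} (hv : v ∈ D) :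
    g5d G v = (fderiv ℝ G v).comp (ContinuousLinearMap.inl ℝ ℂ V7) := by
  have hd : DifferentiableAt ℝ G (v.1, v.2) :=
    (hG.contDiffAt (isOpen_D.mem_nhds hv)).differentiableAt (by simp)
  apply ContinuousLinearMap.ext
  intro w
  exact d1_slice hd w

lemma continuousOn_g5d {G : E7 → ℝ} (hG : ContDiffOn ℝ ∞ G D) : ContinuousOn (g5d G) D := by
  have h1 : ContinuousOn (fderiv ℝ G) D :=
    (hG.fderiv_of_isOpen isOpen_D (m := ∞) (by simp)).continuousOn
  have h2 : ContinuousOn (fun v => (fderiv ℝ G v).comp (ContinuousLinearMap.inl ℝ ℂ V7)) D :=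
    h1.clm_comp continuousOn_const
  exact h2.congr fun v hv => g5d_eq hG hv

lemma continuousOn_g5l {G : E7 → ℝ} (hG : ContDiffOn ℝ ∞ G D) : ContinuousOn (g5l G) D := by
  have h1 : ContDiffOn ℝ ∞ (fderiv ℝ G) D := hG.fderiv_of_isOpen isOpen_D (by simp)
  have h2 : ∀ w : E7, ContinuousOn (fun v => fderiv ℝ (fun u => fderiv ℝ G u w) v w) D := by
    intro w
    have h3 : ContDiffOn ℝ ∞ (fun u => fderiv ℝ G u w) D := h1.clm_apply contDiffOn_const
    have h4 : ContinuousOn (fderiv ℝ (fun u => fderiv ℝ G u w)) D :=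
      (h3.fderiv_of_isOpen isOpen_D (m := ∞) (by simp)).continuousOn
    exact h4.clm_apply continuousOn_const
  have h5 : ContinuousOn (d1_lap G) D := (h2 e1).add (h2 (Complex.I • e1))
  exact h5.congr fun v hv => (d1_lap_eq hG hv).symm

/-- smooth functions on `D`, invariant under scaling, lattice and moves, give nice functions -/
lemma NF_of_D (c : ℝ) {G : E7 → ℝ} (hG : ContDiffOn ℝ ∞ G D) (hT : TrInv G) {g : ℂ × W → ℝ}
    (hg : InvY g) (h0 : ∀ z ∈ F, ∀ m ∈ N, m.1.1 = 0 → g (z, m) = 0)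
    (h1 : ∀ z ∈ F, ∀ m : W, m.1.1 ≠ 0 → g (z, m) = G (z, pic c m)) : NF g := by
  have hev : ∀ z ∈ F, ∀ m : W, m.1.1 ≠ 0 →
      (fun u => g (u, m)) =ᶠ[𝓝 z] fun u => G (u, pic c m) := by
    intro z hz m hm
    filter_upwards [isOpen_F.mem_nhds hz] with u hu
    exact h1 u hu m hm
  have hd : ∀ p ∈ DX, fderiv ℝ (fun z => g (z, p.2)) p.1 = g5d G (p.1, pic c p.2) :=
    fun p hp => (hev p.1 hp.1 p.2 hp.2).fderiv_eq
  have hl : ∀ p ∈ DX, lapZ g p = g5l G (p.1, pic c p.2) :=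
    fun p hp => lap2_congr (hev p.1 hp.1 p.2 hp.2)
  refine ⟨hg, h0, ?_, ?_, ?_, ?_, ?_⟩
  · intro m hm
    have h2 : ContDiffOn ℝ ∞ (fun z : ℂ => G (z, pic c m)) F :=
      hG.comp (contDiff_id.prodMk contDiff_const).contDiffOn fun z hz => ⟨hz, hm⟩
    exact h2.congr fun z hz => h1 z hz m hm
  · exact (hG.continuousOn.comp (g5_continuous_j c).continuousOn fun _ hp => iota_mem c hp).congr
      fun p hp => h1 p.1 hp.1 p.2 hp.2
  · intro v
    have h3 : ContinuousOn (fun p : ℂ × W => g5d G (p.1, pic c p.2)) DX :=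
      (continuousOn_g5d hG).comp (g5_continuous_j c).continuousOn fun _ hp => iota_mem c hp
    exact (h3.clm_apply continuousOn_const).congr fun p hp => by rw [hd p hp]
  · have h3 : ContinuousOn (fun p : ℂ × W => g5l G (p.1, pic c p.2)) DX :=
      (continuousOn_g5l hG).comp (g5_continuous_j c).continuousOn fun _ hp => iota_mem c hp
    exact h3.congr fun p hp => hl p hp
  · intro K hK hKF
    obtain ⟨C1, hC1⟩ := g5_bdd_on_D hG.continuousOn hT hK hKF
    obtain ⟨C2, hC2⟩ := g5_bdd_on_D (continuousOn_g5l hG) hT.l hK hKF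
    have hn : TrInv fun v => ‖g5d G v‖ := by
      intro z hz m hm k l hl'
      show ‖g5d G (z, (Th ^ k) m + (0, l))‖ = ‖g5d G (z, m)‖
      rw [hT.d z hz m hm k l hl']
    obtain ⟨C3, hC3⟩ := g5_bdd_on_D (continuousOn_g5d hG).norm hn hK hKF
    refine ⟨max C1 (max C2 C3), fun z hz m hm => ⟨?_, ?_, ?_⟩⟩
    · rw [h1 z (hKF hz) m hm]
      exact (hC1 z hz (pic c m) hm).trans (le_max_left _ _)
    · rw [hl (z, m) ⟨hKF hz, hm⟩]
      exact (hC2 z hz (pic c m) hm).trans ((le_max_left _ _).trans (le_max_right _ _))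
    · intro v
      have e := hd (z, m) ⟨hKF hz, hm⟩
      have e' : fderiv ℝ (fun z => g (z, m)) z = g5d G (z, pic c m) := e
      rw [e']
      have h4 := hC3 z hz (pic c m) hm
      rw [abs_norm] at h4
      calc |g5d G (z, pic c m) v| ≤ ‖g5d G (z, pic c m)‖ * ‖v‖ := (g5d G (z, pic c m)).le_opNorm v
        _ ≤ max C1 (max C2 C3) * ‖v‖ := by
          apply mul_le_mul_of_nonneg_right _ (norm_nonneg v)
          exact h4.trans ((le_max_right _ _).trans (le_max_right _ _))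

lemma TrInv_ppi (f : X → ℝ) : TrInv (fun v => f (ppi v)) := by
  intro z hz m hm k l hl
  have h : ((Th ^ k) m).1 ≠ 0 := by
    rw [Thz_fst]
    exact smul_ne_zero (zpow_ne_zero k lac_ne) hm
  show f (ppi (z, (Th ^ k) m + (0, l))) = f (ppi (z, m))
  rw [ppi_add hz h hl, ppi_scale hz hm]

/-- pull-backs of smooth functions are nice functions -/
lemma NF_pb (c : ℝ) {f : X → ℝ} (hf : ContMDiff 𝓘(ℝ, E7) 𝓘(ℝ, ℝ) ∞ f) : NF (pb c f) :=
  NF_of_D c (contDiffOn_comp_ppi hf) (TrInv_ppi f) (g5_InvY_pb c f)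
    (fun z _ m _ h => g5_pb_zero c f (p := (z, m)) h) fun z _ m h => g5_pb_of c f (p := (z, m)) h

lemma g5_measurableSet_x : MeasurableSet {p : ℂ × W | p.2.1.1 ≠ 0} :=
  (isOpen_ne.preimage (continuous_fst.comp (continuous_fst.comp continuous_snd))).measurableSet

/-- pull-backs of bounded Borel functions are densities -/
lemma Dens_pb (c : ℝ) {g : X → ℝ} (hg : Measurable g) (hb : ∃ C, ∀ x, |g x| ≤ C) :
    Dens (pb c g) := by
  refine ⟨?_, ?_, g5_InvY_pb c g⟩
  · unfold pb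
    exact Measurable.ite g5_measurableSet_x (hg.comp (measurable_iota c)) measurable_const
  · obtain ⟨C, hC⟩ := hb
    refine ⟨max C 0, fun p => ?_⟩
    by_cases h : p.2.1.1 = 0
    · rw [g5_pb_zero c g h, abs_zero]
      exact le_max_right _ _
    · rw [g5_pb_of c g h]
      exact (hC _).trans (le_max_left _ _)

/-- the measure on `X` -/
def nuc (c : ℝ) (ξ : Measure (ℂ × W)) : Measure X :=
  Measure.map (iota c) (ξ.withDensity (fun p => ENNReal.ofReal (eps none p.1)))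

variable {L : IY →ₗ[ℝ] ℝ} {ξ : Measure (ℂ × W)}

lemma g5_measurable_dep (b : Bd) : Measurable (dep b) := by
  unfold dep
  by_cases h : b = (0, false)
  · simp only [h, if_true]
    exact measurable_const.sub ((Real.measurable_log.comp measurable_norm).div_const _)
  · simp only [h, if_false]
    exact (Real.measurable_log.comp (measurable_norm.comp (measurable_id.sub_const _))).div_const _

lemma g5_measurable_eps (i : Mv) : Measurable (eps i) := by
  have hS : Measurable S := contDiff_S.continuous.measurable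
  cases i with
  | none =>
    unfold eps
    exact measurable_const.sub (Finset.measurable_sum _ fun b _ =>
      hS.comp (measurable_const.sub (g5_measurable_dep b)))
  | some b => exact hS.comp (measurable_const.sub (g5_measurable_dep b))

lemma g5_measurable_epsW : Measurable (fun p : ℂ × W => eps none p.1) :=
  (g5_measurable_eps none).comp measurable_fst

lemma Rep.g5_ae (hξ : Rep L ξ) : ∀ᵐ p ∂ξ, p ∈ F ×ˢ Sh := by
  rw [ae_iff]
  exact hξ.supp

lemma isFinite_nuc (c : ℝ) (hξ : Rep L ξ) : IsFiniteMeasure (nuc c ξ) := by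
  unfold nuc
  have : IsFiniteMeasure (ξ.withDensity (fun p => ENNReal.ofReal (eps none p.1))) := by
    constructor
    rw [withDensity_apply _ MeasurableSet.univ, Measure.restrict_univ]
    have hfin := hξ.fin (KF (1 / 3)) (isCompact_KF (by norm_num)) (KF_subset (by norm_num))
    have hms : MeasurableSet (KF (1 / 3) ×ˢ (univ : Set W)) :=
      (isCompact_KF (by norm_num : (0 : ℝ) < 1 / 3)).measurableSet.prod MeasurableSet.univ
    calc ∫⁻ p, ENNReal.ofReal (eps none p.1) ∂ξ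
        ≤ ∫⁻ p, (KF (1 / 3) ×ˢ (univ : Set W)).indicator (fun _ => 1) p ∂ξ := by
          apply lintegral_mono_ae
          filter_upwards [hξ.g5_ae] with p hp
          by_cases h : eps none p.1 = 0
          · rw [h, ENNReal.ofReal_zero]; exact zero_le
          · have h2 : p ∈ KF (1 / 3) ×ˢ (univ : Set W) := ⟨eps_none_ne hp.1 h, mem_univ _⟩
            rw [indicator_of_mem h2]
            rw [← ENNReal.ofReal_one]
            exact ENNReal.ofReal_le_ofReal (eps_le_one none hp.1)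
      _ = ξ (KF (1 / 3) ×ˢ (univ : Set W)) := by
          rw [lintegral_indicator hms, setLIntegral_one]
      _ < ⊤ := hfin
  exact Measure.isFiniteMeasure_map _ _

/-- integration on `X` -/
lemma integral_nuc (c : ℝ) (hξ : Rep L ξ) {h : X → ℝ} (hh : Measurable h)
    (hb : ∃ C, ∀ x, |h x| ≤ C) :
    ∫ x, h x ∂(nuc c ξ) = ∫ p, eps none p.1 * h (iota c p) ∂ξ := by
  unfold nuc
  rw [integral_map (measurable_iota c).aemeasurable hh.aestronglyMeasurable,
    integral_withDensity_eq_integral_toReal_smul g5_measurable_epsW.ennreal_ofReal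
      (Filter.Eventually.of_forall fun _ => ENNReal.ofReal_lt_top)]
  apply integral_congr_ae
  filter_upwards [hξ.g5_ae] with p hp
  rw [ENNReal.toReal_ofReal (eps_nonneg none hp.1), smul_eq_mul]

/-- integration against a finite measure as a functional -/
def intL (ν : Measure X) [IsFiniteMeasure ν] : C(X, ℝ) →ₗ[ℝ] ℝ where
  toFun h := ∫ x, h x ∂ν
  map_add' h h' := by
    have h1 : ∀ h : C(X, ℝ), Integrable (fun x => h x) ν := fun h =>
      h.continuous.integrable_of_hasCompactSupport (HasCompactSupport.of_compactSpace h)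
    exact integral_add (h1 h) (h1 h')
  map_smul' c h := by
    exact integral_const_mul c (fun x => h x)

/-- the functional is positive and harmonic -/
theorem posL_intL (ν : Measure X) [IsFiniteMeasure ν] : PosL (intL ν) := by
  intro h hh
  exact integral_nonneg hh

lemma g5_Dens_one : Dens (fun _ => 1) :=
  ⟨measurable_const, ⟨1, fun _ => by simp⟩, ⟨fun _ _ _ _ => rfl, fun _ _ _ _ _ => rfl⟩⟩

lemma g5_bdd_CX (h : C(X, ℝ)) : ∃ C, ∀ x, |h x| ≤ C := by
  obtain ⟨C, hC⟩ := isCompact_univ.exists_bound_of_continuousOn h.continuous.continuousOn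
  exact ⟨C, fun x => hC x (mem_univ x)⟩

theorem harmL_nuc (c : ℝ) (hξ : Rep L ξ) (hL : PH L) (h0 : ξ {p | p.2.1.1 = 0} = 0)
    [IsFiniteMeasure (nuc c ξ)] : HarmL (intL (nuc c ξ)) := by
  intro f hf h hfh
  show ∫ x, h x ∂(nuc c ξ) = 0
  rw [integral_nuc c hξ h.continuous.measurable (g5_bdd_CX h)]
  have hH := Harm.nf hξ g5_Dens_one (harm_one hL hξ) (NF_pb c hf)
  have hDX : ∀ᵐ p ∂ξ, p ∈ DX := by
    have h2 : ∀ᵐ p ∂ξ, ¬ p.2.1.1 = 0 := by
      rw [ae_iff]
      simpa using h0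
    filter_upwards [hξ.g5_ae, h2] with p hp hp2
    exact ⟨hp.1, hp2⟩
  rw [← hH, Measure.restrict_eq_self_of_ae_mem hDX]
  apply integral_congr_ae
  filter_upwards [hDX] with p hp
  have h3 := hfh (p.1, pic c p.2) (iota_mem c hp)
  have h4 : lapZ (pb c f) p = lap2 (fun z => f (ppi (z, pic c p.2))) p.1 := by
    apply lap2_congr
    filter_upwards [isOpen_F.mem_nhds hp.1] with u hu
    exact g5_pb_of c f (p := (u, p.2)) hp.2
  rw [mul_one, h4, ← h3, inv_mul_cancel_left₀ (sig_pos hp.1).ne']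
  rfl

theorem intL_one (c : ℝ) (hξ : Rep L ξ) [IsFiniteMeasure (nuc c ξ)] :
    intL (nuc c ξ) 1 = L oneY := by
  show ∫ x, (1 : C(X, ℝ)) x ∂(nuc c ξ) = L oneY
  rw [integral_nuc c hξ (1 : C(X, ℝ)).continuous.measurable (g5_bdd_CX 1), rep_eq hξ]
  rfl

end Pool.Agent.H5.EC
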