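import Pool.Agent.H5.EC.G5

/-! Part G5b: the currents are not closed. -/

open Set Topology MeasureTheory
open scoped Manifold ContDiff ENNReal

attribute [-instance] TopCat.of.chartedSpace

noncomputable section

namespace Pool.Agent.H5.EC

open Pool.Agent.Helper289.LamDefs

/-! ### metrics given by sums over the moves -/

/-- sum over the moves -/
def g5HB (b : Mv → W → ℝ) (z : ℂ) (m : W) : ℝ := ∑ i : Mv, eps i z * b i m

/-- data for a positive metric on a subset of `W` -/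
structure G5Bd (b : Mv → W → ℝ) (n : W → ℝ) (O : Set W) : Prop where
  cont : ∀ i, ContinuousOn (b i) O
  nonneg : ∀ i m, 0 ≤ b i m
  pos : ∀ m ∈ O, 0 < n m
  le : ∀ i m, b i m ≤ 4 * n m
  ge : ∀ i m, n m ≤ 4 * b i m

section HB

variable {b : Mv → W → ℝ} {n : W → ℝ} {O : Set W}

lemma G5Bd.HB_ge (h : G5Bd b n O) {z : ℂ} (hz : z ∈ F) (m : W) : n m ≤ 4 * g5HB b z m := by
  unfold g5HB
  calc n m = ∑ i : Mv, eps i z * n m := by rw [← Finset.sum_mul, sum_eps, one_mul]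
    _ ≤ ∑ i : Mv, eps i z * (4 * b i m) :=
        Finset.sum_le_sum fun i _ => mul_le_mul_of_nonneg_left (h.ge i m) (eps_nonneg i hz)
    _ = 4 * ∑ i : Mv, eps i z * b i m := by
        rw [Finset.mul_sum]
        exact Finset.sum_congr rfl fun i _ => by ring

lemma G5Bd.HB_pos (h : G5Bd b n O) {z : ℂ} (hz : z ∈ F) {m : W} (hm : m ∈ O) :
    0 < g5HB b z m := by
  have h1 := h.HB_ge hz m
  have h2 := h.pos m hm
  linarith

lemma g5HB_at (b : Mv → W → ℝ) (m : W) {z : ℂ} (hz : z ∈ F) :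
    ContDiffAt ℝ ∞ (fun u => g5HB b u m) z := by
  unfold g5HB
  exact ContDiffAt.sum fun i _ => (eps_at i hz).mul contDiffAt_const

lemma g5fd_HB (b : Mv → W → ℝ) (m : W) {z : ℂ} (hz : z ∈ F) (v : ℂ) :
    fderiv ℝ (fun u => g5HB b u m) z v = ∑ i : Mv, fderiv ℝ (eps i) z v * b i m :=
  fd_sum_prod _ (fun i _ => eps_at i hz) _ v

lemma g5lap_HB (b : Mv → W → ℝ) (m : W) {z : ℂ} (hz : z ∈ F) :
    lap2 (fun u => g5HB b u m) z = ∑ i : Mv, lap2 (eps i) z * b i m :=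
  lap_sum_prod _ (fun i _ => eps_at i hz) _

lemma g5cont_sum_prod {a : Mv → ℂ → ℝ} (ha : ∀ i, ContinuousOn (a i) F)
    (hb : ∀ i, ContinuousOn (b i) O) :
    ContinuousOn (fun x : ℂ × W => ∑ i : Mv, a i x.1 * b i x.2) (F ×ˢ O) := by
  refine continuousOn_finsetSum _ fun i _ => ?_
  exact ((ha i).comp continuousOn_fst fun x hx => hx.1).mul
    ((hb i).comp continuousOn_snd fun x hx => hx.2)

lemma G5Bd.cont_HB (h : G5Bd b n O) :
    ContinuousOn (fun x : ℂ × W => g5HB b x.1 x.2) (F ×ˢ O) := by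
  unfold g5HB
  exact g5cont_sum_prod (fun i => (contDiffOn_eps i).continuousOn) h.cont

lemma G5Bd.cont_fd (h : G5Bd b n O) (v : ℂ) :
    ContinuousOn (fun x : ℂ × W => fderiv ℝ (fun u => g5HB b u x.2) x.1 v) (F ×ˢ O) := by
  have h1 := g5cont_sum_prod (a := fun i z => fderiv ℝ (eps i) z v)
    (fun i => (lapaux_contDiffOn isOpen_F (contDiffOn_eps i) v).continuousOn) h.cont
  exact h1.congr fun x hx => g5fd_HB b x.2 hx.1 v

lemma G5Bd.cont_lap (h : G5Bd b n O) :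
    ContinuousOn (fun x : ℂ × W => lap2 (fun u => g5HB b u x.2) x.1) (F ×ˢ O) := by
  have h1 := g5cont_sum_prod (a := fun i z => lap2 (eps i) z)
    (fun i => (contDiffOn_lap2 isOpen_F (contDiffOn_eps i)).continuousOn) h.cont
  exact h1.congr fun x hx => g5lap_HB b x.2 hx.1

/-- the logarithm -/
def g5LB (b : Mv → W → ℝ) (p : ℂ × W) : ℝ := Real.log (g5HB b p.1 p.2)

lemma G5Bd.log_at (h : G5Bd b n O) {z : ℂ} (hz : z ∈ F) {m : W} (hm : m ∈ O) :
    ContDiffAt ℝ ∞ (fun u => g5LB b (u, m)) z :=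
  (g5HB_at b m hz).log (h.HB_pos hz hm).ne'

lemma G5Bd.fd_log (h : G5Bd b n O) {z : ℂ} (hz : z ∈ F) {m : W} (hm : m ∈ O) (v : ℂ) :
    fderiv ℝ (fun u => g5LB b (u, m)) z v =
      (g5HB b z m)⁻¹ * fderiv ℝ (fun u => g5HB b u m) z v := by
  have h1 : DifferentiableAt ℝ (fun u => g5HB b u m) z := (g5HB_at b m hz).differentiableAt (by simp)
  have := (h1.hasFDerivAt.log (h.HB_pos hz hm).ne').fderiv
  unfold g5LB
  simp only
  rw [this]
  simp

lemma G5Bd.lap_log (h : G5Bd b n O) {z : ℂ} (hz : z ∈ F) {m : W} (hm : m ∈ O) :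
    lap2 (fun u => g5LB b (u, m)) z = (g5HB b z m)⁻¹ * lap2 (fun u => g5HB b u m) z +
      (-((g5HB b z m) ^ 2)⁻¹) * gr2 (fun u => g5HB b u m) z := by
  have hne := (h.HB_pos hz hm).ne'
  unfold g5LB
  rw [lap2_comp (χ := Real.log) ((g5HB_at b m hz).of_le two_le_inf) (Real.contDiffAt_log.2 hne)]
  rw [Real.deriv_log']
  congr 2
  rw [deriv_inv']

lemma G5Bd.cont_log (h : G5Bd b n O) : ContinuousOn (g5LB b) (F ×ˢ O) :=
  h.cont_HB.log fun _ hx => (h.HB_pos hx.1 hx.2).ne'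

lemma G5Bd.cont_fd_log (h : G5Bd b n O) (v : ℂ) : ContinuousOn (fun x : ℂ × W =>
    fderiv ℝ (fun u => g5LB b (u, x.2)) x.1 v) (F ×ˢ O) := by
  have h1 := (h.cont_HB.inv₀ fun x hx => (h.HB_pos hx.1 hx.2).ne').mul (h.cont_fd v)
  exact h1.congr fun x hx => h.fd_log hx.1 hx.2 v

lemma G5Bd.cont_lap_log (h : G5Bd b n O) : ContinuousOn (fun x : ℂ × W =>
    lap2 (fun u => g5LB b (u, x.2)) x.1) (F ×ˢ O) := by
  have hg : ContinuousOn (fun x : ℂ × W => gr2 (fun u => g5HB b u x.2) x.1) (F ×ˢ O) := by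
    unfold gr2
    exact ((h.cont_fd 1).pow 2).add ((h.cont_fd Complex.I).pow 2)
  have h1 := ((h.cont_HB.inv₀ fun x hx => (h.HB_pos hx.1 hx.2).ne').mul h.cont_lap).add
    ((((h.cont_HB.pow 2).inv₀ fun x hx => pow_ne_zero 2 (h.HB_pos hx.1 hx.2).ne').neg).mul hg)
  exact h1.congr fun x hx => h.lap_log hx.1 hx.2

/-- bounds for the partition of unity over compact sets -/
lemma g5eps_bdd {K : Set ℂ} (hK : IsCompact K) (hKF : K ⊆ F) : ∃ C, 0 ≤ C ∧ ∀ z ∈ K,
    ∑ i : Mv, |lap2 (eps i) z| ≤ C ∧ ∀ v : ℂ, ∑ i : Mv, |fderiv ℝ (eps i) z v| ≤ C * ‖v‖ := by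
  have h1 : ∀ i : Mv, ∃ C, ∀ z ∈ K, ‖lap2 (eps i) z‖ ≤ C := fun i =>
    hK.exists_bound_of_continuousOn
      ((contDiffOn_lap2 isOpen_F (contDiffOn_eps i)).continuousOn.mono hKF)
  have h2 : ∀ i : Mv, ∃ C, ∀ z ∈ K, ‖fderiv ℝ (eps i) z‖ ≤ C := fun i =>
    hK.exists_bound_of_continuousOn
      (((contDiffOn_eps i).continuousOn_fderiv_of_isOpen isOpen_F (by simp)).mono hKF)
  choose C1 hC1 using h1
  choose C2 hC2 using h2
  refine ⟨∑ i : Mv, (|C1 i| + |C2 i|), Finset.sum_nonneg fun i _ => by positivity,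
    fun z hz => ⟨?_, fun v => ?_⟩⟩
  · refine Finset.sum_le_sum fun i _ => ?_
    have := hC1 i z hz
    rw [Real.norm_eq_abs] at this
    linarith [le_abs_self (C1 i), abs_nonneg (C2 i)]
  · rw [Finset.sum_mul]
    refine Finset.sum_le_sum fun i _ => ?_
    calc |fderiv ℝ (eps i) z v| ≤ ‖fderiv ℝ (eps i) z‖ * ‖v‖ := (fderiv ℝ (eps i) z).le_opNorm v
      _ ≤ (|C1 i| + |C2 i|) * ‖v‖ := by
        refine mul_le_mul_of_nonneg_right ?_ (norm_nonneg v)
        linarith [le_abs_self (C2 i), abs_nonneg (C1 i), hC2 i z hz]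

lemma G5Bd.sum_le (h : G5Bd b n O) {z : ℂ} (hz : z ∈ F) (m : W) (x : Mv → ℝ) {C : ℝ}
    (hC : ∑ i : Mv, |x i| ≤ C) : |∑ i : Mv, x i * b i m| ≤ 16 * C * g5HB b z m := by
  have h0 : 0 ≤ g5HB b z m := Finset.sum_nonneg fun i _ =>
    mul_nonneg (eps_nonneg i hz) (h.nonneg i m)
  calc |∑ i : Mv, x i * b i m| ≤ ∑ i : Mv, |x i * b i m| := Finset.abs_sum_le_sum_abs _ _
    _ ≤ ∑ i : Mv, |x i| * (16 * g5HB b z m) := by
        refine Finset.sum_le_sum fun i _ => ?_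
        rw [abs_mul, abs_of_nonneg (h.nonneg i m)]
        refine mul_le_mul_of_nonneg_left ?_ (abs_nonneg _)
        linarith [h.le i m, h.HB_ge hz m]
    _ = (∑ i : Mv, |x i|) * (16 * g5HB b z m) := by rw [Finset.sum_mul]
    _ ≤ C * (16 * g5HB b z m) := mul_le_mul_of_nonneg_right hC (by positivity)
    _ = 16 * C * g5HB b z m := by ring

lemma G5Bd.bdd (h : G5Bd b n O) {K : Set ℂ} (hK : IsCompact K) (hKF : K ⊆ F) :
    ∃ C, 0 ≤ C ∧ ∀ z ∈ K, ∀ m ∈ O, |lap2 (fun u => g5LB b (u, m)) z| ≤ C ∧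
      ∀ v : ℂ, |fderiv ℝ (fun u => g5LB b (u, m)) z v| ≤ C * ‖v‖ := by
  obtain ⟨C, hC0, hC⟩ := g5eps_bdd hK hKF
  have hfd : ∀ z ∈ K, ∀ m ∈ O, ∀ v : ℂ, |fderiv ℝ (fun u => g5LB b (u, m)) z v| ≤ 16 * C * ‖v‖ := by
    intro z hz m hm v
    have hp := h.HB_pos (hKF hz) hm
    rw [h.fd_log (hKF hz) hm, g5fd_HB b m (hKF hz), abs_mul, abs_inv, abs_of_pos hp,
      inv_mul_le_iff₀ hp]
    have := h.sum_le (hKF hz) m (fun i => fderiv ℝ (eps i) z v) ((hC z hz).2 v)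
    calc _ ≤ _ := this
      _ = _ := by ring
  refine ⟨16 * C + 2 * (16 * C) ^ 2, by positivity, fun z hz m hm => ⟨?_, fun v => ?_⟩⟩
  · have hp := h.HB_pos (hKF hz) hm
    rw [h.lap_log (hKF hz) hm]
    have e1 : |(g5HB b z m)⁻¹ * lap2 (fun u => g5HB b u m) z| ≤ 16 * C := by
      rw [g5lap_HB b m (hKF hz), abs_mul, abs_inv, abs_of_pos hp, inv_mul_le_iff₀ hp]
      have := h.sum_le (hKF hz) m (fun i => lap2 (eps i) z) (hC z hz).1
      linarith
    have e2 : (-((g5HB b z m) ^ 2)⁻¹) * gr2 (fun u => g5HB b u m) z =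
        -((fderiv ℝ (fun u => g5LB b (u, m)) z 1) ^ 2 +
          (fderiv ℝ (fun u => g5LB b (u, m)) z Complex.I) ^ 2) := by
      rw [h.fd_log (hKF hz) hm, h.fd_log (hKF hz) hm]
      unfold gr2
      field_simp
    rw [e2]
    have e3 := hfd z hz m hm 1
    have e4 := hfd z hz m hm Complex.I
    rw [norm_one, mul_one] at e3
    rw [Complex.norm_I, mul_one] at e4
    have e5 : (fderiv ℝ (fun u => g5LB b (u, m)) z 1) ^ 2 ≤ (16 * C) ^ 2 := sq_le_sq' (by
      linarith [neg_abs_le (fderiv ℝ (fun u => g5LB b (u, m)) z 1)]) ((le_abs_self _).trans e3)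
    have e6 : (fderiv ℝ (fun u => g5LB b (u, m)) z Complex.I) ^ 2 ≤ (16 * C) ^ 2 := sq_le_sq' (by
      linarith [neg_abs_le (fderiv ℝ (fun u => g5LB b (u, m)) z Complex.I)])
      ((le_abs_self _).trans e4)
    have e7 := abs_le.1 e1
    rw [abs_le]
    constructor
    · linarith [e7.1]
    · have := sq_nonneg (fderiv ℝ (fun u => g5LB b (u, m)) z 1)
      have := sq_nonneg (fderiv ℝ (fun u => g5LB b (u, m)) z Complex.I)
      have := sq_nonneg (16 * C)
      linarith [e7.2]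
  · refine (hfd z hz m hm v).trans (mul_le_mul_of_nonneg_right ?_ (norm_nonneg v))
    have := sq_nonneg (16 * C)
    linarith

end HB

variable {L : IY →ₗ[ℝ] ℝ} {ξ : Measure (ℂ × W)}

/-! ### the ratio of the two metrics -/

/-- the logarithm of the ratio of the two metrics -/
def VV (p : ℂ × W) : ℝ := Real.log (HH p.1 p.2.1) - Real.log (HP (1 : ℂ) p.1 p.2.1)

/-- the part of the fibre where `x ≠ 0` -/
def g5O : Set W := {m | m.1.1 ≠ 0}

/-- the two families -/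
def g5b1 (i : Mv) (m : W) : ℝ := nsq (RM (1 : ℂ) i m.1)
def g5b2 (i : Mv) (m : W) : ℝ := nsq2 (RM (1 : ℂ) i m.1).1

lemma g5_DX : DX = F ×ˢ g5O := rfl

lemma g5_nsq2_pos {x : ℂ × ℂ} (hx : x ≠ 0) : 0 < nsq2 x := by
  have h : x.1 ≠ 0 ∨ x.2 ≠ 0 := by
    by_contra h
    push Not at h
    exact hx (Prod.ext h.1 h.2)
  unfold nsq2
  rcases h with h | h
  · have := norm_pos_iff.2 h
    positivity
  · have := norm_pos_iff.2 h
    positivity

lemma g5_ne {m : W} (hm : m ∈ g5O) : m.1 ≠ 0 := fun h => hm (by rw [h]; rfl)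

lemma g5_continuous_nsq2 : Continuous nsq2 := by
  unfold nsq2
  fun_prop

lemma g5_Bd1 : G5Bd g5b1 (fun m => nsq m.1) g5O where
  cont i := ((continuous_nsqRM i).comp continuous_fst).continuousOn
  nonneg _ _ := nsq_nonneg _
  pos _ hm := nsq_pos3 (g5_ne hm)
  le i m := nsq_RM_le i m.1
  ge i m := nsq_RM_ge i m.1

lemma g5_Bd2 : G5Bd g5b2 (fun m => nsq2 m.1.1) g5O where
  cont i := (g5_continuous_nsq2.comp (continuous_fst.comp
    ((RM (1 : ℂ) i).continuous.comp continuous_fst))).continuousOn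
  nonneg i m := by unfold g5b2 nsq2; positivity
  pos m hm := g5_nsq2_pos hm
  le i m := nsq2_RM_le 1 i m.1
  ge i m := nsq2_RM_ge 1 i m.1

lemma g5_HH (z : ℂ) (m : W) : HH z m.1 = g5HB g5b1 z m := rfl
lemma g5_HP (z : ℂ) (m : W) : HP (1 : ℂ) z m.1 = g5HB g5b2 z m := rfl
lemma g5_VV (p : ℂ × W) : VV p = g5LB g5b1 p - g5LB g5b2 p := rfl

lemma VV_nonneg {p : ℂ × W} (hp : p ∈ DX) : 0 ≤ VV p := by
  have h2 : 0 < HP (1 : ℂ) p.1 p.2.1 := by
    rw [g5_HP]
    exact g5_Bd2.HB_pos hp.1 hp.2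
  have h3 : HP (1 : ℂ) p.1 p.2.1 ≤ HH p.1 p.2.1 := by
    unfold HP HH
    refine Finset.sum_le_sum fun i _ => mul_le_mul_of_nonneg_left ?_ (eps_nonneg i hp.1)
    unfold nsq nsq2
    have := sq_nonneg ‖((RM (1 : ℂ) i) p.2.1).2‖
    linarith
  unfold VV
  linarith [Real.log_le_log h2 h3]

lemma g5_VV_at {z : ℂ} (hz : z ∈ F) {m : W} (hm : m ∈ g5O) :
    ContDiffAt ℝ ∞ (fun u => VV (u, m)) z :=
  (g5_Bd1.log_at hz hm).sub (g5_Bd2.log_at hz hm)

lemma g5_VV_fd {z : ℂ} (hz : z ∈ F) {m : W} (hm : m ∈ g5O) (v : ℂ) :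
    fderiv ℝ (fun u => VV (u, m)) z v =
      fderiv ℝ (fun u => g5LB g5b1 (u, m)) z v - fderiv ℝ (fun u => g5LB g5b2 (u, m)) z v := by
  have h1 : DifferentiableAt ℝ (fun u => g5LB g5b1 (u, m)) z :=
    (g5_Bd1.log_at hz hm).differentiableAt (by simp)
  have h2 : DifferentiableAt ℝ (fun u => g5LB g5b2 (u, m)) z :=
    (g5_Bd2.log_at hz hm).differentiableAt (by simp)
  have : (fun u => VV (u, m)) = fun u => g5LB g5b1 (u, m) - g5LB g5b2 (u, m) := rfl
  rw [this, fderiv_fun_sub h1 h2]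
  rfl

lemma g5_VV_lap {z : ℂ} (hz : z ∈ F) {m : W} (hm : m ∈ g5O) :
    lapZ VV (z, m) =
      lap2 (fun u => g5LB g5b1 (u, m)) z - lap2 (fun u => g5LB g5b2 (u, m)) z :=
  lap2_sub ((g5_Bd1.log_at hz hm).of_le two_le_inf) ((g5_Bd2.log_at hz hm).of_le two_le_inf)

lemma g5_cont_VV : ContinuousOn VV DX := g5_Bd1.cont_log.sub g5_Bd2.cont_log

lemma g5_cont_VV_fd (v : ℂ) :
    ContinuousOn (fun p : ℂ × W => fderiv ℝ (fun z => VV (z, p.2)) p.1 v) DX :=
  ((g5_Bd1.cont_fd_log v).sub (g5_Bd2.cont_fd_log v)).congr fun _ hp => g5_VV_fd hp.1 hp.2 v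

lemma g5_cont_VV_lap : ContinuousOn (lapZ VV) DX :=
  (g5_Bd1.cont_lap_log.sub g5_Bd2.cont_lap_log).congr fun _ hp => g5_VV_lap hp.1 hp.2

lemma g5_VV_bdd {K : Set ℂ} (hK : IsCompact K) (hKF : K ⊆ F) :
    ∃ C, 0 ≤ C ∧ ∀ z ∈ K, ∀ m ∈ g5O, |lapZ VV (z, m)| ≤ C ∧
      ∀ v : ℂ, |fderiv ℝ (fun z => VV (z, m)) z v| ≤ C * ‖v‖ := by
  obtain ⟨C1, h1, h1'⟩ := g5_Bd1.bdd hK hKF
  obtain ⟨C2, h2, h2'⟩ := g5_Bd2.bdd hK hKF
  refine ⟨C1 + C2, by positivity, fun z hz m hm => ⟨?_, fun v => ?_⟩⟩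
  · rw [g5_VV_lap (hKF hz) hm]
    exact (abs_sub _ _).trans (add_le_add (h1' z hz m hm).1 (h2' z hz m hm).1)
  · rw [g5_VV_fd (hKF hz) hm, add_mul]
    exact (abs_sub _ _).trans (add_le_add ((h1' z hz m hm).2 v) ((h2' z hz m hm).2 v))

/-- leafwise derivatives of `VV` are bounded over compact sets -/
lemma VV_bdd {K : Set ℂ} (hK : IsCompact K) (hKF : K ⊆ F) : ∃ C, ∀ z ∈ K, ∀ m : W, m.1.1 ≠ 0 →
    |lapZ VV (z, m)| ≤ C ∧ gr2 (fun z => VV (z, m)) z ≤ C := by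
  obtain ⟨C, h0, h⟩ := g5_VV_bdd hK hKF
  refine ⟨C + 2 * C ^ 2, fun z hz m hm => ⟨?_, ?_⟩⟩
  · refine (h z hz m hm).1.trans ?_
    have := sq_nonneg C
    linarith
  · have e3 := (h z hz m hm).2 1
    have e4 := (h z hz m hm).2 Complex.I
    rw [norm_one, mul_one] at e3
    rw [Complex.norm_I, mul_one] at e4
    unfold gr2
    have e5 := sq_le_sq' (neg_le_of_abs_le e3) (le_of_abs_le e3)
    have e6 := sq_le_sq' (neg_le_of_abs_le e4) (le_of_abs_le e4)
    linarith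

/-! ### truncation -/

/-- the truncating function -/
def g5chi (n t : ℝ) : ℝ := n * t / (n + t)

lemma g5chi_hasDerivAt {n t : ℝ} (h : n + t ≠ 0) :
    HasDerivAt (g5chi n) (n ^ 2 / (n + t) ^ 2) t := by
  have h1 : HasDerivAt (fun t : ℝ => n * t) n t := by
    simpa using (hasDerivAt_id t).const_mul n
  have h2 : HasDerivAt (fun t : ℝ => n + t) 1 t := by
    simpa using (hasDerivAt_id t).const_add n
  have h3 := h1.div h2 h
  have e : (n * (n + t) - n * t * 1) / (n + t) ^ 2 = n ^ 2 / (n + t) ^ 2 := by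
    congr 1
    ring
  rw [e] at h3
  exact h3

lemma g5chi_deriv {n t : ℝ} (h : n + t ≠ 0) : deriv (g5chi n) t = n ^ 2 / (n + t) ^ 2 :=
  (g5chi_hasDerivAt h).deriv

lemma g5chi_deriv2 {n t : ℝ} (h : 0 < n + t) :
    deriv (deriv (g5chi n)) t = -(2 * n ^ 2 / (n + t) ^ 3) := by
  have h1 : deriv (g5chi n) =ᶠ[𝓝 t] fun t => n ^ 2 / (n + t) ^ 2 := by
    have : {s : ℝ | 0 < n + s} ∈ 𝓝 t := (isOpen_lt continuous_const (by fun_prop)).mem_nhds h
    filter_upwards [this] with s hs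
    exact g5chi_deriv (ne_of_gt hs)
  rw [h1.deriv_eq]
  have h2 : HasDerivAt (fun t : ℝ => (n + t) ^ 2) (2 * (n + t)) t := by
    have h3 : HasDerivAt (fun t : ℝ => n + t) 1 t := by
      simpa using (hasDerivAt_id t).const_add n
    have h5 : HasDerivAt (fun t : ℝ => (n + t) ^ 2) (((2 : ℕ) : ℝ) * (n + t) ^ (2 - 1) * 1) t :=
      h3.pow 2
    simpa using h5
  have h4 := ((hasDerivAt_const t (n ^ 2)).div h2 (pow_ne_zero 2 h.ne')).deriv
  have e : (fun t : ℝ => n ^ 2 / (n + t) ^ 2) = (fun _ => n ^ 2) / fun t => (n + t) ^ 2 := rfl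
  rw [e, h4]
  have := h.ne'
  field_simp
  ring

lemma g5chi_at {n t : ℝ} (h : n + t ≠ 0) (k : WithTop ℕ∞) : ContDiffAt ℝ k (g5chi n) t := by
  unfold g5chi
  exact (contDiffAt_const.mul contDiffAt_id).div (contDiffAt_const.add contDiffAt_id) h

open Classical in
/-- truncation of `VV` -/
def g5G (n : ℝ) (p : ℂ × W) : ℝ := if p.2.1.1 ≠ 0 then n * VV p / (n + VV p) else 0

lemma g5G_of (n : ℝ) {m : W} (hm : m ∈ g5O) :
    (fun z => g5G n (z, m)) = fun z => g5chi n (VV (z, m)) := by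
  funext z
  unfold g5G g5chi
  exact if_pos hm

lemma g5G_lap {n : ℝ} (hn : 0 < n) {z : ℂ} (hz : z ∈ F) {m : W} (hm : m ∈ g5O) :
    lapZ (g5G n) (z, m) = n ^ 2 / (n + VV (z, m)) ^ 2 * lapZ VV (z, m) +
      (-(2 * n ^ 2 / (n + VV (z, m)) ^ 3)) * gr2 (fun u => VV (u, m)) z := by
  have h0 : 0 ≤ VV (z, m) := VV_nonneg (p := (z, m)) ⟨hz, hm⟩
  have h1 : 0 < n + VV (z, m) := by linarith
  unfold lapZ
  simp only
  rw [g5G_of n hm, lap2_comp ((g5_VV_at hz hm).of_le two_le_inf) (g5chi_at h1.ne' 2),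
    g5chi_deriv h1.ne', g5chi_deriv2 h1]

lemma g5G_fd {n : ℝ} (hn : 0 < n) {z : ℂ} (hz : z ∈ F) {m : W} (hm : m ∈ g5O) (v : ℂ) :
    fderiv ℝ (fun u => g5G n (u, m)) z v =
      n ^ 2 / (n + VV (z, m)) ^ 2 * fderiv ℝ (fun u => VV (u, m)) z v := by
  have h0 : 0 ≤ VV (z, m) := VV_nonneg (p := (z, m)) ⟨hz, hm⟩
  have h1 : 0 < n + VV (z, m) := by linarith
  have h2 : DifferentiableAt ℝ (fun u => VV (u, m)) z := (g5_VV_at hz hm).differentiableAt (by simp)
  rw [g5G_of n hm]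
  have h3 := (g5chi_hasDerivAt h1.ne').comp_hasFDerivAt z h2.hasFDerivAt
  have h4 : fderiv ℝ (fun z => g5chi n (VV (z, m))) z =
      (n ^ 2 / (n + VV (z, m)) ^ 2) • fderiv ℝ (fun u => VV (u, m)) z := h3.fderiv
  rw [h4]
  simp

/-! ### equivariance of the quotient metric -/

lemma g5_HP_mv {T : Type} [NormedAddCommGroup T] [NormedSpace ℂ T] (v : T) {b : Bd} {z : ℂ}
    (hz : z ∈ U b) (p : (ℂ × ℂ) × T) : HP v (mv b z) (RM v (some b) p) = HP v z p := by
  have h1 : HP v z p = S (dep b z) * nsq2 (RM v none p).1 +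
      S (1 - dep b z) * nsq2 (RM v (some b) p).1 :=
    sum_eps_mv (G := fun i => nsq2 (RM v i p).1) hz
  have h2 : HP v (mv b z) (RM v (some b) p) =
      S (dep b.inv (mv b z)) * nsq2 (RM v none (RM v (some b) p)).1 +
      S (1 - dep b.inv (mv b z)) * nsq2 (RM v (some b.inv) (RM v (some b) p)).1 :=
    sum_eps_mv (G := fun i => nsq2 (RM v i (RM v (some b) p)).1) (mv_mem hz)
  have h3 : RM v (some b.inv) (RM v (some b) p) = p := RM_inv_apply v (some b) p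
  rw [h2, h1, dep_mv hz, h3, RM_none, RM_none, sub_sub_cancel]
  ring

lemma g5_HP_act {T : Type} [NormedAddCommGroup T] [NormedSpace ℂ T] (v : T) {i : Mv} {z : ℂ}
    (hz : z ∈ dom i) (p : (ℂ × ℂ) × T) : HP v (act i z) (RM v i p) = HP v z p := by
  cases i with
  | none => rfl
  | some b => exact g5_HP_mv v hz p

lemma g5_nsq2_smul (c : ℂ) (x : ℂ × ℂ) : nsq2 (c • x) = ‖c‖ ^ 2 * nsq2 x := by
  unfold nsq2
  simp only [Prod.smul_fst, Prod.smul_snd, smul_eq_mul, norm_mul]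
  ring

/-- the quotient metric depends only on `x` -/
lemma g5_HP_fst {T : Type} [NormedAddCommGroup T] [NormedSpace ℂ T] (v : T) (z : ℂ)
    (p : (ℂ × ℂ) × T) : HP v z p = HP (0 : ℂ) z (p.1, 0) := by
  unfold HP
  exact Finset.sum_congr rfl fun i _ => by rw [RM_fst v i p]

lemma g5_HP_smul (z : ℂ) (c : ℂ) (x : ℂ × ℂ) :
    HP (0 : ℂ) z (c • x, 0) = ‖c‖ ^ 2 * HP (0 : ℂ) z (x, 0) := by
  have e : ((c • x, 0) : (ℂ × ℂ) × ℂ) = c • (x, (0 : ℂ)) := Prod.ext rfl (smul_zero c).symm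
  unfold HP
  rw [Finset.mul_sum]
  refine Finset.sum_congr rfl fun i _ => ?_
  rw [e, map_smul, Prod.smul_fst, g5_nsq2_smul]
  ring

lemma g5_HP_pos {T : Type} [NormedAddCommGroup T] [NormedSpace ℂ T] (v : T) {z : ℂ} (hz : z ∈ F)
    {p : (ℂ × ℂ) × T} (hp : p.1 ≠ 0) : 0 < HP v z p := by
  have h2 := g5_nsq2_pos hp
  have h1 : nsq2 p.1 ≤ 4 * HP v z p := by
    unfold HP
    calc nsq2 p.1 = ∑ i : Mv, eps i z * nsq2 p.1 := by rw [← Finset.sum_mul, sum_eps, one_mul]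
      _ ≤ ∑ i : Mv, eps i z * (4 * nsq2 (RM v i p).1) :=
          Finset.sum_le_sum fun i _ => mul_le_mul_of_nonneg_left (nsq2_RM_ge v i p) (eps_nonneg i hz)
      _ = 4 * ∑ i : Mv, eps i z * nsq2 (RM v i p).1 := by
          rw [Finset.mul_sum]
          exact Finset.sum_congr rfl fun i _ => by ring
  linarith

lemma g5_VV_th {z : ℂ} (hz : z ∈ F) {m : W} (hm : m ∈ g5O) : VV (z, th 1 m) = VV (z, m) := by
  have e : (th 1 m).1 = (la : ℂ) • m.1 := by
    rw [th_apply, zpow_one]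
  have hl : (la ^ 2 : ℝ) ≠ 0 := pow_ne_zero 2 la_ne
  have h1 : HH z (th 1 m).1 = la ^ 2 * HH z m.1 := by
    rw [e, HH_smul, Complex.norm_real, Real.norm_of_nonneg la_pos.le]
  have h2 : HP (1 : ℂ) z (th 1 m).1 = la ^ 2 * HP (1 : ℂ) z m.1 := by
    rw [g5_HP_fst, e, Prod.smul_fst, g5_HP_smul, Complex.norm_real, Real.norm_of_nonneg la_pos.le,
      ← g5_HP_fst]
  unfold VV
  simp only
  rw [h1, h2, Real.log_mul hl (HH_pos hz (g5_ne hm)).ne', Real.log_mul hl (g5_HP_pos 1 hz hm).ne']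
  ring

lemma g5_VV_mv {b : Bd} {z : ℂ} (hz : z ∈ U b) (m : W) :
    VV (mv b z, rho (some b) m) = VV (z, m) := by
  unfold VV
  simp only [rho_apply]
  rw [HH_mv hz, g5_HP_mv 1 hz]

/-- bounded truncations of `VV` -/
lemma NF_VV' (n : ℝ) (hn : 0 < n) : NF (g5G n) where
  inv := by
    constructor
    · intro z hz m hm
      unfold g5G
      simp only
      by_cases h : m.1.1 ≠ 0
      · rw [if_pos h, if_pos (th_x.2 h), g5_VV_th hz h]
      · rw [if_neg h, if_neg (fun h' => h (th_x.1 h'))]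
    · intro b z hz m hm
      unfold g5G
      simp only
      by_cases h : m.1.1 ≠ 0
      · rw [if_pos h, if_pos (rho_x.2 h), g5_VV_mv hz m]
      · rw [if_neg h, if_neg (fun h' => h (rho_x.1 h'))]
  zero := by
    intro z hz m hm h
    unfold g5G
    exact if_neg (by simpa using h)
  smooth := by
    intro m hm
    rw [g5G_of n hm]
    intro z hz
    have h0 : 0 ≤ VV (z, m) := VV_nonneg (p := (z, m)) ⟨hz, hm⟩
    have h1 : n + VV (z, m) ≠ 0 := by linarith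
    exact ((g5chi_at h1 ∞).comp z (g5_VV_at hz hm)).contDiffWithinAt
  cont := by
    have h : ContinuousOn (fun p : ℂ × W => n * VV p / (n + VV p)) DX :=
      (continuousOn_const.mul g5_cont_VV).div (continuousOn_const.add g5_cont_VV)
        fun p hp => by linarith [VV_nonneg hp]
    refine h.congr fun p hp => ?_
    unfold g5G
    exact if_pos hp.2
  contd := by
    intro v
    have hne : ∀ p ∈ DX, n + VV p ≠ 0 := fun p hp => by linarith [VV_nonneg hp]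
    have h : ContinuousOn (fun p : ℂ × W => n ^ 2 / (n + VV p) ^ 2 *
        fderiv ℝ (fun u => VV (u, p.2)) p.1 v) DX :=
      (continuousOn_const.div ((continuousOn_const.add g5_cont_VV).pow 2)
        fun p hp => pow_ne_zero 2 (hne p hp)).mul (g5_cont_VV_fd v)
    exact h.congr fun p hp => g5G_fd hn hp.1 hp.2 v
  contL := by
    have hg : ContinuousOn (fun p : ℂ × W => gr2 (fun u => VV (u, p.2)) p.1) DX := by
      unfold gr2
      exact ((g5_cont_VV_fd 1).pow 2).add ((g5_cont_VV_fd Complex.I).pow 2)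
    have hne : ∀ p ∈ DX, n + VV p ≠ 0 := fun p hp => by linarith [VV_nonneg hp]
    have h : ContinuousOn (fun p : ℂ × W => n ^ 2 / (n + VV p) ^ 2 * lapZ VV p +
        (-(2 * n ^ 2 / (n + VV p) ^ 3)) * gr2 (fun u => VV (u, p.2)) p.1) DX :=
      ((continuousOn_const.div ((continuousOn_const.add g5_cont_VV).pow 2)
        fun p hp => pow_ne_zero 2 (hne p hp)).mul g5_cont_VV_lap).add
      (((continuousOn_const.div ((continuousOn_const.add g5_cont_VV).pow 3)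
        fun p hp => pow_ne_zero 3 (hne p hp)).neg).mul hg)
    exact h.congr fun p hp => g5G_lap hn hp.1 hp.2
  bdd := by
    intro K hK hKF
    obtain ⟨C, h0, h⟩ := g5_VV_bdd hK hKF
    have q1 : ∀ t : ℝ, 0 ≤ t → 0 ≤ n ^ 2 / (n + t) ^ 2 ∧ n ^ 2 / (n + t) ^ 2 ≤ 1 := by
      intro t ht
      refine ⟨by positivity, ?_⟩
      rw [div_le_one (by positivity)]
      exact pow_le_pow_left₀ hn.le (by linarith) 2
    have q2 : ∀ t : ℝ, 0 ≤ t → 0 ≤ 2 * n ^ 2 / (n + t) ^ 3 ∧ 2 * n ^ 2 / (n + t) ^ 3 ≤ 2 / n := by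
      intro t ht
      refine ⟨by positivity, ?_⟩
      rw [div_le_div_iff₀ (by positivity) hn]
      have : n ^ 3 ≤ (n + t) ^ 3 := pow_le_pow_left₀ hn.le (by linarith) 3
      linarith
    have q3 : ∀ t : ℝ, 0 ≤ t → 0 ≤ n * t / (n + t) ∧ n * t / (n + t) ≤ n := by
      intro t ht
      refine ⟨by positivity, ?_⟩
      rw [div_le_iff₀ (by positivity)]
      nlinarith
    refine ⟨n + C + 2 / n * (2 * C ^ 2), fun z hz m hm => ?_⟩
    have hV : 0 ≤ VV (z, m) := VV_nonneg (p := (z, m)) ⟨hKF hz, hm⟩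
    have hc : 0 ≤ 2 / n * (2 * C ^ 2) := by positivity
    have e3 := (h z hz m hm).2 1
    have e4 := (h z hz m hm).2 Complex.I
    rw [norm_one, mul_one] at e3
    rw [Complex.norm_I, mul_one] at e4
    have hgr : 0 ≤ gr2 (fun u => VV (u, m)) z ∧ gr2 (fun u => VV (u, m)) z ≤ 2 * C ^ 2 := by
      unfold gr2
      have e5 := sq_le_sq' (neg_le_of_abs_le e3) (le_of_abs_le e3)
      have e6 := sq_le_sq' (neg_le_of_abs_le e4) (le_of_abs_le e4)
      exact ⟨by positivity, by linarith⟩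
    refine ⟨?_, ?_, fun v => ?_⟩
    · have : g5G n (z, m) = n * VV (z, m) / (n + VV (z, m)) := by
        unfold g5G
        exact if_pos hm
      rw [this, abs_of_nonneg (q3 _ hV).1]
      linarith [(q3 _ hV).2]
    · rw [g5G_lap hn (hKF hz) hm]
      refine (abs_add_le _ _).trans ?_
      have f1 : |n ^ 2 / (n + VV (z, m)) ^ 2 * lapZ VV (z, m)| ≤ C := by
        rw [abs_mul, abs_of_nonneg (q1 _ hV).1]
        calc _ ≤ 1 * |lapZ VV (z, m)| :=
              mul_le_mul_of_nonneg_right (q1 _ hV).2 (abs_nonneg _)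
          _ ≤ C := by rw [one_mul]; exact (h z hz m hm).1
      have f2 : |(-(2 * n ^ 2 / (n + VV (z, m)) ^ 3)) * gr2 (fun u => VV (u, m)) z| ≤
          2 / n * (2 * C ^ 2) := by
        rw [abs_mul, abs_neg, abs_of_nonneg (q2 _ hV).1, abs_of_nonneg hgr.1]
        exact mul_le_mul (q2 _ hV).2 hgr.2 hgr.1 (by positivity)
      linarith
    · rw [g5G_fd hn (hKF hz) hm, abs_mul, abs_of_nonneg (q1 _ hV).1]
      calc _ ≤ 1 * |fderiv ℝ (fun u => VV (u, m)) z v| :=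
            mul_le_mul_of_nonneg_right (q1 _ hV).2 (abs_nonneg _)
        _ ≤ C * ‖v‖ := by rw [one_mul]; exact (h z hz m hm).2 v
        _ ≤ _ := mul_le_mul_of_nonneg_right (by linarith) (norm_nonneg v)

open Classical in
/-- bounded truncations of `VV` -/
lemma NF_VV (n : ℝ) (hn : 0 < n) :
    NF (fun p => if p.2.1.1 ≠ 0 then n * VV p / (n + VV p) else 0) := by
  have h := NF_VV' n hn
  have e : g5G n = fun p => if p.2.1.1 ≠ 0 then n * VV p / (n + VV p) else 0 := by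
    funext p
    unfold g5G
    congr
  rwa [e] at h

/-! ### the Laplacian of `VV` integrates to zero -/

lemma g5_meas_DX : MeasurableSet DX := isOpen_DX.measurableSet

/-- integrability of functions bounded over the core -/
lemma g5_integrable (hξ : Rep L ξ) {h : ℂ × W → ℝ}
    (hm : AEStronglyMeasurable (fun p => eps none p.1 * h p) (ξ.restrict DX))
    {C : ℝ} (hb : ∀ p ∈ DX, p.1 ∈ KF (1 / 3) → |h p| ≤ C) :
    Integrable (fun p => eps none p.1 * h p) (ξ.restrict DX) := by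
  have hK : IsCompact (KF (1 / 3)) := isCompact_KF (by norm_num)
  have hKF : KF (1 / 3) ⊆ F := KF_subset (by norm_num)
  have hfin := hξ.fin _ hK hKF
  have hms : MeasurableSet (KF (1 / 3) ×ˢ (univ : Set W)) :=
    hK.isClosed.measurableSet.prod MeasurableSet.univ
  have hI : Integrable ((KF (1 / 3) ×ˢ (univ : Set W)).indicator fun _ => |C|) (ξ.restrict DX) := by
    rw [integrable_indicator_iff hms]
    refine integrableOn_const (ne_of_lt ?_)
    exact lt_of_le_of_lt (Measure.restrict_apply_le _ _) hfin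
  refine hI.mono' hm ?_
  rw [ae_restrict_iff' g5_meas_DX]
  refine Filter.Eventually.of_forall fun p hp => ?_
  rw [Real.norm_eq_abs]
  by_cases h0 : eps none p.1 = 0
  · rw [h0, zero_mul, abs_zero]
    exact indicator_nonneg (fun _ _ => abs_nonneg C) p
  · have hk : p.1 ∈ KF (1 / 3) := eps_none_ne hp.1 h0
    rw [indicator_of_mem (show p ∈ KF (1 / 3) ×ˢ (univ : Set W) from ⟨hk, mem_univ _⟩)]
    rw [abs_mul, abs_of_nonneg (eps_nonneg none hp.1)]
    calc eps none p.1 * |h p| ≤ 1 * |h p| :=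
          mul_le_mul_of_nonneg_right (eps_le_one none hp.1) (abs_nonneg _)
      _ ≤ |C| := by rw [one_mul]; exact (hb p hp hk).trans (le_abs_self C)

lemma g5_meas_of_cont {h : ℂ × W → ℝ} (hc : ContinuousOn h DX) :
    AEStronglyMeasurable (fun p => eps none p.1 * ((sig p.1)⁻¹ * h p)) (ξ.restrict DX) := by
  have h1 : ContinuousOn (fun p : ℂ × W => eps none p.1) DX :=
    (contDiffOn_eps none).continuousOn.comp continuousOn_fst fun x hx => hx.1
  have h2 : ContinuousOn (fun p : ℂ × W => (sig p.1)⁻¹) DX :=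
    (contDiffOn_sig.continuousOn.comp continuousOn_fst fun x hx => hx.1).inv₀
      fun x hx => (sig_pos hx.1).ne'
  exact (h1.mul (h2.mul hc)).aestronglyMeasurable g5_meas_DX

lemma g5_sig_bdd : ∃ C, 0 ≤ C ∧ ∀ z ∈ KF (1 / 3), (sig z)⁻¹ ≤ C := by
  have hK : IsCompact (KF (1 / 3)) := isCompact_KF (by norm_num)
  have hKF : KF (1 / 3) ⊆ F := KF_subset (by norm_num)
  have h2 : ContinuousOn (fun z => (sig z)⁻¹) (KF (1 / 3)) :=
    (contDiffOn_sig.continuousOn.mono hKF).inv₀ fun x hx => (sig_pos (hKF hx)).ne'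
  obtain ⟨C, hC⟩ := hK.exists_bound_of_continuousOn h2
  refine ⟨|C|, abs_nonneg C, fun z hz => ?_⟩
  exact (le_abs_self _).trans ((hC z hz).trans (le_abs_self C))

lemma g5_tendsto1 (V : ℝ) (hV : 0 ≤ V) :
    Filter.Tendsto (fun n : ℕ => ((n : ℝ) + 1) / (((n : ℝ) + 1) + V)) Filter.atTop (𝓝 1) := by
  have h1 : Filter.Tendsto (fun n : ℕ => V / (((n : ℝ) + 1) + V)) Filter.atTop (𝓝 0) := by
    refine Filter.Tendsto.const_div_atTop ?_ V
    refine Filter.tendsto_atTop_add_const_right _ _ ?_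
    exact Filter.tendsto_atTop_add_const_right _ _ tendsto_natCast_atTop_atTop
  have h2 := (tendsto_const_nhds (x := (1 : ℝ))).sub h1
  rw [sub_zero] at h2
  refine h2.congr fun n => ?_
  have : ((n : ℝ) + 1) + V ≠ 0 := by positivity
  field_simp
  ring

lemma g5_tendsto (V : ℝ) (hV : 0 ≤ V) (a g : ℝ) :
    Filter.Tendsto (fun n : ℕ => ((n : ℝ) + 1) ^ 2 / (((n : ℝ) + 1) + V) ^ 2 * a +
      (-(2 * ((n : ℝ) + 1) ^ 2 / (((n : ℝ) + 1) + V) ^ 3)) * g) Filter.atTop (𝓝 a) := by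
  have h1 := g5_tendsto1 V hV
  have h2 : Filter.Tendsto (fun n : ℕ => (1 : ℝ) / (((n : ℝ) + 1) + V)) Filter.atTop (𝓝 0) := by
    refine Filter.Tendsto.const_div_atTop ?_ 1
    refine Filter.tendsto_atTop_add_const_right _ _ ?_
    exact Filter.tendsto_atTop_add_const_right _ _ tendsto_natCast_atTop_atTop
  have h3 := ((h1.pow 2).mul_const a).add ((((h1.pow 2).mul h2).const_mul 2).neg.mul_const g)
  have e : (1 : ℝ) ^ 2 * a + -(2 * (1 ^ 2 * 0)) * g = a := by ring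
  rw [e] at h3
  refine h3.congr fun n => ?_
  have : ((n : ℝ) + 1) + V ≠ 0 := by positivity
  field_simp

/-- the Laplacian of `VV` integrates to zero -/
lemma integral_lapZ_VV (hξ : Rep L ξ) (hL : PH L) :
    ∫ p in DX, eps none p.1 * ((sig p.1)⁻¹ * lapZ VV p) ∂ξ = 0 := by
  have hK : IsCompact (KF (1 / 3)) := isCompact_KF (by norm_num)
  have hKF : KF (1 / 3) ⊆ F := KF_subset (by norm_num)
  have hone : Dens (fun _ : ℂ × W => (1 : ℝ)) :=
    ⟨measurable_const, ⟨1, fun _ => by simp⟩, ⟨fun _ _ _ _ => rfl, fun _ _ _ _ _ => rfl⟩⟩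
  have hz : ∀ n : ℕ, ∫ p in DX, eps none p.1 * ((sig p.1)⁻¹ * lapZ (g5G ((n : ℝ) + 1)) p) ∂ξ = 0 := by
    intro n
    have := Harm.nf hξ hone (harm_one hL hξ) (NF_VV' ((n : ℝ) + 1) (by positivity))
    simpa using this
  obtain ⟨C, h0, h⟩ := g5_VV_bdd hK hKF
  obtain ⟨D, hD0, hD⟩ := g5_sig_bdd
  have hlim : Filter.Tendsto (fun n : ℕ => ∫ p in DX, eps none p.1 *
      ((sig p.1)⁻¹ * lapZ (g5G ((n : ℝ) + 1)) p) ∂ξ) Filter.atTop
      (𝓝 (∫ p in DX, eps none p.1 * ((sig p.1)⁻¹ * lapZ VV p) ∂ξ)) := by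
    have hbI := g5_integrable (h := fun _ => D * (C + 2 * (2 * C ^ 2))) hξ (by
      have h1 : ContinuousOn (fun p : ℂ × W => eps none p.1) DX :=
        (contDiffOn_eps none).continuousOn.comp continuousOn_fst fun x hx => hx.1
      exact (h1.mul continuousOn_const).aestronglyMeasurable g5_meas_DX)
      (C := |D * (C + 2 * (2 * C ^ 2))|) (fun p _ _ => le_rfl)
    refine tendsto_integral_of_dominated_convergence _
      (fun n => g5_meas_of_cont (NF_VV' ((n : ℝ) + 1) (by positivity)).contL) hbI ?_ ?_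
    · intro n
      rw [ae_restrict_iff' g5_meas_DX]
      refine Filter.Eventually.of_forall fun p hp => ?_
      have he := eps_nonneg none hp.1
      rw [Real.norm_eq_abs, abs_mul, abs_of_nonneg he]
      by_cases h0' : eps none p.1 = 0
      · rw [h0', zero_mul, zero_mul]
      have hk : p.1 ∈ KF (1 / 3) := eps_none_ne hp.1 h0'
      refine mul_le_mul_of_nonneg_left ?_ he
      rw [abs_mul, abs_of_nonneg (inv_nonneg.2 (sig_pos hp.1).le)]
      refine mul_le_mul (hD _ hk) ?_ (abs_nonneg _) hD0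
      have hn : (0 : ℝ) < (n : ℝ) + 1 := by positivity
      have hV : 0 ≤ VV p := VV_nonneg hp
      have e0 : lapZ (g5G ((n : ℝ) + 1)) p = ((n : ℝ) + 1) ^ 2 / (((n : ℝ) + 1) + VV p) ^ 2 *
          lapZ VV p + (-(2 * ((n : ℝ) + 1) ^ 2 / (((n : ℝ) + 1) + VV p) ^ 3)) *
          gr2 (fun u => VV (u, p.2)) p.1 := g5G_lap hn hp.1 hp.2
      rw [e0]
      refine (abs_add_le _ _).trans (add_le_add ?_ ?_)
      · rw [abs_mul, abs_of_nonneg (by positivity)]
        have q1 : ((n : ℝ) + 1) ^ 2 / (((n : ℝ) + 1) + VV p) ^ 2 ≤ 1 := by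
          rw [div_le_one (by positivity)]
          exact pow_le_pow_left₀ hn.le (by linarith) 2
        calc _ ≤ 1 * |lapZ VV p| := mul_le_mul_of_nonneg_right q1 (abs_nonneg _)
          _ ≤ C := by rw [one_mul]; exact (h p.1 hk p.2 hp.2).1
      · have q2 : 2 * ((n : ℝ) + 1) ^ 2 / (((n : ℝ) + 1) + VV p) ^ 3 ≤ 2 := by
          rw [div_le_iff₀ (by positivity)]
          have e1 : ((n : ℝ) + 1) ^ 3 ≤ (((n : ℝ) + 1) + VV p) ^ 3 :=
            pow_le_pow_left₀ hn.le (by linarith) 3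
          have e2 : ((n : ℝ) + 1) ^ 2 ≤ ((n : ℝ) + 1) ^ 3 :=
            pow_le_pow_right₀ (by linarith [(Nat.cast_nonneg n : (0 : ℝ) ≤ n)]) (by norm_num)
          linarith
        have e3 := (h p.1 hk p.2 hp.2).2 1
        have e4 := (h p.1 hk p.2 hp.2).2 Complex.I
        rw [norm_one, mul_one] at e3
        rw [Complex.norm_I, mul_one] at e4
        have hgr : 0 ≤ gr2 (fun u => VV (u, p.2)) p.1 ∧
            gr2 (fun u => VV (u, p.2)) p.1 ≤ 2 * C ^ 2 := by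
          unfold gr2
          have e5 := sq_le_sq' (neg_le_of_abs_le e3) (le_of_abs_le e3)
          have e6 := sq_le_sq' (neg_le_of_abs_le e4) (le_of_abs_le e4)
          exact ⟨by positivity, by linarith⟩
        rw [abs_mul, abs_neg, abs_of_nonneg (by positivity), abs_of_nonneg hgr.1]
        exact mul_le_mul q2 hgr.2 hgr.1 (by norm_num)
    · rw [ae_restrict_iff' g5_meas_DX]
      refine Filter.Eventually.of_forall fun p hp => ?_
      refine Filter.Tendsto.const_mul _ (Filter.Tendsto.const_mul _ ?_)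
      have e0 : ∀ n : ℕ, ((n : ℝ) + 1) ^ 2 / (((n : ℝ) + 1) + VV p) ^ 2 *
          lapZ VV p + (-(2 * ((n : ℝ) + 1) ^ 2 / (((n : ℝ) + 1) + VV p) ^ 3)) *
          gr2 (fun u => VV (u, p.2)) p.1 = lapZ (g5G ((n : ℝ) + 1)) p :=
        fun n => (g5G_lap (by positivity) hp.1 hp.2).symm
      exact (g5_tendsto (VV p) (VV_nonneg hp) _ _).congr e0
  have hc : Filter.Tendsto (fun n : ℕ => ∫ p in DX, eps none p.1 *
      ((sig p.1)⁻¹ * lapZ (g5G ((n : ℝ) + 1)) p) ∂ξ) Filter.atTop (𝓝 0) := by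
    simp only [hz]
    exact tendsto_const_nhds
  exact tendsto_nhds_unique hlim hc

/-! ### the drift -/

lemma HP_pic (c : ℝ) (z : ℂ) (m : W) : HP vl z (pic c m) = HP (1 : ℂ) z m.1 := by
  rw [g5_HP_fst, g5_HP_fst (1 : ℂ), pic_apply]

lemma g5_DX_ae (hξ : Rep L ξ) (h0 : ξ {p | p.2.1.1 = 0} = 0) : ∀ᵐ p ∂ξ, p ∈ DX := by
  rw [ae_iff]
  refine measure_mono_null (t := (F ×ˢ Sh)ᶜ ∪ {p | p.2.1.1 = 0}) ?_
    (measure_union_null hξ.supp h0)
  intro p hp
  by_cases h : p.2.1.1 = 0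
  · exact Or.inr h
  · refine Or.inl fun h' => hp ⟨h'.1, h⟩

lemma drift_eq (c : ℝ) (hξ : Rep L ξ) (hL : PH L) (h0 : ξ {p | p.2.1.1 = 0} = 0) :
    L qe = ∫ p in DX, eps none p.1 *
      ((sig p.1)⁻¹ * lap2 (fun z => Real.log (HP vl z (pic c p.2))) p.1) ∂ξ := by
  have hK : IsCompact (KF (1 / 3)) := isCompact_KF (by norm_num)
  have hKF : KF (1 / 3) ⊆ F := KF_subset (by norm_num)
  obtain ⟨D, hD0, hD⟩ := g5_sig_bdd
  obtain ⟨C1, hC1, h1⟩ := g5_VV_bdd hK hKF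
  obtain ⟨C2, hC2, h2⟩ := g5_Bd2.bdd hK hKF
  have e1 : L qe = ∫ p in DX, eps none p.1 * qY p ∂ξ := by
    rw [rep_eq hξ qe, Measure.restrict_eq_self_of_ae_mem (g5_DX_ae hξ h0)]
    rfl
  have i1 : Integrable (fun p => eps none p.1 * ((sig p.1)⁻¹ * lapZ VV p)) (ξ.restrict DX) := by
    refine g5_integrable hξ (g5_meas_of_cont g5_cont_VV_lap) (C := D * C1) fun p hp hk => ?_
    rw [abs_mul, abs_of_nonneg (inv_nonneg.2 (sig_pos hp.1).le)]
    exact mul_le_mul (hD _ hk) (h1 p.1 hk p.2 hp.2).1 (abs_nonneg _) hD0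
  have i2 : Integrable (fun p : ℂ × W => eps none p.1 *
      ((sig p.1)⁻¹ * lap2 (fun u => g5LB g5b2 (u, p.2)) p.1)) (ξ.restrict DX) := by
    refine g5_integrable hξ (g5_meas_of_cont g5_Bd2.cont_lap_log) (C := D * C2) fun p hp hk => ?_
    rw [abs_mul, abs_of_nonneg (inv_nonneg.2 (sig_pos hp.1).le)]
    exact mul_le_mul (hD _ hk) (h2 p.1 hk p.2 hp.2).1 (abs_nonneg _) hD0
  have e2 : ∀ p : ℂ × W, (fun z => Real.log (HP vl z (pic c p.2))) =
      fun u => g5LB g5b2 (u, p.2) := by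
    intro p
    funext z
    rw [HP_pic]
    rfl
  have e3 : ∫ p in DX, eps none p.1 * qY p ∂ξ = ∫ p in DX, (eps none p.1 *
      ((sig p.1)⁻¹ * lapZ VV p) + eps none p.1 *
      ((sig p.1)⁻¹ * lap2 (fun u => g5LB g5b2 (u, p.2)) p.1)) ∂ξ := by
    refine setIntegral_congr_fun g5_meas_DX fun p hp => ?_
    have e4 : lapZ VV p = lap2 (fun u => g5LB g5b1 (u, p.2)) p.1 -
        lap2 (fun u => g5LB g5b2 (u, p.2)) p.1 := g5_VV_lap hp.1 hp.2
    have e5 : qY p = (sig p.1)⁻¹ * lap2 (fun u => g5LB g5b1 (u, p.2)) p.1 := rfl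
    rw [e4, e5]
    ring
  rw [e1, e3, integral_add i1 i2, integral_lapZ_VV hξ hL, zero_add]
  refine setIntegral_congr_fun g5_meas_DX fun p _ => ?_
  rw [e2 p]

/-! ### the metric on the domain -/

lemma g5_contDiff_nsq2 : ContDiff ℝ ∞ nsq2 := by
  unfold nsq2
  exact (contDiff_fst.norm_sq ℝ).add (contDiff_snd.norm_sq ℝ)

/-- the logarithm of the metric on `D` -/
lemma log_HP_smooth : ContDiffOn ℝ ∞ (fun v : E7 => Real.log (HP vl v.1 v.2)) D := by
  have h : ContDiffOn ℝ ∞ (fun v : E7 => HP vl v.1 v.2) D := by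
    unfold HP
    refine ContDiffOn.sum fun i _ => ?_
    refine ((contDiffOn_eps i).comp contDiff_fst.contDiffOn fun v hv => hv.1).mul ?_
    have h1 : ContDiff ℝ ∞ (fun v : E7 => RM vl i v.2) :=
      ((RM vl i : V7 →L[ℂ] V7).restrictScalars ℝ).contDiff.comp contDiff_snd
    exact (g5_contDiff_nsq2.comp (contDiff_fst.comp h1)).contDiffOn
  exact h.log fun v hv => (g5_HP_pos vl hv.1 hv.2).ne'

lemma log_HP_tr {i : Mv} {k : ℤ} {l : T4} {v : E7} (hv : v ∈ D) (hi : v.1 ∈ dom i) (hl : l ∈ Lam) :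
    Real.log (HP vl (tr i k l v).1 (tr i k l v).2) = Real.log (HP vl v.1 v.2) +
      k * (2 * Real.log la) := by
  have h1 : (tr i k l v).2.1 = ((la : ℂ) ^ k) • (RM vl i v.2).1 := c1_tr_snd_fst i k l v
  have h2 : (tr i k l v).1 = act i v.1 := rfl
  have h3 : HP vl (tr i k l v).1 (tr i k l v).2 = ‖(la : ℂ) ^ k‖ ^ 2 * HP vl v.1 v.2 := by
    rw [g5_HP_fst, h1, h2, g5_HP_smul, ← g5_HP_act vl hi, g5_HP_fst vl (act i v.1) (RM vl i v.2)]
  have h4 : ‖(la : ℂ) ^ k‖ = la ^ k := by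
    rw [norm_zpow, Complex.norm_real, Real.norm_of_nonneg la_pos.le]
  rw [h3, h4, Real.log_mul (pow_ne_zero 2 (zpow_ne_zero k la_ne)) (g5_HP_pos vl hv.1 hv.2).ne',
    Real.log_pow, Real.log_zpow]
  push_cast
  ring

/-- the currents are not closed -/
theorem not_closed_nuc (c : ℝ) (hξ : Rep L ξ) (hL : PH L) (h0 : ξ {p | p.2.1.1 = 0} = 0)
    (hq : 0 < L qe) [IsFiniteMeasure (nuc c ξ)] : ¬ IsClosedCurrent (cur (intL (nuc c ξ))) := by
  intro hcl
  obtain ⟨β, hβ, φ, hφ, hQ⟩ := exists_dc log_HP_smooth (2 * Real.log la)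
    fun i k l v hv hi hl => log_HP_tr hv hi hl
  have h1 := hcl β hβ φ hφ
  rw [cur_apply] at h1
  have h2 : ∫ x, Q φ x ∂(nuc c ξ) = 0 := h1
  have hcont : Continuous (fun x => Q φ x) := (Q φ).continuous
  have hb : ∃ C, ∀ x, |Q φ x| ≤ C :=
    ⟨‖Q φ‖, fun x => (Q φ).norm_coe_le_norm x⟩
  rw [integral_nuc c hξ hcont.measurable hb] at h2
  have h3 : ∫ p, eps none p.1 * Q φ (iota c p) ∂ξ = ∫ p in DX, (1 / (2 * Real.pi)) *
      (eps none p.1 * ((sig p.1)⁻¹ * lap2 (fun z => Real.log (HP vl z (pic c p.2))) p.1)) ∂ξ := by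
    have hr : ξ.restrict DX = ξ := Measure.restrict_eq_self_of_ae_mem (g5_DX_ae hξ h0)
    have h4 : ∫ p, eps none p.1 * Q φ (iota c p) ∂ξ =
        ∫ p in DX, eps none p.1 * Q φ (iota c p) ∂ξ := by rw [hr]
    rw [h4]
    refine setIntegral_congr_fun g5_meas_DX fun p hp => ?_
    have h6 : Q φ (iota c p) = (1 / (2 * Real.pi)) *
        ((sig p.1)⁻¹ * lap2 (fun z => Real.log (HP vl z (pic c p.2))) p.1) :=
      hQ (p.1, pic c p.2) (iota_mem c hp)
    rw [h6]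
    ring
  rw [h3, integral_const_mul, ← drift_eq c hξ hL h0] at h2
  have := Real.pi_pos
  have h5 : 0 < (1 / (2 * Real.pi)) * L qe := by positivity
  linarith

end Pool.Agent.H5.EC
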