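import Pool.Agent.H5.EC.G6c
import Pool.Agent.H5.EC.G4d

/-! Part G6: extremality and non-proportionality of the currents. -/

open Set Topology MeasureTheory
open scoped Manifold ContDiff ENNReal

attribute [-instance] TopCat.of.chartedSpace

noncomputable section

namespace Pool.Agent.H5.EC

open Pool.Agent.Helper289.LamDefs

variable {L : IY →ₗ[ℝ] ℝ} {ξ : Measure (ℂ × W)}

lemma g6_DX_ae (hξ : Rep L ξ) (h0 : ξ {p | p.2.1.1 = 0} = 0) : ∀ᵐ p ∂ξ, p ∈ DX := by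
  rw [ae_iff]
  refine measure_mono_null (t := (F ×ˢ Sh)ᶜ ∪ {p | p.2.1.1 = 0}) ?_
    (measure_union_null hξ.supp h0)
  intro p hp
  by_cases h : p.2.1.1 = 0
  · exact Or.inr h
  · refine Or.inl fun h' => hp ⟨h'.1, h⟩

/-- extremality -/
theorem ext_nuc {c : ℝ} (hc : c ∈ Ioo (0 : ℝ) (1 / 2)) (hξ : Rep L ξ) (hL : PH L) (hE : Ext L)
    (h1 : L oneY = 1) (h0 : ξ {p | p.2.1.1 = 0} = 0) [IsFiniteMeasure (nuc c ξ)]
    {L₁ L₂ : C(X, ℝ) →ₗ[ℝ] ℝ} (hp1 : PosL L₁) (hp2 : PosL L₂) (hH : HarmL L₁)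
    (h : L₁ + L₂ = intL (nuc c ξ)) : ∃ a : ℝ, L₁ = a • intL (nuc c ξ) := by
  obtain ⟨g, hg, hb, hL₁⟩ := exists_density (nuc c ξ) hp1 hp2 h
  have hgb : ∃ C, ∀ x, |g x| ≤ C :=
    ⟨1, fun x => by rw [abs_of_nonneg (hb x).1]; exact (hb x).2⟩
  have hw := harm_of_harmL hc hξ h0 hg hb hL₁ hH
  have hpb : ∀ p, 0 ≤ pb c g p ∧ pb c g p ≤ 1 := by
    intro p
    unfold pb
    split_ifs
    · exact hb _
    · exact ⟨le_rfl, zero_le_one⟩
  obtain ⟨a, ha⟩ := dens_const hξ hL hE h1 (Dens_pb c hg hgb) hpb hw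
  refine ⟨a, LinearMap.ext fun φ => ?_⟩
  have hφm : Measurable (fun x => φ x) := φ.continuous.measurable
  have hφb : ∃ C, ∀ x, |φ x| ≤ C := ⟨‖φ‖, fun x => φ.norm_coe_le_norm x⟩
  have hφgb : ∃ C, ∀ x, |φ x * g x| ≤ C := by
    refine ⟨‖φ‖, fun x => ?_⟩
    rw [abs_mul, abs_of_nonneg (hb x).1]
    calc |φ x| * g x ≤ ‖φ‖ * 1 := mul_le_mul (φ.norm_coe_le_norm x) (hb x).2 (hb x).1 (norm_nonneg _)
      _ = ‖φ‖ := mul_one _
  have e1 : intL (nuc c ξ) φ = ∫ p, eps none p.1 * φ (iota c p) ∂ξ :=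
    integral_nuc c hξ hφm hφb
  have e3 : ∫ x, φ x * g x ∂(nuc c ξ) = ∫ p, eps none p.1 * (φ (iota c p) * g (iota c p)) ∂ξ :=
    integral_nuc c hξ (hφm.mul hg) hφgb
  rw [LinearMap.smul_apply, smul_eq_mul, hL₁ φ, e1, e3, ← integral_const_mul]
  refine integral_congr_ae ?_
  filter_upwards [ha, g6_DX_ae hξ h0] with p hp hp'
  have e2 : pb c g p = g (iota c p) := by
    unfold pb
    exact if_pos hp'.2
  rw [e2] at hp
  rw [hp]
  ring

/-- the image of the map to `X` is measurable -/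
lemma g6_meas_image (c : ℝ) : MeasurableSet (iota c '' DX) := by
  have h1 : IsSigmaCompact DX := by
    rw [isSigmaCompact_iff_sigmaCompactSpace]
    have : LocallyCompactSpace DX := isOpen_DX.locallyCompactSpace
    infer_instance
  obtain ⟨K, hK, hKU⟩ := h1.image_of_continuousOn (continuousOn_iota c)
  rw [← hKU]
  exact MeasurableSet.iUnion fun n => (hK n).isClosed.measurableSet

lemma g6_disjoint {c c' : ℝ} (hc : c ∈ Ioo (0 : ℝ) (1 / 2)) (hc' : c' ∈ Ioo (0 : ℝ) (1 / 2))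
    {p p' : ℂ × W} (hp : p ∈ DX) (hp' : p' ∈ DX) (h : iota c p = iota c' p') : c' = c := by
  have h1 := (ppi_eq_iff (iota_mem c hp) (iota_mem c' hp')).1 h
  obtain ⟨i, k, l, hl, hi, h2, h3⟩ := h1
  rw [← pic_rho] at h3
  exact (pic_inj hc hc' hl h3).1

lemma g6_null {c : ℝ} (hξ : Rep L ξ) (h0 : ξ {p | p.2.1.1 = 0} = 0) {S : Set X}
    (hS : MeasurableSet S) (h : ∀ p ∈ DX, iota c p ∉ S) : nuc c ξ S = 0 := by
  unfold nuc
  rw [Measure.map_apply (measurable_iota c) hS]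
  refine (withDensity_absolutelyContinuous ξ _) ?_
  have := g6_DX_ae hξ h0
  rw [ae_iff] at this
  exact measure_mono_null (fun p hp hp' => h p hp' hp) this

/-- the measures attached to different parameters are not proportional -/
theorem nuc_not_prop {c c' : ℝ} (hc : c ∈ Ioo (0 : ℝ) (1 / 2)) (hc' : c' ∈ Ioo (0 : ℝ) (1 / 2))
    (hcc : c ≠ c') (hξ : Rep L ξ) (h1 : L oneY = 1) (h0 : ξ {p | p.2.1.1 = 0} = 0)
    [IsFiniteMeasure (nuc c ξ)] [IsFiniteMeasure (nuc c' ξ)] (t : ℝ) :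
    intL (nuc c ξ) ≠ t • intL (nuc c' ξ) := by
  intro h
  have e1 : intL (nuc c ξ) 1 = 1 := by rw [intL_one c hξ, h1]
  have e2 : intL (nuc c' ξ) 1 = 1 := by rw [intL_one c' hξ, h1]
  have ht : t = 1 := by
    have := congrArg (fun l => l 1) h
    simp only [LinearMap.smul_apply, smul_eq_mul] at this
    rw [e1, e2, mul_one] at this
    exact this.symm
  rw [ht, one_smul] at h
  have hν : nuc c ξ = nuc c' ξ := by
    refine measure_ext_smooth fun f hf => ?_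
    have := congrArg (fun l => l (⟨f, hf.continuous⟩ : C(X, ℝ))) h
    exact this
  have hS := g6_meas_image c
  have h2 : nuc c' ξ (iota c '' DX) = 0 := by
    refine g6_null hξ h0 hS fun p hp hp' => ?_
    obtain ⟨q, hq, hq'⟩ := hp'
    exact hcc (g6_disjoint hc hc' hq hp hq').symm
  have h3 : nuc c ξ (iota c '' DX)ᶜ = 0 :=
    g6_null hξ h0 hS.compl fun p hp hp' => hp' ⟨p, hp, rfl⟩
  have h4 : nuc c ξ univ = 0 := by
    rw [← union_compl_self (iota c '' DX)]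
    exact measure_union_null (by rw [hν]; exact h2) h3
  have h5 : intL (nuc c ξ) 1 = 0 := by
    have h6 : nuc c ξ = 0 := Measure.measure_univ_eq_zero.1 h4
    show ∫ x, (1 : C(X, ℝ)) x ∂(nuc c ξ) = 0
    rw [h6, integral_zero_measure]
  rw [e1] at h5
  exact one_ne_zero h5

end Pool.Agent.H5.EC
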