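import Pool.Agent.H5.EC.G5

/-! Part G6a: densities of smaller functionals; smooth functions and measures on `X`. -/

open Set Topology MeasureTheory
open scoped Manifold ContDiff ENNReal CompactlySupported

attribute [-instance] TopCat.of.chartedSpace

noncomputable section

namespace Pool.Agent.H5.EC

open Pool.Agent.Helper289.LamDefs

variable {L : IY →ₗ[ℝ] ℝ} {ξ : Measure (ℂ × W)}

/-- Riesz representation on the compact space `X` -/
lemma g6a_riesz {L : C(X, ℝ) →ₗ[ℝ] ℝ} (hL : PosL L) :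
    ∃ μ : Measure X, IsFiniteMeasure μ ∧ ∀ h : C(X, ℝ), ∫ x, h x ∂μ = L h := by
  let Λ0 : C_c(X, ℝ) →ₗ[ℝ] ℝ :=
    { toFun := fun h => L h.toContinuousMap
      map_add' := fun h h' => map_add L h.toContinuousMap h'.toContinuousMap
      map_smul' := fun c h => map_smul L c h.toContinuousMap }
  let Λ : C_c(X, ℝ) →ₚ[ℝ] ℝ := PositiveLinearMap.mk₀ Λ0 (by
    intro h hh
    apply hL
    exact hh)
  refine ⟨RealRMK.rieszMeasure Λ, inferInstance, fun h => ?_⟩
  let hc : C_c(X, ℝ) := ⟨h, HasCompactSupport.of_compactSpace h⟩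
  exact RealRMK.integral_rieszMeasure Λ hc

lemma g6a_ext {μ₁ μ₂ : Measure X} [IsFiniteMeasure μ₁] [IsFiniteMeasure μ₂]
    (h : ∀ f : C(X, ℝ), ∫ x, f x ∂μ₁ = ∫ x, f x ∂μ₂) : μ₁ = μ₂ := by
  apply Measure.ext_of_integral_eq_on_compactlySupported
  intro f
  exact h f.toContinuousMap

/-- a smaller positive functional has a density -/
lemma exists_density (ν : Measure X) [IsFiniteMeasure ν] {L₁ L₂ : C(X, ℝ) →ₗ[ℝ] ℝ} (h1 : PosL L₁)
    (h2 : PosL L₂) (h : L₁ + L₂ = intL ν) : ∃ g : X → ℝ, Measurable g ∧ (∀ x, 0 ≤ g x ∧ g x ≤ 1) ∧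
      ∀ h : C(X, ℝ), L₁ h = ∫ x, h x * g x ∂ν := by
  obtain ⟨μ₁, hf₁, hμ₁⟩ := g6a_riesz h1
  obtain ⟨μ₂, hf₂, hμ₂⟩ := g6a_riesz h2
  have hint : ∀ (μ : Measure X) [IsFiniteMeasure μ] (f : C(X, ℝ)), Integrable (fun x => f x) μ :=
    fun μ _ f => f.continuous.integrable_of_hasCompactSupport (HasCompactSupport.of_compactSpace f)
  have hsum : μ₁ + μ₂ = ν := by
    apply g6a_ext
    intro f
    rw [integral_add_measure (hint μ₁ f) (hint μ₂ f), hμ₁, hμ₂]
    have := congrArg (fun T : C(X, ℝ) →ₗ[ℝ] ℝ => T f) h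
    exact this
  have hle : μ₁ ≤ ν := by
    rw [← hsum]
    exact Measure.le_add_right le_rfl
  have hac : μ₁ ≪ ν := Measure.absolutelyContinuous_of_le hle
  refine ⟨fun x => min (μ₁.rnDeriv ν x).toReal 1,
    (Measure.measurable_rnDeriv μ₁ ν).ennreal_toReal.min measurable_const,
    fun x => ⟨le_min ENNReal.toReal_nonneg zero_le_one, min_le_right _ _⟩, fun f => ?_⟩
  rw [← hμ₁ f, ← integral_toReal_rnDeriv_mul hac]
  apply integral_congr_ae
  filter_upwards [Measure.rnDeriv_le_one_of_le hle] with x hx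
  have hx1 : (μ₁.rnDeriv ν x).toReal ≤ 1 := by
    have := ENNReal.toReal_mono ENNReal.one_ne_top hx
    simpa using this
  rw [min_eq_left hx1, mul_comm]

lemma g6a_dep {b : Bd} {z : ℂ} (hz : z ∈ F) (h : z ∉ U b) : 1 ≤ dep b z := by
  by_contra hlt
  exact h ⟨hz, not_le.1 hlt⟩

/-- a function with compact support in `F`, composed with a gluing map, vanishes near the points
outside the collar -/
lemma g6a_near {a : ℂ → ℝ} {K : Set ℂ} (hK : IsCompact K) (hKF : K ⊆ F)
    (h0 : ∀ z, z ∉ K → a z = 0) {b : Bd} {z : ℂ} (hz : z ∈ F) (h : z ∉ U b) :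
    ∀ᶠ u in 𝓝 z, u ∈ U b → a (mv b u) = 0 := by
  have hδ : ∃ δ > 0, ∀ w ∈ K, δ ≤ dep b.inv w := by
    rcases K.eq_empty_or_nonempty with hK0 | hK0
    · exact ⟨1, one_pos, fun w hw => by rw [hK0] at hw; exact absurd hw (notMem_empty w)⟩
    · obtain ⟨w₀, hw₀, hmin⟩ := hK.exists_isMinOn hK0 ((continuousOn_dep b.inv).mono hKF)
      exact ⟨dep b.inv w₀, hKF hw₀ b.inv, fun w hw => hmin hw⟩
  obtain ⟨δ, hδ0, hδ⟩ := hδ
  have hc : ContinuousAt (dep b) z := (continuousOn_dep b).continuousAt (isOpen_F.mem_nhds hz)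
  have h1 : 1 - δ < dep b z := by
    have := g6a_dep hz h
    linarith
  filter_upwards [hc.eventually (lt_mem_nhds h1)] with u hu huU
  apply h0
  intro hmem
  have h2 := hδ _ hmem
  rw [dep_mv huU] at h2
  linarith

open Classical in
/-- construction of smooth functions on `X` -/
lemma exists_smooth {z₀ : ℂ} (hz₀ : z₀ ∈ F) {a : ℂ → ℝ} (ha : ContDiff ℝ ∞ a)
    (hK : ∃ K : Set ℂ, IsCompact K ∧ K ⊆ F ∧ ∀ z, z ∉ K → a z = 0) {f₀ : X → ℝ}
    (hf₀ : ContMDiff 𝓘(ℝ, E7) 𝓘(ℝ, ℝ) ∞ f₀) :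
    ∃ f : X → ℝ, ContMDiff 𝓘(ℝ, E7) 𝓘(ℝ, ℝ) ∞ f ∧ ∀ z ∈ F, ∀ v : V7, v.1 ≠ 0 →
      f (ppi (z, v)) = ∑ i : Mv, if z ∈ dom i then a (act i z) * f₀ (ppi (z₀, RM vl i v)) else 0 := by
  obtain ⟨K, hKc, hKF, hK0⟩ := hK
  set G : E7 → ℝ := fun p => ∑ i : Mv,
    if p.1 ∈ dom i then a (act i p.1) * f₀ (ppi (z₀, RM vl i p.2)) else 0 with hG
  have hGs : ContDiffOn ℝ ∞ G D := by
    rw [hG]
    apply ContDiffOn.sum
    intro i _ p hp
    apply ContDiffAt.contDiffWithinAt
    by_cases hi : p.1 ∈ dom i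
    · have h1 : ContDiffAt ℝ ∞ (fun q : E7 => a (act i q.1)) p := by
        have h2 : ContDiffAt ℝ ∞ (act i) p.1 := (contDiffAt_act hi ∞).restrict_scalars ℝ
        exact ha.contDiffAt.comp p (h2.comp p contDiffAt_fst)
      have h2 : ContDiffAt ℝ ∞ (fun q : E7 => f₀ (ppi (z₀, RM vl i q.2))) p := by
        have hm : ((z₀, RM vl i p.2) : E7) ∈ D := ⟨hz₀, (RM_fst_ne vl i p.2).2 hp.2⟩
        have h3 : ContDiffAt ℝ ∞ (fun v => f₀ (ppi v)) ((z₀, RM vl i p.2) : E7) :=
          (contDiffOn_comp_ppi hf₀).contDiffAt (isOpen_D.mem_nhds hm)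
        have h4 : ContDiffAt ℝ ∞ (fun q : E7 => ((z₀, RM vl i q.2) : E7)) p := by
          apply ContDiffAt.prodMk contDiffAt_const
          have h5 : ContDiff ℝ ∞ (fun v : V7 => RM vl i v) :=
            (RM vl i : V7 ≃L[ℂ] V7).contDiff.restrict_scalars ℝ
          exact (h5.comp contDiff_snd).contDiffAt
        exact ContDiffAt.comp (g := fun v : E7 => f₀ (ppi v)) p h3 h4
      apply (h1.mul h2).congr_of_eventuallyEq
      have hnb : ∀ᶠ q : E7 in 𝓝 p, q.1 ∈ dom i :=
        continuous_fst.continuousAt.eventually ((isOpen_dom i).mem_nhds hi)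
      filter_upwards [hnb] with q hq
      rw [if_pos hq]
    · cases i with
      | none => exact absurd hp.1 hi
      | some b =>
        have hi' : p.1 ∉ U b := hi
        have hev : ∀ᶠ q : E7 in 𝓝 p, q.1 ∈ U b → a (mv b q.1) = 0 :=
          continuous_fst.continuousAt.eventually (g6a_near hKc hKF hK0 hp.1 hi')
        have h0 : ContDiffAt ℝ ∞ (fun _ : E7 => (0 : ℝ)) p := contDiffAt_const
        apply h0.congr_of_eventuallyEq
        filter_upwards [hev] with q hq
        by_cases hq' : q.1 ∈ dom (some b)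
        · rw [if_pos hq']
          change a (mv b q.1) * _ = 0
          rw [hq hq', zero_mul]
        · rw [if_neg hq']
  have hGU : ∀ (b : Bd) (z : ℂ) (v : V7), z ∈ U b →
      G (z, v) = a z * f₀ (ppi (z₀, v)) + a (mv b z) * f₀ (ppi (z₀, RM vl (some b) v)) := by
    intro b z v hz
    simp only [hG]
    rw [Fintype.sum_option, if_pos (show z ∈ dom none from hz.1), Finset.sum_eq_single b]
    · rw [if_pos (show z ∈ dom (some b) from hz), RM_none]
      rfl
    · intro b' _ hb'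
      exact if_neg (fun h => hb' (U_disj h hz))
    · intro h
      exact absurd (Finset.mem_univ b) h
  have hppi : ∀ (k : ℤ) (l : T4) (v : V7), l ∈ Lam → v.1 ≠ 0 →
      ppi (z₀, (Th ^ k) v + (0, l)) = ppi (z₀, v) := by
    intro k l v hl hv
    have h1 : ((Th ^ k) v).1 ≠ 0 := by
      rw [Thz_fst]
      exact smul_ne_zero (zpow_ne_zero k lac_ne) hv
    rw [ppi_add hz₀ h1 hl, ppi_scale hz₀ hv]
  have hGinv : ∀ (i : Mv) (k : ℤ) (l : T4) (v : E7), v ∈ D → v.1 ∈ dom i → l ∈ Lam →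
      G (tr i k l v) = G v := by
    intro i k l v hv hi hl
    have hx : (RM vl i v.2).1 ≠ 0 := (RM_fst_ne vl i v.2).2 hv.2
    have e1 : G (tr i k l v) = G (act i v.1, RM vl i v.2) := by
      simp only [hG, tr]
      apply Finset.sum_congr rfl
      intro j _
      by_cases hj : act i v.1 ∈ dom j
      · rw [if_pos hj, if_pos hj, RM_add_snd, ← Thz_RM, hppi k l _ hl ((RM_fst_ne vl j _).2 hx)]
      · rw [if_neg hj, if_neg hj]
    rw [e1]
    cases i with
    | none =>
      rw [RM_none]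
      rfl
    | some b =>
      have hz : v.1 ∈ U b := hi
      have hz' := mv_mem hz
      have e2 : G v = G (v.1, v.2) := rfl
      rw [e2, hGU b v.1 v.2 hz]
      change G (mv b v.1, RM vl (some b) v.2) = _
      rw [hGU b.inv _ _ hz', mv_mv hz]
      have e3 : RM vl (some b.inv) (RM vl (some b) v.2) = v.2 := RM_inv_apply vl (some b) v.2
      rw [e3, add_comm]
  obtain ⟨f, hf, hfG⟩ := exists_desc_fun hGs hGinv
  exact ⟨f, hf, fun z hz v hv => hfG (z, v) ⟨hz, hv⟩⟩

/-- smooth functions separate finite measures on `X` -/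
lemma measure_ext_smooth {μ₁ μ₂ : Measure X} [IsFiniteMeasure μ₁] [IsFiniteMeasure μ₂]
    (h : ∀ f : X → ℝ, ContMDiff 𝓘(ℝ, E7) 𝓘(ℝ, ℝ) ∞ f → ∫ x, f x ∂μ₁ = ∫ x, f x ∂μ₂) : μ₁ = μ₂ := by
  have hfd : FiniteDimensional ℝ E7 := inferInstance
  apply g6a_ext
  intro f
  have hint : ∀ (μ : Measure X) [IsFiniteMeasure μ] (g : X → ℝ), Continuous g →
      Integrable g μ :=
    fun μ _ g hg => hg.integrable_of_hasCompactSupport (HasCompactSupport.of_compactSpace g)
  have key : ∀ ε : ℝ, 0 < ε → |∫ x, f x ∂μ₁ - ∫ x, f x ∂μ₂| ≤ ε * (μ₁.real univ + μ₂.real univ) := by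
    intro ε hε
    obtain ⟨g, hg⟩ := exists_contMDiffMap_forall_mem_convex_of_local_const (n := (⊤ : ℕ∞)) 𝓘(ℝ, E7)
      (t := fun x : X => Metric.ball (f x) ε) (fun x => convex_ball _ _) (by
        intro x
        refine ⟨f x, ?_⟩
        have hc : ContinuousAt f x := f.continuous.continuousAt
        have := hc.eventually (Metric.ball_mem_nhds (f x) hε)
        filter_upwards [this] with y hy
        rw [Metric.mem_ball, dist_comm]
        exact hy)
    have hg' : ∀ x, ‖f x - g x‖ ≤ ε := by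
      intro x
      have := hg x
      rw [Metric.mem_ball, dist_eq_norm, norm_sub_rev] at this
      exact this.le
    have hgc : Continuous g := g.contMDiff.continuous
    have hb : ∀ (μ : Measure X) [IsFiniteMeasure μ], |∫ x, f x ∂μ - ∫ x, g x ∂μ| ≤ ε * μ.real univ := by
      intro μ _
      rw [← integral_sub (hint μ _ f.continuous) (hint μ _ hgc)]
      have := norm_integral_le_of_norm_le_const (μ := μ) (f := fun x => f x - g x) (C := ε)
        (Filter.Eventually.of_forall hg')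
      exact this
    have e := h g g.contMDiff
    have h1 := hb μ₁
    have h2 := hb μ₂
    rw [abs_le] at *
    constructor
    · nlinarith [h1.1, h1.2, h2.1, h2.2, e]
    · nlinarith [h1.1, h1.2, h2.1, h2.2, e]
  have h0 : |∫ x, f x ∂μ₁ - ∫ x, f x ∂μ₂| ≤ 0 := by
    apply le_of_forall_pos_le_add
    intro δ hδ
    have hM : 0 ≤ μ₁.real univ + μ₂.real univ := by positivity
    have h1 := key (δ / (μ₁.real univ + μ₂.real univ + 1)) (by positivity)
    have h2 : δ / (μ₁.real univ + μ₂.real univ + 1) * (μ₁.real univ + μ₂.real univ) ≤ δ := by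
      rw [div_mul_eq_mul_div, div_le_iff₀ (by positivity)]
      nlinarith
    linarith
  have := abs_nonpos_iff.1 h0
  linarith

end Pool.Agent.H5.EC
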