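import Pool.Agent.H5.EC.G6a
import Pool.Agent.H5.EC.B2

/-! Part G6b: the fibre over a point. -/

open Set Topology MeasureTheory
open scoped Manifold ContDiff ENNReal

attribute [-instance] TopCat.of.chartedSpace

noncomputable section

namespace Pool.Agent.H5.EC

open Pool.Agent.Helper289.LamDefs

variable {L : IY →ₗ[ℝ] ℝ} {ξ : Measure (ℂ × W)}

/-- only the trivial power of the scaling maps a point of the shell into the shell -/
lemma g6b_shell {m : W} {k : ℤ} (hm : m ∈ Sh) (hk : th k m ∈ Sh) : k = 0 := by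
  have h1 : la ^ 2 < nsq m.1 := hm.1
  have h2 : nsq m.1 ≤ 1 := hm.2
  have h3 : la ^ 2 < nsq (th k m).1 := hk.1
  have h4 : nsq (th k m).1 ≤ 1 := hk.2
  rw [nsq_th] at h3 h4
  have hq0 : (0 : ℝ) < la ^ 2 := pow_pos la_pos 2
  have hq1 : la ^ 2 < 1 := pow_lt_one₀ la_pos.le la_lt_one two_ne_zero
  have hpk : (0 : ℝ) < (la ^ 2) ^ k := zpow_pos hq0 k
  have hn : 0 < nsq m.1 := hq0.trans h1
  have h5 : la ^ 2 < (la ^ 2) ^ k := by
    calc la ^ 2 < (la ^ 2) ^ k * nsq m.1 := h3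
      _ ≤ (la ^ 2) ^ k * 1 := mul_le_mul_of_nonneg_left h2 hpk.le
      _ = (la ^ 2) ^ k := mul_one _
  have h6 : (la ^ 2) ^ k * la ^ 2 < 1 := by
    calc (la ^ 2) ^ k * la ^ 2 < (la ^ 2) ^ k * nsq m.1 := mul_lt_mul_of_pos_left h1 hpk
      _ ≤ 1 := h4
  have h7 : k < 1 := by
    rw [← zpow_lt_zpow_iff_right_of_lt_one₀ hq0 hq1]
    simpa using h5
  have h8 : -1 < k := by
    rw [← zpow_lt_zpow_iff_right_of_lt_one₀ hq0 hq1, zpow_neg_one]
    rw [← lt_div_iff₀ hq0, one_div] at h6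
    exact h6
  omega

/-- the fibre over a point embeds, modulo the scaling -/
lemma injOn_fibre {c : ℝ} (hc : c ∈ Ioo (0 : ℝ) (1 / 2)) {z₀ : ℂ} (hz₀ : z₀ ∈ F) :
    InjOn (fun m : W => iota c (z₀, m)) {m | m ∈ Sh ∧ m.1.1 ≠ 0} := by
  rintro m ⟨hm, hm0⟩ m' ⟨hm', hm0'⟩ h
  have hD : ((z₀, pic c m) : E7) ∈ D := ⟨hz₀, hm0⟩
  have hD' : ((z₀, pic c m') : E7) ∈ D := ⟨hz₀, hm0'⟩
  have hrel : Rel (z₀, pic c m) (z₀, pic c m') := (ppi_eq_iff hD hD').1 h
  obtain ⟨i, k, l, hl, hi, h1, h2⟩ := hrel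
  have hi' : z₀ ∈ dom i := hi
  have h1' : z₀ = act i z₀ := h1
  have h2' : pic c m' = (Th ^ k) (RM vl i (pic c m)) + (0, l) := h2
  cases i with
  | some b =>
    exfalso
    have h3 : 3 ≤ ‖mv b z₀ - z₀‖ := dist_mv hi'
    have h4 : mv b z₀ = z₀ := h1'.symm
    rw [h4, sub_self, norm_zero] at h3
    linarith
  | none =>
    rw [RM_none] at h2'
    obtain ⟨_, h5⟩ := pic_inj hc hc hl h2'
    have h6 : k = 0 := g6b_shell hm (h5 ▸ hm')
    rw [h5, h6, th_zero]

/-- measures on the fibre are determined by smooth functions on `X` -/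
lemma fibre_ext {c : ℝ} (hc : c ∈ Ioo (0 : ℝ) (1 / 2)) {z₀ : ℂ} (hz₀ : z₀ ∈ F)
    {μ₁ μ₂ : Measure W} [IsFiniteMeasure μ₁] [IsFiniteMeasure μ₂]
    (h1 : μ₁ {m | m ∈ Sh ∧ m.1.1 ≠ 0}ᶜ = 0) (h2 : μ₂ {m | m ∈ Sh ∧ m.1.1 ≠ 0}ᶜ = 0)
    (h : ∀ f : X → ℝ, ContMDiff 𝓘(ℝ, E7) 𝓘(ℝ, ℝ) ∞ f →
      ∫ m, f (iota c (z₀, m)) ∂μ₁ = ∫ m, f (iota c (z₀, m)) ∂μ₂) : μ₁ = μ₂ := by
  set T : Set W := {m | m ∈ Sh ∧ m.1.1 ≠ 0} with hT
  have hTm : MeasurableSet T := by
    have hc1 : Continuous (fun m : W => nsq m.1) := by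
      have : Continuous nsq := by unfold nsq; fun_prop
      exact this.comp continuous_fst
    have hc2 : Continuous (fun m : W => m.1.1) := continuous_fst.comp continuous_fst
    have e : T = ({m : W | la ^ 2 < nsq m.1} ∩ {m : W | nsq m.1 ≤ 1}) ∩ {m : W | m.1.1 ≠ 0} := rfl
    rw [e]
    exact ((measurableSet_lt measurable_const hc1.measurable).inter
      (measurableSet_le hc1.measurable measurable_const)).inter
      (isOpen_ne.preimage hc2).measurableSet
  have hmr : ∀ μ : Measure W, μ Tᶜ = 0 → (μ.comap (Subtype.val : T → W)).map Subtype.val = μ := by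
    intro μ hμ
    rw [map_comap_subtype_coe hTm]
    exact Measure.restrict_eq_self_of_ae_mem (by
      rw [ae_iff]
      exact hμ)
  have hsb : StandardBorelSpace T := hTm.standardBorel
  set φ : T → X := fun m => iota c (z₀, m.1) with hφ
  have hφm : Measurable φ :=
    (measurable_iota c).comp (measurable_const.prodMk measurable_subtype_coe)
  have hφi : Function.Injective φ := by
    intro m m' hmm
    exact Subtype.ext (injOn_fibre hc hz₀ m.2 m'.2 hmm)
  have hφe : MeasurableEmbedding φ := hφm.measurableEmbedding hφi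
  have hfin : ∀ (μ : Measure W) [IsFiniteMeasure μ],
      IsFiniteMeasure (μ.comap (Subtype.val : T → W)) := by
    intro μ _
    refine ⟨?_⟩
    rw [comap_subtype_coe_apply hTm]
    exact measure_lt_top μ _
  have i1 := hfin μ₁
  have i2 := hfin μ₂
  have hkey : (μ₁.comap (Subtype.val : T → W)).map φ = (μ₂.comap (Subtype.val : T → W)).map φ := by
    apply measure_ext_smooth
    intro f hf
    rw [hφe.integral_map, hφe.integral_map]
    have e : ∀ μ : Measure W, μ Tᶜ = 0 → ∫ m : T, f (φ m) ∂(μ.comap (Subtype.val : T → W)) =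
        ∫ m, f (iota c (z₀, m)) ∂μ := by
      intro μ hμ
      have e1 := (MeasurableEmbedding.subtype_coe hTm).integral_map
        (μ := μ.comap (Subtype.val : T → W)) (fun m : W => f (iota c (z₀, m)))
      rw [hmr μ hμ] at e1
      exact e1.symm
    rw [e μ₁ h1, e μ₂ h2]
    exact h f hf
  have hkey2 : μ₁.comap (Subtype.val : T → W) = μ₂.comap (Subtype.val : T → W) := by
    have := congrArg (fun μ : Measure X => μ.comap φ) hkey
    simpa only [hφe.comap_map] using this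
  rw [← hmr μ₁ h1, ← hmr μ₂ h2, hkey2]

end Pool.Agent.H5.EC
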