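import Pool.Agent.H5.EC.G6b

/-! Part G6c: transfer of harmonicity. -/

open Set Topology MeasureTheory
open scoped Manifold ContDiff ENNReal

attribute [-instance] TopCat.of.chartedSpace

noncomputable section

namespace Pool.Agent.H5.EC

open Pool.Agent.Helper289.LamDefs

variable {L : IY →ₗ[ℝ] ℝ} {ξ : Measure (ℂ × W)}

open Classical in
/-- a compactly supported function of the base moved by `i` -/
def mvf (a : ℂ → ℝ) (i : Mv) (z : ℂ) : ℝ := if z ∈ dom i then a (act i z) else 0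

lemma mvf_zero_nhds {a : ℂ → ℝ} {K : Set ℂ} (hK : IsCompact K) (hKF : K ⊆ F)
    (haK : ∀ z, z ∉ K → a z = 0) {i : Mv} {z : ℂ} (hz : z ∈ F) (h : z ∉ dom i) :
    mvf a i =ᶠ[𝓝 z] fun _ => 0 := by
  cases i with
  | none => exact absurd hz h
  | some b =>
    obtain ⟨δ, hpos, hle⟩ : ∃ δ : ℝ, 0 < δ ∧ ∀ z ∈ K, δ ≤ dep b.inv z := by
      rcases K.eq_empty_or_nonempty with he | hne
      · exact ⟨1, one_pos, fun z hz => by rw [he] at hz; exact hz.elim⟩
      · obtain ⟨q, hq, hmin⟩ := hK.exists_isMinOn hne ((continuousOn_dep b.inv).mono hKF)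
        exact ⟨dep b.inv q, hKF hq b.inv, fun z hz => hmin hz⟩
    have h1 : 1 ≤ dep b z := by
      by_contra h'
      push Not at h'
      exact h ⟨hz, h'⟩
    have h2 : ∀ᶠ u in 𝓝 z, 1 - δ < dep b u :=
      (contDiffAt_dep b hz 0 (by simp)).continuousAt.eventually (lt_mem_nhds (by linarith))
    filter_upwards [h2] with u hu
    unfold mvf
    by_cases hb : u ∈ dom (some b)
    · rw [if_pos hb]
      apply haK
      intro hmem
      have h3 := hle _ hmem
      have h4 : dep b.inv (act (some b) u) = 1 - dep b u := dep_mv hb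
      rw [h4] at h3
      linarith
    · rw [if_neg hb]

open Classical in
lemma lap2_sum_mvf {a : ℂ → ℝ} (ha : ContDiff ℝ ∞ a) {K : Set ℂ} (hK : IsCompact K) (hKF : K ⊆ F)
    (haK : ∀ z, z ∉ K → a z = 0) (C : Mv → ℝ) {z : ℂ} (hz : z ∈ F) :
    lap2 (fun z => ∑ i : Mv, mvf a i z * C i) z =
      ∑ i : Mv, if z ∈ dom i then ‖actd i z‖ ^ 2 * lap2 a (act i z) * C i else 0 := by
  have hcd : ∀ i, ContDiffAt ℝ 2 (mvf a i) z ∧ lap2 (mvf a i) z =
      if z ∈ dom i then ‖actd i z‖ ^ 2 * lap2 a (act i z) else 0 := by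
    intro i
    by_cases hi : z ∈ dom i
    · have h1 : mvf a i =ᶠ[𝓝 z] fun u => a (act i u) := by
        filter_upwards [(isOpen_dom i).mem_nhds hi] with u hu
        exact if_pos hu
      have h2 : ContDiffAt ℝ 2 (fun u => a (act i u)) z := by
        have h3 : ContDiffAt ℝ 2 (act i) z := (contDiffAt_act hi 2).restrict_scalars ℝ
        exact (ha.contDiffAt.of_le (by norm_cast)).comp z h3
      refine ⟨h2.congr_of_eventuallyEq h1, ?_⟩
      rw [lap2_congr h1, lap2_comp_holo (contDiffAt_act hi 2)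
        (ha.contDiffAt.of_le (by norm_cast)), (hasDerivAt_act hi).deriv, if_pos hi]
    · have h1 := mvf_zero_nhds hK hKF haK hz hi
      refine ⟨contDiffAt_const.congr_of_eventuallyEq h1, ?_⟩
      rw [lap2_congr h1, lap2_const, if_neg hi]
  have h4 : ∀ i, (fun z => mvf a i z * C i) = fun z => C i * mvf a i z := fun i => by
    funext u; ring
  rw [lap2_sum _ (fun i _ => (hcd i).1.mul contDiffAt_const)]
  refine Finset.sum_congr rfl (fun i _ => ?_)
  rw [h4, lap2_const_mul _ (hcd i).1, (hcd i).2]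
  split_ifs <;> ring

/-- integrals against the fibre marginals of a signed density -/
lemma integral_marg {v : ℂ × W → ℝ} (hv : Measurable v) {φ : W → ℝ} (hφ : Measurable φ) :
    ∫ m, φ m ∂((ξ.withDensity (fun p => ENNReal.ofReal (v p))).map Prod.snd) =
      ∫ p, φ p.2 * max (v p) 0 ∂ξ := by
  rw [integral_map measurable_snd.aemeasurable hφ.aestronglyMeasurable,
    integral_withDensity_eq_integral_toReal_smul hv.ennreal_ofReal (by
        filter_upwards with p using ENNReal.ofReal_lt_top)]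
  congr 1
  funext p
  rw [ENNReal.toReal_ofReal', smul_eq_mul, mul_comm]

/-- first step: integrals against smooth functions of `X` -/
lemma step_one {c : ℝ} (hξ : Rep L ξ)
    (h0 : ξ {p | p.2.1.1 = 0} = 0) {g : X → ℝ} (hg : Measurable g) (hb : ∀ x, 0 ≤ g x ∧ g x ≤ 1)
    {L₁ : C(X, ℝ) →ₗ[ℝ] ℝ} (hL₁ : ∀ h : C(X, ℝ), L₁ h = ∫ x, h x * g x ∂(nuc c ξ))
    (hH : HarmL L₁) {z₀ : ℂ} (hz₀ : z₀ ∈ F) {a : ℂ → ℝ} (ha : ContDiff ℝ ∞ a)
    {K : Set ℂ} (hK : IsCompact K) (hKF : K ⊆ F) (haK : ∀ z, z ∉ K → a z = 0) {f₀ : X → ℝ}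
    (hf₀ : ContMDiff 𝓘(ℝ, E7) 𝓘(ℝ, ℝ) ∞ f₀) :
    ∫ p, f₀ (iota c (z₀, p.2)) * ((sig p.1)⁻¹ * lap2 a p.1 * pb c g p) ∂ξ = 0 := by
  classical
  obtain ⟨f, hf, hfe⟩ := exists_smooth hz₀ ha ⟨K, hK, hKF, haK⟩ hf₀
  obtain ⟨φ, hφ⟩ := exists_ddc hf
  have hpi := Real.pi_pos
  have hfe' : ∀ p ∈ DX, ∀ z ∈ F, f (ppi (z, pic c p.2)) =
      ∑ i : Mv, mvf a i z * f₀ (iota c (z₀, rho i p.2)) := by
    intro p hp z hz
    rw [hfe z hz (pic c p.2) hp.2]
    refine Finset.sum_congr rfl (fun i _ => ?_)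
    unfold mvf
    split_ifs with h
    · rw [← pic_rho]; rfl
    · rw [zero_mul]
  have hC : ∀ v ∈ D, sig v.1 * ((2 * Real.pi) • Q φ) (ppi v) = lap2 (fun z => f (ppi (z, v.2))) v.1 := by
    intro v hv
    rw [ContinuousMap.smul_apply, Q_ddc hf hφ hv, smul_eq_mul]
    have h1 := sig_pos hv.1
    field_simp
  have h1 := hH f hf ((2 * Real.pi) • Q φ) hC
  set hc : C(X, ℝ) := (2 * Real.pi) • Q φ with hhc
  rw [hL₁] at h1
  have hgb : ∃ C, ∀ x, |g x| ≤ C := ⟨1, fun x => by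
    rw [abs_of_nonneg (hb x).1]; exact (hb x).2⟩
  have hcb : ∃ C, ∀ x, |hc x * g x| ≤ C := by
    refine ⟨‖hc‖ * 1, fun x => ?_⟩
    rw [abs_mul]
    have h2 : |g x| ≤ 1 := by rw [abs_of_nonneg (hb x).1]; exact (hb x).2
    exact mul_le_mul (hc.norm_coe_le_norm x) h2 (abs_nonneg _) (norm_nonneg _)
  have hnu : ∫ x, hc x * g x ∂(nuc c ξ) =
      ∫ p, eps none p.1 * (hc (iota c p) * g (iota c p)) ∂ξ :=
    integral_nuc (h := fun x => hc x * g x) c hξ (hc.continuous.measurable.mul hg) hcb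
  rw [hnu] at h1
  -- the test function
  set h : ℂ × W → ℝ := DX.piecewise
    (fun p => ((sig p.1)⁻¹ * lap2 a p.1) * f₀ (iota c (z₀, p.2))) (fun _ => 0) with hh
  have hsc : ContinuousOn (fun z => (sig z)⁻¹ * lap2 a z) F := by
    apply ContinuousOn.mul
    · exact contDiffOn_sig.continuousOn.inv₀ (fun z hz => (sig_pos hz).ne')
    · exact (contDiffOn_lap2 isOpen_F ha.contDiffOn).continuousOn
  have hf₀c : Continuous f₀ := hf₀.continuous
  have hic : ContinuousOn (fun p : ℂ × W => f₀ (iota c (z₀, p.2))) DX := by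
    apply hf₀c.comp_continuousOn
    apply (continuousOn_iota c).comp (continuousOn_const.prodMk continuousOn_snd)
    intro p hp
    exact ⟨hz₀, hp.2⟩
  have hhm : Measurable h := by
    apply ContinuousOn.measurable_piecewise _ continuousOn_const isOpen_DX.measurableSet
    exact (hsc.comp continuousOn_fst (fun p hp => hp.1)).mul hic
  have hhv : ∀ p ∈ DX, h p = ((sig p.1)⁻¹ * lap2 a p.1) * f₀ (iota c (z₀, p.2)) := fun p hp =>
    piecewise_eq_of_mem _ _ _ hp
  have hhn : ∀ p ∉ DX, h p = 0 := fun p hp => piecewise_eq_of_notMem _ _ _ hp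
  have hlap : ∀ z, z ∉ K → lap2 a z = 0 := by
    intro z hz
    have h4 : a =ᶠ[𝓝 z] fun _ => 0 := by
      filter_upwards [hK.isClosed.isOpen_compl.mem_nhds hz] with u hu
      exact haK u hu
    rw [lap2_congr h4, lap2_const]
  obtain ⟨C1, hC1⟩ := hK.exists_bound_of_continuousOn (hsc.mono hKF)
  obtain ⟨C2, hC2⟩ : ∃ C2, ∀ x, |f₀ x| ≤ C2 := by
    obtain ⟨C2, hC2⟩ := isCompact_univ.exists_bound_of_continuousOn hf₀c.continuousOn
    exact ⟨C2, fun x => hC2 x (mem_univ _)⟩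
  have hhb : ∃ C, ∀ p, |h p| ≤ C := by
    refine ⟨|C1| * |C2|, fun p => ?_⟩
    by_cases hp : p ∈ DX
    · rw [hhv p hp, abs_mul]
      by_cases hpK : p.1 ∈ K
      · exact mul_le_mul ((hC1 _ hpK).trans (le_abs_self _)) ((hC2 _).trans (le_abs_self _))
          (abs_nonneg _) (abs_nonneg _)
      · rw [hlap _ hpK, mul_zero, abs_zero, zero_mul]
        positivity
    · rw [hhn p hp, abs_zero]; positivity
  have hhinv : ∀ z ∈ F, ∀ m ∈ N, h (z, th 1 m) = h (z, m) := by
    intro z hz m hm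
    by_cases hx : m.1.1 = 0
    · rw [hhn (z, th 1 m) (fun h' => (th_x.1 h'.2) hx), hhn (z, m) (fun h' => h'.2 hx)]
    · rw [hhv (z, th 1 m) ⟨hz, th_x.2 hx⟩, hhv (z, m) ⟨hz, hx⟩]
      simp only
      rw [iota_th c 1 hz₀ hx]
  have hhK : ∃ K : Set ℂ, IsCompact K ∧ K ⊆ F ∧ ∀ z ∈ F, z ∉ K → ∀ m ∈ N, h (z, m) = 0 := by
    refine ⟨K, hK, hKF, fun z hz hzK m hm => ?_⟩
    by_cases hp : ((z, m) : ℂ × W) ∈ DX
    · rw [hhv _ hp]
      simp only
      rw [hlap _ hzK, mul_zero, zero_mul]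
    · exact hhn _ hp
  have h2 := rep_unfold hξ hhm (Dens_pb c hg hgb) hhb hhinv hhK
  -- identification
  have hae : ∀ᵐ p ∂ξ, p ∈ DX := by
    have h3 : ∀ᵐ p ∂ξ, p ∉ {p : ℂ × W | p.2.1.1 = 0} := measure_eq_zero_iff_ae_notMem.mp h0
    have h4 : ∀ᵐ p ∂ξ, p ∈ F ×ˢ Sh := by
      rw [ae_iff]; exact hξ.supp
    filter_upwards [h3, h4] with p h5 h6
    exact ⟨h6.1, h5⟩
  have h3 : ∫ p, eps none p.1 * (Av h p * pb c g p) ∂ξ = 0 := by
    rw [← h1]
    apply integral_congr_ae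
    filter_upwards [hae] with p hp
    have e1 : pb c g p = g (iota c p) := if_pos hp.2
    have e2 : Av h p = hc (iota c p) := by
      have e3 : sig p.1 * hc (iota c p) = lap2 (fun z => f (ppi (z, pic c p.2))) p.1 :=
        hC (p.1, pic c p.2) (iota_mem c hp)
      have e4 : (fun z => f (ppi (z, pic c p.2))) =ᶠ[𝓝 p.1]
          fun z => ∑ i : Mv, mvf a i z * f₀ (iota c (z₀, rho i p.2)) := by
        filter_upwards [isOpen_F.mem_nhds hp.1] with z hz
        exact hfe' p hp z hz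
      rw [lap2_congr e4, lap2_sum_mvf ha hK hKF haK _ hp.1] at e3
      have hs := sig_pos hp.1
      have e5 : hc (iota c p) = (sig p.1)⁻¹ * (sig p.1 * hc (iota c p)) := by
        field_simp
      rw [e5, e3, Finset.mul_sum]
      unfold Av
      refine Finset.sum_congr rfl (fun i _ => ?_)
      split_ifs with hi
      · rw [hhv _ ⟨act_mem_F hi, rho_x.2 hp.2⟩]
        simp only
        have e6 := sig_act hi
        have e7 := sig_pos (act_mem_F hi)
        have e8 : (sig (act i p.1))⁻¹ = (sig p.1)⁻¹ * ‖actd i p.1‖ ^ 2 := by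
          rw [← e6]
          have e9 : ‖actd i p.1‖ ≠ 0 := norm_ne_zero_iff.mpr (actd_ne hi)
          field_simp
        rw [e8]
        ring
      · rw [mul_zero]
    rw [e1, e2]
  rw [h2] at h3
  rw [← h3]
  apply integral_congr_ae
  filter_upwards [hae] with p hp
  rw [hhv p hp]
  ring

/-- harmonicity transfers from `X` to the model space -/
theorem harm_of_harmL {c : ℝ} (hc : c ∈ Ioo (0 : ℝ) (1 / 2)) (hξ : Rep L ξ)
    (h0 : ξ {p | p.2.1.1 = 0} = 0) {g : X → ℝ} (hg : Measurable g) (hb : ∀ x, 0 ≤ g x ∧ g x ≤ 1)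
    {L₁ : C(X, ℝ) →ₗ[ℝ] ℝ} (hL₁ : ∀ h : C(X, ℝ), L₁ h = ∫ x, h x * g x ∂(nuc c ξ))
    (hH : HarmL L₁) : Harm ξ (pb c g) := by
  classical
  rintro a ha ⟨K, hK, hKF, haK⟩ β hβ hβi ⟨C, hC⟩
  have hz₀ := F_nonempty
  have hsc : ContinuousOn (fun z => (sig z)⁻¹ * lap2 a z) F := by
    apply ContinuousOn.mul
    · exact contDiffOn_sig.continuousOn.inv₀ (fun z hz => (sig_pos hz).ne')
    · exact (contDiffOn_lap2 isOpen_F ha.contDiffOn).continuousOn
  have hlap : ∀ z, z ∉ K → lap2 a z = 0 := by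
    intro z hz
    have h4 : a =ᶠ[𝓝 z] fun _ => 0 := by
      filter_upwards [hK.isClosed.isOpen_compl.mem_nhds hz] with u hu
      exact haK u hu
    rw [lap2_congr h4, lap2_const]
  obtain ⟨C1, hC1⟩ := hK.exists_bound_of_continuousOn (hsc.mono hKF)
  have hgb : ∃ C, ∀ x, |g x| ≤ C := ⟨1, fun x => by
    rw [abs_of_nonneg (hb x).1]; exact (hb x).2⟩
  have hd := Dens_pb c hg hgb
  obtain ⟨Cw, hCw⟩ := hd.bdd
  have hae : ∀ᵐ p ∂ξ, p ∈ DX ∧ p.2 ∈ Sh := by
    have h3 : ∀ᵐ p ∂ξ, p ∉ {p : ℂ × W | p.2.1.1 = 0} := measure_eq_zero_iff_ae_notMem.mp h0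
    have h4 : ∀ᵐ p ∂ξ, p ∈ F ×ˢ Sh := by
      rw [ae_iff]; exact hξ.supp
    filter_upwards [h3, h4] with p h5 h6
    exact ⟨⟨h6.1, h5⟩, h6.2⟩
  -- the signed density
  set sa : ℂ → ℝ := F.piecewise (fun z => (sig z)⁻¹ * lap2 a z) (fun _ => 0) with hsa
  have hsam : Measurable sa :=
    ContinuousOn.measurable_piecewise hsc continuousOn_const isOpen_F.measurableSet
  have hsav : ∀ z ∈ F, sa z = (sig z)⁻¹ * lap2 a z := fun z hz => piecewise_eq_of_mem _ _ _ hz
  set v : ℂ × W → ℝ := fun p => sa p.1 * pb c g p with hv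
  have hvm : Measurable v := (hsam.comp measurable_fst).mul hd.meas
  have hvi : Integrable v ξ := by
    have hm : MeasurableSet (K ×ˢ (univ : Set W)) := hK.measurableSet.prod MeasurableSet.univ
    have hi : Integrable ((K ×ˢ (univ : Set W)).indicator (fun _ => |C1| * |Cw|)) ξ := by
      rw [integrable_indicator_iff hm]
      exact integrableOn_const (hξ.fin _ hK hKF).ne
    refine hi.mono' hvm.aestronglyMeasurable ?_
    filter_upwards [hae] with p hp
    by_cases hpK : p ∈ K ×ˢ (univ : Set W)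
    · rw [indicator_of_mem hpK, hv, norm_mul, hsav _ hp.1.1]
      exact mul_le_mul ((hC1 _ hpK.1).trans (le_abs_self _)) ((hCw _).trans (le_abs_self _))
        (norm_nonneg _) (abs_nonneg _)
    · rw [indicator_of_notMem hpK, hv]
      simp only
      rw [hsav _ hp.1.1, hlap _ (fun h => hpK ⟨h, mem_univ _⟩)]
      simp
  set μ₁ : Measure W := (ξ.withDensity (fun p => ENNReal.ofReal (v p))).map Prod.snd with hμ₁
  set μ₂ : Measure W := (ξ.withDensity (fun p => ENNReal.ofReal (-(v p)))).map Prod.snd with hμ₂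
  have hfin1 : IsFiniteMeasure μ₁ := by
    have : IsFiniteMeasure (ξ.withDensity (fun p => ENNReal.ofReal (v p))) :=
      isFiniteMeasure_withDensity_ofReal hvi.2
    rw [hμ₁]; infer_instance
  have hfin2 : IsFiniteMeasure μ₂ := by
    have : IsFiniteMeasure (ξ.withDensity (fun p => ENNReal.ofReal (-(v p)))) :=
      isFiniteMeasure_withDensity_ofReal hvi.neg.2
    rw [hμ₂]; infer_instance
  have hShm : MeasurableSet {m : W | m ∈ Sh ∧ m.1.1 ≠ 0} := by
    have h1 : Measurable (fun m : W => nsq m.1) := continuous_nsq.measurable.comp measurable_fst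
    have h2 : MeasurableSet Sh := by
      have e : Sh = {m : W | la ^ 2 < nsq m.1} ∩ {m : W | nsq m.1 ≤ 1} := rfl
      rw [e]
      exact (measurableSet_lt measurable_const h1).inter (measurableSet_le h1 measurable_const)
    have h3 : Measurable (fun m : W => m.1.1) := measurable_fst.comp measurable_fst
    exact h2.inter (h3 (measurableSet_singleton 0).compl)
  have hnull : ∀ u : ℂ × W → ℝ≥0∞,
      ((ξ.withDensity u).map Prod.snd) {m : W | m ∈ Sh ∧ m.1.1 ≠ 0}ᶜ = 0 := by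
    intro u
    rw [Measure.map_apply measurable_snd hShm.compl]
    apply withDensity_absolutelyContinuous
    rw [measure_eq_zero_iff_ae_notMem]
    filter_upwards [hae] with p hp hp'
    exact hp' ⟨hp.2, hp.1.2⟩
  have hsplit : ∀ φ : W → ℝ, Measurable φ → (∃ C, ∀ m, |φ m| ≤ C) →
      ∫ p, φ p.2 * v p ∂ξ = ∫ m, φ m ∂μ₁ - ∫ m, φ m ∂μ₂ := by
    rintro φ hφ ⟨Cφ, hCφ⟩
    have hmg : ∫ m, φ m ∂μ₂ = ∫ p, φ p.2 * max (-(v p)) 0 ∂ξ :=
      integral_marg (v := fun p => -(v p)) hvm.neg hφ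
    rw [hmg, hμ₁, integral_marg hvm hφ]
    have hi1 : Integrable (fun p => φ p.2 * max (v p) 0) ξ := by
      refine Integrable.bdd_mul (c := Cφ) hvi.pos_part (hφ.comp measurable_snd).aestronglyMeasurable ?_
      filter_upwards with p
      exact hCφ _
    have hi2 : Integrable (fun p => φ p.2 * max (-(v p)) 0) ξ := by
      refine Integrable.bdd_mul (c := Cφ) hvi.neg_part (hφ.comp measurable_snd).aestronglyMeasurable ?_
      filter_upwards with p
      exact hCφ _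
    rw [← integral_sub hi1 hi2]
    congr 1
    funext p
    rcases le_total 0 (v p) with hu | hu
    · rw [max_eq_left hu, max_eq_right (by linarith)]; ring
    · rw [max_eq_right hu, max_eq_left (by linarith)]; ring
  have hcont : ∀ f : X → ℝ, ContMDiff 𝓘(ℝ, E7) 𝓘(ℝ, ℝ) ∞ f →
      Measurable (fun m : W => f (iota c ((32 : ℂ), m))) := by
    intro f hf
    exact hf.continuous.measurable.comp ((measurable_iota c).comp
      (measurable_const.prodMk measurable_id))
  have heq : μ₁ = μ₂ := by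
    refine fibre_ext hc hz₀ (hnull _) (hnull _) ?_
    intro f hf
    obtain ⟨Cf, hCf⟩ := isCompact_univ.exists_bound_of_continuousOn hf.continuous.continuousOn
    have h1 := hsplit (fun m => f (iota c ((32 : ℂ), m))) (hcont f hf)
      ⟨Cf, fun m => hCf _ (mem_univ _)⟩
    have h2 := step_one hξ h0 hg hb hL₁ hH hz₀ ha hK hKF haK hf
    have h3 : ∫ p, f (iota c ((32 : ℂ), p.2)) * v p ∂ξ = 0 := by
      rw [← h2]
      apply integral_congr_ae
      filter_upwards [hae] with p hp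
      rw [hv]
      simp only
      rw [hsav _ hp.1.1]
    have h4 : ∫ p, f (iota c ((32 : ℂ), p.2)) * v p ∂ξ =
        ∫ m, f (iota c ((32 : ℂ), m)) ∂μ₁ - ∫ m, f (iota c ((32 : ℂ), m)) ∂μ₂ := h1
    rw [h3] at h4
    linarith
  have h5 := hsplit β hβ ⟨C, hC⟩
  rw [heq, sub_self] at h5
  rw [← h5]
  apply integral_congr_ae
  filter_upwards [hae] with p hp
  rw [hv]
  simp only
  rw [hsav _ hp.1.1]
  ring

end Pool.Agent.H5.EC
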