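import Pool.Agent.H5.EC.FolDefs
import Pool.Agent.H5.EC.D1
import Pool.Agent.H5.EC.B3

/-! Part H1: the foliation of `X`, its minimality, and directed currents. -/

open Set Topology MeasureTheory
open scoped Manifold ContDiff

attribute [-instance] TopCat.of.chartedSpace

noncomputable section

namespace Pool.Agent.H5.EC

open Pool.Agent.Helper289.LamDefs

/-- the foliation of `X` -/
def fol : Foliation V7 X where
  charts := range chart
  holomorphic := by
    rintro e ⟨p, rfl⟩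
    exact IsManifold.subset_maximalAtlas ⟨p, rfl⟩
  box := by
    rintro e ⟨p, rfl⟩
    refine ⟨p.1.1, rad p.1, Metric.ball p.1.2 (rad p.1), Metric.isOpen_ball, ?_⟩
    rw [chart_target, ball_prod_same]
  cover := by
    intro x
    exact ⟨chart ⟨rep x, rep_mem x⟩, ⟨_, rfl⟩, mem_chart_source E7 x⟩
  compat := by
    rintro e ⟨p, rfl⟩ e' ⟨q, rfl⟩ x ⟨hx, hx'⟩
    obtain ⟨u, hu, rfl⟩ : x ∈ ppi '' Metric.ball p.1 (rad p.1) := hx
    have hx2 := hx'
    obtain ⟨w, hw, hwu⟩ : ppi u ∈ ppi '' Metric.ball q.1 (rad q.1) := hx2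
    have huD := ball_subset_D p.2 hu
    have hwD := ball_subset_D q.2 hw
    obtain ⟨i, k, l, hl, hi, h⟩ := rel_iff.1 ((ppi_eq_iff huD hwD).1 hwu.symm)
    rw [h] at hw
    have hev := eventually_chart q huD hl hi hw
    obtain ⟨W, hW1, hW2, hW3⟩ := mem_nhds_iff.1 (Filter.inter_mem hev
      (Metric.isOpen_ball.mem_nhds hu))
    have hWD : W ⊆ D := fun v hv => ball_subset_D p.2 (hW1 hv).2
    refine ⟨ppi '' W ∩ (chart q).source, ?_, ?_, ?_⟩
    · exact Filter.inter_mem ((isOpen_image_ppi hW2 hWD).mem_nhds ⟨u, hW3, rfl⟩)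
        ((chart q).open_source.mem_nhds hx')
    · rintro y ⟨⟨v, hv, rfl⟩, hy⟩
      exact ⟨⟨v, (hW1 hv).2, rfl⟩, hy⟩
    · rintro y ⟨⟨v, hv, rfl⟩, -⟩ y' ⟨⟨v', hv', rfl⟩, -⟩ hvv
      have h1 : chart q (ppi v) = tr i k l v := (hW1 hv).1
      have h2 : chart q (ppi v') = tr i k l v' := (hW1 hv').1
      rw [chart_ppi (hW1 hv).2, chart_ppi (hW1 hv').2] at hvv
      rw [h1, h2]
      change (Th ^ k) (RM vl i v.2) + ((0 : ℂ × ℂ), l) = (Th ^ k) (RM vl i v'.2) + (0, l)
      rw [hvv]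

lemma tangentVec_eq {p : D} {x : X} (hx : x ∈ (chart p).source) :
    ∃ c : ℂ, c ≠ 0 ∧ Foliation.tangentVec (chart p) x = c • e1 := by
  obtain ⟨u, hu, rfl⟩ : x ∈ ppi '' Metric.ball p.1 (rad p.1) := hx
  have huD := ball_subset_D p.2 hu
  obtain ⟨i, k, l, hl, hi, hr⟩ := exists_rep huD
  refine ⟨actd i u.1, actd_ne hi, ?_⟩
  unfold Foliation.tangentVec
  rw [chart_ppi hu, chart_symm_coe]
  have h1 := (hasMFDerivAt_ppi_C huD hl hi hr).mfderiv
  rw [h1]
  change dtr i k u.1 ((1, 0) : ℂ × V7) = _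
  rw [dtr_apply]
  simp [e1]

/-- moving along a leaf in the base -/
lemma leaf_base {z z' : ℂ} (hz : z ∈ F) (hz' : z' ∈ F) {v : V7} (hv : v.1 ≠ 0) :
    ppi (z', v) ∈ fol.leaf (ppi (z, v)) := by
  have key := isPreconnected_F.induction₂' (fun a b : ℂ => ppi (b, v) ∈ fol.leaf (ppi (a, v)))
    ?_ ?_ hz hz'
  · exact key
  · intro a ha
    have haD : ((a, v) : E7) ∈ D := ⟨ha, hv⟩
    have hr := rad_pos haD
    have hb : Metric.ball a (rad (a, v)) ∈ 𝓝[F] a :=
      mem_nhdsWithin_of_mem_nhds (Metric.ball_mem_nhds a hr)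
    filter_upwards [hb] with b hb
    have h1 : ((a, v) : E7) ∈ Metric.ball ((a, v) : E7) (rad (a, v)) := Metric.mem_ball_self hr
    have h2 : ((b, v) : E7) ∈ Metric.ball ((a, v) : E7) (rad (a, v)) := by
      rw [← ball_prod_same]
      exact ⟨hb, Metric.mem_ball_self hr⟩
    have hs1 : ppi (a, v) ∈ (chart ⟨(a, v), haD⟩).source := ⟨_, h1, rfl⟩
    have hs2 : ppi (b, v) ∈ (chart ⟨(a, v), haD⟩).source := ⟨_, h2, rfl⟩
    have e1 : chart ⟨(a, v), haD⟩ (ppi (a, v)) = (a, v) := chart_ppi (p := ⟨(a, v), haD⟩) h1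
    have e2 : chart ⟨(a, v), haD⟩ (ppi (b, v)) = (b, v) := chart_ppi (p := ⟨(a, v), haD⟩) h2
    constructor
    · exact Relation.ReflTransGen.single ⟨_, ⟨_, rfl⟩, hs1, hs2, by rw [e1, e2]⟩
    · exact Relation.ReflTransGen.single ⟨_, ⟨_, rfl⟩, hs2, hs1, by rw [e1, e2]⟩
  · intro a b c _ _ _ h1 h2
    exact Relation.ReflTransGen.trans h1 h2

/-- the gluing annuli are not empty -/
lemma h1_dom_nonempty (i : Mv) : ∃ z, z ∈ dom i := by
  cases i with
  | none => exact ⟨32, F_nonempty⟩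
  | some b =>
    have hl2 : 0 < Real.log 2 := Real.log_pos (by norm_num)
    have hre : ∀ b' : Bd, (cen b').im = 0 := by
      rintro ⟨j, s⟩
      cases s <;> simp [cen]
    have hnc : ∀ b' : Bd, ‖cen b'‖ ≤ 24 := by
      rintro ⟨j, s⟩
      fin_cases j <;> cases s <;> norm_num [cen]
    -- the point with imaginary part `t` above the real number `c`
    have key : ∀ (c : ℂ) (t : ℝ), c.im = 0 → ‖c‖ ≤ 24 → 1 < t → t ≤ 100 →
        c + t * Complex.I ∈ F := by
      intro c t hc hc' ht ht' b'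
      by_cases hb : b' = (0, false)
      · rw [dep, if_pos hb, sub_pos, div_lt_iff₀ hl2]
        have h1 : ‖c + t * Complex.I‖ ≤ ‖c‖ + t := by
          refine (norm_add_le _ _).trans ?_
          rw [norm_mul, Complex.norm_I, mul_one, Complex.norm_real,
            Real.norm_of_nonneg (by linarith)]
        have h0 : 0 < ‖c + t * Complex.I‖ := by
          rw [norm_pos_iff]
          intro h0
          have := congrArg Complex.im h0
          simp [hc] at this
          linarith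
        have h2 : (7 : ℝ) * Real.log 2 = Real.log (2 ^ 7) := by
          rw [Real.log_pow]; norm_num
        rw [h2]
        apply Real.log_lt_log h0
        norm_num
        linarith
      · rw [dep, if_neg hb]
        apply div_pos _ hl2
        apply Real.log_pos
        refine lt_of_lt_of_le ht ?_
        have h1 := Complex.abs_im_le_norm (c + t * Complex.I - cen b')
        have h2 : (c + t * Complex.I - cen b').im = t := by
          simp [hc, hre b']
        rw [h2, abs_of_pos (by linarith)] at h1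
        exact h1
    by_cases hb : b = (0, false)
    · refine ⟨(0 : ℂ) + (100 : ℝ) * Complex.I, key 0 100 (by simp) (by simp) (by norm_num) le_rfl, ?_⟩
      rw [dep, if_pos hb]
      have h1 : ‖(0 : ℂ) + (100 : ℝ) * Complex.I‖ = 100 := by simp
      rw [h1, sub_lt_iff_lt_add, ← sub_lt_iff_lt_add', lt_div_iff₀ hl2]
      have h2 : ((7 : ℝ) - 1) * Real.log 2 = Real.log (2 ^ 6) := by
        rw [Real.log_pow]; norm_num
      rw [h2]
      exact Real.log_lt_log (by norm_num) (by norm_num)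
    · refine ⟨cen b + ((3 / 2 : ℝ) : ℂ) * Complex.I, key (cen b) (3 / 2) (hre b) (hnc b)
        (by norm_num) (by norm_num), ?_⟩
      rw [dep, if_neg hb, add_sub_cancel_left, norm_mul, Complex.norm_I, mul_one,
        Complex.norm_real, Real.norm_of_nonneg (by norm_num), div_lt_one hl2]
      exact Real.log_lt_log (by norm_num) (by norm_num)

lemma leaf_mem {z z' : ℂ} (hz : z ∈ F) (hz' : z' ∈ F) {v : V7} (hv : v.1 ≠ 0) (i : Mv) :
    ppi (z', RM vl i v) ∈ fol.leaf (ppi (z, v)) := by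
  obtain ⟨z0, hz0⟩ := h1_dom_nonempty i
  have h1 := leaf_base hz (dom_subset i hz0) hv
  have h2 := leaf_base (act_mem_F hz0) hz' ((RM_fst_ne vl i v).2 hv)
  rw [ppi_move hz0 hv] at h2
  exact Relation.ReflTransGen.trans h1 h2

/-- the closure of a leaf contains with a point the whole fibre direction -/
lemma h1_closure {z z' : ℂ} (hz : z ∈ F) (hz' : z' ∈ F) {w : V7} (hw : w.1 ≠ 0) {x : X}
    (h : ppi (z, w) ∈ closure (fol.leaf x)) : ppi (z', w) ∈ closure (fol.leaf x) := by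
  rw [mem_closure_iff_nhds] at h ⊢
  intro N hN
  have hD' : ((z', w) : E7) ∈ D := ⟨hz', hw⟩
  have hc : ContinuousAt (fun w : V7 => ppi (z', w)) w :=
    ContinuousAt.comp (f := fun w : V7 => ((z', w) : E7)) (g := ppi)
      (continuousAt_ppi hD') (by fun_prop)
  obtain ⟨V, hV1, hV2, hV3⟩ := mem_nhds_iff.1 (hc hN)
  have hO : IsOpen (D ∩ Prod.snd ⁻¹' V) := isOpen_D.inter (hV2.preimage continuous_snd)
  have hmem : ppi '' (D ∩ Prod.snd ⁻¹' V) ∈ 𝓝 (ppi (z, w)) :=
    (isOpen_image_ppi hO inter_subset_left).mem_nhds ⟨(z, w), ⟨⟨hz, hw⟩, hV3⟩, rfl⟩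
  obtain ⟨_, ⟨⟨a, w'⟩, ⟨haD, hw'⟩, rfl⟩, hleaf⟩ := h _ hmem
  refine ⟨ppi (z', w'), hV1 hw', ?_⟩
  exact Relation.ReflTransGen.trans hleaf (leaf_base haD.1 hz' haD.2)

theorem isMinimal_fol : fol.IsMinimal := by
  intro x
  obtain ⟨⟨z, v⟩, ⟨hz, hv⟩, rfl⟩ := ppi_surjective x
  set C : Set V7 := {w | w.1 ≠ 0 ∧ ∀ z' ∈ F, ppi (z', w) ∈ closure (fol.leaf (ppi (z, v)))}
    with hC
  have key := minimal_V C ?_ ?_ ?_ ?_
  · intro y
    obtain ⟨⟨z', w⟩, ⟨hz', hw⟩, rfl⟩ := ppi_surjective y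
    exact (key w hw).2 z' hz'
  · exact ⟨v, ⟨hv, fun z' hz' => subset_closure (leaf_base hz hz' hv)⟩, hv⟩
  · intro m hm hmC
    refine ⟨hm, fun z' hz' => ?_⟩
    have hD : ((z', m) : E7) ∈ D := ⟨hz', hm⟩
    have hc : ContinuousAt (fun w : V7 => ppi (z', w)) m :=
      ContinuousAt.comp (f := fun w : V7 => ((z', w) : E7)) (g := ppi)
        (continuousAt_ppi hD) (by fun_prop)
    have h1 : ppi (z', m) ∈ closure ((fun w : V7 => ppi (z', w)) '' C) :=
      mem_closure_image hc hmC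
    rw [← closure_closure (s := fol.leaf (ppi (z, v)))]
    refine closure_mono ?_ h1
    rintro _ ⟨w, hw, rfl⟩
    exact hw.2 z' hz'
  · intro i m hmC hm
    refine ⟨(RM_fst_ne vl i m).2 hm, fun z' hz' => ?_⟩
    obtain ⟨z0, hz0⟩ := h1_dom_nonempty i
    have h1 := hmC.2 z0 (dom_subset i hz0)
    rw [← ppi_move hz0 hm] at h1
    exact h1_closure (act_mem_F hz0) hz' ((RM_fst_ne vl i m).2 hm) h1
  · intro m hm l hl
    refine ⟨?_, fun z' hz' => ?_⟩
    · have : (m + ((0 : ℂ × ℂ), l)).1 = m.1 := by simp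
      rw [this]
      exact hm.1
    · rw [ppi_add hz' hm.1 hl]
      exact hm.2 z' hz'

/-- a directed current only depends on leafwise densities -/
theorem directed_fn {T : Current E7 X} (hT : fol.IsDirected T) (φ : ContForms E7 X) :
    T φ = fn T (Q φ) := by
  rw [fn_apply, ← sub_eq_zero, ← map_sub]
  apply hT
  rintro e ⟨p, rfl⟩ x hx
  obtain ⟨c, hc, h⟩ := tangentVec_eq hx
  rw [h]
  have h1 : (φ - om (Q φ)).1 x = φ.1 x - (Q φ x) • omega0 x := rfl
  rw [d1_form_cpair, h1]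
  have h2 : (φ.1 x - (Q φ x) • omega0 x) ![e1, Complex.I • e1] =
      φ.1 x ![e1, Complex.I • e1] - Q φ x * omega0 x ![e1, Complex.I • e1] := rfl
  have hs : sig (rep x).1 ≠ 0 := (sig_pos (rep_mem x).1).ne'
  rw [h2, omega0_pair, Q_apply, Qf]
  have h3 : ‖(e1 : E7).1‖ = 1 := by simp [e1]
  rw [h3]
  field_simp
  ring

/-- the current of a functional is directed -/
theorem isDirected_cur (L : C(X, ℝ) →ₗ[ℝ] ℝ) : fol.IsDirected (cur L) := by
  intro φ hφ
  rw [cur_apply]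
  have h1 : Q φ = 0 := by
    ext x
    obtain ⟨e, he, hx⟩ := fol.cover x
    have h2 := hφ e he x hx
    obtain ⟨p, rfl⟩ := he
    obtain ⟨c, hc, h⟩ := tangentVec_eq hx
    rw [h, d1_form_cpair] at h2
    have hc' : ‖c‖ ^ 2 ≠ 0 := by positivity
    rw [Q_apply, Qf, (mul_eq_zero.1 h2).resolve_left hc', mul_zero]
    rfl
  rw [h1, map_zero]

end Pool.Agent.H5.EC
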